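import Mathlib

namespace Pool.Agent.H21.ACC

variable (H : Type) [Monoid H]

/-- Every ascending chain of sets of the form `I x` is eventually constant. -/
def ACC (I : H → Set H) : Prop :=
  ∀ x : ℕ → H, (∀ n, I (x n) ⊆ I (x (n + 1))) → ∃ N, ∀ n, N ≤ n → I (x n) = I (x N)

/-- ACC on principal left ideals `H x`. -/
def ACCPL : Prop := ACC H fun x => {y | ∃ h, y = h * x}

/-- ACC on principal right ideals `x H`. -/
def ACCPR : Prop := ACC H fun x => {y | ∃ h, y = x * h}

/-- ACC on principal two-sided ideals `H x H`. -/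
def ACCP : Prop := ACC H fun x => {y | ∃ h k, y = h * x * k}

end Pool.Agent.H21.ACC
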