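import Mathlib

set_option autoImplicit false
open Complex Metric

namespace Pool.Agent.H21.Airfoil

noncomputable def P (u v : ℂ) : ℂ := 1 - 47 / 50 * u * v - I / 10 * u * v * (u + v)

lemma P_symm (u v : ℂ) : P u v = P v u := by unfold P; ring

lemma P_torus (u v : ℂ) (hu : ‖u‖ = 1) (hv : ‖v‖ = 1) : 1 / 100 ≤ (P u v).re := by
  obtain ⟨α, rfl⟩ := (Complex.norm_eq_one_iff u).1 hu
  obtain ⟨β, rfl⟩ := (Complex.norm_eq_one_iff v).1 hv
  set s := (α + β) / 2 with hs
  set t := (α - β) / 2 with ht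
  have e : P (Complex.exp (α * I)) (Complex.exp (β * I))
      = 1 - 47 / 50 * Complex.exp ((2 * s : ℝ) * I)
        - I / 10 * (Complex.exp ((3 * s + t : ℝ) * I) + Complex.exp ((3 * s - t : ℝ) * I)) := by
    have h1 : Complex.exp ((2 * s : ℝ) * I) = Complex.exp (α * I) * Complex.exp (β * I) := by
      rw [← Complex.exp_add]; congr 1; rw [hs]; push_cast; ring
    have h2 : Complex.exp ((3 * s + t : ℝ) * I)
        = Complex.exp (α * I) * Complex.exp (β * I) * Complex.exp (α * I) := by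
      rw [← Complex.exp_add, ← Complex.exp_add]; congr 1; rw [hs, ht]; push_cast; ring
    have h3 : Complex.exp ((3 * s - t : ℝ) * I)
        = Complex.exp (α * I) * Complex.exp (β * I) * Complex.exp (β * I) := by
      rw [← Complex.exp_add, ← Complex.exp_add]; congr 1; rw [hs, ht]; push_cast; ring
    rw [h1, h2, h3, P]; ring
  have e2 : (P (Complex.exp (α * I)) (Complex.exp (β * I))).re
      = 1 - 47 / 50 * Real.cos (2 * s) + 1 / 10 * (Real.sin (3 * s + t) + Real.sin (3 * s - t)) := by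
    rw [e]
    simp only [sub_re, one_re, mul_re, add_re, add_im, Complex.exp_ofReal_mul_I_re,
      Complex.exp_ofReal_mul_I_im, div_ofNat_re, div_ofNat_im, I_re, I_im, re_ofNat, im_ofNat]
    ring
  rw [e2, Real.sin_add, Real.sin_sub, Real.cos_two_mul, Real.cos_sq', Real.sin_three_mul]
  set y := Real.sin s
  have hy : y ^ 2 ≤ 1 := Real.sin_sq_le_one s
  have hc := Real.abs_cos_le_one t
  have h1 : |3 * y - 4 * y ^ 3| ≤ 3 * |y| := by
    have : 3 * y - 4 * y ^ 3 = y * (3 - 4 * y ^ 2) := by ring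
    rw [this, abs_mul, mul_comm]
    refine mul_le_mul_of_nonneg_right ?_ (abs_nonneg y)
    rw [abs_le]; constructor <;> nlinarith [sq_nonneg y]
  have h2 : |(3 * y - 4 * y ^ 3) * Real.cos t| ≤ 3 * |y| := by
    rw [abs_mul]
    nlinarith [abs_nonneg (3 * y - 4 * y ^ 3), abs_nonneg (Real.cos t)]
  have h3 := neg_abs_le ((3 * y - 4 * y ^ 3) * Real.cos t)
  have h4 := sq_abs y
  nlinarith [sq_nonneg (|y| - 4 / 25)]

lemma min_re (g : ℂ → ℂ) (hg : Differentiable ℂ g) (m : ℝ) (hm : ∀ z, ‖z‖ = 1 → m ≤ (g z).re)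
    (z : ℂ) (hz : ‖z‖ ≤ 1) : m ≤ (g z).re := by
  have h1 : ‖Complex.exp (-g z)‖ ≤ Real.exp (-m) := by
    refine Complex.norm_le_of_forall_mem_frontier_norm_le (f := fun w => Complex.exp (-g w))
      (U := ball (0 : ℂ) 1) isBounded_ball (hg.neg.cexp.diffContOnCl) ?_ ?_
    · intro w hw
      rw [frontier_ball _ one_ne_zero] at hw
      rw [Complex.norm_exp, Real.exp_le_exp, neg_re, neg_le_neg_iff]
      exact hm w (by simpa using hw)
    · rw [closure_ball _ one_ne_zero]; simpa using hz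
  rwa [Complex.norm_exp, Real.exp_le_exp, neg_re, neg_le_neg_iff] at h1

lemma P_re (u v : ℂ) (hu : ‖u‖ ≤ 1) (hv : ‖v‖ ≤ 1) : 1 / 100 ≤ (P u v).re := by
  refine min_re (fun u => P u v) (by unfold P; fun_prop) _ (fun u hu => ?_) u hu
  exact min_re (fun v => P u v) (by unfold P; fun_prop) _ (fun v hv => P_torus u v hu hv) v hv

lemma P_slit (u v : ℂ) (hu : ‖u‖ ≤ 1) (hv : ‖v‖ ≤ 1) : P u v ∈ slitPlane :=
  Or.inl (lt_of_lt_of_le (by norm_num) (P_re u v hu hv))

lemma P_ne (u v : ℂ) (hu : ‖u‖ ≤ 1) (hv : ‖v‖ ≤ 1) : P u v ≠ 0 :=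
  slitPlane_ne_zero (P_slit u v hu hv)

/-- the point `z₀ = -0.97 i` -/
noncomputable def z0 : ℂ := -(97 / 100) * I

noncomputable def den (z : ℂ) : ℂ := 1 - 97 / 100 * I * z

noncomputable def phi (z : ℂ) : ℂ := (z - z0) / den z

lemma normSq_lt {z : ℂ} (hz : z ∈ ball (0 : ℂ) 1) : z.re * z.re + z.im * z.im < 1 := by
  have h1 : ‖z‖ < 1 := by simpa using hz
  rw [← Complex.normSq_apply, Complex.normSq_eq_norm_sq]
  nlinarith [norm_nonneg z]

lemma den_ne {z : ℂ} (hz : z ∈ ball (0 : ℂ) 1) : den z ≠ 0 := by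
  intro h
  have h1 := congrArg Complex.re h
  have h2 := normSq_lt hz
  simp [den] at h1
  nlinarith [sq_nonneg z.re]

lemma phi_lt {z : ℂ} (hz : z ∈ ball (0 : ℂ) 1) : ‖phi z‖ < 1 := by
  rw [phi, norm_div, div_lt_one (norm_pos_iff.2 (den_ne hz))]
  refine lt_of_pow_lt_pow_left₀ 2 (norm_nonneg _) ?_
  rw [← Complex.normSq_eq_norm_sq, ← Complex.normSq_eq_norm_sq]
  have h2 := normSq_lt hz
  simp [Complex.normSq_apply, den, z0]
  nlinarith

lemma phi_sub {z w : ℂ} (hz : z ∈ ball (0 : ℂ) 1) (hw : w ∈ ball (0 : ℂ) 1) :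
    phi z - phi w = 591 / 10000 * (z - w) / (den z * den w) := by
  have h1 := den_ne hz
  have h2 := den_ne hw
  rw [phi, phi]
  field_simp
  simp only [den, z0]
  linear_combination (9409 * (z - w)) * Complex.I_mul_I

lemma den_deriv (z : ℂ) : HasDerivAt den (-(97 / 100 * I)) z := by
  have h := ((hasDerivAt_id z).const_mul (97 / 100 * I : ℂ)).const_sub 1
  rw [mul_one] at h
  exact h

lemma phi_deriv {z : ℂ} (hz : z ∈ ball (0 : ℂ) 1) :
    HasDerivAt phi (591 / 10000 / den z ^ 2) z := by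
  have h1 := den_ne hz
  have hd := den_deriv z
  have h := ((hasDerivAt_id z).sub_const z0).div hd h1
  have e : (1 * den z - (id z - z0) * -(97 / 100 * I)) / den z ^ 2 = 591 / 10000 / den z ^ 2 := by
    congr 1
    simp only [den, z0, id]
    linear_combination (9409 / 10000) * Complex.I_mul_I
  rw [e] at h
  exact h

lemma phi_z0 : phi z0 = 0 := by simp [phi]

lemma z0_mem : z0 ∈ ball (0 : ℂ) 1 := by
  simp [z0]; norm_num

lemma den_z0 : den z0 = 591 / 10000 := by
  simp only [den, z0]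
  linear_combination (9409 / 10000) * Complex.I_mul_I

/-- denominator of `m` -/
noncomputable def D (u : ℂ) : ℂ := (1 - u) * P u 1

noncomputable def m (u : ℂ) : ℂ := u / D u

lemma D_ne {u : ℂ} (hu : ‖u‖ < 1) : D u ≠ 0 := by
  refine mul_ne_zero (fun h => ?_) (P_ne u 1 hu.le (by simp))
  have : u = 1 := (sub_eq_zero.1 h).symm
  rw [this] at hu; simp at hu

lemma m_sub {u v : ℂ} (hu : ‖u‖ < 1) (hv : ‖v‖ < 1) :
    m u - m v = (u - v) * P u v / (D u * D v) := by
  have h1 := D_ne hu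
  have h2 := D_ne hv
  rw [m, m]
  field_simp
  simp only [D, P]
  ring

noncomputable def A (z : ℂ) : ℂ := den z * D (phi z)

lemma A_ne {z : ℂ} (hz : z ∈ ball (0 : ℂ) 1) : A z ≠ 0 := mul_ne_zero (den_ne hz) (D_ne (phi_lt hz))

noncomputable def K : ℂ := A 0 ^ 2 / P (phi 0) (phi 0)

lemma zero_mem : (0 : ℂ) ∈ ball (0 : ℂ) 1 := mem_ball_self one_pos

lemma PP_ne {z w : ℂ} (hz : z ∈ ball (0 : ℂ) 1) (hw : w ∈ ball (0 : ℂ) 1) :
    P (phi z) (phi w) ≠ 0 := P_ne _ _ (phi_lt hz).le (phi_lt hw).le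

lemma K_ne : K ≠ 0 := div_ne_zero (pow_ne_zero 2 (A_ne zero_mem)) (PP_ne zero_mem zero_mem)

noncomputable def f (z : ℂ) : ℂ := 10000 / 591 * K * (m (phi z) - m (phi 0))

lemma f_sub {z w : ℂ} (hz : z ∈ ball (0 : ℂ) 1) (hw : w ∈ ball (0 : ℂ) 1) :
    f z - f w = K * (z - w) * P (phi z) (phi w) / (A z * A w) := by
  have e : f z - f w = 10000 / 591 * K * (m (phi z) - m (phi w)) := by simp only [f]; ring
  have h1 := den_ne hz
  have h2 := den_ne hw
  have h3 := D_ne (phi_lt hz)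
  have h4 := D_ne (phi_lt hw)
  rw [e, m_sub (phi_lt hz) (phi_lt hw), phi_sub hz hw, A, A]
  field_simp

lemma f_zero : f 0 = 0 := by simp [f]

lemma f_eq {z : ℂ} (hz : z ∈ ball (0 : ℂ) 1) :
    f z = K * z * P (phi z) (phi 0) / (A z * A 0) := by
  have := f_sub hz zero_mem
  rwa [f_zero, sub_zero, sub_zero] at this

lemma f_inj : Set.InjOn f (ball (0 : ℂ) 1) := by
  intro z hz w hw h
  have h1 := f_sub hz hw
  rw [h, sub_self, eq_comm, div_eq_zero_iff] at h1
  rcases h1 with h1 | h1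
  · rcases mul_eq_zero.1 h1 with h2 | h2
    · exact sub_eq_zero.1 ((mul_eq_zero.1 h2).resolve_left K_ne)
    · exact absurd h2 (PP_ne hz hw)
  · exact absurd h1 (mul_ne_zero (A_ne hz) (A_ne hw))

lemma phi_diff {z : ℂ} (hz : z ∈ ball (0 : ℂ) 1) : DifferentiableAt ℂ phi z :=
  (phi_deriv hz).differentiableAt

lemma f_diff : DifferentiableOn ℂ f (ball (0 : ℂ) 1) := by
  intro z hz
  have h1 : DifferentiableAt ℂ m (phi z) := by
    unfold m
    refine DifferentiableAt.div (by fun_prop) (by unfold D P; fun_prop) (D_ne (phi_lt hz))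
  exact (((h1.comp z (phi_diff hz)).sub_const _).const_mul _).differentiableWithinAt

lemma f_deriv : deriv f 0 = 1 := by
  have hG : DifferentiableAt ℂ (fun z => K * P (phi z) (phi 0) / (A z * A 0)) 0 := by
    have h0 := phi_diff zero_mem
    refine DifferentiableAt.div ?_ ?_ (mul_ne_zero (A_ne zero_mem) (A_ne zero_mem))
    · unfold P; fun_prop
    · unfold A D P den; fun_prop
  have e : f =ᶠ[nhds 0] fun z => z * (K * P (phi z) (phi 0) / (A z * A 0)) := by
    filter_upwards [isOpen_ball.mem_nhds zero_mem] with z hz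
    rw [f_eq hz]; ring
  rw [e.deriv_eq]
  have h := ((hasDerivAt_id (0 : ℂ)).mul hG.hasDerivAt).deriv
  have e2 : (fun z => z * (K * P (phi z) (phi 0) / (A z * A 0)))
      = (id * fun z => K * P (phi z) (phi 0) / (A z * A 0)) := by ext; simp
  rw [e2, h]
  have h1 := A_ne zero_mem
  have h2 := PP_ne zero_mem zero_mem
  simp only [id, zero_mul, add_zero, one_mul, K]
  field_simp

noncomputable def F (x : ℂ × ℂ) : ℂ :=
  log (P (phi x.1) (phi x.2)) + log (P (phi 0) (phi 0)) - log (P (phi x.1) (phi 0))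
    - log (P (phi 0) (phi x.2))

lemma F_zero : F (0, 0) = 0 := by simp [F]

lemma F_diff : DifferentiableOn ℂ F (ball (0 : ℂ) 1 ×ˢ ball (0 : ℂ) 1) := by
  rintro ⟨z, w⟩ ⟨hz, hw⟩
  have h1 : DifferentiableAt ℂ (fun x : ℂ × ℂ => phi x.1) (z, w) :=
    (phi_diff hz).comp (z, w) differentiableAt_fst
  have h2 : DifferentiableAt ℂ (fun x : ℂ × ℂ => phi x.2) (z, w) :=
    (phi_diff hw).comp (z, w) differentiableAt_snd
  have hs := fun {a b : ℂ} (ha : a ∈ ball (0 : ℂ) 1) (hb : b ∈ ball (0 : ℂ) 1) =>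
    P_slit _ _ (phi_lt ha).le (phi_lt hb).le
  refine DifferentiableAt.differentiableWithinAt ?_
  have a1 : DifferentiableAt ℂ (fun x : ℂ × ℂ => P (phi x.1) (phi x.2)) (z, w) := by
    unfold P; fun_prop
  have a2 : DifferentiableAt ℂ (fun x : ℂ × ℂ => P (phi x.1) (phi 0)) (z, w) := by
    unfold P; fun_prop
  have a3 : DifferentiableAt ℂ (fun x : ℂ × ℂ => P (phi 0) (phi x.2)) (z, w) := by
    unfold P; fun_prop
  exact (((a1.clog (hs hz hw)).add_const _).sub (a2.clog (hs hz zero_mem))).sub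
    (a3.clog (hs zero_mem hw))

lemma F_exp {z w : ℂ} (hz : z ∈ ball (0 : ℂ) 1) (hw : w ∈ ball (0 : ℂ) 1) (hzw : z ≠ w)
    (hz0 : z ≠ 0) (hw0 : w ≠ 0) :
    Complex.exp (F (z, w)) = (f z - f w) / (z - w) * (z / f z) * (w / f w) := by
  rw [f_sub hz hw, f_eq hz, f_eq hw]
  simp only [F, Complex.exp_sub, Complex.exp_add, Complex.exp_log (PP_ne hz hw),
    Complex.exp_log (PP_ne zero_mem zero_mem), Complex.exp_log (PP_ne hz zero_mem),
    Complex.exp_log (PP_ne zero_mem hw), P_symm (phi w) (phi 0), K]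
  have := A_ne hz
  have := A_ne hw
  have := A_ne zero_mem
  have := PP_ne hz hw
  have := PP_ne hz zero_mem
  have := PP_ne zero_mem hw
  have := PP_ne zero_mem zero_mem
  have := sub_ne_zero.2 hzw
  field_simp

/-- first derivative in the second variable -/
noncomputable def L1 (u y : ℂ) : ℂ :=
  (-(47 / 50 * u) - I / 10 * u * (u + 2 * phi y)) * (591 / 10000 / den y ^ 2) / P u (phi y)

lemma L1_deriv {u y : ℂ} (hu : ‖u‖ ≤ 1) (hy : y ∈ ball (0 : ℂ) 1) :
    HasDerivAt (fun y => log (P u (phi y))) (L1 u y) y := by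
  have h1 : HasDerivAt (fun v => P u v) (-(47 / 50 * u) - I / 10 * u * (u + 2 * phi y)) (phi y) := by
    have h := (((hasDerivAt_id (phi y)).const_mul (47 / 50 * u)).const_sub 1).sub
      (((hasDerivAt_id (phi y)).const_mul (I / 10 * u)).mul ((hasDerivAt_id (phi y)).const_add u))
    refine HasDerivAt.congr_deriv h ?_
    simp only [id]; ring
  exact (h1.comp y (phi_deriv hy)).clog (P_slit _ _ hu (phi_lt hy).le)

noncomputable def L2 (u : ℂ) : ℂ :=
  (10000 / 591) ^ 2 * (-(I / 5 * u) - (47 / 50 * u + I / 10 * u ^ 2) * (97 / 50 * I)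
    - (47 / 50 * u + I / 10 * u ^ 2) ^ 2)

lemma L2_deriv (u : ℂ) : HasDerivAt (fun y => L1 u y) (L2 u) z0 := by
  have hp := phi_deriv z0_mem
  have hd := den_deriv z0
  have hP : HasDerivAt (fun y => P u (phi y))
      ((-(47 / 50 * u) - I / 10 * u * u) * (591 / 10000 / den z0 ^ 2)) z0 := by
    have h := ((hp.const_mul (47 / 50 * u)).const_sub 1).sub
      ((hp.const_mul (I / 10 * u)).mul (hp.const_add u))
    refine HasDerivAt.congr_deriv h ?_
    simp only [phi_z0]; ring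
  have hP0 : P u (phi z0) = 1 := by simp [phi_z0, P]
  have h := (((((hp.const_mul 2).const_add u).const_mul (I / 10 * u)).const_sub
    (-(47 / 50 * u))).mul (((hasDerivAt_const z0 (591 / 10000 : ℂ)).div (hd.pow 2)
      (pow_ne_zero 2 (den_ne z0_mem))))).div hP (by rw [hP0]; exact one_ne_zero)
  refine HasDerivAt.congr_deriv h ?_
  have hP1 : P u 0 = 1 := by simp [P]
  simp only [Pi.mul_apply, Pi.div_apply, Pi.pow_apply, hP1, phi_z0, den_z0, L2]
  norm_num
  ring

lemma inner {x : ℂ} (hx : x ∈ ball (0 : ℂ) 1) :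
    iteratedDeriv 2 (fun y => F (x, y)) z0 = L2 (phi x) - L2 (phi 0) := by
  rw [iteratedDeriv_succ, iteratedDeriv_one]
  have e : deriv (fun y => F (x, y)) =ᶠ[nhds z0] fun y => L1 (phi x) y - L1 (phi 0) y := by
    filter_upwards [isOpen_ball.mem_nhds z0_mem] with y hy
    have : HasDerivAt (fun y => F (x, y)) (L1 (phi x) y - L1 (phi 0) y) y :=
      (((L1_deriv (phi_lt hx).le hy).add_const (log (P (phi 0) (phi 0)))).sub_const
        (log (P (phi x) (phi 0)))).sub (L1_deriv (phi_lt zero_mem).le hy)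
    exact this.deriv
  rw [e.deriv_eq]
  have : HasDerivAt (fun y => L1 (phi x) y - L1 (phi 0) y) (L2 (phi x) - L2 (phi 0)) z0 :=
    (L2_deriv _).sub (L2_deriv _)
  exact this.deriv

lemma outer : iteratedDeriv 1 (fun x => iteratedDeriv 2 (fun y => F (x, y)) z0) z0
    = (10000 / 591) ^ 3 * (-(5059 / 2500) * I) := by
  rw [iteratedDeriv_one]
  have e : (fun x => iteratedDeriv 2 (fun y => F (x, y)) z0) =ᶠ[nhds z0]
      fun x => L2 (phi x) - L2 (phi 0) := by
    filter_upwards [isOpen_ball.mem_nhds z0_mem] with x hx using inner hx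
  rw [e.deriv_eq]
  have h1 : HasDerivAt L2 ((10000 / 591) ^ 2 * (-(5059 / 2500) * I)) (phi z0) := by
    rw [phi_z0]
    have hi := hasDerivAt_id (0 : ℂ)
    have ha := (hi.const_mul (47 / 50 : ℂ)).add ((hi.pow 2).const_mul (I / 10))
    have h := (((hi.const_mul (I / 5)).neg.sub (ha.mul_const (97 / 50 * I))).sub
      (ha.pow 2)).const_mul ((10000 / 591 : ℂ) ^ 2)
    refine HasDerivAt.congr_deriv h ?_
    simp
    ring
  have h2 : HasDerivAt (fun x => L2 (phi x) - L2 (phi 0))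
      ((10000 / 591) ^ 2 * (-(5059 / 2500) * I) * (591 / 10000 / den z0 ^ 2)) z0 :=
    (h1.comp z0 (phi_deriv z0_mem)).sub_const _
  rw [h2.deriv, den_z0]
  ring

end Pool.Agent.H21.Airfoil
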