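import Mathlib

namespace Pool.Agent.H21.Alliance

variable {V : Type} [Fintype V] [DecidableEq V] (G : SimpleGraph V) [DecidableRel G.Adj]

/-- `D` is a defensive alliance: nonempty, and `|N[v] ∩ D| ≥ |N(v) \ D|` for all `v ∈ D`. -/
def IsDA (D : Finset V) : Prop :=
  D.Nonempty ∧ ∀ v ∈ D, (G.neighborFinset v \ D).card ≤ (insert v (G.neighborFinset v) ∩ D).card

/-- `D` is a locally minimal defensive alliance. -/
def IsLocMin (D : Finset V) : Prop := IsDA G D ∧ ∀ v ∈ D, ¬ IsDA G (D.erase v)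

end Pool.Agent.H21.Alliance
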