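import Mathlib

namespace Pool.Agent.H21.Axial

/-- Two copies of the algebra 3C(-1) glued along their annihilators; basis a, b, c, d, w with
a b = w - a - b, c d = w - c - d, idempotents a, b, c, d, all other products zero. -/
def A : Type := Fin 5 → ℚ

instance : AddCommGroup A := inferInstanceAs (AddCommGroup (Fin 5 → ℚ))
instance : Module ℚ A := inferInstanceAs (Module ℚ (Fin 5 → ℚ))

def mk (a b c d w : ℚ) : A := ![a, b, c, d, w]

instance : Mul A := ⟨fun x y => mk (x 0 * y 0 - (x 0 * y 1 + x 1 * y 0))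
  (x 1 * y 1 - (x 0 * y 1 + x 1 * y 0)) (x 2 * y 2 - (x 2 * y 3 + x 3 * y 2))
  (x 3 * y 3 - (x 2 * y 3 + x 3 * y 2)) ((x 0 * y 1 + x 1 * y 0) + (x 2 * y 3 + x 3 * y 2))⟩

theorem ext' {x y : A} (h0 : x 0 = y 0) (h1 : x 1 = y 1) (h2 : x 2 = y 2) (h3 : x 3 = y 3)
    (h4 : x 4 = y 4) : x = y := by
  funext i
  fin_cases i <;> assumption

@[simp] theorem mk0 (a b c d w : ℚ) : mk a b c d w 0 = a := rfl
@[simp] theorem mk1 (a b c d w : ℚ) : mk a b c d w 1 = b := rfl
@[simp] theorem mk2 (a b c d w : ℚ) : mk a b c d w 2 = c := rfl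
@[simp] theorem mk3 (a b c d w : ℚ) : mk a b c d w 3 = d := rfl
@[simp] theorem mk4 (a b c d w : ℚ) : mk a b c d w 4 = w := rfl
@[simp] theorem mul0 (x y : A) : (x * y) 0 = x 0 * y 0 - (x 0 * y 1 + x 1 * y 0) := rfl
@[simp] theorem mul1 (x y : A) : (x * y) 1 = x 1 * y 1 - (x 0 * y 1 + x 1 * y 0) := rfl
@[simp] theorem mul2 (x y : A) : (x * y) 2 = x 2 * y 2 - (x 2 * y 3 + x 3 * y 2) := rfl
@[simp] theorem mul3 (x y : A) : (x * y) 3 = x 3 * y 3 - (x 2 * y 3 + x 3 * y 2) := rfl
@[simp] theorem mul4 (x y : A) :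
    (x * y) 4 = (x 0 * y 1 + x 1 * y 0) + (x 2 * y 3 + x 3 * y 2) := rfl
@[simp] theorem add_app (x y : A) (i : Fin 5) : (x + y) i = x i + y i := rfl
@[simp] theorem sub_app (x y : A) (i : Fin 5) : (x - y) i = x i - y i := rfl
@[simp] theorem zero_app (i : Fin 5) : (0 : A) i = 0 := rfl
@[simp] theorem smul_app (r : ℚ) (x : A) (i : Fin 5) : (r • x) i = r * x i := rfl

instance inst : NonUnitalNonAssocCommRing A :=
  { (inferInstance : AddCommGroup A) with
    mul := (· * ·)
    left_distrib := by intro x y z; apply ext' <;> simp <;> ring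
    right_distrib := by intro x y z; apply ext' <;> simp <;> ring
    zero_mul := by intro x; apply ext' <;> simp
    mul_zero := by intro x; apply ext' <;> simp
    mul_comm := by intro x y; apply ext' <;> simp <;> ring }

instance tower : IsScalarTower ℚ A A :=
  ⟨fun r x y => by apply ext' <;> simp <;> ring⟩

instance comm : SMulCommClass ℚ A A :=
  ⟨fun r x y => by apply ext' <;> simp <;> ring⟩

def ea : A := mk 1 0 0 0 0
def eb : A := mk 0 1 0 0 0
def ec : A := mk 0 0 1 0 0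
def ed : A := mk 0 0 0 1 0
def ew : A := mk 0 0 0 0 1

theorem decomp (x : A) : x = x 0 • ea + x 1 • eb + x 2 • ec + x 3 • ed + x 4 • ew := by
  apply ext' <;> simp [ea, eb, ec, ed, ew]

end Pool.Agent.H21.Axial
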