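import Mathlib

set_option autoImplicit false

open Complex Filter Topology Finset ArithmeticFunction MeasureTheory
open scoped ComplexOrder ArithmeticFunction.zeta

namespace Pool.Agent.H21.CMO

/-- completely multiplicative arithmetic function -/
def IsCM (g : ArithmeticFunction ℂ) : Prop := g 1 = 1 ∧ ∀ m n, g (m * n) = g m * g n

lemma pmul_mul {g : ArithmeticFunction ℂ} (hg : IsCM g) (u v : ArithmeticFunction ℂ) :
    pmul g (u * v) = pmul g u * pmul g v := by
  ext n
  simp only [pmul_apply, mul_apply, mul_sum]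
  refine sum_congr rfl fun p hp => ?_
  rw [← (Nat.mem_divisorsAntidiagonal.1 hp).1, hg.2]; ring

noncomputable def lg : ArithmeticFunction ℂ := ⟨fun n => (Real.log n : ℂ), by simp⟩

noncomputable def La : ArithmeticFunction ℂ := ⟨fun n => (vonMangoldt n : ℂ), by simp⟩

lemma leibniz (u v : ArithmeticFunction ℂ) :
    pmul lg (u * v) = pmul lg u * v + u * pmul lg v := by
  ext n
  simp only [pmul_apply, mul_apply, mul_sum, ArithmeticFunction.add_apply, ← sum_add_distrib]
  refine sum_congr rfl fun p hp => ?_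
  obtain ⟨h1, h2⟩ := Nat.mem_divisorsAntidiagonal.1 hp
  have a1 : (p.1 : ℝ) ≠ 0 := by
    have : p.1 ≠ 0 := fun h => h2 (by rw [← h1, h, zero_mul])
    exact_mod_cast this
  have a2 : (p.2 : ℝ) ≠ 0 := by
    have : p.2 ≠ 0 := fun h => h2 (by rw [← h1, h, mul_zero])
    exact_mod_cast this
  have : lg n = lg p.1 + lg p.2 := by
    simp only [lg, coe_mk]
    rw [← h1, Nat.cast_mul, Real.log_mul a1 a2]; push_cast; ring
  rw [this]; ring

lemma La_mul_zeta : La * (ζ : ArithmeticFunction ℂ) = lg := by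
  ext n
  have := congrArg (fun f : ArithmeticFunction ℝ => ((f n : ℝ) : ℂ)) vonMangoldt_mul_zeta
  simp only [coe_mul_zeta_apply, log_apply] at this
  rw [coe_mul_zeta_apply]
  simp only [La, lg, coe_mk]
  rw [← this]; push_cast; rfl

lemma lg_cm {g : ArithmeticFunction ℂ} (hg : IsCM g) : pmul lg g = pmul g La * g := by
  have := pmul_mul hg La (ζ : ArithmeticFunction ℂ)
  rw [La_mul_zeta, pmul_zeta, pmul_comm] at this
  exact this

lemma zeta_cm : IsCM (ζ : ArithmeticFunction ℂ) := by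
  refine ⟨by simp, fun m n => ?_⟩
  by_cases hm : m = 0 <;> by_cases hn : n = 0 <;> simp [natCoe_apply, zeta_apply, hm, hn]

/-- complex conjugate -/
noncomputable def cj (g : ArithmeticFunction ℂ) : ArithmeticFunction ℂ :=
  ⟨fun n => (starRingEnd ℂ) (g n), by simp⟩

lemma cj_cm {g : ArithmeticFunction ℂ} (hg : IsCM g) : IsCM (cj g) :=
  ⟨by simp [cj, hg.1], fun m n => by simp [cj, hg.2]⟩

noncomputable def aa (h : ArithmeticFunction ℂ) : ArithmeticFunction ℂ :=
  ((ζ : ArithmeticFunction ℂ) * ζ) * (h * cj h)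

lemma aa_nonneg {h : ArithmeticFunction ℂ} (hh : IsCM h) (hb : ∀ n, ‖h n‖ ≤ 1) (n : ℕ) :
    0 ≤ aa h n := by
  set c := La + La + pmul h La + pmul (cj h) La with hc
  have key : pmul lg (aa h) = aa h * c := by
    rw [aa, leibniz, leibniz, leibniz, lg_cm zeta_cm, lg_cm hh, lg_cm (cj_cm hh), zeta_pmul, hc]
    ring
  have hc0 : ∀ m, 0 ≤ c m := by
    intro m
    have e : c m = ((vonMangoldt m * (2 + 2 * (h m).re) : ℝ) : ℂ) := by
      simp only [hc, ArithmeticFunction.add_apply, pmul_apply, La, cj, coe_mk]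
      push_cast
      rw [Complex.re_eq_add_conj]; ring
    rw [e, zero_le_real]
    have := (abs_le.1 ((abs_re_le_norm (h m)).trans (hb m))).1
    exact mul_nonneg vonMangoldt_nonneg (by linarith)
  have hc1 : c 1 = 0 := by simp [hc, La]
  induction n using Nat.strong_induction_on with
  | _ n ih =>
    rcases Nat.lt_trichotomy n 1 with h1 | h1 | h1
    · have : n = 0 := by omega
      simp [this]
    · subst h1
      simp [aa, hh.1, cj]
    · have h2 := congrArg (fun f : ArithmeticFunction ℂ => f n) key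
      simp only [pmul_apply, mul_apply] at h2
      have h3 : 0 ≤ lg n * aa h n := by
        rw [h2]
        refine sum_nonneg fun p hp => ?_
        obtain ⟨e1, e2⟩ := Nat.mem_divisorsAntidiagonal.1 hp
        by_cases hp2 : p.2 = 1
        · rw [hp2, hc1, mul_zero]
        · refine mul_nonneg (ih _ ?_) (hc0 _)
          have : p.2 ≠ 0 := fun h => e2 (by rw [← e1, h, mul_zero])
          have : p.1 ≠ 0 := fun h => e2 (by rw [← e1, h, zero_mul])
          rw [← e1]
          exact lt_mul_of_one_lt_right (by omega) (by omega)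
      have hl : (0 : ℂ) < lg n := by
        simp only [lg, coe_mk, zero_lt_real]
        exact Real.log_pos (by exact_mod_cast h1)
      have hl2 : (0 : ℂ) ≤ (lg n)⁻¹ := by
        simp only [lg, coe_mk, ← ofReal_inv, zero_le_real]
        exact inv_nonneg.2 (Real.log_natCast_nonneg n)
      have := mul_nonneg hl2 h3
      rwa [← mul_assoc, inv_mul_cancel₀ hl.ne', one_mul] at this

open Classical in
/-- indicator of the `N`-smooth numbers -/
noncomputable def sm (N : ℕ) : ArithmeticFunction ℂ :=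
  ⟨fun n => if n ∈ N.smoothNumbers then 1 else 0, by simp [Nat.mem_smoothNumbers]⟩

lemma sm_cm (N : ℕ) : IsCM (sm N) := by
  refine ⟨by simp [sm, Nat.mem_smoothNumbers], fun m n => ?_⟩
  simp only [sm, coe_mk]
  by_cases hmn : m * n ∈ N.smoothNumbers
  · rw [if_pos hmn, if_pos (Nat.mem_smoothNumbers_of_dvd hmn (dvd_mul_right m n)),
      if_pos (Nat.mem_smoothNumbers_of_dvd hmn (dvd_mul_left n m)), mul_one]
  · rw [if_neg hmn]
    by_cases hm : m ∈ N.smoothNumbers
    · by_cases hn : n ∈ N.smoothNumbers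
      · exact absurd (Nat.mul_mem_smoothNumbers hm hn) hmn
      · simp [hn]
    · simp [hm]

lemma smooth_hasSum {g : ArithmeticFunction ℂ} (hg : IsCM g) (hb : ∀ n, ‖g n‖ ≤ 1) (N : ℕ)
    (σ : ℝ) (hσ : 0 < σ) :
    LSeriesHasSum (pmul (sm N) g) σ (∏ p ∈ N.primesBelow, (1 - g p * ((p : ℝ) ^ (-σ) : ℝ))⁻¹) := by
  let F : ℕ →* ℂ :=
    { toFun := fun n => g n * ((n : ℝ) ^ (-σ) : ℝ)
      map_one' := by simp [hg.1]
      map_mul' := fun m n => by
        rw [hg.2, Nat.cast_mul, Real.mul_rpow (Nat.cast_nonneg _) (Nat.cast_nonneg _)]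
        push_cast; ring }
  have h := (EulerProduct.summable_and_hasSum_smoothNumbers_prod_primesBelow_geometric (f := F)
    (fun {p} hp => ?_) N).2
  · have h2 := (hasSum_subtype_iff_indicator (f := fun m => F m)).1 h
    have e : LSeries.term (pmul (sm N) g) σ = Set.indicator N.smoothNumbers (fun m => F m) := by
      funext n
      by_cases hn : n ∈ N.smoothNumbers
      · have hn0 : n ≠ 0 := Nat.ne_zero_of_mem_smoothNumbers hn
        rw [Set.indicator_of_mem hn, LSeries.term_of_ne_zero hn0, pmul_apply]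
        simp only [sm, coe_mk, if_pos hn, one_mul, F, MonoidHom.coe_mk, OneHom.coe_mk]
        rw [ofReal_cpow (Nat.cast_nonneg _), ofReal_natCast, ofReal_neg, cpow_neg, div_eq_mul_inv]
      · rw [Set.indicator_of_notMem hn, LSeries.term_def]
        split_ifs
        · rfl
        · simp [pmul_apply, sm, hn]
    unfold LSeriesHasSum
    rw [e]
    exact h2
  · show ‖g p * ((p : ℝ) ^ (-σ) : ℝ)‖ < 1
    rw [norm_mul, Complex.norm_real, Real.norm_of_nonneg (by positivity)]
    have : (p : ℝ) ^ (-σ) < 1 :=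
      Real.rpow_lt_one_of_one_lt_of_neg (by exact_mod_cast hp.one_lt) (by linarith)
    exact mul_lt_one_of_nonneg_of_lt_one_right (hb p) (by positivity) this

lemma smooth_lower {h : ArithmeticFunction ℂ} (hh : IsCM h) (hb : ∀ n, ‖h n‖ ≤ 1) (N : ℕ)
    (σ : ℝ) (hσ : 0 < σ) :
    LSeriesSummable (pmul (sm N) (aa h)) σ ∧
      ‖∏ p ∈ N.primesBelow, (1 - (p : ℂ) ^ (-((2 * σ : ℝ) : ℂ)))⁻¹‖ ^ 2 ≤
        ‖LSeries (pmul (sm N) (aa h)) σ‖ := by
  have hz : ∀ n, ‖(ζ : ArithmeticFunction ℂ) n‖ ≤ 1 := by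
    intro n; by_cases hn : n = 0 <;> simp [natCoe_apply, zeta_apply, hn]
  have hc : ∀ n, ‖cj h n‖ ≤ 1 := by intro n; simpa [cj] using hb n
  have A := smooth_hasSum zeta_cm hz N σ hσ
  have B := smooth_hasSum hh hb N σ hσ
  have C := smooth_hasSum (cj_cm hh) hc N σ hσ
  have T := LSeriesHasSum_mul (LSeriesHasSum_mul A A) (LSeriesHasSum_mul B C)
  rw [← pmul_mul (sm_cm N), ← pmul_mul (sm_cm N), ← pmul_mul (sm_cm N)] at T
  refine ⟨T.LSeriesSummable, ?_⟩
  rw [aa, T.LSeries_eq, ← prod_mul_distrib, ← prod_mul_distrib, ← prod_mul_distrib, norm_prod,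
    norm_prod, ← prod_pow]
  refine prod_le_prod (fun p _ => by positivity) fun p hp => ?_
  have hp' := Nat.prime_of_mem_primesBelow hp
  set x : ℝ := (p : ℝ) ^ (-σ) with hx
  have hx0 : 0 < x := Real.rpow_pos_of_pos (by exact_mod_cast hp'.pos) _
  have hx1 : x < 1 := Real.rpow_lt_one_of_one_lt_of_neg (by exact_mod_cast hp'.one_lt) (by linarith)
  have e1 : (p : ℂ) ^ (-((2 * σ : ℝ) : ℂ)) = ((x ^ 2 : ℝ) : ℂ) := by
    rw [hx, ← Real.rpow_natCast, ← Real.rpow_mul (Nat.cast_nonneg _),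
      ofReal_cpow (Nat.cast_nonneg _), ofReal_natCast]
    congr 1; push_cast; ring
  have e2 : (ζ : ArithmeticFunction ℂ) p = 1 := by simp [natCoe_apply, zeta_apply, hp'.ne_zero]
  have key : ∀ u : ℂ, ‖u‖ ≤ 1 → (1 + x)⁻¹ ≤ ‖(1 - u * x)⁻¹‖ := by
    intro u hu
    have a1 : ‖u * x‖ ≤ x := by
      rw [norm_mul, Complex.norm_real, Real.norm_of_nonneg hx0.le]
      nlinarith
    have a2 : ‖1 - u * x‖ ≤ 1 + x := (norm_sub_le _ _).trans (by simp only [norm_one]; linarith)
    have a3 : 0 < ‖1 - u * x‖ := by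
      have := norm_sub_norm_le (1 : ℂ) (u * x)
      simp only [norm_one] at this; linarith
    rw [norm_inv]
    exact inv_anti₀ a3 a2
  have e3 : ‖(1 - (1 : ℂ) * x)⁻¹‖ = (1 - x)⁻¹ := by
    rw [one_mul, norm_inv, ← ofReal_one, ← ofReal_sub, Complex.norm_real,
      Real.norm_of_nonneg (by linarith)]
  have e4 : ‖(1 - ((x ^ 2 : ℝ) : ℂ))⁻¹‖ = (1 - x)⁻¹ * (1 + x)⁻¹ := by
    rw [norm_inv, ← ofReal_one, ← ofReal_sub, Complex.norm_real,
      Real.norm_of_nonneg (by nlinarith), ← mul_inv]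
    congr 1; ring
  rw [e1, e2, norm_mul, norm_mul, norm_mul, e3, e4]
  have k1 := key _ (hb p)
  have k2 := key _ (hc p)
  have k3 : 0 < (1 - x)⁻¹ := inv_pos.2 (by linarith)
  have k4 : 0 < (1 + x)⁻¹ := inv_pos.2 (by linarith)
  calc ((1 - x)⁻¹ * (1 + x)⁻¹) ^ 2 = (1 - x)⁻¹ * (1 - x)⁻¹ * ((1 + x)⁻¹ * (1 + x)⁻¹) := by ring
    _ ≤ _ := by gcongr

/-- Landau's step -/
lemma landau {a b : ℕ → ℂ} (hb0 : 0 ≤ b) (hab : b ≤ a) (ha : LSeriesSummable a (3 / 2 : ℝ))
    (hb : ∀ σ : ℝ, 0 < σ → LSeriesSummable b σ) {D : ℂ → ℂ}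
    (hD : DifferentiableOn ℂ D {s | 1 / 2 < s.re}) (hDa : ∀ s : ℂ, 3 / 2 < s.re → D s = LSeries a s)
    (σ : ℝ) (h1 : 1 / 2 < σ) (h2 : σ ≤ 2) : ‖LSeries b σ‖ ≤ ‖D σ‖ := by
  have habs : LSeries.abscissaOfAbsConv b ≤ ((1 / 2 : ℝ) : EReal) := by
    simpa using (hb (1 / 2) (by norm_num)).abscissaOfAbsConv_le
  have hba : LSeries.abscissaOfAbsConv a ≤ ((3 / 2 : ℝ) : EReal) := by
    simpa using ha.abscissaOfAbsConv_le
  have hsum : LSeriesSummable (a - b) (3 / 2 : ℝ) := ha.sub (hb _ (by norm_num))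
  have habs2 : LSeries.abscissaOfAbsConv (a - b) < ((2 : ℝ) : EReal) := by
    refine lt_of_le_of_lt (by simpa using hsum.abscissaOfAbsConv_le :
      _ ≤ ((3 / 2 : ℝ) : EReal)) (by exact_mod_cast (by norm_num : (3 / 2 : ℝ) < 2))
  set G : ℂ → ℂ := fun s => D s - LSeries b s with hG
  have hGd : DifferentiableOn ℂ G {s | 1 / 2 < s.re} := by
    refine hD.sub ((LSeries_differentiableOn b).mono fun s hs => ?_)
    exact lt_of_le_of_lt habs (by exact_mod_cast hs)
  have hGe : G =ᶠ[𝓝 ((2 : ℝ) : ℂ)] LSeries (a - b) := by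
    have : {s : ℂ | 3 / 2 < s.re} ∈ 𝓝 ((2 : ℝ) : ℂ) :=
      (isOpen_lt continuous_const continuous_re).mem_nhds (by simp; norm_num)
    filter_upwards [this] with s hs
    have hs' : 3 / 2 < s.re := hs
    rw [hG]; dsimp only
    rw [hDa s hs', LSeries_sub]
    · exact LSeriesSummable_of_abscissaOfAbsConv_lt_re (lt_of_le_of_lt hba (by exact_mod_cast hs'))
    · refine LSeriesSummable_of_abscissaOfAbsConv_lt_re (lt_of_le_of_lt habs ?_)
      exact_mod_cast (by linarith : (1 / 2 : ℝ) < s.re)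
  have hd : DifferentiableOn ℂ (fun z => G (-z)) (Metric.ball (-((2 : ℝ) : ℂ)) (3 / 2)) := by
    refine hGd.comp differentiable_neg.differentiableOn fun z hz => ?_
    have h3 : ‖z - (-((2 : ℝ) : ℂ))‖ < 3 / 2 := by simpa [dist_eq_norm] using hz
    have h4 := (abs_lt.1 ((abs_re_le_norm _).trans_lt h3)).2
    simp at h4
    show 1 / 2 < (-z).re
    simp; linarith
  have hpos := hd.nonneg_of_iteratedDeriv_nonneg (fun n => by
    rw [iteratedDeriv_comp_neg, neg_neg, hGe.iteratedDeriv_eq n, smul_eq_mul]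
    exact LSeries.iteratedDeriv_alternating (sub_nonneg.2 hab) habs2 n) (z := -(σ : ℂ))
    (by rw [neg_le_neg_iff]; exact_mod_cast h2)
    (by
      rw [Metric.mem_ball, dist_eq_norm, ← ofReal_neg, ← ofReal_neg, ← ofReal_sub,
        Complex.norm_real, Real.norm_eq_abs, abs_lt]
      constructor <;> linarith)
  simp only [neg_neg, hG] at hpos
  have hb1 : 0 ≤ LSeries b σ := by
    refine tsum_nonneg fun n => ?_
    exact LSeries.term_nonneg (hb0 n) σ
  have hle : LSeries b σ ≤ D σ := sub_nonneg.1 hpos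
  rw [← Complex.re_eq_norm.2 hb1, ← Complex.re_eq_norm.2 (hb1.trans hle)]
  exact (Complex.le_def.1 hle).1

lemma exists_Z : ∃ Z : ℂ → ℂ, Differentiable ℂ Z ∧ ∀ s, s ≠ 1 → Z s = (s - 1) * riemannZeta s := by
  refine ⟨DirichletCharacter.LFunctionTrivChar₁ 1, DirichletCharacter.differentiable_LFunctionTrivChar₁ 1,
    fun s hs => ?_⟩
  rw [DirichletCharacter.LFunctionTrivChar₁, Function.update_of_ne hs,
    DirichletCharacter.LFunctionTrivChar, DirichletCharacter.LFunction_modOne_eq]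

end Pool.Agent.H21.CMO
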