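import Pool.Agent.H21.CMO

set_option autoImplicit false

open Complex Filter Topology Finset ArithmeticFunction MeasureTheory Asymptotics
open scoped ComplexOrder ArithmeticFunction.zeta

namespace Pool.Agent.H21.CMO

lemma S_bdd {S : ℕ → ℂ} (hS : Tendsto (fun N : ℕ => √(N : ℝ) * ‖S N‖) atTop (𝓝 0)) :
    ∃ B : ℝ, 0 ≤ B ∧ ∀ N : ℕ, √(N : ℝ) * ‖S N‖ ≤ B := by
  obtain ⟨B, hB⟩ := hS.bddAbove_range
  exact ⟨B, le_trans (by positivity) (hB ⟨0, rfl⟩), fun N => hB ⟨N, rfl⟩⟩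

lemma mellin_pack (f : ℕ → ℂ) (hf : ∀ n : ℕ, ‖f n‖ ≤ 1 / (n : ℝ))
    (hS : Tendsto (fun N : ℕ => √(N : ℝ) * ‖∑ n ∈ Icc 1 N, f n‖) atTop (𝓝 0)) :
    ∃ J : ℂ → ℂ, DifferentiableOn ℂ J {w | -1 / 2 < w.re} ∧
      (∀ w : ℂ, 0 < w.re → LSeriesSummable f w ∧ LSeries f w = w * J w) ∧
      ∀ ε : ℝ, 0 < ε → ∃ C : ℝ, 0 ≤ C ∧ ∀ δ : ℝ, 0 < δ →
        ‖J ((-1 / 2 + δ : ℝ) : ℂ)‖ ≤ ε / δ + C := by
  set S : ℕ → ℂ := fun N => ∑ n ∈ Icc 1 N, f n with hSdef
  obtain ⟨B, hB0, hB⟩ := S_bdd hS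
  have hS0 : S 0 = 0 := by simp [hSdef]
  have hB1 : ∀ N, ‖S N‖ ≤ B := by
    intro N
    rcases Nat.eq_zero_or_pos N with rfl | hN
    · simp [hS0, hB0]
    · have h1 : 1 ≤ √(N : ℝ) := Real.one_le_sqrt.2 (by exact_mod_cast hN)
      nlinarith [hB N, norm_nonneg (S N)]
  set φ : ℝ → ℂ := fun t => S ⌊t⌋₊ with hφ
  have hφm : Measurable φ := (Measurable.of_discrete (f := S)).comp Nat.measurable_floor
  have hφ0 : ∀ t < 1, φ t = 0 := fun t ht => by
    simp only [hφ, Nat.floor_eq_zero.2 ht, hS0]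
  have hloc : LocallyIntegrable φ volume :=
    (locallyIntegrable_const B).mono hφm.aestronglyMeasurable
      (Eventually.of_forall fun t => (hB1 _).trans (le_abs_self B))
  have hsq : ∀ (e : ℝ) (t : ℝ), 1 ≤ t → √(⌊t⌋₊ : ℝ) * ‖φ t‖ ≤ e → ‖φ t‖ ≤ 2 * e * t ^ (-(1 / 2 : ℝ)) := by
    intro e t ht h
    have h1 : (1 : ℝ) ≤ ⌊t⌋₊ := by exact_mod_cast Nat.one_le_floor_iff _ |>.2 ht
    have h2 : t ≤ 4 * ⌊t⌋₊ := by linarith [Nat.lt_floor_add_one t]
    have h3 : √t ≤ 2 * √(⌊t⌋₊ : ℝ) := by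
      rw [Real.sqrt_le_left (by positivity), mul_pow, Real.sq_sqrt (by linarith)]; linarith
    have h4 : 0 < √t := Real.sqrt_pos.2 (by linarith)
    rw [Real.rpow_neg (by linarith), ← Real.sqrt_eq_rpow, ← div_eq_mul_inv, le_div_iff₀ h4]
    nlinarith [norm_nonneg (φ t)]
  have hmel : ∀ w : ℂ, mellin φ (-w) = ∫ t in Set.Ioi (1 : ℝ), φ t * (t : ℂ) ^ (-(w + 1)) := by
    intro w
    rw [mellin, ← integral_Ici_eq_integral_Ioi (x := (1 : ℝ))]
    rw [setIntegral_eq_of_subset_of_forall_diff_eq_zero measurableSet_Ioi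
      (s := Set.Ici (1 : ℝ)) (fun t ht => Set.mem_Ioi.2 (lt_of_lt_of_le one_pos ht))]
    · refine setIntegral_congr_fun measurableSet_Ici fun t _ => ?_
      simp only [smul_eq_mul]
      rw [mul_comm]; congr 2; ring
    · intro t ht
      have : t < 1 := not_le.1 ht.2
      simp [hφ0 t this]
  refine ⟨fun w => mellin φ (-w), fun w hw => ?_, fun w hw => ?_, fun ε hε => ?_⟩
  · have hw' : -1 / 2 < w.re := hw
    refine (DifferentiableAt.comp w (g := mellin φ) ?_ differentiable_neg.differentiableAt).differentiableWithinAt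
    refine mellin_differentiableAt_of_isBigO_rpow (a := 1 / 2) (b := (-w).re - 1)
      (hloc.locallyIntegrableOn _) ?_ (by simp; linarith) ?_ (by linarith)
    · refine IsBigO.of_bound (2 * B) ?_
      filter_upwards [eventually_ge_atTop (1 : ℝ)] with t ht
      rw [Real.norm_of_nonneg (by positivity)]
      exact hsq B t ht (hB _)
    · refine IsBigO.of_bound 0 ?_
      filter_upwards [nhdsWithin_le_nhds (Iio_mem_nhds one_pos)] with t ht
      simp [hφ0 t ht]
  · have hsum : LSeriesSummable f w := by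
      refine LSeriesSummable_of_le_const_mul_rpow (x := 0) hw ⟨1, fun n hn => ?_⟩
      rw [zero_sub, Real.rpow_neg_one, one_mul, ← one_div]; exact hf n
    refine ⟨hsum, ?_⟩
    dsimp only
    rw [LSeries_eq_mul_integral f le_rfl hw hsum, hmel]
    refine IsBigO.of_bound B (Eventually.of_forall fun n => ?_)
    simpa using hB1 n
  · obtain ⟨N0, hN0⟩ := eventually_atTop.1 (hS.eventually (ge_mem_nhds (half_pos hε)))
    refine ⟨2 * (B * N0), by positivity, fun δ hδ => ?_⟩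
    have hbd : ∀ t : ℝ, 1 ≤ t → ‖φ t‖ ≤ ε * t ^ (-(1 / 2 : ℝ)) + B * N0 * t ^ (-1 : ℝ) := by
      intro t ht
      have t0 : 0 < t := by linarith
      by_cases h : N0 ≤ ⌊t⌋₊
      · have := hsq _ t ht (hN0 _ h)
        have h2 : 0 ≤ B * N0 * t ^ (-1 : ℝ) := by positivity
        linarith
      · have h1 : t ≤ N0 := by
          have h3 : (⌊t⌋₊ : ℝ) + 1 ≤ N0 := by exact_mod_cast Nat.succ_le_of_lt (not_le.1 h)
          linarith [Nat.lt_floor_add_one t]
        have h2 : B ≤ B * N0 * t ^ (-1 : ℝ) := by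
          rw [Real.rpow_neg_one, ← div_eq_mul_inv, le_div_iff₀ t0]
          exact mul_le_mul_of_nonneg_left h1 hB0
        have h3 : 0 ≤ ε * t ^ (-(1 / 2 : ℝ)) := by positivity
        linarith [hB1 ⌊t⌋₊]
    have i1 := integrableOn_Ioi_rpow_of_lt (a := -1 - δ) (by linarith) one_pos
    have i2 := integrableOn_Ioi_rpow_of_lt (a := -3 / 2 - δ) (by linarith) one_pos
    have hle : ‖mellin φ (-((-1 / 2 + δ : ℝ) : ℂ))‖ ≤
        ∫ t in Set.Ioi (1 : ℝ), (ε * t ^ (-1 - δ) + B * N0 * t ^ (-3 / 2 - δ)) := by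
      rw [hmel]
      refine norm_integral_le_of_norm_le ((i1.const_mul ε).add (i2.const_mul _)) ?_
      filter_upwards [ae_restrict_mem measurableSet_Ioi] with t ht
      have t1 : 1 < t := ht
      have t0 : 0 < t := by linarith
      rw [norm_mul, norm_cpow_eq_rpow_re_of_pos t0]
      have e : (-(((-1 / 2 + δ : ℝ) : ℂ) + 1)).re = -1 / 2 - δ := by simp; ring
      rw [e]
      have e1 : t ^ (-1 - δ) = t ^ (-(1 / 2 : ℝ)) * t ^ (-1 / 2 - δ) := by
        rw [← Real.rpow_add t0]; congr 1; ring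
      have e2 : t ^ (-3 / 2 - δ) = t ^ (-1 : ℝ) * t ^ (-1 / 2 - δ) := by
        rw [← Real.rpow_add t0]; congr 1; ring
      rw [e1, e2]
      have := mul_le_mul_of_nonneg_right (hbd t t1.le) (Real.rpow_nonneg t0.le (-1 / 2 - δ))
      linarith
    refine hle.trans ?_
    rw [integral_add (i1.const_mul ε) (i2.const_mul _), integral_const_mul, integral_const_mul,
      integral_Ioi_rpow_of_lt (by linarith) one_pos, integral_Ioi_rpow_of_lt (by linarith) one_pos,
      Real.one_rpow, Real.one_rpow]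
    have e1 : ε * (-1 / (-1 - δ + 1)) = ε / δ := by
      rw [show -1 - δ + 1 = -δ by ring]; field_simp
    have e2 : -1 / (-3 / 2 - δ + 1) ≤ 2 := by
      rw [show -3 / 2 - δ + 1 = -(1 / 2 + δ) by ring, neg_div_neg_eq, div_le_iff₀ (by linarith)]
      linarith
    rw [e1]
    have : 0 ≤ B * N0 := by positivity
    nlinarith

/-- multiply by `n` -/
noncomputable def up (f : ArithmeticFunction ℂ) : ArithmeticFunction ℂ := ⟨fun n => n * f n, by simp⟩

lemma term_up (f : ArithmeticFunction ℂ) (s : ℂ) :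
    LSeries.term (up f) s = LSeries.term f (s - 1) := by
  funext n
  by_cases hn : n = 0
  · simp [hn]
  · rw [LSeries.term_of_ne_zero hn, LSeries.term_of_ne_zero hn,
      cpow_sub _ _ (by exact_mod_cast hn), cpow_one]
    simp only [up, coe_mk]
    have : (n : ℂ) ≠ 0 := by exact_mod_cast hn
    field_simp

theorem core {f : ArithmeticFunction ℂ} (hcm : IsCM f) (hf : ∀ n : ℕ, ‖f n‖ ≤ 1 / (n : ℝ))
    (hS : Tendsto (fun N : ℕ => √(N : ℝ) * ‖∑ n ∈ Icc 1 N, f n‖) atTop (𝓝 0)) : False := by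
  have hf' : ∀ n : ℕ, ‖cj f n‖ ≤ 1 / (n : ℝ) := fun n => by simpa [cj] using hf n
  have hS' : Tendsto (fun N : ℕ => √(N : ℝ) * ‖∑ n ∈ Icc 1 N, cj f n‖) atTop (𝓝 0) := by
    refine hS.congr fun N => ?_
    simp only [cj, coe_mk]
    rw [← map_sum (starRingEnd ℂ), Complex.norm_conj]
  obtain ⟨J, hJd, hJ, hJb⟩ := mellin_pack f hf hS
  obtain ⟨K, hKd, hK, hKb⟩ := mellin_pack (cj f) hf' hS'
  obtain ⟨Z, hZd, hZ⟩ := exists_Z
  set h := up f with hh
  have hhcm : IsCM h := ⟨by simp [hh, up, hcm.1], fun m n => by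
    simp only [hh, up, coe_mk, hcm.2]; push_cast; ring⟩
  have hhb : ∀ n, ‖h n‖ ≤ 1 := by
    intro n
    rcases Nat.eq_zero_or_pos n with rfl | hn
    · simp
    · simp only [hh, up, coe_mk, norm_mul, Complex.norm_natCast]
      have h0 : (0 : ℝ) < n := by exact_mod_cast hn
      have := hf n
      rw [le_div_iff₀ h0] at this; linarith
  have hcj : cj h = up (cj f) := by ext n; simp [hh, cj, up]
  set D : ℂ → ℂ := fun s => Z s ^ 2 * (J (s - 1) * K (s - 1)) with hD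
  have hmaps : Set.MapsTo (fun s : ℂ => s - 1) {s | 1 / 2 < s.re} {w | -1 / 2 < w.re} := by
    intro s hs
    have : 1 / 2 < s.re := hs
    show -1 / 2 < (s - 1).re
    simp; linarith
  have hDd : DifferentiableOn ℂ D {s | 1 / 2 < s.re} :=
    (hZd.pow 2).differentiableOn.mul
      ((hJd.comp (by fun_prop) hmaps).mul (hKd.comp (by fun_prop) hmaps))
  have hDa : ∀ s : ℂ, 1 < s.re → LSeriesHasSum (aa h) s (D s) := by
    intro s hs
    have hs1 : 0 < (s - 1).re := by simp; linarith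
    have A : LSeriesHasSum (ζ : ArithmeticFunction ℂ) s (riemannZeta s) := by
      exact LSeriesHasSum_zeta hs
    have B : LSeriesHasSum h s ((s - 1) * J (s - 1)) := by
      unfold LSeriesHasSum
      rw [hh, term_up, ← (hJ _ hs1).2]; exact (hJ _ hs1).1.LSeriesHasSum
    have C : LSeriesHasSum (cj h) s ((s - 1) * K (s - 1)) := by
      unfold LSeriesHasSum
      rw [hcj, term_up, ← (hK _ hs1).2]; exact (hK _ hs1).1.LSeriesHasSum
    have T := LSeriesHasSum_mul (LSeriesHasSum_mul A A) (LSeriesHasSum_mul B C)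
    have hne : s ≠ 1 := fun e => by simp [e] at hs
    have e : D s = riemannZeta s * riemannZeta s * ((s - 1) * J (s - 1) * ((s - 1) * K (s - 1))) := by
      rw [hD]; dsimp only; rw [hZ s hne]; ring
    rw [e]; exact T
  have hlow : ∀ δ : ℝ, 0 < δ → δ ≤ 1 →
      ‖riemannZeta ((1 + 2 * δ : ℝ) : ℂ)‖ ^ 2 ≤ ‖D ((1 / 2 + δ : ℝ) : ℂ)‖ := by
    intro δ h0 h1
    have ht := riemannZeta_eulerProduct (s := ((1 + 2 * δ : ℝ) : ℂ)) (by simp; linarith)
    refine le_of_tendsto' (ht.norm.pow 2) fun N => ?_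
    have h2 := (smooth_lower hhcm hhb N (1 / 2 + δ) (by linarith)).2
    rw [show 2 * (1 / 2 + δ) = 1 + 2 * δ by ring] at h2
    refine h2.trans (landau (a := aa h) (fun n => ?_) (fun n => ?_)
      (hDa _ (by simp; norm_num)).LSeriesSummable (fun σ hσ => (smooth_lower hhcm hhb N σ hσ).1) hDd
      (fun s hs => (hDa s (by linarith)).LSeries_eq.symm) _ (by linarith) (by linarith))
    · simp only [pmul_apply, sm, coe_mk, Pi.zero_apply]
      split_ifs
      · simpa using aa_nonneg hhcm hhb n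
      · simp
    · simp only [pmul_apply, sm, coe_mk]
      split_ifs
      · simp
      · simpa using aa_nonneg hhcm hhb n
  set M := ‖Z ((1 / 2 + 0 : ℝ) : ℂ)‖ with hM
  have hM0 : 0 ≤ M := norm_nonneg _
  set ε : ℝ := 1 / (4 * (M + 1)) with hε
  have hε0 : 0 < ε := by positivity
  obtain ⟨C1, hC1, hJ1⟩ := hJb ε hε0
  obtain ⟨C2, hC2, hK1⟩ := hKb ε hε0
  have t1 : Tendsto (fun δ : ℝ => ‖(((1 + 2 * δ : ℝ) : ℂ) - 1) * riemannZeta ((1 + 2 * δ : ℝ) : ℂ)‖ ^ 2)
      (𝓝[>] 0) (𝓝 (‖(1 : ℂ)‖ ^ 2)) := by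
    refine (Tendsto.norm (riemannZeta_residue_one.comp ?_)).pow 2
    refine tendsto_nhdsWithin_iff.2 ⟨?_, ?_⟩
    · have : Continuous fun δ : ℝ => ((1 + 2 * δ : ℝ) : ℂ) := by fun_prop
      simpa using (this.tendsto 0).mono_left nhdsWithin_le_nhds
    · filter_upwards [self_mem_nhdsWithin] with δ hδ
      have : (0 : ℝ) < δ := hδ
      intro e
      have : (1 + 2 * δ : ℝ) = 1 := by exact_mod_cast Set.mem_singleton_iff.1 e
      linarith
  have t2 : Tendsto (fun δ : ℝ => ‖Z ((1 / 2 + δ : ℝ) : ℂ)‖ ^ 2 *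
      ((2 * ε + 2 * δ * C1) * (2 * ε + 2 * δ * C2))) (𝓝[>] 0)
      (𝓝 (M ^ 2 * ((2 * ε + 2 * 0 * C1) * (2 * ε + 2 * 0 * C2)))) := by
    have hc := hZd.continuous
    have : Continuous fun δ : ℝ => ‖Z ((1 / 2 + δ : ℝ) : ℂ)‖ ^ 2 *
      ((2 * ε + 2 * δ * C1) * (2 * ε + 2 * δ * C2)) := by fun_prop
    exact (this.tendsto 0).mono_left nhdsWithin_le_nhds
  have hfin := le_of_tendsto_of_tendsto t1 t2 (by
    filter_upwards [Ioo_mem_nhdsGT one_pos] with δ hδ
    obtain ⟨d0, d1⟩ := hδ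
    have h1 := hlow δ d0 d1.le
    have e : ((1 / 2 + δ : ℝ) : ℂ) - 1 = ((-1 / 2 + δ : ℝ) : ℂ) := by push_cast; ring
    simp only [hD, e, norm_mul, norm_pow] at h1
    have e2 : ‖((1 + 2 * δ : ℝ) : ℂ) - 1‖ = 2 * δ := by
      rw [← ofReal_one, ← ofReal_sub, Complex.norm_real, Real.norm_of_nonneg (by linarith)]; ring
    rw [norm_mul, e2, mul_pow]
    have a1 : 2 * δ * ‖J ((-1 / 2 + δ : ℝ) : ℂ)‖ ≤ 2 * ε + 2 * δ * C1 := by
      have := mul_le_mul_of_nonneg_left (hJ1 δ d0) (by linarith : 0 ≤ 2 * δ)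
      refine this.trans_eq ?_
      field_simp
    have a2 : 2 * δ * ‖K ((-1 / 2 + δ : ℝ) : ℂ)‖ ≤ 2 * ε + 2 * δ * C2 := by
      have := mul_le_mul_of_nonneg_left (hK1 δ d0) (by linarith : 0 ≤ 2 * δ)
      refine this.trans_eq ?_
      field_simp
    calc (2 * δ) ^ 2 * ‖riemannZeta ((1 + 2 * δ : ℝ) : ℂ)‖ ^ 2
        ≤ (2 * δ) ^ 2 * (‖Z ((1 / 2 + δ : ℝ) : ℂ)‖ ^ 2 *
          (‖J ((-1 / 2 + δ : ℝ) : ℂ)‖ * ‖K ((-1 / 2 + δ : ℝ) : ℂ)‖)) := by gcongr
      _ = ‖Z ((1 / 2 + δ : ℝ) : ℂ)‖ ^ 2 * ((2 * δ * ‖J ((-1 / 2 + δ : ℝ) : ℂ)‖) *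
          (2 * δ * ‖K ((-1 / 2 + δ : ℝ) : ℂ)‖)) := by ring
      _ ≤ _ := by gcongr)
  have e : M ^ 2 * ((2 * ε + 2 * 0 * C1) * (2 * ε + 2 * 0 * C2)) = (2 * ε * M) ^ 2 := by ring
  rw [e, norm_one, one_pow] at hfin
  have : 2 * ε * M ≤ 1 / 2 := by
    rw [hε, show 2 * (1 / (4 * (M + 1))) * M = M / (2 * (M + 1)) by field_simp; ring,
      div_le_div_iff₀ (by positivity) (by positivity)]
    linarith
  have h3 : 0 ≤ 2 * ε * M := by positivity
  nlinarith

lemma IsCM.isMult {f : ArithmeticFunction ℂ} (h : IsCM f) : f.IsMultiplicative :=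
  ⟨h.1, fun _ => h.2 _ _⟩

lemma IsCM.pow {f : ArithmeticFunction ℂ} (h : IsCM f) (p k : ℕ) : f (p ^ k) = f p ^ k := by
  induction k with
  | zero => simp [h.1]
  | succ k ih => rw [pow_succ, h.2, ih, pow_succ]

lemma IsCM.norm_le {f : ArithmeticFunction ℂ} (h : IsCM f)
    (hp : ∀ p : ℕ, p.Prime → ‖f p‖ ≤ 1 / (p : ℝ)) (n : ℕ) : ‖f n‖ ≤ 1 / (n : ℝ) := by
  induction n using Nat.recOnMul with
  | zero => simp
  | one => simp [h.1]
  | prime p hp' => exact hp p hp'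
  | mul a b ha hb =>
    rw [h.2, norm_mul, Nat.cast_mul, ← one_div_mul_one_div]
    exact mul_le_mul ha hb (norm_nonneg _) (by positivity)

noncomputable def ofPrimes (c : ℕ → ℂ) : ArithmeticFunction ℂ :=
  ⟨fun n => if n = 0 then 0 else n.factorization.prod fun p k => c p ^ k, by simp⟩

lemma ofPrimes_cm (c : ℕ → ℂ) : IsCM (ofPrimes c) := by
  refine ⟨by simp [ofPrimes], fun m n => ?_⟩
  by_cases hm : m = 0
  · simp [hm]
  by_cases hn : n = 0
  · simp [hn]
  simp only [ofPrimes, coe_mk, if_neg hm, if_neg hn, if_neg (mul_ne_zero hm hn)]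
  rw [Nat.factorization_mul hm hn, Finsupp.prod_add_index' (by simp) (fun _ _ _ => pow_add _ _ _)]

lemma ofPrimes_prime (c : ℕ → ℂ) {p : ℕ} (hp : p.Prime) : ofPrimes c p = c p := by
  simp [ofPrimes, hp.ne_zero, hp.factorization]

theorem core2 {f : ArithmeticFunction ℂ} (hcm : IsCM f)
    (hsum : Summable fun p : Nat.Primes => √((p : ℕ) : ℝ) * max (‖f p‖ - 1 / ((p : ℕ) : ℝ)) 0)
    (hS : Tendsto (fun N : ℕ => √(N : ℝ) * ‖∑ n ∈ Icc 1 N, f n‖) atTop (𝓝 0)) : False := by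
  classical
  set c : ℕ → ℂ := fun p => if ‖f p‖ ≤ 1 / (p : ℝ) then f p else f p / ((p * ‖f p‖ : ℝ) : ℂ) with hc
  set E : ℕ → ℝ := fun p => √(p : ℝ) * max (‖f p‖ - 1 / (p : ℝ)) 0 with hE
  have hE0 : ∀ p, 0 ≤ E p := fun p => mul_nonneg (Real.sqrt_nonneg _) (le_max_right _ _)
  have hcp : ∀ p : ℕ, p.Prime → ‖c p‖ ≤ 1 / (p : ℝ) ∧ √(p : ℝ) * ‖c p - f p‖ ≤ E p := by
    intro p hp
    have p0 : (0 : ℝ) < p := by exact_mod_cast hp.pos
    by_cases h : ‖f p‖ ≤ 1 / (p : ℝ)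
    · simp only [hc, if_pos h]
      exact ⟨h, by simpa using hE0 p⟩
    · have h1 : 1 / (p : ℝ) < ‖f p‖ := not_le.1 h
      have h2 : 0 < ‖f p‖ := lt_trans (by positivity) h1
      simp only [hc, if_neg h]
      constructor
      · rw [norm_div, Complex.norm_real, Real.norm_of_nonneg (by positivity)]
        apply le_of_eq; field_simp
      · have e : f p / ((p * ‖f p‖ : ℝ) : ℂ) - f p = f p * ((1 / (p * ‖f p‖) - 1 : ℝ) : ℂ) := by
          push_cast; ring
        have h3 : 1 / (p * ‖f p‖) ≤ 1 := by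
          rw [div_le_one (by positivity)]
          rw [div_lt_iff₀ p0] at h1; linarith
        rw [e, norm_mul, Complex.norm_real, Real.norm_eq_abs, abs_of_nonpos (by linarith)]
        refine mul_le_mul_of_nonneg_left (le_trans (le_of_eq ?_) (le_max_left _ _)) (Real.sqrt_nonneg _)
        field_simp; ring
  set F := ofPrimes c with hF
  have hFcm : IsCM F := ofPrimes_cm c
  set u : ArithmeticFunction ℂ := pmul f (ArithmeticFunction.moebius : ArithmeticFunction ℤ) with hu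
  set g := F * u with hg
  have hgf : g * f = F := by
    have h1 : u * f = 1 := by
      have := pmul_mul hcm ((ArithmeticFunction.moebius : ArithmeticFunction ℤ) : ArithmeticFunction ℂ)
        (ζ : ArithmeticFunction ℂ)
      rw [coe_moebius_mul_coe_zeta, pmul_zeta] at this
      rw [hu, ← this]
      ext n
      by_cases hn : n = 1
      · simp [hn, hcm.1]
      · simp [one_apply_ne hn]
    rw [hg, mul_assoc, h1, mul_one]
  have hgm : g.IsMultiplicative :=
    hFcm.isMult.mul (hcm.isMult.pmul isMultiplicative_moebius.intCast)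
  have hgp : ∀ p k : ℕ, p.Prime → g (p ^ (k + 1)) = c p ^ k * (c p - f p) := by
    intro p k hp
    rw [hg, mul_apply, Nat.sum_divisorsAntidiagonal' (fun a b => F a * u b),
      Nat.sum_divisors_prime_pow hp, sum_range_succ', sum_range_succ']
    rw [sum_eq_zero]
    · simp only [zero_add, pow_zero, Nat.div_one, pow_one, hu, pmul_apply, intCoe_apply, hcm.1,
        moebius_apply_one, moebius_apply_prime hp]
      rw [pow_succ, Nat.mul_div_cancel _ hp.pos, ← pow_succ, hFcm.pow, hFcm.pow, hF,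
        ofPrimes_prime c hp]
      push_cast; ring
    · intro j _
      simp [hu, pmul_apply, intCoe_apply, moebius_apply_prime_pow hp]
  set G : ℕ → ℝ := fun n => √(n : ℝ) * ‖g n‖ with hG
  have hG0 : ∀ n, 0 ≤ G n := fun n => by positivity
  have hGp : ∀ p k : ℕ, p.Prime → G (p ^ (k + 1)) ≤ E p * (3 / 4) ^ k := by
    intro p k hp
    have p2 : (2 : ℝ) ≤ p := by exact_mod_cast hp.two_le
    have s0 : 4 / 3 ≤ √(p : ℝ) := Real.le_sqrt_of_sq_le (by linarith)
    have h1 : √(p : ℝ) * ‖c p‖ ≤ 3 / 4 := by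
      have h2 := (hcp p hp).1
      rw [le_div_iff₀ (by linarith)] at h2
      have h3 : √(p : ℝ) * √(p : ℝ) = p := Real.mul_self_sqrt (by linarith)
      by_contra h4
      push Not at h4
      nlinarith
    have e : G (p ^ (k + 1)) = (√(p : ℝ) * ‖c p - f p‖) * (√(p : ℝ) * ‖c p‖) ^ k := by
      simp only [hG]
      rw [hgp p k hp, norm_mul, norm_pow, Nat.cast_pow, Real.sqrt_eq_rpow, Real.sqrt_eq_rpow,
        ← Real.rpow_natCast, ← Real.rpow_mul (by linarith), mul_comm ((k + 1 : ℕ) : ℝ),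
        Real.rpow_mul (by linarith), Real.rpow_natCast]
      ring
    rw [e]
    exact mul_le_mul (hcp p hp).2 (pow_le_pow_left₀ (by positivity) h1 k) (by positivity) (hE0 p)
  have hgeo : ∀ p, HasSum (fun k : ℕ => E p * (3 / 4) ^ k) (E p * 4) := fun p => by
    have := (hasSum_geometric_of_lt_one (r := 3 / 4) (by norm_num) (by norm_num)).mul_left (E p)
    rwa [show (1 - 3 / 4 : ℝ)⁻¹ = 4 by norm_num] at this
  have hs1 : ∀ p : ℕ, p.Prime → Summable fun k => G (p ^ (k + 1)) := fun p hp =>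
    Summable.of_nonneg_of_le (fun _ => hG0 _) (fun k => hGp p k hp) (hgeo p).summable
  have hs2 : ∀ p : ℕ, p.Prime → Summable fun k => G (p ^ k) := fun p hp =>
    (summable_nat_add_iff 1).1 (hs1 p hp)
  have hG1 : G 1 = 1 := by simp [hG, hgm.1]
  have hGs : Summable G := by
    refine summable_of_sum_range_le hG0 (c := Real.exp (4 * ∑' p : Nat.Primes, E p)) fun N => ?_
    have h := (EulerProduct.summable_and_hasSum_smoothNumbers_prod_primesBelow_tsum (f := G) hG1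
      (fun {m n} hmn => by
        simp only [hG]
        rw [hgm.2 hmn, norm_mul, Nat.cast_mul, Real.sqrt_mul (Nat.cast_nonneg _)]; ring)
      (fun {p} hp => by simpa only [Real.norm_of_nonneg (hG0 _)] using hs2 p hp) N).2
    have h2 := (hasSum_subtype_iff_indicator (f := G)).1 h
    have h3 := sum_le_hasSum (range N) (fun n _ => Set.indicator_nonneg (fun m _ => hG0 m) n) h2
    have h4 : ∑ n ∈ range N, G n = ∑ n ∈ range N, Set.indicator N.smoothNumbers G n := by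
      refine sum_congr rfl fun n hn => ?_
      rcases Nat.eq_zero_or_pos n with rfl | h0
      · rw [Set.indicator_of_notMem (by simp [Nat.mem_smoothNumbers])]; simp [hG]
      · rw [Set.indicator_of_mem (Nat.mem_smoothNumbers_of_lt h0 (mem_range.1 hn))]
    rw [h4]
    refine h3.trans ?_
    calc ∏ p ∈ N.primesBelow, ∑' k, G (p ^ k) ≤ ∏ p ∈ N.primesBelow, Real.exp (4 * E p) := by
          refine prod_le_prod (fun p _ => tsum_nonneg fun _ => hG0 _) fun p hp => ?_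
          have hp' := Nat.prime_of_mem_primesBelow hp
          rw [(hs2 p hp').tsum_eq_zero_add, pow_zero, hG1]
          have := hasSum_le (fun k => hGp p k hp') (hs1 p hp').hasSum (hgeo p)
          linarith [Real.add_one_le_exp (4 * E p)]
      _ = Real.exp (4 * ∑ p ∈ N.primesBelow, E p) := by rw [mul_sum, Real.exp_sum]
      _ ≤ _ := by
          refine Real.exp_le_exp.2 (mul_le_mul_of_nonneg_left ?_ (by norm_num))
          have h5 : HasSum (Set.indicator {p : ℕ | p.Prime} E) (∑' p : Nat.Primes, E p) :=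
            (hasSum_subtype_iff_indicator (f := E) (s := {p : ℕ | p.Prime})).1 hsum.hasSum
          refine le_trans (le_of_eq ?_) (sum_le_hasSum N.primesBelow
            (fun n _ => Set.indicator_nonneg (fun m _ => hE0 m) n) h5)
          exact sum_congr rfl fun p hp =>
            (Set.indicator_of_mem (show p ∈ {p : ℕ | p.Prime} from
              Nat.prime_of_mem_primesBelow hp) E).symm
  obtain ⟨B, hB0, hB⟩ := S_bdd hS
  set T : ℕ → ℝ := fun N => √(N : ℝ) * ‖∑ n ∈ Icc 1 N, f n‖ with hT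
  have hT0 : ∀ N, 0 ≤ T N := fun N => by positivity
  have hlim : Tendsto (fun N : ℕ => ∑' d, G d * (2 * T (N / d))) atTop (𝓝 (∑' _ : ℕ, (0 : ℝ))) := by
    refine tendsto_tsum_of_dominated_convergence (bound := fun d => G d * (2 * B))
      (hGs.mul_right _) (fun d => ?_) (Eventually.of_forall fun N d => ?_)
    · rcases eq_or_ne d 0 with rfl | hd
      · simp [hG]
      · simpa using ((hS.comp (Nat.tendsto_div_const_atTop hd)).const_mul 2).const_mul (G d)
    · rw [Real.norm_of_nonneg (mul_nonneg (hG0 d) (by linarith [hT0 (N / d)]))]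
      exact mul_le_mul_of_nonneg_left (by linarith [hB (N / d)]) (hG0 d)
  rw [tsum_zero] at hlim
  refine core hFcm (hFcm.norm_le fun p hp => ?_) (squeeze_zero (fun N => by positivity)
    (fun N => ?_) hlim)
  · rw [hF, ofPrimes_prime c hp]; exact (hcp p hp).1
  have hI : ∀ M : ℕ, Icc 1 M = Ioc 0 M := fun M => by ext; simp [Nat.succ_le_iff]
  have hsN : Summable fun d => G d * (2 * T (N / d)) :=
    Summable.of_nonneg_of_le (fun d => mul_nonneg (hG0 d) (by linarith [hT0 (N / d)]))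
      (fun d => mul_le_mul_of_nonneg_left (by linarith [hB (N / d)]) (hG0 d)) (hGs.mul_right (2 * B))
  refine le_trans ?_ (hsN.sum_le_tsum (Ioc 0 N)
    fun d _ => mul_nonneg (hG0 d) (by linarith [hT0 (N / d)]))
  rw [hI, ← hgf, sum_Ioc_mul_eq_sum_sum]
  refine (mul_le_mul_of_nonneg_left (norm_sum_le _ _) (Real.sqrt_nonneg _)).trans ?_
  rw [mul_sum]
  refine sum_le_sum fun d hd => ?_
  obtain ⟨d0, dN⟩ := mem_Ioc.1 hd
  have h1 : N ≤ 4 * (d * (N / d)) := by
    have a := Nat.div_pos dN d0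
    have b := Nat.lt_mul_div_succ N d0
    nlinarith
  have h2 : √(N : ℝ) ≤ 2 * (√(d : ℝ) * √((N / d : ℕ) : ℝ)) := by
    rw [← Real.sqrt_mul (Nat.cast_nonneg _), Real.sqrt_le_left (by positivity), mul_pow,
      Real.sq_sqrt (by positivity)]
    norm_num
    exact_mod_cast h1
  simp only [hG, hT]
  rw [norm_mul, hI]
  have := mul_le_mul_of_nonneg_right h2
    (mul_nonneg (norm_nonneg (g d)) (norm_nonneg (∑ m ∈ Ioc 0 (N / d), f m)))
  linarith

noncomputable def toAF (f : ℕ → ℂ) : ArithmeticFunction ℂ :=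
  ⟨fun n => if n = 0 then 0 else f n, by simp⟩

lemma toAF_cm {f : ℕ → ℂ} (h1 : f 1 = 1) (h2 : ∀ m n : ℕ, 0 < m → 0 < n → f (m * n) = f m * f n) :
    IsCM (toAF f) := by
  refine ⟨by simp [toAF, h1], fun m n => ?_⟩
  by_cases hm : m = 0
  · simp [hm]
  by_cases hn : n = 0
  · simp [hn]
  simp only [toAF, coe_mk, if_neg hm, if_neg hn, if_neg (mul_ne_zero hm hn)]
  exact h2 m n (Nat.pos_of_ne_zero hm) (Nat.pos_of_ne_zero hn)

lemma toAF_sum (f : ℕ → ℂ) (N : ℕ) : ∑ n ∈ Icc 1 N, toAF f n = ∑ n ∈ Icc 1 N, f n :=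
  sum_congr rfl fun n hn => by
    have : n ≠ 0 := by have := (mem_Icc.1 hn).1; omega
    simp [toAF, this]

lemma tendsto_of_not {S : ℕ → ℂ}
    (h : ¬ ∃ c : ℝ, 0 < c ∧ ∀ M : ℕ, ∃ N : ℕ, M ≤ N ∧ 0 < N ∧ c / √(N : ℝ) ≤ ‖S N‖) :
    Tendsto (fun N : ℕ => √(N : ℝ) * ‖S N‖) atTop (𝓝 0) := by
  push Not at h
  refine tendsto_order.2 ⟨fun a ha => Eventually.of_forall fun N => ha.trans_le (by positivity),
    fun c hc => ?_⟩
  obtain ⟨M, hM⟩ := h c hc
  filter_upwards [eventually_ge_atTop M, eventually_gt_atTop 0] with N h1 h2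
  have := hM N h1 h2
  rw [lt_div_iff₀ (Real.sqrt_pos.2 (by exact_mod_cast h2))] at this
  linarith

end Pool.Agent.H21.CMO
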