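import Mathlib

set_option autoImplicit false

namespace Pool.Agent.H21.CP

open FirstOrder Language

inductive Fn : ℕ → Type
  | zero : Fn 0
  | one : Fn 0
  | add : Fn 2
  | mul : Fn 2

inductive RA : ℕ → Type
  | lt : RA 2

inductive RU : ℕ → Type
  | lt : RU 2
  | U : RU 1

/-- The language of arithmetic `0, 1, +, ·, <`. -/
def LA : Language := ⟨Fn, RA⟩

/-- The language of arithmetic with an extra unary predicate `U`. -/
def LU : Language := ⟨Fn, RU⟩

/-- The inclusion of languages. -/
def inc : LA →ᴸ LU where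
  onFunction := fun _ f => f
  onRelation := fun _ r => match r with
    | .lt => RU.lt

/-- The expansion `(ℕ, X)` of the standard model. -/
@[reducible] def stdU (X : Set ℕ) : LU.Structure ℕ where
  funMap := fun f v => match f with
    | .zero => 0
    | .one => 1
    | .add => v 0 + v 1
    | .mul => v 0 * v 1
  RelMap := fun r v => match r with
    | .lt => v 0 < v 1
    | .U => v 0 ∈ X

def Spread {M : Type} {n : ℕ} (B : Set (Fin n → M)) : Prop :=
  B.Infinite ∧ (∀ b ∈ B, Function.Injective b) ∧
    ∀ b ∈ B, ∀ b' ∈ B, b ≠ b' → Disjoint (Set.range b) (Set.range b')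

/-- The interpretation of `U` is strongly CP-generic in the arithmetic reduct. -/
def StrongGen (M : Type) (S : LU.Structure M) : Prop :=
  ∀ n, 1 ≤ n → ∀ D : Set (Fin n → M), @Set.Definable M Set.univ LA (@LHom.reduct _ _ inc M S) _ D →
    (∃ B ⊆ D, Spread B) → ∀ I : Set (Fin n), ∃ b ∈ D, ∀ i, S.RelMap RU.U ![b i] ↔ i ∈ I

end Pool.Agent.H21.CP
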