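import Mathlib

set_option autoImplicit false
open Filter Topology

namespace Pool.Agent.H21.Cant

/-- `[a, a + r]` carries a scaled copy of the Cantor set inside the Cantor set -/
def B (a r : ℝ) : Prop := ∀ t ∈ cantorSet, a + r * t ∈ cantorSet

lemma third {t : ℝ} (ht : t ∈ cantorSet) : t / 3 ∈ cantorSet := by
  rw [cantorSet_eq_union_halves]; exact Or.inl ⟨t, ht, rfl⟩

lemma third' {t : ℝ} (ht : t ∈ cantorSet) : (2 + t) / 3 ∈ cantorSet := by
  rw [cantorSet_eq_union_halves]; exact Or.inr ⟨t, ht, rfl⟩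

lemma B.left {a r : ℝ} (h : B a (3 * r)) : B a r := fun t ht => by
  convert h _ (third ht) using 1; ring

lemma B.right {a r : ℝ} (h : B a (3 * r)) : B (a + 2 * r) r := fun t ht => by
  convert h _ (third' ht) using 1; ring

lemma B.mem {a r : ℝ} (h : B a r) : a ∈ cantorSet := by
  simpa using h 0 zero_mem_cantorSet

lemma B_zero (k : ℕ) : B 0 ((1 / 3) ^ k) := by
  induction k with
  | zero => intro t ht; simpa using ht
  | succ k ih => exact B.left (by convert ih using 1; ring)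

lemma B_one (k : ℕ) : B (1 - (1 / 3) ^ k) ((1 / 3) ^ k) := by
  induction k with
  | zero => intro t ht; simpa using ht
  | succ k ih =>
    have := B.right (a := 1 - (1 / 3) ^ k) (r := (1 / 3) ^ (k + 1)) (by convert ih using 1; ring)
    convert this using 1; ring

lemma step {a b P Q : ℝ} (h1 : 2 * b * Q + 3 * Q ^ 2 ≤ 2 * a * P)
    (h2 : 2 * a * P + 3 * P ^ 2 ≤ 6 * b * Q) (h3 : a ^ 2 + b ^ 2 ≤ 1)
    (h4 : 1 ≤ (a + 3 * P) ^ 2 + (b + 3 * Q) ^ 2) :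
    ∃ a' b', (a' = a ∨ a' = a + 2 * P) ∧ (b' = b ∨ b' = b + 2 * Q) ∧ a' ^ 2 + b' ^ 2 ≤ 1 ∧
      1 ≤ (a' + P) ^ 2 + (b' + Q) ^ 2 := by
  by_cases g1 : 1 ≤ (a + P) ^ 2 + (b + Q) ^ 2
  · exact ⟨a, b, Or.inl rfl, Or.inl rfl, h3, g1⟩
  by_cases g2 : 1 ≤ (a + P) ^ 2 + (b + 2 * Q + Q) ^ 2
  · exact ⟨a, b + 2 * Q, Or.inl rfl, Or.inr rfl, by nlinarith [sq_nonneg P], g2⟩
  by_cases g3 : 1 ≤ (a + 2 * P + P) ^ 2 + (b + Q) ^ 2
  · exact ⟨a + 2 * P, b, Or.inr rfl, Or.inl rfl, by nlinarith [sq_nonneg Q], g3⟩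
  · exact ⟨a + 2 * P, b + 2 * Q, Or.inr rfl, Or.inr rfl, by nlinarith [sq_nonneg P],
      by nlinarith⟩

theorem hit {a b p q : ℝ} (ha : 0 ≤ a) (hb : 0 ≤ b) (hp : 0 < p) (hq : 0 < q) (Ba : B a p)
    (Bb : B b q) (h1 : (b + q) * q ≤ a * p) (h2 : (a + p) * p ≤ 3 * b * q)
    (h3 : a ^ 2 + b ^ 2 ≤ 1) (h4 : 1 ≤ (a + p) ^ 2 + (b + q) ^ 2) :
    ∃ x ∈ cantorSet, ∃ y ∈ cantorSet, x ^ 2 + y ^ 2 = 1 ∧ a ≤ x ∧ x ≤ a + p ∧ b ≤ y ∧
      y ≤ b + q := by
  have key : ∀ n : ℕ, ∃ x y, B x (p * (1 / 3) ^ n) ∧ B y (q * (1 / 3) ^ n) ∧ a ≤ x ∧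
      x + p * (1 / 3) ^ n ≤ a + p ∧ b ≤ y ∧ y + q * (1 / 3) ^ n ≤ b + q ∧ x ^ 2 + y ^ 2 ≤ 1 ∧
      1 ≤ (x + p * (1 / 3) ^ n) ^ 2 + (y + q * (1 / 3) ^ n) ^ 2 := by
    intro n
    induction n with
    | zero => exact ⟨a, b, by simpa using Ba, by simpa using Bb, le_rfl, by simp, le_rfl, by simp,
        h3, by simpa using h4⟩
    | succ n ih =>
      obtain ⟨x, y, g1, g2, g3, g4, g5, g6, g7, g8⟩ := ih
      have e : (1 / 3 : ℝ) ^ n = 3 * (1 / 3) ^ (n + 1) := by ring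
      have ht : (0 : ℝ) < (1 / 3) ^ (n + 1) := by positivity
      rw [e] at g1 g2 g4 g6 g8
      generalize (1 / 3 : ℝ) ^ (n + 1) = t at *
      rw [mul_left_comm] at g1 g2 g4 g6
      rw [mul_left_comm p, mul_left_comm q] at g8
      have hP : 0 < p * t := by positivity
      have hQ : 0 < q * t := by positivity
      have k1 := mul_le_mul_of_nonneg_right h1 ht.le
      have k2 := mul_le_mul_of_nonneg_right h2 ht.le
      have k3 := mul_le_mul_of_nonneg_right g3 hP.le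
      have k4 := mul_le_mul_of_nonneg_right g4 hP.le
      have k5 := mul_le_mul_of_nonneg_right g5 hQ.le
      have k6 := mul_le_mul_of_nonneg_right g6 hQ.le
      obtain ⟨x', y', e1, e2, e3, e4⟩ := step (a := x) (b := y) (P := p * t) (Q := q * t)
        (by nlinarith [sq_nonneg (q * t)]) (by nlinarith [sq_nonneg (p * t)]) g7 g8
      refine ⟨x', y', ?_, ?_, ?_, ?_, ?_, ?_, e3, e4⟩
      · rcases e1 with rfl | rfl
        exacts [g1.left, g1.right]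
      · rcases e2 with rfl | rfl
        exacts [g2.left, g2.right]
      all_goals rcases e1 with rfl | rfl <;> rcases e2 with rfl | rfl <;> linarith
  choose x y g1 g2 g3 g4 g5 g6 g7 g8 using key
  have hK : IsCompact ((cantorSet ∩ Set.Icc a (a + p)) ×ˢ (cantorSet ∩ Set.Icc b (b + q))) :=
    (isCompact_cantorSet.inter_right isClosed_Icc).prod
      (isCompact_cantorSet.inter_right isClosed_Icc)
  have hpos : ∀ n : ℕ, (0 : ℝ) < (1 / 3) ^ n := fun n => by positivity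
  obtain ⟨⟨u, v⟩, ⟨⟨m1, m2, m3⟩, m4, m5, m6⟩, φ, hφ, hl⟩ := hK.tendsto_subseq
    (x := fun n => (x n, y n)) fun n => ⟨⟨(g1 n).mem, g3 n, by
      linarith [g4 n, mul_pos hp (hpos n)]⟩, (g2 n).mem, g5 n, by
      linarith [g6 n, mul_pos hq (hpos n)]⟩
  have l1 : Tendsto (fun n => x (φ n)) atTop (𝓝 u) := (continuous_fst.tendsto _).comp hl
  have l2 : Tendsto (fun n => y (φ n)) atTop (𝓝 v) := (continuous_snd.tendsto _).comp hl
  have l3 : Tendsto (fun n => (1 / 3 : ℝ) ^ φ n) atTop (𝓝 0) :=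
    (tendsto_pow_atTop_nhds_zero_of_lt_one (by norm_num) (by norm_num)).comp hφ.tendsto_atTop
  refine ⟨u, m1, v, m4, le_antisymm ?_ ?_, m2, m3, m5, m6⟩
  · exact le_of_tendsto' ((l1.pow 2).add (l2.pow 2)) fun n => g7 _
  · have := ((l1.add (l3.const_mul p)).pow 2).add ((l2.add (l3.const_mul q)).pow 2)
    simp only [mul_zero, add_zero] at this
    exact ge_of_tendsto' this fun n => g8 _

theorem pts (k : ℕ) : ∃ x ∈ cantorSet, ∃ y ∈ cantorSet, x ^ 2 + y ^ 2 = 1 ∧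
    2 / 3 * (1 / 3) ^ (k + 1) ≤ y ∧ y ≤ 7 / 9 * (1 / 3) ^ (k + 1) := by
  have b1 := B_one (2 * (k + 1) + 1)
  have b2 := B_zero (k + 1)
  have e : (1 / 3 : ℝ) ^ (2 * (k + 1) + 1) = 3 * (((1 / 3) ^ (k + 1)) ^ 2 / 9) := by ring
  have h0 : (0 : ℝ) < (1 / 3) ^ (k + 1) := by positivity
  have h1 : (1 / 3 : ℝ) ^ (k + 1) ≤ 1 / 3 := by
    rw [pow_succ]
    exact mul_le_of_le_one_left (by norm_num) (pow_le_one₀ (by norm_num) (by norm_num))
  rw [e] at b1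
  generalize (1 / 3 : ℝ) ^ (k + 1) = t at *
  have b3 : B (0 + 2 * (3 * (t / 9))) (t / 9) :=
    B.left (B.right (by convert b2 using 1; ring))
  have h2 : t ^ 2 ≤ 1 / 9 := by nlinarith
  have h3 : 0 < t ^ 2 := by positivity
  obtain ⟨x, hx, y, hy, g1, -, -, g2, g3⟩ := hit (by linarith) (by positivity) (by positivity)
    (by positivity) b1.left b3 (by nlinarith) (by nlinarith) (by nlinarith) (by nlinarith)
  exact ⟨x, hx, y, hy, g1, by linarith, by linarith⟩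

end Pool.Agent.H21.Cant
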