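import Mathlib

set_option autoImplicit false
open Complex Filter Topology

namespace Pool.Agent.H21.Cf

/-- core inequality: a translation by `r^4 + 6 i r^5` maps the cusp region into the middle one -/
lemma core0 {x y r : ℝ} (hr : 0 < r) (hr' : r ≤ 1 / 4) (hy : 0 ≤ y)
    (h : (x ^ 2 + y ^ 2) * (x ^ 2 + y ^ 2 + x) ≤ y ^ 2) :
    (x + r ^ 4) ^ 3 ≤ (y + 6 * r ^ 5) ^ 2 * (1 - (x + r ^ 4)) ∧ x + r ^ 4 ≤ 1 := by
  have r2 : r ^ 2 ≤ 1 / 16 := by nlinarith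
  have r2' : 0 < r ^ 2 := by positivity
  have r4 : r ^ 4 ≤ 1 / 256 := by nlinarith
  have r4' : 0 < r ^ 4 := by positivity
  have r5 : 0 < r ^ 5 := by positivity
  rcases le_or_gt x 0 with hx | hx
  · refine ⟨?_, by linarith⟩
    have h1 : (x + r ^ 4) ^ 3 ≤ (r ^ 4) ^ 3 := Odd.pow_le_pow (by decide) |>.2 (by linarith)
    have h2 : (6 * r ^ 5) ^ 2 * (1 / 2) ≤ (y + 6 * r ^ 5) ^ 2 * (1 - (x + r ^ 4)) := by
      gcongr
      · linarith
      · linarith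
    have h3 : (r ^ 4) ^ 3 = r ^ 10 * r ^ 2 := by ring
    have h4 : (6 * r ^ 5) ^ 2 * (1 / 2) = r ^ 10 * 18 := by ring
    have h5 : r ^ 10 * r ^ 2 ≤ r ^ 10 * 18 := by gcongr; linarith
    linarith
  have hA : 0 < x ^ 2 + y ^ 2 := by positivity
  have hm : x ^ 2 + y ^ 2 + x < 1 := by
    by_contra hc
    push Not at hc
    nlinarith [mul_le_mul_of_nonneg_left hc hA.le]
  have hx1 : x ≤ 2 / 3 := by nlinarith [sq_nonneg y]
  refine ⟨?_, by linarith⟩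
  have hb : x ^ 3 ≤ y ^ 2 * (1 - x) := by nlinarith [sq_nonneg (x ^ 2 + y ^ 2)]
  rcases le_or_gt (4 * r ^ 4) (x ^ 2 + y ^ 2) with hc | hc
  · generalize r ^ 4 = ρ at *
    generalize hA' : x ^ 2 + y ^ 2 = A at *
    have h1 : y ^ 2 * (1 - (x + ρ)) ≤ (y + 6 * r ^ 5) ^ 2 * (1 - (x + ρ)) := by
      gcongr
      · linarith
      · linarith
    refine le_trans ?_ h1
    have e1 : y ^ 2 * ρ + 3 * x ^ 2 * ρ ≤ 3 / 4 * A ^ 2 := by
      have : (y ^ 2 + 3 * x ^ 2) * ρ ≤ (3 * A) * (A / 4) := by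
        gcongr
        · nlinarith [sq_nonneg y]
        · linarith
      nlinarith
    have e2 : ρ ^ 2 ≤ A ^ 2 / 16 := by nlinarith
    have e3 : (3 * x + ρ) * ρ ^ 2 ≤ 4 * (A ^ 2 / 16) := by
      gcongr
      linarith
    have e4 : A * (A + x) = A ^ 2 + x ^ 3 + x * y ^ 2 := by rw [← hA']; ring
    nlinarith
  · have hx2 : x ≤ 2 * r ^ 2 := by nlinarith [sq_nonneg y]
    have hy2 : y ≤ 2 * r ^ 2 := by nlinarith [sq_nonneg x]
    have e1 : x ^ 2 ≤ 3 / 2 * y * r := by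
      refine (pow_le_pow_iff_left₀ (by positivity) (by positivity) two_ne_zero).1 ?_
      have h1 : x ^ 3 ≤ y ^ 2 := by nlinarith [sq_nonneg y]
      have h2 : x ^ 3 * x ≤ y ^ 2 * (2 * r ^ 2) := by gcongr
      nlinarith [mul_nonneg (sq_nonneg y) r2'.le]
    have e2 : y ^ 2 * r ^ 4 ≤ y * r ^ 5 := by
      have : y * (y * r ^ 4) ≤ y * r ^ 5 := by
        gcongr
        nlinarith
      nlinarith
    have e3 : 3 * x ^ 2 * r ^ 4 ≤ 9 / 2 * (y * r ^ 5) := by nlinarith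
    have e4 : (3 * x + r ^ 4) * (r ^ 4) ^ 2 ≤ (7 * r ^ 2) * (r ^ 4) ^ 2 := by
      gcongr
      nlinarith
    have e5 : (12 * (y * r ^ 5) + 36 * r ^ 10) * (1 / 2) ≤
        (12 * (y * r ^ 5) + 36 * r ^ 10) * (1 - (x + r ^ 4)) := by
      gcongr
      linarith
    have e6 : 0 ≤ y * r ^ 5 := by positivity
    have e7 : 0 < r ^ 10 := by positivity
    nlinarith

lemma core {x y r x' y' : ℝ} (hr : 0 < r) (hr' : r ≤ 1 / 4) (hy : 0 ≤ y)
    (h : (x ^ 2 + y ^ 2) * (x ^ 2 + y ^ 2 + x) ≤ y ^ 2) (hx' : x' ≤ x + r ^ 4)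
    (hy' : y + 6 * r ^ 5 ≤ y') : x' * (x' ^ 2 + y' ^ 2) ≤ y' ^ 2 := by
  obtain ⟨h1, h2⟩ := core0 hr hr' hy h
  have h3 : x' ^ 3 ≤ (x + r ^ 4) ^ 3 := Odd.pow_le_pow (by decide) |>.2 hx'
  have h4 : (y + 6 * r ^ 5) ^ 2 * (1 - (x + r ^ 4)) ≤ y' ^ 2 * (1 - x') := by
    gcongr
  nlinarith

/-- the cusp region -/
def Cusp (w : ℂ) : Prop := w.im ≤ 0 ∧ normSq w * (normSq w - w.re) ≤ w.im ^ 2

/-- the middle region -/
def Mid (w : ℂ) : Prop := w.im ≤ 0 ∧ -w.re * normSq w ≤ w.im ^ 2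

lemma Mid.ne {p : ℂ} (h : Mid p) : 1 + p ≠ 0 := fun h0 => by
  have : p = -1 := by linear_combination h0
  have h2 := h.2
  rw [this] at h2
  simp at h2
  linarith

lemma Mid.inv {p : ℂ} (h : Mid p) : Cusp (p / (1 + p)) := by
  have hN : 0 < normSq (1 + p) := normSq_pos.2 h.ne
  have e1 : (p / (1 + p)).im = p.im / normSq (1 + p) := by
    rw [div_im]; simp; field_simp; ring
  have e2 : (p / (1 + p)).re = (p.re + normSq p) / normSq (1 + p) := by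
    rw [div_re, normSq_apply p]; simp; field_simp; ring
  refine ⟨e1 ▸ div_nonpos_of_nonpos_of_nonneg h.1 hN.le, ?_⟩
  rw [e1, e2, map_div₀, div_pow, ← sub_div, div_mul_div_comm, ← sq]
  refine div_le_div_of_nonneg_right ?_ (by positivity)
  linarith [h.2]

lemma Cusp.mid {w p : ℂ} {r : ℝ} (h : Cusp w) (hr : 0 < r) (hr' : r ≤ 1 / 4)
    (h1 : w.re - r ^ 4 ≤ p.re) (h2 : p.im ≤ w.im - 6 * r ^ 5) : Mid p := by
  have h3 := h.1
  have h4 := h.2
  have h5 : 0 < r ^ 5 := by positivity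
  rw [normSq_apply] at h4
  have := core (x := -w.re) (y := -w.im) (x' := -p.re) (y' := -p.im) hr hr' (by linarith)
    (by nlinarith) (by linarith) (by linarith)
  refine ⟨by linarith, ?_⟩
  rw [normSq_apply]
  nlinarith

lemma Cusp.bd {w : ℂ} (h : Cusp w) : ‖w‖ ≤ 2 ∧ w.re ≤ 1 := by
  have h1 := h.2
  have h2 : w.im ^ 2 = normSq w - w.re ^ 2 := by rw [normSq_apply]; ring
  have h3 := normSq_nonneg w
  have h4 : ‖w‖ ^ 2 = normSq w := Complex.sq_norm w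
  have h5 := re_le_norm w
  have h6 := norm_nonneg w
  constructor
  · by_contra hc
    push Not at hc
    have : normSq w * 2 ≤ normSq w * (normSq w - w.re) := by
      gcongr
      nlinarith
    nlinarith [sq_nonneg w.re]
  · by_contra hc
    push Not at hc
    have h7 : w.re ^ 2 ≤ normSq w := by nlinarith [sq_nonneg w.im]
    have h8 : normSq w * (w.re ^ 2 - w.re) ≤ normSq w * (normSq w - w.re) := by gcongr
    nlinarith [sq_nonneg (normSq w - w.re), mul_pos (sub_pos.2 hc) (sub_pos.2 hc),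
      mul_nonneg (sub_nonneg.2 h7) (sub_pos.2 hc).le]

end Pool.Agent.H21.Cf
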