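import Pool.Agent.H21.Cf1

set_option autoImplicit false
open Complex Filter Topology Finset

namespace Pool.Agent.H21.Cf

noncomputable def r (n : ℕ) : ℝ := 1 / √(n + 25)

lemma r_pos (n : ℕ) : 0 < r n := by unfold r; positivity

lemma r_sq (n : ℕ) : r n ^ 2 = 1 / (n + 25) := by
  unfold r; rw [div_pow, Real.sq_sqrt (by positivity), one_pow]

lemma r_le (n : ℕ) : r n ≤ 1 / 5 := by
  refine one_div_le_one_div_of_le (by norm_num) (Real.le_sqrt_of_sq_le ?_)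
  have : (0 : ℝ) ≤ n := by positivity
  linarith

lemma r_summ : Summable fun n => r n ^ 3 := by
  have h := (summable_nat_add_iff 25).2
    (Real.summable_one_div_nat_rpow.2 (show (1 : ℝ) < 3 / 2 by norm_num))
  refine h.congr fun n => ?_
  unfold r
  rw [div_pow, one_pow, Real.sqrt_eq_rpow, ← Real.rpow_natCast, ← Real.rpow_mul (by positivity)]
  norm_num

noncomputable def Q (m y d : ℝ) : ℝ := y ^ 2 / m - y * d + m * d ^ 2

lemma Q_y {m : ℝ} (hm : 0 < m) (y d : ℝ) : 3 / 4 * y ^ 2 / m ≤ Q m y d := by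
  have : Q m y d - 3 / 4 * y ^ 2 / m = (y / 2 - m * d) ^ 2 / m := by unfold Q; field_simp; ring
  have : 0 ≤ (y / 2 - m * d) ^ 2 / m := by positivity
  linarith

lemma Q_d {m : ℝ} (hm : 0 < m) (y d : ℝ) : 3 / 4 * m * d ^ 2 ≤ Q m y d := by
  have : Q m y d - 3 / 4 * m * d ^ 2 = (y - m * d / 2) ^ 2 / m := by unfold Q; field_simp; ring
  have : 0 ≤ (y - m * d / 2) ^ 2 / m := by positivity
  linarith

lemma Q_step {m : ℝ} (hm : 1 ≤ m) (y d : ℝ) :
    Q (m + 1) (y + (d - y / m ^ 2)) (d - y / m ^ 2) ≤ (1 + 8 / m ^ 2) * Q m y d := by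
  obtain ⟨s, rfl⟩ : ∃ s, y = m * s := ⟨y / m, by field_simp⟩
  have h0 : 0 < m := by linarith
  have e : (1 + 8 / m ^ 2) * Q m (m * s) d
      - Q (m + 1) (m * s + (d - m * s / m ^ 2)) (d - m * s / m ^ 2)
      = (8 * m * (m + 1) * (s ^ 2 - s * d + d ^ 2)
        - (s ^ 2 * (m + 1) - 2 * s * d * m * (m + 1) + m ^ 2 * d ^ 2)) / (m ^ 2 * (m + 1)) := by
    unfold Q; field_simp; ring
  have h1 : 0 ≤ 8 * m * (m + 1) * (s ^ 2 - s * d + d ^ 2)
      - (s ^ 2 * (m + 1) - 2 * s * d * m * (m + 1) + m ^ 2 * d ^ 2) := by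
    have a1 : s ^ 2 * (m + 1) ≤ m * (m + 1) * s ^ 2 := by
      nlinarith [mul_nonneg (sq_nonneg s) (show 0 ≤ (m - 1) * (m + 1) by nlinarith)]
    have a2 : m ^ 2 * d ^ 2 ≤ m * (m + 1) * d ^ 2 := by nlinarith [mul_nonneg (sq_nonneg d) h0.le]
    have a3 : 0 ≤ m * (m + 1) * (7 * s ^ 2 - 6 * s * d + 7 * d ^ 2) :=
      mul_nonneg (by positivity) (by nlinarith [sq_nonneg (s - d), sq_nonneg s, sq_nonneg d])
    nlinarith
  have : 0 ≤ (8 * m * (m + 1) * (s ^ 2 - s * d + d ^ 2)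
      - (s ^ 2 * (m + 1) - 2 * s * d * m * (m + 1) + m ^ 2 * d ^ 2)) / (m ^ 2 * (m + 1)) := by
    positivity
  linarith

lemma Q_add {m δ : ℝ} (hm : 1 ≤ m) (hδ : 0 < δ) (y d e : ℝ) :
    Q m (y + e) (d + e) ≤ (1 + δ) * Q m y d + (1 + 1 / δ) * (m * e ^ 2) := by
  have h0 : 0 < m := by linarith
  have e1 : (1 + δ) * Q m y d + (1 + 1 / δ) * Q m e e - Q m (y + e) (d + e)
      = Q m (δ * y - e) (δ * d - e) / δ := by unfold Q; field_simp; ring
  have e2 : 0 ≤ Q m (δ * y - e) (δ * d - e) / δ :=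
    div_nonneg (le_trans (by positivity) (Q_d h0 _ _)) hδ.le
  have e3 : Q m e e ≤ m * e ^ 2 := by
    have : e ^ 2 / m ≤ e ^ 2 := div_le_self (by positivity) hm
    unfold Q; nlinarith
  have e4 : (1 + 1 / δ) * Q m e e ≤ (1 + 1 / δ) * (m * e ^ 2) := by gcongr
  linarith

lemma lyap (Y : ℕ → ℂ) {C : ℝ} (hC : 0 ≤ C)
    (h : ∀ n, ‖Y (n + 2) - 2 * Y (n + 1) + Y n + (r n ^ 4 : ℝ) * Y (n + 1)‖ ≤
      C * (r n ^ 5 * ‖Y (n + 1)‖ + r n ^ 3 * ‖Y (n + 1) - Y n‖)) :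
    ∃ M, 0 ≤ M ∧ ∀ n : ℕ, ‖Y (n + 1)‖ ^ 2 ≤ M * (n + 25) := by
  set q : ℕ → ℝ := fun n => Q (n + 25) (Y (n + 1)).re (Y (n + 1) - Y n).re
    + Q (n + 25) (Y (n + 1)).im (Y (n + 1) - Y n).im with hq
  have hm : ∀ n : ℕ, (1 : ℝ) ≤ n + 25 := fun n => by
    have : (0 : ℝ) ≤ n := by positivity
    linarith
  have hy : ∀ n : ℕ, 3 / 4 * ‖Y (n + 1)‖ ^ 2 / (n + 25) ≤ q n := fun n => by
    rw [Complex.sq_norm, normSq_apply, mul_add, add_div, ← sq, ← sq]
    exact add_le_add (Q_y (by positivity) _ _) (Q_y (by positivity) _ _)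
  have hd : ∀ n : ℕ, 3 / 4 * (n + 25) * ‖Y (n + 1) - Y n‖ ^ 2 ≤ q n := fun n => by
    rw [Complex.sq_norm, normSq_apply, mul_add, ← sq, ← sq]
    exact add_le_add (Q_d (by positivity) _ _) (Q_d (by positivity) _ _)
  have hq0 : ∀ n, 0 ≤ q n := fun n => le_trans (by positivity) (hd n)
  have step : ∀ n, q (n + 1) ≤ (1 + (3 + 22 * C ^ 2) * r n ^ 3) * q n := by
    intro n
    have h1 := h n
    set e := Y (n + 2) - 2 * Y (n + 1) + Y n + (r n ^ 4 : ℝ) * Y (n + 1) with he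
    have h0 := r_pos n
    have h5 := r_le n
    have k4 : r n ^ 4 = 1 / ((n : ℝ) + 25) ^ 2 := by
      rw [show r n ^ 4 = (r n ^ 2) ^ 2 by ring, r_sq, div_pow, one_pow]
    have k2 : r n ^ 2 * ((n : ℝ) + 25) = 1 := by rw [r_sq]; field_simp
    have hδ : 0 < r n ^ 3 := by positivity
    have a1 := Q_add (m := n + 25 + 1) (by linarith [hm n]) hδ
      ((Y (n + 1)).re + ((Y (n + 1) - Y n).re - (Y (n + 1)).re / (n + 25) ^ 2))
      ((Y (n + 1) - Y n).re - (Y (n + 1)).re / (n + 25) ^ 2) e.re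
    have a2 := Q_add (m := n + 25 + 1) (by linarith [hm n]) hδ
      ((Y (n + 1)).im + ((Y (n + 1) - Y n).im - (Y (n + 1)).im / (n + 25) ^ 2))
      ((Y (n + 1) - Y n).im - (Y (n + 1)).im / (n + 25) ^ 2) e.im
    have b1 := Q_step (hm n) (Y (n + 1)).re (Y (n + 1) - Y n).re
    have b2 := Q_step (hm n) (Y (n + 1)).im (Y (n + 1) - Y n).im
    have c1 : e.re = (Y (n + 2)).re - 2 * (Y (n + 1)).re + (Y n).re
        + (Y (n + 1)).re / (n + 25) ^ 2 := by
      rw [he, add_re, re_ofReal_mul, k4]; simp; ring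
    have c2 : e.im = (Y (n + 2)).im - 2 * (Y (n + 1)).im + (Y n).im
        + (Y (n + 1)).im / (n + 25) ^ 2 := by
      rw [he, add_im, im_ofReal_mul, k4]; simp; ring
    have d1 : q (n + 1) = Q (n + 25 + 1)
        ((Y (n + 1)).re + ((Y (n + 1) - Y n).re - (Y (n + 1)).re / (n + 25) ^ 2) + e.re)
        ((Y (n + 1) - Y n).re - (Y (n + 1)).re / (n + 25) ^ 2 + e.re) + Q (n + 25 + 1)
        ((Y (n + 1)).im + ((Y (n + 1) - Y n).im - (Y (n + 1)).im / (n + 25) ^ 2) + e.im)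
        ((Y (n + 1) - Y n).im - (Y (n + 1)).im / (n + 25) ^ 2 + e.im) := by
      rw [c1, c2, hq]
      simp only [sub_re, sub_im]
      push_cast
      congr 2 <;> ring
    have f1 : ((n : ℝ) + 25 + 1) * e.re ^ 2 + (n + 25 + 1) * e.im ^ 2
        ≤ 11 * C ^ 2 * r n ^ 6 * q n := by
      have g1 : e.re ^ 2 + e.im ^ 2 = ‖e‖ ^ 2 := by rw [Complex.sq_norm, normSq_apply]; ring
      have g2 := pow_le_pow_left₀ (norm_nonneg _) h1 2
      have g3 : ‖Y (n + 1)‖ ^ 2 * r n ^ 2 ≤ 4 / 3 * q n := by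
        have := hy n
        rw [r_sq, mul_one_div]
        rw [mul_div_assoc] at this
        linarith
      have g4 : ‖Y (n + 1) - Y n‖ ^ 2 ≤ 4 / 3 * (r n ^ 2 * q n) := by
        have := mul_le_mul_of_nonneg_left (hd n) (sq_nonneg (r n))
        have e : r n ^ 2 * (3 / 4 * (n + 25) * ‖Y (n + 1) - Y n‖ ^ 2)
            = 3 / 4 * (r n ^ 2 * (n + 25)) * ‖Y (n + 1) - Y n‖ ^ 2 := by ring
        rw [e, k2] at this
        linarith
      generalize ‖Y (n + 1)‖ = a at *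
      generalize ‖Y (n + 1) - Y n‖ = b at *
      have g5 : (r n ^ 5 * a + r n ^ 3 * b) ^ 2 ≤ 16 / 3 * r n ^ 8 * q n := by
        have t1 : (r n ^ 5 * a + r n ^ 3 * b) ^ 2
            ≤ 2 * r n ^ 8 * (a ^ 2 * r n ^ 2) + 2 * r n ^ 6 * b ^ 2 := by
          nlinarith [sq_nonneg (r n ^ 5 * a - r n ^ 3 * b)]
        have t2 := mul_le_mul_of_nonneg_left g3 (show 0 ≤ 2 * r n ^ 8 by positivity)
        have t3 := mul_le_mul_of_nonneg_left g4 (show 0 ≤ 2 * r n ^ 6 by positivity)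
        nlinarith
      have g6 : ‖e‖ ^ 2 ≤ C ^ 2 * (16 / 3 * r n ^ 8 * q n) := by
        rw [mul_pow] at g2
        exact g2.trans (by gcongr)
      have g7 : ((n : ℝ) + 25 + 1) * ‖e‖ ^ 2 ≤ (2 * (n + 25)) * (C ^ 2 * (16 / 3 * r n ^ 8 * q n)) := by
        gcongr
        linarith [hm n]
      have g8 : (2 * ((n : ℝ) + 25)) * (C ^ 2 * (16 / 3 * r n ^ 8 * q n))
          = 32 / 3 * (r n ^ 2 * (n + 25)) * (C ^ 2 * r n ^ 6 * q n) := by ring
      have g9 : 0 ≤ C ^ 2 * r n ^ 6 * q n := by have := hq0 n; positivity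
      rw [k2] at g8
      rw [← mul_add, g1]
      linarith
    have f2 : (1 + 1 / r n ^ 3) * (11 * C ^ 2 * r n ^ 6 * q n) ≤ 22 * C ^ 2 * r n ^ 3 * q n := by
      have t1 : (1 + 1 / r n ^ 3) * (11 * C ^ 2 * r n ^ 6 * q n)
          = (r n ^ 3 + 1) * (11 * C ^ 2 * r n ^ 3 * q n) := by field_simp
      have t2 : r n ^ 3 ≤ 1 := pow_le_one₀ h0.le (by linarith)
      have t3 : 0 ≤ 11 * C ^ 2 * r n ^ 3 * q n := by have := hq0 n; positivity
      rw [t1]
      nlinarith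
    have f3 : (1 + r n ^ 3) * ((1 + 8 / ((n : ℝ) + 25) ^ 2) * q n) ≤ (1 + 3 * r n ^ 3) * q n := by
      rw [← mul_assoc]
      refine mul_le_mul_of_nonneg_right ?_ (hq0 n)
      rw [← mul_one_div, ← k4]
      have t2 : r n ^ 3 ≤ 1 / 125 := by
        calc r n ^ 3 ≤ (1 / 5) ^ 3 := by gcongr
          _ = 1 / 125 := by norm_num
      have t3 : r n ^ 4 ≤ r n ^ 3 * (1 / 5) := by rw [pow_succ]; gcongr
      nlinarith
    have f4 := mul_le_mul_of_nonneg_left f1 (show 0 ≤ 1 + 1 / r n ^ 3 by positivity)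
    have f5 := mul_le_mul_of_nonneg_left (add_le_add b1 b2) (show 0 ≤ 1 + r n ^ 3 by positivity)
    rw [← mul_add (1 + 8 / ((n : ℝ) + 25) ^ 2)] at f5
    rw [d1]
    have f6 : q n = Q (n + 25) (Y (n + 1)).re (Y (n + 1) - Y n).re
      + Q (n + 25) (Y (n + 1)).im (Y (n + 1) - Y n).im := rfl
    rw [← f6] at f5
    linarith
  have bd : ∀ n, q n ≤ Real.exp ((3 + 22 * C ^ 2) * ∑ i ∈ range n, r i ^ 3) * q 0 := by
    intro n
    induction n with
    | zero => simp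
    | succ n ih =>
      rw [sum_range_succ, add_comm (∑ i ∈ range n, r i ^ 3), mul_add (3 + 22 * C ^ 2),
        Real.exp_add, mul_assoc (Real.exp _)]
      refine (step n).trans (mul_le_mul ?_ ih (hq0 n) (Real.exp_pos _).le)
      rw [add_comm]
      exact Real.add_one_le_exp _
  refine ⟨4 / 3 * (Real.exp ((3 + 22 * C ^ 2) * ∑' i, r i ^ 3) * q 0),
    by have := hq0 0; positivity, fun n => ?_⟩
  have h1 : q n ≤ Real.exp ((3 + 22 * C ^ 2) * ∑' i, r i ^ 3) * q 0 := by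
    refine (bd n).trans (mul_le_mul_of_nonneg_right (Real.exp_le_exp.2 ?_) (hq0 0))
    exact mul_le_mul_of_nonneg_left (r_summ.sum_le_tsum _ fun i _ => (pow_pos (r_pos i) 3).le)
      (by positivity)
  have h2 := (div_le_iff₀ (by positivity)).1 ((hy n).trans h1)
  linarith

lemma grow (Z : ℕ → ℂ) (n L : ℕ) (hn : n + 25 = 8 * L) (h0 : Z n = 0) (h1 : Z (n + 1) = 1)
    (h : ∀ i, ‖Z (i + 2) - 2 * Z (i + 1) + Z i‖ ≤ 8 * r i ^ 4 * (‖Z (i + 1)‖ + ‖Z i‖)) :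
    (L : ℝ) / 2 ≤ ‖Z (n + L)‖ := by
  have hL : (0 : ℝ) < L := by
    have : 0 < L := by omega
    exact_mod_cast this
  have key : ∀ j, j < L → ‖Z (n + j + 1) - Z (n + j) - 1‖ ≤ j / (2 * L) ∧
      ‖Z (n + j) - j‖ ≤ j / 2 ∧ ‖Z (n + j + 1) - (j + 1)‖ ≤ (j + 1) / 2 := by
    intro j
    induction j with
    | zero => intro _; simp [h0, h1]
    | succ j ih =>
      intro hj
      obtain ⟨a1, a2, a3⟩ := ih (by omega)
      have hj' : (j : ℝ) + 1 ≤ L := by exact_mod_cast hj.le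
      have hj0 : (0 : ℝ) ≤ j := by positivity
      have b1 : ‖Z (n + j)‖ ≤ 2 * L := by
        have := norm_le_norm_add_norm_sub' (Z (n + j)) j
        rw [Complex.norm_natCast] at this
        linarith
      have b2 : ‖Z (n + j + 1)‖ ≤ 2 * L := by
        have := norm_le_norm_add_norm_sub' (Z (n + j + 1)) ((j + 1 : ℕ) : ℂ)
        rw [Complex.norm_natCast] at this
        push_cast at this
        linarith
      have b3 : r (n + j) ^ 4 ≤ 1 / (8 * L) ^ 2 := by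
        rw [show r (n + j) ^ 4 = (r (n + j) ^ 2) ^ 2 by ring, r_sq, div_pow, one_pow]
        have : ((n : ℝ) + 25) = 8 * L := by exact_mod_cast hn
        push_cast
        gcongr
        linarith
      have b4 : ‖Z (n + j + 2) - 2 * Z (n + j + 1) + Z (n + j)‖ ≤ 1 / (2 * L) := by
        refine (h _).trans ?_
        calc 8 * r (n + j) ^ 4 * (‖Z (n + j + 1)‖ + ‖Z (n + j)‖)
            ≤ 8 * (1 / (8 * (L : ℝ)) ^ 2) * (2 * L + 2 * L) := by gcongr
          _ = 1 / (2 * (L : ℝ)) := by field_simp; ring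
      have b5 : ‖Z (n + j + 2) - Z (n + j + 1) - 1‖ ≤ (j + 1) / (2 * L) := by
        rw [show Z (n + j + 2) - Z (n + j + 1) - 1 = (Z (n + j + 1) - Z (n + j) - 1)
          + (Z (n + j + 2) - 2 * Z (n + j + 1) + Z (n + j)) by ring, add_div]
        exact (norm_add_le _ _).trans (add_le_add a1 b4)
      have b6 : ((j : ℝ) + 1) / (2 * L) ≤ 1 / 2 := by
        rw [div_le_div_iff₀ (by positivity) (by positivity)]; linarith
      push_cast
      refine ⟨b5, a3, ?_⟩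
      rw [show Z (n + (j + 1) + 1) - (j + 1 + 1) = (Z (n + j + 1) - (j + 1))
        + (Z (n + j + 2) - Z (n + j + 1) - 1) by ring_nf]
      refine (norm_add_le _ _).trans ?_
      linarith
  obtain ⟨K, rfl⟩ : ∃ K, L = K + 1 := ⟨L - 1, by omega⟩
  have a := (key K (by omega)).2.2
  have := norm_le_norm_add_norm_sub' ((K + 1 : ℕ) : ℂ) (Z (n + K + 1))
  rw [Complex.norm_natCast, norm_sub_rev] at this
  push_cast at this ⊢
  rw [← add_assoc]
  linarith

theorem nolim (P R a c : ℕ → ℂ) {C : ℝ} (hC : 0 ≤ C)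
    (hP : ∀ n, P (n + 2) = a n * P (n + 1) - c n * P n)
    (hR : ∀ n, R (n + 2) = a n * R (n + 1) - c n * R n) (hc : ∀ n, 1 ≤ ‖c n‖)
    (hW : 1 ≤ ‖P 1 * R 0 - P 0 * R 1‖) (hne : ∀ n, R (n + 1) ≠ 0)
    (h1 : ∀ n (x y : ℂ), ‖a n * x - c n * y - 2 * x + y + (r n ^ 4 : ℝ) * x‖ ≤
      C * (r n ^ 5 * ‖x‖ + r n ^ 3 * ‖x - y‖))
    (h2 : ∀ n (x y : ℂ), ‖a n * x - c n * y - 2 * x + y‖ ≤ 8 * r n ^ 4 * (‖x‖ + ‖y‖)) (l : ℂ) :
    ¬Tendsto (fun n => P (n + 1) / R (n + 1)) atTop (𝓝 l) := by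
  intro hl
  obtain ⟨M, hM0, hM⟩ := lyap R hC fun n => hR n ▸ h1 n _ _
  have hW' : ∀ n, 1 ≤ ‖P (n + 1) * R n - P n * R (n + 1)‖ := by
    intro n
    induction n with
    | zero => exact hW
    | succ n ih =>
      rw [hP, hR, show (a n * P (n + 1) - c n * P n) * R (n + 1)
        - P (n + 1) * (a n * R (n + 1) - c n * R n)
        = c n * (P (n + 1) * R n - P n * R (n + 1)) by ring, norm_mul]
      exact one_le_mul_of_one_le_of_one_le (hc n) ih
  have t1 := hl.comp (tendsto_atTop_mono (f := id) (g := fun j : ℕ => 8 * j + 6)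
    (fun j => by simp only [id]; omega) tendsto_id)
  have t2 := hl.comp (tendsto_atTop_mono (f := id) (g := fun j : ℕ => 9 * j + 10)
    (fun j => by simp only [id]; omega) tendsto_id)
  have t3 := (t2.sub t1).norm
  rw [sub_self, norm_zero] at t3
  obtain ⟨j, hj⟩ := ((tendsto_order.1 t3).2 (1 / (18 * M + 1)) (by positivity)).exists
  simp only [Function.comp_apply] at hj
  set W := P (8 * j + 7 + 1) * R (8 * j + 7) - P (8 * j + 7) * R (8 * j + 7 + 1) with hWd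
  have w1 : 1 ≤ ‖W‖ := hW' _
  have w0 : W ≠ 0 := norm_pos_iff.1 (by linarith)
  have g := grow (fun k => (P k * R (8 * j + 7) - P (8 * j + 7) * R k) / W) (8 * j + 7) (j + 4)
    (by ring) (by simp) (div_self w0) fun i => by
      refine le_of_eq_of_le ?_ (h2 i _ _)
      rw [hP i, hR i]
      congr 1
      ring
  rw [norm_div, show 8 * j + 7 + (j + 4) = 9 * j + 10 + 1 by ring] at g
  have g1 := g.trans (div_le_self (norm_nonneg _) w1)
  rw [div_sub_div _ _ (hne _) (hne _), norm_div, norm_mul, mul_comm (R _) (P _),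
    div_lt_div_iff₀ (mul_pos (norm_pos_iff.2 (hne _)) (norm_pos_iff.2 (hne _))) (by positivity)]
    at hj
  have m1 := hM (9 * j + 10)
  have m2 := hM (8 * j + 6)
  have hj0 : (0 : ℝ) ≤ j := by positivity
  push_cast at g1 m1 m2
  rw [show 8 * j + 6 + 1 = 8 * j + 7 by ring] at hj m2
  generalize ‖P (9 * j + 10 + 1) * R (8 * j + 7) - P (8 * j + 7) * R (9 * j + 10 + 1)‖ = x at *
  have g2 := mul_le_mul_of_nonneg_right g1 (show 0 ≤ 18 * M + 1 by positivity)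
  nlinarith [sq_nonneg (‖R (9 * j + 10 + 1)‖ - ‖R (8 * j + 7)‖), mul_nonneg hM0 hj0]

end Pool.Agent.H21.Cf
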