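import Pool.Agent.H21.Cf2

set_option autoImplicit false
open Complex Filter Topology

namespace Pool.Agent.H21.Cf

noncomputable def sol (a c : ℕ → ℂ) (x y : ℂ) : ℕ → ℂ
  | 0 => x
  | 1 => y
  | n + 2 => a n * sol a c x y (n + 1) - c n * sol a c x y n

noncomputable def be (C : ℝ) (n : ℕ) : ℂ := (r n ^ 4 : ℝ) + (C * r n ^ 5 : ℝ) * I

lemma be_re (C : ℝ) (n : ℕ) : (be C n).re = r n ^ 4 := by
  rw [be, add_re, re_ofReal_mul, ofReal_re]; simp

lemma be_im (C : ℝ) (n : ℕ) : (be C n).im = C * r n ^ 5 := by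
  rw [be, add_im, im_ofReal_mul, ofReal_im]; simp

lemma be_norm {C : ℝ} (h0 : 0 ≤ C) (hC : C ≤ 35) (n : ℕ) : ‖be C n‖ ≤ 8 * r n ^ 4 := by
  have h1 := r_pos n
  have h2 := r_le n
  refine (norm_add_le _ _).trans ?_
  rw [norm_mul, norm_I, mul_one, Complex.norm_real, Complex.norm_real,
    Real.norm_of_nonneg (by positivity), Real.norm_of_nonneg (by positivity)]
  have : C * r n ^ 5 ≤ 35 * (r n ^ 4 * (1 / 5)) := by rw [pow_succ]; gcongr
  linarith

lemma be_sub {C : ℝ} (h0 : 0 ≤ C) (n : ℕ) (x : ℂ) :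
    ‖(r n ^ 4 : ℝ) * x - be C n * x‖ = C * r n ^ 5 * ‖x‖ := by
  have h1 := r_pos n
  rw [← sub_mul, be, norm_mul, sub_add_cancel_left, norm_neg, norm_mul, norm_I, mul_one,
    Complex.norm_real, Real.norm_of_nonneg (by positivity)]

end Pool.Agent.H21.Cf
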