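import Mathlib

set_option autoImplicit false

namespace Pool.Agent.H21.Cliff

section alg
variable {B : Type*} [Ring B] [Algebra ℝ B]

lemma anti_pow (θ α : B) (h : θ * α = -(α * θ)) (k : ℕ) :
    θ * α ^ k = (-1 : ℝ) ^ k • (α ^ k * θ) := by
  induction k with
  | zero => simp
  | succ k ih =>
    rw [pow_succ α, ← mul_assoc, ih, smul_mul_assoc, mul_assoc, h, pow_succ (-1 : ℝ), mul_smul]
    simp [mul_assoc]

/-- Derivative of a power in a noncommutative ring. -/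
def Dpow (a a' : B) : ℕ → B
  | 0 => 0
  | n + 1 => Dpow a a' n * a + a ^ n * a'

lemma sum_Dpow {J : Type*} [Fintype J] (θ a : J → B) (α : B) (hα : α = ∑ j, θ j * a j)
    (h : ∀ j, θ j * α = -(α * θ j)) (n : ℕ) :
    ∃ c : ℝ, ∑ j, θ j * Dpow α (a j * α) n = c • α ^ (n + 1) := by
  induction n with
  | zero => exact ⟨0, by simp [Dpow]⟩
  | succ n ih =>
    obtain ⟨c, hc⟩ := ih
    refine ⟨c + (-1) ^ n, ?_⟩
    have e1 : ∀ j, θ j * Dpow α (a j * α) (n + 1) =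
        θ j * Dpow α (a j * α) n * α + (-1 : ℝ) ^ n • (α ^ n * (θ j * a j) * α) := by
      intro j
      rw [Dpow, mul_add, ← mul_assoc, ← mul_assoc (θ j) (α ^ n), anti_pow _ _ (h j),
        smul_mul_assoc]
      simp [mul_assoc]
    simp only [e1]
    rw [Finset.sum_add_distrib, ← Finset.sum_mul, hc, ← Finset.smul_sum, ← Finset.sum_mul,
      ← Finset.mul_sum, ← hα, add_smul, smul_mul_assoc, ← pow_succ, ← pow_succ, ← pow_succ]

lemma tau_top {J : Type*} [Fintype J] (τ : B →ₗ[ℝ] ℝ) (θ a : J → B) (α : B)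
    (hα : α = ∑ j, θ j * a j) (h : ∀ j, θ j * α = -(α * θ j))
    (hc : ∀ j, θ j * a j = a j * θ j) (hτ : ∀ j X, τ (a j * X) = τ (X * a j)) (m : ℕ) :
    τ (α ^ (2 * m + 1 + 1)) = 0 := by
  have e1 : ∀ j, τ (θ j * a j * α ^ (2 * m + 1)) = -τ (α ^ (2 * m + 1) * (θ j * a j)) := by
    intro j
    rw [hc j, mul_assoc, hτ, anti_pow _ _ (h j), smul_mul_assoc, map_smul, ← hc j]
    have : (-1 : ℝ) ^ (2 * m + 1) = -1 := by rw [pow_succ, pow_mul]; simp
    rw [this]; simp [mul_assoc]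
  have e2 : τ (α * α ^ (2 * m + 1)) = -τ (α ^ (2 * m + 1) * α) := by
    calc τ (α * α ^ (2 * m + 1)) = τ ((∑ j, θ j * a j) * α ^ (2 * m + 1)) := by rw [← hα]
      _ = ∑ j, τ (θ j * a j * α ^ (2 * m + 1)) := by rw [Finset.sum_mul, map_sum]
      _ = -∑ j, τ (α ^ (2 * m + 1) * (θ j * a j)) := by simp only [e1, Finset.sum_neg_distrib]
      _ = -τ (α ^ (2 * m + 1) * α) := by rw [← map_sum, ← Finset.mul_sum, ← hα]
  rw [← pow_succ, ← pow_succ'] at e2
  linarith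

lemma model (τ : B →ₗ[ℝ] ℝ) (u η ξ : B) (huu : u * u = 1) (h1 : u * η + η * u = (2 : ℝ) • ξ)
    (h2 : ξ * ξ = 0) (h3 : ξ * η = -(η * ξ)) (h4 : ξ * u = u * ξ)
    (hτ : ∀ X, τ (u * X) = -τ (X * u)) (m : ℕ) :
    (2 * m + 2) * τ (ξ * (u * η) ^ (2 * m + 1)) = (-1) ^ m * τ (η ^ (2 * m + 1 + 1)) := by
  have hηu : η * u = (2 : ℝ) • ξ - u * η := by rw [← h1]; abel
  have huη : u * η = (2 : ℝ) • ξ - η * u := by rw [← h1]; abel
  have hηξ : η * ξ = -(ξ * η) := by rw [h3]; simp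
  have hev : ∀ k : ℕ, ξ * η ^ (2 * k) = η ^ (2 * k) * ξ := by
    intro k
    rw [anti_pow _ _ h3, pow_mul]; simp
  have a1 : ξ * (u * η) * (u * η) = -(ξ * η ^ 2) := by
    calc ξ * (u * η) * (u * η) = ξ * u * (η * u) * η := by simp [mul_assoc]
      _ = (2 : ℝ) • (u * (ξ * ξ) * η) - ξ * (u * u) * η * η := by
        rw [hηu, mul_sub, sub_mul, mul_smul_comm, smul_mul_assoc, h4]
        simp only [mul_assoc]
        rw [← mul_assoc ξ u (u * (η * η)), h4]
        simp only [mul_assoc]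
      _ = -(ξ * η ^ 2) := by rw [h2, huu, pow_two]; simp [mul_assoc]
  have s1 : ∀ k : ℕ, ξ * (u * η) ^ (2 * k) = (-1 : ℝ) ^ k • (ξ * η ^ (2 * k)) := by
    intro k
    induction k with
    | zero => simp
    | succ k ih =>
      have : (u * η) ^ (2 * (k + 1)) = (u * η) * (u * η) * (u * η) ^ (2 * k) := by
        rw [show 2 * (k + 1) = 2 + 2 * k by ring, pow_add, pow_two]
      rw [this, ← mul_assoc, ← mul_assoc, a1]
      have h5 := hev 1
      rw [mul_one] at h5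
      rw [h5, neg_mul, mul_assoc, ih, mul_smul_comm, ← mul_assoc, ← h5, mul_assoc, ← pow_add,
        pow_succ (-1 : ℝ), mul_smul, show 2 + 2 * k = 2 * (k + 1) by ring]
      simp
  have s2 : ξ * (u * η) ^ (2 * m + 1) = (-1 : ℝ) ^ m • (u * (ξ * η ^ (2 * m + 1))) := by
    have e : ξ * (u * η) = -(u * η * ξ) := by
      rw [← mul_assoc, h4, mul_assoc, h3, mul_assoc]; simp
    rw [pow_succ' (u * η), ← mul_assoc, e, neg_mul, mul_assoc, s1, mul_smul_comm, mul_assoc,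
      ← mul_assoc η ξ, hηξ, pow_succ' η]
    simp [mul_assoc]
  have b1 : u * η ^ 2 = η ^ 2 * u + (4 : ℝ) • (ξ * η) := by
    calc u * η ^ 2 = (u * η) * η := by rw [pow_two, mul_assoc]
      _ = (2 : ℝ) • (ξ * η) - η * (u * η) := by
        rw [huη, sub_mul, smul_mul_assoc, mul_assoc, ← huη]
      _ = (2 : ℝ) • (ξ * η) - ((2 : ℝ) • (η * ξ) - η * η * u) := by
        conv_lhs => rw [huη]
        rw [mul_sub, mul_smul_comm, mul_assoc]
      _ = η ^ 2 * u + (4 : ℝ) • (ξ * η) := by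
        rw [hηξ, pow_two, show (4 : ℝ) = 2 + 2 by norm_num, add_smul, smul_neg]; abel
  have s3 : ∀ k : ℕ, u * η ^ (2 * k + 1 + 1) =
      η ^ (2 * k + 1 + 1) * u + (4 * (k + 1) : ℝ) • (ξ * η ^ (2 * k + 1)) := by
    intro k
    induction k with
    | zero => simpa using b1
    | succ k ih =>
      have e1 : η ^ (2 * (k + 1) + 1 + 1) = η ^ (2 * k + 1 + 1) * η ^ 2 := by
        rw [← pow_add]; congr 1
      have e2 : η ^ (2 * (k + 1) + 1) = η ^ (2 * k + 1) * η ^ 2 := by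
        rw [← pow_add]; congr 1
      have e3 : η ^ (2 * k + 1 + 1) * (ξ * η) = ξ * (η ^ (2 * k + 1) * η ^ 2) := by
        rw [← mul_assoc, show 2 * k + 1 + 1 = 2 * (k + 1) by ring, ← hev, mul_assoc, ← pow_succ,
          ← e2]
      rw [e1, e2, ← mul_assoc, ih, add_mul, mul_assoc, b1, mul_add, mul_smul_comm, e3,
        smul_mul_assoc, mul_assoc, mul_assoc]
      push_cast
      rw [show (4 * ((k : ℝ) + 1 + 1)) = 4 + 4 * (k + 1) by ring, add_smul]
      abel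
  have t1 : τ (u * (u * η ^ (2 * m + 1 + 1))) = τ (η ^ (2 * m + 1 + 1)) := by
    rw [← mul_assoc, huu, one_mul]
  have t2 : τ (u * (η ^ (2 * m + 1 + 1) * u)) = -τ (η ^ (2 * m + 1 + 1)) := by
    rw [hτ, mul_assoc, huu, mul_one]
  rw [s3 m, mul_add, map_add, t2, mul_smul_comm, map_smul, smul_eq_mul] at t1
  rw [s2, map_smul, smul_eq_mul]
  have : (2 * m + 2) * τ (u * (ξ * η ^ (2 * m + 1))) = τ (η ^ (2 * m + 1 + 1)) := by linarith
  rw [← this]; ring

end alg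

end Pool.Agent.H21.Cliff
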