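import Mathlib

set_option autoImplicit false

open MeasureTheory

namespace Pool.Agent.H21.Cliff

lemma flux {J : Type} [Fintype J] [DecidableEq J] [Nonempty J] (V D : J → (J → ℝ) → ℝ)
    (hV : ∀ j, Continuous (V j)) (hD : ∀ j, Continuous (D j))
    (hd : ∀ j x, HasLineDerivAt ℝ (V j) (D j x) x (Pi.single j 1))
    (hdiv : ∀ x, ∑ j, D j x = 0) (R : ℝ) (hR : 0 < R)
    (hpos : ∀ x : J → ℝ, R ≤ ∑ j, x j ^ 2 → 0 < ∑ j, x j * V j x) : False := by
  set ψ : ℝ → ℝ := fun s => max 0 ((s - R) * (2 * R - s)) with hψ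
  have hψc : Continuous ψ := by rw [hψ]; fun_prop
  have hψ0 : ∀ s, 0 ≤ ψ s := fun s => le_max_left _ _
  have hψ1 : ∀ s, 2 * R ≤ s → ψ s = 0 := fun s hs => max_eq_left (by nlinarith)
  have hψ2 : ∀ s, s ≤ R → ψ s = 0 := fun s hs => max_eq_left (by nlinarith)
  set χ : ℝ → ℝ := fun s => ∫ t in (2 * R)..s, ψ t with hχ
  have hχd : ∀ s, HasDerivAt χ (ψ s) s := fun s => (hψc.integral_hasStrictDerivAt _ _).hasDerivAt
  have hχc : Continuous χ := continuous_iff_continuousAt.mpr fun s => (hχd s).continuousAt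
  have hχ1 : ∀ s, 2 * R ≤ s → χ s = 0 := by
    intro s hs
    show ∫ t in (2 * R)..s, ψ t = 0
    rw [intervalIntegral.integral_congr (g := fun _ => (0 : ℝ))]
    · simp
    · intro t ht
      rw [Set.uIcc_of_le hs] at ht
      exact hψ1 t ht.1
  set q : (J → ℝ) → ℝ := fun x => ∑ j, x j ^ 2 with hq
  have hqc : Continuous q := by rw [hq]; fun_prop
  have hsupp : ∀ F : (J → ℝ) → ℝ, (∀ x, 2 * R ≤ q x → F x = 0) → HasCompactSupport F := by
    intro F hF
    apply HasCompactSupport.intro (isCompact_closedBall (0 : J → ℝ) (2 * R + 1))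
    intro x hx
    apply hF
    by_contra hlt
    apply hx
    rw [mem_closedBall_zero_iff, pi_norm_le_iff_of_nonneg (by linarith)]
    intro j
    have h1 : x j ^ 2 ≤ q x :=
      Finset.single_le_sum (f := fun j => x j ^ 2) (fun j _ => sq_nonneg _) (Finset.mem_univ j)
    rw [Real.norm_eq_abs, abs_le]
    constructor <;> nlinarith
  have hφd : ∀ j x, HasLineDerivAt ℝ (fun x => χ (q x)) (ψ (q x) * (2 * x j)) x
      (Pi.single j 1) := by
    intro j x
    have h1 : HasDerivAt (fun t : ℝ => q (x + t • (Pi.single j 1 : J → ℝ))) (2 * x j) 0 := by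
      have h2 : HasDerivAt (fun t : ℝ => ∑ i, (x i + t * (Pi.single j 1 : J → ℝ) i) ^ 2)
          (∑ i, 2 * x i * (Pi.single j 1 : J → ℝ) i) 0 := by
        apply HasDerivAt.fun_sum
        intro i _
        have := (((hasDerivAt_id (0 : ℝ)).mul_const ((Pi.single j 1 : J → ℝ) i)).const_add
          (x i)).fun_pow 2
        simpa using this
      have h3 : ∑ i, 2 * x i * (Pi.single j 1 : J → ℝ) i = 2 * x j := by
        simp [Pi.single_apply]
      rw [h3] at h2
      exact h2
    have h4 : HasDerivAt χ (ψ (q x)) (q (x + (0 : ℝ) • (Pi.single j 1 : J → ℝ))) := by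
      simpa using hχd (q x)
    exact h4.comp (0 : ℝ) h1
  have hi1 : ∀ j, Integrable (fun x : J → ℝ => ψ (q x) * (2 * x j) * V j x) := fun j =>
    Continuous.integrable_of_hasCompactSupport (by have := hV j; fun_prop)
      (hsupp _ fun x hx => by rw [hψ1 _ hx]; simp)
  have hi2 : ∀ j, Integrable (fun x : J → ℝ => χ (q x) * D j x) := fun j =>
    Continuous.integrable_of_hasCompactSupport (by have := hD j; fun_prop)
      (hsupp _ fun x hx => by rw [hχ1 _ hx]; simp)
  have hi3 : ∀ j, Integrable (fun x : J → ℝ => χ (q x) * V j x) := fun j =>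
    Continuous.integrable_of_hasCompactSupport (by have := hV j; fun_prop)
      (hsupp _ fun x hx => by rw [hχ1 _ hx]; simp)
  have ibp : ∀ j, ∫ x : J → ℝ, χ (q x) * D j x = -∫ x : J → ℝ, ψ (q x) * (2 * x j) * V j x :=
    fun j => integral_bilinear_hasLineDerivAt_right_eq_neg_left_of_integrable
      (B := ContinuousLinearMap.mul ℝ ℝ) (μ := volume) (hi1 j) (hi2 j) (hi3 j)
      (fun x _ => hφd j x) (fun x _ => hd j x)
  have hs1 : ∑ j, ∫ x : J → ℝ, χ (q x) * D j x = 0 := by
    rw [← integral_finset_sum _ fun j _ => hi2 j]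
    simp only [← Finset.mul_sum, hdiv, mul_zero, integral_zero]
  have hs2 : ∫ x : J → ℝ, ∑ j, ψ (q x) * (2 * x j) * V j x = 0 := by
    rw [integral_finset_sum _ fun j _ => hi1 j]
    simp only [ibp, Finset.sum_neg_distrib, neg_eq_zero] at hs1
    exact hs1
  have he : ∀ x : J → ℝ, ∑ j, ψ (q x) * (2 * x j) * V j x = 2 * ψ (q x) * ∑ j, x j * V j x := by
    intro x
    rw [Finset.mul_sum]
    exact Finset.sum_congr rfl fun j _ => by ring
  simp only [he] at hs2
  obtain ⟨j0⟩ := ‹Nonempty J›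
  set x0 : J → ℝ := Pi.single j0 (Real.sqrt (3 * R / 2)) with hx0
  have hq0 : q x0 = 3 * R / 2 := by
    show ∑ j, x0 j ^ 2 = _
    rw [Finset.sum_eq_single j0]
    · rw [hx0, Pi.single_eq_same, Real.sq_sqrt (by linarith)]
    · intro b _ hb
      rw [hx0, Pi.single_eq_of_ne hb]; simp
    · simp
  have hgt : 0 < ∫ x : J → ℝ, 2 * ψ (q x) * ∑ j, x j * V j x := by
    apply Continuous.integral_pos_of_hasCompactSupport_nonneg_nonzero (x := x0)
    · fun_prop
    · exact hsupp _ fun x hx => by rw [hψ1 _ hx]; simp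
    · intro x
      by_cases hx : R ≤ q x
      · exact mul_nonneg (mul_nonneg (by norm_num) (hψ0 _)) (hpos x hx).le
      · show 0 ≤ 2 * ψ (q x) * _
        rw [hψ2 _ (not_le.mp hx).le]; simp
    · have h1 : 0 < ψ (q x0) := by
        rw [hq0]
        exact lt_max_of_lt_right (by nlinarith)
      have h2 := hpos x0 (by show R ≤ q x0; rw [hq0]; linarith)
      positivity
  linarith

end Pool.Agent.H21.Cliff
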