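import Mathlib
import Pool.Agent.H21.Cliff1
import Pool.Agent.H21.Cliff2

set_option autoImplicit false

open Filter Topology

namespace Pool.Agent.H21.Cliff

variable {B : Type} [NormedRing B] [NormedAlgebra ℝ B]

lemma hasDerivAt_pow_nc {f : ℝ → B} {f' : B} {t : ℝ} (h : HasDerivAt f f' t) (n : ℕ) :
    HasDerivAt (fun s => f s ^ n) (Dpow (f t) f' n) t := by
  induction n with
  | zero => simpa [Dpow] using hasDerivAt_const t (1 : B)
  | succ n ih =>
    have := ih.fun_mul h
    simpa [Dpow, pow_succ] using this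

lemma cont_Dpow {X : Type} [TopologicalSpace X] {f g : X → B} (hf : Continuous f)
    (hg : Continuous g) (n : ℕ) : Continuous fun x => Dpow (f x) (g x) n := by
  induction n with
  | zero => simpa [Dpow] using continuous_const
  | succ n ih =>
    simp only [Dpow]
    fun_prop

/-- The linear combination. -/
def lin {J : Type} [Fintype J] (g : J → B) (x : J → ℝ) : B := ∑ j, x j • g j

lemma lin_smul {J : Type} [Fintype J] (g : J → B) (r : ℝ) (x : J → ℝ) :
    lin g (r • x) = r • lin g x := by
  simp [lin, Finset.smul_sum, mul_smul]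

lemma lin_cont {J : Type} [Fintype J] (g : J → B) : Continuous (lin g) := by
  unfold lin; fun_prop

lemma lin_line {J : Type} [Fintype J] [DecidableEq J] (g : J → B) (x : J → ℝ) (j : J) (t : ℝ) :
    lin g (x + t • (Pi.single j 1 : J → ℝ)) = lin g x + t • g j := by
  simp [lin, add_smul, Finset.sum_add_distrib, Pi.single_apply]

lemma lin_mul_lin {J : Type} [Fintype J] (g h : J → B) (x y : J → ℝ) :
    lin g x * lin h y = ∑ j, ∑ k, (x j * y k) • (g j * h k) := by
  rw [lin, lin, Finset.sum_mul_sum]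
  exact Finset.sum_congr rfl fun j _ => Finset.sum_congr rfl fun k _ => smul_mul_smul_comm _ _ _ _

lemma inverse_eq {a b : B} (h1 : a * b = 1) (h2 : b * a = 1) : Ring.inverse a = b :=
  Ring.inverse_unit ⟨a, b, h1, h2⟩

theorem core [CompleteSpace B] {J : Type} [Fintype J] [DecidableEq J] (τ : B →L[ℝ] ℝ)
    (g θ : J → B) (K : B)
    (hg1 : ∀ j, g j * g j = 1) (hg2 : ∀ j k, j ≠ k → g j * g k = -(g k * g j))
    (hθ : ∀ j k, θ j * θ k = -(θ k * θ j)) (hθg : ∀ j k, θ j * g k = g k * θ j)
    (hθK : ∀ j, θ j * K = K * θ j)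
    (hτg : ∀ j X, τ (g j * X) = -τ (X * g j)) (hτK : ∀ X, τ (K * X) = -τ (X * K)) (m : ℕ)
    (hne : τ ((∑ j, θ j * g j) ^ (2 * m + 1 + 1)) ≠ 0) :
    ∃ x : J → ℝ, ¬ IsUnit (K - lin g x) := by
  by_contra hcon
  push Not at hcon
  set η : B := ∑ j, θ j * g j with hη
  have hJ : Nonempty J := by
    by_contra hJ
    rw [not_nonempty_iff] at hJ
    apply hne
    rw [hη]; simp
  set n := 2 * m + 1 with hn
  set G : (J → ℝ) → B := fun x => Ring.inverse (K - lin g x) with hG
  have hG1 : ∀ x, (K - lin g x) * G x = 1 := fun x => Ring.mul_inverse_cancel _ (hcon x)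
  have hG2 : ∀ x, G x * (K - lin g x) = 1 := fun x => Ring.inverse_mul_cancel _ (hcon x)
  have hGc : Continuous G := by
    rw [continuous_iff_continuousAt]
    intro x
    obtain ⟨U, hU⟩ := hcon x
    have h1 := NormedRing.inverse_continuousAt U
    rw [hU] at h1
    exact ContinuousAt.comp (f := fun x => K - lin g x) h1
      (continuous_const.sub (lin_cont g)).continuousAt
  have hτu : ∀ x X, τ (lin g x * X) = -τ (X * lin g x) := by
    intro x X
    simp only [lin, Finset.sum_mul, Finset.mul_sum, map_sum, smul_mul_assoc, mul_smul_comm,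
      map_smul, hτg, smul_neg, Finset.sum_neg_distrib]
  have hτG : ∀ x X, τ (G x * X) = -τ (X * G x) := by
    intro x X
    have h1 : τ ((K - lin g x) * (G x * X * G x)) = -τ ((G x * X * G x) * (K - lin g x)) := by
      rw [sub_mul, mul_sub, map_sub, map_sub, hτK, hτu]; ring
    rw [← mul_assoc, ← mul_assoc, hG1, one_mul, mul_assoc, hG2, mul_one] at h1
    linarith
  have hθu : ∀ j x, θ j * lin g x = lin g x * θ j := by
    intro j x
    simp only [lin, Finset.sum_mul, Finset.mul_sum, smul_mul_assoc, mul_smul_comm, hθg]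
  have hθG : ∀ j x, θ j * G x = G x * θ j := by
    intro j x
    have h1 : θ j * (K - lin g x) = (K - lin g x) * θ j := by
      rw [mul_sub, sub_mul, hθK, hθu]
    calc θ j * G x = G x * (K - lin g x) * θ j * G x := by rw [hG2, one_mul]
      _ = G x * (θ j * ((K - lin g x) * G x)) := by
        rw [mul_assoc (G x), ← h1]; simp only [mul_assoc]
      _ = G x * θ j := by rw [hG1, mul_one]
  have hθη : ∀ j, θ j * η = -(η * θ j) := by
    intro j
    rw [hη, Finset.mul_sum, Finset.sum_mul, ← Finset.sum_neg_distrib]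
    refine Finset.sum_congr rfl fun k _ => ?_
    rw [← mul_assoc, hθ j k, neg_mul, mul_assoc, hθg j k, mul_assoc]
  have hα : ∀ x, G x * η = ∑ j, θ j * (G x * g j) := by
    intro x
    rw [hη, Finset.mul_sum]
    exact Finset.sum_congr rfl fun k _ => by rw [← mul_assoc, ← hθG, mul_assoc]
  have hθα : ∀ x j, θ j * (G x * η) = -(G x * η * θ j) := by
    intro x j
    rw [← mul_assoc, hθG, mul_assoc, hθη, mul_neg, mul_assoc]
  -- asymptotics
  have huu : ∀ y : J → ℝ, ∑ j, y j ^ 2 = 1 → lin g y * lin g y = 1 := by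
    intro y hy
    have h1 : lin g y * lin g y = ∑ j, ∑ k, (y j * y k) • (g j * g k) := lin_mul_lin _ _ _ _
    have h2 : lin g y * lin g y = ∑ j, ∑ k, (y j * y k) • (g k * g j) := by
      rw [h1, Finset.sum_comm]
      exact Finset.sum_congr rfl fun j _ => Finset.sum_congr rfl fun k _ => by rw [mul_comm]
    have h3 : ∀ j k, (y j * y k) • (g j * g k) + (y j * y k) • (g k * g j) =
        if j = k then (2 * y j ^ 2) • (1 : B) else 0 := by
      intro j k
      split_ifs with h
      · subst h; rw [hg1, ← add_smul]; congr 1; ring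
      · rw [hg2 j k h]; simp
    have h4 : lin g y * lin g y + lin g y * lin g y = (2 : ℝ) • (1 : B) := by
      nth_rewrite 1 [h1]
      rw [h2, ← Finset.sum_add_distrib]
      simp only [← Finset.sum_add_distrib, h3, Finset.sum_ite_eq, Finset.mem_univ, if_true]
      rw [← Finset.sum_smul, ← Finset.mul_sum, hy, mul_one]
    rw [← two_smul ℝ] at h4
    exact smul_right_injective B (two_ne_zero) h4
  have huη : ∀ y : J → ℝ, lin g y * η + η * lin g y = (2 : ℝ) • lin θ y := by
    intro y
    have h3 : ∀ j k, y j • (g j * (θ k * g k)) + y j • (θ k * g k * g j) =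
        if j = k then (2 : ℝ) • y j • θ j else 0 := by
      intro j k
      rw [← mul_assoc, ← hθg, mul_assoc, mul_assoc]
      split_ifs with h
      · subst h; rw [hg1, mul_one, two_smul]
      · rw [hg2 j k h]; simp
    have h1 : lin g y * η = ∑ j, ∑ k, y j • (g j * (θ k * g k)) := by
      simp only [lin, hη, Finset.sum_mul, Finset.mul_sum, smul_mul_assoc]
      rw [Finset.sum_comm]
    have h2 : η * lin g y = ∑ j, ∑ k, y j • (θ k * g k * g j) := by
      simp only [lin, hη, Finset.sum_mul, Finset.mul_sum, mul_smul_comm, Finset.smul_sum]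
    rw [h1, h2, ← Finset.sum_add_distrib]
    simp only [← Finset.sum_add_distrib, h3, Finset.sum_ite_eq, Finset.mem_univ, if_true]
    rw [lin, Finset.smul_sum]
  have hξξ : ∀ y : J → ℝ, lin θ y * lin θ y = 0 := by
    intro y
    have h1 : lin θ y * lin θ y = ∑ j, ∑ k, (y j * y k) • (θ j * θ k) := lin_mul_lin _ _ _ _
    have h2 : lin θ y * lin θ y = -∑ j, ∑ k, (y j * y k) • (θ j * θ k) := by
      refine h1.trans (Finset.sum_comm.trans ?_)
      rw [← Finset.sum_neg_distrib]
      refine Finset.sum_congr rfl fun j _ => ?_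
      rw [← Finset.sum_neg_distrib]
      exact Finset.sum_congr rfl fun k _ => by rw [mul_comm, hθ k j, smul_neg]
    rw [← h1] at h2
    have h4 : (2 : ℝ) • (lin θ y * lin θ y) = (2 : ℝ) • (0 : B) := by
      rw [two_smul, smul_zero]; nth_rewrite 1 [h2]; simp
    exact smul_right_injective B (two_ne_zero) h4
  have hξη : ∀ y : J → ℝ, lin θ y * η = -(η * lin θ y) := by
    intro y
    simp only [lin, Finset.sum_mul, Finset.mul_sum, smul_mul_assoc, mul_smul_comm, hθη, smul_neg,
      Finset.sum_neg_distrib]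
  have hξu : ∀ y : J → ℝ, lin θ y * lin g y = lin g y * lin θ y := by
    intro y
    rw [lin.eq_1 θ]
    simp only [Finset.sum_mul, Finset.mul_sum, smul_mul_assoc, mul_smul_comm, hθu]
  set c : ℝ := -((-1) ^ m * τ (η ^ (n + 1))) with hc
  have hc0 : c ≠ 0 := neg_ne_zero.mpr (mul_ne_zero (pow_ne_zero _ (by norm_num)) hne)
  set H : ℝ → (J → ℝ) → ℝ := fun ε y =>
    c * τ (lin θ y * (Ring.inverse (ε • K - lin g y) * η) ^ n) with hH
  have hS : IsCompact {y : J → ℝ | ∑ j, y j ^ 2 = 1} := by
    apply (isCompact_closedBall (0 : J → ℝ) 1).of_isClosed_subset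
    · exact isClosed_eq (by fun_prop) continuous_const
    · intro y hy
      rw [mem_closedBall_zero_iff, pi_norm_le_iff_of_nonneg zero_le_one]
      intro j
      have h1 : y j ^ 2 ≤ ∑ j, y j ^ 2 :=
        Finset.single_le_sum (f := fun j => y j ^ 2) (fun j _ => sq_nonneg _) (Finset.mem_univ j)
      rw [hy] at h1
      rw [Real.norm_eq_abs, abs_le]
      constructor <;> nlinarith
  have hev : ∀ᶠ ε in 𝓝 (0 : ℝ), ∀ y ∈ {y : J → ℝ | ∑ j, y j ^ 2 = 1}, 0 < H ε y := by
    apply hS.eventually_forall_of_forall_eventually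
    intro y hy
    have hu := huu y hy
    have hU1 : (-lin g y) * (-lin g y) = 1 := by rw [neg_mul_neg, hu]
    have hcont : ContinuousAt (fun z : ℝ × (J → ℝ) => H z.1 z.2) (0, y) := by
      have h1 := NormedRing.inverse_continuousAt (⟨-lin g y, -lin g y, hU1, hU1⟩ : Bˣ)
      have h2 : ContinuousAt (fun z : ℝ × (J → ℝ) => z.1 • K - lin g z.2) (0, y) :=
        ((continuous_fst.smul continuous_const).sub
          ((lin_cont g).comp continuous_snd)).continuousAt
      have h3 : ContinuousAt (fun z : ℝ × (J → ℝ) => Ring.inverse (z.1 • K - lin g z.2)) (0, y) :=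
        ContinuousAt.comp (g := Ring.inverse)
          (f := fun z : ℝ × (J → ℝ) => z.1 • K - lin g z.2) (by simpa using h1) h2
      have h4 : ContinuousAt (fun z : ℝ × (J → ℝ) => lin θ z.2) (0, y) :=
        ((lin_cont θ).comp continuous_snd).continuousAt
      exact continuousAt_const.mul
        (τ.continuous.continuousAt.comp (h4.mul ((h3.mul continuousAt_const).pow n)))
    have hval : 0 < H 0 y := by
      have h1 : Ring.inverse ((0 : ℝ) • K - lin g y) = -lin g y := by
        rw [zero_smul, zero_sub]; exact inverse_eq hU1 hU1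
      have h2 := model (τ : B →ₗ[ℝ] ℝ) (lin g y) η (lin θ y) hu (huη y) (hξξ y) (hξη y) (hξu y)
        (hτu y) m
      have h3 : (-lin g y * η) ^ n = -(lin g y * η) ^ n := by
        rw [neg_mul, Odd.neg_pow ⟨m, hn⟩]
      show 0 < c * τ (lin θ y * (Ring.inverse ((0 : ℝ) • K - lin g y) * η) ^ n)
      rw [h1, h3, mul_neg, map_neg]
      simp only [ContinuousLinearMap.coe_coe] at h2
      rw [← hn] at h2
      have h5 : c = (2 * m + 2) * -τ (lin θ y * (lin g y * η) ^ n) := by rw [hc, ← h2]; ring
      have h6 : -τ (lin θ y * (lin g y * η) ^ n) ≠ 0 := by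
        intro h0; rw [h0, mul_zero] at h5; exact hc0 h5
      rw [h5, mul_assoc]
      exact mul_pos (by positivity) (mul_self_pos.mpr h6)
    exact hcont.eventually (lt_mem_nhds hval)
  obtain ⟨δ, hδ, hball⟩ := Metric.eventually_nhds_iff.mp hev
  refine flux (J := J) (fun j x => c * τ (θ j * (G x * η) ^ n))
    (fun j x => c * τ (θ j * Dpow (G x * η) (G x * g j * (G x * η)) n))
    (fun j => by fun_prop)
    (fun j => continuous_const.mul (τ.continuous.comp (continuous_const.mul
      (cont_Dpow (by fun_prop) (by fun_prop) n)))) ?_ ?_ ((1 / δ + 1) ^ 2) (by positivity) ?_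
  · intro j x
    obtain ⟨U, hU⟩ := hcon x
    have h1 : HasDerivAt (fun t : ℝ => K - lin g (x + t • (Pi.single j 1 : J → ℝ))) (-g j) 0 := by
      simp only [lin_line]
      have := (((hasDerivAt_id (0 : ℝ)).smul_const (g j)).const_add (lin g x)).const_sub K
      simpa using this
    have h2 : HasFDerivAt Ring.inverse
        (-ContinuousLinearMap.mulLeftRight ℝ B ↑U⁻¹ ↑U⁻¹)
        (K - lin g (x + (0 : ℝ) • (Pi.single j 1 : J → ℝ))) := by
      have := hasFDerivAt_ringInverse (𝕜 := ℝ) U
      simpa [hU] using this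
    have h3 := h2.comp_hasDerivAt (0 : ℝ) h1
    have hUG : (↑U⁻¹ : B) = G x := by
      show _ = Ring.inverse (K - lin g x)
      rw [← hU, Ring.inverse_unit]
    have h4 : HasDerivAt (fun t : ℝ => G (x + t • (Pi.single j 1 : J → ℝ)))
        (G x * g j * G x) 0 := by
      have h7 : (-ContinuousLinearMap.mulLeftRight ℝ B ↑U⁻¹ ↑U⁻¹) (-g j) = G x * g j * G x := by
        simp [hUG]
      rw [h7] at h3
      exact h3
    have h5 := hasDerivAt_pow_nc (h4.mul_const η) n
    have h6 := (τ.hasFDerivAt.comp_hasDerivAt (0 : ℝ) (h5.const_mul (θ j))).const_mul c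
    simp only [zero_smul, add_zero, mul_assoc] at h6
    simp only [mul_assoc]
    exact h6
  · intro x
    obtain ⟨e, he⟩ := sum_Dpow θ (fun j => G x * g j) (G x * η) (hα x) (hθα x) n
    rw [← Finset.mul_sum, ← map_sum, he, map_smul]
    have := tau_top (τ : B →ₗ[ℝ] ℝ) θ (fun j => G x * g j) (G x * η) (hα x) (hθα x)
      (fun j => by rw [← mul_assoc, hθG, mul_assoc, hθg, mul_assoc])
      (fun j X => by
        simp only [ContinuousLinearMap.coe_coe]
        rw [mul_assoc, hτG, mul_assoc, hτg, neg_neg, mul_assoc]) m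
    simp only [ContinuousLinearMap.coe_coe] at this
    rw [← hn] at this
    rw [this]; simp
  · intro x hx
    set r := Real.sqrt (∑ j, x j ^ 2) with hr
    have hr1 : 1 / δ + 1 ≤ r := Real.le_sqrt_of_sq_le hx
    have hδ' : 0 < 1 / δ := by positivity
    have hr0 : 0 < r := by linarith
    have hr2 : r ^ 2 = ∑ j, x j ^ 2 := Real.sq_sqrt (by positivity)
    have hy : ∑ j, ((r⁻¹ • x) j) ^ 2 = 1 := by
      simp only [Pi.smul_apply, smul_eq_mul, mul_pow]
      rw [← Finset.mul_sum, ← hr2]; field_simp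
    have hd : dist r⁻¹ 0 < δ := by
      rw [Real.dist_eq, sub_zero, abs_of_pos (by positivity), inv_lt_comm₀ hr0 hδ, ← one_div]
      linarith
    have h1 := hball hd _ hy
    have h2 : Ring.inverse (r⁻¹ • K - lin g (r⁻¹ • x)) = r • G x := by
      rw [lin_smul, ← smul_sub]
      apply inverse_eq
      · rw [smul_mul_assoc, mul_smul_comm, hG1, smul_smul, inv_mul_cancel₀ hr0.ne', one_smul]
      · rw [smul_mul_assoc, mul_smul_comm, hG2, smul_smul, mul_inv_cancel₀ hr0.ne', one_smul]
    have h3 : H r⁻¹ (r⁻¹ • x) = (r⁻¹ * r ^ n) * (c * τ (lin θ x * (G x * η) ^ n)) := by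
      show c * τ (lin θ (r⁻¹ • x) * (Ring.inverse (r⁻¹ • K - lin g (r⁻¹ • x)) * η) ^ n) = _
      rw [h2, lin_smul, smul_mul_assoc, smul_mul_assoc, smul_pow, mul_smul_comm, map_smul,
        map_smul, smul_eq_mul, smul_eq_mul]
      ring
    rw [h3] at h1
    have h4 := (pos_iff_pos_of_mul_pos h1).mp (by positivity)
    have h5 : ∑ j, x j * (c * τ (θ j * (G x * η) ^ n)) = c * τ (lin θ x * (G x * η) ^ n) := by
      rw [lin, Finset.sum_mul, map_sum, Finset.mul_sum _ _ c]
      exact Finset.sum_congr rfl fun j _ => by rw [smul_mul_assoc, map_smul, smul_eq_mul]; ring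
    rw [h5]; exact h4

end Pool.Agent.H21.Cliff
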