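import Mathlib
import Pool.Agent.H21.Cliff3

set_option autoImplicit false

open Matrix
open scoped Kronecker

namespace Pool.Agent.H21.Cliff

section ring
variable {R : Type} [Ring R] [Algebra ℂ R] {J : Type}

lemma anti_list (a : R) (g : J → R) (l : List J) (h : ∀ k ∈ l, a * g k = -(g k * a)) :
    a * (l.map g).prod = (-1 : ℂ) ^ l.length • ((l.map g).prod * a) := by
  induction l with
  | nil => simp
  | cons b l ih =>
    rw [List.map_cons, List.prod_cons, ← mul_assoc, h b (by simp), neg_mul, mul_assoc,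
      ih fun k hk => h k (by simp [hk]), List.length_cons, pow_succ, mul_smul, mul_smul_comm]
    simp [mul_assoc]

lemma anti_list_mem (g : J → R) (hg2 : ∀ j k, j ≠ k → g j * g k = -(g k * g j)) (j : J)
    (l : List J) (hl : l.Nodup) (hj : j ∈ l) :
    g j * (l.map g).prod = -((-1 : ℂ) ^ l.length • ((l.map g).prod * g j)) := by
  induction l with
  | nil => simp at hj
  | cons b l ih =>
    rw [List.nodup_cons] at hl
    by_cases hb : j = b
    · subst hb
      have := anti_list (g j) g l fun k hk => hg2 j k (by rintro rfl; exact hl.1 hk)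
      rw [List.map_cons, List.prod_cons, List.length_cons, pow_succ, mul_smul]
      nth_rewrite 1 [this]
      simp [mul_assoc]
    · have hj' : j ∈ l := by simpa [hb] using hj
      rw [List.map_cons, List.prod_cons, ← mul_assoc, hg2 j b hb, neg_mul, mul_assoc,
        ih hl.2 hj', List.length_cons, pow_succ, mul_smul]
      simp [mul_assoc]

lemma sq_list (g : J → R) (hg1 : ∀ j, g j * g j = 1)
    (hg2 : ∀ j k, j ≠ k → g j * g k = -(g k * g j)) (l : List J) (hl : l.Nodup) :
    ∃ s : ℂ, (s = 1 ∨ s = -1) ∧ (l.map g).prod * (l.map g).prod = s • (1 : R) := by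
  induction l with
  | nil => exact ⟨1, Or.inl rfl, by simp⟩
  | cons b l ih =>
    rw [List.nodup_cons] at hl
    obtain ⟨s, hs, h⟩ := ih hl.2
    have h1 := anti_list (g b) g l fun k hk => hg2 b k (by rintro rfl; exact hl.1 hk)
    refine ⟨(-1) ^ l.length * s, ?_, ?_⟩
    · rcases neg_one_pow_eq_or ℂ l.length with h2 | h2 <;> rcases hs with h3 | h3 <;>
        simp [h2, h3]
    · rw [List.map_cons, List.prod_cons]
      nth_rewrite 1 [h1]
      rw [smul_mul_assoc, mul_assoc, ← mul_assoc (g b), hg1, one_mul, h, mul_smul]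

lemma prod_ne_zero_list [Nontrivial R] (t t' : J → R)
    (h1 : ∀ j, t' j * t j + t j * t' j = (4 : ℂ) • (1 : R))
    (h2 : ∀ j k, j ≠ k → t' j * t k = -(t k * t' j)) (l : List J) (hl : l.Nodup) :
    (l.map t).prod ≠ 0 := by
  induction l with
  | nil => simp
  | cons b l ih =>
    rw [List.nodup_cons] at hl
    intro h0
    rw [List.map_cons, List.prod_cons] at h0
    apply ih hl.2
    have h3 := anti_list (t' b) t l fun k hk => h2 b k (by rintro rfl; exact hl.1 hk)
    have h4 : (t' b * t b + t b * t' b) * (l.map t).prod = 0 := by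
      rw [add_mul, mul_assoc, h0, mul_assoc, h3, mul_smul_comm, ← mul_assoc, h0]; simp
    rw [h1, smul_mul_assoc, one_mul] at h4
    exact (smul_eq_zero.mp h4).resolve_left (by norm_num)

lemma add_pow_nil (c S : R) (h : Commute c S) (hc : c * c = 0) (k : ℕ) :
    (c + S) ^ (k + 1) = S ^ (k + 1) + ((k + 1 : ℕ) : ℂ) • (c * S ^ k) := by
  induction k with
  | zero => simp [add_comm]
  | succ k ih =>
    have e1 : S ^ (k + 1) * c = c * S ^ (k + 1) := (h.pow_right _).eq.symm
    have e2 : c * S ^ k * c = 0 := by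
      rw [mul_assoc, ← (h.pow_right k).eq, ← mul_assoc, hc, zero_mul]
    rw [pow_succ, ih, add_mul, mul_add, mul_add, smul_mul_assoc, smul_mul_assoc, e1, e2,
      ← pow_succ, mul_assoc, ← pow_succ]
    push_cast
    rw [add_smul ((k : ℂ) + 1) 1]
    simp only [smul_zero, one_smul, zero_add]
    abel

lemma sum_pow_nil (c : J → R) (h : ∀ j k, Commute (c j) (c k)) (hc : ∀ j, c j * c j = 0)
    (l : List J) :
    (l.map c).sum ^ l.length = (l.length.factorial : ℂ) • (l.map c).prod ∧
      (l.map c).sum ^ (l.length + 1) = 0 := by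
  induction l with
  | nil => simp
  | cons b l ih =>
    have hcm : Commute (c b) (l.map c).sum := by
      apply Commute.list_sum_right
      intro x hx
      obtain ⟨k, -, rfl⟩ := List.mem_map.mp hx
      exact h b k
    rw [List.map_cons, List.sum_cons, List.prod_cons, List.length_cons]
    constructor
    · rw [add_pow_nil _ _ hcm (hc b), ih.2, ih.1, zero_add, mul_smul_comm, smul_smul,
        Nat.factorial_succ, Nat.cast_mul]
    · rw [add_pow_nil _ _ hcm (hc b), pow_succ _ (l.length + 1), ih.2]; simp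

end ring

lemma kron_list {κ ι J : Type} [Fintype κ] [DecidableEq κ] [Fintype ι] [DecidableEq ι]
    (t : J → Matrix κ κ ℂ) (g : J → Matrix ι ι ℂ) (l : List J) :
    (l.map fun j => t j ⊗ₖ g j).prod = (l.map t).prod ⊗ₖ (l.map g).prod := by
  induction l with
  | nil => simp
  | cons b l ih => simp only [List.map_cons, List.prod_cons, ih, mul_kronecker_mul]

lemma kron_neg_right {κ ι : Type} (a : Matrix κ κ ℂ) (b : Matrix ι ι ℂ) :
    a ⊗ₖ (-b) = -(a ⊗ₖ b) := by
  ext i j; simp

lemma kron_neg_left {κ ι : Type} (a : Matrix κ κ ℂ) (b : Matrix ι ι ℂ) :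
    (-a) ⊗ₖ b = -(a ⊗ₖ b) := by
  ext i j; simp

lemma exists_grassmann {ι J : Type} [Fintype ι] [DecidableEq ι] [Nonempty ι] [DecidableEq J]
    (g : J → Matrix ι ι ℂ) (Γ : Matrix ι ι ℂ) (s : ℂ) (hs : s = 1 ∨ s = -1)
    (hΓ : Γ * Γ = s • (1 : Matrix ι ι ℂ)) (hΓg : ∀ j, g j * Γ = -(Γ * g j))
    (hg1 : ∀ j, g j * g j = 1) (hg2 : ∀ j k, j ≠ k → g j * g k = -(g k * g j))
    (l : List J) (hl : l.Nodup) :
    ∃ t : J → Matrix (ι × ι) (ι × ι) ℂ, (∀ j k, t j * t k = -(t k * t j)) ∧
      (l.map t).prod ≠ 0 := by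
  obtain ⟨z, hz⟩ : ∃ z : ℂ, z * z * s = -1 := by
    rcases hs with h | h
    · exact ⟨Complex.I, by rw [h]; simp⟩
    · exact ⟨1, by rw [h]; simp⟩
  set p : J → Matrix (ι × ι) (ι × ι) ℂ := fun j => g j ⊗ₖ (1 : Matrix ι ι ℂ) with hp
  set q : J → Matrix (ι × ι) (ι × ι) ℂ := fun j => z • (Γ ⊗ₖ g j) with hq
  have pp1 : ∀ j, p j * p j = 1 := fun j => by
    simp only [hp]; rw [← mul_kronecker_mul, hg1]; simp
  have pp2 : ∀ j k, j ≠ k → p j * p k = -(p k * p j) := fun j k h => by
    simp only [hp]; rw [← mul_kronecker_mul, ← mul_kronecker_mul, hg2 j k h, kron_neg_left]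
  have qq1 : ∀ j, q j * q j = -1 := fun j => by
    simp only [hq]
    rw [smul_mul_smul_comm, ← mul_kronecker_mul, hg1, hΓ, smul_kronecker, smul_smul, hz]; simp
  have qq2 : ∀ j k, j ≠ k → q j * q k = -(q k * q j) := fun j k h => by
    simp only [hq]
    rw [smul_mul_smul_comm, smul_mul_smul_comm, ← mul_kronecker_mul, ← mul_kronecker_mul,
      hg2 j k h, kron_neg_right, smul_neg]
  have pq : ∀ j k, p j * q k = -(q k * p j) := fun j k => by
    simp only [hp, hq]
    rw [mul_smul_comm, smul_mul_assoc, ← mul_kronecker_mul, ← mul_kronecker_mul, hΓg,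
      kron_neg_left, smul_neg, Matrix.one_mul, Matrix.mul_one]
  refine ⟨fun j => p j + q j, ?_, ?_⟩
  · intro j k
    by_cases h : j = k
    · subst h
      simp only [add_mul, mul_add, pp1, qq1, pq]; abel
    · simp only [add_mul, mul_add]
      rw [pp2 j k h, qq2 j k h, pq j k, pq k j]; abel
  · apply prod_ne_zero_list _ (fun j => p j - q j) _ _ l hl
    · intro j
      simp only [add_mul, mul_add, sub_mul, mul_sub, pp1, qq1, pq]
      rw [show (4 : ℂ) = 1 + 1 + 1 + 1 by norm_num]
      simp only [add_smul, one_smul]; abel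
    · intro j k h
      simp only [add_mul, mul_add, sub_mul, mul_sub]
      rw [pp2 j k h, qq2 j k h, pq j k, pq k j]; abel

end Pool.Agent.H21.Cliff
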