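import Mathlib
import Pool.Agent.H21.Cliff4

set_option autoImplicit false

open Matrix
open scoped Kronecker ComplexOrder

namespace Pool.Agent.H21.Cliff

lemma kron_sum_right {κ ι J : Type} [Fintype J] (a : Matrix κ κ ℂ) (b : J → Matrix ι ι ℂ) :
    a ⊗ₖ (∑ j, b j) = ∑ j, a ⊗ₖ b j := by
  ext i j; simp [Matrix.sum_apply, Finset.mul_sum]

lemma kron_sum_left {κ ι J : Type} [Fintype J] (a : J → Matrix κ κ ℂ) (b : Matrix ι ι ℂ) :
    (∑ j, a j) ⊗ₖ b = ∑ j, a j ⊗ₖ b := by
  ext i j; simp [Matrix.sum_apply, Finset.sum_mul]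

open scoped Matrix.Norms.Operator in
theorem core_mat {κ J : Type} [Fintype κ] [DecidableEq κ] [Fintype J] [DecidableEq J]
    (W K : Matrix κ κ ℂ) (g θ : J → Matrix κ κ ℂ)
    (hg1 : ∀ j, g j * g j = 1) (hg2 : ∀ j k, j ≠ k → g j * g k = -(g k * g j))
    (hθ : ∀ j k, θ j * θ k = -(θ k * θ j)) (hθg : ∀ j k, θ j * g k = g k * θ j)
    (hθK : ∀ j, θ j * K = K * θ j)
    (hWg : ∀ j, W * g j = -(g j * W)) (hWK : W * K = -(K * W)) (m : ℕ)
    (hne : (trace (W * (∑ j, θ j * g j) ^ (2 * m + 1 + 1))).re ≠ 0) :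
    ∃ x : J → ℝ, ¬ IsUnit (K - ∑ j, x j • g j) := by
  let τ0 : Matrix κ κ ℂ →ₗ[ℝ] ℝ :=
    { toFun := fun X => (trace (W * X)).re
      map_add' := fun X Y => by simp [mul_add, trace_add]
      map_smul' := fun r X => by simp [trace_smul] }
  haveI : CompleteSpace (Matrix κ κ ℂ) := FiniteDimensional.complete ℝ _
  have hτ : ∀ a : Matrix κ κ ℂ, W * a = -(a * W) → ∀ X, τ0 (a * X) = -τ0 (X * a) := by
    intro a ha X
    show (trace (W * (a * X))).re = -(trace (W * (X * a))).re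
    rw [← Matrix.mul_assoc, ha, ← Matrix.mul_assoc, trace_mul_comm (W * X) a, Matrix.neg_mul,
      trace_neg, Matrix.mul_assoc]
    simp
  exact core (LinearMap.toContinuousLinearMap τ0) g θ K hg1 hg2 hθ hθg hθK
    (fun j X => hτ _ (hWg j) X) (fun X => hτ _ hWK X) m hne

theorem even_case {ι J : Type} [Fintype ι] [DecidableEq ι] [Nonempty ι] [Fintype J]
    [DecidableEq J] (g a : J → Matrix ι ι ℂ)
    (hg1 : ∀ j, g j * g j = 1) (hg2 : ∀ j k, j ≠ k → g j * g k = -(g k * g j))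
    (hag : ∀ j k, a j * g k = g k * a j) (m : ℕ) (hc : Fintype.card J = 2 * m + 1 + 1) :
    ∃ x : J → ℝ, det (∑ j, a j * g j - ∑ j, x j • g j) = 0 := by
  set l : List J := (Finset.univ : Finset J).toList with hl
  have hnd : l.Nodup := Finset.nodup_toList _
  have hlen : l.length = 2 * m + 1 + 1 := by rw [hl, Finset.length_toList, Finset.card_univ, hc]
  set Γ := (l.map g).prod with hΓ
  have hΓg : ∀ j, g j * Γ = -(Γ * g j) := by
    intro j
    rw [hΓ, anti_list_mem g hg2 j l hnd (by simp [hl]), hlen,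
      show 2 * m + 1 + 1 = 2 * (m + 1) by ring, pow_mul]
    simp
  have hΓa : ∀ j, a j * Γ = Γ * a j := by
    intro j
    apply Commute.list_prod_right
    intro x hx
    obtain ⟨k, -, rfl⟩ := List.mem_map.mp hx
    exact hag j k
  obtain ⟨s, hs, hΓ2⟩ := sq_list g hg1 hg2 l hnd
  rw [← hΓ] at hΓ2
  obtain ⟨t, ht1, ht2⟩ := exists_grassmann g Γ s hs hΓ2 hΓg hg1 hg2 l hnd
  obtain ⟨p, q, hpq⟩ : ∃ p q, (l.map t).prod p q ≠ 0 := by
    by_contra h
    push Not at h
    exact ht2 (Matrix.ext h)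
  set K := ∑ j, a j * g j with hK
  have hΓK : Γ * K = -(K * Γ) := by
    rw [hK, Finset.mul_sum, Finset.sum_mul, ← Finset.sum_neg_distrib]
    refine Finset.sum_congr rfl fun j _ => ?_
    rw [← mul_assoc, ← hΓa, mul_assoc, mul_assoc, hΓg]; simp
  obtain ⟨x, hx⟩ := core_mat (single q p ((l.map t).prod p q)⁻¹ ⊗ₖ Γ)
    ((1 : Matrix (ι × ι) (ι × ι) ℂ) ⊗ₖ K) (fun j => (1 : Matrix (ι × ι) (ι × ι) ℂ) ⊗ₖ g j)
    (fun j => t j ⊗ₖ (1 : Matrix ι ι ℂ))
    (fun j => by rw [← mul_kronecker_mul, hg1]; simp)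
    (fun j k h => by rw [← mul_kronecker_mul, ← mul_kronecker_mul, hg2 j k h, kron_neg_right])
    (fun j k => by rw [← mul_kronecker_mul, ← mul_kronecker_mul, ht1 j k, kron_neg_left])
    (fun j k => by rw [← mul_kronecker_mul, ← mul_kronecker_mul]; simp)
    (fun j => by rw [← mul_kronecker_mul, ← mul_kronecker_mul]; simp)
    (fun j => by
      rw [← mul_kronecker_mul, ← mul_kronecker_mul, hΓg, kron_neg_right]; simp)
    (by rw [← mul_kronecker_mul, ← mul_kronecker_mul, hΓK, kron_neg_right]; simp) m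
    (by
      have e1 : ∀ j, t j ⊗ₖ (1 : Matrix ι ι ℂ) * (1 : Matrix (ι × ι) (ι × ι) ℂ) ⊗ₖ g j =
          t j ⊗ₖ g j := fun j => by rw [← mul_kronecker_mul]; simp
      simp only [e1]
      have htt : ∀ j, t j * t j = 0 := by
        intro j
        have h1 := ht1 j j
        have h2 : (2 : ℂ) • (t j * t j) = 0 := by
          rw [two_smul]; nth_rewrite 1 [h1]; simp
        exact (smul_eq_zero.mp h2).resolve_left two_ne_zero
      have h3 := (sum_pow_nil (fun j => t j ⊗ₖ g j)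
        (fun j k => by
          show t j ⊗ₖ g j * t k ⊗ₖ g k = t k ⊗ₖ g k * t j ⊗ₖ g j
          by_cases h : j = k
          · rw [h]
          · rw [← mul_kronecker_mul, ← mul_kronecker_mul, ht1 j k, hg2 j k h, kron_neg_left,
              kron_neg_right, neg_neg])
        (fun j => by rw [← mul_kronecker_mul, htt]; simp) l).1
      rw [hl, Finset.sum_map_toList, ← hl, hlen, kron_list, ← hΓ] at h3
      rw [h3, Matrix.mul_smul, ← mul_kronecker_mul, trace_smul, trace_kronecker, trace_single_mul,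
        hΓ2, trace_smul, trace_one, smul_eq_mul, smul_eq_mul, smul_eq_mul, inv_mul_cancel₀ hpq,
        one_mul]
      have hf : ((2 * m + 1 + 1).factorial : ℝ) ≠ 0 := by positivity
      have hι : (Fintype.card ι : ℝ) ≠ 0 := by positivity
      rcases hs with h | h <;> simp [h, Nat.factorial_ne_zero])
  refine ⟨x, ?_⟩
  by_contra hdet
  apply hx
  have e : (1 : Matrix (ι × ι) (ι × ι) ℂ) ⊗ₖ K - ∑ j, x j • ((1 : Matrix (ι × ι) (ι × ι) ℂ) ⊗ₖ g j)
      = (1 : Matrix (ι × ι) (ι × ι) ℂ) ⊗ₖ (K - ∑ j, x j • g j) := by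
    rw [sub_eq_add_neg K, kronecker_add, kron_neg_right,
      kron_sum_right _ (fun j => x j • g j), sub_eq_add_neg]
    have e0 : ∀ j, (1 : Matrix (ι × ι) (ι × ι) ℂ) ⊗ₖ (x j • g j) =
        x j • ((1 : Matrix (ι × ι) (ι × ι) ℂ) ⊗ₖ g j) := fun j => kronecker_smul (x j) _ (g j)
    simp only [e0]
  rw [e, Matrix.isUnit_iff_isUnit_det, det_kronecker, isUnit_iff_ne_zero]
  simp [hdet]

theorem odd_case {ι J : Type} [Fintype ι] [DecidableEq ι] [Nonempty ι] [Fintype J]
    [DecidableEq J] (g a : J → Matrix ι ι ℂ)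
    (hg1 : ∀ j, g j * g j = 1) (hg2 : ∀ j k, j ≠ k → g j * g k = -(g k * g j))
    (hag : ∀ j k, a j * g k = g k * a j)
    (hH : ∀ x : J → ℝ, (∑ j, a j * g j - ∑ j, x j • g j).IsHermitian)
    (m : ℕ) (hc : Fintype.card J = 2 * m + 1) :
    ∃ x : J → ℝ, det (∑ j, a j * g j - ∑ j, x j • g j) = 0 := by
  set X : Matrix (Fin 2) (Fin 2) ℂ := !![0, 1; 1, 0] with hX
  set Z : Matrix (Fin 2) (Fin 2) ℂ := !![1, 0; 0, -1] with hZ
  have hXX : X * X = 1 := by
    rw [hX]; ext i j; fin_cases i <;> fin_cases j <;> simp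
  have hZZ : Z * Z = 1 := by
    rw [hZ]; ext i j; fin_cases i <;> fin_cases j <;> simp
  have hXZ : X * Z = -(Z * X) := by
    rw [hX, hZ]; ext i j; fin_cases i <;> fin_cases j <;> simp
  obtain ⟨y, hy⟩ := even_case (J := Option J)
    (fun o => o.elim ((1 : Matrix ι ι ℂ) ⊗ₖ Z) fun j => g j ⊗ₖ X)
    (fun o => o.elim 0 fun j => a j ⊗ₖ (1 : Matrix (Fin 2) (Fin 2) ℂ))
    (by
      rintro (_ | j)
      · simp only [Option.elim]; rw [← mul_kronecker_mul, hZZ]; simp
      · simp only [Option.elim]; rw [← mul_kronecker_mul, hXX, hg1]; simp)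
    (by
      rintro (_ | j) (_ | k) h
      · exact absurd rfl h
      · simp only [Option.elim]
        rw [← mul_kronecker_mul, ← mul_kronecker_mul, hXZ, kron_neg_right]; simp
      · simp only [Option.elim]
        rw [← mul_kronecker_mul, ← mul_kronecker_mul, hXZ, kron_neg_right]; simp
      · simp only [Option.elim]
        rw [← mul_kronecker_mul, ← mul_kronecker_mul, hg2 j k (fun e => h (by rw [e])),
          kron_neg_left])
    (by
      rintro (_ | j) (_ | k)
      · simp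
      · simp
      · simp only [Option.elim]; rw [← mul_kronecker_mul, ← mul_kronecker_mul]; simp
      · simp only [Option.elim]; rw [← mul_kronecker_mul, ← mul_kronecker_mul, hag]; simp)
    m (by rw [Fintype.card_option, hc])
  refine ⟨fun j => y (some j), ?_⟩
  by_contra hdet
  set L := ∑ j, a j * g j - ∑ j, y (some j) • g j with hL
  have hLH : L.IsHermitian := hH _
  set t := y none with ht
  have e : (∑ o : Option J, (o.elim 0 fun j => a j ⊗ₖ (1 : Matrix (Fin 2) (Fin 2) ℂ)) *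
        (o.elim ((1 : Matrix ι ι ℂ) ⊗ₖ Z) fun j => g j ⊗ₖ X) -
      ∑ o : Option J, y o • (o.elim ((1 : Matrix ι ι ℂ) ⊗ₖ Z) fun j => g j ⊗ₖ X)) =
      L ⊗ₖ X - t • ((1 : Matrix ι ι ℂ) ⊗ₖ Z) := by
    rw [Fintype.sum_option, Fintype.sum_option]
    simp only [Option.elim, zero_mul, zero_add, ← mul_kronecker_mul, Matrix.one_mul]
    rw [hL, sub_eq_add_neg (∑ j, a j * g j), add_kronecker, kron_neg_left, kron_sum_left,
      kron_sum_left]
    simp only [smul_kronecker]
    abel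
  rw [e] at hy
  have e2 : (L ⊗ₖ X - t • ((1 : Matrix ι ι ℂ) ⊗ₖ Z)) * (L ⊗ₖ X - t • ((1 : Matrix ι ι ℂ) ⊗ₖ Z)) =
      (L * L + (t * t) • (1 : Matrix ι ι ℂ)) ⊗ₖ (1 : Matrix (Fin 2) (Fin 2) ℂ) := by
    rw [sub_mul, mul_sub, mul_sub, smul_mul_smul_comm, mul_smul_comm, smul_mul_assoc]
    simp only [← mul_kronecker_mul]
    rw [hXX, hZZ, hXZ, kron_neg_right, add_kronecker, smul_kronecker]
    simp only [Matrix.one_mul, Matrix.mul_one, smul_neg]
    abel
  have hpd : (L * L + (t * t) • (1 : Matrix ι ι ℂ)).PosDef := by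
    apply Matrix.PosDef.add_posSemidef
    · have h1 : Function.Injective L.mulVec :=
        Matrix.mulVec_injective_iff_isUnit.mpr
          ((Matrix.isUnit_iff_isUnit_det _).mpr (isUnit_iff_ne_zero.mpr hdet))
      have := Matrix.PosDef.conjTranspose_mul_self L h1
      rwa [hLH.eq] at this
    · exact Matrix.PosSemidef.one.smul (mul_self_nonneg t)
  have h3 := congrArg det e2
  rw [det_mul, hy, det_kronecker] at h3
  have h4 := hpd.det_pos.ne'
  rw [det_one, one_pow, mul_one, zero_mul] at h3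
  exact pow_ne_zero _ h4 h3.symm

end Pool.Agent.H21.Cliff
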