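import Mathlib

set_option autoImplicit false

open Complex

namespace Pool.Agent.H21.CliffCirc

lemma chain (e1 e2 a b w u d1a d1b u1a u1b d2a d2b u2a u2b : ℂ)
    (h0 : e1 * d1a + w * u1a = 0) (h1 : e2 * d1b + w * u1b = 0)
    (h2 : -u * d1a + e1 * u1a + a * d2a + b * d2b = 0)
    (h3 : -u * d1b + e2 * u1b + b * d2a + a * d2b = 0)
    (h4 : a * u1a + b * u1b - e1 * d2a - w * u2a = 0)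
    (h5 : b * u1a + a * u1b - e2 * d2b - w * u2b = 0)
    (h6 : -u * d2a + e1 * u2a = 0) (h7 : -u * d2b + e2 * u2b = 0)
    (hD : ((e1 * e1 + w * u) * (e2 * e2 + w * u) + (b * b - a * a) * e1 * e2) ^ 2 +
      (a * (e1 + e2) * (e1 * e2 + w * u)) ^ 2 ≠ 0) :
    d1a = 0 ∧ d1b = 0 ∧ u1a = 0 ∧ u1b = 0 ∧ d2a = 0 ∧ d2b = 0 ∧ u2a = 0 ∧ u2b = 0 := by
  refine ⟨?_, ?_, ?_, ?_, ?_, ?_, ?_, ?_⟩ <;> apply mul_left_cancel₀ hD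
  · linear_combination ((-2)*a^2*b^2*e1*e2^2 + 3*a^2*e1*e2^2*u*w + a^2*e1*e2^4 + a^2*e1*u^2*w^2 + a^2*e1^3*e2^2 + a^4*e1*e2^2 + 2*b^2*e1^2*e2*u*w + 2*b^2*e1^2*e2^3 + b^2*e2*u^2*w^2 + b^2*e2^3*u*w + b^4*e1*e2^2 + 2*e1*e2^2*u^2*w^2 + e1*e2^4*u*w + e1*u^3*w^3 + 2*e1^3*e2^2*u*w + e1^3*e2^4 + e1^3*u^2*w^2)*h0 + (a*b*e1*e2^2*u*w + a*b*e1*u^2*w^2 + a*b*e1^2*e2*u*w + a*b*e2*u^2*w^2)*h1 + ((-1)*a^2*e1^2*e2^2*w + (-1)*a^2*e2^2*u*w^2 + (-1)*b^2*e1*e2*u*w^2 + (-1)*b^2*e1*e2^3*w + (-2)*e1^2*e2^2*u*w^2 + (-1)*e1^2*e2^4*w + (-1)*e1^2*u^2*w^3 + (-2)*e2^2*u^2*w^3 + (-1)*e2^4*u*w^2 + (-1)*u^3*w^4)*h2 + (a*b*e1*e2*u*w^2 + a*b*e1*e2^3*w + a*b*e1^2*e2^2*w + a*b*e2^2*u*w^2)*h3 + (a*b^2*e1*e2^2*w + (-2)*a*e1*e2^2*u*w^2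 + (-1)*a*e1*e2^4*w + (-1)*a*e1*u^2*w^3 + (-1)*a^3*e1*e2^2*w)*h4 + (a^2*b*e1*e2^2*w + (-1)*b*e1^2*e2*u*w^2 + (-1)*b*e1^2*e2^3*w + (-1)*b*e2*u^2*w^3 + (-1)*b*e2^3*u*w^2 + (-1)*b^3*e1*e2^2*w)*h5 + (a*b^2*e2^2*w^2 + (-2)*a*e2^2*u*w^3 + (-1)*a*e2^4*w^2 + (-1)*a*u^2*w^4 + (-1)*a^3*e2^2*w^2)*h6 + (a^2*b*e1*e2*w^2 + (-1)*b*e1^2*e2^2*w^2 + (-1)*b*e1^2*u*w^3 + (-1)*b*e2^2*u*w^3 + (-1)*b*u^2*w^4 + (-1)*b^3*e1*e2*w^2)*h7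
  · linear_combination (a*b*e1*e2^2*u*w + a*b*e1*u^2*w^2 + a*b*e1^2*e2*u*w + a*b*e2*u^2*w^2)*h0 + ((-2)*a^2*b^2*e1^2*e2 + 3*a^2*e1^2*e2*u*w + a^2*e1^2*e2^3 + a^2*e1^4*e2 + a^2*e2*u^2*w^2 + a^4*e1^2*e2 + 2*b^2*e1*e2^2*u*w + b^2*e1*u^2*w^2 + 2*b^2*e1^3*e2^2 + b^2*e1^3*u*w + b^4*e1^2*e2 + 2*e1^2*e2*u^2*w^2 + 2*e1^2*e2^3*u*w + e1^4*e2*u*w + e1^4*e2^3 + e2*u^3*w^3 + e2^3*u^2*w^2)*h1 + (a*b*e1*e2*u*w^2 + a*b*e1^2*e2^2*w + a*b*e1^2*u*w^2 + a*b*e1^3*e2*w)*h2 + ((-1)*a^2*e1^2*e2^2*w + (-1)*a^2*e1^2*u*w^2 + (-1)*b^2*e1*e2*u*w^2 + (-1)*b^2*e1^3*e2*w + (-2)*e1^2*e2^2*u*w^2 + (-2)*e1^2*u^2*w^3 + (-1)*e1^4*e2^2*w + (-1)*e1^4*u*w^2 + (-1)*e2^2*u^2*w^3 + (-1)*u^3*w^4)*h3 + (a^2*b*e1^2*e2*w + (-1)*b*e1*e2^2*u*w^2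 + (-1)*b*e1*u^2*w^3 + (-1)*b*e1^3*e2^2*w + (-1)*b*e1^3*u*w^2 + (-1)*b^3*e1^2*e2*w)*h4 + (a*b^2*e1^2*e2*w + (-2)*a*e1^2*e2*u*w^2 + (-1)*a*e1^4*e2*w + (-1)*a*e2*u^2*w^3 + (-1)*a^3*e1^2*e2*w)*h5 + (a^2*b*e1*e2*w^2 + (-1)*b*e1^2*e2^2*w^2 + (-1)*b*e1^2*u*w^3 + (-1)*b*e2^2*u*w^3 + (-1)*b*u^2*w^4 + (-1)*b^3*e1*e2*w^2)*h6 + (a*b^2*e1^2*w^2 + (-2)*a*e1^2*u*w^3 + (-1)*a*e1^4*w^2 + (-1)*a*u^2*w^4 + (-1)*a^3*e1^2*w^2)*h7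
  · linear_combination (a^2*e1^2*e2^2*u + a^2*e2^2*u^2*w + b^2*e1*e2*u^2*w + b^2*e1*e2^3*u + 2*e1^2*e2^2*u^2*w + e1^2*e2^4*u + e1^2*u^3*w^2 + 2*e2^2*u^3*w^2 + e2^4*u^2*w + u^4*w^3)*h0 + ((-1)*a*b*e1*e2*u^2*w + (-1)*a*b*e1^2*e2^2*u + (-1)*a*b*e1^2*u^2*w + (-1)*a*b*e1^3*e2*u)*h1 + (a^2*e1*e2^2*u*w + a^2*e1^3*e2^2 + b^2*e1^2*e2*u*w + b^2*e1^2*e2^3 + 2*e1*e2^2*u^2*w^2 + e1*e2^4*u*w + e1*u^3*w^3 + 2*e1^3*e2^2*u*w + e1^3*e2^4 + e1^3*u^2*w^2)*h2 + ((-1)*a*b*e1*e2^2*u*w + (-1)*a*b*e1^2*e2*u*w + (-1)*a*b*e1^2*e2^3 + (-1)*a*b*e1^3*e2^2)*h3 + ((-1)*a*b^2*e1^2*e2^2 + 2*a*e1^2*e2^2*u*w + a*e1^2*e2^4 + a*e1^2*u^2*w^2 + a^3*e1^2*e2^2)*h4 + ((-1)*a^2*b*e1^2*e2^2 + b*e1*e2*u^2*w^2 + b*e1*e2^3*u*w + b*e1^3*e2*u*w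 + b*e1^3*e2^3 + b^3*e1^2*e2^2)*h5 + ((-1)*a*b^2*e1*e2^2*w + 2*a*e1*e2^2*u*w^2 + a*e1*e2^4*w + a*e1*u^2*w^3 + a^3*e1*e2^2*w)*h6 + ((-1)*a^2*b*e1^2*e2*w + b*e1*e2^2*u*w^2 + b*e1*u^2*w^3 + b*e1^3*e2^2*w + b*e1^3*u*w^2 + b^3*e1^2*e2*w)*h7
  · linear_combination ((-1)*a*b*e1*e2*u^2*w + (-1)*a*b*e1*e2^3*u + (-1)*a*b*e1^2*e2^2*u + (-1)*a*b*e2^2*u^2*w)*h0 + (a^2*e1^2*e2^2*u + a^2*e1^2*u^2*w + b^2*e1*e2*u^2*w + b^2*e1^3*e2*u + 2*e1^2*e2^2*u^2*w + 2*e1^2*u^3*w^2 + e1^4*e2^2*u + e1^4*u^2*w + e2^2*u^3*w^2 + u^4*w^3)*h1 + ((-1)*a*b*e1*e2^2*u*w + (-1)*a*b*e1^2*e2*u*w + (-1)*a*b*e1^2*e2^3 + (-1)*a*b*e1^3*e2^2)*h2 + (a^2*e1^2*e2*u*w + a^2*e1^2*e2^3 + b^2*e1*e2^2*u*w + b^2*e1^3*e2^2 + 2*e1^2*e2*u^2*w^2 + 2*e1^2*e2^3*u*w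 + e1^4*e2*u*w + e1^4*e2^3 + e2*u^3*w^3 + e2^3*u^2*w^2)*h3 + ((-1)*a^2*b*e1^2*e2^2 + b*e1*e2*u^2*w^2 + b*e1*e2^3*u*w + b*e1^3*e2*u*w + b*e1^3*e2^3 + b^3*e1^2*e2^2)*h4 + ((-1)*a*b^2*e1^2*e2^2 + 2*a*e1^2*e2^2*u*w + a*e1^4*e2^2 + a*e2^2*u^2*w^2 + a^3*e1^2*e2^2)*h5 + ((-1)*a^2*b*e1*e2^2*w + b*e1^2*e2*u*w^2 + b*e1^2*e2^3*w + b*e2*u^2*w^3 + b*e2^3*u*w^2 + b^3*e1*e2^2*w)*h6 + ((-1)*a*b^2*e1^2*e2*w + 2*a*e1^2*e2*u*w^2 + a*e1^4*e2*w + a*e2*u^2*w^3 + a^3*e1^2*e2*w)*h7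
  · linear_combination ((-1)*a*b^2*e1*e2^2*u + 2*a*e1*e2^2*u^2*w + a*e1*e2^4*u + a*e1*u^3*w^2 + a^3*e1*e2^2*u)*h0 + ((-1)*a^2*b*e1^2*e2*u + b*e1*e2^2*u^2*w + b*e1*u^3*w^2 + b*e1^3*e2^2*u + b*e1^3*u^2*w + b^3*e1^2*e2*u)*h1 + ((-1)*a*b^2*e1^2*e2^2 + 2*a*e1^2*e2^2*u*w + a*e1^2*e2^4 + a*e1^2*u^2*w^2 + a^3*e1^2*e2^2)*h2 + ((-1)*a^2*b*e1^2*e2^2 + b*e1*e2*u^2*w^2 + b*e1*e2^3*u*w + b*e1^3*e2*u*w + b*e1^3*e2^3 + b^3*e1^2*e2^2)*h3 + ((-1)*a^2*e1*e2^2*u*w + (-1)*a^2*e1^3*e2^2 + (-1)*b^2*e1^2*e2*u*w + (-1)*b^2*e1^2*e2^3 + (-2)*e1*e2^2*u^2*w^2 + (-1)*e1*e2^4*u*w + (-1)*e1*u^3*w^3 + (-2)*e1^3*e2^2*u*w + (-1)*e1^3*e2^4 + (-1)*e1^3*u^2*w^2)*h4 + (a*b*e1*e2^2*u*w + a*b*e1^2*e2*u*w + a*b*e1^2*e2^3 + a*b*e1^3*e2^2)*h5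 + ((-1)*a^2*e1^2*e2^2*w + (-1)*a^2*e2^2*u*w^2 + (-1)*b^2*e1*e2*u*w^2 + (-1)*b^2*e1*e2^3*w + (-2)*e1^2*e2^2*u*w^2 + (-1)*e1^2*e2^4*w + (-1)*e1^2*u^2*w^3 + (-2)*e2^2*u^2*w^3 + (-1)*e2^4*u*w^2 + (-1)*u^3*w^4)*h6 + (a*b*e1*e2*u*w^2 + a*b*e1^2*e2^2*w + a*b*e1^2*u*w^2 + a*b*e1^3*e2*w)*h7
  · linear_combination ((-1)*a^2*b*e1*e2^2*u + b*e1^2*e2*u^2*w + b*e1^2*e2^3*u + b*e2*u^3*w^2 + b*e2^3*u^2*w + b^3*e1*e2^2*u)*h0 + ((-1)*a*b^2*e1^2*e2*u + 2*a*e1^2*e2*u^2*w + a*e1^4*e2*u + a*e2*u^3*w^2 + a^3*e1^2*e2*u)*h1 + ((-1)*a^2*b*e1^2*e2^2 + b*e1*e2*u^2*w^2 + b*e1*e2^3*u*w + b*e1^3*e2*u*w + b*e1^3*e2^3 + b^3*e1^2*e2^2)*h2 + ((-1)*a*b^2*e1^2*e2^2 + 2*a*e1^2*e2^2*u*w + a*e1^4*e2^2 + a*e2^2*u^2*w^2 + a^3*e1^2*e2^2)*h3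 + (a*b*e1*e2^2*u*w + a*b*e1^2*e2*u*w + a*b*e1^2*e2^3 + a*b*e1^3*e2^2)*h4 + ((-1)*a^2*e1^2*e2*u*w + (-1)*a^2*e1^2*e2^3 + (-1)*b^2*e1*e2^2*u*w + (-1)*b^2*e1^3*e2^2 + (-2)*e1^2*e2*u^2*w^2 + (-2)*e1^2*e2^3*u*w + (-1)*e1^4*e2*u*w + (-1)*e1^4*e2^3 + (-1)*e2*u^3*w^3 + (-1)*e2^3*u^2*w^2)*h5 + (a*b*e1*e2*u*w^2 + a*b*e1*e2^3*w + a*b*e1^2*e2^2*w + a*b*e2^2*u*w^2)*h6 + ((-1)*a^2*e1^2*e2^2*w + (-1)*a^2*e1^2*u*w^2 + (-1)*b^2*e1*e2*u*w^2 + (-1)*b^2*e1^3*e2*w + (-2)*e1^2*e2^2*u*w^2 + (-2)*e1^2*u^2*w^3 + (-1)*e1^4*e2^2*w + (-1)*e1^4*u*w^2 + (-1)*e2^2*u^2*w^3 + (-1)*u^3*w^4)*h7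
  · linear_combination ((-1)*a*b^2*e2^2*u^2 + 2*a*e2^2*u^3*w + a*e2^4*u^2 + a*u^4*w^2 + a^3*e2^2*u^2)*h0 + ((-1)*a^2*b*e1*e2*u^2 + b*e1^2*e2^2*u^2 + b*e1^2*u^3*w + b*e2^2*u^3*w + b*u^4*w^2 + b^3*e1*e2*u^2)*h1 + ((-1)*a*b^2*e1*e2^2*u + 2*a*e1*e2^2*u^2*w + a*e1*e2^4*u + a*e1*u^3*w^2 + a^3*e1*e2^2*u)*h2 + ((-1)*a^2*b*e1*e2^2*u + b*e1^2*e2*u^2*w + b*e1^2*e2^3*u + b*e2*u^3*w^2 + b*e2^3*u^2*w + b^3*e1*e2^2*u)*h3 + ((-1)*a^2*e1^2*e2^2*u + (-1)*a^2*e2^2*u^2*w + (-1)*b^2*e1*e2*u^2*w + (-1)*b^2*e1*e2^3*u + (-2)*e1^2*e2^2*u^2*w + (-1)*e1^2*e2^4*u + (-1)*e1^2*u^3*w^2 + (-2)*e2^2*u^3*w^2 + (-1)*e2^4*u^2*w + (-1)*u^4*w^3)*h4 + (a*b*e1*e2*u^2*w + a*b*e1*e2^3*u + a*b*e1^2*e2^2*u + a*b*e2^2*u^2*w)*h5 + ((-2)*a^2*b^2*e1*e2^2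 + 3*a^2*e1*e2^2*u*w + a^2*e1*e2^4 + a^2*e1*u^2*w^2 + a^2*e1^3*e2^2 + a^4*e1*e2^2 + 2*b^2*e1^2*e2*u*w + 2*b^2*e1^2*e2^3 + b^2*e2*u^2*w^2 + b^2*e2^3*u*w + b^4*e1*e2^2 + 2*e1*e2^2*u^2*w^2 + e1*e2^4*u*w + e1*u^3*w^3 + 2*e1^3*e2^2*u*w + e1^3*e2^4 + e1^3*u^2*w^2)*h6 + (a*b*e1*e2^2*u*w + a*b*e1*u^2*w^2 + a*b*e1^2*e2*u*w + a*b*e2*u^2*w^2)*h7
  · linear_combination ((-1)*a^2*b*e1*e2*u^2 + b*e1^2*e2^2*u^2 + b*e1^2*u^3*w + b*e2^2*u^3*w + b*u^4*w^2 + b^3*e1*e2*u^2)*h0 + ((-1)*a*b^2*e1^2*u^2 + 2*a*e1^2*u^3*w + a*e1^4*u^2 + a*u^4*w^2 + a^3*e1^2*u^2)*h1 + ((-1)*a^2*b*e1^2*e2*u + b*e1*e2^2*u^2*w + b*e1*u^3*w^2 + b*e1^3*e2^2*u + b*e1^3*u^2*w + b^3*e1^2*e2*u)*h2 + ((-1)*a*b^2*e1^2*e2*u + 2*a*e1^2*e2*u^2*w + a*e1^4*e2*u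 + a*e2*u^3*w^2 + a^3*e1^2*e2*u)*h3 + (a*b*e1*e2*u^2*w + a*b*e1^2*e2^2*u + a*b*e1^2*u^2*w + a*b*e1^3*e2*u)*h4 + ((-1)*a^2*e1^2*e2^2*u + (-1)*a^2*e1^2*u^2*w + (-1)*b^2*e1*e2*u^2*w + (-1)*b^2*e1^3*e2*u + (-2)*e1^2*e2^2*u^2*w + (-2)*e1^2*u^3*w^2 + (-1)*e1^4*e2^2*u + (-1)*e1^4*u^2*w + (-1)*e2^2*u^3*w^2 + (-1)*u^4*w^3)*h5 + (a*b*e1*e2^2*u*w + a*b*e1*u^2*w^2 + a*b*e1^2*e2*u*w + a*b*e2*u^2*w^2)*h6 + ((-2)*a^2*b^2*e1^2*e2 + 3*a^2*e1^2*e2*u*w + a^2*e1^2*e2^3 + a^2*e1^4*e2 + a^2*e2*u^2*w^2 + a^4*e1^2*e2 + 2*b^2*e1*e2^2*u*w + b^2*e1*u^2*w^2 + 2*b^2*e1^3*e2^2 + b^2*e1^3*u*w + b^4*e1^2*e2 + 2*e1^2*e2*u^2*w^2 + 2*e1^2*e2^3*u*w + e1^4*e2*u*w + e1^4*e2^3 + e2*u^3*w^3 + e2^3*u^2*w^2)*h7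

lemma real_zero (c a b β z r : ℝ) (hc : 0 < c) (ha : 0 < a) (hβ : b * b - a * a = β ^ 2)
    (hβ0 : 0 < β) (hβ2 : β ≠ 2 * c) (hr : 0 ≤ r)
    (h : (((c - z) * (c - z) + r) * ((-c - z) * (-c - z) + r) +
      (b * b - a * a) * (c - z) * (-c - z)) ^ 2 +
      (a * ((c - z) + (-c - z)) * ((c - z) * (-c - z) + r)) ^ 2 = 0) :
    (z = 0 ∧ r = c * (β - c)) ∨ (r = 0 ∧ z ^ 2 = c ^ 2) := by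
  rw [add_eq_zero_iff_of_nonneg (sq_nonneg _) (sq_nonneg _), pow_eq_zero_iff two_ne_zero,
    pow_eq_zero_iff two_ne_zero, hβ] at h
  obtain ⟨hP, hQ⟩ := h
  rcases mul_eq_zero.mp hQ with h1 | h1
  · have hz : z = 0 := by
      rcases mul_eq_zero.mp h1 with h2 | h2 <;> linarith
    left
    refine ⟨hz, ?_⟩
    subst hz
    have h3 : (c ^ 2 + r - β * c) * (c ^ 2 + r + β * c) = 0 := by linarith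
    rcases mul_eq_zero.mp h3 with h4 | h4
    · linarith
    · have : 0 < c ^ 2 + r + β * c := by positivity
      linarith
  · right
    have hr' : r = c ^ 2 - z ^ 2 := by linarith
    have h3 : r * ((2 * c - β) * (2 * c + β)) = 0 := by
      rw [hr'] at hP ⊢; linarith
    rcases mul_eq_zero.mp h3 with h4 | h4
    · exact ⟨h4, by linarith⟩
    · rcases mul_eq_zero.mp h4 with h5 | h5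
      · exact absurd (by linarith) hβ2
      · linarith

lemma chart {X : Type} [TopologicalSpace X] (S O : Set X) (hO : IsOpen O) (φ : ℝ → X) (ψ : X → ℝ)
    (hφ : Continuous φ) (hψ : ContinuousOn ψ O) (h1 : ∀ t, φ t ∈ S ∧ φ t ∈ O)
    (h2 : ∀ t, ψ (φ t) = t) (h3 : ∀ p ∈ S, p ∈ O → φ (ψ p) = p) (p : S) (hp : p.1 ∈ O) :
    ∃ U : Set S, IsOpen U ∧ p ∈ U ∧ Nonempty (U ≃ₜ ℝ) := by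
  refine ⟨Subtype.val ⁻¹' O, hO.preimage continuous_subtype_val, hp, ⟨
    { toFun := fun q => ψ q.1.1
      invFun := fun t => ⟨⟨φ t, (h1 t).1⟩, (h1 t).2⟩
      left_inv := fun q => Subtype.ext (Subtype.ext (h3 _ q.1.2 q.2))
      right_inv := h2
      continuous_toFun := hψ.comp_continuous (continuous_subtype_val.comp continuous_subtype_val)
        fun q => q.2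
      continuous_invFun := (hφ.subtype_mk _).subtype_mk _ }⟩⟩

end Pool.Agent.H21.CliffCirc
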