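import Mathlib
import Pool.Agent.H21.CliffCirc

set_option autoImplicit false

open Complex Matrix

namespace Pool.Agent.H21.CliffCirc

def AA : Fin 3 → Matrix (Fin 8) (Fin 8) ℂ :=
  ![!![0,0,12,13,0,0,0,0; 0,0,13,12,0,0,0,0; 12,13,0,0,0,0,0,0; 13,12,0,0,0,0,0,0;
      0,0,0,0,4,0,0,0; 0,0,0,0,0,-4,0,0; 0,0,0,0,0,0,4,0; 0,0,0,0,0,0,0,-4],
    !![0,0,12*I,13*I,0,0,0,0; 0,0,13*I,12*I,0,0,0,0; -(12*I),-(13*I),0,0,0,0,0,0;
      -(13*I),-(12*I),0,0,0,0,0,0;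
      0,0,0,0,0,0,24,26; 0,0,0,0,0,0,26,24; 0,0,0,0,24,26,0,0; 0,0,0,0,26,24,0,0],
    !![8,0,0,0,0,0,0,0; 0,-8,0,0,0,0,0,0; 0,0,8,0,0,0,0,0; 0,0,0,-8,0,0,0,0;
      0,0,0,0,0,0,24*I,26*I; 0,0,0,0,0,0,26*I,24*I; 0,0,0,0,-(24*I),-(26*I),0,0;
      0,0,0,0,-(26*I),-(24*I),0,0]]

def GG : Fin 3 → Matrix (Fin 2) (Fin 2) ℂ :=
  ![!![0,1;1,0], !![0,-I;I,0], !![1,0;0,-1]]

noncomputable def LL (l : Fin 3 → ℝ) : Matrix (Fin 8 × Fin 2) (Fin 8 × Fin 2) ℂ :=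
  ∑ j, Matrix.kroneckerMap (· * ·) (AA j - ((l j : ℝ) : ℂ) • (1 : Matrix (Fin 8) (Fin 8) ℂ)) (GG j)

lemma row (l : Fin 3 → ℝ) (v : Fin 8 × Fin 2 → ℂ) (i : Fin 8) :
    (LL l *ᵥ v) (i, 0) = ∑ k, ((AA 0 i k - I * AA 1 i k) * v (k, 1) + AA 2 i k * v (k, 0))
      - ((l 0 - I * l 1) * v (i, 1) + l 2 * v (i, 0)) ∧
    (LL l *ᵥ v) (i, 1) = ∑ k, ((AA 0 i k + I * AA 1 i k) * v (k, 0) - AA 2 i k * v (k, 1))
      - ((l 0 + I * l 1) * v (i, 0) - l 2 * v (i, 1)) := by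
  have e : ∀ f : Fin 8 → ℂ, f i = ∑ k, if i = k then f k else 0 := by
    intro f; simp
  constructor
  · rw [e (fun k => (l 0 - I * l 1) * v (k, 1) + l 2 * v (k, 0)), ← Finset.sum_sub_distrib]
    simp only [LL, mulVec, dotProduct, Fintype.sum_prod_type, Fin.sum_univ_three, Fin.sum_univ_two,
      Matrix.add_apply, kroneckerMap_apply, Matrix.sub_apply, Matrix.smul_apply, Matrix.one_apply]
    refine Finset.sum_congr rfl fun k _ => ?_
    simp only [GG, Matrix.cons_val, of_apply]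
    split_ifs <;> simp <;> ring
  · rw [e (fun k => (l 0 + I * l 1) * v (k, 0) - l 2 * v (k, 1)), ← Finset.sum_sub_distrib]
    simp only [LL, mulVec, dotProduct, Fintype.sum_prod_type, Fin.sum_univ_three, Fin.sum_univ_two,
      Matrix.add_apply, kroneckerMap_apply, Matrix.sub_apply, Matrix.smul_apply, Matrix.one_apply]
    refine Finset.sum_congr rfl fun k _ => ?_
    simp only [GG, Matrix.cons_val, of_apply]
    split_ifs <;> simp <;> ring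

lemma rows (l : Fin 3 → ℝ) (v : Fin 8 × Fin 2 → ℂ) :
    LL l *ᵥ v = 0 ↔ ∀ i : Fin 8, 
      ∑ k, ((AA 0 i k - I * AA 1 i k) * v (k, 1) + AA 2 i k * v (k, 0))
      - ((l 0 - I * l 1) * v (i, 1) + l 2 * v (i, 0)) = 0 ∧
      ∑ k, ((AA 0 i k + I * AA 1 i k) * v (k, 0) - AA 2 i k * v (k, 1))
      - ((l 0 + I * l 1) * v (i, 0) - l 2 * v (i, 1)) = 0 := by
  constructor
  · intro h i
    rw [← (row l v i).1, ← (row l v i).2, h]; simp
  · intro h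
    funext ⟨i, s⟩
    fin_cases s
    · exact (row l v i).1.trans (h i).1
    · exact (row l v i).2.trans (h i).2

lemma mem1 (l : Fin 3 → ℝ) (hz : l 2 = 0) (hr : l 0 ^ 2 + l 1 ^ 2 = 16) : (LL l).det = 0 := by
  rw [← Matrix.exists_mulVec_eq_zero_iff]
  have hr' : (l 0 : ℂ) ^ 2 + (l 1 : ℂ) ^ 2 = 16 := by exact_mod_cast hr
  refine ⟨fun p => (![![8*26, -((l 0 + I * l 1) * 26)], ![-(8*24), -((l 0 + I * l 1) * 24)],
    ![0, 0], ![(l 0 - I * l 1) * 10, -(8*10)], 0, 0, 0, 0] : Fin 8 → Fin 2 → ℂ) p.1 p.2, ?_, ?_⟩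
  · intro h
    have := congrFun h (0, 0)
    simp at this
  · rw [rows]
    intro i
    fin_cases i <;> simp [AA, Fin.sum_univ_eight, hz] <;> grind [Complex.I_sq]

lemma mem2 (l : Fin 3 → ℝ) (hz : l 0 = 0) (hr : l 1 ^ 2 + l 2 ^ 2 = 64) : (LL l).det = 0 := by
  rw [← Matrix.exists_mulVec_eq_zero_iff]
  have hr' : (l 1 : ℂ) ^ 2 + (l 2 : ℂ) ^ 2 = 64 := by exact_mod_cast hr
  refine ⟨fun p => (![0, 0, 0, 0,
    ![4*52 + I * ((l 1 + I * l 2) * 52), 4*52 - I * ((l 1 + I * l 2) * 52)],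
    ![-(4*48) + I * ((l 1 + I * l 2) * 48), -(4*48) - I * ((l 1 + I * l 2) * 48)],
    ![0, 0],
    ![(l 1 - I * l 2) * 20 + I * (4*20), (l 1 - I * l 2) * 20 - I * (4*20)]] :
      Fin 8 → Fin 2 → ℂ) p.1 p.2, ?_, ?_⟩
  · intro h
    have h1 := congrFun h (4, 0)
    have h2 := congrFun h (4, 1)
    simp at h1 h2
    have : (416 : ℂ) = 0 := by linear_combination h1 + h2
    norm_num at this
  · rw [rows]
    intro i
    fin_cases i <;> simp [AA, Fin.sum_univ_eight, hz] <;> grind [Complex.I_sq]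

lemma hD_of (c a b β z x y : ℝ) (hc : 0 < c) (ha : 0 < a) (hβ : b * b - a * a = β ^ 2)
    (hβ0 : 0 < β) (hβ2 : β ≠ 2 * c)
    (hn : ¬ ((z = 0 ∧ x ^ 2 + y ^ 2 = c * (β - c)) ∨ (x ^ 2 + y ^ 2 = 0 ∧ z ^ 2 = c ^ 2))) :
    ((((c:ℂ) - z) * (c - z) + (x + I * y) * (x - I * y)) *
      ((-c - z) * (-c - z) + (x + I * y) * (x - I * y)) + (b * b - a * a) * (c - z) * (-c - z)) ^ 2 +
      (a * ((c - z) + (-c - z)) * ((c - z) * (-c - z) + (x + I * y) * (x - I * y))) ^ 2 ≠ 0 := by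
  intro h
  apply hn
  apply real_zero c a b β z (x ^ 2 + y ^ 2) hc ha hβ hβ0 hβ2 (by positivity)
  have e : ((x:ℂ) + I * y) * (x - I * y) = x ^ 2 + y ^ 2 := by
    linear_combination (-(y:ℂ) ^ 2) * Complex.I_sq
  rw [e] at h
  exact_mod_cast h

lemma spec (l : Fin 3 → ℝ) : (LL l).det = 0 ↔
    (l 2 = 0 ∧ l 0 ^ 2 + l 1 ^ 2 = 16) ∨ (l 0 = 0 ∧ l 1 ^ 2 + l 2 ^ 2 = 64) := by
  refine ⟨fun h => ?_, fun h => h.elim (fun h => mem1 l h.1 h.2) (fun h => mem2 l h.1 h.2)⟩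
  by_contra hn
  rw [← Matrix.exists_mulVec_eq_zero_iff] at h
  obtain ⟨v, hv, h⟩ := h
  rw [rows] at h
  have h0 := h 0
  have h1 := h 1
  have h2 := h 2
  have h3 := h 3
  have h4 := h 4
  have h5 := h 5
  have h6 := h 6
  have h7 := h 7
  simp [AA, Fin.sum_univ_eight] at h0 h1 h2 h3 h4 h5 h6 h7
  have D1 := hD_of 8 24 26 10 (l 2) (l 0) (l 1) (by norm_num) (by norm_num) (by norm_num)
    (by norm_num) (by norm_num) (by
      rintro (⟨a, b⟩ | ⟨a, b⟩)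
      · exact hn (Or.inl ⟨a, by linarith⟩)
      · have : l 0 = 0 := by nlinarith [sq_nonneg (l 0), sq_nonneg (l 1)]
        exact hn (Or.inr ⟨this, by nlinarith⟩))
  have D2 := hD_of 4 48 52 20 (l 0) (l 1) (l 2) (by norm_num) (by norm_num) (by norm_num)
    (by norm_num) (by norm_num) (by
      rintro (⟨a, b⟩ | ⟨a, b⟩)
      · exact hn (Or.inr ⟨a, by linarith⟩)
      · have : l 2 = 0 := by nlinarith [sq_nonneg (l 2), sq_nonneg (l 1)]
        exact hn (Or.inl ⟨this, by nlinarith⟩))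
  push_cast at D1 D2
  apply hv
  clear h hn hv
  revert D1 D2
  obtain ⟨h0, g0⟩ := h0
  obtain ⟨h1, g1⟩ := h1
  obtain ⟨h2, g2⟩ := h2
  obtain ⟨h3, g3⟩ := h3
  obtain ⟨h4, g4⟩ := h4
  obtain ⟨h5, g5⟩ := h5
  obtain ⟨h6, g6⟩ := h6
  obtain ⟨h7, g7⟩ := h7
  generalize (l 0 : ℂ) = x at *
  generalize (l 1 : ℂ) = y at *
  generalize (l 2 : ℂ) = z at *
  have hI := Complex.I_sq
  have c1 := chain (8 - z) (-8 - z) 24 26 (x + I * y) (x - I * y) (v (0,1)) (v (1,1)) (v (0,0)) (v (1,0)) (v (2,1)) (v (3,1))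
    (v (2,0)) (v (3,0)) (by grind only) (by grind only) (by grind only)
    (by grind only) (by grind only) (by grind only)
    (by grind only) (by grind only)
  have c2 := chain (4 - x) (-4 - x) 48 52 (y + I * z) (y - I * z) (I * (v (4,0) - v (4,1))) (I * (v (5,0) - v (5,1)))
    (v (4,0) + v (4,1)) (v (5,0) + v (5,1)) (I * (v (6,0) - v (6,1))) (I * (v (7,0) - v (7,1)))
    (v (6,0) + v (6,1)) (v (7,0) + v (7,1))
    (by clear * - h4 g4 hI; grind only)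
    (by clear * - h5 g5 hI; grind only)
    (by clear * - h4 g4 hI; grind only)
    (by clear * - h5 g5 hI; grind only)
    (by clear * - h6 g6 hI; grind only)
    (by clear * - h7 g7 hI; grind only)
    (by clear * - h6 g6 hI; grind only)
    (by clear * - h7 g7 hI; grind only)
  intro D1 D2
  replace c1 := c1 D1
  replace c2 := c2 D2
  simp only [mul_eq_zero, I_ne_zero, false_or] at c2
  clear h0 h1 h2 h3 h4 h5 h6 h7 D1 D2 g0 g1 g2 g3 g4 g5 g6 g7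
  obtain ⟨a1, a2, a3, a4, a5, a6, a7, a8⟩ := c1
  obtain ⟨b1, b2, b3, b4, b5, b6, b7, b8⟩ := c2
  funext ⟨i, s⟩
  fin_cases i <;> fin_cases s <;> simp <;> grind

end Pool.Agent.H21.CliffCirc
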