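import Mathlib

set_option autoImplicit false
open Complex Filter Topology Metric Finset

namespace Pool.Agent.H21.Comp

noncomputable abbrev H2 := lp (fun _ : ℕ => ℂ) 2

lemma int_exp (j k : ℕ) : ∫ θ in (0 : ℝ)..(2 * Real.pi), exp (((j : ℂ) - k) * I * θ)
    = if j = k then ((2 * Real.pi : ℝ) : ℂ) else 0 := by
  split_ifs with h
  · simp [h]
  · have hc : ((j : ℂ) - k) * I ≠ 0 := by
      refine mul_ne_zero (sub_ne_zero.mpr ?_) I_ne_zero
      exact_mod_cast h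
    rw [integral_exp_mul_complex hc]
    have : exp (((j : ℂ) - k) * I * ((2 * Real.pi : ℝ) : ℂ)) = 1 := by
      rw [← exp_int_mul_two_pi_mul_I ((j : ℤ) - k)]
      congr 1
      push_cast
      ring
    rw [this]
    simp

lemma parseval (n : ℕ) (a : ℕ → ℂ) :
    ∫ θ in (0 : ℝ)..(2 * Real.pi), ‖∑ k ∈ range n, a k * exp (θ * I) ^ k‖ ^ 2
      = 2 * Real.pi * ∑ k ∈ range n, ‖a k‖ ^ 2 := by
  apply Complex.ofReal_injective
  rw [← intervalIntegral.integral_ofReal]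
  have e : ∀ θ : ℝ, ((‖∑ k ∈ range n, a k * exp (θ * I) ^ k‖ ^ 2 : ℝ) : ℂ)
      = ∑ j ∈ range n, ∑ k ∈ range n,
        a j * (starRingEnd ℂ) (a k) * exp (((j : ℂ) - k) * I * θ) := by
    intro θ
    rw [ofReal_pow, ← Complex.mul_conj', map_sum, Finset.sum_mul_sum]
    refine Finset.sum_congr rfl fun j _ => Finset.sum_congr rfl fun k _ => ?_
    rw [map_mul, map_pow, ← exp_conj, ← exp_nat_mul, ← exp_nat_mul, mul_mul_mul_comm, ← exp_add]
    congr 2
    simp
    ring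
  simp_rw [e]
  rw [intervalIntegral.integral_finsetSum (fun j _ => Continuous.intervalIntegrable
    (by fun_prop) _ _)]
  rw [ofReal_mul, ofReal_sum, Finset.mul_sum]
  refine Finset.sum_congr rfl fun j hj => ?_
  rw [intervalIntegral.integral_finsetSum (fun j _ => Continuous.intervalIntegrable
    (by fun_prop) _ _)]
  simp_rw [intervalIntegral.integral_const_mul, int_exp]
  rw [Finset.sum_eq_single j (fun k _ hk => by rw [if_neg hk.symm, mul_zero])
    (fun h => absurd hj h), if_pos rfl, Complex.mul_conj', ofReal_pow]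
  ring

lemma parseval_lim (b : ℕ → ℂ) (hb : Summable fun n => ‖b n‖) :
    Tendsto (fun n => 2 * Real.pi * ∑ k ∈ range n, ‖b k‖ ^ 2) atTop
      (𝓝 (∫ θ in (0 : ℝ)..(2 * Real.pi), ‖∑' k, b k * exp (θ * I) ^ k‖ ^ 2)) := by
  simp_rw [← parseval]
  have e : ∀ (θ : ℝ) (k : ℕ), ‖b k * exp (θ * I) ^ k‖ = ‖b k‖ := fun θ k => by
    rw [norm_mul, norm_pow, norm_exp_ofReal_mul_I, one_pow, mul_one]
  refine intervalIntegral.tendsto_integral_filter_of_dominated_convergence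
    (fun _ => (∑' k, ‖b k‖) ^ 2) (Eventually.of_forall fun n => ?_)
    (Eventually.of_forall fun n => Eventually.of_forall fun θ _ => ?_)
    (by simp) (Eventually.of_forall fun θ _ => ?_)
  · exact Continuous.aestronglyMeasurable (by fun_prop)
  · rw [Real.norm_of_nonneg (by positivity)]
    refine pow_le_pow_left₀ (norm_nonneg _) ((norm_sum_le _ _).trans ?_) 2
    simp_rw [e]
    exact hb.sum_le_tsum _ fun _ _ => norm_nonneg _
  · have : Summable fun k => b k * exp (θ * I) ^ k := by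
      refine Summable.of_norm ?_
      simpa only [e] using hb
    exact this.hasSum.tendsto_sum_nat.norm.pow 2

lemma two_real : ((2 : ENNReal).toReal) = ((2 : ℕ) : ℝ) := by norm_num

lemma sum_le (b : H2) (s : Finset ℕ) : ∑ k ∈ s, ‖b k‖ ^ 2 ≤ ‖b‖ ^ 2 := by
  have := lp.sum_rpow_le_norm_rpow (p := 2) (by norm_num) b s
  simpa only [two_real, Real.rpow_natCast] using this

lemma summ (b : H2) {z : ℂ} (hz : ‖z‖ < 1) : Summable fun n => ‖b n * z ^ n‖ := by
  refine Summable.of_nonneg_of_le (fun _ => norm_nonneg _) (fun n => ?_)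
    ((summable_geometric_of_lt_one (norm_nonneg z) hz).mul_left ‖b‖)
  rw [norm_mul, norm_pow]
  exact mul_le_mul_of_nonneg_right (lp.norm_apply_le_norm (by norm_num) b n) (by positivity)

lemma lim_r (b : H2) {r : ℝ} (h0 : 0 ≤ r) (h1 : r < 1) :
    Tendsto (fun n => 2 * Real.pi * ∑ k ∈ range n, ‖b k‖ ^ 2 * (r ^ k) ^ 2) atTop
      (𝓝 (∫ θ in (0 : ℝ)..(2 * Real.pi), ‖∑' k, b k * (r * exp (θ * I)) ^ k‖ ^ 2)) := by
  have := parseval_lim (fun k => b k * (r : ℂ) ^ k)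
    (summ b (by rwa [Complex.norm_real, Real.norm_of_nonneg h0]))
  simp only [norm_mul, norm_pow, Complex.norm_real, Real.norm_of_nonneg h0, mul_pow] at this
  simpa only [mul_pow, mul_assoc] using this

lemma upper (b : H2) {r : ℝ} (h0 : 0 ≤ r) (h1 : r < 1) :
    ∫ θ in (0 : ℝ)..(2 * Real.pi), ‖∑' k, b k * (r * exp (θ * I)) ^ k‖ ^ 2
      ≤ 2 * Real.pi * ‖b‖ ^ 2 := by
  refine le_of_tendsto' (lim_r b h0 h1) fun n => ?_
  refine mul_le_mul_of_nonneg_left (le_trans (sum_le_sum fun k _ => ?_) (sum_le b (range n)))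
    (by positivity)
  exact mul_le_of_le_one_right (by positivity)
    (pow_le_one₀ (by positivity) (pow_le_one₀ h0 h1.le))

lemma lower (b : H2) {M : ℝ} (hM : ∀ r : ℝ, 0 < r → r < 1 →
    ∫ θ in (0 : ℝ)..(2 * Real.pi), ‖∑' k, b k * (r * exp (θ * I)) ^ k‖ ^ 2 ≤ 2 * Real.pi * M) :
    ‖b‖ ^ 2 ≤ M := by
  have h1 : ∀ n, ∑ k ∈ range n, ‖b k‖ ^ 2 ≤ M := fun n => by
    have hc : Tendsto (fun r : ℝ => ∑ k ∈ range n, ‖b k‖ ^ 2 * (r ^ k) ^ 2) (𝓝[<] 1)
        (𝓝 (∑ k ∈ range n, ‖b k‖ ^ 2 * ((1 : ℝ) ^ k) ^ 2)) :=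
      (Continuous.tendsto (by fun_prop) _).mono_left nhdsWithin_le_nhds
    simp only [one_pow, mul_one] at hc
    refine le_of_tendsto hc ?_
    filter_upwards [Ioo_mem_nhdsLT (show (0 : ℝ) < 1 by norm_num)] with r hr
    refine le_of_mul_le_mul_left (le_trans ?_ (hM r hr.1 hr.2)) (by positivity)
    refine ge_of_tendsto (lim_r b hr.1.le hr.2) ?_
    filter_upwards [eventually_ge_atTop n] with m hm
    exact mul_le_mul_of_nonneg_left (sum_le_sum_of_subset_of_nonneg (range_subset_range.2 hm)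
      fun _ _ _ => by positivity) (by positivity)
  have h2 := lp.hasSum_norm (p := 2) (by norm_num) b
  simp only [two_real, Real.rpow_natCast] at h2
  exact le_of_tendsto' h2.tendsto_sum_nat h1

noncomputable def P (N : ℕ) (a : ℕ → ℂ) (w : ℂ) : ℂ := ∑ j ∈ range N, a j * w ^ j

noncomputable def G : ℕ → (ℕ → ℂ) → ℂ → ℂ
  | 0, _, _ => 0
  | N + 1, a, w => G N (fun j => a (j + 1)) w + (starRingEnd ℂ) (a 0) * (2 * P (N + 1) a w - a 0)

lemma P_succ (N : ℕ) (a : ℕ → ℂ) (w : ℂ) :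
    P (N + 1) a w = a 0 + w * P N (fun j => a (j + 1)) w := by
  unfold P
  rw [sum_range_succ', mul_sum, pow_zero, mul_one, add_comm]
  congr 1
  exact sum_congr rfl fun j _ => by ring

lemma P_diff (N : ℕ) (a : ℕ → ℂ) : Differentiable ℂ (P N a) := by
  unfold P; fun_prop

lemma G_diff (N : ℕ) : ∀ a : ℕ → ℂ, Differentiable ℂ (G N a) := by
  induction N with
  | zero => intro a; exact differentiable_const (0 : ℂ)
  | succ N ih =>
    intro a
    exact (ih _).add (((P_diff _ a).const_mul 2).sub_const _ |>.const_mul _)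

lemma G_zero (N : ℕ) : ∀ a : ℕ → ℂ, G N a 0 = ((∑ j ∈ range N, ‖a j‖ ^ 2 : ℝ) : ℂ) := by
  induction N with
  | zero => intro a; simp [G]
  | succ N ih =>
    intro a
    rw [G, ih, P_succ, sum_range_succ']
    push_cast
    rw [← Complex.conj_mul']
    ring

lemma major (N : ℕ) {w : ℂ} (hw : ‖w‖ ≤ 1) : ∀ a : ℕ → ℂ, ‖P N a w‖ ^ 2 ≤ (G N a w).re := by
  induction N with
  | zero => intro a; simp [G, P]
  | succ N ih =>
    intro a
    have h1 := ih fun j => a (j + 1)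
    have h2 : ‖w * P N (fun j => a (j + 1)) w‖ ^ 2 ≤ ‖P N (fun j => a (j + 1)) w‖ ^ 2 := by
      rw [norm_mul]
      exact pow_le_pow_left₀ (by positivity) (mul_le_of_le_one_left (norm_nonneg _) hw) 2
    rw [G, P_succ, add_re]
    generalize w * P N (fun j => a (j + 1)) w = u at h2 ⊢
    have h3 : ‖a 0 + u‖ ^ 2 = ‖u‖ ^ 2 + ((starRingEnd ℂ) (a 0) * (2 * (a 0 + u) - a 0)).re := by
      rw [Complex.sq_norm, Complex.sq_norm]
      simp [normSq_apply]
      ring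
    linarith

lemma lip {f : ℂ → ℂ} (hf : Differentiable ℂ f) {ω w : ℂ} {e B : ℝ}
    (hB : ∀ z ∈ ball ω e, ‖f z‖ ≤ B) (hw : w ∈ ball ω e) : ‖f w - f ω‖ ≤ 2 * B / e * ‖w - ω‖ := by
  have he : 0 < e := pos_of_mem_ball hw
  have := dist_le_div_mul_dist_of_mapsTo_ball (R₂ := 2 * B) hf.differentiableOn
    (fun z hz => ?_) hw
  · simpa only [dist_eq_norm] using this
  · rw [mem_closedBall, dist_eq_norm]
    linarith [norm_sub_le (f z) (f ω), hB z hz, hB ω (mem_ball_self he)]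

lemma pointwise {F H : ℂ → ℂ} {A e : ℝ} {ω : ℂ} (hA : 0 < A) (hF : Differentiable ℂ F)
    (hH : Differentiable ℂ H) (hFH : ∀ w ∈ ball (0 : ℂ) 1, ‖F w‖ ^ 2 ≤ (H w).re)
    (h0 : ‖H 0‖ ≤ A) (he : 0 < e) (hω : ‖ω‖ + 2 * e ≤ 1) :
    (∀ w ∈ ball ω e, (H w).re - (H ω).re ≤ 8 * A / e ^ 2 * ‖w - ω‖) ∧
    ∀ w ∈ ball (0 : ℂ) 1,
      ‖F w - F ω‖ ^ 2 ≤ 2 * ((H w).re - (H ω).re) + 32 * A / e ^ 2 * ‖w - ω‖ := by
  have hsub : ∀ z ∈ ball ω e, ‖z‖ < 1 - e := fun z hz => by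
    rw [mem_ball, dist_eq_norm] at hz
    linarith [norm_le_norm_add_norm_sub' z ω]
  have hB : ∀ z ∈ ball ω e, ‖H z‖ ≤ 4 * A / e := fun z hz => by
    have h1 := hsub z hz
    have hz1 : z ∈ ball (0 : ℂ) 1 := by rw [mem_ball_zero_iff]; linarith
    have := Complex.borelCaratheodory (f := fun z => -H z) hA hH.neg.differentiableOn
      (fun w hw => ?_) one_pos hz1
    · rw [norm_neg, norm_neg, ← add_div] at this
      refine this.trans (div_le_div₀ (by positivity) ?_ he (by linarith))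
      nlinarith [norm_nonneg z, norm_nonneg (H 0)]
    · have := hFH w hw
      simp only [Set.mem_setOf_eq, neg_re]
      nlinarith [sq_nonneg ‖F w‖]
  have hL : ∀ w ∈ ball ω e, |(H w).re - (H ω).re| ≤ 8 * A / e ^ 2 * ‖w - ω‖ := fun w hw => by
    rw [← sub_re]
    refine (abs_re_le_norm _).trans ((lip hH hB hw).trans_eq ?_)
    field_simp
    ring
  refine ⟨fun w hw => (le_abs_self _).trans (hL w hw), fun w hw => ?_⟩
  have hω1 : ω ∈ ball (0 : ℂ) 1 := by rw [mem_ball_zero_iff]; linarith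
  by_cases hw' : w ∈ ball ω e
  · have hB' : ∀ z ∈ ball ω e, ‖F z‖ ≤ √(4 * A / e) := fun z hz => by
      refine Real.le_sqrt_of_sq_le ((hFH z ?_).trans ((re_le_norm _).trans (hB z hz)))
      rw [mem_ball_zero_iff]; linarith [hsub z hz]
    have h1 := pow_le_pow_left₀ (norm_nonneg _) (lip hF hB' hw') 2
    rw [mul_pow, div_pow, mul_pow, Real.sq_sqrt (by positivity)] at h1
    have h2 := neg_le_of_abs_le (hL w hw')
    have h3 : ‖w - ω‖ < e := by rwa [mem_ball, dist_eq_norm] at hw'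
    have h4 : 2 ^ 2 * (4 * A / e) / e ^ 2 * ‖w - ω‖ ^ 2 ≤ 16 * A / e ^ 2 * ‖w - ω‖ := by
      have : 2 ^ 2 * (4 * A / e) / e ^ 2 * ‖w - ω‖ ^ 2
          = 16 * A / e ^ 2 * ‖w - ω‖ * (‖w - ω‖ / e) := by field_simp; ring
      rw [this]
      exact mul_le_of_le_one_right (by positivity) ((div_le_one he).2 h3.le)
    have h5 : 32 * A / e ^ 2 * ‖w - ω‖ = 16 * A / e ^ 2 * ‖w - ω‖
        + 2 * (8 * A / e ^ 2 * ‖w - ω‖) := by ring
    linarith
  · have h3 : e ≤ ‖w - ω‖ := by rwa [mem_ball, dist_eq_norm, not_lt] at hw'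
    have h1 := hFH w hw
    have h2 := hFH ω hω1
    have h4 := (re_le_norm _).trans (hB ω (mem_ball_self he))
    have h5 : ‖F w - F ω‖ ^ 2 ≤ 2 * ‖F w‖ ^ 2 + 2 * ‖F ω‖ ^ 2 := by
      have := pow_le_pow_left₀ (norm_nonneg _) (norm_sub_le (F w) (F ω)) 2
      nlinarith [sq_nonneg (‖F w‖ - ‖F ω‖)]
    have h6 : 4 * (4 * A / e) ≤ 32 * A / e ^ 2 * ‖w - ω‖ := by
      have : 4 * (4 * A / e) = 16 * A / e ^ 2 * e := by field_simp; ring
      rw [this]
      gcongr
      norm_num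
    linarith

end Pool.Agent.H21.Comp
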