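import Pool.Agent.H21.Comp1

set_option autoImplicit false
open Complex Filter Topology Metric Finset

namespace Pool.Agent.H21.Comp

noncomputable def ker (x : ℂ) (hx : ‖x‖ < 1) : H2 := ⟨fun m => (starRingEnd ℂ) x ^ m, memℓp_gen (by
  have e : ∀ m : ℕ, ‖(starRingEnd ℂ) x ^ m‖ ^ (2 : ENNReal).toReal = (‖x‖ ^ 2) ^ m := fun m => by
    rw [two_real, Real.rpow_natCast, norm_pow, Complex.norm_conj, ← pow_mul, ← pow_mul, mul_comm]
  simp only [e]
  exact summable_geometric_of_lt_one (by positivity) (by nlinarith [norm_nonneg x]))⟩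

noncomputable def ev (x : ℂ) (hx : ‖x‖ < 1) : H2 →L[ℂ] ℂ := innerSL ℂ (ker x hx)

lemma ev_apply (x : ℂ) (hx : ‖x‖ < 1) (a : H2) : ev x hx a = ∑' n, a n * x ^ n := by
  rw [ev, innerSL_apply_apply, lp.inner_eq_tsum]
  refine tsum_congr fun n => ?_
  have : ker x hx n = (starRingEnd ℂ) x ^ n := rfl
  rw [this]
  simp

lemma ev_single (x : ℂ) (hx : ‖x‖ < 1) (n : ℕ) (c : ℂ) :
    ev x hx (lp.single 2 n c) = c * x ^ n := by
  rw [ev_apply, tsum_eq_single n fun m hm => by rw [lp.single_apply_ne _ _ _ hm, zero_mul],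
    lp.single_apply_self]

noncomputable def K (x : ℂ) (hx : ‖x‖ < 1) : H2 →L[ℂ] H2 :=
  (ev x hx).smulRight (lp.single 2 0 (1 : ℂ) : H2)

lemma K_compact (x : ℂ) (hx : ‖x‖ < 1) : IsCompactOperator (K x hx) :=
  (isCompactOperator_of_locallyCompactSpace_dom (ev x hx)).clm_comp
    ((ContinuousLinearMap.id ℂ ℂ).smulRight (lp.single 2 0 (1 : ℂ) : H2))

lemma circ {r : ℝ} (h0 : 0 < r) (θ : ℝ) : ‖(r : ℂ) * exp (θ * I)‖ = r := by
  rw [norm_mul, norm_exp_ofReal_mul_I, mul_one, Complex.norm_real, Real.norm_of_nonneg h0.le]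

lemma mean {f : ℂ → ℂ} (hf : DifferentiableOn ℂ f (ball 0 1)) {r : ℝ} (h0 : 0 < r) (h1 : r < 1) :
    ∫ θ in (0 : ℝ)..(2 * Real.pi), (f (r * exp (θ * I))).re = 2 * Real.pi * (f 0).re := by
  have hd : DiffContOnCl ℂ f (ball 0 |r|) := by
    refine DifferentiableOn.diffContOnCl (hf.mono ?_)
    rw [abs_of_pos h0, closure_ball _ h0.ne']
    exact closedBall_subset_ball h1
  have h2 := hd.circleAverage
  rw [Real.circleAverage_def] at h2
  simp only [circleMap, zero_add] at h2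
  have hc : Continuous fun θ : ℝ => f (r * exp (θ * I)) :=
    hf.continuousOn.comp_continuous (by fun_prop) fun θ => by
      rw [mem_ball_zero_iff, circ h0]; exact h1
  have h3 := reCLM.intervalIntegral_comp_comm (hc.intervalIntegrable (μ := MeasureTheory.volume)
    0 (2 * Real.pi))
  simp only [reCLM_apply] at h3
  rw [h3, ← h2, smul_re, smul_eq_mul, ← mul_assoc, mul_inv_cancel₀ (by positivity), one_mul]

lemma estimate {ψ : ℂ → ℂ} (hψ : DifferentiableOn ℂ ψ (ball 0 1))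
    (hm : Set.MapsTo ψ (ball (0 : ℂ) 1) (ball (0 : ℂ) 1)) {ω : ℂ} (hω : ‖ω‖ < 1)
    (S : H2 →L[ℂ] H2)
    (hS : ∀ a : H2, ∀ z ∈ ball (0 : ℂ) 1, ∑' n, (S a) n * z ^ n = ∑' n, a n * (ψ z) ^ n)
    {e d : ℝ} (he : 0 < e) (hωe : ‖ω‖ + 2 * e ≤ 1) (hd : 0 < d) (hde : d < e)
    (hδ : ‖S (lp.single 2 1 (1 : ℂ)) - ω • (lp.single 2 0 (1 : ℂ) : H2)‖ ≤ d) :
    ‖S - K ω hω‖ ≤ 7 * √d / e := by
  have hS' : ∀ (a : H2) (z : ℂ) (hz : ‖z‖ < 1), ev z hz (S a) =
      ev (ψ z) (mem_ball_zero_iff.1 (hm (mem_ball_zero_iff.2 hz))) a := fun a z hz => by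
    rw [ev_apply, ev_apply, hS a z (mem_ball_zero_iff.2 hz)]
  set c := S (lp.single 2 1 (1 : ℂ)) - ω • (lp.single 2 0 (1 : ℂ) : H2) with hc
  have hc1 : ∀ (z : ℂ) (hz : ‖z‖ < 1), ∑' n, c n * z ^ n = ψ z - ω := fun z hz => by
    rw [← ev_apply z hz, hc, map_sub, map_smul, hS', ev_single, ev_single]
    simp
  have hψ0 : ‖ψ 0 - ω‖ ≤ d := by
    rw [← hc1 0 (by simp), tsum_eq_single 0 fun m hm => by simp [hm], pow_zero, mul_one]
    exact (lp.norm_apply_le_norm (by norm_num) c 0).trans hδ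
  have hcont : ∀ r : ℝ, 0 < r → r < 1 → Continuous fun θ : ℝ => ψ (r * exp (θ * I)) :=
    fun r h0 h1 => hψ.continuousOn.comp_continuous (by fun_prop) fun θ => by
      rw [mem_ball_zero_iff, circ h0]; exact h1
  have hL1 : ∀ r : ℝ, 0 < r → r < 1 →
      ∫ θ in (0 : ℝ)..(2 * Real.pi), ‖ψ (r * exp (θ * I)) - ω‖ ≤ 2 * Real.pi * d := by
    intro r h0 h1
    have h2 := upper c h0.le h1
    have h3 : ∀ θ : ℝ, ∑' k, c k * (r * exp (θ * I)) ^ k = ψ (r * exp (θ * I)) - ω :=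
      fun θ => hc1 _ (by rw [circ h0]; exact h1)
    simp only [h3] at h2
    have h4 := hcont r h0 h1
    obtain ⟨g, hg⟩ : ∃ g : ℝ → ℂ, ∀ θ : ℝ, ψ (r * exp (θ * I)) = g θ := ⟨_, fun _ => rfl⟩
    simp only [hg] at h2 h4 ⊢
    have h5 : ∫ θ in (0 : ℝ)..(2 * Real.pi), ‖g θ - ω‖ ≤
        ∫ θ in (0 : ℝ)..(2 * Real.pi), ((2 * d)⁻¹ * ‖g θ - ω‖ ^ 2 + d / 2) := by
      refine intervalIntegral.integral_mono_on (by positivity)
        (Continuous.intervalIntegrable (by fun_prop) _ _)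
        (Continuous.intervalIntegrable (by fun_prop) _ _) fun θ _ => ?_
      generalize ‖g θ - ω‖ = x
      have : (2 * d)⁻¹ * x ^ 2 + d / 2 - x = (2 * d)⁻¹ * (x - d) ^ 2 := by field_simp; ring
      have : 0 ≤ (2 * d)⁻¹ * (x - d) ^ 2 := by positivity
      linarith
    rw [intervalIntegral.integral_add (Continuous.intervalIntegrable (by fun_prop) _ _)
      (Continuous.intervalIntegrable (by fun_prop) _ _), intervalIntegral.integral_const_mul,
      intervalIntegral.integral_const, smul_eq_mul] at h5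
    have h6 : (2 * d)⁻¹ * ∫ θ in (0 : ℝ)..(2 * Real.pi), ‖g θ - ω‖ ^ 2
        ≤ (2 * d)⁻¹ * (2 * Real.pi * d ^ 2) := by
      refine mul_le_mul_of_nonneg_left (h2.trans ?_) (by positivity)
      gcongr
    have h7 : (2 * d)⁻¹ * (2 * Real.pi * d ^ 2) = Real.pi * d := by field_simp
    linarith
  refine ContinuousLinearMap.opNorm_le_bound _ (by positivity) fun a => ?_
  rcases eq_or_ne a 0 with rfl | ha
  · simp
  have hA : 0 < ‖a‖ ^ 2 := pow_pos (norm_pos_iff.2 ha) 2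
  have key : ∀ N, ‖(S - K ω hω) (∑ n ∈ range N, lp.single 2 n (a n))‖ ^ 2
      ≤ 48 * ‖a‖ ^ 2 / e ^ 2 * d := by
    intro N
    have hP : ∀ (z : ℂ) (hz : ‖z‖ < 1), ev z hz (∑ n ∈ range N, lp.single 2 n (a n)) = P N a z :=
      fun z hz => by simp only [map_sum, ev_single, P]
    obtain ⟨p1, p2⟩ := pointwise hA (P_diff N a) (G_diff N a)
      (fun w hw => major N (mem_ball_zero_iff.1 hw).le a) (by
        rw [G_zero, Complex.norm_real, Real.norm_of_nonneg (by positivity)]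
        exact sum_le a _) he hωe
    refine lower _ fun r h0 h1 => ?_
    have h3 : ∀ θ : ℝ, ∑' k, ((S - K ω hω) (∑ n ∈ range N, lp.single 2 n (a n))) k
        * (r * exp (θ * I)) ^ k = P N a (ψ (r * exp (θ * I))) - P N a ω := fun θ => by
      rw [← ev_apply _ (by rw [circ h0]; exact h1), ContinuousLinearMap.sub_apply, map_sub, hS', hP,
        K, ContinuousLinearMap.smulRight_apply, map_smul, hP, ev_single]
      simp
    simp only [h3]
    have h4 := hcont r h0 h1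
    have h5 := (P_diff N a).continuous
    have h6 := (G_diff N a).continuous
    have h7 := mean ((G_diff N a).comp_differentiableOn hψ) h0 h1
    simp only [Function.comp_apply] at h7
    have h13 := hL1 r h0 h1
    have h14 : ∀ θ : ℝ, ψ (r * exp (θ * I)) ∈ ball (0 : ℂ) 1 := fun θ =>
      hm (by rw [mem_ball_zero_iff, circ h0]; exact h1)
    obtain ⟨g, hg⟩ : ∃ g : ℝ → ℂ, ∀ θ : ℝ, ψ (r * exp (θ * I)) = g θ := ⟨_, fun _ => rfl⟩
    simp only [hg] at h4 h7 h13 h14 ⊢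
    have h8 : ∫ θ in (0 : ℝ)..(2 * Real.pi), ‖P N a (g θ) - P N a ω‖ ^ 2 ≤
        ∫ θ in (0 : ℝ)..(2 * Real.pi), (2 * ((G N a (g θ)).re - (G N a ω).re)
          + 32 * ‖a‖ ^ 2 / e ^ 2 * ‖g θ - ω‖) :=
      intervalIntegral.integral_mono_on (by positivity)
        (Continuous.intervalIntegrable (by fun_prop) _ _)
        (Continuous.intervalIntegrable (by fun_prop) _ _) fun θ _ => p2 _ (h14 θ)
    rw [intervalIntegral.integral_add (Continuous.intervalIntegrable (by fun_prop) _ _)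
      (Continuous.intervalIntegrable (by fun_prop) _ _), intervalIntegral.integral_const_mul,
      intervalIntegral.integral_const_mul,
      intervalIntegral.integral_sub (Continuous.intervalIntegrable (by fun_prop) _ _)
      (Continuous.intervalIntegrable (by fun_prop) _ _),
      intervalIntegral.integral_const, smul_eq_mul, h7] at h8
    have h9 := (p1 (ψ 0) (by rw [mem_ball, dist_eq_norm]; linarith)).trans
      (mul_le_mul_of_nonneg_left hψ0 (by positivity))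
    have h10 := mul_le_mul_of_nonneg_left h13
      (show 0 ≤ 32 * ‖a‖ ^ 2 / e ^ 2 by positivity)
    have h11 := mul_le_mul_of_nonneg_left h9 (show 0 ≤ 4 * Real.pi by positivity)
    have h12 : 2 * Real.pi * (48 * ‖a‖ ^ 2 / e ^ 2 * d) = 4 * Real.pi * (8 * ‖a‖ ^ 2 / e ^ 2 * d)
        + 32 * ‖a‖ ^ 2 / e ^ 2 * (2 * Real.pi * d) := by ring
    linarith
  have hlim := (((S - K ω hω).continuous.tendsto a).comp
    (lp.hasSum_single (p := 2) (by norm_num) a).tendsto_sum_nat).norm.pow 2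
  have h1 : ‖(S - K ω hω) a‖ ^ 2 ≤ 48 * ‖a‖ ^ 2 / e ^ 2 * d := le_of_tendsto' hlim key
  refine (pow_le_pow_iff_left₀ (norm_nonneg _) (by positivity) two_ne_zero).1 (h1.trans ?_)
  rw [mul_pow, div_pow, mul_pow, Real.sq_sqrt hd.le]
  have : 7 ^ 2 * d / e ^ 2 * ‖a‖ ^ 2 = 49 * ‖a‖ ^ 2 / e ^ 2 * d := by ring
  rw [this]
  gcongr
  norm_num

theorem main (φ : ℂ → ℂ) (ω : ℂ) (hφ : DifferentiableOn ℂ φ (ball (0 : ℂ) 1))
    (hm : Set.MapsTo φ (ball (0 : ℂ) 1) (ball (0 : ℂ) 1)) (hω : ω ∈ ball (0 : ℂ) 1)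
    (T : H2 →L[ℂ] H2)
    (hT : ∀ a : H2, ∀ z ∈ ball (0 : ℂ) 1, ∑' n, (T a) n * z ^ n = ∑' n, a n * (φ z) ^ n)
    (h : Tendsto (fun n : ℕ => ‖(T ^ n) (lp.single 2 1 (1 : ℂ) : H2)
      - ω • (lp.single 2 0 (1 : ℂ) : H2)‖ ^ ((n : ℝ)⁻¹)) atTop (𝓝 0)) :
    Tendsto (fun n : ℕ => (⨅ K : {K : H2 →L[ℂ] H2 // IsCompactOperator (⇑K)},
      ‖T ^ n - K.1‖) ^ ((n : ℝ)⁻¹)) atTop (𝓝 0) := by
  have hω' := mem_ball_zero_iff.1 hω
  have hit : ∀ n : ℕ, DifferentiableOn ℂ φ^[n] (ball (0 : ℂ) 1) ∧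
      ∀ a : H2, ∀ z ∈ ball (0 : ℂ) 1,
        ∑' k, ((T ^ n) a) k * z ^ k = ∑' k, a k * (φ^[n] z) ^ k := by
    intro n
    induction n with
    | zero =>
      refine ⟨differentiableOn_id, fun a z _ => ?_⟩
      rw [pow_zero, ContinuousLinearMap.one_apply, Function.iterate_zero_apply]
    | succ n ih =>
      refine ⟨ih.1.comp hφ hm, fun a z hz => ?_⟩
      rw [pow_succ', ContinuousLinearMap.mul_apply, hT _ z hz, ih.2 a _ (hm hz),
        Function.iterate_succ_apply]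
  set e := (1 - ‖ω‖) / 2 with he'
  have he : 0 < e := by rw [he']; linarith
  have hnn : ∀ n : ℕ, 0 ≤ ⨅ K : {K : H2 →L[ℂ] H2 // IsCompactOperator (⇑K)}, ‖T ^ n - K.1‖ :=
    fun n => Real.iInf_nonneg fun _ => norm_nonneg _
  refine tendsto_order.2 ⟨fun a ha => Eventually.of_forall fun n =>
    ha.trans_le (Real.rpow_nonneg (hnn n) _), fun ε hε => ?_⟩
  obtain ⟨η, h0, h1, h2⟩ : ∃ η : ℝ, 0 < η ∧ η < 1 ∧ η < ε :=
    ⟨min (1 / 2) (ε / 2), by positivity, (min_le_left _ _).trans_lt (by norm_num),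
      (min_le_right _ _).trans_lt (by linarith)⟩
  have t1 := (tendsto_order.1 h).2 ((η / 2) ^ 2) (by positivity)
  have t2 := (tendsto_order.1 (tendsto_pow_atTop_nhds_zero_of_lt_one
    (r := (η / 2) ^ 2) (by positivity) (by nlinarith))).2 e he
  have t3 := (tendsto_pow_atTop_atTop_of_one_lt (r := (2 : ℝ)) one_lt_two).eventually_ge_atTop
    (7 / e)
  filter_upwards [t1, t2, t3, eventually_gt_atTop 0] with n g1 g2 g3 g4
  have g5 := pow_le_pow_left₀ (Real.rpow_nonneg (norm_nonneg _) _) g1.le n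
  rw [Real.rpow_inv_natCast_pow (norm_nonneg _) g4.ne'] at g5
  have g6 := estimate (hit n).1 (hm.iterate n) hω' (T ^ n) (hit n).2 he (by rw [he']; linarith)
    (by positivity) g2 g5
  have g7 : √(((η / 2) ^ 2) ^ n) = (η / 2) ^ n := by
    rw [← pow_mul, mul_comm, pow_mul, Real.sqrt_sq (by positivity)]
  have g8 : 7 * (η / 2) ^ n / e ≤ η ^ n := by
    have : 7 * (η / 2) ^ n / e = η ^ n * (7 / e / 2 ^ n) := by rw [div_pow]; ring
    rw [this]
    exact mul_le_of_le_one_right (by positivity) ((div_le_one (by positivity)).2 g3)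
  rw [g7] at g6
  have g9 : (⨅ K : {K : H2 →L[ℂ] H2 // IsCompactOperator (⇑K)}, ‖T ^ n - K.1‖) ≤ η ^ n :=
    ciInf_le_of_le ⟨0, by rintro _ ⟨_, rfl⟩; exact norm_nonneg _⟩
      (⟨K ω hω', K_compact ω hω'⟩ : {K : H2 →L[ℂ] H2 // IsCompactOperator (⇑K)}) (g6.trans g8)
  refine lt_of_le_of_lt ?_ h2
  refine (Real.rpow_le_rpow (hnn n) g9 (by positivity)).trans_eq ?_
  exact Real.pow_rpow_inv_natCast h0.le g4.ne'

end Pool.Agent.H21.Comp
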