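import Mathlib

namespace Pool.Agent.H21.Compl

variable {N : ℕ}

/-- `A` is a completion of the `G`-partial matrix `M`; `E` is the set of edges and loops. -/
def IsCompl (E : Finset (Sym2 (Fin N))) (M : E → ℝ) (A : Matrix (Fin N) (Fin N) ℝ) : Prop :=
  A.IsSymm ∧ ∀ (i j : Fin N) (h : s(i, j) ∈ E), A i j = M ⟨s(i, j), h⟩

/-- `M` is minimally completable to rank `r`. -/
def MinCompl (E : Finset (Sym2 (Fin N))) (M : E → ℝ) (r : ℕ) : Prop :=
  IsLeast {k | ∃ A, IsCompl E M A ∧ A.rank = k} r

/-- `N` is a typical rank of `G = ([N], E)`. -/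
def FullRankTypical (E : Finset (Sym2 (Fin N))) : Prop :=
  ∃ U : Set (E → ℝ), IsOpen U ∧ U.Nonempty ∧ ∀ M ∈ U, MinCompl E M N

/-- Every completion of `M` has exactly `m` positive and `n` negative eigenvalues. -/
def HasInertia (E : Finset (Sym2 (Fin N))) (M : E → ℝ) (m n : ℕ) : Prop :=
  ∀ A, IsCompl E M A → ∀ hA : A.IsHermitian,
    (Finset.univ.filter fun i => 0 < hA.eigenvalues i).card = m ∧
      (Finset.univ.filter fun i => hA.eigenvalues i < 0).card = n

/-- The complement of `G` has a proper bicoloring with `m` red (`true`) and `n` blue vertices. -/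
def Bicol (E : Finset (Sym2 (Fin N))) (m n : ℕ) : Prop :=
  ∃ c : Fin N → Bool, (∀ i j, s(i, j) ∉ E → c i ≠ c j) ∧
    (Finset.univ.filter fun i => c i = true).card = m ∧
      (Finset.univ.filter fun i => c i = false).card = n

end Pool.Agent.H21.Compl
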