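import Mathlib

set_option autoImplicit false

namespace Pool.Agent.H21.DSeq

open Filter TopologicalSpace

def IsD (b : ℕ → ℕ) : Prop := b 0 = 1 ∧ ∀ n, 0 < b n ∧ b n ∣ b (n + 1) ∧ b n ≠ b (n + 1)

def IsDinf (c : ℕ → ℕ) : Prop := IsD c ∧ Tendsto (fun n => (c (n + 1) : ℝ) / c n) atTop atTop

/-- the linear topology with neighbourhood base `b n ℤ` -/
@[reducible] def lam (b : ℕ → ℕ) : TopologicalSpace ℤ :=
  ⨅ n, induced (Int.cast : ℤ → ZMod (b n)) ⊥

/-- uniform convergence on `{1 / c n : n ≥ 1}` -/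
@[reducible] noncomputable def tau (c : ℕ → ℕ) : TopologicalSpace ℤ :=
  induced (fun k : ℤ => UniformFun.ofFun fun n : ℕ => (((k : ℝ) / c (n + 1) : ℝ) : UnitAddCircle))
    inferInstance

/-- the supremum `s_b` (the coarsest topology finer than all the `tau c`) -/
@[reducible] noncomputable def sTop (b : ℕ → ℕ) : TopologicalSpace ℤ :=
  ⨅ (c : ℕ → ℕ) (_ : IsDinf c) (_ : lam c = lam b), tau c

end Pool.Agent.H21.DSeq
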