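import Mathlib

set_option autoImplicit false
set_option linter.unusedSectionVars false

open Matrix
open scoped ComplexOrder

namespace Pool.Agent.H21.Dbl

variable {ι κ : Type} [Fintype ι] [DecidableEq ι] [Fintype κ] [DecidableEq κ]

noncomputable def D (U : Matrix ι ι ℂ) (x : ι → ℝ) : Matrix ι ι ℂ :=
  U * diagonal (fun i => (x i : ℂ)) * star U

def Hyp (a b s : ι → ℝ) : Prop :=
  ∃ U ∈ unitaryGroup ι ℂ, ∃ V ∈ unitaryGroup ι ℂ, ∃ W ∈ unitaryGroup ι ℂ, D U a + D V b = D W s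

lemma us {U : Matrix ι ι ℂ} (h : U ∈ unitaryGroup ι ℂ) : star U * U = 1 := h.1
lemma su {U : Matrix ι ι ℂ} (h : U ∈ unitaryGroup ι ℂ) : U * star U = 1 := h.2

lemma D_mul (Q U : Matrix ι ι ℂ) (x : ι → ℝ) : D (Q * U) x = Q * D U x * star Q := by
  simp only [D, star_mul, Matrix.mul_assoc]

lemma D_one (x : ι → ℝ) : D 1 x = diagonal (fun i => (x i : ℂ)) := by simp [D]

lemma D_herm (U : Matrix ι ι ℂ) (x : ι → ℝ) : star (D U x) = D U x := by
  simp only [D, star_mul, star_star, Matrix.mul_assoc]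
  congr 2
  rw [star_eq_conjTranspose, diagonal_conjTranspose]
  congr 1; ext i; simp

lemma D_apply (U : Matrix ι ι ℂ) (x : ι → ℝ) (i j : ι) :
    D U x i j = ∑ k, U i k * x k * star (U j k) := by
  simp [D, mul_apply, diagonal_apply]

lemma D_psd (U : Matrix ι ι ℂ) {x : ι → ℝ} (h : ∀ i, 0 ≤ x i) : (D U x).PosSemidef :=
  (PosSemidef.diagonal fun i => by simpa using h i).mul_mul_conjTranspose_same U

lemma D_sub (U : Matrix ι ι ℂ) (x y : ι → ℝ) : D U x - D U y = D U (fun i => x i - y i) := by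
  ext i j; simp only [Matrix.sub_apply, D_apply, ← Finset.sum_sub_distrib]
  exact Finset.sum_congr rfl fun k _ => by push_cast; ring

lemma D_aff {U : Matrix ι ι ℂ} (h : U ∈ unitaryGroup ι ℂ) (x : ι → ℝ) (c m : ℝ) :
    D U (fun i => c + m * x i) = (c : ℂ) • (1 : Matrix ι ι ℂ) + (m : ℂ) • D U x := by
  rw [← su h]
  ext i j
  simp only [Matrix.add_apply, Matrix.smul_apply, D_apply, mul_apply, smul_eq_mul, Finset.mul_sum,
    ← Finset.sum_add_distrib, star_apply]
  exact Finset.sum_congr rfl fun k _ => by push_cast; ring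

lemma D_trace {U : Matrix ι ι ℂ} (h : U ∈ unitaryGroup ι ℂ) (x : ι → ℝ) :
    (D U x).trace = ((∑ i, x i : ℝ) : ℂ) := by
  rw [D, trace_mul_comm, ← Matrix.mul_assoc, us h, Matrix.one_mul, trace_diagonal]; simp

lemma spec {A : Matrix ι ι ℂ} (h : star A = A) : ∃ U ∈ unitaryGroup ι ℂ, ∃ x, A = D U x := by
  have hA : A.IsHermitian := h
  exact ⟨hA.eigenvectorUnitary, hA.eigenvectorUnitary.2, hA.eigenvalues, hA.spectral_theorem⟩

lemma D_sub_eq (U : Matrix ι ι ℂ) (x : ι → ℝ) (e f : κ ≃ ι) :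
    D (U.submatrix e f) (x ∘ f) = (D U x).submatrix e e := by
  ext i j
  simp only [D_apply, submatrix_apply, Function.comp]
  exact f.sum_comp (fun k => U (e i) k * x k * star (U (e j) k))

lemma un_sub {U : Matrix ι ι ℂ} (h : U ∈ unitaryGroup ι ℂ) (e f : κ ≃ ι) :
    U.submatrix e f ∈ unitaryGroup κ ℂ := by
  rw [mem_unitaryGroup_iff] at h ⊢
  rw [star_eq_conjTranspose, conjTranspose_submatrix, submatrix_mul_equiv, ← star_eq_conjTranspose,
    h, submatrix_one_equiv]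

lemma Hyp.comp {a b s : ι → ℝ} (h : Hyp a b s) (e f g : κ ≃ ι) : Hyp (a ∘ e) (b ∘ f) (s ∘ g) := by
  obtain ⟨U, hU, V, hV, W, hW, h⟩ := h
  refine ⟨_, un_sub hU e e, _, un_sub hV e f, _, un_sub hW e g, ?_⟩
  rw [D_sub_eq, D_sub_eq, D_sub_eq, ← h]; rfl

lemma D_charpoly {U : Matrix ι ι ℂ} (h : U ∈ unitaryGroup ι ℂ) (x : ι → ℝ) :
    (D U x).charpoly.roots = Finset.univ.val.map fun i => (x i : ℂ) := by
  rw [D, charpoly_mul_comm, ← Matrix.mul_assoc, us h, Matrix.one_mul, charpoly_diagonal,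
    ← Polynomial.roots_multiset_prod_X_sub_C (Finset.univ.val.map fun i => (x i : ℂ)),
    Multiset.map_map]
  rfl

lemma perm {U : Matrix ι ι ℂ} {V : Matrix κ κ ℂ} (hU : U ∈ unitaryGroup ι ℂ)
    (hV : V ∈ unitaryGroup κ ℂ) {x : ι → ℝ} {y : κ → ℝ} (e : κ ≃ ι)
    (h : (D U x).submatrix e e = D V y) : ∃ f : κ ≃ ι, y = x ∘ f := by
  rw [← D_sub_eq U x e e] at h
  have h1 := D_charpoly (un_sub hU e e) (x ∘ e)
  rw [h, D_charpoly hV] at h1
  have h2 : ∀ c : ℝ, Fintype.card {k // y k = c} = Fintype.card {k // (x ∘ e) k = c} := by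
    intro c
    have := congrArg (Multiset.count (c : ℂ)) h1
    simp only [Multiset.count_map, Complex.ofReal_inj] at this
    simp only [Fintype.card_subtype, Finset.card_def, Finset.filter_val, eq_comm (b := c)]
    exact this
  refine ⟨(Equiv.ofFiberEquiv fun c => Fintype.equivOfCardEq (h2 c)).trans e, funext fun k => ?_⟩
  exact (Equiv.ofFiberEquiv_map (fun c => Fintype.equivOfCardEq (h2 c)) k).symm

lemma D_blocks (U : Matrix ι ι ℂ) (V : Matrix κ κ ℂ) (x : ι → ℝ) (y : κ → ℝ) :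
    D (fromBlocks U 0 0 V) (Sum.elim x y) = fromBlocks (D U x) 0 0 (D V y) := by
  ext (i | i) (j | j) <;> simp [D_apply]

lemma un_blocks {U : Matrix ι ι ℂ} {V : Matrix κ κ ℂ} (hU : U ∈ unitaryGroup ι ℂ)
    (hV : V ∈ unitaryGroup κ ℂ) : fromBlocks U 0 0 V ∈ unitaryGroup (ι ⊕ κ) ℂ := by
  rw [mem_unitaryGroup_iff] at hU hV ⊢
  rw [star_eq_conjTranspose] at *
  simp [fromBlocks_conjTranspose, fromBlocks_multiply, hU, hV]

lemma Hyp.sum {a b s : ι → ℝ} {a' b' s' : κ → ℝ} (h : Hyp a b s) (h' : Hyp a' b' s') :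
    Hyp (Sum.elim a a') (Sum.elim b b') (Sum.elim s s') := by
  obtain ⟨U, hU, V, hV, W, hW, h⟩ := h
  obtain ⟨U', hU', V', hV', W', hW', h'⟩ := h'
  refine ⟨_, un_blocks hU hU', _, un_blocks hV hV', _, un_blocks hW hW', ?_⟩
  rw [D_blocks, D_blocks, D_blocks, fromBlocks_add, h, h']; simp

lemma Hyp.one {a b s : ι → ℝ} (h : Hyp a b s) :
    ∃ U ∈ unitaryGroup ι ℂ, ∃ V ∈ unitaryGroup ι ℂ, D U a + D V b = D 1 s := by
  obtain ⟨U, hU, V, hV, W, hW, h⟩ := h
  refine ⟨star W * U, mul_mem (Unitary.star_mem hW) hU, star W * V, mul_mem (Unitary.star_mem hW) hV, ?_⟩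
  rw [← us hW, D_mul, D_mul, D_mul, ← h, Matrix.mul_add, Matrix.add_mul]

lemma compactU : IsCompact (unitaryGroup ι ℂ : Set (Matrix ι ι ℂ)) := by
  have h1 : IsCompact (X := Matrix ι ι ℂ) (Set.pi Set.univ fun _ => Set.pi Set.univ fun _ =>
    Metric.closedBall (0:ℂ) 1) := isCompact_univ_pi fun _ => isCompact_univ_pi fun _ =>
      isCompact_closedBall _ _
  refine h1.of_isClosed_subset (isClosed_unitary (R := Matrix ι ι ℂ)) fun U hU i _ j _ => ?_
  simpa using entry_norm_bound_of_unitary hU i j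

section
open scoped Matrix.Norms.L2Operator
open NormedSpace

lemma first (A C : Matrix ι ι ℂ) (hA : star A = A) (hC : star C = C)
    (h : ∀ Q ∈ unitaryGroup ι ℂ, (A * C).trace.re ≤ (Q * A * star Q * C).trace.re) :
    A * C = C * A := by
  set K := C * A - A * C with hK
  have hKs : star K = -K := by simp [hK, hA, hC]
  have h1 : HasDerivAt (fun t : ℝ => exp (t • K) * A * exp (t • (-K)) * C)
      ((K * A - A * K) * C) 0 := by
    have := (((hasDerivAt_exp_smul_const K (0:ℝ)).mul_const A).mul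
      (hasDerivAt_exp_smul_const (-K) (0:ℝ))).mul_const C
    simp only [zero_smul, exp_zero, one_mul, mul_one, mul_neg, ← sub_eq_add_neg] at this
    exact this
  let T : Matrix ι ι ℂ →L[ℝ] ℝ :=
    LinearMap.toContinuousLinearMap (Complex.reLm ∘ₗ traceLinearMap ι ℝ ℂ)
  have h2 := T.hasFDerivAt.comp_hasDerivAt (0:ℝ) h1
  have h3 : IsLocalMin (T ∘ fun t : ℝ => exp (t • K) * A * exp (t • (-K)) * C) 0 := by
    refine Filter.Eventually.of_forall fun t => ?_
    have hs : t • K ∈ skewAdjoint (Matrix ι ι ℂ) := by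
      rw [skewAdjoint.mem_iff, star_smul, hKs]; simp
    letI : NormedAlgebra ℚ (Matrix ι ι ℂ) := .restrictScalars ℚ ℂ _
    have := h _ (exp_mem_unitary_of_mem_skewAdjoint hs)
    rw [star_exp, star_smul, hKs, star_trivial] at this
    simp only [Function.comp, zero_smul, exp_zero, one_mul, mul_one]
    exact this
  have h4 := h3.hasDerivAt_eq_zero h2
  have h5 : ((K * A - A * K) * C).trace = (Kᴴ * K).trace := by
    rw [← star_eq_conjTranspose, hKs, Matrix.sub_mul, trace_sub, Matrix.mul_assoc A,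
      trace_mul_comm A, Matrix.mul_assoc K, Matrix.mul_assoc K, ← trace_sub, ← Matrix.mul_sub,
      Matrix.neg_mul, ← Matrix.mul_neg, hK, neg_sub]
  have h6 : (Kᴴ * K).trace = 0 := by
    have h7 := (posSemidef_conjTranspose_mul_self K).trace_nonneg
    have h8 : (Kᴴ * K).trace.re = 0 := by rw [← h5]; exact h4
    exact Complex.ext h8 (Complex.nonneg_iff.mp h7).2.symm
  rw [trace_conjTranspose_mul_self_eq_zero_iff, hK, sub_eq_zero] at h6
  exact h6.symm

end

end Pool.Agent.H21.Dbl
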