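import Mathlib
import Pool.Agent.H21.Dbl1

set_option autoImplicit false
set_option linter.unusedSectionVars false

open Matrix
open scoped ComplexOrder

namespace Pool.Agent.H21.Dbl

variable {ι κ : Type} [Fintype ι] [DecidableEq ι] [Fintype κ] [DecidableEq κ]

lemma D_diag (U : Matrix ι ι ℂ) (x : ι → ℝ) (j : ι) :
    D U x j j = ((∑ k, x k * ‖U j k‖ ^ 2 : ℝ) : ℂ) := by
  rw [D_apply]; push_cast
  refine Finset.sum_congr rfl fun k _ => ?_
  rw [← Complex.mul_conj', RCLike.star_def]; ring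

lemma rot1 {U B : Matrix ι ι ℂ} (hU : U ∈ unitaryGroup ι ℂ) {a s : ι → ℝ} (ha : ∀ i, 0 ≤ a i)
    (hB : B.PosSemidef) (h : D U a + B = D 1 s) {t : ℝ} (ht : 0 ≤ t) (i : ι) :
    max (a i - t) 0 ≤ ∑ j, a i * ‖U j i‖ ^ 2 / s j * max (s j - t) 0 := by
  have hP : (D 1 s - D U (Pi.single i (a i))).PosSemidef := by
    rw [← h, add_sub_right_comm, D_sub]
    refine (D_psd U fun k => ?_).add hB
    by_cases hk : k = i
    · simp [hk]
    · simp [hk, ha]
  have h1 : ∀ j, a i * ‖U j i‖ ^ 2 ≤ s j := by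
    intro j
    have := hP.diag_nonneg (i := j)
    rw [Matrix.sub_apply, D_diag U, D_one, diagonal_apply_eq, ← Complex.ofReal_sub,
      Complex.zero_le_real] at this
    simpa [Pi.single_apply] using this
  have h0 : ∀ j, 0 ≤ a i * ‖U j i‖ ^ 2 := fun j => mul_nonneg (ha i) (sq_nonneg _)
  have hs : ∀ j, 0 ≤ s j := fun j => (h0 j).trans (h1 j)
  have h2 : ∑ j, a i * ‖U j i‖ ^ 2 / s j * s j = a i := by
    have e : ∑ j, ‖U j i‖ ^ 2 = 1 := by
      have := congrFun (congrFun (us hU) i) i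
      simp only [mul_apply, star_apply, one_apply_eq, RCLike.star_def, Complex.conj_mul'] at this
      exact_mod_cast this
    conv_rhs => rw [← mul_one (a i), ← e, Finset.mul_sum]
    refine Finset.sum_congr rfl fun j _ => ?_
    by_cases hj : s j = 0
    · rw [hj, mul_zero]; linarith [h0 j, h1 j]
    · field_simp
  have h3 : ∑ j, a i * ‖U j i‖ ^ 2 / s j ≤ 1 := by
    set β := ∑ j, ‖U j i‖ ^ 2 / s j with hβ
    have hβ0 : 0 ≤ β := Finset.sum_nonneg fun j _ => div_nonneg (sq_nonneg _) (hs j)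
    have := hP.dotProduct_mulVec_nonneg fun j => U j i / s j
    have e1 : star (fun j => U j i / s j) ⬝ᵥ D 1 s *ᵥ (fun j => U j i / s j) = β := by
      rw [D_one, hβ]
      simp only [dotProduct, mulVec_diagonal, Pi.star_apply]
      push_cast
      refine Finset.sum_congr rfl fun j _ => ?_
      rw [← Complex.conj_mul']
      by_cases hj : (s j : ℂ) = 0
      · simp [hj]
      · simp only [RCLike.star_def, map_div₀, Complex.conj_ofReal]; field_simp
    have e2 : star (fun j => U j i / s j) ⬝ᵥ D U (Pi.single i (a i)) *ᵥ (fun j => U j i / s j) =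
        a i * β * β := by
      have e3 : (β : ℂ) = ∑ j, star (U j i) * U j i / s j := by
        rw [hβ]; push_cast
        exact Finset.sum_congr rfl fun j _ => by rw [← Complex.conj_mul', RCLike.star_def]
      rw [e3, mul_assoc, Finset.sum_mul_sum]
      simp only [dotProduct, mulVec, Pi.star_apply, D_apply, Finset.mul_sum]
      refine Finset.sum_congr rfl fun j _ => Finset.sum_congr rfl fun k _ => ?_
      rw [Finset.sum_eq_single i (by intro l _ hl; simp [hl]) (by simp)]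
      simp only [RCLike.star_def, map_div₀, Complex.conj_ofReal, Pi.single_eq_same]; ring
    rw [sub_mulVec, dotProduct_sub, e1, e2] at this
    have h4 : 0 ≤ β - a i * β * β := by exact_mod_cast this
    have : ∑ j, a i * ‖U j i‖ ^ 2 / s j = a i * β := by
      rw [hβ, Finset.mul_sum]; simp only [mul_div_assoc]
    rw [this]
    rcases hβ0.eq_or_lt with h5 | h5
    · rw [← h5]; simp
    · nlinarith
  refine max_le ?_ (Finset.sum_nonneg fun j _ =>
    mul_nonneg (div_nonneg (h0 j) (hs j)) (le_max_right _ _))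
  calc a i - t ≤ ∑ j, a i * ‖U j i‖ ^ 2 / s j * (s j - t) := by
        simp only [mul_sub, Finset.sum_sub_distrib, h2, ← Finset.sum_mul]; nlinarith
    _ ≤ _ := Finset.sum_le_sum fun j _ =>
        mul_le_mul_of_nonneg_left (le_max_left _ _) (div_nonneg (h0 j) (hs j))

lemma Hyp.trace {a b s : ι → ℝ} (h : Hyp a b s) : ∑ i, a i + ∑ i, b i = ∑ i, s i := by
  obtain ⟨U, hU, V, hV, W, hW, h⟩ := h
  have := congrArg Matrix.trace h
  rw [trace_add, D_trace hU, D_trace hV, D_trace hW] at this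
  exact_mod_cast this

lemma Hyp.rot {a b s : ι → ℝ} (h : Hyp a b s) (ha : ∀ i, 0 ≤ a i) (hb : ∀ i, 0 ≤ b i) {t : ℝ}
    (ht : 0 ≤ t) : ∑ i, max (a i - t) 0 + ∑ i, max (b i - t) 0 ≤ ∑ i, max (s i - t) 0 := by
  obtain ⟨U, hU, V, hV, h⟩ := h.one
  have h1 := Finset.sum_le_sum fun i (_ : i ∈ Finset.univ) => rot1 hU ha (D_psd V hb) h ht i
  have h2 := Finset.sum_le_sum fun i (_ : i ∈ Finset.univ) =>
    rot1 hV hb (D_psd U ha) ((add_comm _ _).trans h) ht i
  rw [Finset.sum_comm] at h1 h2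
  refine (add_le_add h1 h2).trans ?_
  rw [← Finset.sum_add_distrib]
  refine Finset.sum_le_sum fun j _ => ?_
  have := congrFun (congrFun h j) j
  rw [Matrix.add_apply, D_diag, D_diag, D_one, diagonal_apply_eq] at this
  have h3 : ∑ k, a k * ‖U j k‖ ^ 2 + ∑ k, b k * ‖V j k‖ ^ 2 = s j := by exact_mod_cast this
  rw [← Finset.sum_mul, ← Finset.sum_mul, ← add_mul, ← Finset.sum_div, ← Finset.sum_div, ← add_div,
    h3]
  exact mul_le_of_le_one_left (le_max_right _ _) (div_self_le_one _)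

lemma blk {U : Matrix ι ι ℂ} (hU : U ∈ unitaryGroup ι ℂ) (a ρ : ι → ℝ) (r : ℝ)
    (h : D U a * D 1 ρ = D 1 ρ * D U a) :
    ∃ U1 ∈ unitaryGroup {i // ρ i = r} ℂ, ∃ U2 ∈ unitaryGroup {i // ¬ ρ i = r} ℂ, ∃ a1 a2,
      (D U a).submatrix (↑) (↑) = D U1 a1 ∧ (D U a).submatrix (↑) (↑) = D U2 a2 ∧
      ∃ e : {i // ρ i = r} ⊕ {i // ¬ ρ i = r} ≃ ι, Sum.elim a1 a2 = a ∘ e := by
  have hh : (D U a).IsHermitian := D_herm U a
  obtain ⟨U1, h1, a1, e1⟩ := spec (A := (D U a).submatrix ((↑) : {i // ρ i = r} → ι) (↑))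
    (hh.submatrix _)
  obtain ⟨U2, h2, a2, e2⟩ := spec (A := (D U a).submatrix ((↑) : {i // ¬ ρ i = r} → ι) (↑))
    (hh.submatrix _)
  refine ⟨U1, h1, U2, h2, a1, a2, e1, e2, perm hU (un_blocks h1 h2) (Equiv.sumCompl _) ?_⟩
  have z : ∀ i j, ρ i ≠ ρ j → D U a i j = 0 := by
    intro i j hij
    have := congrFun (congrFun h i) j
    rw [D_one, mul_diagonal, diagonal_mul, mul_comm, ← sub_eq_zero, ← sub_mul] at this
    refine (mul_eq_zero.mp this).resolve_left ?_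
    rw [sub_eq_zero]; exact_mod_cast hij.symm
  rw [D_blocks, ← e1, ← e2]
  ext (i | i) (j | j)
  · rfl
  · exact z _ _ fun h => j.2 (h.symm.trans i.2)
  · exact z _ _ fun h => i.2 (h.trans j.2)
  · rfl

lemma red {U V W R : Matrix ι ι ℂ} (hU : U ∈ unitaryGroup ι ℂ) (hV : V ∈ unitaryGroup ι ℂ)
    (hW : W ∈ unitaryGroup ι ℂ) {a b s : ι → ℝ} (h : D U a + D V b = D W s) (hR : star R = R)
    (h0 : R ≠ 0) (ht : R.trace = 0) (ha : D U a * R = R * D U a) (hb : D V b * R = R * D V b) :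
    ∃ (ρ : ι → ℝ) (r : ℝ), (∃ i, ρ i = r) ∧ (∃ i, ¬ ρ i = r) ∧
      ∃ (a1 b1 s1 : {i // ρ i = r} → ℝ) (a2 b2 s2 : {i // ¬ ρ i = r} → ℝ),
        Hyp a1 b1 s1 ∧ Hyp a2 b2 s2 ∧ ∃ e f g : {i // ρ i = r} ⊕ {i // ¬ ρ i = r} ≃ ι,
          Sum.elim a1 a2 = a ∘ e ∧ Sum.elim b1 b2 = b ∘ f ∧ Sum.elim s1 s2 = s ∘ g := by
  obtain ⟨Q, hQ, ρ, rfl⟩ := spec hR
  obtain ⟨i0, hi0⟩ : ∃ i, ρ i ≠ 0 := by
    by_contra hn
    push Not at hn
    apply h0
    ext i j; simp [D_apply, hn]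
  have c : ∀ (U : Matrix ι ι ℂ) (a : ι → ℝ), D U a * D Q ρ = D Q ρ * D U a →
      D (star Q * U) a * D 1 ρ = D 1 ρ * D (star Q * U) a := by
    intro U a h
    rw [← us hQ, D_mul, D_mul, star_star]
    have e : ∀ X Y : Matrix ι ι ℂ, star Q * X * Q * (star Q * Y * Q) = star Q * (X * Y) * Q := by
      intro X Y
      calc _ = star Q * X * (Q * star Q) * Y * Q := by simp only [Matrix.mul_assoc]
        _ = _ := by rw [su hQ]; simp only [Matrix.mul_assoc, Matrix.mul_one]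
    rw [e, e, h]
  have hQ' := Unitary.star_mem hQ
  obtain ⟨U1, u1, U2, u2, a1, a2, ea1, ea2, e, he⟩ := blk (mul_mem hQ' hU) a ρ (ρ i0) (c U a ha)
  obtain ⟨V1, v1, V2, v2, b1, b2, eb1, eb2, f, hf⟩ := blk (mul_mem hQ' hV) b ρ (ρ i0) (c V b hb)
  obtain ⟨W1, w1, W2, w2, s1, s2, es1, es2, g, hg⟩ := blk (mul_mem hQ' hW) s ρ (ρ i0)
    (c W s (by rw [← h, Matrix.add_mul, Matrix.mul_add, ha, hb]))
  have h' : D (star Q * U) a + D (star Q * V) b = D (star Q * W) s := by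
    rw [D_mul, D_mul, D_mul, ← h, Matrix.mul_add, Matrix.add_mul]
  refine ⟨ρ, ρ i0, ⟨i0, rfl⟩, ?_, a1, b1, s1, a2, b2, s2, ⟨U1, u1, V1, v1, W1, w1, ?_⟩,
    ⟨U2, u2, V2, v2, W2, w2, ?_⟩, e, f, g, he, hf, hg⟩
  · by_contra hn
    push Not at hn
    rw [D_trace hQ, Finset.sum_congr rfl fun i _ => hn i] at ht
    haveI : Nonempty ι := ⟨i0⟩
    simp [hi0] at ht
  · rw [← ea1, ← eb1, ← es1, ← h']; rfl
  · rw [← ea2, ← eb2, ← es2, ← h']; rfl

end Pool.Agent.H21.Dbl
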