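import Mathlib
import Pool.Agent.H21.Dbl2

set_option autoImplicit false
set_option linter.unusedSectionVars false

open Matrix Filter Topology
open scoped ComplexOrder

namespace Pool.Agent.H21.Dbl

variable {ι κ : Type} [Fintype ι] [DecidableEq ι] [Fintype κ] [DecidableEq κ]

noncomputable def fr (M : Matrix ι ι ℂ) : ℝ := (star M * M).trace.re

lemma fr_cont : Continuous (fr : Matrix ι ι ℂ → ℝ) := by unfold fr; fun_prop

lemma fr_zero {M : Matrix ι ι ℂ} (h : fr M ≤ 0) : M = 0 := by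
  have h7 := Complex.nonneg_iff.mp (posSemidef_conjTranspose_mul_self M).trace_nonneg
  rw [← trace_conjTranspose_mul_self_eq_zero_iff]
  exact Complex.ext (le_antisymm h h7.1) h7.2.symm

lemma D_cont : Continuous fun p : Matrix ι ι ℂ × (ι → ℝ) => D p.1 p.2 := by unfold D; fun_prop

lemma D_tend {α : Type} {l : Filter α} {U : α → Matrix ι ι ℂ} {x : α → ι → ℝ} {U0 : Matrix ι ι ℂ}
    {x0 : ι → ℝ} (h1 : Tendsto U l (𝓝 U0)) (h2 : Tendsto x l (𝓝 x0)) :
    Tendsto (fun c => D (U c) (x c)) l (𝓝 (D U0 x0)) := by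
  have := (D_cont.tendsto (U0, x0)).comp (h1.prodMk_nhds h2)
  simpa only [Function.comp_def] using this

lemma comm_of_min {A C : Matrix ι ι ℂ} (hA : star A = A) (hC : star C = C)
    (h : ∀ Q ∈ unitaryGroup ι ℂ, fr (A + C) ≤ fr (Q * A * star Q + C)) :
    A * (A + C) = (A + C) * A := by
  have e : ∀ Q ∈ unitaryGroup ι ℂ, fr (Q * A * star Q + C) =
      (A * A).trace.re + 2 * (Q * A * star Q * C).trace.re + (C * C).trace.re := by
    intro Q hQ
    have e1 : star (Q * A * star Q) = Q * A * star Q := by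
      simp only [star_mul, star_star, hA, Matrix.mul_assoc]
    have e2 : (Q * A * star Q * (Q * A * star Q)).trace = (A * A).trace := by
      calc _ = (Q * (A * (star Q * Q) * A * star Q)).trace := by simp only [Matrix.mul_assoc]
        _ = _ := by
          rw [trace_mul_comm, us hQ, Matrix.mul_assoc _ (star Q), us hQ, Matrix.mul_one,
            Matrix.mul_one]
    rw [fr, star_add, e1, hC, Matrix.add_mul, Matrix.mul_add, Matrix.mul_add, trace_add, trace_add,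
      trace_add, e2, trace_mul_comm C (Q * A * star Q)]
    simp only [Complex.add_re]; ring
  rw [Matrix.mul_add, Matrix.add_mul, first A C hA hC fun Q hQ => ?_]
  have h1 := h Q hQ
  have h2 := e 1 (one_mem _)
  simp only [star_one, Matrix.one_mul, Matrix.mul_one] at h2
  rw [e Q hQ, h2] at h1
  linarith

lemma minim (α x σ : ι → ℝ) : ∃ U ∈ unitaryGroup ι ℂ, ∃ V ∈ unitaryGroup ι ℂ,
    (∀ U' ∈ unitaryGroup ι ℂ, ∀ V' ∈ unitaryGroup ι ℂ,
      fr (D U α + D V x - D 1 σ) ≤ fr (D U' α + D V' x - D 1 σ)) ∧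
    D U α * (D U α + D V x - D 1 σ) = (D U α + D V x - D 1 σ) * D U α ∧
    D V x * (D U α + D V x - D 1 σ) = (D U α + D V x - D 1 σ) * D V x := by
  obtain ⟨⟨U, V⟩, ⟨hU, hV⟩, h⟩ := ((compactU (ι := ι)).prod (compactU (ι := ι))).exists_isMinOn
    ⟨(1, 1), one_mem _, one_mem _⟩ (f := fun p => fr (D p.1 α + D p.2 x - D 1 σ))
    (by unfold fr D; fun_prop)
  have h' : ∀ U' ∈ unitaryGroup ι ℂ, ∀ V' ∈ unitaryGroup ι ℂ,
      fr (D U α + D V x - D 1 σ) ≤ fr (D U' α + D V' x - D 1 σ) :=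
    fun U' hU' V' hV' => h (a := (U', V')) ⟨hU', hV'⟩
  refine ⟨U, hU, V, hV, h', ?_, ?_⟩
  · rw [add_sub_assoc]
    refine comm_of_min (D_herm _ _) (by rw [star_sub, D_herm, D_herm]) fun Q hQ => ?_
    rw [← D_mul, ← add_sub_assoc, ← add_sub_assoc]
    exact h' _ (mul_mem hQ hU) _ hV
  · rw [add_comm, add_sub_assoc]
    refine comm_of_min (D_herm _ _) (by rw [star_sub, D_herm, D_herm]) fun Q hQ => ?_
    rw [← D_mul, ← add_sub_assoc, ← add_sub_assoc, add_comm, add_comm (D (Q * V) x)]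
    exact h' _ hU _ (mul_mem hQ hV)

noncomputable def hk (t c x : ℝ) : ℝ := x - c * max (x - t) 0

def P (h : ℝ → ℝ) (a b s : ι → ℝ) : Prop :=
  ∃ x : ι → ℝ, (∀ i, 0 ≤ x i ∧ x i ≤ h (b i)) ∧ Hyp (h ∘ a) x (h ∘ s)

lemma hk_nonneg {t c x : ℝ} (ht : 0 ≤ t) (hc : c ≤ 1) (hx : 0 ≤ x) : 0 ≤ hk t c x := by
  unfold hk
  rcases le_total (x - t) 0 with h | h
  · rw [max_eq_right h]; linarith
  · rw [max_eq_left h]; nlinarith

lemma irr {t : ℝ} (ht : 0 ≤ t) {a b s : ι → ℝ} (ha : ∀ i, 0 ≤ a i) (hb : ∀ i, 0 ≤ b i)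
    (h : Hyp a b s) (hb0 : 0 < ∑ i, b i) (hn : ¬ ∀ᶠ c in 𝓝[>] (0:ℝ), P (hk t c) a b s) :
    ∃ U ∈ unitaryGroup ι ℂ, ∃ V ∈ unitaryGroup ι ℂ, ∃ R : Matrix ι ι ℂ, D U a + D V b = D 1 s ∧
      star R = R ∧ R ≠ 0 ∧ R.trace = 0 ∧ D U a * R = R * D U a ∧ D V b * R = R * D V b := by
  haveI := frequently_iff_neBot.mp (not_eventually.mp hn)
  set F := Ultrafilter.of (𝓝[>] (0:ℝ) ⊓ 𝓟 {c | ¬ P (hk t c) a b s})
  have hF : (F : Filter ℝ) ≤ 𝓝[>] 0 := (Ultrafilter.of_le _).trans inf_le_left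
  have hF2 : ∀ᶠ c in (F : Filter ℝ), ¬ P (hk t c) a b s :=
    le_principal_iff.mp ((Ultrafilter.of_le _).trans inf_le_right)
  have hF0 : (F : Filter ℝ) ≤ 𝓝 0 := hF.trans nhdsWithin_le_nhds
  have T : ∀ y : ι → ℝ, Tendsto (fun c => hk t c ∘ y) F (𝓝 y) := by
    intro y
    have : Continuous fun c => hk t c ∘ y := continuous_pi fun i => by
      simp only [Function.comp, hk]; fun_prop
    have h2 := this.tendsto 0
    rw [show hk t 0 ∘ y = y by ext; simp [hk]] at h2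
    exact h2.mono_left hF0
  have S : ∀ y : ι → ℝ, Tendsto (fun c => ∑ i, hk t c (y i)) F (𝓝 (∑ i, y i)) := fun y =>
    tendsto_finsetSum _ fun i _ => tendsto_pi_nhds.mp (T y) i
  set θ : ℝ → ℝ := fun c => (∑ i, hk t c (s i) - ∑ i, hk t c (a i)) / ∑ i, hk t c (b i) with hθ
  have Tθ : Tendsto θ F (𝓝 1) := by
    have := ((S s).sub (S a)).div (S b) hb0.ne'
    rwa [← h.trace, add_sub_cancel_left, div_self hb0.ne'] at this
  have Tx : Tendsto (fun c i => θ c * hk t c (b i)) F (𝓝 b) := tendsto_pi_nhds.mpr fun i => by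
    simpa using Tθ.mul (tendsto_pi_nhds.mp (T b) i)
  choose U hU V hV m1 m2 m3 using fun c => minim (hk t c ∘ a) (fun i => θ c * hk t c (b i)) (hk t c ∘ s)
  set R : ℝ → Matrix ι ι ℂ := fun c =>
    D (U c) (hk t c ∘ a) + D (V c) (fun i => θ c * hk t c (b i)) - D 1 (hk t c ∘ s) with hR
  let nr : Matrix ι ι ℂ → ℝ := fun M => ‖(fun i j => M i j : ι → ι → ℂ)‖
  have E : ∀ᶠ c in (F : Filter ℝ), R c ≠ 0 ∧ (R c).trace = 0 := by
    filter_upwards [hF2, Tθ.eventually (lt_mem_nhds zero_lt_one), (S b).eventually (lt_mem_nhds hb0),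
      hF self_mem_nhdsWithin, hF0 (gt_mem_nhds zero_lt_one)] with c c1 c2 c3 c4 c5
    have c6 : θ c ≤ 1 := by
      rw [hθ, div_le_one c3]
      have := h.rot ha hb ht
      have := h.trace
      simp only [hk, Finset.sum_sub_distrib, ← Finset.mul_sum]
      have c4' : 0 < c := c4
      nlinarith
    refine ⟨fun h0 => c1 ⟨fun i => θ c * hk t c (b i), fun i => ?_, U c, hU c, V c, hV c, 1,
      one_mem _, sub_eq_zero.mp h0⟩, ?_⟩
    · have := hk_nonneg ht c5.le (hb i)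
      exact ⟨mul_nonneg c2.le this, mul_le_of_le_one_left this c6⟩
    · rw [hR, trace_sub, trace_add, D_trace (hU c), D_trace (hV c), D_trace (one_mem _),
        ← Finset.mul_sum, hθ, div_mul_cancel₀ _ c3.ne']
      simp
  have K : IsCompact (X := Matrix ι ι ℂ) (Metric.sphere (α := ι → ι → ℂ) 0 1) :=
    isCompact_sphere (α := ι → ι → ℂ) 0 1
  obtain ⟨⟨U0, V0, N⟩, ⟨hU0, hV0, hN⟩, L⟩ :=
    ((compactU (ι := ι)).prod ((compactU (ι := ι)).prod K)).ultrafilter_le_nhds'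
    (F.map fun c => (U c, V c, ((nr (R c) : ℂ))⁻¹ • R c)) (by
      rw [Ultrafilter.mem_map]
      filter_upwards [E] with c hc
      exact ⟨hU c, hV c, mem_sphere_zero_iff_norm.mpr
        (norm_smul_inv_norm (𝕜 := ℂ) (E := ι → ι → ℂ) hc.1)⟩)
  have L' : Tendsto (fun c => (U c, V c, ((nr (R c) : ℂ))⁻¹ • R c)) F (𝓝 (U0, V0, N)) := L
  have LU := L'.fst_nhds
  have LV := L'.snd_nhds.fst_nhds
  have LN := L'.snd_nhds.snd_nhds
  have LA := D_tend LU (T a)
  have LB := D_tend LV Tx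
  refine ⟨U0, hU0, V0, hV0, N, ?_, ?_, ?_, ?_, ?_, ?_⟩
  · obtain ⟨U1, h1, V1, h2, h3⟩ := h.one
    have l1 := (fr_cont.tendsto _).comp ((LA.add LB).sub (D_tend (tendsto_const_nhds (x := 1)) (T s)))
    have l2 := (fr_cont.tendsto _).comp (((D_tend (tendsto_const_nhds (x := U1)) (T a)).add
      (D_tend (tendsto_const_nhds (x := V1)) Tx)).sub (D_tend (tendsto_const_nhds (x := 1)) (T s)))
    have := le_of_tendsto_of_tendsto' l1 l2 fun c => m1 c U1 h1 V1 h2
    rw [h3, sub_self] at this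
    exact sub_eq_zero.mp (fr_zero (this.trans_eq (by simp [fr])))
  · refine tendsto_nhds_unique LN.star (LN.congr fun c => ?_)
    simp only [hR, star_smul, star_sub, star_add, D_herm, star_inv₀, RCLike.star_def,
      Complex.conj_ofReal]
  · rintro rfl
    have : ‖(0 : ι → ι → ℂ)‖ = 1 := mem_sphere_zero_iff_norm.mp hN
    simp at this
  · refine tendsto_nhds_unique (((continuous_id.matrix_trace).tendsto N).comp LN)
      (tendsto_const_nhds.congr' ?_)
    filter_upwards [E] with c hc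
    simp [hc.2]
  · refine tendsto_nhds_unique (LA.mul LN) ((LN.mul LA).congr fun c => ?_)
    simp only [Matrix.smul_mul, Matrix.mul_smul, hR, m2 c]
  · refine tendsto_nhds_unique (LB.mul LN) ((LN.mul LB).congr fun c => ?_)
    simp only [Matrix.smul_mul, Matrix.mul_smul, hR, m3 c]

lemma loc {t : ℝ} (ht : 0 ≤ t) (n : ℕ) : ∀ (ι : Type) [Fintype ι] [DecidableEq ι],
    Fintype.card ι = n → ∀ a b s : ι → ℝ, (∀ i, 0 ≤ a i) → (∀ i, 0 ≤ b i) → Hyp a b s →
      ∀ᶠ c in 𝓝[>] (0:ℝ), P (hk t c) a b s := by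
  induction n using Nat.strong_induction_on with
  | _ n ih =>
  intro ι _ _ hn a b s ha hb h
  rcases (Finset.sum_nonneg fun i (_ : i ∈ Finset.univ) => hb i).eq_or_lt with h0 | h0
  · have hb0 : ∀ i, b i = 0 := fun i =>
      (Finset.sum_eq_zero_iff_of_nonneg fun i _ => hb i).mp h0.symm i (Finset.mem_univ _)
    obtain ⟨U, hU, V, hV, W, hW, h⟩ := h
    have z : ∀ V : Matrix ι ι ℂ, D V (fun _ => 0) = 0 := fun V => by ext; simp [D_apply]
    rw [funext hb0, z, add_zero] at h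
    obtain ⟨f, rfl⟩ := perm hU hW (Equiv.refl _) h
    refine Eventually.of_forall fun c => ⟨fun _ => 0, fun i => ⟨le_rfl, by simp [hk, hb0, ht]⟩, ?_⟩
    exact Hyp.comp (a := hk t c ∘ a) (b := fun _ => 0) (s := hk t c ∘ a)
      ⟨1, one_mem _, 1, one_mem _, 1, one_mem _, by rw [z, add_zero]⟩ (Equiv.refl _) (Equiv.refl _) f
  by_contra hne
  obtain ⟨U, hU, V, hV, R, e, r1, r2, r3, r4, r5⟩ := irr ht ha hb h h0 hne
  obtain ⟨ρ, r, ⟨i1, p1⟩, ⟨i2, p2⟩, a1, b1, s1, a2, b2, s2, H1, H2, e, f, g, he, hf, hg⟩ :=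
    red hU hV (one_mem _) e r1 r2 r3 r4 r5
  apply hne
  have q1 := ih _ (hn ▸ Fintype.card_subtype_lt p2) _ rfl a1 b1 s1
    (fun i => (ha _).trans_eq (congrFun he (.inl i)).symm)
    (fun i => (hb _).trans_eq (congrFun hf (.inl i)).symm) H1
  have q2 := ih _ (hn ▸ Fintype.card_subtype_lt (x := i1) (not_not.mpr p1)) _ rfl a2 b2 s2
    (fun i => (ha _).trans_eq (congrFun he (.inr i)).symm)
    (fun i => (hb _).trans_eq (congrFun hf (.inr i)).symm) H2
  filter_upwards [q1, q2] with c ⟨x1, k1, j1⟩ ⟨x2, k2, j2⟩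
  refine ⟨Sum.elim x1 x2 ∘ f.symm, fun i => ?_, ?_⟩
  · obtain ⟨i, rfl⟩ := f.surjective i
    have := congrFun hf i
    simp only [Function.comp, Equiv.symm_apply_apply] at this ⊢
    rw [← this]
    rcases i with i | i
    exacts [k1 i, k2 i]
  · have := (j1.sum j2).comp e.symm f.symm g.symm
    rw [← Sum.comp_elim, ← Sum.comp_elim, he, hg] at this
    simpa only [Function.comp_assoc, Equiv.self_comp_symm, Function.comp_id] using this

end Pool.Agent.H21.Dbl
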