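import Mathlib
import Pool.Agent.H21.Dbl3

set_option autoImplicit false
set_option linter.unusedSectionVars false

open Matrix Filter Topology Set
open scoped ComplexOrder

namespace Pool.Agent.H21.Dbl

variable {ι : Type} [Fintype ι] [DecidableEq ι]

lemma hk_mono {t c : ℝ} (hc : c ≤ 1) (hc0 : 0 ≤ c) : Monotone (hk t c) := by
  intro x y hxy
  unfold hk
  rcases le_total (x - t) 0 with h | h <;> rcases le_total (y - t) 0 with h' | h' <;>
    simp only [max_eq_right, max_eq_left, h, h'] <;> nlinarith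

lemma hk_semi {t c d : ℝ} (hc : c ≤ 1) (y : ℝ) : hk t d (hk t c y) = hk t (c + d - c * d) y := by
  unfold hk
  rcases le_total (y - t) 0 with h | h
  · rw [max_eq_right h, mul_zero, sub_zero, max_eq_right h, mul_zero, mul_zero]
  · rw [max_eq_left h, max_eq_left (by nlinarith)]; ring

lemma P.comp {g k : ℝ → ℝ} {a b s x : ι → ℝ} (hk : Monotone k) (hx : ∀ i, x i ≤ g (b i))
    (h : P k (g ∘ a) x (g ∘ s)) : P (k ∘ g) a b s := by
  obtain ⟨y, h1, h2⟩ := h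
  exact ⟨y, fun i => ⟨(h1 i).1, (h1 i).2.trans (hk (hx i))⟩, h2⟩

lemma kink {t c : ℝ} (ht : 0 ≤ t) (hc0 : 0 ≤ c) (hc : c ≤ 1) {a b s : ι → ℝ} (ha : ∀ i, 0 ≤ a i)
    (hb : ∀ i, 0 ≤ b i) (h : Hyp a b s) : P (hk t c) a b s := by
  refine IsClosed.mem_of_ge_of_forall_exists_gt (s := {c | P (hk t c) a b s}) (a := 0) ?_ ?_ hc0 ?_
  · have K := ((isCompact_Icc (a := (0:ℝ)) (b := c)).prod ((compactU (ι := ι)).prod
      ((compactU (ι := ι)).prod ((compactU (ι := ι)).prod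
        (isCompact_Icc (a := (0 : ι → ℝ)) (b := b)))))).inter_right
      (t := {p | (∀ i, p.2.2.2.2 i ≤ hk t p.1 (b i)) ∧
        D p.2.1 (hk t p.1 ∘ a) + D p.2.2.1 p.2.2.2.2 = D p.2.2.2.1 (hk t p.1 ∘ s)}) (by
      refine IsClosed.inter ?_ (isClosed_eq ?_ ?_)
      · change IsClosed {p : ℝ × Matrix ι ι ℂ × Matrix ι ι ℂ × Matrix ι ι ℂ × (ι → ℝ) |
          ∀ i, p.2.2.2.2 i ≤ hk t p.1 (b i)}
        rw [setOf_forall]
        exact isClosed_iInter fun i => isClosed_le (by fun_prop) (by unfold hk; fun_prop)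
      · simp only [D, hk, Function.comp]; fun_prop
      · simp only [D, hk, Function.comp]; fun_prop)
    convert (K.image continuous_fst).isClosed using 1
    ext d
    constructor
    · rintro ⟨⟨x, h1, U, hU, V, hV, W, hW, h2⟩, hd⟩
      refine ⟨(d, U, V, W, x), ⟨⟨hd, hU, hV, hW, fun i => (h1 i).1, fun i => (h1 i).2.trans ?_⟩,
        fun i => (h1 i).2, h2⟩, rfl⟩
      exact sub_le_self _ (mul_nonneg hd.1 (le_max_right _ _))
    · rintro ⟨⟨d, U, V, W, x⟩, ⟨⟨hd, hU, hV, hW, h1, -⟩, h2, h3⟩, rfl⟩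
      exact ⟨⟨x, fun i => ⟨h1 i, h2 i⟩, U, hU, V, hV, W, hW, h3⟩, hd⟩
  · have e : hk t 0 = id := by ext; simp [hk]
    exact ⟨b, fun i => ⟨hb i, by simp [e]⟩, by simpa [e] using h⟩
  · rintro d ⟨⟨x, h1, h2⟩, hd0, hd⟩
    have hd1 : d ≤ 1 := by linarith
    have := loc ht _ ι rfl _ x _ (fun i => hk_nonneg ht hd1 (ha i)) (fun i => (h1 i).1) h2
    obtain ⟨e, e1, e2, e3⟩ := (this.and (Filter.Eventually.and self_mem_nhdsWithin
      (nhdsWithin_le_nhds (gt_mem_nhds (sub_pos.mpr hd))))).exists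
    have e2' : 0 < e := e2
    have := e1.comp (hk_mono (by linarith) e2'.le) fun i => (h1 i).2
    refine ⟨d + e - d * e, ?_, by nlinarith, by nlinarith⟩
    rwa [show hk t e ∘ hk t d = hk t (d + e - d * e) from funext (hk_semi hd1)] at this

lemma interp {f : ℝ → ℝ} (hf : ConcaveOn ℝ (Ici 0) f) (hm : MonotoneOn f (Ici 0)) (h0 : 0 ≤ f 0)
    {a b s : ι → ℝ} (ha : ∀ i, 0 ≤ a i) (L : Finset ℝ) :
    ∀ (T m : ℝ) (g : ℝ → ℝ), 0 ≤ T → 0 ≤ m → Monotone g → 0 ≤ g 0 → P g a b s →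
      (∀ x, T ≤ x → g x = f T + m * (x - T)) → (∀ y ∈ L, T < y ∧ f y - f T ≤ m * (y - T)) →
      ∃ g', P g' a b s ∧ (∀ x ≤ T, g' x = g x) ∧ ∀ y ∈ L, g' y = f y := by
  induction L using Finset.induction_on_min with
  | empty => exact fun T m g _ _ _ _ h _ _ => ⟨g, h, fun _ _ => rfl, by simp⟩
  | insert T' L hL ih =>
  intro T m g hT hm0 hg hg0 hP h1 h2
  obtain ⟨hTT, h3⟩ := h2 T' (Finset.mem_insert_self _ _)
  have hT' : 0 ≤ T' := by linarith
  have hfT : 0 ≤ f T := h0.trans (hm (le_refl (0:ℝ)) hT hT)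
  set m' := (f T' - f T) / (T' - T) with hm'
  have d0 : 0 < T' - T := by linarith
  have m0 : 0 ≤ m' := div_nonneg (sub_nonneg.mpr (hm hT hT' hTT.le)) d0.le
  have m1 : m' ≤ m := by rwa [hm', div_le_iff₀ d0]
  have m2 : m' * (T' - T) = f T' - f T := div_mul_cancel₀ _ d0.ne'
  have c0 : 0 ≤ m' / m := div_nonneg m0 hm0
  have c1 : m' / m ≤ 1 := div_le_one_of_le₀ m1 hm0
  have c2 : m' / m * m = m' := by
    rcases hm0.eq_or_lt with h | h
    · rw [← h] at m1 ⊢; linarith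
    · exact div_mul_cancel₀ _ h.ne'
  have gT : g T = f T := by rw [h1 T le_rfl]; ring
  obtain ⟨x, x1, x2⟩ := hP
  have k1 : ∀ x ≤ T, (hk (f T) (1 - m' / m) ∘ g) x = g x := by
    intro x hx
    have := hg hx
    simp only [Function.comp, hk]
    rw [max_eq_right (by linarith), mul_zero, sub_zero]
  have k2 : ∀ x, T ≤ x → (hk (f T) (1 - m' / m) ∘ g) x = f T + m' * (x - T) := by
    intro x hx
    simp only [Function.comp, hk, h1 x hx]
    rw [max_eq_left (by nlinarith)]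
    linear_combination (x - T) * c2
  obtain ⟨g', p1, p2, p3⟩ := ih T' m' (hk (f T) (1 - m' / m) ∘ g) hT' m0
    ((hk_mono (by linarith) (by linarith)).comp hg) (by rwa [k1 0 hT])
    ((kink hfT (by linarith) (by linarith) (fun i => hg0.trans (hg (ha i))) (fun i => (x1 i).1)
      x2).comp (hk_mono (by linarith) (by linarith)) fun i => (x1 i).2)
    (fun x hx => by rw [k2 x (by linarith)]; linarith) (fun y hy => ⟨hL y hy, by
      have := hf.slope_anti_adjacent hT (hT'.trans (hL y hy).le) hTT (hL y hy)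
      rwa [div_le_iff₀ (sub_pos.mpr (hL y hy))] at this⟩)
  refine ⟨g', p1, fun x hx => by rw [p2 x (by linarith), k1 x hx], fun y hy => ?_⟩
  rcases Finset.mem_insert.mp hy with rfl | hy
  · rw [p2 _ le_rfl, k2 _ hTT.le]; linarith
  · exact p3 y hy

lemma main {f : ℝ → ℝ} (hf : ConcaveOn ℝ (Ici 0) f) (hm : MonotoneOn f (Ici 0)) (h0 : 0 ≤ f 0)
    {a b s : ι → ℝ} (ha : ∀ i, 0 ≤ a i) (hb : ∀ i, 0 ≤ b i) (hs : ∀ i, 0 ≤ s i) (h : Hyp a b s) :
    P f a b s := by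
  classical
  set L := (Finset.univ.image a ∪ Finset.univ.image b ∪ Finset.univ.image s).filter (0 < ·) with hL
  obtain ⟨m, hm1⟩ := (L.image fun y => (f y - f 0) / y).bddAbove
  have P0 : P (fun x => f 0 + max m 0 * x) a b s := by
    refine ⟨fun i => 0 + max m 0 * b i, fun i => ⟨?_, by linarith⟩, ?_⟩
    · have := hb i; positivity
    · obtain ⟨U, hU, V, hV, W, hW, h⟩ := h
      refine ⟨U, hU, V, hV, W, hW, ?_⟩
      simp only [Function.comp_def]
      rw [D_aff hU, D_aff hV, D_aff hW, ← h]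
      simp only [Complex.ofReal_zero, zero_smul, zero_add, smul_add, add_assoc]
  obtain ⟨g, ⟨x, g1, g4⟩, g2, g3⟩ := interp hf hm h0 ha L 0 (max m 0) _ le_rfl (le_max_right _ _)
    (fun x y hxy => by gcongr) (by simpa using h0) P0 (fun x _ => by simp)
    fun y hy => by
      have y0 : 0 < y := (Finset.mem_filter.mp hy).2
      have := hm1 (Finset.mem_coe.mpr (Finset.mem_image_of_mem _ hy))
      rw [div_le_iff₀ y0] at this
      exact ⟨y0, by nlinarith [le_max_left m 0]⟩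
  have e : ∀ y, 0 ≤ y → y ∈ Finset.univ.image a ∪ Finset.univ.image b ∪ Finset.univ.image s →
      g y = f y := by
    intro y hy hy'
    rcases hy.eq_or_lt with rfl | h
    · rw [g2 0 le_rfl]; simp
    · exact g3 y (Finset.mem_filter.mpr ⟨hy', h⟩)
  have ea : g ∘ a = f ∘ a := funext fun i => e _ (ha i) (by simp)
  have es : g ∘ s = f ∘ s := funext fun i => e _ (hs i) (by simp)
  exact ⟨x, fun i => e _ (hb i) (by simp) ▸ g1 i, ea ▸ es ▸ g4⟩

lemma fin {f : ℝ → ℝ} (hf : ConcaveOn ℝ (Ici 0) f) (hm : MonotoneOn f (Ici 0)) (h0 : 0 ≤ f 0)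
    {a b s : ι → ℝ} (ha : ∀ i, 0 ≤ a i) (hb : ∀ i, 0 ≤ b i) (hs : ∀ i, 0 ≤ s i)
    {U V W : Matrix ι ι ℂ} (hU : U ∈ unitaryGroup ι ℂ) (hV : V ∈ unitaryGroup ι ℂ)
    (hW : W ∈ unitaryGroup ι ℂ) (h : D U a + D V b = D W s) :
    ∃ U' ∈ unitaryGroup ι ℂ, ∃ V' ∈ unitaryGroup ι ℂ,
      (D W (f ∘ s) - U' * D U (f ∘ a) * star U').PosSemidef ∧
      (V' * D V (f ∘ b) * star V' - (D W (f ∘ s) - U' * D U (f ∘ a) * star U')).PosSemidef := by
  obtain ⟨x, h1, h2⟩ := main hf hm h0 ha hb hs ⟨U, hU, V, hV, W, hW, h⟩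
  obtain ⟨U1, u1, V1, v1, h3⟩ := h2.one
  have e : D W (f ∘ s) - D (W * U1) (f ∘ a) = D (W * V1) x := by
    conv_lhs => rw [← Matrix.mul_one W, D_mul W 1, Matrix.mul_one W]
    rw [← h3, D_mul, D_mul, Matrix.mul_add, Matrix.add_mul, add_sub_cancel_left]
  refine ⟨W * U1 * star U, mul_mem (mul_mem hW u1) (Unitary.star_mem hU), W * V1 * star V,
    mul_mem (mul_mem hW v1) (Unitary.star_mem hV), ?_⟩
  rw [← D_mul, ← D_mul, Matrix.mul_assoc _ _ U, Matrix.mul_assoc _ _ V, us hU, us hV, Matrix.mul_one,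
    Matrix.mul_one, e, D_sub]
  exact ⟨D_psd _ fun i => (h1 i).1, D_psd _ fun i => sub_nonneg.mpr (h1 i).2⟩

end Pool.Agent.H21.Dbl
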