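import Mathlib

namespace Pool.Agent.H21.DiamMax

open Real

/-- `μ` is the algebraic connectivity of `G`: the least Laplacian eigenvalue having an
eigenvector orthogonal to the constant vector (the second-smallest eigenvalue of `L`). -/
def IsAC {V : Type} [Fintype V] [DecidableEq V] (G : SimpleGraph V) [DecidableRel G.Adj]
    (μ : ℝ) : Prop :=
  IsLeast {ν : ℝ | ∃ x : V → ℝ, x ≠ 0 ∧ ∑ v, x v = 0 ∧ (G.lapMatrix ℝ).mulVec x = ν • x} μ

/-- `t` is a positive root of the equation for odd diameter `D = 2K - 1`. -/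
def OddRoot (d K : ℕ) (t : ℝ) : Prop :=
  0 < t ∧ cos (K * t) ≠ 0 ∧
    tan (K * t) = -((2 * √(d - 1) * cos t + d) * sin t) /
      (√(d - 1) * (d - 2 * cos t ^ 2) + (d - 2) * cos t)

/-- `t` is a positive root of the equation for even diameter `D = 2K`. -/
def EvenRoot (d K : ℕ) (t : ℝ) : Prop :=
  0 < t ∧ cos (K * t) ≠ 0 ∧ cos t ≠ 0 ∧ tan (K * t) = -(d / (d - 2) * tan t)

/-- `G` is a connected `d`-regular graph of odd diameter `2K - 1` which is diameter-maximal. -/
def DiamMaxOdd {V : Type} [Fintype V] [DecidableEq V] (G : SimpleGraph V) [DecidableRel G.Adj]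
    (d K : ℕ) : Prop :=
  G.Connected ∧ G.IsRegularOfDegree d ∧ G.diam = 2 * K - 1 ∧
    ∃ θ : ℝ, IsLeast {t | OddRoot d K t} θ ∧ IsAC G (d - 2 * √(d - 1) * cos θ)

/-- `G` is a connected `d`-regular graph of even diameter `2K` which is diameter-maximal. -/
def DiamMaxEven {V : Type} [Fintype V] [DecidableEq V] (G : SimpleGraph V) [DecidableRel G.Adj]
    (d K : ℕ) : Prop :=
  G.Connected ∧ G.IsRegularOfDegree d ∧ G.diam = 2 * K ∧
    ∃ θ : ℝ, IsLeast {t | EvenRoot d K t} θ ∧ IsAC G (d - 2 * √(d - 1) * cos θ)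

end Pool.Agent.H21.DiamMax
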