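import Mathlib

open Classical

namespace Pool.Agent.H21.Disc

open MeasureTheory

/-- number of grid points `j / n` below `t` -/
noncomputable def F (n : ℕ) (t : ℝ) : ℝ := ∑ j : Fin n, if ((j : ℕ) : ℝ) / n < t then 1 else 0

theorem F_bounds (n : ℕ) (hn : 0 < n) (t : ℝ) (h0 : 0 ≤ t) (h1 : t ≤ 1) :
    n * t ≤ F n t ∧ F n t ≤ n * t + 1 := by
  have hn' : (0 : ℝ) < n := by exact_mod_cast hn
  have hle : ⌈(n : ℝ) * t⌉₊ ≤ n := by
    rw [Nat.ceil_le]
    nlinarith
  have : F n t = (⌈(n : ℝ) * t⌉₊ : ℝ) := by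
    unfold F
    rw [Fin.sum_univ_eq_sum_range (fun j : ℕ => if (j : ℝ) / n < t then (1 : ℝ) else 0) n,
      Finset.sum_boole]
    congr 1
    rw [← Finset.card_range ⌈(n : ℝ) * t⌉₊]
    congr 1
    ext j
    simp only [Finset.mem_filter, Finset.mem_range, Nat.lt_ceil, div_lt_iff₀ hn']
    constructor
    · rintro ⟨_, h⟩
      linarith
    · intro h
      refine ⟨?_, by linarith⟩
      have : (j : ℝ) < n := by nlinarith
      exact_mod_cast this
  rw [this]
  exact ⟨Nat.le_ceil _, (Nat.ceil_lt_add_one (by positivity)).le⟩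

theorem low_count (n k : ℕ) (hk : k ≤ n) :
    (∑ i : Fin n, if (i : ℕ) < k then (1 : ℝ) else 0) = k := by
  rw [Fin.sum_univ_eq_sum_range (fun j : ℕ => if j < k then (1 : ℝ) else 0) n, Finset.sum_boole]
  congr 1
  rw [← Finset.card_range k]
  congr 1
  ext j
  simp only [Finset.mem_filter, Finset.mem_range, Finset.card_range]
  omega

theorem b_eq (n : ℕ) (s t : ℝ) (h : s ≤ t) :
    (∑ j : Fin n, if s ≤ ((j : ℕ) : ℝ) / n ∧ ((j : ℕ) : ℝ) / n < t then (1 : ℝ) else 0) =
      F n t - F n s := by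
  unfold F
  rw [← Finset.sum_sub_distrib]
  refine Finset.sum_congr rfl fun j _ => ?_
  by_cases h1 : ((j : ℕ) : ℝ) / n < s
  · rw [if_neg (fun h => absurd h.1 (not_le.2 h1)), if_pos (h1.trans_le h), if_pos h1]; simp
  · by_cases h2 : ((j : ℕ) : ℝ) / n < t
    · rw [if_pos ⟨not_lt.1 h1, h2⟩, if_pos h2, if_neg h1]; simp
    · rw [if_neg (fun h => h2 h.2), if_neg h2, if_neg h1]; simp

abbrev I2 : Set (Fin 2 → ℝ) := Set.Icc 0 1

theorem vol_I2 : volume I2 = 1 := by
  rw [Real.volume_Icc_pi]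
  simp

instance : IsFiniteMeasure (volume.restrict I2) := by
  refine ⟨?_⟩
  rw [Measure.restrict_apply_univ, vol_I2]
  simp

theorem lower1 (f : (Fin 2 → ℝ) → ℝ) (hf : IntegrableOn f I2) (h0 : ∀ x, 0 ≤ f x)
    (A : Set (Fin 2 → ℝ)) (hA : MeasurableSet A) (hAI : A ⊆ I2) (c : ℝ)
    (hc : ∀ x ∈ A, c ≤ f x) : c * volume.real A ≤ ∫ x in I2, f x := by
  have h1 : ∫ x in A, f x ≤ ∫ x in I2, f x :=
    setIntegral_mono_set hf (Filter.Eventually.of_forall h0) hAI.eventuallyLE
  refine le_trans ?_ h1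
  refine setIntegral_ge_of_const_le_real hA ?_ hc (hf.mono_set hAI)
  exact ((measure_mono hAI).trans_lt (by rw [vol_I2]; simp)).ne

theorem lower (f : (Fin 2 → ℝ) → (Fin 2 → ℝ) → ℝ) (hf : Measurable (Function.uncurry f))
    (h0 : ∀ x y, 0 ≤ f x y) (M : ℝ) (hM : ∀ x ∈ I2, ∀ y ∈ I2, f x y ≤ M)
    (A B : Set (Fin 2 → ℝ)) (hA : MeasurableSet A) (hAI : A ⊆ I2) (hB : MeasurableSet B)
    (hBI : B ⊆ I2) (c : ℝ) (hc : ∀ x ∈ A, ∀ y ∈ B, c ≤ f x y) :
    c * volume.real B * volume.real A ≤ ∫ x in I2, ∫ y in I2, f x y := by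
  have hint : ∀ x ∈ I2, IntegrableOn (f x) I2 := by
    intro x hx
    refine Integrable.of_bound (hf.of_uncurry_left).aestronglyMeasurable M ?_
    exact (ae_restrict_iff' measurableSet_Icc).2 (Filter.Eventually.of_forall fun y hy => by
      rw [Real.norm_eq_abs, abs_of_nonneg (h0 x y)]; exact hM x hx y hy)
  refine lower1 _ ?_ (fun x => integral_nonneg (h0 x)) A hA hAI _ ?_
  · refine Integrable.of_bound
      (hf.stronglyMeasurable.integral_prod_right (ν := volume.restrict I2)).aestronglyMeasurable M ?_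
    refine (ae_restrict_iff' measurableSet_Icc).2 (Filter.Eventually.of_forall fun x hx => ?_)
    rw [Real.norm_eq_abs, abs_of_nonneg (integral_nonneg (h0 x))]
    have : ∫ y in I2, f x y ≤ ∫ y in I2, M := by
      refine integral_mono_of_nonneg (Filter.Eventually.of_forall (h0 x)) (integrable_const _) ?_
      exact (ae_restrict_iff' measurableSet_Icc).2 (Filter.Eventually.of_forall fun y hy =>
        hM x hx y hy)
    simpa [Measure.real, vol_I2] using this
  · intro x hx
    exact lower1 _ (hint x (hAI hx)) (h0 x) B hB hBI c (hc x hx)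

theorem per_meas (N : ℕ) (P : Fin N → Fin 2 → ℝ) :
    Measurable (Function.uncurry fun x y : Fin 2 → ℝ =>
      |((Finset.univ.filter (fun i : Fin N => ∀ j : Fin 2,
              (x j ≤ y j ∧ x j ≤ P i j ∧ P i j < y j) ∨
              (y j < x j ∧ (P i j < y j ∨ x j ≤ P i j)))).card : ℝ)
            - (N : ℝ) * ∏ j : Fin 2, (if x j ≤ y j then y j - x j else 1 - x j + y j)|) := by
  have hx : ∀ j : Fin 2, Measurable (fun z : (Fin 2 → ℝ) × (Fin 2 → ℝ) => z.1 j) := fun j => by
    fun_prop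
  have hy : ∀ j : Fin 2, Measurable (fun z : (Fin 2 → ℝ) × (Fin 2 → ℝ) => z.2 j) := fun j => by
    fun_prop
  unfold Function.uncurry
  simp only [← Finset.sum_boole]
  refine continuous_abs.measurable.comp (Measurable.sub ?_ (Measurable.const_mul ?_ _))
  · refine Finset.measurable_sum _ fun i _ => Measurable.ite ?_ measurable_const measurable_const
    rw [Set.setOf_forall]
    refine MeasurableSet.iInter fun j => ?_
    exact ((measurableSet_le (hx j) (hy j)).inter ((measurableSet_le (hx j) measurable_const).inter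
      (measurableSet_lt measurable_const (hy j)))).union ((measurableSet_lt (hy j) (hx j)).inter
      ((measurableSet_lt measurable_const (hy j)).union (measurableSet_le (hx j) measurable_const)))
  · refine Finset.measurable_prod _ fun j _ => Measurable.ite (measurableSet_le (hx j) (hy j)) ?_ ?_
    · exact (hy j).sub (hx j)
    · exact (measurable_const.sub (hx j)).add (hy j)

theorem per_le (N : ℕ) (P : Fin N → Fin 2 → ℝ) (x y : Fin 2 → ℝ) (hx : x ∈ I2) (hy : y ∈ I2) :
      |((Finset.univ.filter (fun i : Fin N => ∀ j : Fin 2,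
              (x j ≤ y j ∧ x j ≤ P i j ∧ P i j < y j) ∨
              (y j < x j ∧ (P i j < y j ∨ x j ≤ P i j)))).card : ℝ)
            - (N : ℝ) * ∏ j : Fin 2, (if x j ≤ y j then y j - x j else 1 - x j + y j)| ≤ N := by
  have h1 : ((Finset.univ.filter (fun i : Fin N => ∀ j : Fin 2,
              (x j ≤ y j ∧ x j ≤ P i j ∧ P i j < y j) ∨
              (y j < x j ∧ (P i j < y j ∨ x j ≤ P i j)))).card : ℝ) ≤ N := by
    have := Finset.card_filter_le (Finset.univ : Finset (Fin N)) (fun i : Fin N => ∀ j : Fin 2,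
              (x j ≤ y j ∧ x j ≤ P i j ∧ P i j < y j) ∨
              (y j < x j ∧ (P i j < y j ∨ x j ≤ P i j)))
    rw [Finset.card_univ, Fintype.card_fin] at this
    exact_mod_cast this
  have h2 : ∀ j : Fin 2, 0 ≤ (if x j ≤ y j then y j - x j else 1 - x j + y j) ∧
      (if x j ≤ y j then y j - x j else 1 - x j + y j) ≤ 1 := by
    intro j
    have a1 : (0 : ℝ) ≤ x j := hx.1 j
    have a2 : x j ≤ (1 : ℝ) := hx.2 j
    have a3 : (0 : ℝ) ≤ y j := hy.1 j
    have a4 : y j ≤ (1 : ℝ) := hy.2 j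
    split_ifs with h
    · constructor <;> linarith
    · push Not at h
      constructor <;> linarith
  have h3 : 0 ≤ ∏ j : Fin 2, (if x j ≤ y j then y j - x j else 1 - x j + y j) :=
    Finset.prod_nonneg fun j _ => (h2 j).1
  have h4 : ∏ j : Fin 2, (if x j ≤ y j then y j - x j else 1 - x j + y j) ≤ 1 :=
    Finset.prod_le_one (fun j _ => (h2 j).1) (fun j _ => (h2 j).2)
  have hN : (0 : ℝ) ≤ N := Nat.cast_nonneg N
  have h5 : (0 : ℝ) ≤ ((Finset.univ.filter (fun i : Fin N => ∀ j : Fin 2,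
              (x j ≤ y j ∧ x j ≤ P i j ∧ P i j < y j) ∨
              (y j < x j ∧ (P i j < y j ∨ x j ≤ P i j)))).card : ℝ) := Nat.cast_nonneg _
  rw [abs_le]
  constructor <;> nlinarith

end Pool.Agent.H21.Disc
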