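import Mathlib

namespace Pool.Agent.H21

/-- The divisor bound: the number of divisors of `n` is at most `C n ^ δ`. -/
theorem divisor_bound (δ : ℝ) (hδ : 0 < δ) :
    ∃ C : ℝ, 0 < C ∧ ∀ n : ℕ, n ≠ 0 → (n.divisors.card : ℝ) ≤ C * (n : ℝ) ^ δ := by
  set c0 : ℝ := 1 + 1 / (δ * Real.log 2) with hc0
  have hl : 0 < Real.log 2 := Real.log_pos one_lt_two
  have hc1 : 1 ≤ c0 := by
    have : 0 < 1 / (δ * Real.log 2) := by positivity
    linarith
  set B : ℕ := ⌈(2 : ℝ) ^ (1 / δ)⌉₊ with hB
  refine ⟨c0 ^ B, by positivity, fun n hn => ?_⟩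
  have hfac : ∀ p ∈ n.primeFactors, ((n.factorization p + 1 : ℕ) : ℝ) ≤
      (if p < B then c0 else 1) * ((p : ℝ) ^ n.factorization p) ^ δ := by
    intro p hp
    have hp2 : (2 : ℝ) ≤ p := by exact_mod_cast (Nat.prime_of_mem_primeFactors hp).two_le
    generalize n.factorization p = a
    have ha : (0 : ℝ) ≤ a := Nat.cast_nonneg a
    split_ifs with h
    · have h1 : ((2 : ℝ) ^ a) ^ δ ≤ ((p : ℝ) ^ a) ^ δ := by gcongr
      have h2 : 1 + a * (δ * Real.log 2) ≤ ((2 : ℝ) ^ a) ^ δ := by
        rw [← Real.rpow_natCast, ← Real.rpow_mul (by norm_num), Real.rpow_def_of_pos (by norm_num)]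
        have := Real.add_one_le_exp (Real.log 2 * (a * δ))
        linarith
      have h3 : ((a + 1 : ℕ) : ℝ) ≤ c0 * (1 + a * (δ * Real.log 2)) := by
        have e : c0 * (1 + a * (δ * Real.log 2)) =
            1 + a * (δ * Real.log 2) + 1 / (δ * Real.log 2) + a := by
          rw [hc0]; field_simp; ring
        rw [e]
        push_cast
        have : 0 ≤ a * (δ * Real.log 2) := by positivity
        have : 0 < 1 / (δ * Real.log 2) := by positivity
        linarith
      calc _ ≤ _ := h3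
        _ ≤ _ := by gcongr; exact h2.trans h1
    · have h1 : (2 : ℝ) ^ (1 / δ) ≤ p := by
        rw [← Nat.ceil_le]
        omega
      have h2 : (2 : ℝ) ≤ (p : ℝ) ^ δ := by
        calc (2 : ℝ) = ((2 : ℝ) ^ (1 / δ)) ^ δ := by
              rw [← Real.rpow_mul (by norm_num), one_div_mul_cancel hδ.ne', Real.rpow_one]
          _ ≤ _ := by gcongr
      have h3 : ((p : ℝ) ^ a) ^ δ = ((p : ℝ) ^ δ) ^ a := by
        rw [← Real.rpow_natCast, ← Real.rpow_mul (by positivity), mul_comm,
          Real.rpow_mul (by positivity), Real.rpow_natCast]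
      rw [one_mul, h3]
      calc ((a + 1 : ℕ) : ℝ) ≤ ((2 ^ a : ℕ) : ℝ) := by exact_mod_cast Nat.lt_two_pow_self
        _ = (2 : ℝ) ^ a := by push_cast; ring
        _ ≤ _ := by gcongr
  rw [Nat.card_divisors hn, Nat.cast_prod]
  refine (Finset.prod_le_prod (fun _ _ => by positivity) hfac).trans ?_
  rw [Finset.prod_mul_distrib, Real.finsetProd_rpow _ _ (fun _ _ => by positivity)]
  have e : ∏ p ∈ n.primeFactors, (p : ℝ) ^ n.factorization p = n := by
    have := Nat.prod_factorization_pow_eq_self hn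
    rw [Finsupp.prod, Nat.support_factorization] at this
    exact_mod_cast this
  rw [e]
  gcongr
  rw [Finset.prod_ite, Finset.prod_const, Finset.prod_const_one, mul_one]
  refine pow_le_pow_right₀ hc1 ?_
  calc _ ≤ (Finset.range B).card := Finset.card_le_card (fun p hp => by
        simp only [Finset.mem_filter] at hp
        exact Finset.mem_range.2 hp.2)
    _ = B := Finset.card_range B

/-- Rankin type bound for sums over multisets of integers at least two. -/
theorem multiset_sum_bound (σ : ℝ) (hσ : 1 < σ) :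
    ∃ Z : ℝ, 0 < Z ∧ ∀ A : Finset (Multiset ℕ), (∀ M ∈ A, ∀ y ∈ M, 2 ≤ y) →
      ∑ M ∈ A, ((M.prod : ℕ) : ℝ) ^ (-σ) ≤ Z := by
  classical
  have hs : Summable (fun j : ℕ => (j : ℝ) ^ (-σ)) := Real.summable_nat_rpow.2 (by linarith)
  refine ⟨Real.exp (2 * ∑' j : ℕ, (j : ℝ) ^ (-σ)), Real.exp_pos _, fun A hA => ?_⟩
  set S : Finset ℕ := A.biUnion Multiset.toFinset with hS
  set K : ℕ := A.sup Multiset.card + 1 with hK
  set w : ℕ → ℝ := fun j => (j : ℝ) ^ (-σ) with hw
  have hw0 : ∀ j, 0 ≤ w j := fun j => by positivity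
  have hS2 : ∀ j ∈ S, 2 ≤ j := by
    intro j hj
    simp only [hS, Finset.mem_biUnion, Multiset.mem_toFinset] at hj
    obtain ⟨M, hM, hj⟩ := hj
    exact hA M hM j hj
  have hsub : ∀ M ∈ A, M.toFinset ⊆ S := fun M hM => Finset.subset_biUnion_of_mem _ hM
  let φ : Multiset ℕ → ((a : ℕ) → a ∈ S → ℕ) := fun M a _ => M.count a
  have h1 : ∀ M ∈ A, ((M.prod : ℕ) : ℝ) ^ (-σ) = ∏ x ∈ S.attach, w x.1 ^ (φ M x.1 x.2) := by
    intro M hM
    rw [Finset.prod_attach S (fun x => w x ^ M.count x),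
      Finset.prod_multiset_count_of_subset M S (hsub M hM), Nat.cast_prod,
      ← Real.finsetProd_rpow _ _ (fun _ _ => by positivity)]
    refine Finset.prod_congr rfl fun j _ => ?_
    simp only [hw]
    push_cast
    rw [← Real.rpow_natCast, ← Real.rpow_mul (by positivity), mul_comm,
      Real.rpow_mul (by positivity), Real.rpow_natCast]
  have hinj : Set.InjOn φ A := by
    intro M hM M' hM' h
    ext a
    by_cases ha : a ∈ S
    · exact congrFun (congrFun h a) ha
    · rw [Multiset.count_eq_zero_of_notMem, Multiset.count_eq_zero_of_notMem]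
      · exact fun h => ha (hsub M' hM' (Multiset.mem_toFinset.2 h))
      · exact fun h => ha (hsub M hM (Multiset.mem_toFinset.2 h))
  rw [Finset.sum_congr rfl h1,
    ← Finset.sum_image (f := fun q : (a : ℕ) → a ∈ S → ℕ => ∏ x ∈ S.attach, w x.1 ^ (q x.1 x.2)) hinj]
  have h2 : A.image φ ⊆ S.pi (fun _ => Finset.range K) := by
    intro q hq
    obtain ⟨M, hM, rfl⟩ := Finset.mem_image.1 hq
    rw [Finset.mem_pi]
    intro a _
    rw [Finset.mem_range]
    have := Multiset.count_le_card a M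
    have h3 : M.card ≤ A.sup Multiset.card := Finset.le_sup (f := Multiset.card) hM
    show M.count a < K
    omega
  refine (Finset.sum_le_sum_of_subset_of_nonneg h2 (fun _ _ _ =>
    Finset.prod_nonneg fun _ _ => pow_nonneg (hw0 _) _)).trans ?_
  rw [← Finset.prod_sum S (fun _ => Finset.range K) (fun a k => w a ^ k)]
  have h3 : ∀ j ∈ S, ∑ k ∈ Finset.range K, w j ^ k ≤ Real.exp (2 * w j) := by
    intro j hj
    have hj2 : (2 : ℝ) ≤ j := by exact_mod_cast hS2 j hj
    have hwj : w j ≤ 1 / 2 := by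
      simp only [hw]
      rw [Real.rpow_neg (by positivity), one_div]
      refine inv_anti₀ (by norm_num) ?_
      calc (2 : ℝ) ≤ j := hj2
        _ = (j : ℝ) ^ (1 : ℝ) := (Real.rpow_one _).symm
        _ ≤ _ := Real.rpow_le_rpow_of_exponent_le (by linarith) hσ.le
    have hg : ∑ k ∈ Finset.range K, w j ^ k ≤ (1 - w j)⁻¹ := by
      rw [← tsum_geometric_of_lt_one (hw0 j) (by linarith)]
      exact (summable_geometric_of_lt_one (hw0 j) (by linarith)).sum_le_tsum _
        (fun _ _ => pow_nonneg (hw0 j) _)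
    have h4 : (1 - w j)⁻¹ ≤ 2 * w j + 1 := by
      rw [inv_le_iff_one_le_mul₀ (by linarith)]
      nlinarith [hw0 j]
    exact hg.trans (h4.trans (Real.add_one_le_exp _))
  refine (Finset.prod_le_prod (fun _ _ => Finset.sum_nonneg fun _ _ => pow_nonneg (hw0 _) _) h3).trans ?_
  rw [← Real.exp_sum, ← Finset.mul_sum]
  gcongr
  exact hs.sum_le_tsum _ (fun _ _ => hw0 _)

end Pool.Agent.H21
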