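import Mathlib

namespace Pool.Agent.H21.Edit

variable {A : Type}

/-- One single-character insertion, deletion or substitution. -/
inductive Step : List A → List A → Prop
  | ins (a b : List A) (c : A) : Step (a ++ b) (a ++ c :: b)
  | del (a b : List A) (c : A) : Step (a ++ c :: b) (a ++ b)
  | sub (a b : List A) (c d : A) : Step (a ++ c :: b) (a ++ d :: b)

/-- `Chain k s t`: `k` single-character edits turn `s` into `t`. -/
inductive Chain : ℕ → List A → List A → Prop
  | zero (s : List A) : Chain 0 s s
  | succ {k : ℕ} {s u t : List A} : Step s u → Chain k u t → Chain (k + 1) s t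

/-- The edit distance: the least number of edits turning `s` into `t`. -/
noncomputable def edit (s t : List A) : ℕ := sInf {k | Chain k s t}

/-- `B ⊆ Σ^n` is `(d, r)`-guaranteed. -/
def Guaranteed (n d r : ℕ) (B : Set (List.Vector A n)) : Prop :=
  ∀ s t : List.Vector A n, edit s.1 t.1 ≤ d →
    ∃ v : List.Vector A n, edit s.1 v.1 ≤ r ∧ edit t.1 v.1 ≤ r ∧ v ∈ B

end Pool.Agent.H21.Edit
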