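import Mathlib

set_option autoImplicit false

open MeasureTheory Filter Set Topology
open scoped ENNReal NNReal

namespace Pool.Agent.H21.Eqm

noncomputable def ker (D x y : ℝ) : ℝ≥0∞ :=
  if x = y then ⊤ else ENNReal.ofReal (Real.log (D / |x - y|))

theorem ker_meas (D : ℝ) : Measurable fun p : ℝ × ℝ => ker D p.1 p.2 := by
  unfold ker
  refine Measurable.ite (measurableSet_eq_fun measurable_fst measurable_snd) measurable_const ?_
  exact ENNReal.measurable_ofReal.comp (Real.measurable_log.comp (by fun_prop))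

theorem ker_meas' (D x : ℝ) : Measurable fun y => ker D x y :=
  (ker_meas D).comp measurable_prodMk_left

theorem ker_symm (D x y : ℝ) : ker D x y = ker D y x := by
  unfold ker
  rw [abs_sub_comm]
  by_cases h : x = y
  · simp [h]
  · rw [if_neg h, if_neg (Ne.symm h)]

noncomputable def pot (D : ℝ) (μ : Measure ℝ) (x : ℝ) : ℝ≥0∞ := ∫⁻ y, ker D x y ∂μ

theorem pot_meas (D : ℝ) (μ : Measure ℝ) [SFinite μ] : Measurable (pot D μ) :=
  (ker_meas D).lintegral_prod_right'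

theorem pot_swap (D : ℝ) (μ ν : Measure ℝ) [SFinite μ] [SFinite ν] :
    ∫⁻ x, pot D μ x ∂ν = ∫⁻ x, pot D ν x ∂μ := by
  unfold pot
  rw [lintegral_lintegral_swap (ker_meas D).aemeasurable]
  simp_rw [ker_symm D]

theorem first_order (K : Set ℝ) (D : ℝ) (μ : Measure ℝ) [IsProbabilityMeasure μ]
    (hK : μ Kᶜ = 0) (hfin : ∫⁻ x, pot D μ x ∂μ < ⊤)
    (hmin : ∀ ν : Measure ℝ, IsProbabilityMeasure ν → ν Kᶜ = 0 →
      ∫⁻ x, pot D μ x ∂μ ≤ ∫⁻ x, pot D ν x ∂ν)
    (A : Set ℝ) :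
    μ A * ∫⁻ x, pot D μ x ∂μ ≤ ∫⁻ x in A, pot D μ x ∂μ := by
  set V := ∫⁻ x, pot D μ x ∂μ with hV
  set J := ∫⁻ x in A, pot D μ x ∂μ with hJ
  have hJV : J ≤ V := lintegral_mono' Measure.restrict_le_self le_rfl
  have hL : ∫⁻ x in A, pot D (μ.restrict A) x ∂μ ≤ V :=
    lintegral_mono' Measure.restrict_le_self fun x =>
      lintegral_mono' Measure.restrict_le_self le_rfl
  have key : ∀ ε : ℝ≥0, (1 + ε * μ A) ^ 2 * V ≤ V + 2 * ε * J + ε ^ 2 * V := by
    intro ε
    set c : ℝ≥0∞ := 1 + ε * μ A with hc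
    have hc0 : c ≠ 0 := by simp [hc]
    have hct : c ≠ ⊤ := by
      simp only [hc]
      exact ENNReal.add_ne_top.2 ⟨by simp, ENNReal.mul_ne_top (by simp) (measure_ne_top _ _)⟩
    set ν : Measure ℝ := c⁻¹ • (μ + (ε : ℝ≥0∞) • μ.restrict A) with hν
    have hp : IsProbabilityMeasure ν := by
      constructor
      simp only [hν, Measure.smul_apply, Measure.add_apply, measure_univ,
        Measure.restrict_apply MeasurableSet.univ, univ_inter, smul_eq_mul]
      exact ENNReal.inv_mul_cancel hc0 hct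
    have hνK : ν Kᶜ = 0 := by
      have : (μ.restrict A) Kᶜ = 0 := le_antisymm ((Measure.restrict_le_self Kᶜ).trans hK.le) bot_le
      simp [hν, hK, this]
    have h1 := hmin ν hp hνK
    have h2 : ∀ x, pot D ν x = c⁻¹ * (pot D μ x + ε * pot D (μ.restrict A) x) := by
      intro x
      simp only [pot, hν, lintegral_smul_measure, lintegral_add_measure, smul_eq_mul]
    have hm : Measurable fun x => pot D μ x + ε * pot D (μ.restrict A) x :=
      (pot_meas D μ).add ((pot_meas D _).const_mul _)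
    have h3 : ∫⁻ x, pot D ν x ∂ν = c⁻¹ * (c⁻¹ * (V + ε * J) +
        ε * (c⁻¹ * (J + ε * ∫⁻ x in A, pot D (μ.restrict A) x ∂μ))) := by
      simp_rw [h2]
      simp only [hν, lintegral_smul_measure, lintegral_add_measure, smul_eq_mul]
      rw [lintegral_const_mul _ hm, lintegral_const_mul _ hm,
        lintegral_add_left (pot_meas D μ), lintegral_add_left (pot_meas D μ),
        lintegral_const_mul _ (pot_meas D _), lintegral_const_mul _ (pot_meas D _),
        pot_swap D (μ.restrict A) μ]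
    rw [h3] at h1
    have h4 : c * c⁻¹ = 1 := ENNReal.mul_inv_cancel hc0 hct
    calc c ^ 2 * V ≤ c ^ 2 * (c⁻¹ * (c⁻¹ * (V + ε * J) +
        ε * (c⁻¹ * (J + ε * ∫⁻ x in A, pot D (μ.restrict A) x ∂μ)))) := by gcongr
      _ = (c * c⁻¹) ^ 2 * (V + 2 * ε * J + ε ^ 2 * ∫⁻ x in A, pot D (μ.restrict A) x ∂μ) := by
          ring
      _ ≤ V + 2 * ε * J + ε ^ 2 * V := by
          rw [h4, one_pow, one_mul]
          gcongr
  have hVt : V ≠ ⊤ := hfin.ne
  have hJt : J ≠ ⊤ := ne_top_of_le_ne_top hVt hJV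
  have hat : μ A ≠ ⊤ := measure_ne_top _ _
  lift V to ℝ≥0 using hVt with v
  lift J to ℝ≥0 using hJt with j
  lift μ A to ℝ≥0 using hat with a
  have key2 : ∀ ε : ℝ, 0 < ε → (a : ℝ) * v ≤ j + ε * v := by
    intro ε hε
    lift ε to ℝ≥0 using hε.le
    have h := key ε
    have h' : (1 + ε * a) ^ 2 * (v : ℝ) ≤ v + 2 * ε * j + ε ^ 2 * v := by
      exact_mod_cast h
    have ha : (0 : ℝ) ≤ a := a.2
    have hv : (0 : ℝ) ≤ v := v.2
    have h5 : (ε : ℝ) * (2 * (a * v)) ≤ ε * (2 * j + ε * v) := by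
      nlinarith [mul_nonneg (sq_nonneg ((ε : ℝ) * a)) hv]
    have h6 := le_of_mul_le_mul_left h5 hε
    nlinarith [mul_nonneg hε.le hv]
  have : (a : ℝ) * v ≤ j := by
    refine le_of_forall_pos_le_add fun δ hδ => ?_
    have hv : (0 : ℝ) ≤ v := v.2
    have h7 := key2 (δ / (v + 1)) (by positivity)
    have h8 : δ / (v + 1) * v ≤ δ := by
      rw [div_mul_eq_mul_div, div_le_iff₀ (by positivity)]
      nlinarith
    linarith
  exact_mod_cast this

theorem pot_ae (K : Set ℝ) (D : ℝ) (μ : Measure ℝ) [IsProbabilityMeasure μ]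
    (hK : μ Kᶜ = 0) (hfin : ∫⁻ x, pot D μ x ∂μ < ⊤)
    (hmin : ∀ ν : Measure ℝ, IsProbabilityMeasure ν → ν Kᶜ = 0 →
      ∫⁻ x, pot D μ x ∂μ ≤ ∫⁻ x, pot D ν x ∂ν) :
    ∀ᵐ x ∂μ, pot D μ x ≤ ∫⁻ x, pot D μ x ∂μ := by
  refine ae_le_of_forall_setLIntegral_le_of_sigmaFinite (pot_meas D μ) fun A hA _ => ?_
  set V := ∫⁻ x, pot D μ x ∂μ with hV
  have h1 := first_order K D μ hK hfin hmin Aᶜ
  have h2 := lintegral_add_compl (μ := μ) (pot D μ) hA
  have h3 : μ A * V + μ Aᶜ * V = V := by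
    rw [← add_mul, prob_add_prob_compl hA, one_mul]
  rw [setLIntegral_const, mul_comm]
  have h4 : ∫⁻ x in A, pot D μ x ∂μ + μ Aᶜ * V ≤ μ A * V + μ Aᶜ * V := by
    rw [h3]
    calc _ ≤ ∫⁻ x in A, pot D μ x ∂μ + ∫⁻ x in Aᶜ, pot D μ x ∂μ := by gcongr
      _ = V := h2
  exact (ENNReal.add_le_add_iff_right (ENNReal.mul_ne_top (measure_ne_top _ _) hfin.ne)).1 h4

theorem no_atom (D : ℝ) (μ : Measure ℝ) (V : ℝ≥0∞) (hV : V < ⊤)
    (h : ∀ᵐ x ∂μ, pot D μ x ≤ V) (w : ℝ) : ∀ᵐ y ∂μ, y ≠ w := by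
  have : μ {w} = 0 := by
    by_contra hne
    have h1 : pot D μ w ≤ V := by
      by_contra hc
      exact hne (measure_mono_null (by simpa using hc) h)
    have h2 : ∫⁻ y in {w}, ker D w y ∂μ ≤ pot D μ w :=
      lintegral_mono' Measure.restrict_le_self le_rfl
    rw [lintegral_singleton] at h2
    simp only [ker, if_true] at h2
    rw [ENNReal.top_mul hne] at h2
    exact absurd (h2.trans h1) (not_le.2 hV)
  exact measure_eq_zero_iff_ae_notMem.1 this

theorem pot_supp (D : ℝ) (hD : 0 < D) (μ : Measure ℝ) (V : ℝ≥0∞) (hV : V < ⊤)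
    (h : ∀ᵐ x ∂μ, pot D μ x ≤ V) (w : ℝ) (hw : w ∈ μ.support) : pot D μ w ≤ V := by
  have hcl : w ∈ closure {x | pot D μ x ≤ V} :=
    Measure.support_subset_of_isClosed isClosed_closure
      (mem_of_superset h subset_closure) hw
  obtain ⟨x, hx, hlim⟩ := mem_closure_iff_seq_limit.1 hcl
  have h1 : pot D μ w = ∫⁻ y, liminf (fun n => ker D (x n) y) atTop ∂μ := by
    refine lintegral_congr_ae ?_
    filter_upwards [no_atom D μ V hV h w] with y hy
    symm
    apply Tendsto.liminf_eq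
    have hne : |w - y| ≠ 0 := abs_ne_zero.2 (sub_ne_zero.2 (Ne.symm hy))
    have h2 : Tendsto (fun n => ENNReal.ofReal (Real.log (D / |x n - y|))) atTop
        (𝓝 (ENNReal.ofReal (Real.log (D / |w - y|)))) := by
      refine ENNReal.tendsto_ofReal (Tendsto.log ?_ (div_ne_zero hD.ne' hne))
      exact tendsto_const_nhds.div ((hlim.sub_const y).abs) hne
    have h3 : ∀ᶠ n in atTop, x n ≠ y := hlim.eventually_ne (Ne.symm hy)
    rw [ker, if_neg (Ne.symm hy)]
    refine h2.congr' ?_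
    filter_upwards [h3] with n hn
    rw [ker, if_neg hn]
  rw [h1]
  refine (lintegral_liminf_le fun n => ker_meas' D (x n)).trans ?_
  exact liminf_le_of_frequently_le' (Frequently.of_forall hx)

theorem gap (S : Set ℝ) (hS : IsCompact S) (hne : S.Nonempty) (w : ℝ) :
    ∃ a ∈ S, ∃ b ∈ S, ∃ l : ℝ, 0 ≤ l ∧ l ≤ 1 ∧
      ∀ y ∈ S, l * |a - y| + (1 - l) * |b - y| ≤ |w - y| := by
  by_cases h1 : (S ∩ Iic w).Nonempty
  · obtain ⟨a, ha⟩ := (hS.inter_right isClosed_Iic).exists_isGreatest h1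
    by_cases h2 : (S ∩ Ici w).Nonempty
    · obtain ⟨b, hb⟩ := (hS.inter_right isClosed_Ici).exists_isLeast h2
      have haw : a ≤ w := ha.1.2
      have hbw : w ≤ b := hb.1.2
      rcases eq_or_lt_of_le (haw.trans hbw) with hab | hab
      · refine ⟨a, ha.1.1, a, ha.1.1, 1, zero_le_one, le_rfl, fun y _ => ?_⟩
        have : w = a := by linarith
        rw [this]
        simp
      · have hd : 0 < b - a := by linarith
        refine ⟨a, ha.1.1, b, hb.1.1, (b - w) / (b - a), div_nonneg (by linarith) hd.le,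
          (div_le_one hd).2 (by linarith), fun y hy => ?_⟩
        rcases le_total y w with hyw | hyw
        · have hya : y ≤ a := ha.2 ⟨hy, hyw⟩
          rw [abs_of_nonneg (by linarith), abs_of_nonneg (by linarith),
            abs_of_nonneg (by linarith)]
          apply le_of_eq
          field_simp
          ring
        · have hyb : b ≤ y := hb.2 ⟨hy, hyw⟩
          rw [abs_of_nonpos (by linarith), abs_of_nonpos (by linarith),
            abs_of_nonpos (by linarith)]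
          apply le_of_eq
          field_simp
          ring
    · refine ⟨a, ha.1.1, a, ha.1.1, 1, zero_le_one, le_rfl, fun y hy => ?_⟩
      have hyw : y ≤ w := by
        by_contra hc
        exact h2 ⟨y, hy, (not_le.1 hc).le⟩
      have hya : y ≤ a := ha.2 ⟨hy, hyw⟩
      have haw : a ≤ w := ha.1.2
      rw [abs_of_nonneg (by linarith : 0 ≤ a - y), abs_of_nonneg (by linarith : 0 ≤ w - y)]
      linarith
  · obtain ⟨b, hb⟩ := hS.exists_isLeast hne
    refine ⟨b, hb.1, b, hb.1, 1, zero_le_one, le_rfl, fun y hy => ?_⟩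
    have hwb : w ≤ b := by
      by_contra hc
      exact h1 ⟨b, hb.1, (not_le.1 hc).le⟩
    have hyb : b ≤ y := hb.2 hy
    rw [abs_of_nonpos (by linarith : b - y ≤ 0), abs_of_nonpos (by linarith : w - y ≤ 0)]
    linarith

theorem pot_all (K : Set ℝ) (hKc : IsCompact K) (D : ℝ) (hD : 0 < D) (μ : Measure ℝ)
    [IsProbabilityMeasure μ] (hK : μ Kᶜ = 0) (V : ℝ≥0∞) (hV : V < ⊤)
    (h : ∀ᵐ x ∂μ, pot D μ x ≤ V) (w : ℂ) :
    ∫⁻ y : ℝ, ENNReal.ofReal (Real.log D - Real.log ‖(y : ℂ) - w‖) ∂μ ≤ V := by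
  have hS : IsCompact μ.support := hKc.of_isClosed_subset Measure.isClosed_support
    (Measure.support_subset_of_isClosed hKc.isClosed hK)
  obtain ⟨a, ha, b, hb, l, hl0, hl1, hab⟩ :=
    gap μ.support hS (Measure.nonempty_support (IsProbabilityMeasure.ne_zero μ)) w.re
  have hpt : ∀ᵐ y : ℝ ∂μ, ENNReal.ofReal (Real.log D - Real.log ‖(y : ℂ) - w‖) ≤
      ENNReal.ofReal l * ker D a y + ENNReal.ofReal (1 - l) * ker D b y := by
    filter_upwards [no_atom D μ V hV h a, no_atom D μ V hV h b, Measure.support_mem_ae]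
      with y hya hyb hy
    have h1 : 0 < |a - y| := abs_pos.2 (sub_ne_zero.2 (Ne.symm hya))
    have h2 : 0 < |b - y| := abs_pos.2 (sub_ne_zero.2 (Ne.symm hyb))
    have h3 : |w.re - y| ≤ ‖(y : ℂ) - w‖ := by
      have := Complex.abs_re_le_norm ((y : ℂ) - w)
      rw [abs_sub_comm]
      simpa using this
    have h4 := strictConcaveOn_log_Ioi.concaveOn.2 (mem_Ioi.2 h1) (mem_Ioi.2 h2) hl0
      (sub_nonneg.2 hl1) (by ring)
    simp only [smul_eq_mul] at h4
    have h5 : 0 < l * |a - y| + (1 - l) * |b - y| := by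
      have := (convex_Ioi (0 : ℝ)) (mem_Ioi.2 h1) (mem_Ioi.2 h2) hl0 (sub_nonneg.2 hl1) (by ring)
      simpa using this
    have h6 := Real.log_le_log h5 ((hab y hy).trans h3)
    rw [ker, ker, if_neg (Ne.symm hya), if_neg (Ne.symm hyb), ← ENNReal.ofReal_mul hl0,
      ← ENNReal.ofReal_mul (sub_nonneg.2 hl1), Real.log_div hD.ne' h1.ne',
      Real.log_div hD.ne' h2.ne']
    refine le_trans (ENNReal.ofReal_le_ofReal ?_) ENNReal.ofReal_add_le
    nlinarith
  refine (lintegral_mono_ae hpt).trans ?_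
  rw [lintegral_add_left ((ker_meas' D a).const_mul _), lintegral_const_mul _ (ker_meas' D a),
    lintegral_const_mul _ (ker_meas' D b)]
  have h7 := pot_supp D hD μ V hV h a ha
  have h8 := pot_supp D hD μ V hV h b hb
  calc ENNReal.ofReal l * pot D μ a + ENNReal.ofReal (1 - l) * pot D μ b
      ≤ ENNReal.ofReal l * V + ENNReal.ofReal (1 - l) * V := by gcongr
    _ = V := by
        rw [← add_mul, ← ENNReal.ofReal_add hl0 (sub_nonneg.2 hl1)]
        simp

theorem log_int (K : Set ℝ) (hKc : IsCompact K) (D : ℝ) (μ : Measure ℝ)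
    [IsProbabilityMeasure μ] (hK : μ Kᶜ = 0) (V : ℝ≥0∞) (hV : V < ⊤) (w : ℂ)
    (h : ∫⁻ y : ℝ, ENNReal.ofReal (Real.log D - Real.log ‖(y : ℂ) - w‖) ∂μ ≤ V) :
    Integrable (fun y : ℝ => Real.log ‖(y : ℂ) - w‖) μ ∧
      Real.log D - V.toReal ≤ ∫ y : ℝ, Real.log ‖(y : ℂ) - w‖ ∂μ := by
  have hc : Continuous fun y : ℝ => ‖(y : ℂ) - w‖ := by fun_prop
  have hm : Measurable fun y : ℝ => Real.log D - Real.log ‖(y : ℂ) - w‖ :=
    measurable_const.sub (Real.measurable_log.comp hc.measurable)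
  obtain ⟨C, hC⟩ := hKc.exists_bound_of_continuousOn hc.continuousOn
  have hi0 := integrable_toReal_of_lintegral_ne_top
    (ENNReal.measurable_ofReal.comp hm).aemeasurable (ne_top_of_le_ne_top hV.ne h)
  have hi : Integrable (fun y : ℝ => Real.log D - Real.log ‖(y : ℂ) - w‖) μ := by
    refine Integrable.mono' (hi0.add (integrable_const (C + |Real.log D|)))
      hm.aestronglyMeasurable ?_
    have hKa : ∀ᵐ y ∂μ, y ∈ K := hK
    filter_upwards [hKa] with y hy
    have h1 := hC y hy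
    rw [norm_norm] at h1
    have h2 : Real.log ‖(y : ℂ) - w‖ ≤ C := (Real.log_le_self (norm_nonneg _)).trans h1
    simp only [Pi.add_apply, Function.comp_apply, ENNReal.toReal_ofReal', Real.norm_eq_abs]
    rw [abs_le]
    have h3 := le_max_left (Real.log D - Real.log ‖(y : ℂ) - w‖) 0
    have h4 := le_max_right (Real.log D - Real.log ‖(y : ℂ) - w‖) 0
    have h5 := neg_abs_le (Real.log D)
    have h6 := abs_nonneg (Real.log D)
    have h7 := (norm_nonneg _).trans h1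
    constructor <;> linarith
  have hi2 : Integrable (fun y : ℝ => Real.log ‖(y : ℂ) - w‖) μ := by
    refine ((integrable_const (Real.log D)).sub hi).congr (Eventually.of_forall fun y => ?_)
    simp
  refine ⟨hi2, ?_⟩
  have h8 := integral_eq_lintegral_pos_part_sub_lintegral_neg_part hi
  rw [integral_sub (integrable_const _) hi2] at h8
  simp only [integral_const, probReal_univ, smul_eq_mul, one_mul] at h8
  have h9 := ENNReal.toReal_mono hV.ne h
  have h10 := ENNReal.toReal_nonneg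
    (a := ∫⁻ y : ℝ, ENNReal.ofReal (-(Real.log D - Real.log ‖(y : ℂ) - w‖)) ∂μ)
  linarith

theorem log_prod (μ : Measure ℝ) (L : ℝ) (hna : ∀ w : ℝ, ∀ᵐ y ∂μ, y ≠ w)
    (h : ∀ w : ℂ, Integrable (fun y : ℝ => Real.log ‖(y : ℂ) - w‖) μ ∧
      L ≤ ∫ y : ℝ, Real.log ‖(y : ℂ) - w‖ ∂μ) (s : Multiset ℂ) :
    (∀ᵐ y : ℝ ∂μ, (s.map ((y : ℂ) - ·)).prod ≠ 0) ∧
    Integrable (fun y : ℝ => Real.log ‖(s.map ((y : ℂ) - ·)).prod‖) μ ∧
      s.card * L ≤ ∫ y : ℝ, Real.log ‖(s.map ((y : ℂ) - ·)).prod‖ ∂μ := by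
  induction s using Multiset.induction_on with
  | empty => simp
  | cons w s ih =>
    obtain ⟨h1, h2, h3⟩ := ih
    have hw : ∀ᵐ y : ℝ ∂μ, (y : ℂ) - w ≠ 0 := by
      filter_upwards [hna w.re] with y hy hc
      apply hy
      rw [← sub_eq_zero.1 hc]
      simp
    have he : ∀ᵐ y : ℝ ∂μ, Real.log ‖(y : ℂ) - w‖ + Real.log ‖(s.map ((y : ℂ) - ·)).prod‖
        = Real.log ‖((w ::ₘ s).map ((y : ℂ) - ·)).prod‖ := by
      filter_upwards [h1, hw] with y a1 a2
      rw [Multiset.map_cons, Multiset.prod_cons, norm_mul,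
        Real.log_mul (norm_ne_zero_iff.2 a2) (norm_ne_zero_iff.2 a1)]
    refine ⟨?_, ((h w).1.add h2).congr he, ?_⟩
    · filter_upwards [h1, hw] with y a1 a2
      rw [Multiset.map_cons, Multiset.prod_cons]
      exact mul_ne_zero a2 a1
    · rw [← integral_congr_ae he, integral_add (h w).1 h2, Multiset.card_cons]
      push_cast
      linarith [(h w).2]

theorem log_poly (μ : Measure ℝ) (L : ℝ) (hna : ∀ w : ℝ, ∀ᵐ y ∂μ, y ≠ w)
    (h : ∀ w : ℂ, Integrable (fun y : ℝ => Real.log ‖(y : ℂ) - w‖) μ ∧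
      L ≤ ∫ y : ℝ, Real.log ‖(y : ℂ) - w‖ ∂μ) (Q : Polynomial ℝ) (hQ : Q.Monic) :
    (∀ᵐ y : ℝ ∂μ, Q.eval y ≠ 0) ∧ Integrable (fun y : ℝ => Real.log |Q.eval y|) μ ∧
      Q.natDegree * L ≤ ∫ y : ℝ, Real.log |Q.eval y| ∂μ := by
  set Qc := Q.map (algebraMap ℝ ℂ) with hQc
  have hs : Qc.Splits := IsAlgClosed.splits Qc
  have hm : Qc.Monic := hQ.map _
  have he : ∀ y : ℝ, (Qc.roots.map ((y : ℂ) - ·)).prod = ((Q.eval y : ℝ) : ℂ) := by
    intro y
    rw [← hs.eval_eq_prod_roots_of_monic hm, hQc]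
    exact Polynomial.eval_map_algebraMap Q (y : ℂ) ▸ (Polynomial.aeval_algebraMap_apply_eq_algebraMap_eval y Q)
  have hd : Qc.roots.card = Q.natDegree := by
    rw [← hs.natDegree_eq_card_roots, hQc, hQ.natDegree_map]
  have := log_prod μ L hna h Qc.roots
  simp only [he, hd, Complex.norm_real, Real.norm_eq_abs, ne_eq, Complex.ofReal_eq_zero] at this
  exact this

end Pool.Agent.H21.Eqm
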