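import Pool.Agent.H21.Eqm1

set_option autoImplicit false

open MeasureTheory Filter Set Topology Polynomial
open scoped ENNReal NNReal

namespace Pool.Agent.H21.Eqm

noncomputable def cheb (P : ℝ[X]) (s : ℝ) : ℕ → ℝ[X]
  | 0 => P
  | j + 1 => cheb P s j ^ 2 - C (2 * (s ^ 2 ^ j) ^ 2)

theorem cheb_monic (P : ℝ[X]) (hP : P.Monic) (hn : 1 ≤ P.natDegree) (s : ℝ) (j : ℕ) :
    (cheb P s j).Monic ∧ (cheb P s j).natDegree = P.natDegree * 2 ^ j := by
  induction j with
  | zero => simp [cheb, hP]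
  | succ j ih =>
    have h1 : (cheb P s j ^ 2).Monic := ih.1.pow 2
    have h2 : (cheb P s j ^ 2).natDegree = P.natDegree * 2 ^ (j + 1) := by
      rw [ih.1.natDegree_pow, ih.2]
      ring
    refine ⟨?_, ?_⟩
    · refine h1.sub_of_left (degree_C_le.trans_lt ?_)
      rw [← natDegree_pos_iff_degree_pos, h2]
      positivity
    · rw [cheb, natDegree_sub_C, h2]

theorem cheb_le (P : ℝ[X]) (s : ℝ) (hs : 0 < s) (x β γ : ℝ) (hβ : 0 < β) (hγ : 0 < γ)
    (h1 : β * γ = 1) (h2 : |P.eval x| ≤ s * (β + γ)) (j : ℕ) :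
    |(cheb P s j).eval x| ≤ s ^ 2 ^ j * (β ^ 2 ^ j + γ ^ 2 ^ j) := by
  induction j with
  | zero => simpa [cheb] using h2
  | succ j ih =>
    have e : ∀ a : ℝ, a ^ 2 ^ (j + 1) = (a ^ 2 ^ j) ^ 2 := fun a => by rw [pow_succ, pow_mul]
    rw [e, e, e]
    have h3 : β ^ 2 ^ j * γ ^ 2 ^ j = 1 := by rw [← mul_pow, h1, one_pow]
    set S := s ^ 2 ^ j
    set B := β ^ 2 ^ j
    set G := γ ^ 2 ^ j
    set q := (cheb P s j).eval x
    have h4 : (cheb P s (j + 1)).eval x = q ^ 2 - 2 * S ^ 2 := by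
      simp [cheb, q, S]
    have h5 : q ^ 2 ≤ (S * (B + G)) ^ 2 := by
      rw [← sq_abs q]
      exact pow_le_pow_left₀ (abs_nonneg _) ih 2
    have h6 : (S * (B + G)) ^ 2 = S ^ 2 * (B ^ 2 + G ^ 2) + 2 * S ^ 2 := by
      have : (S * (B + G)) ^ 2 = S ^ 2 * (B ^ 2 + G ^ 2) + 2 * S ^ 2 * (B * G) := by ring
      rw [this, h3, mul_one]
    have h7 : 2 ≤ B ^ 2 + G ^ 2 := by nlinarith [sq_nonneg (B - G)]
    rw [h4, abs_le]
    constructor
    · nlinarith [sq_nonneg q, sq_nonneg S]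
    · linarith

/-- `bet r = exp (arcosh⁺ r)` -/
noncomputable def bet (r : ℝ) : ℝ := max r 1 * (1 + √(1 - ((max r 1) ^ 2)⁻¹))

theorem bet_cont : Continuous bet := by
  unfold bet
  have h1 : Continuous fun r : ℝ => ((max r 1) ^ 2)⁻¹ := by
    refine Continuous.inv₀ (by fun_prop) fun r => ?_
    have := le_max_right r 1
    positivity
  fun_prop

theorem bet_ge (r : ℝ) : 1 ≤ bet r := by
  unfold bet
  have h1 := le_max_right r 1
  have h2 := Real.sqrt_nonneg (1 - ((max r 1) ^ 2)⁻¹)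
  nlinarith

theorem bet_inv (r : ℝ) : ∃ γ : ℝ, 0 < γ ∧ γ ≤ bet r ∧ bet r * γ = 1 ∧ 2 * r ≤ bet r + γ := by
  have h1 := le_max_right r 1
  have h0 := le_max_left r 1
  set m := max r 1 with hm
  have hm0 : 0 < m := by linarith
  have h2 : (m ^ 2)⁻¹ ≤ 1 := inv_le_one_of_one_le₀ (by nlinarith)
  have h3 := Real.sq_sqrt (sub_nonneg.2 h2)
  have h4 := Real.sqrt_nonneg (1 - (m ^ 2)⁻¹)
  have hb : bet r = m * (1 + √(1 - (m ^ 2)⁻¹)) := rfl
  set q := √(1 - (m ^ 2)⁻¹)
  have h5 : bet r * (m * (1 - q)) = 1 := by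
    have : bet r * (m * (1 - q)) = m ^ 2 * (1 - q ^ 2) := by rw [hb]; ring
    rw [this, h3]
    field_simp
    ring
  refine ⟨m * (1 - q), ?_, ?_, h5, ?_⟩
  · by_contra hc
    have := mul_nonpos_of_nonneg_of_nonpos (zero_le_one.trans (bet_ge r)) (not_lt.1 hc)
    linarith
  · rw [hb]
    nlinarith
  · rw [hb]
    nlinarith

theorem int_cont (K : Set ℝ) (hKc : IsCompact K) (μ : Measure ℝ) [IsProbabilityMeasure μ]
    (hK : μ Kᶜ = 0) (f : ℝ → ℝ) (hf : Continuous f) : Integrable f μ := by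
  obtain ⟨C, hC⟩ := hKc.exists_bound_of_continuousOn hf.continuousOn
  refine Integrable.of_bound hf.aestronglyMeasurable C ?_
  have hKa : ∀ᵐ y ∂μ, y ∈ K := hK
  filter_upwards [hKa] with y hy using hC y hy

theorem H_cont (P : ℝ[X]) (t : ℝ) : Continuous fun x => Real.log (bet (|P.eval x| / t)) := by
  refine Continuous.log (bet_cont.comp (by fun_prop)) fun x => ?_
  linarith [bet_ge (|P.eval x| / t)]

theorem stepA (K : Set ℝ) (hKc : IsCompact K) (μ : Measure ℝ) [IsProbabilityMeasure μ]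
    (hK : μ Kᶜ = 0) (L : ℝ)
    (h : ∀ Q : ℝ[X], Q.Monic → (∀ᵐ y : ℝ ∂μ, Q.eval y ≠ 0) ∧
      Integrable (fun y : ℝ => Real.log |Q.eval y|) μ ∧
      Q.natDegree * L ≤ ∫ y : ℝ, Real.log |Q.eval y| ∂μ)
    (P : ℝ[X]) (hP : P.Monic) (hn : 1 ≤ P.natDegree) (t : ℝ) (ht : 0 < t) :
    P.natDegree * L - Real.log (t / 2) ≤ ∫ x, Real.log (bet (|P.eval x| / t)) ∂μ := by
  have hi := int_cont K hKc μ hK _ (H_cont P t)
  set E := ∫ x, Real.log (bet (|P.eval x| / t)) ∂μ with hE
  have key : ∀ j : ℕ, (2 : ℝ) ^ j * (P.natDegree * L - Real.log (t / 2) - E) ≤ Real.log 2 := by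
    intro j
    obtain ⟨hm, hd⟩ := cheb_monic P hP hn (t / 2) j
    obtain ⟨h1, h2, h3⟩ := h _ hm
    have hpt : ∀ᵐ y : ℝ ∂μ, Real.log |(cheb P (t / 2) j).eval y| ≤
        (Real.log 2 + 2 ^ j * Real.log (t / 2)) + 2 ^ j * Real.log (bet (|P.eval y| / t)) := by
      filter_upwards [h1] with y hy
      obtain ⟨γ, g0, g1, g2, g3⟩ := bet_inv (|P.eval y| / t)
      have hb := bet_ge (|P.eval y| / t)
      set β := bet (|P.eval y| / t)
      have g4 : |P.eval y| ≤ t / 2 * (β + γ) := by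
        have : |P.eval y| = t / 2 * (2 * (|P.eval y| / t)) := by field_simp
        rw [this]
        exact mul_le_mul_of_nonneg_left g3 (by positivity)
      have g5 := cheb_le P (t / 2) (by positivity) y β γ (by linarith) g0 g2 g4 j
      have g6 : γ ^ 2 ^ j ≤ β ^ 2 ^ j := pow_le_pow_left₀ g0.le g1 _
      have g7 : |(cheb P (t / 2) j).eval y| ≤ 2 * (t / 2) ^ 2 ^ j * β ^ 2 ^ j := by
        have : (0 : ℝ) < (t / 2) ^ 2 ^ j := by positivity
        nlinarith
      have g8 := Real.log_le_log (abs_pos.2 hy) g7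
      rw [Real.log_mul (by positivity) (by positivity), Real.log_mul (by positivity)
        (by positivity), Real.log_pow, Real.log_pow] at g8
      push_cast at g8
      exact g8
    have h4 := integral_mono_ae h2 ((integrable_const _).add (hi.const_mul _)) hpt
    simp only [Pi.add_apply] at h4
    rw [integral_add (integrable_const _) (hi.const_mul _), integral_const_mul] at h4
    simp only [integral_const, probReal_univ, smul_eq_mul, one_mul] at h4
    rw [hd] at h3
    push_cast at h3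
    nlinarith
  by_contra hc
  have hd : 0 < P.natDegree * L - Real.log (t / 2) - E := by linarith [not_le.1 hc]
  obtain ⟨j, hj⟩ := pow_unbounded_of_one_lt
    (Real.log 2 / (P.natDegree * L - Real.log (t / 2) - E)) (show (1 : ℝ) < 2 by norm_num)
  rw [div_lt_iff₀ hd] at hj
  linarith [key j]

theorem ftc (g g' : ℝ → ℝ) (a b : ℝ) (hab : a ≤ b) (hc : ContinuousOn g (Icc a b))
    (hd : ∀ x ∈ Ioo a b, HasDerivAt g (g' x) x) (hp : ∀ x ∈ Ioo a b, 0 ≤ g' x) :
    ∫⁻ x in Ioo a b, ENNReal.ofReal (g' x) = ENNReal.ofReal (g b - g a) := by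
  have hi : IntervalIntegrable g' volume a b :=
    intervalIntegral.intervalIntegrable_deriv_of_nonneg (by rwa [uIcc_of_le hab])
      (by rwa [min_eq_left hab, max_eq_right hab]) (by rwa [min_eq_left hab, max_eq_right hab])
  rw [← intervalIntegral.integral_eq_sub_of_hasDerivAt_of_le hab hc hd hi,
    intervalIntegral.integral_of_le hab, integral_Ioc_eq_integral_Ioo,
    ofReal_integral_eq_lintegral_ofReal (hi.1.mono_set Ioo_subset_Ioc_self)]
  exact (ae_restrict_iff' measurableSet_Ioo).2 (Eventually.of_forall hp)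

noncomputable def dens (u : ℝ) : ℝ≥0∞ := ENNReal.ofReal (1 / (2 * u * √(1 - u)))

theorem dens_meas : Measurable dens := by
  unfold dens
  fun_prop

noncomputable def kap : Measure ℝ := (volume.restrict (Ioo 0 1)).withDensity dens

instance : SFinite kap := by
  unfold kap
  infer_instance

theorem kap_ge (r t : ℝ) (ht : 0 < t) :
    ENNReal.ofReal (Real.log (bet (r / t))) ≤ kap {u | t < r * √u} := by
  rcases le_or_gt (r / t) 1 with h | h
  · simp [bet, max_eq_right h]
  have hm : MeasurableSet {u : ℝ | t < r * √u} :=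
    measurableSet_lt measurable_const (by fun_prop)
  set m := r / t with hmm
  have hm0 : 0 < m := by linarith
  have ha0 : 0 < (m ^ 2)⁻¹ := by positivity
  have ha1 : (m ^ 2)⁻¹ ≤ 1 := inv_le_one_of_one_le₀ (by nlinarith)
  have hsub : Ioo (m ^ 2)⁻¹ 1 ⊆ {u : ℝ | t < r * √u} ∩ Ioo 0 1 := by
    intro u hu
    refine ⟨?_, ha0.trans hu.1, hu.2⟩
    have h1 : m⁻¹ < √u := by
      apply Real.lt_sqrt_of_sq_lt
      rw [inv_pow]
      exact hu.1
    have h2 : r = m * t := by rw [hmm]; field_simp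
    show t < r * √u
    rw [h2]
    have h3 : m * t * m⁻¹ = t := by field_simp
    have h4 := mul_lt_mul_of_pos_left h1 (mul_pos hm0 ht)
    linarith
  rw [kap, withDensity_apply _ hm, Measure.restrict_restrict hm]
  refine le_trans (le_of_eq ?_) (lintegral_mono_set hsub)
  unfold dens
  rw [ftc (fun u => Real.log u / 2 - Real.log (1 + √(1 - u))) _ _ _ ha1]
  · congr 1
    have h5 : 0 < 1 + √(1 - (m ^ 2)⁻¹) := by positivity
    rw [bet, max_eq_left h.le, Real.log_mul hm0.ne' h5.ne', Real.log_inv, Real.log_pow]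
    simp
    ring
  · refine ContinuousOn.sub (ContinuousOn.div_const (Real.continuousOn_log.mono ?_) _)
      (Continuous.continuousOn (Continuous.log (by fun_prop) fun u => by positivity))
    intro u hu
    exact (ha0.trans_le hu.1).ne'
  · intro u hu
    have hu0 : 0 < u := ha0.trans hu.1
    have hu1 : 0 < 1 - u := sub_pos.2 hu.2
    have hq : 0 < √(1 - u) := Real.sqrt_pos.2 hu1
    have d1 : HasDerivAt (fun u : ℝ => 1 + √(1 - u)) (-1 / (2 * √(1 - u))) u :=
      (((hasDerivAt_id' u).const_sub 1).sqrt hu1.ne').const_add 1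
    have d2 := ((Real.hasDerivAt_log hu0.ne').div_const 2).sub (d1.log (by positivity))
    refine HasDerivAt.congr_deriv d2 ?_
    have h6 := Real.sq_sqrt hu1.le
    generalize √(1 - u) = q at hq h6 ⊢
    have h7 : u = 1 - q ^ 2 := by linarith
    have h8 : 1 - q ^ 2 ≠ 0 := by rw [← h7]; exact hu0.ne'
    rw [h7]
    field_simp
    ring
  · intro u hu
    have hu0 : 0 < u := ha0.trans hu.1
    positivity

theorem kap_mom (p : ℝ) (hp : 0 < p) :
    ∫⁻ u, ENNReal.ofReal (√u ^ p) ∂kap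
      = ENNReal.ofReal (ProbabilityTheory.beta (p / 2) (1 / 2) / 2) := by
  have hb := ProbabilityTheory.beta_pos (show 0 < p / 2 by positivity)
    (show (0 : ℝ) < 1 / 2 by norm_num)
  have h1 := ProbabilityTheory.lintegral_betaPDF_eq_one (show 0 < p / 2 by positivity)
    (show (0 : ℝ) < 1 / 2 by norm_num)
  rw [ProbabilityTheory.lintegral_betaPDF] at h1
  set B := ProbabilityTheory.beta (p / 2) (1 / 2)
  rw [kap, lintegral_withDensity_eq_lintegral_mul _ dens_meas (by fun_prop),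
    ← mul_one (ENNReal.ofReal (B / 2)), ← h1, ← lintegral_const_mul' _ _ ENNReal.ofReal_ne_top]
  refine setLIntegral_congr_fun measurableSet_Ioo fun u hu => ?_
  have hu0 : 0 < u := hu.1
  have hu1 : 0 < 1 - u := sub_pos.2 hu.2
  have hq : 0 < √(1 - u) := Real.sqrt_pos.2 hu1
  simp only [Pi.mul_apply, dens]
  rw [← ENNReal.ofReal_mul (by positivity), ← ENNReal.ofReal_mul (by positivity)]
  congr 1
  have e1 : √u ^ p = u ^ (p / 2) := by
    rw [Real.sqrt_eq_rpow, ← Real.rpow_mul hu0.le]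
    congr 1
    ring
  have e2 : (1 - u) ^ ((1 : ℝ) / 2 - 1) = (√(1 - u))⁻¹ := by
    rw [Real.sqrt_eq_rpow, ← Real.rpow_neg hu1.le]
    congr 1
    ring
  rw [e1, e2, Real.rpow_sub_one hu0.ne']
  field_simp

theorem log_mom (p T : ℝ) (hp : 0 < p) (hT : 0 < T) :
    ∫⁻ t in Ioo 0 T, ENNReal.ofReal (p * (Real.log T - Real.log t) * t ^ (p - 1))
      = ENNReal.ofReal (T ^ p / p) := by
  rw [ftc (fun t => t ^ p * Real.log T - (t ^ p * Real.log (t ^ p)) / p + t ^ p / p) _ _ _ hT.le]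
  · congr 1
    rw [Real.log_rpow hT, Real.zero_rpow hp.ne']
    field_simp
    ring
  · have h1 : Continuous fun t : ℝ => t ^ p := Real.continuous_rpow_const hp.le
    have h2 : Continuous fun t : ℝ => t ^ p * Real.log (t ^ p) := Real.continuous_mul_log.comp h1
    exact (((h1.mul continuous_const).sub (h2.div_const p)).add (h1.div_const p)).continuousOn
  · intro t ht
    have ht0 : 0 < t := ht.1
    have d1 : HasDerivAt (fun t : ℝ => t ^ p) (p * t ^ (p - 1)) t :=
      Real.hasDerivAt_rpow_const (Or.inl ht0.ne')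
    have d2 := (Real.hasDerivAt_mul_log (Real.rpow_pos_of_pos ht0 p).ne').comp t d1
    have d3 := ((d1.mul_const (Real.log T)).sub (d2.div_const p)).add (d1.div_const p)
    refine HasDerivAt.congr_deriv d3 ?_
    rw [Real.log_rpow ht0]
    field_simp
    ring
  · intro t ht
    have ht0 : 0 < t := ht.1
    have := Real.log_le_log ht0 ht.2.le
    have h3 : 0 ≤ Real.log T - Real.log t := by linarith
    positivity

theorem moment (K : Set ℝ) (hKc : IsCompact K) (μ : Measure ℝ) [IsProbabilityMeasure μ]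
    (hK : μ Kᶜ = 0) (P : ℝ[X]) (T p : ℝ) (hT : 0 < T) (hp : 0 < p)
    (h : ∀ t : ℝ, 0 < t → Real.log T - Real.log t ≤ ∫ x, Real.log (bet (|P.eval x| / t)) ∂μ) :
    T ^ p / p ≤ (∫ x, |P.eval x| ^ p ∂μ) * (ProbabilityTheory.beta (p / 2) (1 / 2) / 2) := by
  have hb := ProbabilityTheory.beta_pos (show 0 < p / 2 by positivity)
    (show (0 : ℝ) < 1 / 2 by norm_num)
  have hf : Measurable fun z : ℝ × ℝ => |P.eval z.1| * √z.2 :=
    Continuous.measurable (by fun_prop)
  have h1 := lintegral_rpow_eq_lintegral_meas_lt_mul (μ.prod kap)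
    (f := fun z : ℝ × ℝ => |P.eval z.1| * √z.2)
    (Eventually.of_forall fun z => by positivity) hf.aemeasurable hp
  have hc : Continuous fun x => |P.eval x| ^ p :=
    (Real.continuous_rpow_const hp.le).comp (by fun_prop)
  have h2 : ∫⁻ z, ENNReal.ofReal ((|P.eval z.1| * √z.2) ^ p) ∂(μ.prod kap)
      = ENNReal.ofReal ((∫ x, |P.eval x| ^ p ∂μ) *
        (ProbabilityTheory.beta (p / 2) (1 / 2) / 2)) := by
    have e : ∀ z : ℝ × ℝ, ENNReal.ofReal ((|P.eval z.1| * √z.2) ^ p)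
        = ENNReal.ofReal (|P.eval z.1| ^ p) * ENNReal.ofReal (√z.2 ^ p) := fun z => by
      rw [Real.mul_rpow (abs_nonneg _) (Real.sqrt_nonneg _), ENNReal.ofReal_mul (by positivity)]
    simp_rw [e]
    rw [lintegral_prod_mul (f := fun x => ENNReal.ofReal (|P.eval x| ^ p))
      (g := fun u => ENNReal.ofReal (√u ^ p))
      (ENNReal.measurable_ofReal.comp hc.measurable).aemeasurable (by fun_prop), kap_mom p hp,
      ← ofReal_integral_eq_lintegral_ofReal (int_cont K hKc μ hK _ hc)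
        (Eventually.of_forall fun x => by positivity),
      ENNReal.ofReal_mul (integral_nonneg fun x => by positivity)]
  have h3 : ∀ t : ℝ, 0 < t → ENNReal.ofReal (Real.log T - Real.log t) ≤
      (μ.prod kap) {z : ℝ × ℝ | t < |P.eval z.1| * √z.2} := by
    intro t ht
    rw [Measure.prod_apply (measurableSet_lt measurable_const hf)]
    refine (ENNReal.ofReal_le_ofReal (h t ht)).trans ?_
    rw [ofReal_integral_eq_lintegral_ofReal (int_cont K hKc μ hK _ (H_cont P t))
      (Eventually.of_forall fun x => Real.log_nonneg (bet_ge _))]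
    exact lintegral_mono fun x => kap_ge _ t ht
  have h4 : ENNReal.ofReal (T ^ p / p) ≤ ENNReal.ofReal ((∫ x, |P.eval x| ^ p ∂μ) *
        (ProbabilityTheory.beta (p / 2) (1 / 2) / 2)) := by
    rw [← h2, h1, ← log_mom p T hp hT, ← lintegral_const_mul' _ _ ENNReal.ofReal_ne_top]
    refine le_trans ?_ (lintegral_mono_set (Ioo_subset_Ioi_self : Ioo 0 T ⊆ Ioi 0))
    refine setLIntegral_mono' measurableSet_Ioo fun t ht => ?_
    have := Real.log_le_log ht.1 ht.2.le
    rw [mul_assoc, ENNReal.ofReal_mul hp.le, ENNReal.ofReal_mul (by linarith)]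
    gcongr
    exact h3 t ht.1
  exact (ENNReal.ofReal_le_ofReal_iff (mul_nonneg (integral_nonneg fun x => by positivity)
    (by positivity))).1 h4

theorem main (K : Set ℝ) (hKc : IsCompact K) (D : ℝ) (hD : 0 < D) (μ : Measure ℝ)
    [IsProbabilityMeasure μ] (hK : μ Kᶜ = 0) (hfin : ∫⁻ x, pot D μ x ∂μ < ⊤)
    (hmin : ∀ ν : Measure ℝ, IsProbabilityMeasure ν → ν Kᶜ = 0 →
      ∫⁻ x, pot D μ x ∂μ ≤ ∫⁻ x, pot D ν x ∂ν)
    (p : ℝ) (hp : 0 < p) (P : ℝ[X]) (hP : P.Monic) (hn : 1 ≤ P.natDegree) :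
    (2 : ℝ) ^ p / √Real.pi * Real.Gamma ((p + 1) / 2) / Real.Gamma (p / 2 + 1)
      * (D * Real.exp (-(∫⁻ x, pot D μ x ∂μ).toReal)) ^ ((P.natDegree : ℝ) * p)
      ≤ ∫ x, |P.eval x| ^ p ∂μ := by
  have hae := pot_ae K D μ hK hfin hmin
  set V := ∫⁻ x, pot D μ x ∂μ with hV
  have hpoly := log_poly μ (Real.log D - V.toReal) (no_atom D μ V hfin hae)
    fun w => log_int K hKc D μ hK V hfin w (pot_all K hKc D hD μ hK V hfin hae w)
  set c := D * Real.exp (-V.toReal) with hc
  have hc0 : 0 < c := by positivity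
  have hlc : Real.log c = Real.log D - V.toReal := by
    rw [hc, Real.log_mul hD.ne' (Real.exp_pos _).ne', Real.log_exp]
    ring
  have h1 := moment K hKc μ hK P (2 * c ^ P.natDegree) p (by positivity) hp fun t ht => by
    have := stepA K hKc μ hK _ hpoly P hP hn t ht
    rw [Real.log_mul (by norm_num) (by positivity), Real.log_pow, hlc]
    rw [Real.log_div ht.ne' (by norm_num)] at this
    linarith
  have g1 : 0 < Real.Gamma (p / 2) := Real.Gamma_pos_of_pos (by positivity)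
  have g2 : 0 < Real.Gamma ((p + 1) / 2) := Real.Gamma_pos_of_pos (by positivity)
  have g3 : 0 < √Real.pi := Real.sqrt_pos.2 Real.pi_pos
  rw [ProbabilityTheory.beta, Real.Gamma_one_half_eq, show p / 2 + 1 / 2 = (p + 1) / 2 by ring,
    Real.mul_rpow (by norm_num) (by positivity), ← Real.rpow_natCast,
    ← Real.rpow_mul hc0.le] at h1
  rw [Real.Gamma_add_one (by positivity : p / 2 ≠ 0)]
  set A := ∫ x, |P.eval x| ^ p ∂μ
  have h2 : (2 : ℝ) ^ p / √Real.pi * Real.Gamma ((p + 1) / 2) / (p / 2 * Real.Gamma (p / 2))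
      * c ^ ((P.natDegree : ℝ) * p) = (2 ^ p * c ^ ((P.natDegree : ℝ) * p) / p) /
        (Real.Gamma (p / 2) * √Real.pi / Real.Gamma ((p + 1) / 2) / 2) := by
    field_simp
  rw [h2, div_le_iff₀ (by positivity)]
  exact h1

end Pool.Agent.H21.Eqm
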