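import Mathlib

set_option autoImplicit false

open Filter Set Metric Polynomial
open scoped ComplexConjugate

namespace Pool.Agent.H21.Erd

theorem fin_roots (Q : ℂ[X]) (hQ : Q.Monic) :
    ∃ ζ : ℕ → ℂ, ∀ x, Q.eval x = ∏ i ∈ Finset.range Q.natDegree, (x - ζ i) := by
  have hs : Q.Splits := IsAlgClosed.splits Q
  have key : ∀ s : Multiset ℂ, ∃ ζ : ℕ → ℂ, ∀ x : ℂ,
      (s.map (x - ·)).prod = ∏ i ∈ Finset.range s.card, (x - ζ i) := by
    intro s
    induction s using Multiset.induction_on with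
    | empty => exact ⟨0, by simp⟩
    | cons a s ih =>
      obtain ⟨ζ, h⟩ := ih
      refine ⟨Function.update ζ s.card a, fun x => ?_⟩
      rw [Multiset.map_cons, Multiset.prod_cons, Multiset.card_cons, Finset.prod_range_succ,
        Function.update_self, h, mul_comm]
      congr 1
      refine Finset.prod_congr rfl fun i hi => ?_
      rw [Function.update_of_ne (Finset.mem_range.1 hi).ne]
  obtain ⟨ζ, h⟩ := key Q.roots
  exact ⟨ζ, fun x => by rw [hs.eval_eq_prod_roots_of_monic hQ, h, hs.natDegree_eq_card_roots]⟩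

theorem chebR (H : ℂ[X]) (hH : H.Monic) (hd : 1 ≤ H.natDegree) :
    ∃ R : ℝ[X], R.Monic ∧ R.natDegree = H.natDegree ∧ ∀ θ : ℝ,
      2 ^ H.natDegree * |R.eval (Real.cos θ)| ≤
        ‖H.eval (Complex.exp (θ * Complex.I))‖ + ‖H.eval (Complex.exp (-θ * Complex.I))‖ := by
  set d := H.natDegree with hdd
  set S : ℝ[X] := ∑ k ∈ Finset.range (d + 1), C (H.coeff k).re * Chebyshev.T ℝ k with hS
  have h1 : S.natDegree ≤ d := by
    refine natDegree_sum_le_of_forall_le _ _ fun k hk => (natDegree_C_mul_le _ _).trans ?_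
    have := Finset.mem_range.1 hk
    simp only [Chebyshev.natDegree_T, Int.natAbs_natCast]
    omega
  have h2 : S.coeff d = 2 ^ (d - 1) := by
    rw [hS, finsetSum_coeff, Finset.sum_range_succ, Finset.sum_eq_zero, zero_add, coeff_C_mul]
    · have h3 : (Chebyshev.T ℝ d).coeff d = 2 ^ (d - 1) := by
        have := Chebyshev.leadingCoeff_T ℝ (d : ℤ)
        rw [leadingCoeff, Chebyshev.natDegree_T] at this
        simpa using this
      rw [h3, hdd, hH.coeff_natDegree]
      simp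
    · intro k hk
      rw [coeff_C_mul, coeff_eq_zero_of_natDegree_lt (p := Chebyshev.T ℝ k), mul_zero]
      simpa using hk
  have h4 : (C ((2 : ℝ) ^ (d - 1))⁻¹ * S).natDegree ≤ d := (natDegree_C_mul_le _ _).trans h1
  have h5 : (C ((2 : ℝ) ^ (d - 1))⁻¹ * S).coeff d = 1 := by
    rw [coeff_C_mul, h2]
    field_simp
  refine ⟨C ((2 : ℝ) ^ (d - 1))⁻¹ * S, monic_of_natDegree_le_of_coeff_eq_one d h4 h5,
    natDegree_eq_of_le_of_coeff_ne_zero h4 (by rw [h5]; exact one_ne_zero), fun θ => ?_⟩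
  have h6 : 2 * S.eval (Real.cos θ) =
      (H.eval (Complex.exp (θ * Complex.I)) + H.eval (Complex.exp (-θ * Complex.I))).re := by
    rw [eval_eq_sum_range (p := H), eval_eq_sum_range (p := H), ← Finset.sum_add_distrib,
      Complex.re_sum, hS, eval_finsetSum, Finset.mul_sum]
    refine Finset.sum_congr rfl fun k _ => ?_
    rw [eval_mul, eval_C, Chebyshev.T_real_cos, ← mul_add, ← Complex.exp_nat_mul,
      ← Complex.exp_nat_mul]
    have : Complex.exp (k * (θ * Complex.I)) + Complex.exp (k * (-θ * Complex.I))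
        = ((2 * Real.cos (k * θ) : ℝ) : ℂ) := by
      push_cast
      rw [Complex.two_cos]
      congr 2 <;> ring
    rw [this, Complex.re_mul_ofReal]
    push_cast
    ring
  have h7 : (2 : ℝ) ^ d = 2 ^ (d - 1) * 2 := by
    rw [← pow_succ]
    congr 1
    omega
  rw [eval_mul, eval_C, abs_mul, abs_of_pos (by positivity), h7]
  have h8 : 2 ^ (d - 1) * 2 * (((2 : ℝ) ^ (d - 1))⁻¹ * |S.eval (Real.cos θ)|)
      = |2 * S.eval (Real.cos θ)| := by
    rw [abs_mul, abs_two]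
    field_simp
  rw [h8, h6]
  exact (Complex.abs_re_le_norm _).trans (norm_add_le _ _)

theorem jouk (ζ : ℂ) (h : ζ.im ≠ 0) : ∃ α : ℂ, α ≠ 0 ∧ ‖α‖ < 1 ∧ α ^ 2 + 1 = 2 * α * ζ := by
  obtain ⟨d, hd⟩ := IsAlgClosed.exists_pow_nat_eq (ζ ^ 2 - 1) (show 0 < 2 by norm_num)
  have key : ∀ a b : ℂ, a * b = 1 → a + b = 2 * ζ → ‖a‖ ≤ 1 →
      ∃ α : ℂ, α ≠ 0 ∧ ‖α‖ < 1 ∧ α ^ 2 + 1 = 2 * α * ζ := by
    intro a b hab hs ha
    refine ⟨a, fun h0 => by simp [h0] at hab, lt_of_le_of_ne ha fun h1 => h ?_, ?_⟩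
    · have h2 : a * conj a = 1 := by rw [Complex.mul_conj']; simp [h1]
      have h3 : b = conj a := by
        calc b = b * (a * conj a) := by rw [h2, mul_one]
          _ = (a * b) * conj a := by ring
          _ = conj a := by rw [hab, one_mul]
      have h4 := congrArg Complex.im hs
      simp [h3] at h4
      exact h4
    · linear_combination a * hs - hab
  have h5 : (ζ + d) * (ζ - d) = 1 := by linear_combination -hd
  rcases le_total ‖ζ + d‖ 1 with h6 | h6
  · exact key _ _ h5 (by ring) h6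
  · refine key (ζ - d) (ζ + d) (by rw [mul_comm, h5]) (by ring) ?_
    have h7 := congrArg norm h5
    rw [norm_mul, norm_one] at h7
    nlinarith [norm_nonneg (ζ - d)]

theorem factor (P : ℝ[X]) (hP : P.Monic) (hn : 1 ≤ P.natDegree) (β : ℝ) (hβ : 0 < β) :
    ∃ κ : ℝ, 0 < κ ∧ ∃ α : ℕ → ℂ, (∀ i ∈ Finset.range P.natDegree, ‖α i‖ < 1) ∧
      ∀ z : ℂ, ‖z‖ = 1 → (P.eval z.re) ^ 2 + β ^ 2 =
        (κ * ∏ i ∈ Finset.range P.natDegree, (‖z - α i‖ * ‖z - conj (α i)‖)) ^ 2 := by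
  set Q : ℂ[X] := P.map (algebraMap ℝ ℂ) + C (β * Complex.I) with hQ
  have hdm : (P.map (algebraMap ℝ ℂ)).natDegree = P.natDegree := hP.natDegree_map _
  have hQm : Q.Monic := (hP.map _).add_of_left
    (degree_C_le.trans_lt (by rw [← natDegree_pos_iff_degree_pos, hdm]; omega))
  have hQd : Q.natDegree = P.natDegree := by rw [hQ, natDegree_add_C, hdm]
  have hev : ∀ x : ℝ, Q.eval (x : ℂ) = ((P.eval x : ℝ) : ℂ) + β * Complex.I := by
    intro x
    rw [hQ, eval_add, eval_C]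
    congr 1
    exact eval_map_algebraMap P (x : ℂ) ▸ (aeval_algebraMap_apply_eq_algebraMap_eval x P)
  obtain ⟨ζ, hζ⟩ := fin_roots Q hQm
  rw [hQd] at hζ
  have him : ∀ i, ∃ α : ℂ, α ≠ 0 ∧ (i ∈ Finset.range P.natDegree →
      ‖α‖ < 1 ∧ α ^ 2 + 1 = 2 * α * ζ i) := by
    intro i
    by_cases hi : i ∈ Finset.range P.natDegree
    · have : (ζ i).im ≠ 0 := by
        intro h0
        have h1 : ζ i = ((ζ i).re : ℂ) := Complex.ext (by simp) (by simp [h0])
        have h2 := hζ (ζ i)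
        rw [Finset.prod_eq_zero hi (sub_self _), h1, hev] at h2
        have h3 := congrArg Complex.im h2
        simp at h3
        exact hβ.ne' h3
      obtain ⟨α, a1, a2, a3⟩ := jouk _ this
      exact ⟨α, a1, fun _ => ⟨a2, a3⟩⟩
    · exact ⟨1, one_ne_zero, fun h => absurd h hi⟩
  choose α h0 hα using him
  refine ⟨∏ i ∈ Finset.range P.natDegree, (2 * ‖α i‖)⁻¹, Finset.prod_pos fun i _ => ?_, α,
    fun i hi => (hα i hi).1, fun z hz => ?_⟩
  · have := norm_pos_iff.2 (h0 i)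
    positivity
  · have h1 : (P.eval z.re) ^ 2 + β ^ 2 = ‖Q.eval (z.re : ℂ)‖ ^ 2 := by
      rw [hev, Complex.sq_norm, Complex.normSq_add_mul_I]
    rw [h1, hζ, norm_prod, ← Finset.prod_mul_distrib]
    congr 1
    refine Finset.prod_congr rfl fun i hi => ?_
    have h2 : z * conj z = 1 := by rw [Complex.mul_conj']; simp [hz]
    have h3 : (z.re : ℂ) * 2 = z + conj z := by rw [Complex.add_conj]; push_cast; ring
    have h4 : 2 * α i * ((z.re : ℂ) - ζ i) = -((z - α i) * (conj z - α i)) := by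
      linear_combination α i * h3 + (hα i hi).2 + h2
    have h5 := congrArg norm h4
    have h6 : ‖conj z - α i‖ = ‖z - conj (α i)‖ := by
      rw [← Complex.norm_conj]
      simp
    rw [norm_neg, norm_mul, norm_mul, norm_mul, h6] at h5
    have h7 := norm_pos_iff.2 (h0 i)
    simp only [Complex.norm_ofNat] at h5
    rw [← h5]
    field_simp

theorem dil (w : ℂ) (hw : ‖w‖ ≤ 1) (r : ℝ) (hr0 : 0 ≤ r) (hr1 : r ≤ 1) :
    r * ‖1 - w‖ ^ 2 ≤ ‖1 - r * w‖ ^ 2 := by
  have h1 : w.re ^ 2 + w.im ^ 2 ≤ 1 := by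
    have := Complex.sq_norm w
    rw [Complex.normSq_apply] at this
    nlinarith [norm_nonneg w]
  rw [Complex.sq_norm, Complex.sq_norm, Complex.normSq_apply, Complex.normSq_apply]
  simp only [Complex.sub_re, Complex.sub_im, Complex.mul_re, Complex.mul_im,
    Complex.one_re, Complex.one_im, Complex.ofReal_re, Complex.ofReal_im]
  have h2 : 0 ≤ (1 - r) * (1 - r * (w.re ^ 2 + w.im ^ 2)) :=
    mul_nonneg (by linarith) (by nlinarith)
  nlinarith

theorem le_of_sq_le_sq' {a b : ℝ} (hb : 0 ≤ b) (h : a ^ 2 ≤ b ^ 2) : a ≤ b :=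
  (abs_le_of_sq_le_sq' h hb).2

theorem harnack (n : ℕ) (α : ℕ → ℂ) (hα : ∀ i ∈ Finset.range n, ‖α i‖ < 1) (l : ℝ)
    (h : ∀ z : ℂ, ‖z‖ = 1 →
      1 ≤ Real.exp l * ∏ i ∈ Finset.range n, (‖z - α i‖ * ‖z - conj (α i)‖)) :
    0 ≤ l ∧ ∀ r : ℝ, 0 < r → r < 1 → ∀ z : ℂ, ‖z‖ = 1 →
      r ^ n * ∏ i ∈ Finset.range n, (‖z - α i‖ * ‖z - conj (α i)‖)
        ≤ Real.exp (2 * (l + 1) / (1 - r)) := by
  set L : ℂ → ℂ := fun u => ∑ i ∈ Finset.range n,
    (Complex.log (1 - α i * u) + Complex.log (1 - conj (α i) * u)) with hL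
  have hs : ∀ a u : ℂ, ‖a‖ < 1 → ‖u‖ ≤ 1 → 1 - a * u ∈ Complex.slitPlane := by
    intro a u ha hu
    rw [sub_eq_add_neg]
    apply Complex.mem_slitPlane_of_norm_lt_one
    rw [norm_neg, norm_mul]
    nlinarith [norm_nonneg a, norm_nonneg u]
  have hd : DifferentiableOn ℂ L (closedBall 0 1) := by
    intro u hu
    apply DifferentiableAt.differentiableWithinAt
    have hu' := mem_closedBall_zero_iff.1 hu
    refine DifferentiableAt.fun_sum fun i hi => DifferentiableAt.add ?_ ?_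
    · exact DifferentiableAt.clog (by fun_prop) (hs _ _ (hα i hi) hu')
    · exact DifferentiableAt.clog (by fun_prop) (hs _ _ (by simpa using hα i hi) hu')
  have he : ∀ u : ℂ, ‖u‖ ≤ 1 → Real.exp (L u).re =
      ∏ i ∈ Finset.range n, (‖1 - α i * u‖ * ‖1 - conj (α i) * u‖) := by
    intro u hu
    rw [hL, Complex.re_sum, Real.exp_sum]
    refine Finset.prod_congr rfl fun i hi => ?_
    rw [Complex.add_re, Real.exp_add, Complex.log_re, Complex.log_re,
      Real.exp_log (norm_pos_iff.2 (Complex.slitPlane_ne_zero (hs _ _ (hα i hi) hu))),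
      Real.exp_log (norm_pos_iff.2 (Complex.slitPlane_ne_zero
        (hs _ _ (by simpa using hα i hi) hu)))]
  have hsw : ∀ a z : ℂ, ‖z‖ = 1 → ‖1 - a * z‖ = ‖z - conj a‖ := by
    intro a z hz
    have h2 : z * conj z = 1 := by rw [Complex.mul_conj']; simp [hz]
    have h3 : 1 - a * z = z * conj (z - conj a) := by
      simp only [map_sub, Complex.conj_conj]
      linear_combination -h2
    rw [h3, norm_mul, hz, one_mul, Complex.norm_conj]
  have hb : ∀ z : ℂ, ‖z‖ = 1 → ∏ i ∈ Finset.range n, (‖z - α i‖ * ‖z - conj (α i)‖)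
      = ∏ i ∈ Finset.range n, (‖1 - α i * z‖ * ‖1 - conj (α i) * z‖) := by
    intro z hz
    refine Finset.prod_congr rfl fun i _ => ?_
    rw [hsw _ _ hz, hsw _ _ hz, Complex.conj_conj, mul_comm]
  have hmax : ∀ u : ℂ, ‖u‖ ≤ 1 → -(L u).re ≤ l := by
    intro u hu
    have h1 : DiffContOnCl ℂ (fun u => Complex.exp (-L u)) (ball 0 1) := by
      apply DifferentiableOn.diffContOnCl
      rw [closure_ball _ one_ne_zero]
      exact hd.neg.cexp
    have h2 := Complex.norm_le_of_forall_mem_frontier_norm_le (C := Real.exp l) isBounded_ball h1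
      (fun z hz => by
        rw [frontier_ball _ one_ne_zero, mem_sphere_zero_iff_norm] at hz
        have h3 := h z hz
        rw [hb z hz, ← he z hz.le, ← Real.exp_add, Real.one_le_exp_iff] at h3
        rw [Complex.norm_exp, Complex.neg_re, Real.exp_le_exp]
        linarith) (z := u) (by rw [closure_ball _ one_ne_zero]; simpa using hu)
    rwa [Complex.norm_exp, Complex.neg_re, Real.exp_le_exp] at h2
  have hL0 : L 0 = 0 := by simp [hL]
  have hl : 0 ≤ l := by simpa [hL0] using hmax 0 (by simp)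
  refine ⟨hl, fun r hr0 hr1 z hz => ?_⟩
  have hrz : ‖(r : ℂ) * z‖ = r := by simp [hz, abs_of_pos hr0]
  have h4 := Complex.borelCaratheodory_zero (f := fun u => -L u) (M := l + 1) (R := 1)
    (z := r * z) (by linarith) (hd.neg.mono ball_subset_closedBall)
    (fun u hu => by
      have := hmax u (mem_ball_zero_iff.1 hu).le
      show (-L u).re ≤ l + 1
      rw [Complex.neg_re]
      linarith) one_pos (by rw [mem_ball_zero_iff, hrz]; exact hr1) (by simp [hL0])
  rw [hrz, norm_neg] at h4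
  have h5 : (L (r * z)).re ≤ 2 * (l + 1) / (1 - r) := by
    refine (Complex.re_le_norm _).trans (h4.trans ?_)
    refine div_le_div_of_nonneg_right ?_ (by linarith)
    nlinarith
  refine le_trans ?_ (Real.exp_le_exp.2 h5)
  rw [he _ (by rw [hrz]; exact hr1.le), hb z hz, ← Finset.card_range n, ← Finset.prod_const,
    Finset.card_range, ← Finset.prod_mul_distrib]
  refine Finset.prod_le_prod (fun i _ => by positivity) fun i hi => ?_
  have a1 := dil (α i * z) (by rw [norm_mul, hz, mul_one]; exact (hα i hi).le) r hr0.le hr1.le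
  have a2 := dil (conj (α i) * z)
    (by rw [norm_mul, hz, mul_one, Complex.norm_conj]; exact (hα i hi).le) r hr0.le hr1.le
  rw [mul_left_comm] at a1 a2
  refine le_of_sq_le_sq' (by positivity) ?_
  calc (r * (‖1 - α i * z‖ * ‖1 - conj (α i) * z‖)) ^ 2
      = (r * ‖1 - α i * z‖ ^ 2) * (r * ‖1 - conj (α i) * z‖ ^ 2) := by ring
    _ ≤ ‖1 - α i * (r * z)‖ ^ 2 * ‖1 - conj (α i) * (r * z)‖ ^ 2 :=
        mul_le_mul a1 a2 (by positivity) (by positivity)
    _ = _ := by ring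

theorem fejer (P : ℝ[X]) (hP : P.Monic) (hn : 1 ≤ P.natDegree) (β : ℝ) (hβ : 0 < β) :
    ∃ l : ℝ, 0 ≤ l ∧ (∃ R : ℝ[X], R.Monic ∧ R.natDegree = 2 * P.natDegree ∧
      ∀ x ∈ Icc (-1 : ℝ) 1, (Real.exp l * β * 4 ^ P.natDegree) ^ 2 * (R.eval x) ^ 2
        ≤ 4 * ((P.eval x) ^ 2 + β ^ 2)) ∧
      ∀ r : ℝ, 0 < r → r < 1 → ∀ x ∈ Icc (-1 : ℝ) 1,
        r ^ P.natDegree * |P.eval x| ≤ β * Real.exp (l + 2 * (l + 1) / (1 - r)) := by
  obtain ⟨κ, hκ, α, hα, h⟩ := factor P hP hn β hβ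
  set n := P.natDegree with hnn
  have hl : Real.exp (Real.log (κ / β)) = κ / β := Real.exp_log (by positivity)
  have hpp : ∀ z : ℂ, 0 ≤ ∏ i ∈ Finset.range n, (‖z - α i‖ * ‖z - conj (α i)‖) :=
    fun z => Finset.prod_nonneg fun i _ => by positivity
  obtain ⟨h1, h2⟩ := harnack n α hα (Real.log (κ / β)) fun z hz => by
    rw [hl, div_mul_eq_mul_div, one_le_div hβ]
    refine le_of_sq_le_sq' (mul_nonneg hκ.le (hpp z)) ?_
    rw [← h z hz]
    nlinarith [sq_nonneg (P.eval z.re)]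
  have hz1 : ∀ θ : ℝ, ‖Complex.exp (θ * Complex.I)‖ = 1 := Complex.norm_exp_ofReal_mul_I
  refine ⟨Real.log (κ / β), h1, ?_, ?_⟩
  · set H : ℂ[X] := ∏ i ∈ Finset.range n, ((X - C (α i)) * (X - C (conj (α i)))) with hH
    have hm : ∀ i ∈ Finset.range n, ((X - C (α i)) * (X - C (conj (α i)))).Monic :=
      fun i _ => (monic_X_sub_C _).mul (monic_X_sub_C _)
    have hHd : H.natDegree = 2 * n := by
      rw [hH, natDegree_prod_of_monic _ _ hm, Finset.sum_congr rfl fun i _ =>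
        (monic_X_sub_C _).natDegree_mul (monic_X_sub_C _)]
      simp [mul_comm]
    have hHe : ∀ z : ℂ, ‖H.eval z‖ = ∏ i ∈ Finset.range n, (‖z - α i‖ * ‖z - conj (α i)‖) := by
      intro z
      rw [hH, eval_prod, norm_prod]
      simp
    obtain ⟨R, r1, r2, r3⟩ := chebR H (monic_prod_of_monic _ _ hm) (by omega)
    refine ⟨R, r1, r2.trans hHd, fun x hx => ?_⟩
    have a1 := r3 (Real.arccos x)
    have a2 := h _ (hz1 (Real.arccos x))
    have a3 := h _ (hz1 (-Real.arccos x))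
    rw [Complex.exp_ofReal_mul_I_re] at a2 a3
    rw [Real.cos_neg] at a3
    rw [Real.cos_arccos hx.1 hx.2] at a1 a2 a3
    rw [← hHe] at a2 a3
    push_cast at a3
    rw [hHd, pow_mul] at a1
    set A := ‖H.eval (Complex.exp (Real.arccos x * Complex.I))‖
    set B := ‖H.eval (Complex.exp (-Real.arccos x * Complex.I))‖
    have a4 : ((2 ^ 2) ^ n * |R.eval x|) ^ 2 ≤ (A + B) ^ 2 :=
      pow_le_pow_left₀ (by positivity) a1 2
    have a5 : Real.exp (Real.log (κ / β)) * β = κ := by rw [hl]; field_simp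
    rw [a5]
    calc (κ * 4 ^ n) ^ 2 * (R.eval x) ^ 2 = κ ^ 2 * ((2 ^ 2) ^ n * |R.eval x|) ^ 2 := by
          rw [mul_pow _ |R.eval x|, sq_abs]
          norm_num
          ring
      _ ≤ κ ^ 2 * (A + B) ^ 2 := by gcongr
      _ ≤ 2 * (κ * A) ^ 2 + 2 * (κ * B) ^ 2 := by nlinarith [sq_nonneg (κ * A - κ * B)]
      _ = _ := by rw [← a2, ← a3]; ring
  · intro r hr0 hr1 x hx
    have a2 := h _ (hz1 (Real.arccos x))
    rw [Complex.exp_ofReal_mul_I_re, Real.cos_arccos hx.1 hx.2] at a2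
    have a3 := h2 r hr0 hr1 _ (hz1 (Real.arccos x))
    have a4 : |P.eval x| ≤ κ * ∏ i ∈ Finset.range n,
        (‖Complex.exp (Real.arccos x * Complex.I) - α i‖ *
          ‖Complex.exp (Real.arccos x * Complex.I) - conj (α i)‖) := by
      refine abs_le_of_sq_le_sq' ?_ (mul_nonneg hκ.le (hpp _)) |> abs_le.2
      rw [← a2]
      nlinarith [sq_nonneg β]
    rw [Real.exp_add, hl, ← mul_assoc, mul_div_cancel₀ _ hβ.ne']
    refine (mul_le_mul_of_nonneg_left a4 (by positivity)).trans ?_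
    rw [mul_left_comm]
    exact mul_le_mul_of_nonneg_left a3 hκ.le

end Pool.Agent.H21.Erd
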