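import Pool.Agent.H21.Erd1

set_option autoImplicit false

open Filter Set Metric Polynomial MeasureTheory

namespace Pool.Agent.H21.Erd

theorem split (s : Multiset ℝ) (a m : ℕ) (h : s.card = a + m) :
    ∃ s' H : Multiset ℝ, s = s' + H ∧ s'.card = a ∧ H.card = m ∧ ∀ y ∈ s', ∀ z ∈ H, y ≤ z := by
  set l := s.sort (· ≤ ·) with hl
  have h1 : l.length = a + m := by rw [hl, Multiset.length_sort, h]
  have h2 : l.Pairwise (· ≤ ·) := Multiset.pairwise_sort s _
  refine ⟨(l.take a : List ℝ), (l.drop a : List ℝ), ?_, ?_, ?_, ?_⟩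
  · rw [Multiset.coe_add, List.take_append_drop, hl, Multiset.sort_eq]
  · simp [h1]
  · simp [h1]
  · rw [← List.take_append_drop a l, List.pairwise_append] at h2
    intro y hy z hz
    exact h2.2.2 y (Multiset.mem_coe.1 hy) z (Multiset.mem_coe.1 hz)

theorem pow_le_prod (H : Multiset ℝ) (f : ℝ → ℝ) (c : ℝ) (hc : 0 ≤ c) (h : ∀ z ∈ H, c ≤ f z) :
    c ^ H.card ≤ (H.map f).prod := by
  induction H using Multiset.induction_on with
  | empty => simp
  | cons a H ih =>
    rw [Multiset.card_cons, Multiset.map_cons, Multiset.prod_cons, pow_succ']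
    have h1 := h a (Multiset.mem_cons_self _ _)
    exact mul_le_mul h1 (ih fun z hz => h z (Multiset.mem_cons_of_mem hz)) (by positivity)
      (hc.trans h1)

theorem prod_nn (H : Multiset ℝ) (x : ℝ) : 0 ≤ (H.map fun y => |x - y|).prod :=
  le_trans (by positivity) (pow_le_prod H _ 0 le_rfl fun _ _ => abs_nonneg _)

theorem group (m : ℕ) (hm : 1 ≤ m) (n : ℕ) : ∀ s : Multiset ℝ, s.card = (n + 1) * m →
    ∃ P : ℝ[X], P.Monic ∧ P.natDegree = n ∧ ∀ x, ∃ G ≤ s, G.card = m ∧
      |P.eval x| ^ m * (G.map fun y => |x - y|).prod ≤ (s.map fun y => |x - y|).prod := by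
  induction n with
  | zero =>
    intro s hs
    exact ⟨1, monic_one, natDegree_one, fun x => ⟨s, le_rfl, by simpa using hs, by simp⟩⟩
  | succ n ih =>
    intro s hs
    obtain ⟨s', H, rfl, h1, h2, h3⟩ := split s ((n + 1) * m) m (by rw [hs]; ring)
    obtain ⟨P, p1, p2, p3⟩ := ih s' h1
    have hne : H.toFinset.Nonempty := by
      rw [Multiset.toFinset_nonempty]
      rintro rfl
      simp at h2
      omega
    obtain ⟨a, ha, hmin⟩ := Finset.exists_min_image H.toFinset id hne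
    simp only [Multiset.mem_toFinset, id] at ha hmin
    refine ⟨P * (X - C a), p1.mul (monic_X_sub_C a), by
      rw [p1.natDegree_mul (monic_X_sub_C a), p2, natDegree_X_sub_C], fun x => ?_⟩
    obtain ⟨G, g1, g2, g3⟩ := p3 x
    have e : |(P * (X - C a)).eval x| ^ m = |P.eval x| ^ m * |x - a| ^ m := by
      simp [abs_mul, mul_pow]
    rw [e, Multiset.map_add, Multiset.prod_add]
    rcases le_total x a with hx | hx
    · refine ⟨G, g1.trans (Multiset.le_add_right _ _), g2, ?_⟩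
      have h4 := pow_le_prod H (fun y => |x - y|) |x - a| (abs_nonneg _) fun z hz => by
        have := hmin z hz
        rw [abs_of_nonpos (by linarith), abs_of_nonpos (by linarith)]
        linarith
      rw [h2] at h4
      rw [mul_right_comm]
      exact mul_le_mul g3 h4 (by positivity) (prod_nn _ _)
    · refine ⟨H, Multiset.le_add_left _ _, h2, mul_le_mul_of_nonneg_right ?_ (prod_nn _ _)⟩
      have h4 := pow_le_prod G (fun y => |x - y|) |x - a| (abs_nonneg _) fun z hz => by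
        have := h3 z (Multiset.mem_of_le g1 hz) a ha
        rw [abs_of_nonneg (by linarith), abs_of_nonneg (by linarith)]
        linarith
      rw [g2] at h4
      exact (mul_le_mul_of_nonneg_left h4 (by positivity)).trans g3

theorem amgm (σ x : ℝ) (hσ : 0 < σ) (G : Multiset ℝ) (h : x ∉ G) :
    (σ ^ 2) ^ G.card ≤ Real.exp (2 * (σ * (G.map fun y => (√|x - y|)⁻¹).sum - G.card)) *
      (G.map fun y => |x - y|).prod := by
  induction G using Multiset.induction_on with
  | empty => simp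
  | cons a G ih =>
    rw [Multiset.mem_cons, not_or] at h
    have h1 := ih h.2
    have h2 : 0 < |x - a| := abs_pos.2 (sub_ne_zero.2 h.1)
    have h3 : 0 < √|x - a| := Real.sqrt_pos.2 h2
    have h4 : σ ^ 2 ≤ Real.exp (2 * (σ * (√|x - a|)⁻¹ - 1)) * |x - a| := by
      have a1 := Real.add_one_le_exp (σ * (√|x - a|)⁻¹ - 1)
      have a2 : (σ * (√|x - a|)⁻¹) ^ 2 ≤ Real.exp (σ * (√|x - a|)⁻¹ - 1) ^ 2 :=
        pow_le_pow_left₀ (by positivity) (by linarith) 2
      rw [← Real.exp_nat_mul, mul_pow, inv_pow, Real.sq_sqrt h2.le, ← div_eq_mul_inv,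
        div_le_iff₀ h2] at a2
      exact_mod_cast a2
    rw [Multiset.card_cons, Multiset.map_cons, Multiset.map_cons, Multiset.prod_cons,
      Multiset.sum_cons, pow_succ']
    refine (mul_le_mul h4 h1 (by positivity) (by positivity)).trans (le_of_eq ?_)
    rw [mul_mul_mul_comm, ← Real.exp_add]
    congr 2
    push_cast
    ring

theorem sum_nn (H : Multiset ℝ) (x : ℝ) : 0 ≤ (H.map fun y => (√|x - y|)⁻¹).sum :=
  Multiset.sum_nonneg fun a ha => by
    obtain ⟨y, -, rfl⟩ := Multiset.mem_map.1 ha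
    positivity

theorem pt (m : ℕ) (hm : 1 ≤ m) (s G : Multiset ℝ) (hG : G ≤ s) (hc : G.card = m) (x v c σ : ℝ)
    (hv : 0 ≤ v) (hc0 : 0 ≤ c) (hσ : 0 < σ) (hx : x ∉ s)
    (h1 : v ^ m * (G.map fun y => |x - y|).prod ≤ c ^ m)
    (h2 : σ * (s.map fun y => (√|x - y|)⁻¹).sum ≤ m) : v * σ ^ 2 ≤ c := by
  have h3 := amgm σ x hσ G fun h => hx (Multiset.mem_of_le hG h)
  obtain ⟨t, rfl⟩ := Multiset.le_iff_exists_add.1 hG
  rw [Multiset.map_add, Multiset.sum_add] at h2
  have h4 : Real.exp (2 * (σ * (G.map fun y => (√|x - y|)⁻¹).sum - G.card)) ≤ 1 := by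
    rw [Real.exp_le_one_iff, hc]
    nlinarith [mul_nonneg hσ.le (sum_nn t x)]
  have h5 : (σ ^ 2) ^ m ≤ (G.map fun y => |x - y|).prod := by
    rw [← hc]
    exact h3.trans (mul_le_of_le_one_left (prod_nn _ _) h4)
  refine le_of_pow_le_pow_left₀ (show m ≠ 0 by omega) hc0 ?_
  rw [mul_pow]
  exact (mul_le_mul_of_nonneg_left h5 (by positivity)).trans h1

theorem int_one (y : ℝ) (hy : y ∈ Icc (-1 : ℝ) 1) :
    IntervalIntegrable (fun x => (√|x - y|)⁻¹) volume (-1) 1 ∧
      ∫ x in (-1 : ℝ)..1, (√|x - y|)⁻¹ ≤ 8 := by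
  have d1 : ∀ x ∈ Ioo y 1, HasDerivAt (fun x => 2 * √(x - y)) (√|x - y|)⁻¹ x := by
    intro x hx
    have h : 0 < x - y := sub_pos.2 hx.1
    refine HasDerivAt.congr_deriv ((((hasDerivAt_id' x).sub_const y).sqrt h.ne').const_mul 2) ?_
    rw [abs_of_pos h]
    field_simp
  have d2 : ∀ x ∈ Ioo (-1) y, HasDerivAt (fun x => -2 * √(y - x)) (√|x - y|)⁻¹ x := by
    intro x hx
    have h : 0 < y - x := sub_pos.2 hx.2
    refine HasDerivAt.congr_deriv
      ((((hasDerivAt_id' x).const_sub y).sqrt h.ne').const_mul (-2)) ?_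
    rw [abs_sub_comm, abs_of_pos h]
    field_simp
  have c1 : Continuous fun x : ℝ => 2 * √(x - y) := by fun_prop
  have c2 : Continuous fun x : ℝ => -2 * √(y - x) := by fun_prop
  have i1 : IntervalIntegrable (fun x => (√|x - y|)⁻¹) volume y 1 :=
    intervalIntegral.intervalIntegrable_deriv_of_nonneg c1.continuousOn
      (by rwa [min_eq_left hy.2, max_eq_right hy.2]) fun x _ => by positivity
  have i2 : IntervalIntegrable (fun x => (√|x - y|)⁻¹) volume (-1) y :=
    intervalIntegral.intervalIntegrable_deriv_of_nonneg c2.continuousOn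
      (by rwa [min_eq_left hy.1, max_eq_right hy.1]) fun x _ => by positivity
  refine ⟨i2.trans i1, ?_⟩
  rw [← intervalIntegral.integral_add_adjacent_intervals i2 i1,
    intervalIntegral.integral_eq_sub_of_hasDerivAt_of_le hy.2 c1.continuousOn d1 i1,
    intervalIntegral.integral_eq_sub_of_hasDerivAt_of_le hy.1 c2.continuousOn d2 i2]
  have a1 : √(y - -1) ≤ 2 := Real.sqrt_le_iff.2 ⟨by norm_num, by linarith [hy.2]⟩
  have a2 : √(1 - y) ≤ 2 := Real.sqrt_le_iff.2 ⟨by norm_num, by linarith [hy.1]⟩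
  simp only [sub_self, Real.sqrt_zero]
  linarith

noncomputable def nu : Measure ℝ := volume.restrict (Ioc (-1) 1)

instance : IsFiniteMeasure nu := by
  unfold nu
  infer_instance

theorem nu_int (f : ℝ → ℝ) : ∫ x in (-1 : ℝ)..1, f x = ∫ x, f x ∂nu :=
  intervalIntegral.integral_of_le (by norm_num)

theorem nu_ae : ∀ᵐ x ∂nu, x ∈ Icc (-1 : ℝ) 1 := by
  filter_upwards [ae_restrict_mem (μ := volume) (s := Ioc (-1 : ℝ) 1) measurableSet_Ioc]
    with x hx using Ioc_subset_Icc_self hx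

theorem nu_univ : nu.real univ = 2 := by
  simp [nu, Measure.real]
  norm_num

theorem int_sum (s : Multiset ℝ) (h : ∀ y ∈ s, y ∈ Icc (-1 : ℝ) 1) :
    Integrable (fun x => (s.map fun y => (√|x - y|)⁻¹).sum) nu ∧
      ∫ x, (s.map fun y => (√|x - y|)⁻¹).sum ∂nu ≤ 8 * s.card := by
  induction s using Multiset.induction_on with
  | empty => simp
  | cons a s ih =>
    obtain ⟨h1, h2⟩ := ih fun y hy => h y (Multiset.mem_cons_of_mem hy)
    obtain ⟨h3, h4⟩ := int_one a (h a (Multiset.mem_cons_self _ _))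
    have h5 : Integrable (fun x => (√|x - a|)⁻¹) nu := h3.1
    rw [nu_int] at h4
    simp only [Multiset.map_cons, Multiset.sum_cons, Multiset.card_cons]
    refine ⟨h5.add h1, ?_⟩
    rw [integral_add h5 h1]
    push_cast
    linarith

theorem clamp (q : ℝ[X]) (hq : q.Monic) :
    ∃ s : Multiset ℝ, s.card = q.natDegree ∧ (∀ y ∈ s, y ∈ Icc (-1 : ℝ) 1) ∧
      ∀ x ∈ Icc (-1 : ℝ) 1, (s.map fun y => |x - y|).prod ≤ |q.eval x| := by
  obtain ⟨ζ, hζ⟩ := fin_roots _ (hq.map (algebraMap ℝ ℂ))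
  rw [hq.natDegree_map] at hζ
  refine ⟨(Finset.range q.natDegree).val.map fun i => max (-1) (min 1 (ζ i).re), by simp, ?_, ?_⟩
  · intro y hy
    obtain ⟨i, -, rfl⟩ := Multiset.mem_map.1 hy
    exact ⟨le_max_left _ _, max_le (by norm_num) (min_le_left _ _)⟩
  · intro x hx
    have h1 : (q.map (algebraMap ℝ ℂ)).eval (x : ℂ) = ((q.eval x : ℝ) : ℂ) :=
      eval_map_algebraMap q (x : ℂ) ▸ (aeval_algebraMap_apply_eq_algebraMap_eval x q)
    have h2 : |q.eval x| = ∏ i ∈ Finset.range q.natDegree, ‖(x : ℂ) - ζ i‖ := by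
      rw [← norm_prod, ← hζ, h1, Complex.norm_real, Real.norm_eq_abs]
    rw [h2, Multiset.map_map]
    refine Finset.prod_le_prod (fun i _ => abs_nonneg _) fun i _ => ?_
    have h3 := Complex.abs_re_le_norm ((x : ℂ) - ζ i)
    simp only [Complex.sub_re, Complex.ofReal_re] at h3
    refine le_trans ?_ h3
    simp only [Function.comp_apply]
    have h4 := hx.1
    have h5 := hx.2
    rcases le_total 1 (ζ i).re with a | a
    · rw [min_eq_left a, max_eq_right (by norm_num), abs_of_nonpos (by linarith),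
        abs_of_nonpos (by linarith)]
      linarith
    · rw [min_eq_right a]
      rcases le_total (-1) (ζ i).re with b | b
      · rw [max_eq_right b]
      · rw [max_eq_left b, abs_of_nonneg (by linarith), abs_of_nonneg (by linarith)]
        linarith

theorem int_w (w : ℝ → ℝ) (hw : Measurable w) (h0 : ∀ x, 0 ≤ w x) (M : ℝ) (hM : ∀ x, w x ≤ M)
    (g : ℝ → ℝ) (hg : Continuous g) : Integrable (fun x => g x * w x) nu := by
  obtain ⟨C, hC⟩ := (isCompact_Icc (a := (-1 : ℝ)) (b := 1)).exists_bound_of_continuousOn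
    hg.continuousOn
  refine Integrable.of_bound (hg.measurable.mul hw).aestronglyMeasurable (C * M) ?_
  filter_upwards [nu_ae] with x hx
  rw [norm_mul, Real.norm_of_nonneg (h0 x)]
  exact mul_le_mul (hC x hx) (hM x) (h0 x) ((norm_nonneg _).trans (hC x hx))

theorem bm (w : ℝ → ℝ) (hw : Measurable w) (h0 : ∀ x, 0 ≤ w x) (M : ℝ) (hM : ∀ x, w x ≤ M)
    (H : ∀ ρ : ℝ, 0 < ρ → ρ < 1 / 2 → ∃ k0 : ℕ, ∀ q : ℝ[X], q.Monic → k0 ≤ q.natDegree →
      (ρ ^ q.natDegree) ^ 2 ≤ ∫ x, (q.eval x) ^ 2 * w x ∂nu) (δ : ℝ) (hδ : 0 < δ) :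
    ∃ K : ℝ, ∃ n0 : ℕ, ∀ P : ℝ[X], P.Monic → n0 ≤ P.natDegree → ∀ x ∈ Icc (-1 : ℝ) 1,
      (P.eval x) ^ 2 ≤ Real.exp (K + P.natDegree * δ) * ∫ x, (P.eval x) ^ 2 * w x ∂nu := by
  have hM0 : 0 ≤ M := (h0 0).trans (hM 0)
  set r := Real.exp (-(δ / 4)) with hr
  have hr0 : 0 < r := Real.exp_pos _
  have hr1 : r < 1 := by rw [hr, Real.exp_lt_one_iff]; linarith
  have hr2 : 0 < 1 - r := by linarith
  set t := δ * (1 - r) / 24 with ht
  have ht0 : 0 < t := by positivity
  have ht1 : Real.exp (-t) < 1 := by rw [Real.exp_lt_one_iff]; linarith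
  obtain ⟨k0, hk⟩ := H (Real.exp (-t) / 2) (by positivity) (by linarith)
  refine ⟨6 * (2 * (1 + 2 * M) + 1) / (1 - r), k0 + 1, fun P hP hn x hx => ?_⟩
  set n := P.natDegree with hnn
  have hA : 0 < ∫ x, (P.eval x) ^ 2 * w x ∂nu := lt_of_lt_of_le (by positivity) (hk P hP (by omega))
  set A := ∫ x, (P.eval x) ^ 2 * w x ∂nu with hAA
  obtain ⟨l, hl, ⟨R, r1, r2, r3⟩, h2⟩ := fejer P hP (by omega) (√A) (Real.sqrt_pos.2 hA)
  have h3 := hk R r1 (by omega)
  have hsq := Real.sq_sqrt hA.le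
  have iP := int_w w hw h0 M hM (fun x => (P.eval x) ^ 2) (by fun_prop)
  have iR := int_w w hw h0 M hM (fun x => (R.eval x) ^ 2) (by fun_prop)
  have h4 : (Real.exp l * √A * 4 ^ n) ^ 2 * ∫ x, (R.eval x) ^ 2 * w x ∂nu
      ≤ 4 * A + 4 * A * M * 2 := by
    have hpt : ∀ᵐ x ∂nu, (Real.exp l * √A * 4 ^ n) ^ 2 * ((R.eval x) ^ 2 * w x)
        ≤ 4 * ((P.eval x) ^ 2 * w x) + 4 * A * M := by
      filter_upwards [nu_ae] with x hx
      have a1 := mul_le_mul_of_nonneg_right (r3 x hx) (h0 x)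
      rw [hsq] at a1
      have a2 := mul_le_mul_of_nonneg_left (hM x) hA.le
      nlinarith
    have := integral_mono_ae (iR.const_mul _) ((iP.const_mul 4).add (integrable_const _)) hpt
    simp only [Pi.add_apply] at this
    rw [integral_add (iP.const_mul 4) (integrable_const _), integral_const_mul, integral_const_mul,
      integral_const, nu_univ, smul_eq_mul] at this
    linarith
  have h5 : Real.exp (2 * l - 4 * n * t) ≤ 4 * (1 + 2 * M) := by
    have a1 := (mul_le_mul_of_nonneg_left h3 (by positivity)).trans h4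
    have a2 : (Real.exp l * √A * 4 ^ n) ^ 2 * ((Real.exp (-t) / 2) ^ R.natDegree) ^ 2
        = A * Real.exp (2 * l - 4 * n * t) := by
      have b1 : Real.exp (2 * l - 4 * n * t) = Real.exp l ^ 2 * (Real.exp (-t) ^ (2 * n)) ^ 2 := by
        rw [← Real.exp_nat_mul, ← Real.exp_nat_mul, ← Real.exp_nat_mul, ← Real.exp_add]
        congr 1
        push_cast
        ring
      rw [b1, r2, ← hnn, mul_pow, mul_pow, hsq, div_pow, pow_mul (2 : ℝ) 2 n]
      norm_num
      field_simp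
    rw [a2] at a1
    refine le_of_mul_le_mul_left ?_ hA
    linarith
  have h6 : l ≤ 2 * (1 + 2 * M) + 2 * n * t := by
    have := Real.add_one_le_exp (2 * l - 4 * n * t)
    linarith
  have h7 := h2 r hr0 hr1 x hx
  have h8 : l + 2 * (l + 1) / (1 - r) ≤ 3 * (2 * (1 + 2 * M) + 1) / (1 - r) + n * δ / 4 := by
    have a1 : l ≤ (l + 1) / (1 - r) := by
      rw [le_div_iff₀ hr2]
      nlinarith
    have a2 : 3 * (l + 1) / (1 - r) ≤ 3 * (2 * (1 + 2 * M) + 2 * n * t + 1) / (1 - r) := by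
      gcongr
    have a3 : 3 * (2 * (1 + 2 * M) + 2 * n * t + 1) / (1 - r)
        = 3 * (2 * (1 + 2 * M) + 1) / (1 - r) + n * δ / 4 := by
      rw [ht]
      field_simp
      ring
    have a4 : 3 * (l + 1) / (1 - r) = (l + 1) / (1 - r) + 2 * (l + 1) / (1 - r) := by ring
    linarith
  have h9 : |P.eval x| ≤ √A * Real.exp (3 * (2 * (1 + 2 * M) + 1) / (1 - r) + n * δ / 2) := by
    have a1 : r ^ n * Real.exp (n * δ / 4) = 1 := by
      rw [hr, ← Real.exp_nat_mul, ← Real.exp_add, ← Real.exp_zero]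
      congr 1
      ring
    calc |P.eval x| = r ^ n * |P.eval x| * Real.exp (n * δ / 4) := by
          rw [mul_right_comm, a1, one_mul]
      _ ≤ √A * Real.exp (3 * (2 * (1 + 2 * M) + 1) / (1 - r) + n * δ / 4)
            * Real.exp (n * δ / 4) := by
          refine mul_le_mul_of_nonneg_right (h7.trans ?_) (Real.exp_pos _).le
          gcongr
      _ = _ := by
          rw [mul_assoc, ← Real.exp_add]
          congr 2
          ring
  have h10 := pow_le_pow_left₀ (abs_nonneg _) h9 2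
  rw [sq_abs, mul_pow, hsq, ← Real.exp_nat_mul, mul_comm] at h10
  refine h10.trans (le_of_eq ?_)
  congr 2
  push_cast
  ring

end Pool.Agent.H21.Erd
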