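import Pool.Agent.H21.Erd2

set_option autoImplicit false

open Filter Set Metric Polynomial MeasureTheory

namespace Pool.Agent.H21.Erd

theorem small (w : ℝ → ℝ) (hw : Measurable w) (h0 : ∀ x, 0 ≤ w x) (M : ℝ) (hM : ∀ x, w x ≤ M)
    (hM0 : 0 < M) (n : ℕ) (Λ c : ℝ) (hΛ : 0 < Λ) (hc : 0 < c)
    (hbm : ∀ P : ℝ[X], P.Monic → P.natDegree = n → ∀ x ∈ Icc (-1 : ℝ) 1,
      (P.eval x) ^ 2 ≤ Λ * ∫ x, (P.eval x) ^ 2 * w x ∂nu)
    (F : Set ℝ) (hF : MeasurableSet F)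
    (hv : volume ({x : ℝ | x ∈ Icc (-1 : ℝ) 1 ∧ 0 < w x} \ F) ≤ ENNReal.ofReal (1 / (4 * M * Λ)))
    (q : ℝ[X]) (hq : q.Monic) (hN : 1 ≤ q.natDegree)
    (hqF : ∀ x ∈ F, |q.eval x| ≤ c ^ q.natDegree) :
    ∃ P : ℝ[X], P.Monic ∧ P.natDegree = n ∧
      ∫ x, (P.eval x) ^ 2 * w x ∂nu ≤ 4 * M * (c ^ (n + 1)) ^ 2 * (32 * M * Λ * (n + 1)) ^ 4 := by
  set N := q.natDegree with hNN
  obtain ⟨s0, s1, s2, s3⟩ := clamp q hq
  set s := (n + 1) • s0 with hs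
  have hsc : s.card = (n + 1) * N := by rw [hs, Multiset.card_nsmul, s1]
  have hsm : ∀ y ∈ s, y ∈ Icc (-1 : ℝ) 1 := fun y hy => s2 y (Multiset.mem_of_mem_nsmul hy)
  obtain ⟨P, p1, p2, p3⟩ := group N hN n s hsc
  refine ⟨P, p1, p2, ?_⟩
  obtain ⟨i1, i2⟩ := int_sum s hsm
  have iP := int_w w hw h0 M hM (fun x => (P.eval x) ^ 2) (by fun_prop)
  have hB := hbm P p1 p2
  set A := ∫ x, (P.eval x) ^ 2 * w x ∂nu with hA
  have hA0 : 0 ≤ A := integral_nonneg fun x => mul_nonneg (sq_nonneg _) (h0 x)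
  set τ : ℝ := 32 * M * Λ * (n + 1) with hτ
  have hτ0 : 0 < τ := by positivity
  have hN0 : (0 : ℝ) < N := by exact_mod_cast hN
  set bad := {x : ℝ | x ∈ Icc (-1 : ℝ) 1 ∧ 0 < w x} \ F with hbad
  have hbm' : MeasurableSet bad :=
    (measurableSet_Icc.inter (measurableSet_lt measurable_const hw)).diff hF
  have hroots : ∀ᵐ x ∂nu, x ∉ s := by
    refine ae_restrict_of_ae ?_
    have : volume (s.toFinset : Set ℝ) = 0 := (s.toFinset.finite_toSet).measure_zero _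
    filter_upwards [measure_eq_zero_iff_ae_notMem.1 this] with x hx
    simpa using hx
  set f : ℝ → ℝ := fun x => (s.map fun y => (√|x - y|)⁻¹).sum with hf
  have hpt : ∀ᵐ x ∂nu, (P.eval x) ^ 2 * w x ≤ M * (c ^ (n + 1)) ^ 2 * τ ^ 4
      + M * Λ * A / (τ * N) * f x + bad.indicator (fun _ => M * Λ * A) x := by
    filter_upwards [nu_ae, hroots] with x hx hxs
    have t1 : 0 ≤ M * (c ^ (n + 1)) ^ 2 * τ ^ 4 := by positivity
    have t2 : 0 ≤ M * Λ * A / (τ * N) * f x := mul_nonneg (by positivity) (sum_nn s x)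
    have t3 : 0 ≤ bad.indicator (fun _ => M * Λ * A) x :=
      indicator_nonneg (fun _ _ => by positivity) x
    have t4 : (P.eval x) ^ 2 * w x ≤ M * Λ * A := by
      have := mul_le_mul (hB x hx) (hM x) (h0 x) (by positivity)
      linarith
    rcases eq_or_lt_of_le (h0 x) with hw0 | hw0
    · rw [← hw0]
      linarith
    by_cases hxF : x ∈ F
    · by_cases hfx : τ⁻¹ * f x ≤ N
      · obtain ⟨G, g1, g2, g3⟩ := p3 x
        have a1 : (s.map fun y => |x - y|).prod ≤ (c ^ (n + 1)) ^ N := by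
          rw [hs, Multiset.map_nsmul, Multiset.prod_nsmul, ← pow_mul, mul_comm, pow_mul]
          exact pow_le_pow_left₀ (prod_nn _ _) ((s3 x hx).trans (hqF x hxF)) _
        have a2 := pt N hN s G g1 g2 x |P.eval x| (c ^ (n + 1)) τ⁻¹ (abs_nonneg _)
          (by positivity) (by positivity) hxs (g3.trans a1) hfx
        rw [inv_pow, ← div_eq_mul_inv, div_le_iff₀ (by positivity)] at a2
        have a3 := pow_le_pow_left₀ (abs_nonneg _) a2 2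
        rw [sq_abs] at a3
        have a4 := mul_le_mul a3 (hM x) (h0 x) (by positivity)
        have a5 : (c ^ (n + 1) * τ ^ 2) ^ 2 * M = M * (c ^ (n + 1)) ^ 2 * τ ^ 4 := by ring
        linarith
      · have a1 : M * Λ * A ≤ M * Λ * A / (τ * N) * f x := by
          have b1 : M * Λ * A / (τ * N) * f x = M * Λ * A * (τ⁻¹ * f x / N) := by field_simp
          rw [b1]
          exact le_mul_of_one_le_right (by positivity) ((one_le_div hN0).2 (not_le.1 hfx).le)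
        linarith
    · have a1 : x ∈ bad := ⟨⟨hx, hw0⟩, hxF⟩
      rw [indicator_of_mem a1]
      linarith
  have i3 : Integrable (bad.indicator fun _ => M * Λ * A) nu :=
    (integrable_const _).indicator hbm'
  have i4 : Integrable (fun x => M * (c ^ (n + 1)) ^ 2 * τ ^ 4 + M * Λ * A / (τ * N) * f x) nu :=
    (integrable_const _).add (i1.const_mul _)
  have h1 := integral_mono_ae iP (i4.add i3) hpt
  simp only [Pi.add_apply] at h1
  rw [integral_add i4 i3,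
    integral_add (integrable_const _) (i1.const_mul _),
    integral_const_mul (M * Λ * A / (τ * N)), integral_const,
    nu_univ, integral_indicator_const _ hbm', smul_eq_mul, smul_eq_mul] at h1
  have h2 : nu.real bad ≤ 1 / (4 * M * Λ) :=
    ENNReal.toReal_le_of_le_ofReal (by positivity) ((Measure.restrict_le_self bad).trans hv)
  have h3 : nu.real bad * (M * Λ * A) ≤ A / 4 := by
    refine (mul_le_mul_of_nonneg_right h2 (by positivity)).trans (le_of_eq ?_)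
    field_simp
  have h4 : M * Λ * A / (τ * N) * ∫ x, f x ∂nu ≤ A / 4 := by
    refine (mul_le_mul_of_nonneg_left i2 (by positivity)).trans (le_of_eq ?_)
    rw [hsc, hτ]
    push_cast
    field_simp
    ring
  rw [← hA] at h1
  linarith

theorem key (w : ℝ → ℝ) (hw : Measurable w) (h0 : ∀ x, 0 ≤ w x) (M : ℝ) (hM : ∀ x, w x ≤ M)
    (hM0 : 0 < M)
    (H : ∀ ρ : ℝ, 0 < ρ → ρ < 1 / 2 → ∃ k0 : ℕ, ∀ q : ℝ[X], q.Monic → k0 ≤ q.natDegree →
      (ρ ^ q.natDegree) ^ 2 ≤ ∫ x, (q.eval x) ^ 2 * w x ∂nu)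
    (c : ℝ) (hc : 0 < c) (hc2 : c < 1 / 2) :
    ∃ ε : ℝ, 0 < ε ∧ ∀ F : Set ℝ, MeasurableSet F →
      volume ({x : ℝ | x ∈ Icc (-1 : ℝ) 1 ∧ 0 < w x} \ F) ≤ ENNReal.ofReal ε →
      ∀ q : ℝ[X], q.Monic → 1 ≤ q.natDegree → ¬ ∀ x ∈ F, |q.eval x| ≤ c ^ q.natDegree := by
  set γ := -Real.log (2 * c) / 4 with hγ
  have hγ0 : 0 < γ := by
    have := Real.log_neg (show 0 < 2 * c by positivity) (by linarith)
    rw [hγ]
    linarith
  have hcγ : c * Real.exp (3 * γ) < 1 / 2 := by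
    have a1 : Real.exp (3 * γ) < Real.exp (-Real.log (2 * c)) := Real.exp_lt_exp.2 (by linarith)
    rw [Real.exp_neg, Real.exp_log (by positivity)] at a1
    have a2 := mul_lt_mul_of_pos_left a1 hc
    have a3 : c * (2 * c)⁻¹ = 1 / 2 := by field_simp
    linarith
  obtain ⟨K, n0, hK⟩ := bm w hw h0 M hM H γ hγ0
  obtain ⟨k0, hk⟩ := H (c * Real.exp (3 * γ)) (by positivity) hcγ
  set D : ℝ := 4 * M * (64 * M * Real.exp K) ^ 4 with hD
  have hD0 : 0 < D := by positivity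
  have hev := (tendsto_pow_const_div_const_pow_of_one_lt 4
    (Real.one_lt_exp_iff.2 (show 0 < 2 * γ by positivity))).eventually
      (gt_mem_nhds (show (0 : ℝ) < 1 / D by positivity))
  obtain ⟨n, hn1, hn2⟩ := (hev.and (eventually_ge_atTop (n0 + k0 + 1))).exists
  set Λ := Real.exp (K + n * γ) with hΛ
  refine ⟨1 / (4 * M * Λ), by positivity, fun F hF hv q hq hN hqF => ?_⟩
  obtain ⟨P, p1, p2, p3⟩ := small w hw h0 M hM hM0 n Λ c (Real.exp_pos _) hc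
    (fun P a1 a2 x hx => by
      have := hK P a1 (by omega) x hx
      rwa [a2] at this) F hF hv q hq hN hqF
  have h1 := (hk P p1 (by omega)).trans p3
  rw [p2] at h1
  have hn : (1 : ℝ) ≤ n := by exact_mod_cast (show 1 ≤ n by omega)
  set E := Real.exp γ ^ n with hE
  have hE0 : 0 < E := by positivity
  have e1 : Λ = Real.exp K * E := by rw [hΛ, hE, Real.exp_add, Real.exp_nat_mul]
  have e2 : Real.exp (3 * γ) ^ n = E ^ 3 := by
    rw [hE, ← Real.exp_nat_mul, ← Real.exp_nat_mul, ← Real.exp_nat_mul]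
    congr 1
    push_cast
    ring
  have e3 : Real.exp (2 * γ) ^ n = E ^ 2 := by
    rw [hE, ← Real.exp_nat_mul, ← Real.exp_nat_mul, ← Real.exp_nat_mul]
    congr 1
    push_cast
    ring
  rw [e3, div_lt_div_iff₀ (by positivity) hD0] at hn1
  rw [mul_pow, e2, e1] at h1
  have h2 : (c ^ (n + 1)) ^ 2 ≤ (c ^ n) ^ 2 :=
    pow_le_pow_left₀ (by positivity) (pow_le_pow_of_le_one hc.le (by linarith) (by omega)) 2
  have h3 : (32 * M * (Real.exp K * E) * (n + 1)) ^ 4 ≤ (32 * M * (Real.exp K * E) * (2 * n)) ^ 4 := by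
    gcongr
    linarith
  have h4 : (c ^ n * E ^ 3) ^ 2 ≤ 4 * M * (c ^ n) ^ 2 * (32 * M * (Real.exp K * E) * (2 * n)) ^ 4 :=
    h1.trans (by gcongr)
  have h5 : 4 * M * (c ^ n) ^ 2 * (32 * M * (Real.exp K * E) * (2 * n)) ^ 4
      = ((c ^ n) ^ 2 * E ^ 4) * (n ^ 4 * D) := by
    rw [hD]
    ring
  have h6 : (c ^ n * E ^ 3) ^ 2 = ((c ^ n) ^ 2 * E ^ 4) * (1 * E ^ 2) := by ring
  rw [h5, h6] at h4
  have := le_of_mul_le_mul_left h4 (by positivity)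
  linarith

theorem reg (w : ℝ → ℝ) (h0 : ∀ x, 0 ≤ w x)
    (h : Tendsto (fun k : ℕ =>
      (sInf {t : ℝ | ∃ q : ℝ[X], q.Monic ∧ q.natDegree = k ∧
        t = √(∫ x in (-1 : ℝ)..1, (q.eval x) ^ 2 * w x)}) ^ ((1 : ℝ) / k)) atTop (nhds (1 / 2)))
    (ρ : ℝ) (hρ : 0 < ρ) (hρ2 : ρ < 1 / 2) :
    ∃ k0 : ℕ, ∀ q : ℝ[X], q.Monic → k0 ≤ q.natDegree →
      (ρ ^ q.natDegree) ^ 2 ≤ ∫ x, (q.eval x) ^ 2 * w x ∂nu := by
  obtain ⟨k0, hk⟩ := eventually_atTop.1 (h.eventually (lt_mem_nhds hρ2))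
  refine ⟨k0 + 1, fun q hq hd => ?_⟩
  have h1 := hk q.natDegree (by omega)
  set S := {t : ℝ | ∃ q' : ℝ[X], q'.Monic ∧ q'.natDegree = q.natDegree ∧
        t = √(∫ x in (-1 : ℝ)..1, (q'.eval x) ^ 2 * w x)} with hS
  have hnn : ∀ t ∈ S, 0 ≤ t := by
    rintro t ⟨q', -, -, rfl⟩
    exact Real.sqrt_nonneg _
  have h2 : sInf S ≤ √(∫ x in (-1 : ℝ)..1, (q.eval x) ^ 2 * w x) :=
    csInf_le ⟨0, hnn⟩ ⟨q, hq, rfl, rfl⟩
  have h3 := pow_le_pow_left₀ hρ.le h1.le q.natDegree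
  rw [one_div, Real.rpow_inv_natCast_pow (Real.sInf_nonneg hnn) (by omega)] at h3
  rw [nu_int] at h2
  have h4 := pow_le_pow_left₀ (by positivity) (h3.trans h2) 2
  rwa [Real.sq_sqrt (integral_nonneg fun x => mul_nonneg (sq_nonneg _) (h0 x))] at h4

def tset (F : Set ℝ) (n : ℕ) : Set ℝ :=
  {t : ℝ | ∃ q : ℝ[X], q.Monic ∧ q.natDegree = n ∧ t = sSup ((fun x => |q.eval x|) '' F)}

def cset (F : Set ℝ) : Set ℝ :=
  {s : ℝ | ∃ n : ℕ, 1 ≤ n ∧ s = (sInf (tset F n)) ^ ((1 : ℝ) / n)}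

theorem tset_nn (F : Set ℝ) (n : ℕ) : ∀ t ∈ tset F n, 0 ≤ t := by
  rintro t ⟨q, -, -, rfl⟩
  refine Real.sSup_nonneg ?_
  rintro _ ⟨x, -, rfl⟩
  exact abs_nonneg _

theorem cset_nn (F : Set ℝ) : ∀ s ∈ cset F, 0 ≤ s := by
  rintro s ⟨n, -, rfl⟩
  exact Real.rpow_nonneg (Real.sInf_nonneg (tset_nn F n)) _

theorem cheb_le_one (F : Set ℝ) (hF : F ⊆ Icc (-1) 1) : sInf (cset F) ≤ 1 := by
  refine (csInf_le ⟨0, cset_nn F⟩ ⟨1, le_rfl, rfl⟩).trans ?_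
  simp only [Nat.cast_one, div_one, Real.rpow_one]
  refine (csInf_le ⟨0, tset_nn F 1⟩ ⟨X, monic_X, natDegree_X, rfl⟩).trans ?_
  refine Real.sSup_le ?_ zero_le_one
  rintro _ ⟨x, hx, rfl⟩
  simpa using abs_le.2 (hF hx)

theorem cheb_ge (F : Set ℝ) (hF : IsCompact F) (c : ℝ) (hc : 0 < c)
    (h : ∀ q : ℝ[X], q.Monic → 1 ≤ q.natDegree → ¬ ∀ x ∈ F, |q.eval x| ≤ c ^ q.natDegree) :
    c ≤ sInf (cset F) := by
  refine le_csInf ⟨_, 1, le_rfl, rfl⟩ ?_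
  rintro _ ⟨n, hn, rfl⟩
  have h1 : c ^ n ≤ sInf (tset F n) := by
    refine le_csInf ⟨_, X ^ n, monic_X_pow n, natDegree_X_pow n, rfl⟩ ?_
    rintro _ ⟨q, q1, q2, rfl⟩
    by_contra hlt
    refine h q q1 (by omega) fun x hx => ?_
    rw [q2]
    refine le_trans (le_csSup (hF.image (by fun_prop)).bddAbove ⟨x, hx, rfl⟩) (not_le.1 hlt).le
  have h2 := Real.rpow_le_rpow (by positivity) h1 (show (0 : ℝ) ≤ 1 / n by positivity)
  rwa [one_div, Real.pow_rpow_inv_natCast hc.le (by omega), ← one_div] at h2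

theorem main (w : ℝ → ℝ) (hw : Measurable w) (h0 : ∀ x, 0 ≤ w x) (M : ℝ) (hM : ∀ x, w x ≤ M)
    (H : ∀ ρ : ℝ, 0 < ρ → ρ < 1 / 2 → ∃ k0 : ℕ, ∀ q : ℝ[X], q.Monic → k0 ≤ q.natDegree →
      (ρ ^ q.natDegree) ^ 2 ≤ ∫ x, (q.eval x) ^ 2 * w x ∂nu) (η : ℝ) (hη : 0 < η) :
    ∃ ε : ℝ, 0 < ε ∧ ∀ E : Set ℝ, MeasurableSet E →
      E ⊆ {x : ℝ | x ∈ Icc (-1 : ℝ) 1 ∧ 0 < w x} →
      volume ({x : ℝ | x ∈ Icc (-1 : ℝ) 1 ∧ 0 < w x} \ E) ≤ ENNReal.ofReal ε →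
      1 / 2 - η ≤ sSup {c : ℝ | ∃ F : Set ℝ, IsCompact F ∧ F ⊆ E ∧ c = sInf (cset F)} := by
  obtain ⟨ε, hε, hk⟩ := key w hw h0 (M + 1) (fun x => by linarith [hM x])
    (by linarith [h0 0, hM 0]) H (max (1 / 2 - η) (1 / 4)) (by positivity)
    (max_lt (by linarith) (by norm_num))
  refine ⟨ε / 2, by positivity, fun E hE hsub hv => ?_⟩
  have hI : E ⊆ Icc (-1) 1 := fun x hx => (hsub hx).1
  obtain ⟨F, f1, f2, f3⟩ := hE.exists_isCompact_sdiff_lt (μ := volume)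
    (ne_top_of_le_ne_top (by simp) (measure_mono hI))
    (show ENNReal.ofReal (ε / 2) ≠ 0 by simpa using hε)
  have h1 : volume ({x : ℝ | x ∈ Icc (-1 : ℝ) 1 ∧ 0 < w x} \ F) ≤ ENNReal.ofReal ε := by
    have a1 : {x : ℝ | x ∈ Icc (-1 : ℝ) 1 ∧ 0 < w x} \ F ⊆
        ({x : ℝ | x ∈ Icc (-1 : ℝ) 1 ∧ 0 < w x} \ E) ∪ (E \ F) := by
      intro x hx
      by_cases hxE : x ∈ E
      · exact Or.inr ⟨hxE, hx.2⟩
      · exact Or.inl ⟨hx.1, hxE⟩
    refine (measure_mono a1).trans ((measure_union_le _ _).trans ?_)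
    refine (add_le_add hv f3.le).trans ?_
    rw [← ENNReal.ofReal_add (by positivity) (by positivity), add_halves]
  have h2 := cheb_ge F f2 _ (by positivity) (hk F f2.measurableSet h1)
  refine (le_max_left _ _).trans (h2.trans (le_csSup ⟨1, ?_⟩ ⟨F, f2, f1, rfl⟩))
  rintro _ ⟨F', -, g2, rfl⟩
  exact cheb_le_one F' (g2.trans hI)

end Pool.Agent.H21.Erd
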