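import Mathlib

namespace Pool.Agent.H21.FC

def RL : ℕ → ℤ → ℤ × ℤ
  | 0, x => (if x = 1 then 1 else 0, 0)
  | n + 1, x => ((RL n (x - 1)).1 - (RL n (x - 1)).2, (RL n (x + 1)).2 + (RL n (x + 1)).1)

def R (n : ℕ) (x : ℤ) : ℤ := (RL n x).1
def L (n : ℕ) (x : ℤ) : ℤ := (RL n x).2

theorem R0 (x : ℤ) : R 0 x = if x = 1 then 1 else 0 := rfl
theorem L0 (x : ℤ) : L 0 x = 0 := rfl
theorem Rs (n : ℕ) (x : ℤ) : R (n + 1) x = R n (x - 1) - L n (x - 1) := rfl
theorem Ls (n : ℕ) (x : ℤ) : L (n + 1) x = L n (x + 1) + R n (x + 1) := rfl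

noncomputable def A (n : ℕ) (y : ℤ) (b : Bool) : ℂ :=
  ∑ s : Fin (n + 1) → Bool,
    if s 0 = true ∧ ∑ i, (if s i then (1 : ℤ) else -1) = y ∧ s (Fin.last n) = b then
      (-Complex.I) ^ ((Finset.univ.filter (fun i : Fin n => s i.castSucc ≠ s i.succ)).card) else 0

theorem A_succ (n : ℕ) (y : ℤ) (b : Bool) :
    A (n + 1) y b = A n (y - if b then 1 else -1) b +
      (-Complex.I) * A n (y - if b then 1 else -1) (!b) := by
  unfold A
  rw [← (Fin.snocEquiv (fun _ : Fin (n + 2) => Bool)).sum_comp, Fintype.sum_prod_type,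
    Finset.sum_eq_single b]
  · rw [Finset.mul_sum, ← Finset.sum_add_distrib]
    refine Finset.sum_congr rfl fun s _ => ?_
    have e : (Fin.snocEquiv (fun _ : Fin (n + 2) => Bool)) (b, s) = Fin.snoc s b := rfl
    rw [e]
    have h0 : (Fin.snoc s b : Fin (n + 2) → Bool) 0 = s 0 := by
      rw [← Fin.castSucc_zero, Fin.snoc_castSucc]
    have h1 : (Finset.univ.filter (fun i : Fin (n + 1) =>
        (Fin.snoc s b : Fin (n + 2) → Bool) i.castSucc ≠
          (Fin.snoc s b : Fin (n + 2) → Bool) i.succ)).card =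
        (Finset.univ.filter (fun i : Fin n => s i.castSucc ≠ s i.succ)).card +
          if s (Fin.last n) ≠ b then 1 else 0 := by
      rw [Finset.card_filter, Finset.card_filter, Fin.sum_univ_castSucc]
      simp only [Fin.snoc_castSucc, Fin.succ_last, Fin.snoc_last, ← Fin.castSucc_succ]
    rw [h0, h1, Fin.sum_univ_castSucc]
    simp only [Fin.snoc_castSucc, Fin.snoc_last, and_true, ← eq_sub_iff_add_eq]
    by_cases h2 : s 0 = true ∧ ∑ i, (if s i then (1 : ℤ) else -1) = y - if b then 1 else -1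
    · by_cases h3 : s (Fin.last n) = b
      · have h4 : ¬ s (Fin.last n) = !b := by rw [h3]; simp
        simp only [h2, h3, h4, and_self, if_true, ne_eq, not_true_eq_false, if_false, add_zero,
          and_false, mul_zero, Bool.eq_not_self]
      · have h4 : s (Fin.last n) = !b := by
          cases hb : s (Fin.last n) <;> cases b <;> simp_all
        rw [if_pos h2, if_pos h3, if_neg (fun h => h3 h.2.2), if_pos ⟨h2.1, h2.2, h4⟩, pow_succ]
        ring
    · rw [if_neg h2, if_neg (fun h => h2 ⟨h.1, h.2.1⟩), if_neg (fun h => h2 ⟨h.1, h.2.1⟩)]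
      simp
  · intro c _ hc
    refine Finset.sum_eq_zero fun s _ => if_neg fun h => hc ?_
    have e : (Fin.snocEquiv (fun _ : Fin (n + 2) => Bool)) (c, s) = Fin.snoc s c := rfl
    rw [e] at h
    simpa using h.2.2
  · simp

theorem A_eq (n : ℕ) : ∀ y, A n y true = R n y ∧ A n y false = -Complex.I * L n y := by
  induction n with
  | zero =>
    intro y
    unfold A
    rw [← (Equiv.funUnique (Fin 1) Bool).symm.sum_comp, ← (Equiv.funUnique (Fin 1) Bool).symm.sum_comp,
      Fintype.sum_bool, Fintype.sum_bool]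
    simp [R0, L0, eq_comm]
  | succ n ih =>
    intro y
    rw [A_succ, A_succ, Rs, Ls]
    simp only [if_true, Bool.false_eq_true, if_false, Bool.not_true, Bool.not_false, sub_neg_eq_add,
      (ih _).1, (ih _).2]
    push_cast
    constructor
    · linear_combination (L n (y - 1) : ℂ) * Complex.I_mul_I
    · ring

theorem normsq (n : ℕ) (y : ℤ) :
    ‖∑ s ∈ Finset.univ.filter (fun s : Fin (n+1) → Bool =>
        s 0 = true ∧ ∑ i, (if s i then (1:ℤ) else -1) = y),
      (-Complex.I) ^ ((Finset.univ.filter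
        (fun i : Fin n => s i.castSucc ≠ s i.succ)).card)‖ ^ 2 =
      (R n y : ℝ) ^ 2 + (L n y : ℝ) ^ 2 := by
  have h : ∑ s ∈ Finset.univ.filter (fun s : Fin (n+1) → Bool =>
        s 0 = true ∧ ∑ i, (if s i then (1:ℤ) else -1) = y),
      (-Complex.I) ^ ((Finset.univ.filter
        (fun i : Fin n => s i.castSucc ≠ s i.succ)).card) = A n y true + A n y false := by
    unfold A
    rw [Finset.sum_filter, ← Finset.sum_add_distrib]
    refine Finset.sum_congr rfl fun s _ => ?_
    cases s (Fin.last n) <;> simp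
  rw [h, (A_eq n y).1, (A_eq n y).2, Complex.sq_norm, Complex.normSq_apply]
  simp
  ring

theorem rel (n : ℕ) : ∀ x : ℤ,
    ((n + 1 - x) * R n x + 2 * x * L n x = (n - 1 - x) * R n (x + 2)) ∧
    ((x + n + 1) * (L n x - L n (x + 2)) = 2 * (x + 1) * R n (x + 2)) := by
  induction n with
  | zero =>
    intro x
    simp only [R0, L0]
    constructor
    · split_ifs <;> omega
    · split_ifs <;> omega
  | succ n ih =>
    intro x
    simp only [Rs, Ls]
    have h1 := ih (x - 1)
    have h2 := ih (x + 1)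
    rw [show x - 1 + 2 = x + 1 by ring] at h1
    rw [show x + 2 - 1 = x + 1 by ring, show x + 2 + 1 = x + 1 + 2 by ring]
    push_cast
    constructor
    · linear_combination h1.1 - h1.2
    · linear_combination h2.1 + h2.2

theorem supp (n : ℕ) : ∀ x : ℤ, (n + 1 < x ∨ x < -(n + 1) ∨ (x + n) % 2 = 0) →
    R n x = 0 ∧ L n x = 0 := by
  induction n with
  | zero =>
    intro x hx
    exact ⟨by rw [R0, if_neg]; omega, rfl⟩
  | succ n ih =>
    intro x hx
    push_cast at hx
    have h1 := ih (x - 1) (by omega)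
    have h2 := ih (x + 1) (by omega)
    rw [Rs, Ls, h1.1, h1.2, h2.1, h2.2]
    simp

theorem top (n : ℕ) : R n (n + 1) = 1 ∧ L n (n + 1) = 0 := by
  induction n with
  | zero => exact ⟨rfl, rfl⟩
  | succ n ih =>
    have h := supp n (((n + 1 : ℕ) : ℤ) + 1 + 1) (by push_cast; omega)
    rw [Rs, Ls, h.1, h.2]
    push_cast
    rw [add_sub_cancel_right, ih.1, ih.2]
    simp

/-- the discrete turning point lemma -/
theorem turn (v E p q : ℕ → ℝ) (m J K : ℕ) (ρ Q : ℝ) (hρ : 0 ≤ ρ) (hQ : 0 ≤ Q) (hJ : J + 1 ≤ m)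
    (hv : 0 < v 1) (hE1 : 0 < E 1)
    (hp : ∀ k, 1 ≤ k → k ≤ m + K → 0 < p k)
    (hpρ : ∀ k, m ≤ k + J → k ≤ m + K → 1 ≤ ρ * p k)
    (h1 : ∀ k, 1 ≤ k → k ≤ m + K → E k = p k * (v (k + 1) - v k))
    (h2 : ∀ k, k + 1 ≤ m + K → E (k + 1) = E k + q (k + 1) * v (k + 1))
    (hq1 : ∀ k, k ≤ m → 0 ≤ q k) (hq2 : 8 * (J : ℝ) ≤ q (m - J))
    (hq3 : ∀ k, m < k → k ≤ m + K → -Q ≤ q k ∧ q k ≤ 0)
    (hs1 : 8 * J * J * ρ ≤ 1) (hs2 : K * Q ≤ J) (hs3 : 4 * K * K * Q * ρ ≤ 1) (hJ2 : J + 2 ≤ m) :
    ∀ k, 1 ≤ k → k ≤ m + K → 0 < v k ∧ v k < v (k + 1) := by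
  have step : ∀ k, 1 ≤ k → k ≤ m + K → 0 < E k → v k < v (k + 1) := by
    intro k a b c
    rw [h1 k a b] at c
    exact sub_pos.1 ((mul_pos_iff_of_pos_left (hp k a b)).1 c)
  have A : ∀ k, 1 ≤ k → k ≤ m → 0 < v k ∧ 0 < E k := by
    intro k hk
    induction k, hk using Nat.le_induction with
    | base => exact fun _ => ⟨hv, hE1⟩
    | succ k hk ih =>
      intro hm
      obtain ⟨a, b⟩ := ih (by omega)
      have c := a.trans (step k hk (by omega) b)
      refine ⟨c, ?_⟩
      rw [h2 k (by omega)]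
      have := mul_nonneg (hq1 (k + 1) hm) c.le
      linarith
  have B : ∀ j k, 1 ≤ k → k + j ≤ m → E k ≤ E (k + j) := by
    intro j k hk
    induction j with
    | zero => exact fun _ => le_rfl
    | succ j ih =>
      intro hm
      rw [← add_assoc, h2 (k + j) (by omega)]
      have := mul_nonneg (hq1 (k + j + 1) (by omega)) (A (k + j + 1) (by omega) (by omega)).1.le
      linarith [ih (by omega)]
  have inc : ∀ k, 1 ≤ k → m ≤ k + J → k ≤ m + K → 0 < E k → E k ≤ E m →
      v (k + 1) ≤ v k + ρ * E m := by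
    intro k a b c d e
    have f := sub_pos.2 (step k a c d)
    have g := mul_le_mul_of_nonneg_right (hpρ k b c) f.le
    have h := mul_le_mul_of_nonneg_left e hρ
    rw [h1 k a c] at h
    nlinarith
  have hEm := (A m (by omega) le_rfl).2
  have hvm := (A m (by omega) le_rfl).1
  have C : ∀ j, j ≤ J → v (m - J + j) ≤ v (m - J) + j * (ρ * E m) := by
    intro j
    induction j with
    | zero => simp
    | succ j ih =>
      intro hj
      have a := B (J - j) (m - J + j) (by omega) (by omega)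
      rw [show m - J + j + (J - j) = m by omega] at a
      have b := inc (m - J + j) (by omega) (by omega) (by omega)
        (A _ (by omega) (by omega)).2 a
      rw [← add_assoc]
      push_cast
      linarith [ih (by omega)]
  have D : 4 * J * v m ≤ E m := by
    have a := C J le_rfl
    rw [show m - J + J = m by omega] at a
    have b := B J (m - J) (by omega) (by omega)
    rw [show m - J + J = m by omega] at b
    have c := h2 (m - J - 1) (by omega)
    rw [show m - J - 1 + 1 = m - J by omega] at c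
    have d := (A (m - J - 1) (by omega) (by omega)).2
    have e := mul_le_mul_of_nonneg_right hq2 (A (m - J) (by omega) (by omega)).1.le
    have f := mul_le_mul_of_nonneg_left a (show (0 : ℝ) ≤ 8 * J by positivity)
    have g := mul_le_mul_of_nonneg_right hs1 hEm.le
    nlinarith
  have F : ∀ j, j ≤ K → 0 < v (m + j) ∧ v (m + j) ≤ v m + j * (ρ * E m) ∧ E (m + j) ≤ E m ∧
      E m - j * (Q * (v m + K * (ρ * E m))) ≤ E (m + j) ∧ 0 < E (m + j) := by
    intro j
    induction j with
    | zero => intro _; simp [hvm, hEm]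
    | succ j ih =>
      intro hj
      obtain ⟨a, b, c, d, e⟩ := ih (by omega)
      have f := step (m + j) (by omega) (by omega) e
      have g := inc (m + j) (by omega) (by omega) (by omega) e c
      have h := h2 (m + j) (by omega)
      obtain ⟨i1, i2⟩ := hq3 (m + j + 1) (by omega) (by omega)
      have hj' : ((j : ℝ) + 1) ≤ K := by exact_mod_cast hj
      have hρE : 0 ≤ ρ * E m := by positivity
      have k1 : v (m + j + 1) ≤ v m + (j + 1) * (ρ * E m) := by linarith
      have k2 : v (m + j + 1) ≤ v m + K * (ρ * E m) := by nlinarith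
      have k3 : -(Q * (v m + K * (ρ * E m))) ≤ q (m + j + 1) * v (m + j + 1) := by nlinarith
      have k4 : q (m + j + 1) * v (m + j + 1) ≤ 0 := mul_nonpos_of_nonpos_of_nonneg i2 (by linarith)
      have k5 : E m - (j + 1) * (Q * (v m + K * (ρ * E m))) ≤ E (m + j + 1) := by linarith
      have k6 : 0 ≤ Q * (v m + K * (ρ * E m)) := by positivity
      have k7 := mul_le_mul_of_nonneg_right hj' k6
      have k8 := mul_le_mul_of_nonneg_right hs2 hvm.le
      have k9 := mul_le_mul_of_nonneg_right hs3 hEm.le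
      rw [← add_assoc]
      push_cast
      refine ⟨by linarith, k1, by linarith, k5, by nlinarith⟩
  intro k a b
  rcases le_total k m with h | h
  · exact ⟨(A k a h).1, step k a b (A k a h).2⟩
  · obtain ⟨j, rfl⟩ := Nat.exists_eq_add_of_le h
    have := F j (by omega)
    exact ⟨this.1, step _ a b this.2.2.2.2⟩

noncomputable def v (n k : ℕ) : ℝ := (-1) ^ (k + 1) * (L n (n + 1 - 2 * k) : ℝ)
noncomputable def u (n k : ℕ) : ℝ := (-1) ^ k * (R n (n + 1 - 2 * k) : ℝ)

theorem relB (n k : ℕ) :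
    (n + (n - 2 * k : ℝ)) * (v n (k + 1) + v n k) = 2 * (n - 2 * k : ℝ) * u n k := by
  have h := (rel n (n - 1 - 2 * k)).2
  rw [show (n : ℤ) - 1 - 2 * k + 2 = n + 1 - 2 * k by ring] at h
  have h' := congrArg (Int.cast : ℤ → ℝ) h
  push_cast at h'
  unfold v u
  rw [show (n : ℤ) + 1 - 2 * ((k + 1 : ℕ) : ℤ) = n - 1 - 2 * k by push_cast; ring]
  simp only [pow_succ]
  linear_combination (-1) ^ k * h'

theorem relA (n k : ℕ) :
    (k + 1 : ℝ) * u n (k + 1) + k * u n k = (n - 2 * k - 1 : ℝ) * v n (k + 1) := by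
  have h := (rel n (n - 1 - 2 * k)).1
  rw [show (n : ℤ) - 1 - 2 * k + 2 = n + 1 - 2 * k by ring] at h
  have h' := congrArg (Int.cast : ℤ → ℝ) h
  push_cast at h'
  unfold v u
  rw [show (n : ℤ) + 1 - 2 * ((k + 1 : ℕ) : ℤ) = n - 1 - 2 * k by push_cast; ring]
  simp only [pow_succ]
  linear_combination (-(-1) ^ k / 2) * h'

theorem sq_uv (n k : ℕ) : (R n (n + 1 - 2 * k) : ℝ) ^ 2 + (L n (n + 1 - 2 * k) : ℝ) ^ 2 =
    u n k ^ 2 + v n k ^ 2 := by
  unfold u v
  rw [mul_pow, mul_pow, ← pow_mul, ← pow_mul, mul_comm k 2, mul_comm (k + 1) 2, pow_mul, pow_mul]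
  simp

theorem main (K w : ℕ) (hK : 1 ≤ K) (hw : 100000 * K ^ 4 ≤ w) :
    ∃ m : ℕ, 2 * ((20 * w : ℕ) - 2 * (m + 1 : ℕ) : ℝ) * ((20 * w : ℕ) - 2 * (m + 1 : ℕ) + 2) <
        ((20 * w : ℕ) : ℝ) ^ 2 ∧
      ∀ k, 1 ≤ k → k + 1 ≤ m + K →
        u (20 * w) k ^ 2 + v (20 * w) k ^ 2 < u (20 * w) (k + 1) ^ 2 + v (20 * w) (k + 1) ^ 2 := by
  classical
  have hK1 : (1 : ℝ) ≤ K := by exact_mod_cast hK
  have hw' : 100000 * (K : ℝ) ^ 4 ≤ w := by exact_mod_cast hw
  have hK2 : (K : ℝ) ≤ K ^ 2 := by nlinarith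
  have hK3 : (K : ℝ) ^ 2 ≤ K ^ 3 := by nlinarith
  have hK4 : (K : ℝ) ^ 3 ≤ K ^ 4 := by nlinarith
  have hw0 : (0 : ℝ) < w := by linarith
  have hwn : 1 ≤ w := by exact_mod_cast (show (1 : ℝ) ≤ w by linarith)
  set n : ℕ := 20 * w with hn
  have hnr : (n : ℝ) = 20 * w := by rw [hn]; push_cast; ring
  let y : ℕ → ℝ := fun k => n - 2 * k
  have h4 : 2 * y (4 * w - 1 + 1) * (y (4 * w - 1 + 1) + 2) < (n : ℝ) ^ 2 := by
    rw [Nat.sub_add_cancel (by omega)]
    simp only [y, hnr]
    push_cast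
    nlinarith
  have hex : ∃ k, 2 * y (k + 1) * (y (k + 1) + 2) < (n : ℝ) ^ 2 := ⟨_, h4⟩
  obtain ⟨m, hm1, hm2, hm3⟩ : ∃ m, 2 * y (m + 1) * (y (m + 1) + 2) < (n : ℝ) ^ 2 ∧
      (∀ k, k ≤ m → (n : ℝ) ^ 2 ≤ 2 * y k * (y k + 2)) ∧ m ≤ 4 * w - 1 := by
    refine ⟨Nat.find hex, Nat.find_spec hex, ?_, Nat.find_min' hex h4⟩
    rintro (_ | k) hk
    · simp only [y]; push_cast; nlinarith
    · exact not_lt.1 (Nat.find_min hex hk)
  have hm4 : (m : ℝ) + 1 ≤ 4 * w := by exact_mod_cast (show m + 1 ≤ 4 * w by omega)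
  have hm5 : 2 * (w : ℝ) ≤ m := by
    by_contra h
    simp only [y, hnr] at hm1
    push_cast at hm1
    nlinarith
  have hm6 : y (m + 1) < 15 * w := by
    by_contra h
    rw [hnr] at hm1
    nlinarith
  have hy : ∀ k, k ≤ m + K → 10 * (w : ℝ) ≤ y k := by
    intro k hk
    have : (k : ℝ) ≤ m + K := by exact_mod_cast hk
    simp only [y, hnr]
    linarith
  have hJ : 64 * K ^ 2 + 2 ≤ m := by
    have : ((64 * K ^ 2 + 2 : ℕ) : ℝ) ≤ m := by push_cast; linarith
    exact_mod_cast this
  let p : ℕ → ℝ := fun k => k * (n + y k) / y k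
  let q : ℕ → ℝ := fun k => 2 * (y k + 1) * (2 * y k * (y k + 2) - n ^ 2) / (y k * (y k + 2))
  have h2 : ∀ k, k + 1 ≤ m + K → p (k + 1) * (v n (k + 1 + 1) - v n (k + 1)) =
      p k * (v n (k + 1) - v n k) + q (k + 1) * v n (k + 1) := by
    intro k hk
    have a := hy (k + 1) hk
    have b1 := relB n k
    have b2 := relB n (k + 1)
    have b3 := relA n k
    have e : y (k + 1) + 2 = y k := by simp only [y]; push_cast; ring
    have c1 : y (k + 1) ≠ 0 := by linarith
    have c2 : y k ≠ 0 := by linarith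
    have d1 : p k * (v n (k + 1) + v n k) = 2 * k * u n k := by
      simp only [p]; rw [div_mul_eq_mul_div, div_eq_iff c2]; linear_combination (k : ℝ) * b1
    have d2 : p (k + 1) * (v n (k + 1 + 1) + v n (k + 1)) = 2 * (k + 1) * u n (k + 1) := by
      simp only [p]; rw [div_mul_eq_mul_div, div_eq_iff c1]
      push_cast at b2 ⊢
      simp only [y]
      push_cast
      linear_combination (k + 1 : ℝ) * b2
    have d3 : q (k + 1) = 2 * (n - 2 * k - 1) - 2 * p (k + 1) - 2 * p k := by
      simp only [p, q, e]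
      field_simp
      simp only [y]
      push_cast
      ring
    rw [d3]
    linear_combination d1 + d2 + 2 * b3
  have hv1 : v n 1 = 1 := by
    have b := relB n 0
    have t := top n
    simp only [v, u, Nat.cast_zero, mul_zero, sub_zero, t.1, t.2] at b ⊢
    have : (n : ℝ) ≠ 0 := by linarith
    simp only [zero_add] at b
    push_cast at b ⊢
    have e : ((n : ℝ) + n) * ((-1) ^ 2 * (L n (n + 1 - 2) : ℝ) - 1) = 0 := by linarith
    rcases mul_eq_zero.1 e with h | h <;> linarith
  have hT := turn (v n) (fun k => p k * (v n (k + 1) - v n k)) p q m (64 * K ^ 2) K (1 / (4 * w))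
    (64 * K) (by positivity) (by positivity) (by omega) (by rw [hv1]; norm_num)
    (by
      have a := h2 0 (by omega)
      have b := hy 1 (by omega)
      have c : y 1 = 20 * w - 2 := by simp only [y, hnr]; push_cast; ring
      show 0 < p (0 + 1) * (v n (0 + 1 + 1) - v n (0 + 1))
      rw [a, zero_add, hv1]
      simp only [p, q, Nat.cast_zero, zero_mul, zero_div, zero_add, mul_one]
      refine div_pos (mul_pos (by linarith) ?_) (mul_pos (by linarith) (by linarith))
      rw [c, hnr]; nlinarith)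
    (fun k a b => by
      have := hy k b
      have : (1 : ℝ) ≤ k := by exact_mod_cast a
      exact div_pos (mul_pos (by linarith) (by linarith)) (by linarith))
    (fun k a b => by
      have c := hy k b
      have d : (m : ℝ) ≤ k + 64 * K ^ 2 := by exact_mod_cast a
      have e : y k ≤ 16 * w := by
        simp only [y] at hm6 ⊢; push_cast at hm6; linarith
      have f : (k : ℝ) = (20 * w - y k) / 2 := by simp only [y, hnr]; ring
      simp only [p]
      rw [div_mul_div_comm, one_mul, le_div_iff₀ (mul_pos (by linarith) (by linarith)), f, hnr]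
      nlinarith)
    (fun _ _ _ => rfl) h2
    (fun k a => by
      have b := hy k (by omega)
      exact div_nonneg (mul_nonneg (by linarith) (sub_nonneg.2 (hm2 k a)))
        (mul_nonneg (by linarith) (by linarith)))
    (by
      have a := hy m (by omega)
      have b := hm2 m le_rfl
      have c : y (m - 64 * K ^ 2) = y m + 2 * (64 * K ^ 2 : ℕ) := by
        simp only [y]; rw [Nat.cast_sub (by omega)]; ring
      have d : (0 : ℝ) ≤ (64 * K ^ 2 : ℕ) := Nat.cast_nonneg _
      simp only [q, c]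
      generalize ((64 * K ^ 2 : ℕ) : ℝ) = J at *
      rw [le_div_iff₀ (mul_pos (by linarith) (by linarith))]
      have e : 4 * J * (y m + 2 * J + 2) ≤ 2 * (y m + 2 * J) * (y m + 2 * J + 2) - n ^ 2 := by
        nlinarith
      have f := mul_le_mul_of_nonneg_left e (show 0 ≤ 2 * (y m + 2 * J + 1) by linarith)
      nlinarith [mul_nonneg d (show 0 ≤ y m + 2 * J + 2 by linarith)])
    (fun k a b => by
      have c := hy k b
      obtain ⟨j, rfl⟩ := Nat.exists_eq_add_of_lt a
      have d : (j : ℝ) + 1 ≤ K := by exact_mod_cast (show j + 1 ≤ K by omega)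
      have d0 : (0 : ℝ) ≤ j := Nat.cast_nonneg j
      have e1 : y m = y (m + j + 1) + 2 * (j + 1) := by simp only [y]; push_cast; ring
      have e2 : y (m + 1) = y (m + j + 1) + 2 * j := by simp only [y]; push_cast; ring
      have f := hm2 m le_rfl
      rw [e1] at f
      rw [e2] at hm1
      simp only [q]
      generalize y (m + j + 1) = z at *
      have hz : 0 < z * (z + 2) := mul_pos (by linarith) (by linarith)
      constructor
      · rw [le_div_iff₀ hz]
        have g : -(16 * K * (z + 2)) ≤ 2 * z * (z + 2) - n ^ 2 := by nlinarith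
        have h := mul_le_mul_of_nonneg_left g (show 0 ≤ 2 * (z + 1) by linarith)
        nlinarith [mul_nonneg (mul_nonneg (show (0 : ℝ) ≤ K by linarith)
          (show 0 ≤ z + 2 by linarith)) (show 0 ≤ z - 1 by linarith)]
      · refine div_nonpos_of_nonpos_of_nonneg (mul_nonpos_of_nonneg_of_nonpos (by linarith) ?_) hz.le
        nlinarith)
    (by rw [mul_one_div, div_le_one (by linarith)]; push_cast; nlinarith)
    (by push_cast; nlinarith)
    (by rw [mul_one_div, div_le_one (by linarith)]; nlinarith) hJ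
  refine ⟨m, hm1, fun k a b => ?_⟩
  obtain ⟨c1, c2⟩ := hT k a (by omega)
  obtain ⟨c3, c4⟩ := hT (k + 1) (by omega) b
  have b1 := relB n k
  have b2 := relB n (k + 1)
  have d := hy (k + 1) b
  simp only [y] at d
  push_cast at b2 d
  have e1 : u n k = (n + (n - 2 * k : ℝ)) / (2 * (n - 2 * k)) * (v n (k + 1) + v n k) := by
    rw [div_mul_eq_mul_div, eq_div_iff (by linarith)]; linarith
  have e2 : u n (k + 1) = (n + (n - 2 * (k + 1) : ℝ)) / (2 * (n - 2 * (k + 1))) *
      (v n (k + 1 + 1) + v n (k + 1)) := by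
    rw [div_mul_eq_mul_div, eq_div_iff (by linarith)]; linarith
  have f1 : (0 : ℝ) ≤ (n + (n - 2 * k : ℝ)) / (2 * (n - 2 * k)) :=
    div_nonneg (by linarith) (by linarith)
  have f2 : (n + (n - 2 * k : ℝ)) / (2 * (n - 2 * k)) ≤
      (n + (n - 2 * (k + 1) : ℝ)) / (2 * (n - 2 * (k + 1))) := by
    rw [div_le_div_iff₀ (by linarith) (by linarith)]; nlinarith
  have g1 : 0 ≤ u n k := by rw [e1]; exact mul_nonneg f1 (by linarith)
  have g2 : u n k ≤ u n (k + 1) := by
    rw [e1, e2]; exact mul_le_mul f2 (by linarith) (by linarith) (f1.trans f2)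
  nlinarith

end Pool.Agent.H21.FC
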