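import Mathlib

namespace Pool.Agent.H21.FR

open Matrix

variable {V : Type} [Fintype V] [DecidableEq V]

/-- Proper fractional revival on `{a, b}`: `exp(iτA) e_a = α e_a + β e_b` with `τ > 0`,
`αβ ≠ 0`. -/
def ProperFR (G : SimpleGraph V) [DecidableRel G.Adj] (a b : V) : Prop :=
  ∃ (τ : ℝ) (α β : ℂ), 0 < τ ∧ α * β ≠ 0 ∧
    NormedSpace.exp ((Complex.I * τ) • G.adjMatrix ℂ) *ᵥ Pi.single a 1 =
      α • Pi.single a 1 + β • Pi.single b 1

/-- `θ` is in the eigenvalue support of `a`: the orthogonal projection of `e_a` onto the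
`θ`-eigenspace of the adjacency matrix is nonzero. -/
def InSupport (G : SimpleGraph V) [DecidableRel G.Adj] (a : V) (θ : ℝ) : Prop :=
  (Module.End.eigenspace (Matrix.toEuclideanLin (G.adjMatrix ℝ)) θ).starProjection
    (EuclideanSpace.single a 1) ≠ 0

end Pool.Agent.H21.FR
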