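import Mathlib

namespace Pool.Agent.H21.FR2

open Matrix

variable {V : Type} [Fintype V] [DecidableEq V]

/-- The transition matrix `U(t) = exp(itA)`. -/
noncomputable def U (G : SimpleGraph V) [DecidableRel G.Adj] (t : ℝ) : Matrix V V ℂ :=
  NormedSpace.exp ((Complex.I * t) • G.adjMatrix ℂ)

/-- Proper fractional revival on `{a, b}` at some time `t`. -/
def ProperRevival (G : SimpleGraph V) [DecidableRel G.Adj] (a b : V) : Prop :=
  ∃ t : ℝ, (∀ c, c ≠ a → c ≠ b → U G t a c = 0 ∧ U G t b c = 0) ∧ U G t a b ≠ 0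

/-- The `(a, b)` entry of the orthogonal projection onto the `θ`-eigenspace of the adjacency
matrix (zero when `θ` is not an eigenvalue). -/
noncomputable def E (G : SimpleGraph V) [DecidableRel G.Adj] (θ : ℝ) (a b : V) : ℝ :=
  (Module.End.eigenspace (Matrix.toEuclideanLin (G.adjMatrix ℝ)) θ).starProjection
    (EuclideanSpace.single b 1) a

def Cplus (G : SimpleGraph V) [DecidableRel G.Adj] (a b : V) : Set ℝ := {θ | 0 < E G θ a b}

end Pool.Agent.H21.FR2
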