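import Mathlib
import Pool.Agent.H21.FRDef2

namespace Pool.Agent.H21.FR2

open Matrix

variable {V : Type} [Fintype V] [DecidableEq V]

/-- Balanced fractional revival from `a` to `b`. -/
def BalancedFR (G : SimpleGraph V) [DecidableRel G.Adj] (a b : V) : Prop :=
  ∃ (τ : ℝ) (α β : ℂ), 0 < τ ∧ ‖α‖ = 1 / √2 ∧ ‖β‖ = 1 / √2 ∧
    U G τ *ᵥ Pi.single a 1 = α • Pi.single a 1 + β • Pi.single b 1

/-- `a` and `b` are cospectral: `(E_θ)_{a,a} = (E_θ)_{b,b}` for every `θ`. -/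
def Cospectral (G : SimpleGraph V) [DecidableRel G.Adj] (a b : V) : Prop :=
  ∀ θ : ℝ, E G θ a a = E G θ b b

end Pool.Agent.H21.FR2
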