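import Mathlib
import Pool.Agent.H21.FRDef

namespace Pool.Agent.H21.FR

variable {V : Type} [Fintype V] [DecidableEq V]

/-- The vertex-deleted subgraphs at `a` and at `b` have the same characteristic polynomial. -/
def CospectralDel (G : SimpleGraph V) [DecidableRel G.Adj] (a b : V) : Prop :=
  ((G.induce {v | v ≠ a}).adjMatrix ℤ).charpoly = ((G.induce {v | v ≠ b}).adjMatrix ℤ).charpoly

end Pool.Agent.H21.FR
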