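import Mathlib

namespace Pool.Agent.H21.Fied

open Matrix

variable {V : Type} [Fintype V] [DecidableEq V]

/-- The Laplacian `D - W` of a weight matrix. -/
def lap (W : Matrix V V ℝ) : Matrix V V ℝ := diagonal (fun i => ∑ j, W i j) - W

/-- `φ` is a unit eigenvector of `L` for its least nonzero eigenvalue `μ > 0` (this is `λ₂` for a
connected graph), and that eigenvalue is simple. -/
def IsFiedler (L : Matrix V V ℝ) (φ : V → ℝ) : Prop :=
  φ ⬝ᵥ φ = 1 ∧ ∃ μ : ℝ, 0 < μ ∧ L *ᵥ φ = μ • φ ∧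
    (∀ (ν : ℝ) (ψ : V → ℝ), ψ ≠ 0 → L *ᵥ ψ = ν • ψ → ν = 0 ∨ μ ≤ ν) ∧
    ∀ ψ : V → ℝ, L *ᵥ ψ = μ • ψ → ∃ c : ℝ, ψ = c • φ

/-- `u` is an extremum of `φ`. -/
def IsExtremum (φ : V → ℝ) (u : V) : Prop := (∀ i, φ i ≤ φ u) ∨ ∀ i, φ u ≤ φ i

/-- Weights of `G` with a new vertex `none` joined to `v` by an edge of weight `x`. -/
def pend (G : SimpleGraph V) [DecidableRel G.Adj] (v : V) (x : ℝ) :
    Matrix (Option V) (Option V) ℝ
  | some a, some b => G.adjMatrix ℝ a b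
  | some a, none => if a = v then x else 0
  | none, some b => if b = v then x else 0
  | none, none => 0

end Pool.Agent.H21.Fied
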