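import Mathlib

/-! Rigorous integer evaluation of cos and sin at rational multiples of 2π. -/

namespace Pool.Agent.H21.Fl

open Real

def rI (m : ℕ) : ℤ := if m % 4 = 0 then 1 else if m % 4 = 2 then -1 else 0
def iI (m : ℕ) : ℤ := if m % 4 = 1 then 1 else if m % 4 = 3 then -1 else 0

def tay (w : ℕ → ℤ) (Y D : ℕ) : ℕ → ℤ
  | 0 => 0
  | j + 1 => ((D * (j + 1) : ℕ) : ℤ) * (tay w Y D j + w j * ((Y ^ j : ℕ) : ℤ))

lemma tay_eq (w : ℕ → ℤ) (Y D : ℕ) (hD : 0 < D) (j : ℕ) :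
    (tay w Y D j : ℝ) = (D : ℝ) ^ j * j.factorial *
      ∑ m ∈ Finset.range j, (w m : ℝ) * (((Y : ℝ) / D) ^ m / m.factorial) := by
  have hD' : (D : ℝ) ≠ 0 := by positivity
  induction j with
  | zero => simp [tay]
  | succ j ih =>
    have hf : (j.factorial : ℝ) ≠ 0 := by positivity
    rw [tay, Finset.sum_range_succ, Nat.factorial_succ]
    push_cast
    rw [ih, div_pow]
    field_simp
    ring

lemma I_pow (m : ℕ) : Complex.I ^ m = (rI m : ℂ) + (iI m : ℂ) * Complex.I := by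
  rw [Complex.I_pow_eq_pow_mod, rI, iI]
  have : m % 4 < 4 := Nat.mod_lt _ (by norm_num)
  generalize m % 4 = r at *
  interval_cases r <;> simp [pow_succ]

lemma exp_app (y : ℝ) (h0 : 0 ≤ y) (h1 : y ≤ 63 / 10) :
    |cos y - ∑ m ∈ Finset.range 30, (rI m : ℝ) * (y ^ m / m.factorial)| ≤ 1 / 10 ^ 7 ∧
    |sin y - ∑ m ∈ Finset.range 30, (iI m : ℝ) * (y ^ m / m.factorial)| ≤ 1 / 10 ^ 7 := by
  have hn : ‖(y : ℂ) * Complex.I‖ = y := by simp [abs_of_nonneg h0]
  have h := Complex.exp_bound' (x := (y : ℂ) * Complex.I) (n := 30) (by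
    rw [hn]; push_cast; linarith)
  rw [hn] at h
  have hb : y ^ 30 / (Nat.factorial 30 : ℝ) * 2 ≤ 1 / 10 ^ 7 := by
    have : y ^ 30 ≤ (63 / 10 : ℝ) ^ 30 := pow_le_pow_left₀ h0 h1 30
    have h30 : (Nat.factorial 30 : ℝ) = 265252859812191058636308480000000 := by
      norm_num [Nat.factorial]
    rw [h30]
    have : (63 / 10 : ℝ) ^ 30 ≤ 10 ^ 24 := by norm_num
    rw [div_mul_eq_mul_div, div_le_div_iff₀ (by norm_num) (by norm_num)]
    nlinarith
  have e : ∀ m : ℕ, ((y : ℂ) * Complex.I) ^ m / (m.factorial : ℂ) =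
      (((rI m : ℝ) * (y ^ m / m.factorial) : ℝ) : ℂ) +
        (((iI m : ℝ) * (y ^ m / m.factorial) : ℝ) : ℂ) * Complex.I := by
    intro m
    rw [mul_pow, I_pow]
    push_cast
    ring
  simp only [e] at h
  constructor
  · have := (Complex.abs_re_le_norm _).trans (h.trans hb)
    rw [Complex.sub_re, Complex.exp_ofReal_mul_I_re, Complex.re_sum] at this
    simpa only [Complex.add_re, Complex.mul_re, Complex.ofReal_re, Complex.ofReal_im, Complex.I_re,
      Complex.I_im, mul_zero, zero_mul, sub_zero, add_zero, mul_one] using this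
  · have := (Complex.abs_im_le_norm _).trans (h.trans hb)
    rw [Complex.sub_im, Complex.exp_ofReal_mul_I_im, Complex.im_sum] at this
    simpa only [Complex.add_im, Complex.mul_im, Complex.ofReal_re, Complex.ofReal_im, Complex.I_re,
      Complex.I_im, mul_zero, zero_mul, sub_zero, add_zero, mul_one, zero_add] using this

def YY (k q : ℕ) : ℕ := 2 * (6283185 * (k % q) * 4782969 / (2000000 * q)) + 1
def cA (k q : ℕ) : ℤ := tay rI (YY k q) 4782969 30
def sA (k q : ℕ) : ℤ := tay iI (YY k q) 4782969 30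
def CC : ℕ := 4782969 ^ 30 * 265252859812191058636308480000000

lemma CC_pos : (0 : ℝ) < CC := by
  unfold CC; positivity

lemma trig_app (k q : ℕ) (hq : 0 < q) :
    |cos (2 * π * (k / q)) - cA k q / CC| ≤ 3 / 10 ^ 6 ∧
    |sin (2 * π * (k / q)) - sA k q / CC| ≤ 3 / 10 ^ 6 := by
  have hq' : (0 : ℝ) < q := by positivity
  set r : ℕ := k % q with hr
  have hrq : (r : ℝ) / q ≤ 1 := by
    rw [div_le_one hq']; exact_mod_cast (Nat.mod_lt _ hq).le
  have hr0 : (0 : ℝ) ≤ (r : ℝ) / q := by positivity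
  have hk : 2 * π * ((k : ℝ) / q) = 2 * π * ((r : ℝ) / q) + (k / q : ℕ) * (2 * π) := by
    have : (k : ℝ) = r + q * (k / q : ℕ) := by exact_mod_cast (Nat.mod_add_div k q).symm
    rw [this]; field_simp
  set y : ℝ := ((YY k q : ℕ) : ℝ) / ((4782969 : ℕ) : ℝ) with hy
  have hy' : |y - 6283185 / 1000000 * ((r : ℝ) / q)| ≤ 1 / 4782969 := by
    set u : ℕ := 6283185 * r * 4782969 / (2000000 * q) with hu
    have hz : ((6283185 * r * 4782969 : ℕ) : ℝ) / ((2000000 * q : ℕ) : ℝ) =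
        6283185 * 4782969 / 2000000 * ((r : ℝ) / q) := by
      push_cast; field_simp
    have u1 : (u : ℝ) ≤ 6283185 * 4782969 / 2000000 * ((r : ℝ) / q) := by
      rw [← hz]; exact Nat.cast_div_le
    have u2 : 6283185 * 4782969 / 2000000 * ((r : ℝ) / q) < u + 1 := by
      rw [← hz, hu, ← Nat.floor_div_eq_div (K := ℝ)]; exact Nat.lt_floor_add_one _
    have : y = (2 * u + 1) / 4782969 := by
      rw [hy, YY, ← hr, ← hu]; push_cast; ring
    rw [this, abs_le]
    constructor <;> linarith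
  have hd : |2 * π * ((r : ℝ) / q) - y| ≤ 2 / 10 ^ 6 := by
    rw [abs_le] at hy' ⊢
    have h1 := Real.pi_gt_d6
    have h2 := Real.pi_lt_d6
    constructor <;> nlinarith [hy'.1, hy'.2]
  obtain ⟨h1, h2⟩ := exp_app y (by rw [hy]; positivity) (by
    rw [abs_le] at hy'; linarith [hy'.2])
  have hC : (CC : ℝ) = ((4782969 : ℕ) : ℝ) ^ 30 * (Nat.factorial 30 : ℕ) := by
    have h30 : Nat.factorial 30 = 265252859812191058636308480000000 := by
      norm_num [Nat.factorial]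
    rw [h30, CC, Nat.cast_mul, Nat.cast_pow]
  have hC0 := CC_pos
  have e1 : (cA k q : ℝ) / CC = ∑ m ∈ Finset.range 30, (rI m : ℝ) * (y ^ m / m.factorial) := by
    rw [cA, tay_eq _ _ _ (by positivity), ← hC, ← hy, mul_div_cancel_left₀ _ hC0.ne']
  have e2 : (sA k q : ℝ) / CC = ∑ m ∈ Finset.range 30, (iI m : ℝ) * (y ^ m / m.factorial) := by
    rw [sA, tay_eq _ _ _ (by positivity), ← hC, ← hy, mul_div_cancel_left₀ _ hC0.ne']
  rw [e1, e2, hk, cos_add_nat_mul_two_pi, sin_add_nat_mul_two_pi]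
  have l1 := (Real.abs_cos_sub_cos_le (2 * π * ((r : ℝ) / q)) y).trans hd
  have l2 := (Real.abs_sin_sub_sin_le (2 * π * ((r : ℝ) / q)) y).trans hd
  rw [abs_le] at h1 h2 l1 l2
  constructor <;> rw [abs_le] <;> constructor <;>
    linarith [h1.1, h1.2, h2.1, h2.2, l1.1, l1.2, l2.1, l2.2]

/-- the trigonometric polynomial on the real line -/
noncomputable def F (t : ℝ) : ℝ :=
  1000 * cos (2 * π * t) + 255 * sin (2 * π * t) - 656 * cos (2 * π * (3 * t))
    - 286 * sin (2 * π * (3 * t))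

def PF (k q : ℕ) : ℤ := 1000 * cA k q + 255 * sA k q - 656 * cA (3 * k) q - 286 * sA (3 * k) q

lemma F_app (k q : ℕ) (hq : 0 < q) : |F (k / q) - PF k q / CC| ≤ 7 / 1000 := by
  obtain ⟨h1, h2⟩ := trig_app k q hq
  obtain ⟨h3, h4⟩ := trig_app (3 * k) q hq
  have e : ((3 * k : ℕ) : ℝ) / q = 3 * ((k : ℝ) / q) := by push_cast; ring
  rw [e] at h3 h4
  have e2 : (PF k q : ℝ) / CC = 1000 * (cA k q / CC) + 255 * (sA k q / CC)
      - 656 * (cA (3 * k) q / CC) - 286 * (sA (3 * k) q / CC) := by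
    rw [PF]; push_cast; ring
  rw [e2, F]
  rw [abs_le] at *
  constructor <;> linarith [h1.1, h1.2, h2.1, h2.2, h3.1, h3.2, h4.1, h4.2]

lemma F_interp (a h τ : ℝ) (h0 : 0 ≤ τ) (h1 : τ ≤ 1) :
    F (a + τ * h) ≤ (1 - τ) * F a + τ * F (a + h) + 50000 * h ^ 2 := by
  let ψ : ℝ → ℝ := fun t => F t + 200000 * t ^ 2
  let ψ1 : ℝ → ℝ := fun t => -(1000 * (2 * π) * sin (2 * π * t)) + 255 * (2 * π) * cos (2 * π * t)
    + 656 * (6 * π) * sin (2 * π * (3 * t)) - 286 * (6 * π) * cos (2 * π * (3 * t)) + 400000 * t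
  let ψ2 : ℝ → ℝ := fun t => -(1000 * (2 * π) ^ 2 * cos (2 * π * t))
    - 255 * (2 * π) ^ 2 * sin (2 * π * t)
    + 656 * (6 * π) ^ 2 * cos (2 * π * (3 * t)) + 286 * (6 * π) ^ 2 * sin (2 * π * (3 * t)) + 400000
  have l1 : ∀ t : ℝ, HasDerivAt (fun t : ℝ => 2 * π * t) (2 * π) t := fun t => by
    simpa using (hasDerivAt_id t).const_mul (2 * π)
  have l3 : ∀ t : ℝ, HasDerivAt (fun t : ℝ => 2 * π * (3 * t)) (6 * π) t := fun t => by
    have := ((hasDerivAt_id t).const_mul 3).const_mul (2 * π)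
    refine HasDerivAt.congr_deriv (f' := 2 * π * (3 * 1)) this (by ring)
  have d1 : ∀ t, HasDerivAt ψ (ψ1 t) t := by
    intro t
    have := (((((l1 t).cos.const_mul 1000).add ((l1 t).sin.const_mul 255)).sub
      ((l3 t).cos.const_mul 656)).sub ((l3 t).sin.const_mul 286)).add
      ((hasDerivAt_pow 2 t).const_mul 200000)
    refine HasDerivAt.congr_deriv this ?_
    simp only [ψ1]; push_cast; ring
  have d2 : ∀ t, HasDerivAt ψ1 (ψ2 t) t := by
    intro t
    have := (((((l1 t).sin.const_mul (1000 * (2 * π))).neg.add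
      ((l1 t).cos.const_mul (255 * (2 * π)))).add
      ((l3 t).sin.const_mul (656 * (6 * π)))).sub ((l3 t).cos.const_mul (286 * (6 * π)))).add
      ((hasDerivAt_id t).const_mul 400000)
    refine HasDerivAt.congr_deriv this ?_
    simp only [ψ2]; ring
  have p2 : π ^ 2 ≤ 10 := by nlinarith [Real.pi_lt_d2, Real.pi_pos]
  have n2 : ∀ t, 0 ≤ ψ2 t := by
    intro t
    simp only [ψ2]
    have := cos_le_one (2 * π * t)
    have := sin_le_one (2 * π * t)
    have := neg_one_le_cos (2 * π * (3 * t))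
    have := neg_one_le_sin (2 * π * (3 * t))
    nlinarith [sq_nonneg π]
  have hm : Monotone ψ1 := monotone_of_deriv_nonneg (fun t => (d2 t).differentiableAt)
    (fun t => by rw [(d2 t).deriv]; exact n2 t)
  have hc : ConvexOn ℝ Set.univ ψ := by
    apply Monotone.convexOn_univ_of_deriv (fun t => (d1 t).differentiableAt)
    have : deriv ψ = ψ1 := funext fun t => (d1 t).deriv
    rw [this]; exact hm
  have := hc.2 (Set.mem_univ a) (Set.mem_univ (a + h)) (sub_nonneg.2 h1) h0 (by ring)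
  simp only [smul_eq_mul, ψ] at this
  have e : (1 - τ) * a + τ * (a + h) = a + τ * h := by ring
  rw [e] at this
  nlinarith [mul_nonneg (sq_nonneg h) (sq_nonneg (2 * τ - 1))]

end Pool.Agent.H21.Fl
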