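import Mathlib
import Pool.Agent.H21.Fl1
import Pool.Agent.H21.Fl2

/-! Kernel checks of the tables. -/

namespace Pool.Agent.H21.Fl

def get (T j : ℕ) : ℕ := (T >>> (24 * j)) % 16777216

def chkU (k : ℕ) : Bool :=
  decide (1000 * PF k 2048 + 3000007 * (CC : ℤ) ≤ (get tU k : ℤ) * (CC : ℤ))

def chkC (A B k1 k2 k : ℕ) : Bool :=
  (decide (k1 ≤ k) && decide (k < k2)) ||
  (if k % 2 = 0 then
    decide (2 * get tU k + 2 * get A (k / 2) ≤ 2 * get A (k % 1024) + 6847200) &&
    decide (2 * get tU (k + 1) + (get A (k / 2) + get B (k / 2)) ≤ 2 * get B (k % 1024) + 6847200)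
  else
    decide (2 * get tU k + (get A (k / 2) + get B (k / 2)) ≤ 2 * get A (k % 1024) + 6847200) &&
    decide (2 * get tU (k + 1) + 2 * get B (k / 2) ≤ 2 * get B (k % 1024) + 6847200))

lemma okU0 : (List.range' 0 410).all chkU = true := by decide +kernel
lemma okU1 : (List.range' 410 410).all chkU = true := by decide +kernel
lemma okU2 : (List.range' 820 410).all chkU = true := by decide +kernel
lemma okU3 : (List.range' 1230 410).all chkU = true := by decide +kernel
lemma okU4 : (List.range' 1640 409).all chkU = true := by decide +kernel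

lemma okU (k : ℕ) (hk : k ≤ 2048) : chkU k = true := by
  have h0 := List.all_eq_true.1 okU0 k
  have h1 := List.all_eq_true.1 okU1 k
  have h2 := List.all_eq_true.1 okU2 k
  have h3 := List.all_eq_true.1 okU3 k
  have h4 := List.all_eq_true.1 okU4 k
  simp only [List.mem_range'_1] at h0 h1 h2 h3 h4
  by_cases c0 : k < 410
  · exact h0 (by omega)
  by_cases c1 : k < 820
  · exact h1 (by omega)
  by_cases c2 : k < 1230
  · exact h2 (by omega)
  by_cases c3 : k < 1640
  · exact h3 (by omega)
  · exact h4 (by omega)

lemma ok0 : (List.range 2048).all (chkC tA0 tB0 0 64) = true := by decide +kernel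
lemma ok1 : (List.range 2048).all (chkC tA1 tB1 1088 1120) = true := by decide +kernel
lemma ok2 : (List.range 2048).all (chkC tA2 tB2 96 256) = true := by decide +kernel
lemma ok3 : (List.range 2048).all (chkC tA3 tB3 1280 1792) = true := by decide +kernel
lemma ok4 : (List.range 2048).all (chkC tA4 tB4 768 1024) = true := by decide +kernel
lemma okO : 14 * 424020 * (CC : ℤ) ≤
    1000 * ∑ i ∈ Finset.range 14, PF (497 * 2 ^ i) 16383 := by decide +kernel

end Pool.Agent.H21.Fl
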