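import Mathlib
import Pool.Agent.H21.Fl3

/-! Sub-action certificates for the doubling map. -/

namespace Pool.Agent.H21.Fl

open Real MeasureTheory Set

lemma F_le_U (k : ℕ) (hk : k ≤ 2048) : 1000 * F (k / 2048) + 3000000 ≤ get tU k := by
  have h := okU k hk
  simp only [chkU, decide_eq_true_eq] at h
  have h' : (1000 * (PF k 2048 : ℝ) + 3000007 * (CC : ℝ)) ≤ (get tU k : ℝ) * (CC : ℝ) := by
    exact_mod_cast h
  have h2 := F_app k 2048 (by norm_num)
  have hC := CC_pos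
  have h3 : 1000 * ((PF k 2048 : ℝ) / CC) + 3000007 ≤ get tU k := by
    rw [← mul_le_mul_iff_left₀ hC]
    have : (1000 * ((PF k 2048 : ℝ) / CC) + 3000007) * CC
        = 1000 * (PF k 2048 : ℝ) + 3000007 * (CC : ℝ) := by field_simp
    rw [this]; exact h'
  rw [abs_le] at h2
  push_cast at h2
  linarith [h2.2]

noncomputable def G (A B : ℕ) (s : ℝ) : ℝ :=
  get A ⌊1024 * s⌋₊ + (1024 * s - ⌊1024 * s⌋₊) * ((get B ⌊1024 * s⌋₊ : ℝ) - get A ⌊1024 * s⌋₊)

lemma G_val (A B j : ℕ) (σ : ℝ) (h0 : 0 ≤ σ) (h1 : σ < 1) :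
    G A B ((j + σ) / 1024) = get A j + σ * ((get B j : ℝ) - get A j) := by
  have e : 1024 * (((j : ℝ) + σ) / 1024) = j + σ := by ring
  have f : ⌊(j : ℝ) + σ⌋₊ = j := by
    rw [Nat.floor_eq_iff (by positivity)]; constructor <;> linarith
  rw [G, e, f]; ring

lemma G_meas (A B : ℕ) : Measurable (G A B) := by
  have h1 : Measurable fun s : ℝ => ⌊1024 * s⌋₊ :=
    Nat.measurable_floor.comp (measurable_const.mul measurable_id)
  have h2 : ∀ T : ℕ, Measurable fun s : ℝ => (get T ⌊1024 * s⌋₊ : ℝ) := fun T =>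
    (measurable_from_top (f := fun n : ℕ => (get T n : ℝ))).comp h1
  have h3 : Measurable fun s : ℝ => (⌊1024 * s⌋₊ : ℝ) :=
    (measurable_from_top (f := fun n : ℕ => (n : ℝ))).comp h1
  exact (h2 A).add (((measurable_const.mul measurable_id).sub h3).mul ((h2 B).sub (h2 A)))

lemma G_bound (A B : ℕ) (s : ℝ) (hs : 0 ≤ s) : |G A B s| ≤ 16777216 := by
  have g : ∀ T j : ℕ, (get T j : ℝ) ≤ 16777216 := fun T j => by
    have : get T j < 16777216 := Nat.mod_lt _ (by norm_num)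
    exact_mod_cast this.le
  have h1 : (⌊1024 * s⌋₊ : ℝ) ≤ 1024 * s := Nat.floor_le (by positivity)
  have h2 := Nat.lt_floor_add_one (1024 * s)
  have a0 : (0 : ℝ) ≤ get A ⌊1024 * s⌋₊ := by positivity
  have b0 : (0 : ℝ) ≤ get B ⌊1024 * s⌋₊ := by positivity
  have a1 := g A ⌊1024 * s⌋₊
  have b1 := g B ⌊1024 * s⌋₊
  rw [G, abs_le]
  constructor <;> nlinarith

noncomputable def lf (x : UnitAddCircle) : ℝ := (AddCircle.equivIco 1 0 x : ℝ)

lemma lf_mem (x : UnitAddCircle) : lf x ∈ Ico (0 : ℝ) 1 := by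
  simpa [lf] using (AddCircle.equivIco 1 0 x).2

lemma coe_lf (x : UnitAddCircle) : ((lf x : ℝ) : UnitAddCircle) = x :=
  (AddCircle.equivIco 1 0).symm_apply_apply x

lemma lf_coe (t : ℝ) (ht : t ∈ Ico (0 : ℝ) 1) : lf (t : UnitAddCircle) = t := by
  have := (AddCircle.coe_eq_coe_iff_of_mem_Ico (p := (1 : ℝ)) (a := 0)
    (by simpa using lf_mem (t : UnitAddCircle)) (by simpa using ht)).1 (coe_lf _)
  exact this

lemma lf_meas : Measurable lf :=
  measurable_subtype_coe.comp (AddCircle.measurableEquivIco 1 0).measurable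

lemma ar1 {τ f f0 f1 w0 w1 a b a' b' : ℝ} (τ0 : 0 ≤ τ) (τ1 : τ ≤ 1)
    (hF : f ≤ (1 - τ) * f0 + τ * f1 + 50000 * (1 / 2048) ^ 2)
    (u0 : 1000 * f0 + 3000000 ≤ w0) (u1 : 1000 * f1 + 3000000 ≤ w1)
    (c1 : 2 * w0 + 2 * a ≤ 2 * a' + 6847200) (c2 : 2 * w1 + (a + b) ≤ 2 * b' + 6847200) :
    1000 * f + (a + τ / 2 * (b - a)) - (a' + τ * (b' - a')) ≤ 423700 := by
  nlinarith [mul_le_mul_of_nonneg_left c1 (sub_nonneg.2 τ1), mul_le_mul_of_nonneg_left c2 τ0,
    mul_le_mul_of_nonneg_left u0 (sub_nonneg.2 τ1), mul_le_mul_of_nonneg_left u1 τ0]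

lemma ar2 {τ f f0 f1 w0 w1 a b a' b' : ℝ} (τ0 : 0 ≤ τ) (τ1 : τ ≤ 1)
    (hF : f ≤ (1 - τ) * f0 + τ * f1 + 50000 * (1 / 2048) ^ 2)
    (u0 : 1000 * f0 + 3000000 ≤ w0) (u1 : 1000 * f1 + 3000000 ≤ w1)
    (c1 : 2 * w0 + (a + b) ≤ 2 * a' + 6847200) (c2 : 2 * w1 + 2 * b ≤ 2 * b' + 6847200) :
    1000 * f + (a + (1 + τ) / 2 * (b - a)) - (a' + τ * (b' - a')) ≤ 423700 := by
  nlinarith [mul_le_mul_of_nonneg_left c1 (sub_nonneg.2 τ1), mul_le_mul_of_nonneg_left c2 τ0,
    mul_le_mul_of_nonneg_left u0 (sub_nonneg.2 τ1), mul_le_mul_of_nonneg_left u1 τ0]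

lemma pointwise (A B k1 k2 : ℕ) (h : (List.range 2048).all (chkC A B k1 k2) = true)
    (x : UnitAddCircle) (hx : ¬ ((k1 : ℝ) / 2048 ≤ lf x ∧ lf x < (k2 : ℝ) / 2048)) :
    1000 * F (lf x) + G A B (lf x) - G A B (lf (x + x)) ≤ 423700 := by
  obtain ⟨t0, t1⟩ := lf_mem x
  set t := lf x with ht
  set k : ℕ := ⌊2048 * t⌋₊ with hk
  have k0 : (k : ℝ) ≤ 2048 * t := Nat.floor_le (by positivity)
  have k1' : 2048 * t < k + 1 := Nat.lt_floor_add_one _
  have kl : k < 2048 := by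
    have : (k : ℝ) < 2048 := by linarith
    exact_mod_cast this
  set τ : ℝ := 2048 * t - k with hτ
  have τ0 : 0 ≤ τ := by linarith
  have τ1 : τ < 1 := by linarith
  have hc := List.all_eq_true.1 h k (List.mem_range.2 kl)
  have hn : ¬ (k1 ≤ k ∧ k < k2) := by
    rintro ⟨a, b⟩
    have a' : (k1 : ℝ) ≤ k := by exact_mod_cast a
    have b' : (k : ℝ) + 1 ≤ k2 := by exact_mod_cast b
    exact hx ⟨by linarith, by linarith⟩
  have e2 : lf (x + x) = ((k % 1024 : ℕ) + τ) / 1024 := by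
    have m0 : ((k % 1024 : ℕ) : ℝ) + 1 ≤ 1024 := by
      exact_mod_cast Nat.mod_lt k (by norm_num : 0 < 1024)
    have m1 : (0 : ℝ) ≤ ((k % 1024 : ℕ) : ℝ) := by positivity
    rw [← lf_coe (((k % 1024 : ℕ) + τ) / 1024) ⟨by positivity, by linarith⟩]
    refine congrArg lf ?_
    have hk2 : (k : ℝ) = (k % 1024 : ℕ) + 1024 * (k / 1024 : ℕ) := by
      exact_mod_cast (Nat.mod_add_div k 1024).symm
    have : t + t = ((k % 1024 : ℕ) + τ) / 1024 + ((k / 1024 : ℕ) : ℤ) • (1 : ℝ) := by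
      simp only [zsmul_eq_mul, Int.cast_natCast, mul_one]
      linarith
    rw [← coe_lf x, ← ht, ← AddCircle.coe_add, this, AddCircle.coe_add, AddCircle.coe_zsmul,
      AddCircle.coe_period, smul_zero, add_zero]
  have hF := F_interp ((k : ℝ) / 2048) (1 / 2048) τ τ0 τ1.le
  have e3 : (k : ℝ) / 2048 + τ * (1 / 2048) = t := by rw [hτ]; ring
  have e4 : (k : ℝ) / 2048 + 1 / 2048 = ((k + 1 : ℕ) : ℝ) / 2048 := by push_cast; ring
  rw [e3, e4] at hF
  have u0 := F_le_U k kl.le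
  have u1 := F_le_U (k + 1) kl
  rw [e2, G_val _ _ _ _ τ0 τ1]
  have hk2 : (k : ℝ) = (k % 2 : ℕ) + 2 * (k / 2 : ℕ) := by
    exact_mod_cast (Nat.mod_add_div k 2).symm
  simp only [chkC, Bool.or_eq_true, Bool.and_eq_true, decide_eq_true_eq] at hc
  have hc := hc.resolve_left hn
  split_ifs at hc with hp
  · simp only [Bool.and_eq_true, decide_eq_true_eq] at hc
    have e5 : t = ((k / 2 : ℕ) + τ / 2) / 1024 := by
      rw [hp] at hk2; push_cast at hk2; linarith
    have g1 : G A B t = get A (k / 2) + τ / 2 * ((get B (k / 2) : ℝ) - get A (k / 2)) := by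
      rw [e5]; exact G_val _ _ _ _ (by linarith) (by linarith)
    have c1 : 2 * (get tU k : ℝ) + 2 * get A (k / 2) ≤ 2 * get A (k % 1024) + 6847200 := by
      exact_mod_cast hc.1
    have c2 : 2 * (get tU (k + 1) : ℝ) + (get A (k / 2) + get B (k / 2))
        ≤ 2 * get B (k % 1024) + 6847200 := by exact_mod_cast hc.2
    rw [g1]
    exact ar1 τ0 τ1.le hF u0 u1 c1 c2
  · simp only [Bool.and_eq_true, decide_eq_true_eq] at hc
    have hp' : k % 2 = 1 := by omega
    have e5 : t = ((k / 2 : ℕ) + (1 + τ) / 2) / 1024 := by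
      rw [hp'] at hk2; push_cast at hk2; linarith
    have g1 : G A B t = get A (k / 2) + (1 + τ) / 2 * ((get B (k / 2) : ℝ) - get A (k / 2)) := by
      rw [e5]; exact G_val _ _ _ _ (by linarith) (by linarith)
    have c1 : 2 * (get tU k : ℝ) + (get A (k / 2) + get B (k / 2))
        ≤ 2 * get A (k % 1024) + 6847200 := by exact_mod_cast hc.1
    have c2 : 2 * (get tU (k + 1) : ℝ) + 2 * get B (k / 2)
        ≤ 2 * get B (k % 1024) + 6847200 := by exact_mod_cast hc.2
    rw [g1]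
    exact ar2 τ0 τ1.le hF u0 u1 c1 c2

lemma dbl_meas : Measurable fun x : UnitAddCircle => x + x := measurable_id.add measurable_id

/-- an invariant measure giving no mass to the window has small integral -/
lemma int_le (A B k1 k2 : ℕ) (h : (List.range 2048).all (chkC A B k1 k2) = true)
    (f : UnitAddCircle → ℝ) (hf : Continuous f) (hfF : ∀ t : ℝ, f t = F t)
    (μ : Measure UnitAddCircle) [IsProbabilityMeasure μ] (hμ : μ.map (fun x => x + x) = μ)
    (h0 : μ {x | (k1 : ℝ) / 2048 ≤ lf x ∧ lf x < (k2 : ℝ) / 2048} = 0) :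
    ∫ x, f x ∂μ ≤ 4237 / 10 := by
  have mg : Measurable fun x => G A B (lf x) := (G_meas A B).comp lf_meas
  have ig : Integrable (fun x => G A B (lf x)) μ :=
    Integrable.of_bound mg.aestronglyMeasurable 16777216
      (Filter.Eventually.of_forall fun x => G_bound A B _ (lf_mem x).1)
  have ig2 : Integrable (fun x => G A B (lf (x + x))) μ :=
    Integrable.of_bound (mg.comp dbl_meas).aestronglyMeasurable 16777216
      (Filter.Eventually.of_forall fun x => G_bound A B _ (lf_mem _).1)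
  have i1 : Integrable f μ := hf.integrable_of_hasCompactSupport (HasCompactSupport.of_compactSpace f)
  have e : ∫ x, G A B (lf (x + x)) ∂μ = ∫ x, G A B (lf x) ∂μ := by
    rw [← integral_map dbl_meas.aemeasurable mg.aestronglyMeasurable, hμ]
  have hle : ∫ x, (1000 * f x + G A B (lf x) - G A B (lf (x + x))) ∂μ ≤ ∫ _x, (423700 : ℝ) ∂μ := by
    apply integral_mono_ae (((i1.const_mul 1000).add ig).sub ig2) (integrable_const _)
    have := measure_eq_zero_iff_ae_notMem.1 h0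
    filter_upwards [this] with x hx
    have hp := pointwise A B k1 k2 h x hx
    rw [← hfF, coe_lf] at hp
    exact hp
  have i2 : Integrable (fun x => 1000 * f x + G A B (lf x)) μ := (i1.const_mul 1000).add ig
  rw [integral_sub i2 ig2, integral_add (i1.const_mul 1000) ig, e,
    integral_const_mul] at hle
  simp at hle
  linarith

noncomputable def xo (i : ℕ) : UnitAddCircle := (((497 * 2 ^ i : ℕ) : ℝ) / (16383 : ℕ) : ℝ)

lemma xo_succ (i : ℕ) : xo i + xo i = xo (i + 1) := by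
  rw [xo, xo, ← AddCircle.coe_add]; congr 1; push_cast; ring

lemma xo_14 : xo 14 = xo 0 := by
  have : (((497 * 2 ^ 14 : ℕ) : ℝ) / (16383 : ℕ) : ℝ)
      = (((497 * 2 ^ 0 : ℕ) : ℝ) / (16383 : ℕ) : ℝ) + (497 : ℤ) • (1 : ℝ) := by
    norm_num
  rw [xo, xo, this, AddCircle.coe_add, AddCircle.coe_zsmul, AddCircle.coe_period, smul_zero,
    add_zero]

noncomputable def nu : Measure UnitAddCircle :=
  (14 : ENNReal)⁻¹ • ∑ i ∈ Finset.range 14, Measure.dirac (xo i)

instance : IsProbabilityMeasure nu := ⟨by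
  simp [nu, Measure.finset_sum_apply]
  exact ENNReal.inv_mul_cancel (by norm_num) (by norm_num)⟩

lemma nu_inv : nu.map (fun x => x + x) = nu := by
  ext s hs
  rw [Measure.map_apply dbl_meas hs]
  simp only [nu, Measure.smul_apply, Measure.finset_sum_apply, Measure.dirac_apply' _ hs,
    Measure.dirac_apply' _ (dbl_meas hs)]
  congr 1
  have : ∀ i, ((fun x : UnitAddCircle => x + x) ⁻¹' s).indicator (1 : UnitAddCircle → ENNReal) (xo i)
      = s.indicator (1 : UnitAddCircle → ENNReal) (xo (i + 1)) := by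
    intro i
    rw [← xo_succ]
    by_cases hh : xo i + xo i ∈ s
    · rw [indicator_of_mem hh, indicator_of_mem (show xo i ∈ (fun x : UnitAddCircle => x + x) ⁻¹' s from hh)]; rfl
    · rw [indicator_of_notMem hh, indicator_of_notMem (show xo i ∉ (fun x : UnitAddCircle => x + x) ⁻¹' s from hh)]
  simp only [this]
  rw [Finset.sum_range_succ _ 13, Finset.sum_range_succ' _ 13, show 13 + 1 = 14 from rfl, xo_14]

lemma nu_int (f : UnitAddCircle → ℝ) (hf : Continuous f) (hfF : ∀ t : ℝ, f t = F t) :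
    424 ≤ ∫ x, f x ∂nu := by
  rw [nu, integral_smul_measure, integral_finset_sum_measure (fun i _ =>
    hf.integrable_of_hasCompactSupport (HasCompactSupport.of_compactSpace f))]
  simp only [integral_dirac, xo, hfF]
  have hC := CC_pos
  have h1 : ∑ i ∈ Finset.range 14, ((PF (497 * 2 ^ i) 16383 : ℝ) / CC - 7 / 1000) ≤
      ∑ i ∈ Finset.range 14, F (((497 * 2 ^ i : ℕ) : ℝ) / (16383 : ℕ)) := by
    apply Finset.sum_le_sum
    intro i _
    have := F_app (497 * 2 ^ i) 16383 (by norm_num)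
    rw [abs_le] at this
    linarith [this.1]
  rw [Finset.sum_sub_distrib, ← Finset.sum_div] at h1
  have h2 : 14 * 424020 * (CC : ℝ) ≤
      1000 * ∑ i ∈ Finset.range 14, (PF (497 * 2 ^ i) 16383 : ℝ) := by exact_mod_cast okO
  have h3 : 14 * 424020 / 1000 ≤ (∑ i ∈ Finset.range 14, (PF (497 * 2 ^ i) 16383 : ℝ)) / CC := by
    rw [le_div_iff₀ hC]; linarith
  simp only [Finset.sum_const, Finset.card_range, nsmul_eq_mul] at h1
  have : ((14 : ENNReal)⁻¹).toReal = 1 / 14 := by simp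
  rw [this, smul_eq_mul]
  push_cast at h1 ⊢
  linarith

end Pool.Agent.H21.Fl
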