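import Mathlib
import Pool.Agent.H21.Fl4

/-! Topology of subsets of the circle, existence of maximizing measures. -/

namespace Pool.Agent.H21.Fl

open Real MeasureTheory Set

lemma comp_sub (X : Set UnitAddCircle) (a p b : ℝ) (h1 : a < p) (h2 : p < b) (h3 : b ≤ a + 1)
    (ha : (a : UnitAddCircle) ∉ X) (hb : (b : UnitAddCircle) ∉ X) (hp : (p : UnitAddCircle) ∈ X)
    (p' : ℝ) (h4 : a ≤ p') (h5 : p' < a + 1)
    (hm : (p' : UnitAddCircle) ∈ connectedComponentIn X (p : UnitAddCircle)) : p' < b := by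
  let c : ℝ → UnitAddCircle := fun t => (t : UnitAddCircle)
  have op : ∀ u v : ℝ, IsOpen (c '' Ioo u v) := fun u v =>
    QuotientAddGroup.isOpenMap_coe _ isOpen_Ioo
  have inj : ∀ u v : ℝ, a ≤ u → u < a + 1 → a ≤ v → v < a + 1 → c u = c v → u = v :=
    fun u v u0 u1 v0 v1 e =>
      (AddCircle.coe_eq_coe_iff_of_mem_Ico (p := (1 : ℝ)) (a := a) ⟨u0, u1⟩ ⟨v0, v1⟩).1 e
  have dis : Disjoint (c '' Ioo a b) (c '' Ioo b (a + 1)) := by
    rw [Set.disjoint_left]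
    rintro _ ⟨u, ⟨u0, u1⟩, rfl⟩ ⟨v, ⟨v0, v1⟩, e⟩
    have := inj v u (by linarith) v1 u0.le (by linarith) e
    linarith
  have cov : connectedComponentIn X (p : UnitAddCircle) ⊆ c '' Ioo a b ∪ c '' Ioo b (a + 1) := by
    intro x hx
    have hxX := connectedComponentIn_subset _ _ hx
    obtain ⟨u, ⟨u0, u1⟩, rfl⟩ : ∃ u ∈ Ico a (a + 1), (u : UnitAddCircle) = x :=
      ⟨AddCircle.equivIco 1 a x, (AddCircle.equivIco 1 a x).2,
        (AddCircle.equivIco 1 a).symm_apply_apply x⟩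
    have na : u ≠ a := by rintro rfl; exact ha hxX
    have nb : u ≠ b := by rintro rfl; exact hb hxX
    rcases lt_or_gt_of_ne nb with h | h
    · exact Or.inl ⟨u, ⟨lt_of_le_of_ne u0 na.symm, h⟩, rfl⟩
    · exact Or.inr ⟨u, ⟨h, u1⟩, rfl⟩
  have := (isPreconnected_connectedComponentIn).subset_left_of_subset_union (op _ _) (op _ _) dis cov
    ⟨p, mem_connectedComponentIn hp, ⟨p, ⟨h1, h2⟩, rfl⟩⟩
  obtain ⟨u, ⟨u0, u1⟩, e⟩ := this hm
  have := inj u p' u0.le (by linarith) h4 h5 e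
  linarith

/-- near a point of `X + 1/2` there are points outside `X` -/
lemma gap (X Y : Set UnitAddCircle) (hX : X ∩ Y = frontier X) (u r v : ℝ) (h1 : u < r) (h2 : r < v)
    (hr : (r : UnitAddCircle) ∈ Y) : ∃ q : ℝ, u < q ∧ q < v ∧ (q : UnitAddCircle) ∉ X := by
  by_cases h : (r : UnitAddCircle) ∈ X
  · have hf : (r : UnitAddCircle) ∈ frontier X := hX ▸ ⟨h, hr⟩
    rw [frontier_eq_closure_inter_closure] at hf
    have op : IsOpen ((fun t : ℝ => (t : UnitAddCircle)) '' Ioo u v) :=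
      QuotientAddGroup.isOpenMap_coe _ isOpen_Ioo
    obtain ⟨_, ⟨q, ⟨q0, q1⟩, rfl⟩, hq⟩ := mem_closure_iff.1 hf.2 _ op ⟨r, ⟨h1, h2⟩, rfl⟩
    exact ⟨q, q0, q1, hq⟩
  · exact ⟨r, h1, h2, h⟩

lemma four_comps (X : Set UnitAddCircle) (p1 q2 p3 q4 p5 q6 p7 q8 : ℝ)
    (h0 : q8 - 1 < p1) (h1 : p1 < q2) (h2 : q2 < p3) (h3 : p3 < q4) (h4 : q4 < p5) (h5 : p5 < q6)
    (h6 : q6 < p7) (h7 : p7 < q8)
    (m1 : (p1 : UnitAddCircle) ∈ X) (m3 : (p3 : UnitAddCircle) ∈ X)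
    (m5 : (p5 : UnitAddCircle) ∈ X) (m7 : (p7 : UnitAddCircle) ∈ X)
    (n2 : (q2 : UnitAddCircle) ∉ X) (n4 : (q4 : UnitAddCircle) ∉ X)
    (n6 : (q6 : UnitAddCircle) ∉ X) (n8 : (q8 : UnitAddCircle) ∉ X) :
    ¬ {C | ∃ x ∈ X, C = connectedComponentIn X x}.encard ≤ 3 := by
  have n0 : ((q8 - 1 : ℝ) : UnitAddCircle) ∉ X := by
    rw [AddCircle.coe_sub, AddCircle.coe_period, sub_zero]; exact n8
  have ne : ∀ a p b p' : ℝ, a < p → p < b → b ≤ p' → p' < a + 1 → (a : UnitAddCircle) ∉ X →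
      (b : UnitAddCircle) ∉ X → (p : UnitAddCircle) ∈ X → (p' : UnitAddCircle) ∈ X →
      connectedComponentIn X (p : UnitAddCircle) ≠ connectedComponentIn X (p' : UnitAddCircle) := by
    intro a p b p' a1 a2 a3 a4 ha hb hp hp' e
    have := comp_sub X a p b a1 a2 (by linarith) ha hb hp p' (by linarith) a4
      (e ▸ mem_connectedComponentIn hp')
    linarith
  have e13 := ne _ p1 q2 p3 h0 h1 (by linarith) (by linarith) n0 n2 m1 m3
  have e15 := ne _ p1 q2 p5 h0 h1 (by linarith) (by linarith) n0 n2 m1 m5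
  have e17 := ne _ p1 q2 p7 h0 h1 (by linarith) (by linarith) n0 n2 m1 m7
  have e35 := ne q2 p3 q4 p5 h2 h3 (by linarith) (by linarith) n2 n4 m3 m5
  have e37 := ne q2 p3 q4 p7 h2 h3 (by linarith) (by linarith) n2 n4 m3 m7
  have e57 := ne q4 p5 q6 p7 h4 h5 (by linarith) (by linarith) n4 n6 m5 m7
  intro hle
  have sub : ({connectedComponentIn X (p1 : UnitAddCircle), connectedComponentIn X (p3 : UnitAddCircle),
      connectedComponentIn X (p5 : UnitAddCircle), connectedComponentIn X (p7 : UnitAddCircle)} :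
      Set (Set UnitAddCircle)) ⊆ {C | ∃ x ∈ X, C = connectedComponentIn X x} := by
    intro C hC
    simp only [mem_insert_iff, mem_singleton_iff] at hC
    rcases hC with rfl | rfl | rfl | rfl
    exacts [⟨_, m1, rfl⟩, ⟨_, m3, rfl⟩, ⟨_, m5, rfl⟩, ⟨_, m7, rfl⟩]
  have := (encard_le_encard sub).trans hle
  rw [encard_insert_of_notMem (by simp [e13, e15, e17]), encard_insert_of_notMem (by simp [e35, e37]),
    encard_pair e57] at this
  norm_num at this

lemma exists_max (f : UnitAddCircle → ℝ) (hf : Continuous f) :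
    ∃ μ : Measure UnitAddCircle, IsProbabilityMeasure μ ∧ μ.map (fun x => x + x) = μ ∧
      ∀ ν : Measure UnitAddCircle, IsProbabilityMeasure ν → ν.map (fun x => x + x) = ν →
        ∫ x, f x ∂ν ≤ ∫ x, f x ∂μ := by
  have cd : Continuous fun x : UnitAddCircle => x + x := continuous_id.add continuous_id
  let K : Set (ProbabilityMeasure UnitAddCircle) := {μ | μ.map cd.measurable.aemeasurable = μ}
  have hK : IsClosed K := isClosed_eq (ProbabilityMeasure.continuous_map cd) continuous_id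
  have mem : ∀ μ : ProbabilityMeasure UnitAddCircle,
      μ ∈ K ↔ (μ : Measure UnitAddCircle).map (fun x => x + x) = μ := by
    intro μ
    constructor
    · intro h
      have := congrArg (fun m : ProbabilityMeasure UnitAddCircle => (m : Measure UnitAddCircle)) h
      simpa using this
    · intro h
      apply Subtype.ext
      simpa using h
  let fb : BoundedContinuousFunction UnitAddCircle ℝ :=
    BoundedContinuousFunction.mkOfCompact ⟨f, hf⟩
  have hc : Continuous fun μ : ProbabilityMeasure UnitAddCircle =>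
      ∫ x, fb x ∂(μ : Measure UnitAddCircle) :=
    ProbabilityMeasure.continuous_integral_boundedContinuousFunction fb
  obtain ⟨μ, hμ, hmax⟩ := hK.isCompact.exists_isMaxOn
    ⟨⟨nu, inferInstance⟩, (mem _).2 nu_inv⟩ hc.continuousOn
  refine ⟨μ, inferInstance, (mem μ).1 hμ, fun ν hν hi => ?_⟩
  exact hmax ((mem ⟨ν, hν⟩).2 hi)

lemma window (A B k1 k2 : ℕ) (h : (List.range 2048).all (chkC A B k1 k2) = true)
    (f : UnitAddCircle → ℝ) (hf : Continuous f) (hfF : ∀ t : ℝ, f t = F t)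
    (μ : Measure UnitAddCircle) [IsProbabilityMeasure μ] (hμ : μ.map (fun x => x + x) = μ)
    (hmax : ∫ x, f x ∂nu ≤ ∫ x, f x ∂μ) :
    ∃ t : ℝ, (k1 : ℝ) / 2048 ≤ t ∧ t < (k2 : ℝ) / 2048 ∧ (t : UnitAddCircle) ∈ μ.support := by
  have h0 : 0 < μ {x | (k1 : ℝ) / 2048 ≤ lf x ∧ lf x < (k2 : ℝ) / 2048} := by
    rw [pos_iff_ne_zero]
    intro h0
    have := int_le A B k1 k2 h f hf hfF μ hμ h0
    have := nu_int f hf hfF
    linarith
  obtain ⟨x, hx, hs⟩ := Measure.nonempty_inter_support_of_pos h0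
  exact ⟨lf x, hx.1, hx.2, by rw [coe_lf]; exact hs⟩

lemma main (f : UnitAddCircle → ℝ) (hf : Continuous f) (hfF : ∀ t : ℝ, f t = F t)
    (μ : Measure UnitAddCircle) [IsProbabilityMeasure μ] (hμ : μ.map (fun x => x + x) = μ)
    (hmax : ∫ x, f x ∂nu ≤ ∫ x, f x ∂μ) (X : Set UnitAddCircle)
    (hX : X ∩ ((fun x => x + ((1 / 2 : ℝ) : UnitAddCircle)) '' X) = frontier X)
    (hs : μ.support ⊆ X) : ¬ {C | ∃ x ∈ X, C = connectedComponentIn X x}.encard ≤ 3 := by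
  obtain ⟨p1, a1, b1, m1⟩ := window _ _ _ _ ok0 f hf hfF μ hμ hmax
  obtain ⟨s2, a2, b2, m2⟩ := window _ _ _ _ ok1 f hf hfF μ hμ hmax
  obtain ⟨p3, a3, b3, m3⟩ := window _ _ _ _ ok2 f hf hfF μ hμ hmax
  obtain ⟨s4, a4, b4, m4⟩ := window _ _ _ _ ok3 f hf hfF μ hμ hmax
  obtain ⟨p5, a5, b5, m5⟩ := window _ _ _ _ ok4 f hf hfF μ hμ hmax
  push_cast at a1 b1 a2 b2 a3 b3 a4 b4 a5 b5
  have up : ∀ t : ℝ, (t : UnitAddCircle) ∈ μ.support → ((t + 1 / 2 : ℝ) : UnitAddCircle) ∈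
      ((fun x => x + ((1 / 2 : ℝ) : UnitAddCircle)) '' X) := fun t ht =>
    ⟨t, hs ht, (AddCircle.coe_add _ _ _).symm⟩
  have dn : ∀ t : ℝ, (t : UnitAddCircle) ∈ μ.support → ((t - 1 / 2 : ℝ) : UnitAddCircle) ∈
      ((fun x => x + ((1 / 2 : ℝ) : UnitAddCircle)) '' X) := fun t ht => by
    have := up t ht
    have e : t + 1 / 2 = (t - 1 / 2) + 1 := by ring
    rwa [e, AddCircle.coe_add_period] at this
  obtain ⟨q2, c2, d2, n2⟩ := gap X _ hX p1 (s2 - 1 / 2) p3 (by linarith) (by linarith) (dn _ m2)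
  obtain ⟨q4, c4, d4, n4⟩ := gap X _ hX p3 (s4 - 1 / 2) p5 (by linarith) (by linarith) (dn _ m4)
  obtain ⟨q6, c6, d6, n6⟩ := gap X _ hX p5 (p1 + 1 / 2) s2 (by linarith) (by linarith) (up _ m1)
  obtain ⟨q8, c8, d8, n8⟩ := gap X _ hX s2 (p3 + 1 / 2) s4 (by linarith) (by linarith) (up _ m3)
  exact four_comps X p1 q2 p3 q4 p5 q6 s2 q8 (by linarith) c2 d2 c4 d4 c6 d6 c8
    (hs m1) (hs m3) (hs m5) (hs m2) n2 n4 n6 n8

end Pool.Agent.H21.Fl
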