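import Mathlib

set_option autoImplicit false

namespace Pool.Agent.H21.Flow

/-- A finite interpretation: finitely many recursive functions and recursive predicates. -/
structure Interp where
  nf : ℕ
  np : ℕ
  fa : Fin nf → ℕ
  pa : Fin np → ℕ
  fn : (i : Fin nf) → (Fin (fa i) → ℕ) → ℕ
  pr : (j : Fin np) → (Fin (pa j) → ℕ) → Bool
  fn_rec : ∀ i, Computable (fn i)
  pr_rec : ∀ j, Computable (pr j)

/-- Nodes other than the start node; program variables are indexed by `ℕ`. -/
inductive Node (F : Interp) (V : Type) where
  | op (i : Fin F.nf) (args : Fin (F.fa i) → ℕ) (target : ℕ) (next : V)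
  | test (j : Fin F.np) (args : Fin (F.pa j) → ℕ) (yes no : V)
  | halt

/-- A flowchart: finite node set, successor `first` of the start node, output variable `out`. -/
structure Chart (F : Interp) where
  V : Type
  fin : Finite V
  node : V → Node F V
  first : V
  out : ℕ

/-- `exec P k v s`: output if the run from node `v` with store `s` halts within `k` node
executions (the halt node included), `none` otherwise. -/
def exec {F : Interp} (P : Chart F) : ℕ → P.V → (ℕ → ℕ) → Option ℕ
  | 0, _, _ => none
  | k + 1, v, s =>
    match P.node v with
    | .op i args t w => exec P k w (Function.update s t (F.fn i fun a => s (args a)))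
    | .test j args y n => exec P k (if F.pr j (fun a => s (args a)) then y else n) s
    | .halt => some (s P.out)

/-- Output on input `x` (in variable `0`, all other variables `0`) if the computation has at most
`T` node executions, the start node included. -/
def run {F : Interp} (P : Chart F) (T x : ℕ) : Option ℕ :=
  exec P (T - 1) P.first (Function.update 0 0 x)

def Universal (F : Interp) : Prop :=
  ∀ f : ℕ →. ℕ, Partrec f → ∃ P : Chart F, ∀ x y, y ∈ f x ↔ ∃ T, run P T x = some y

/-- `f ∈ Φ(t)` for the flowchart measure of `F`. -/
def InClass (F : Interp) (t f : ℕ → ℕ) : Prop :=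
  ∃ P : Chart F, (∀ x, ∃ T, run P T x = some (f x)) ∧
    ∀ᶠ x in Filter.atTop, (run P (t x) x).isSome

end Pool.Agent.H21.Flow
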