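import Mathlib

set_option autoImplicit false

namespace Pool.Agent.H21.FrobNC

open MvPolynomial

variable {k : Type*} [Field k]

noncomputable def w (k : Type*) [CommRing k] (i j : Fin 4) : MvPolynomial (Fin 4) k :=
  X i ^ 5 * X j - X j ^ 5 * X i

noncomputable def F (k : Type*) [CommRing k] : MvPolynomial (Fin 4) k :=
  w k 0 1 * w k 2 3 - w k 1 2 ^ 2

variable [CharP k 5]

lemma five : (5 : MvPolynomial (Fin 4) k) = 0 := by
  have := CharP.cast_eq_zero (MvPolynomial (Fin 4) k) 5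
  exact_mod_cast this

lemma pd5 (i j : Fin 4) : pderiv i (X j ^ 5 : MvPolynomial (Fin 4) k) = 0 := by
  rw [Derivation.leibniz_pow]; simp [five]

lemma pdp (i : Fin 4) (a : MvPolynomial (Fin 4) k) : pderiv i (a ^ 5) = 0 := by
  rw [Derivation.leibniz_pow]; simp [five]

lemma F0 : pderiv 0 (F k) = -(w k 2 3 * X 1 ^ 5) := by
  simp [F, w, five, pderiv_X, sq, Pi.single_apply]
lemma F1 : pderiv 1 (F k) = w k 2 3 * X 0 ^ 5 + 2 * w k 1 2 * X 2 ^ 5 := by
  simp [F, w, five, pderiv_X, sq, Pi.single_apply]; ring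
lemma F2 : pderiv 2 (F k) = -(w k 0 1 * X 3 ^ 5) - 2 * w k 1 2 * X 1 ^ 5 := by
  simp [F, w, five, pderiv_X, sq, Pi.single_apply]; ring
lemma F3 : pderiv 3 (F k) = w k 0 1 * X 2 ^ 5 := by
  simp [F, w, five, pderiv_X, sq, Pi.single_apply]

lemma frob : ∑ i, X i ^ 5 * pderiv i (F k) = 0 := by
  rw [Fin.sum_univ_four, F0, F1, F2, F3]; simp only [w]; ring

omit [CharP k 5] in
lemma hom : (F k).IsHomogeneous 12 := by
  have hw : ∀ i j, (w k i j).IsHomogeneous 6 := fun i j =>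
    ((isHomogeneous_X_pow i 5).mul (isHomogeneous_X k j)).sub
      ((isHomogeneous_X_pow j 5).mul (isHomogeneous_X k i))
  exact ((hw 0 1).mul (hw 2 3)).sub ((hw 1 2).pow 2)

/-- restriction to the twisted cubic -/
noncomputable def ev (k : Type*) [CommRing k] : MvPolynomial (Fin 4) k →ₐ[k] Polynomial k :=
  aeval fun i => Polynomial.X ^ (i : ℕ)

omit [CharP k 5] in
lemma evF : ev k (F k) = 0 := by
  simp [ev, F, w]; ring

omit [CharP k 5] in
lemma evw01 : ev k (w k 0 1) = Polynomial.X * (1 - Polynomial.X ^ 4) := by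
  simp [ev, w]; ring

omit [CharP k 5] in
lemma evw23 : ev k (w k 2 3) = Polynomial.X ^ 13 * (1 - Polynomial.X ^ 4) := by
  simp [ev, w]; ring

omit [CharP k 5] in
lemma one_sub_ne : (1 - Polynomial.X ^ 4 : Polynomial k) ≠ 0 := by
  intro h
  have := congrArg (Polynomial.eval 0) h
  simp at this

omit [CharP k 5] in
/-- a prime dividing `X i` does not divide something nonzero on the hyperplane `x_i = 0`. -/
lemma not_dvd_of_X {P a : MvPolynomial (Fin 4) k} (hP : Prime P) {i : Fin 4} (h : P ∣ X i)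
    (φ : MvPolynomial (Fin 4) k →ₐ[k] Polynomial k) (hv : φ (X i) = 0) (ha : φ a ≠ 0) : ¬ P ∣ a := by
  rintro ⟨b, rfl⟩
  have := (hP.irreducible.associated_of_dvd (X_prime (i := i)).irreducible h).symm.dvd
  obtain ⟨c, rfl⟩ := this
  simp [hv] at ha

lemma sqfree : Squarefree (F k) := by
  have hF0 : F k ≠ 0 := by
    intro h
    have := congrArg (ev k) (F3 (k := k))
    rw [h, map_zero, map_zero, map_mul, evw01] at this
    simp [ev, one_sub_ne] at this
  rw [squarefree_iff_irreducible_sq_not_dvd_of_ne_zero hF0]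
  rintro P hPi ⟨Q, hQ⟩
  have hP := hPi.prime
  have hd : ∀ i, P ∣ pderiv i (F k) := fun i => by
    rw [hQ]; simp only [Derivation.leibniz, smul_eq_mul]
    exact Dvd.intro (P * pderiv i Q + 2 * Q * pderiv i P) (by ring)
  by_cases h1 : P ∣ X 1
  · refine not_dvd_of_X hP h1 (aeval ![1, 0, 1, Polynomial.X]) (by simp) ?_ (hd 1)
    rw [F1]; simp [w]
    intro h
    have := congrArg (fun p => Polynomial.coeff p 1) h
    simp [Polynomial.coeff_X_pow] at this
  by_cases h2 : P ∣ X 2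
  · refine not_dvd_of_X hP h2 (aeval ![1, Polynomial.X, 0, 1]) (by simp) ?_ (hd 2)
    rw [F2]; simp [w]
    intro h
    have := congrArg (fun p => Polynomial.coeff p 1) h
    simp [Polynomial.coeff_X_pow] at this
  have a0 : P ∣ w k 2 3 := by
    have := hd 0; rw [F0, dvd_neg] at this
    exact (hP.dvd_or_dvd this).resolve_right fun h => h1 (hP.dvd_of_dvd_pow h)
  have a3 : P ∣ w k 0 1 := by
    have := hd 3; rw [F3] at this
    exact (hP.dvd_or_dvd this).resolve_right fun h => h2 (hP.dvd_of_dvd_pow h)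
  obtain ⟨u, hu⟩ := a0
  obtain ⟨v, hv⟩ := a3
  have e1 := congrArg (pderiv 3) hu
  have e2 := congrArg (pderiv 3) hv
  have e3 := congrArg (pderiv 0) hv
  simp [w, five, pderiv_X, Pi.single_apply] at e1 e2 e3
  by_cases hv' : P ∣ v
  · obtain ⟨v', rfl⟩ := hv'
    apply h1; apply hP.dvd_of_dvd_pow (n := 5)
    exact ⟨-(pderiv 0 (P * v') + v' * pderiv 0 P), by linear_combination -e3⟩
  · have : P ∣ v * pderiv 3 P := ⟨-pderiv 3 v, by linear_combination -e2⟩
    obtain ⟨c, hc⟩ := (hP.dvd_or_dvd this).resolve_left hv'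
    apply h2; apply hP.dvd_of_dvd_pow (n := 5)
    exact ⟨pderiv 3 u + u * c, by rw [hc] at e1; linear_combination e1⟩

lemma mapF {R : Type*} [CommRing R] (f : R →+* k) : map f (F R) = F k := by
  simp [F, w]

lemma F_ne : F k ≠ 0 := (sqfree (k := k)).ne_zero

lemma exP : ∃ P : MvPolynomial (Fin 4) k, Prime P ∧ P ∣ F k ∧ ev k P = 0 := by
  obtain ⟨f, hf, u, hu⟩ := UniqueFactorizationMonoid.exists_prime_factors (F k) F_ne
  have h0 : (f.map (ev k)).prod = 0 := by
    have := congrArg (ev k) hu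
    rw [evF, map_mul, map_multiset_prod] at this
    exact (mul_eq_zero.1 this).resolve_right (u.isUnit.map (ev k)).ne_zero
  rw [Multiset.prod_eq_zero_iff, Multiset.mem_map] at h0
  obtain ⟨P, hP, h0⟩ := h0
  exact ⟨P, hf P hP, hu ▸ (Multiset.dvd_prod hP).mul_right _, h0⟩

lemma noPow : ¬ ∃ a : Fin 4 → MvPolynomial (Fin 4) k,
    (∀ P, Prime P → P ∣ F k → ∃ i, ¬ P ∣ a i) ∧
      ∀ i j, F k ∣ pderiv i (F k) * a j ^ 5 - pderiv j (F k) * a i ^ 5 := by
  rintro ⟨a, ha, h⟩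
  obtain ⟨P, hP, hPF, hev⟩ := exP (k := k)
  obtain ⟨i, hi⟩ := ha P hP hPF
  have nd : ∀ b, ev k b ≠ 0 → ¬ P ∣ b := by
    rintro _ hb ⟨c, rfl⟩; simp [hev] at hb
  obtain ⟨c, hc⟩ := h 0 3
  have e0 := congrArg (pderiv 0) hc
  have e3 := congrArg (pderiv 3) hc
  have d00 : pderiv 0 (pderiv 0 (F k)) = 0 := by rw [F0]; simp [w, five, pderiv_X]
  have d30 : pderiv 3 (pderiv 0 (F k)) = -(X 2 ^ 5 * X 1 ^ 5) := by
    rw [F0]; simp [w, five, pderiv_X]; ring
  have d03 : pderiv 0 (pderiv 3 (F k)) = -(X 2 ^ 5 * X 1 ^ 5) := by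
    rw [F3]; simp [w, five, pderiv_X]
  have d33 : pderiv 3 (pderiv 3 (F k)) = 0 := by rw [F3]; simp [w, five, pderiv_X]
  simp only [map_sub, Derivation.leibniz, smul_eq_mul, pdp, d00, d30, d03, d33] at e0 e3
  have h3 : P ∣ a 3 := by
    have : F k ∣ (2 * X 2 ^ 5 * X 1 ^ 5 * pderiv 0 (F k)) * a 3 ^ 5 :=
      ⟨X 2 ^ 5 * X 1 ^ 5 * c + pderiv 3 (F k) * pderiv 0 c - pderiv 0 (F k) * pderiv 3 c, by
        linear_combination X 2 ^ 5 * X 1 ^ 5 * hc + pderiv 3 (F k) * e0 - pderiv 0 (F k) * e3⟩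
    refine hP.dvd_of_dvd_pow ((hP.dvd_or_dvd (hPF.trans this)).resolve_left (nd _ ?_))
    rw [F0]
    have h2 : (2 : Polynomial k) ≠ 0 := by
      intro h
      have h' : (2 : k) = 0 := by simpa using congrArg (Polynomial.eval 0) h
      have := (CharP.cast_eq_zero_iff k 5 2).1 (by exact_mod_cast h')
      omega
    simp only [map_mul, map_neg, evw23, map_ofNat]
    simp [ev, one_sub_ne, h2]
  apply hi
  have h4 : P ∣ pderiv 3 (F k) * a i ^ 5 := by
    have := (hPF.trans (h 3 i)).add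
      ((dvd_pow h3 (by norm_num : (5 : ℕ) ≠ 0)).mul_left (pderiv i (F k)))
    simpa using this
  refine hP.dvd_of_dvd_pow ((hP.dvd_or_dvd h4).resolve_left (nd _ ?_))
  rw [F3, map_mul, evw01]
  simp [ev, one_sub_ne]

lemma evF3 : ev k (pderiv 3 (F k)) = Polynomial.X ^ 11 * (1 - Polynomial.X ^ 4) := by
  rw [F3, map_mul, evw01]; simp [ev]; ring

lemma evF0 : ev k (pderiv 0 (F k)) = -Polynomial.X ^ 7 * ev k (pderiv 3 (F k)) := by
  rw [evF3, F0, map_neg, map_mul, evw23]; simp [ev]; ring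

omit [CharP k 5] in
lemma notPow (g : RatFunc k) : g ^ 5 ≠ -RatFunc.X ^ 7 := by
  intro h
  have hg : g ≠ 0 := by
    rintro rfl
    simp [RatFunc.X_ne_zero] at h
  have h1 := congrArg RatFunc.intDegree h
  have pw : ∀ (x : RatFunc k), x ≠ 0 → ∀ n : ℕ, (x ^ n).intDegree = n * x.intDegree := by
    intro x hx n
    induction n with
    | zero => simp
    | succ n ih => rw [pow_succ, RatFunc.intDegree_mul (pow_ne_zero _ hx) hx, ih]; push_cast; ring
  rw [RatFunc.intDegree_neg, pw _ hg, pw _ RatFunc.X_ne_zero, RatFunc.intDegree_X] at h1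
  omega

end Pool.Agent.H21.FrobNC
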