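import Mathlib

set_option autoImplicit false

open MeasureTheory ProbabilityTheory Real Set
open scoped RealInnerProductSpace

namespace Pool.Agent.H21.Groth

noncomputable abbrev γ2 : Measure (ℝ × ℝ) := (gaussianReal 0 1).prod (gaussianReal 0 1)

lemma polar (f : ℝ × ℝ → ℝ) (a b : ℝ → ℝ)
    (h : ∀ r φ, 0 < r → f (r * cos φ, r * sin φ) = a r * b φ) :
    ∫ p, f p ∂γ2 = (∫ r in Ioi (0:ℝ), r * exp (-r ^ 2 / 2) * a r) *
      (∫ φ in (-π)..π, b φ) / (2 * π) := by
  rw [γ2, gaussianReal_of_var_ne_zero _ one_ne_zero,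
    prod_withDensity (measurable_gaussianPDF _ _) (measurable_gaussianPDF _ _),
    integral_withDensity_eq_integral_toReal_smul (by fun_prop)
      (ae_of_all _ fun p => ENNReal.mul_lt_top gaussianPDF_lt_top gaussianPDF_lt_top),
    ← Measure.volume_eq_prod, ← integral_comp_polarCoord_symm, polarCoord_target,
    intervalIntegral.integral_of_le (by linarith [pi_pos]), integral_Ioc_eq_integral_Ioo,
    ← setIntegral_prod_mul, ← Measure.volume_eq_prod, ← integral_div]
  refine setIntegral_congr_fun (measurableSet_Ioi.prod measurableSet_Ioo) fun p hp => ?_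
  simp only [polarCoord_symm_apply, smul_eq_mul, ENNReal.toReal_mul, toReal_gaussianPDF,
    gaussianPDFReal, h p.1 p.2 hp.1, NNReal.coe_one, mul_one, sub_zero]
  have e1 : exp (-(p.1 * cos p.2) ^ 2 / 2) * exp (-(p.1 * sin p.2) ^ 2 / 2) =
      exp (-p.1 ^ 2 / 2) := by
    rw [← exp_add]; congr 1; linear_combination (-p.1 ^ 2 / 2) * cos_sq_add_sin_sq p.2
  have e2 : (√(2 * π))⁻¹ * (√(2 * π))⁻¹ = (2 * π)⁻¹ := by
    rw [← mul_inv, mul_self_sqrt (by positivity)]
  rw [← e1, div_eq_mul_inv _ (2 * π), ← e2]; ring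

lemma rad0 : ∫ r in Ioi (0:ℝ), r * exp (-r ^ 2 / 2) * 1 = 1 := by
  have := polar (fun _ => 1) (fun _ => 1) (fun _ => 1) (by simp)
  have hp := pi_pos
  simp only [integral_const, probReal_univ, smul_eq_mul, mul_one, intervalIntegral.integral_const,
    sub_neg_eq_add] at this ⊢
  field_simp at this
  simp only [neg_div]
  linarith

lemma rad1 : ∫ r in Ioi (0:ℝ), r * exp (-r ^ 2 / 2) * r = √(2 * π) / 2 := by
  have := integral_rpow_mul_exp_neg_mul_rpow (p := 2) (q := 2) (b := 1 / 2) (by norm_num)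
    (by norm_num) (by norm_num)
  rw [show ((2:ℝ) + 1) / 2 = 1 / 2 + 1 by norm_num, Real.Gamma_add_one (by norm_num),
    Real.Gamma_one_half_eq] at this
  have e : (1 / 2 : ℝ) ^ (-((2:ℝ) + 1) / 2) = 2 * √2 := by
    rw [one_div, inv_rpow (by norm_num), ← rpow_neg (by norm_num), sqrt_eq_rpow,
      show -(-((2:ℝ) + 1) / 2) = 1 + 1 / 2 by norm_num, rpow_add (by norm_num), rpow_one]
  rw [e] at this
  rw [sqrt_mul (by norm_num)]
  convert this using 1
  · refine setIntegral_congr_fun measurableSet_Ioi fun x hx => ?_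
    simp only [rpow_two]
    rw [show -(1 / 2) * x ^ 2 = -x ^ 2 / 2 by ring]; ring
  · ring

variable {E : Type*} [NormedAddCommGroup E] [InnerProductSpace ℝ E] [FiniteDimensional ℝ E]
  [MeasurableSpace E] [BorelSpace E]

lemma law2 (w w' : E) (ρ t s : ℝ) (hw : ‖w‖ ^ 2 = ρ ^ 2) (hww : ⟪w, w'⟫ = ρ * t)
    (hw' : ‖w'‖ ^ 2 = t ^ 2 + s ^ 2) (F : ℝ × ℝ → ℝ) (hF : Measurable F) :
    ∫ g, F (⟪w, g⟫, ⟪w', g⟫) ∂(stdGaussian E) = ∫ p, F (ρ * p.2, t * p.2 + s * p.1) ∂γ2 := by
  have key : (stdGaussian E).map (fun g => (⟪w, g⟫, ⟪w', g⟫)) =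
      γ2.map (fun p => (ρ * p.2, t * p.2 + s * p.1)) := by
    apply Measure.ext_of_charFunDual
    ext L
    have hL : ∀ x y : ℝ, L (x, y) = x * L (1, 0) + y * L (0, 1) := by
      intro x y
      rw [show (x, y) = x • ((1:ℝ), (0:ℝ)) + y • ((0:ℝ), (1:ℝ)) by simp, map_add, map_smul, map_smul]
      simp
    rw [charFunDual_apply, charFunDual_apply,
      integral_map (Measurable.aemeasurable (by fun_prop)) (Measurable.aestronglyMeasurable (by fun_prop)),
      integral_map (Measurable.aemeasurable (by fun_prop)) (Measurable.aestronglyMeasurable (by fun_prop))]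
    set a := L (1, 0)
    set b := L (0, 1)
    have e1 : ∀ g : E, Complex.exp (L (⟪w, g⟫, ⟪w', g⟫) * Complex.I) =
        Complex.exp (⟪g, a • w + b • w'⟫ * Complex.I) := by
      intro g
      rw [hL, inner_add_right, inner_smul_right, inner_smul_right, real_inner_comm g w,
        real_inner_comm g w']
      congr 3; ring
    have e2 : ∀ p : ℝ × ℝ, Complex.exp (L (ρ * p.2, t * p.2 + s * p.1) * Complex.I) =
        Complex.exp ((b * s : ℝ) * p.1 * Complex.I) *
          Complex.exp ((a * ρ + b * t : ℝ) * p.2 * Complex.I) := by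
      intro p
      rw [hL, ← Complex.exp_add]; congr 1; push_cast; ring
    simp_rw [e1, e2]
    rw [← charFun_apply, charFun_stdGaussian,
      integral_prod_mul (fun x : ℝ => Complex.exp ((b * s : ℝ) * x * Complex.I))
        (fun x : ℝ => Complex.exp ((a * ρ + b * t : ℝ) * x * Complex.I)),
      ← charFun_apply_real, ← charFun_apply_real, charFun_gaussianReal, charFun_gaussianReal,
      ← Complex.exp_add]
    congr 1
    have : ‖a • w + b • w'‖ ^ 2 = (b * s) ^ 2 + (a * ρ + b * t) ^ 2 := by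
      rw [norm_add_sq_real, norm_smul, norm_smul, inner_smul_left, inner_smul_right, mul_pow,
        mul_pow, hw, hw', hww]
      simp only [norm_eq_abs, sq_abs, conj_trivial]; ring
    rw [← Complex.ofReal_pow, this]; push_cast; ring
  have h1 := integral_map (μ := stdGaussian E) (φ := fun g => (⟪w, g⟫, ⟪w', g⟫)) (f := F)
    (Measurable.aemeasurable (by fun_prop)) hF.aestronglyMeasurable
  have h2 := integral_map (μ := γ2) (φ := fun p => (ρ * p.2, t * p.2 + s * p.1)) (f := F)
    (Measurable.aemeasurable (by fun_prop)) hF.aestronglyMeasurable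
  rw [← h1, ← h2, key]

noncomputable def sg (x : ℝ) : ℝ := if 0 ≤ x then 1 else -1

lemma measurable_sg : Measurable sg :=
  Measurable.ite measurableSet_Ici measurable_const measurable_const

lemma abs_sg (x : ℝ) : |sg x| = 1 := by unfold sg; split_ifs <;> simp

lemma sg_cases (x : ℝ) : sg x = 1 ∨ sg x = -1 := by unfold sg; split_ifs <;> simp

lemma sg_pos {x : ℝ} (h : 0 < x) : sg x = 1 := if_pos h.le
lemma sg_neg {x : ℝ} (h : x < 0) : sg x = -1 := if_neg (not_le.mpr h)

lemma sg_mul {r : ℝ} (hr : 0 < r) (x : ℝ) : sg (r * x) = sg x := by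
  unfold sg; simp only [mul_nonneg_iff_of_pos_left hr]

lemma piece (h : ℝ → ℝ) (a b c : ℝ) (hab : a ≤ b) (hc : ∀ x ∈ Ioo a b, h x = c) :
    ∫ x in a..b, h x = c * (b - a) := by
  rw [intervalIntegral.integral_of_le hab, integral_Ioc_eq_integral_Ioo,
    setIntegral_congr_fun measurableSet_Ioo hc, ← integral_Ioc_eq_integral_Ioo,
    ← intervalIntegral.integral_of_le hab]
  simp [mul_comm]

lemma angular (θ : ℝ) (h0 : 0 ≤ θ) (h1 : θ ≤ π) :
    ∫ φ in (-π)..π, sg (sin φ) * sg (sin (φ + θ)) = 2 * π - 4 * θ := by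
  have hi : ∀ a b : ℝ, IntervalIntegrable (fun φ => sg (sin φ) * sg (sin (φ + θ))) volume a b := by
    intro a b
    refine (intervalIntegrable_const (c := (1:ℝ))).mono_fun' ?_ (ae_of_all _ fun x => ?_)
    · exact ((measurable_sg.comp (by fun_prop)).mul
        (measurable_sg.comp (by fun_prop))).aestronglyMeasurable
    · simp [abs_sg]
  rw [← intervalIntegral.integral_add_adjacent_intervals (b := -θ) (hi _ _) (hi _ _),
    ← intervalIntegral.integral_add_adjacent_intervals (a := -θ) (b := 0) (hi _ _) (hi _ _),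
    ← intervalIntegral.integral_add_adjacent_intervals (a := 0) (b := π - θ) (hi _ _) (hi _ _),
    piece _ _ _ 1 (by linarith), piece _ _ _ (-1) (by linarith), piece _ _ _ 1 (by linarith),
    piece _ _ _ (-1) (by linarith)]
  · ring
  · intro x hx
    rw [sg_pos (sin_pos_of_pos_of_lt_pi (by linarith [hx.1]) hx.2), sg_neg, one_mul]
    rw [← sin_sub_two_pi]
    exact sin_neg_of_neg_of_neg_pi_lt (by linarith [hx.2]) (by linarith [hx.1])
  · intro x hx
    rw [sg_pos (sin_pos_of_pos_of_lt_pi hx.1 (by linarith [hx.2])),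
      sg_pos (sin_pos_of_pos_of_lt_pi (by linarith [hx.1]) (by linarith [hx.2])), one_mul]
  · intro x hx
    rw [sg_neg (sin_neg_of_neg_of_neg_pi_lt hx.2 (by linarith [hx.1])),
      sg_pos (sin_pos_of_pos_of_lt_pi (by linarith [hx.1]) (by linarith [hx.2])), mul_one]
  · intro x hx
    rw [sg_neg (sin_neg_of_neg_of_neg_pi_lt (by linarith [hx.2]) hx.1),
      sg_neg (sin_neg_of_neg_of_neg_pi_lt (by linarith [hx.2]) (by linarith [hx.1]))]
    norm_num

lemma sign_id (w w' : E) (x : ℝ) (hw : ‖w‖ ^ 2 = 1) (hw' : ‖w'‖ ^ 2 = 1) (hx : |x| ≤ π / 2)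
    (hww : ⟪w, w'⟫ = sin x) :
    ∫ g, sg ⟪w, g⟫ * sg ⟪w', g⟫ ∂(stdGaussian E) = 2 / π * x := by
  have := law2 w w' 1 (cos (π / 2 - x)) (sin (π / 2 - x)) (by simpa using hw)
    (by rw [hww, cos_pi_div_two_sub, one_mul]) (by rw [hw', cos_sq_add_sin_sq])
    (fun p => sg p.1 * sg p.2)
    ((measurable_sg.comp measurable_fst).mul (measurable_sg.comp measurable_snd))
  rw [this, polar _ (fun _ => 1) (fun φ => sg (sin φ) * sg (sin (φ + (π / 2 - x)))), rad0,
    angular _ (by linarith [(abs_le.mp hx).2]) (by linarith [(abs_le.mp hx).1])]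
  · have := pi_pos
    field_simp; ring
  · intro r φ hr
    simp only [one_mul]
    rw [sg_mul hr, ← sg_mul hr (sin (φ + _)), sin_add]
    congr 2; ring

lemma abs_id (w : E) : ∫ g, |⟪w, g⟫| ∂(stdGaussian E) = ‖w‖ * (√(2 * π) / π) := by
  have := law2 w w ‖w‖ ‖w‖ 0 rfl (by rw [real_inner_self_eq_norm_mul_norm]) (by simp)
    (fun p => |p.1|) (by fun_prop)
  rw [this, polar _ (fun r => r) (fun φ => ‖w‖ * |sin φ|), rad1,
    intervalIntegral.integral_const_mul]
  · have hi : ∀ a b : ℝ, IntervalIntegrable (fun φ => |sin φ|) volume a b :=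
      fun a b => Continuous.intervalIntegrable (by fun_prop) a b
    have e1 : ∫ φ in (0:ℝ)..π, |sin φ| = 2 := by
      rw [intervalIntegral.integral_congr (g := sin)]
      · simp; norm_num
      · intro x hx
        rw [uIcc_of_le pi_pos.le] at hx
        exact abs_of_nonneg (sin_nonneg_of_mem_Icc hx)
    have e2 : ∫ φ in (-π)..0, |sin φ| = 2 := by
      have := intervalIntegral.integral_comp_neg (a := 0) (b := π) (fun φ => |sin φ|)
      simp only [sin_neg, abs_neg, neg_zero] at this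
      rw [← this, e1]
    rw [← intervalIntegral.integral_add_adjacent_intervals (b := 0) (hi _ _) (hi _ _), e1, e2]
    have := pi_pos
    field_simp; ring
  · intro r φ hr
    simp only [abs_mul, abs_norm, abs_of_pos hr]; ring

lemma hyp_id (w w' : E) (ρ : ℝ) (hρ : 0 ≤ ρ) (hw : ‖w‖ ^ 2 = ρ ^ 2) (hw' : ‖w'‖ ^ 2 = ρ ^ 2)
    (hww : ⟪w, w'⟫ = 0) :
    ∫ g, √(⟪w, g⟫ ^ 2 + ⟪w', g⟫ ^ 2) ∂(stdGaussian E) = ρ * (√(2 * π) / 2) := by
  have := law2 w w' ρ 0 ρ hw (by rw [hww, mul_zero]) (by simpa using hw')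
    (fun p => √(p.1 ^ 2 + p.2 ^ 2)) (by fun_prop)
  rw [this, polar _ (fun r => r) (fun φ => ρ), rad1]
  · have := pi_pos
    simp only [intervalIntegral.integral_const, smul_eq_mul]
    field_simp; ring
  · intro r φ hr
    rw [← sqrt_sq (x := r * ρ) (by positivity)]
    congr 1
    linear_combination (r ^ 2 * ρ ^ 2) * sin_sq_add_cos_sq φ

end Pool.Agent.H21.Groth
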