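import Mathlib
import Pool.Agent.H21.Groth1

set_option autoImplicit false

open MeasureTheory ProbabilityTheory Real Set Matrix
open scoped RealInnerProductSpace MatrixOrder Nat

namespace Pool.Agent.H21.Groth

lemma hpow {ι : Type} {G : Matrix ι ι ℝ} (hG : G.PosSemidef) (k : ℕ) :
    (Matrix.of fun x y => G x y ^ (k + 1)).PosSemidef := by
  induction k with
  | zero =>
    have : (Matrix.of fun x y => G x y ^ (0 + 1)) = G := by ext x y; simp
    rw [this]; exact hG
  | succ k ih =>
    have : (Matrix.of fun x y => G x y ^ (k + 1 + 1)) =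
        (Matrix.of fun x y => G x y ^ (k + 1)) ⊙ G := by ext x y; simp [pow_succ]
    rw [this]; exact ih.hadamard hG

lemma sinh_le : sinh (22 / 25 : ℝ) ≤ 1 := by
  have h := Real.exp_bound' (x := 22 / 25) (by norm_num) (by norm_num) (n := 7) (by norm_num)
  have h1 : exp (22 / 25 : ℝ) ≤ 2412 / 1000 := by
    refine h.trans ?_
    simp [Finset.sum_range_succ, Nat.factorial]; norm_num
  have h2 : 1000 / 2412 ≤ exp (-(22 / 25) : ℝ) := by
    rw [exp_neg, ← one_div, div_le_div_iff₀ (by norm_num) (exp_pos _)]; linarith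
  rw [sinh_eq]; linarith

lemma krivine {α β : Type} [Fintype α] [Fintype β] (G : Matrix (α ⊕ β) (α ⊕ β) ℝ)
    (hG : G.PosSemidef) (h1 : ∀ x, G x x = 1) (h2 : ∀ x y, |G x y| ≤ 1) (A : α → β → ℝ) (S : ℝ)
    (hS : ∀ (ε : α → ℝ) (δ : β → ℝ), (∀ a, ε a = 1 ∨ ε a = -1) → (∀ b, δ b = 1 ∨ δ b = -1) →
      ∑ a, ∑ b, A a b * (ε a * δ b) ≤ S) :
    2 / π * (22 / 25) * ∑ a, ∑ b, A a b * G (.inl a) (.inr b) ≤ S := by
  classical
  set c : ℝ := 22 / 25 with hc
  let d : α ⊕ β → ℝ := Sum.elim (fun _ => 1) (fun _ => -1)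
  let M : Matrix (α ⊕ β) (α ⊕ β) ℝ := Matrix.of fun x y =>
    if d x * d y = 1 then sinh (c * G x y) else sin (c * G x y)
  have hM : ∀ x y, HasSum (fun k : ℕ => c ^ (2 * k + 1) / (2 * k + 1)! *
      (d x ^ k * (G x y ^ (2 * k + 1) * d y ^ k))) (M x y) := by
    intro x y
    have : d x * d y = 1 ∨ d x * d y = -1 := by
      rcases x with x | x <;> rcases y with y | y <;> simp [d]
    rcases this with h | h
    · simp only [M, of_apply, if_pos h]
      convert Real.hasSum_sinh (c * G x y) using 2 with k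
      have : d x ^ k * d y ^ k = 1 := by rw [← mul_pow, h, one_pow]
      rw [mul_pow]; linear_combination (c ^ (2 * k + 1) / (2 * k + 1)! * G x y ^ (2 * k + 1)) * this
    · simp only [M, of_apply, if_neg (show ¬ d x * d y = 1 by rw [h]; norm_num)]
      convert Real.hasSum_sin (c * G x y) using 2 with k
      have : d x ^ k * d y ^ k = (-1) ^ k := by rw [← mul_pow, h]
      rw [mul_pow]; linear_combination (c ^ (2 * k + 1) / (2 * k + 1)! * G x y ^ (2 * k + 1)) * this
  have hMp : M.PosSemidef := by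
    refine .of_dotProduct_mulVec_nonneg ?_ fun z => ?_
    · ext x y
      have := hG.1.apply x y
      simp only [star_trivial] at this
      simp only [conjTranspose_apply, star_trivial, M, of_apply, this, mul_comm (d y)]
    · have hs : HasSum (fun k : ℕ => ∑ x, z x * ∑ y, c ^ (2 * k + 1) / (2 * k + 1)! *
          (d x ^ k * (G x y ^ (2 * k + 1) * d y ^ k)) * z y) (∑ x, z x * ∑ y, M x y * z y) :=
        hasSum_sum fun x _ => (hasSum_sum fun y _ => (hM x y).mul_right _).mul_left _
      refine hs.nonneg fun k => ?_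
      have := (hpow hG (2 * k)).dotProduct_mulVec_nonneg (fun x => d x ^ k * z x)
      simp only [star_trivial, dotProduct, mulVec, of_apply] at this
      have h3 : 0 ≤ c ^ (2 * k + 1) / (2 * k + 1)! := by positivity
      convert mul_nonneg h3 this using 1
      simp only [Finset.mul_sum]
      refine Finset.sum_congr rfl fun x _ => Finset.sum_congr rfl fun y _ => by ring
  have hN : (M + Matrix.diagonal fun _ => 1 - sinh c).PosSemidef :=
    hMp.add (PosSemidef.diagonal fun _ => sub_nonneg.mpr sinh_le)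
  obtain ⟨B, hB⟩ := CStarAlgebra.nonneg_iff_eq_star_mul_self.mp hN.nonneg
  let w : α ⊕ β → EuclideanSpace ℝ (α ⊕ β) := fun x => WithLp.toLp 2 fun z => B z x
  have hw : ∀ x y, ⟪w x, w y⟫ = (M + Matrix.diagonal (fun _ => 1 - sinh c) : Matrix _ _ ℝ) x y := by
    intro x y
    rw [hB]
    simp [w, PiLp.inner_apply, Matrix.mul_apply, mul_comm]
  have hw1 : ∀ x, ‖w x‖ ^ 2 = 1 := by
    intro x
    rw [← real_inner_self_eq_norm_sq, hw]
    have : d x * d x = 1 := by rcases x with x | x <;> simp [d]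
    simp [M, this, h1]
  have hI : ∀ a b, ∫ g, A a b * (sg ⟪w (.inl a), g⟫ * sg ⟪w (.inr b), g⟫)
      ∂(stdGaussian (EuclideanSpace ℝ (α ⊕ β))) = A a b * (2 / π * (c * G (.inl a) (.inr b))) := by
    intro a b
    rw [integral_const_mul, sign_id _ _ (c * G (.inl a) (.inr b)) (hw1 _) (hw1 _)]
    · rw [abs_mul, hc, abs_of_pos (by norm_num)]
      have := h2 (.inl a) (.inr b)
      linarith [pi_gt_three]
    · rw [hw]
      simp [M, d]; norm_num
  have hint : ∀ a b, Integrable (fun g => A a b * (sg ⟪w (.inl a), g⟫ * sg ⟪w (.inr b), g⟫))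
      (stdGaussian (EuclideanSpace ℝ (α ⊕ β))) := by
    intro a b
    refine Integrable.const_mul ((integrable_const (1:ℝ)).mono' ?_ (ae_of_all _ fun g => ?_)) _
    · exact ((measurable_sg.comp (by fun_prop)).mul
        (measurable_sg.comp (by fun_prop))).aestronglyMeasurable
    · simp [abs_sg]
  have e : 2 / π * c * ∑ a, ∑ b, A a b * G (.inl a) (.inr b) =
      ∫ g, ∑ a, ∑ b, A a b * (sg ⟪w (.inl a), g⟫ * sg ⟪w (.inr b), g⟫)
        ∂(stdGaussian (EuclideanSpace ℝ (α ⊕ β))) := by
    rw [integral_finsetSum _ fun a _ => integrable_finsetSum _ fun b _ => hint a b, Finset.mul_sum]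
    refine Finset.sum_congr rfl fun a _ => ?_
    rw [integral_finsetSum _ fun b _ => hint a b, Finset.mul_sum]
    refine Finset.sum_congr rfl fun b _ => ?_
    rw [hI]; ring
  rw [e]
  refine (integral_mono (integrable_finsetSum _ fun a _ => integrable_finsetSum _ fun b _ =>
    hint a b) (integrable_const S) fun g => hS _ _ (fun _ => sg_cases _) fun _ => sg_cases _).trans ?_
  simp

end Pool.Agent.H21.Groth
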