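import Mathlib
import Pool.Agent.H21.Groth2

set_option autoImplicit false

open Real Matrix
open scoped InnerProductSpace ComplexConjugate

namespace Pool.Agent.H21.Groth

lemma krivineH {𝕜 : Type} [RCLike 𝕜] {H : Type} [NormedAddCommGroup H] [InnerProductSpace 𝕜 H]
    {α β : Type} [Fintype α] [Fintype β] (u : α → H) (v : β → H) (hu : ∀ a, ‖u a‖ = 1)
    (hv : ∀ b, ‖v b‖ = 1) (A : α → β → ℝ) (S : ℝ)
    (hS : ∀ (ε : α → ℝ) (δ : β → ℝ), (∀ a, ε a = 1 ∨ ε a = -1) → (∀ b, δ b = 1 ∨ δ b = -1) →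
      ∑ a, ∑ b, A a b * (ε a * δ b) ≤ S) :
    2 / π * (22 / 25) * ∑ a, ∑ b, A a b * RCLike.re ⟪u a, v b⟫_𝕜 ≤ S := by
  letI := InnerProductSpace.rclikeToReal 𝕜 H
  have hW : ∀ x, ‖Sum.elim u v x‖ = 1 := by rintro (x | x) <;> simp [hu, hv]
  refine krivine (gram ℝ (Sum.elim u v)) (posSemidef_gram ℝ _) (fun x => ?_) (fun x y => ?_) A S hS
  · rw [gram_apply, real_inner_self_eq_norm_sq, hW]; norm_num
  · rw [gram_apply]
    refine (abs_real_inner_le_norm _ _).trans ?_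
    rw [hW, hW]; norm_num

lemma boundR {H : Type} [NormedAddCommGroup H] [InnerProductSpace ℝ H]
    {α β : Type} [Fintype α] [Fintype β] (u : α → H) (v : β → H) (hu : ∀ a, ‖u a‖ = 1)
    (hv : ∀ b, ‖v b‖ = 1) (A : α → β → ℝ) (S : ℝ)
    (hS : ∀ (p : α → ℝ) (q : β → ℝ), (∀ a, ‖p a‖ = 1) → (∀ b, ‖q b‖ = 1) →
      ‖∑ a, ∑ b, A a b * p a * q b‖ ≤ S) :
    ‖∑ a, ∑ b, A a b * ⟪u a, v b⟫_ℝ‖ ≤ 25 * π / 44 * S := by
  have n1 : ∀ x : ℝ, (x = 1 ∨ x = -1) → ‖x‖ = 1 := by rintro x (rfl | rfl) <;> simp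
  have h1 := krivineH (𝕜 := ℝ) u v hu hv A S fun ε δ hε hδ => by
    have := hS ε δ (fun a => n1 _ (hε a)) (fun b => n1 _ (hδ b))
    simp only [← mul_assoc]
    exact (le_abs_self _).trans this
  have h2 := krivineH (𝕜 := ℝ) u v hu hv (fun a b => -A a b) S fun ε δ hε hδ => by
    have := hS ε δ (fun a => n1 _ (hε a)) (fun b => n1 _ (hδ b))
    simp only [← mul_assoc, neg_mul, Finset.sum_neg_distrib]
    exact (neg_le_abs _).trans this
  simp only [RCLike.re_to_real, neg_mul, Finset.sum_neg_distrib] at h1 h2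
  have hp := pi_pos
  have e : ∀ x : ℝ, 2 / π * (22 / 25) * x ≤ S → x ≤ 25 * π / 44 * S := by
    intro x hx
    have : x = 25 * π / 44 * (2 / π * (22 / 25) * x) := by field_simp; ring
    rw [this]; gcongr
  rw [Real.norm_eq_abs, abs_le]
  exact ⟨by linarith [e _ h2], e _ h1⟩

lemma half (z : ℂ) (h : ‖z‖ ≤ 1) : ∃ a b : ℂ, ‖a‖ = 1 ∧ ‖b‖ = 1 ∧ z = (a + b) / 2 := by
  refine ⟨Complex.exp ((z.arg + arccos ‖z‖ : ℝ) * Complex.I),
    Complex.exp ((z.arg - arccos ‖z‖ : ℝ) * Complex.I), Complex.norm_exp_ofReal_mul_I _,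
    Complex.norm_exp_ofReal_mul_I _, ?_⟩
  have h1 : (‖z‖ : ℂ) = Complex.cos (arccos ‖z‖ : ℝ) := by
    rw [← Complex.ofReal_cos, cos_arccos (by linarith [norm_nonneg z]) h]
  conv_lhs => rw [← Complex.norm_mul_exp_arg_mul_I z, h1, Complex.cos]
  push_cast
  rw [add_mul, sub_mul, Complex.exp_add, sub_eq_add_neg, Complex.exp_add, neg_mul]; ring

lemma disc {α β : Type} [Fintype α] [Fintype β] (A : α → β → ℂ) (S κ : ℝ) (hκ : 0 < κ)
    (hS : ∀ (p : α → ℂ) (q : β → ℂ), (∀ a, ‖p a‖ = 1) → (∀ b, ‖q b‖ = 1) →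
      ‖∑ a, ∑ b, A a b * p a * q b‖ ≤ S) (p : α → ℂ) (q : β → ℂ) (hp : ∀ a, ‖p a‖ ≤ κ)
    (hq : ∀ b, ‖q b‖ ≤ κ) : ‖∑ a, ∑ b, A a b * p a * q b‖ ≤ κ ^ 2 * S := by
  have n : ∀ z : ℂ, ‖z‖ ≤ κ → ‖z / κ‖ ≤ 1 := by
    intro z hz
    rwa [norm_div, Complex.norm_real, Real.norm_eq_abs, abs_of_pos hκ, div_le_one hκ]
  choose p1 p2 hp1 hp2 hp3 using fun a => half _ (n _ (hp a))
  choose q1 q2 hq1 hq2 hq3 using fun b => half _ (n _ (hq b))
  have hκ' : (κ : ℂ) ≠ 0 := by exact_mod_cast hκ.ne'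
  have e : ∑ a, ∑ b, A a b * p a * q b = (κ ^ 2 / 4 : ℝ) * ((∑ a, ∑ b, A a b * p1 a * q1 b) +
      (∑ a, ∑ b, A a b * p1 a * q2 b) + (∑ a, ∑ b, A a b * p2 a * q1 b) +
      (∑ a, ∑ b, A a b * p2 a * q2 b)) := by
    simp only [← Finset.sum_add_distrib, Finset.mul_sum]
    refine Finset.sum_congr rfl fun a _ => Finset.sum_congr rfl fun b _ => ?_
    have h1 := hp3 a
    have h2 := hq3 b
    rw [div_eq_iff hκ'] at h1 h2
    rw [h1, h2]; push_cast; ring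
  rw [e, norm_mul, Complex.norm_real, Real.norm_eq_abs, abs_of_pos (by positivity)]
  have := norm_add₄_le (a := ∑ a, ∑ b, A a b * p1 a * q1 b) (b := ∑ a, ∑ b, A a b * p1 a * q2 b)
    (c := ∑ a, ∑ b, A a b * p2 a * q1 b) (d := ∑ a, ∑ b, A a b * p2 a * q2 b)
  have := hS _ _ hp1 hq1
  have := hS _ _ hp1 hq2
  have := hS _ _ hp2 hq1
  have := hS _ _ hp2 hq2
  rw [show κ ^ 2 * S = κ ^ 2 / 4 * (4 * S) by ring]
  gcongr; linarith

noncomputable def om : Fin 4 → ℂ := ![1, Complex.I, ⟨20 / 29, 21 / 29⟩, ⟨-21 / 29, 20 / 29⟩]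

lemma om_norm (θ : Fin 4) : ‖om θ‖ = 1 := by
  rw [← sq_eq_sq₀ (norm_nonneg _) zero_le_one, Complex.sq_norm, Complex.normSq_apply]
  fin_cases θ <;> simp [om] <;> norm_num

lemma om_sum (ε : Fin 4 → ℝ) (h : ∀ a, ε a = 1 ∨ ε a = -1) :
    ‖∑ θ, (ε θ : ℂ) * om θ‖ ≤ √(200 / 29) := by
  apply le_sqrt_of_sq_le
  rw [Complex.sq_norm, Complex.normSq_apply]
  simp only [Fin.sum_univ_four, om]
  rcases h 0 with h0 | h0 <;> rcases h 1 with h1 | h1 <;> rcases h 2 with h2 | h2 <;>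
    rcases h 3 with h3 | h3 <;> simp [h0, h1, h2, h3] <;> norm_num

lemma om_avg (a t : ℂ) : ∑ θ, ∑ ψ, (a * om θ * conj (om ψ)).re * (conj (om θ) * (om ψ * t)).re =
    8 * (a * t).re := by
  simp [Fin.sum_univ_four, om]; ring

lemma boundC {H : Type} [NormedAddCommGroup H] [InnerProductSpace ℂ H]
    {α β : Type} [Fintype α] [Fintype β] (u : α → H) (v : β → H) (hu : ∀ a, ‖u a‖ = 1)
    (hv : ∀ b, ‖v b‖ = 1) (A : α → β → ℂ) (S : ℝ)
    (hS : ∀ (p : α → ℂ) (q : β → ℂ), (∀ a, ‖p a‖ = 1) → (∀ b, ‖q b‖ = 1) →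
      ‖∑ a, ∑ b, A a b * p a * q b‖ ≤ S) :
    ‖∑ a, ∑ b, A a b * ⟪u a, v b⟫_ℂ‖ ≤ 25 * π / 44 * (25 / 29) * S := by
  obtain ⟨l, hl, hT⟩ : ∃ l : ℂ, ‖l‖ = 1 ∧
      l * ∑ a, ∑ b, A a b * ⟪u a, v b⟫_ℂ = ‖∑ a, ∑ b, A a b * ⟪u a, v b⟫_ℂ‖ :=
    by
    obtain ⟨c, h1, h2⟩ := Complex.exists_norm_eq_mul_self (∑ a, ∑ b, A a b * ⟪u a, v b⟫_ℂ)
    exact ⟨c, h1, h2.symm⟩
  have h := krivineH (𝕜 := ℂ) (fun x : α × Fin 4 => om x.2 • u x.1)
    (fun y : β × Fin 4 => om y.2 • v y.1) (fun x => by simp [norm_smul, om_norm, hu])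
    (fun x => by simp [norm_smul, om_norm, hv])
    (fun x y => (l * A x.1 y.1 * om x.2 * conj (om y.2)).re) (200 / 29 * S) fun ε δ hε hδ => by
      have := disc A S (√(200 / 29)) (by positivity) hS (fun a => ∑ θ, (ε (a, θ) : ℂ) * om θ)
        (fun b => conj (∑ θ, (δ (b, θ) : ℂ) * om θ)) (fun a => om_sum _ fun θ => hε _)
        (fun b => by rw [Complex.norm_conj]; exact om_sum _ fun θ => hδ _)
      rw [sq_sqrt (by norm_num), ← one_mul ‖_‖, ← hl, ← norm_mul] at this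
      refine le_trans (le_of_eq ?_) ((Complex.re_le_norm _).trans this)
      simp only [Fintype.sum_prod_type, Finset.mul_sum, Finset.sum_mul, map_sum, Complex.re_sum]
      refine Finset.sum_congr rfl fun a _ => ?_
      rw [Finset.sum_comm]
      refine Finset.sum_congr rfl fun b _ => ?_
      rw [Finset.sum_comm]
      refine Finset.sum_congr rfl fun θ _ => Finset.sum_congr rfl fun ψ _ => ?_
      rw [← Complex.re_mul_ofReal]
      congr 1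
      simp only [map_mul, Complex.conj_ofReal]; push_cast; ring
  have e : ∑ x : α × Fin 4, ∑ y : β × Fin 4, (l * A x.1 y.1 * om x.2 * conj (om y.2)).re *
      RCLike.re ⟪om x.2 • u x.1, om y.2 • v y.1⟫_ℂ = 8 * ‖∑ a, ∑ b, A a b * ⟪u a, v b⟫_ℂ‖ := by
    rw [← Complex.ofReal_re ‖_‖, ← hT]
    simp only [Fintype.sum_prod_type, Finset.mul_sum, Complex.re_sum]
    refine Finset.sum_congr rfl fun a _ => ?_
    rw [Finset.sum_comm]
    refine Finset.sum_congr rfl fun b _ => ?_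
    rw [← mul_assoc, ← om_avg]
    simp only [inner_smul_left, inner_smul_right, RCLike.re_to_complex]
    refine Finset.sum_congr rfl fun θ _ => Finset.sum_congr rfl fun ψ _ => ?_
    congr 2; ring
  rw [e] at h
  have hp := pi_pos
  generalize ‖∑ a, ∑ b, A a b * ⟪u a, v b⟫_ℂ‖ = x at h
  have : x = 25 * π / 44 / 8 * (2 / π * (22 / 25) * (8 * x)) := by field_simp; ring
  rw [this, show 25 * π / 44 * (25 / 29) * S = 25 * π / 44 / 8 * (200 / 29 * S) by ring]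
  gcongr

end Pool.Agent.H21.Groth
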