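import Mathlib
import Pool.Agent.H21.Groth1

set_option autoImplicit false

open Real Matrix MeasureTheory ProbabilityTheory
open scoped InnerProductSpace ComplexConjugate ComplexOrder ENNReal

namespace Pool.Agent.H21.Groth

lemma lemA {𝕜 : Type} [RCLike 𝕜] {d k : ℕ} (hd : 0 < d) (hk : 0 < k)
    (s : Fin k → EuclideanSpace 𝕜 (Fin d)) (M : ℝ) (hM0 : 0 ≤ M)
    (hM : ∀ z, ∑ i, ‖⟪z, s i⟫_𝕜‖ ≤ M * ‖z‖) :
    ∃ Sg B : Matrix (Fin k) (Fin k) 𝕜, Sg.PosSemidef ∧ (∀ i, Sg i i = 1) ∧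
      (∀ x : Fin k → 𝕜, (∀ i, ‖x i‖ = 1) → ‖(Bᴴ * vecMulVec x (star x)).trace‖ ≤ M ^ 2 / 2) ∧
      (∑ i, ‖s i‖) ^ 2 / d - M ^ 2 / 2 ≤ ‖(Bᴴ * Sg).trace‖ := by
  have hu : ∀ i, ∃ u : EuclideanSpace 𝕜 (Fin d), ‖u‖ = 1 ∧ s i = (‖s i‖ : 𝕜) • u := by
    intro i
    by_cases h : s i = 0
    · exact ⟨EuclideanSpace.single ⟨0, hd⟩ 1, by simp, by simp [h]⟩
    · have h' : (‖s i‖ : 𝕜) ≠ 0 := by simpa using h
      exact ⟨(‖s i‖ : 𝕜)⁻¹ • s i, norm_smul_inv_norm h, by rw [smul_smul, mul_inv_cancel₀ h', one_smul]⟩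
  choose u hu1 hu2 using hu
  have tr : ∀ Θ : Matrix (Fin k) (Fin k) 𝕜, (∀ i, Θ i i = 1) →
      ((gram 𝕜 s - Matrix.diagonal fun _ => ((M ^ 2 / 2 / k : ℝ) : 𝕜))ᴴ * Θ).trace =
        ∑ i, ∑ j, ⟪s i, s j⟫_𝕜 * Θ j i - ((M ^ 2 / 2 : ℝ) : 𝕜) := by
    intro Θ h
    have hk' : (k : 𝕜) ≠ 0 := by exact_mod_cast hk.ne'
    rw [conjTranspose_sub, (isHermitian_gram 𝕜 s).eq, diagonal_conjTranspose, sub_mul, trace_sub]
    congr 1
    simp only [trace, diag_apply, diagonal_mul, h, Pi.star_apply, RCLike.star_def,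
      RCLike.conj_ofReal, mul_one, Finset.sum_const, Finset.card_univ, Fintype.card_fin,
      nsmul_eq_mul]
    push_cast; field_simp
  refine ⟨gram 𝕜 u, gram 𝕜 s - Matrix.diagonal fun _ => ((M ^ 2 / 2 / k : ℝ) : 𝕜),
    posSemidef_gram 𝕜 u, fun i => by simp [hu1], fun x hx => ?_, ?_⟩
  · rw [tr _ fun i => by simp [vecMulVec_apply, RCLike.mul_conj, hx]]
    set z := ∑ i, x i • s i with hz
    have e : ∑ i, ∑ j, ⟪s i, s j⟫_𝕜 * vecMulVec x (star x) j i = ((‖z‖ ^ 2 : ℝ) : 𝕜) := by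
      rw [RCLike.ofReal_pow, ← inner_self_eq_norm_sq_to_K, hz, sum_inner]
      refine Finset.sum_congr rfl fun i _ => ?_
      rw [inner_sum]
      refine Finset.sum_congr rfl fun j _ => ?_
      simp only [vecMulVec_apply, Pi.star_apply, RCLike.star_def, inner_smul_left, inner_smul_right]
      ring
    have h1 : ‖z‖ ^ 2 ≤ M * ‖z‖ := by
      refine le_trans ?_ (hM z)
      have : ‖z‖ ^ 2 = ‖⟪z, ∑ i, x i • s i⟫_𝕜‖ := by
        rw [← hz, inner_self_eq_norm_sq_to_K]; simp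
      rw [this, inner_sum]
      refine (norm_sum_le _ _).trans (le_of_eq (Finset.sum_congr rfl fun i _ => ?_))
      rw [inner_smul_right, norm_mul, hx, one_mul]
    have h2 : ‖z‖ ≤ M := by
      by_contra h
      push Not at h
      nlinarith [norm_nonneg z]
    rw [e, ← RCLike.ofReal_sub, RCLike.norm_ofReal, abs_le]
    constructor <;> nlinarith [norm_nonneg z]
  · rw [tr _ fun i => by simp [hu1]]
    let t : Fin k → EuclideanSpace 𝕜 (Fin d × Fin d) := fun i =>
      WithLp.toLp 2 fun p => u i p.1 * conj (u i p.2)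
    let J : EuclideanSpace 𝕜 (Fin d × Fin d) := WithLp.toLp 2 fun p => if p.1 = p.2 then 1 else 0
    set τ := ∑ i, (‖s i‖ : 𝕜) • t i with hτ
    have ht : ∀ i j, ⟪t i, t j⟫_𝕜 = ⟪u i, u j⟫_𝕜 * ⟪u j, u i⟫_𝕜 := by
      intro i j
      simp only [t, PiLp.inner_apply, RCLike.inner_apply, Fintype.sum_prod_type, Finset.sum_mul_sum,
        map_mul, RCLike.conj_conj]
      refine Finset.sum_congr rfl fun a _ => Finset.sum_congr rfl fun b _ => by ring
    have e : ∑ i, ∑ j, ⟪s i, s j⟫_𝕜 * gram 𝕜 u j i = ((‖τ‖ ^ 2 : ℝ) : 𝕜) := by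
      rw [RCLike.ofReal_pow, ← inner_self_eq_norm_sq_to_K, hτ, sum_inner]
      refine Finset.sum_congr rfl fun i _ => ?_
      rw [inner_sum]
      refine Finset.sum_congr rfl fun j _ => ?_
      conv_lhs => rw [hu2 i, hu2 j]
      simp only [gram_apply, inner_smul_left, inner_smul_right, ht]
      ring
    have hJ : ‖J‖ ^ 2 = d := by
      rw [EuclideanSpace.norm_sq_eq, Fintype.sum_prod_type]
      simp [J, apply_ite]
    have hJt : ⟪J, τ⟫_𝕜 = ((∑ i, ‖s i‖ : ℝ) : 𝕜) := by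
      rw [hτ, inner_sum, RCLike.ofReal_sum]
      refine Finset.sum_congr rfl fun i _ => ?_
      have : ⟪J, t i⟫_𝕜 = ⟪u i, u i⟫_𝕜 := by
        rw [PiLp.inner_apply, PiLp.inner_apply, Fintype.sum_prod_type]
        refine Finset.sum_congr rfl fun a _ => ?_
        simp [J, t, apply_ite, RCLike.mul_conj]
      rw [inner_smul_right, this, inner_self_eq_norm_sq_to_K, hu1]; simp
    have h3 := norm_inner_le_norm (𝕜 := 𝕜) J τ
    rw [hJt, RCLike.norm_ofReal] at h3
    have h4 : (∑ i, ‖s i‖) ^ 2 ≤ d * ‖τ‖ ^ 2 := by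
      rw [← hJ, ← mul_pow, ← sq_abs]; gcongr
    rw [e, ← RCLike.ofReal_sub, RCLike.norm_ofReal]
    refine le_trans ?_ (le_abs_self _)
    have : (0:ℝ) < d := by exact_mod_cast hd
    rw [sub_le_sub_iff_right, div_le_iff₀ this]; linarith

lemma discr {𝕜 : Type} [RCLike 𝕜] {F : Type} [NormedAddCommGroup F] [InnerProductSpace 𝕜 F]
    {Ω : Type} [MeasurableSpace Ω] (μ : Measure Ω) [IsProbabilityMeasure μ] (X : Ω → F)
    (hX : Integrable X μ) (m ε : ℝ) (hε : 0 < ε)
    (hi : ∀ z, Integrable (fun ω => ‖⟪z, X ω⟫_𝕜‖) μ)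
    (h : ∀ z, ∫ ω, ‖⟪z, X ω⟫_𝕜‖ ∂μ ≤ m * ‖z‖) :
    ∃ (k : ℕ) (s : Fin k → F), (∀ z, ∑ i, ‖⟪z, s i⟫_𝕜‖ ≤ (m + ε) * ‖z‖) ∧
      ∫ ω, ‖X ω‖ ∂μ - ε ≤ ∑ i, ‖s i‖ := by
  obtain ⟨S, hS, -⟩ := (memLp_one_iff_integrable.2 hX).exists_simpleFunc_eLpNorm_sub_lt
    (by simp) (ε := ENNReal.ofReal ε) (by simpa using hε)
  have hSi : Integrable S μ := S.integrable_of_isFiniteMeasure
  have hd : Integrable (fun ω => ‖X ω - S ω‖) μ := (hX.sub hSi).norm
  have h1 : ∫ ω, ‖X ω - S ω‖ ∂μ ≤ ε := by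
    rw [eLpNorm_one_eq_lintegral_enorm, ← ofReal_integral_norm_eq_lintegral_enorm (hX.sub hSi),
      ENNReal.ofReal_lt_ofReal_iff hε] at hS
    exact hS.le
  have key : ∀ φ : F → ℝ, φ 0 = 0 → Integrable (fun ω => φ (S ω)) μ ∧
      ∫ ω, φ (S ω) ∂μ = ∑ i : Fin S.range.card,
        μ.real (S ⁻¹' {(S.range.equivFin.symm i : F)}) * φ (S.range.equivFin.symm i) := by
    intro φ h0
    have hi : Integrable (S.map φ) μ := (S.map φ).integrable_of_isFiniteMeasure
    refine ⟨hi, ?_⟩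
    have := SimpleFunc.integral_eq_integral _ hi
    rw [SimpleFunc.map_integral S φ hSi h0, ← Finset.sum_coe_sort,
      ← S.range.equivFin.symm.sum_comp] at this
    exact this.symm
  refine ⟨S.range.card, fun i => (μ.real (S ⁻¹' {(S.range.equivFin.symm i : F)}) : 𝕜) •
    (S.range.equivFin.symm i : F), fun z => ?_, ?_⟩
  · obtain ⟨k1, k2⟩ := key (fun x => ‖⟪z, x⟫_𝕜‖) (by simp)
    simp only [inner_smul_right, norm_mul, RCLike.norm_ofReal, abs_of_nonneg measureReal_nonneg]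
    rw [← k2]
    calc _ ≤ ∫ ω, (‖⟪z, X ω⟫_𝕜‖ + ‖z‖ * ‖X ω - S ω‖) ∂μ := by
          refine integral_mono k1 ((hi z).add (hd.const_mul _)) fun ω => ?_
          have : ⟪z, S ω⟫_𝕜 = ⟪z, X ω⟫_𝕜 - ⟪z, X ω - S ω⟫_𝕜 := by rw [inner_sub_right]; ring
          simp only [this]
          exact (norm_sub_le _ _).trans (by gcongr; exact norm_inner_le_norm _ _)
      _ ≤ _ := by
          rw [integral_add (hi z) (hd.const_mul _), integral_const_mul]
          nlinarith [h z, norm_nonneg z]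
  · obtain ⟨k1, k2⟩ := key (fun x => ‖x‖) (by simp)
    simp only [norm_smul, RCLike.norm_ofReal, abs_of_nonneg measureReal_nonneg]
    rw [← k2]
    have : ∫ ω, ‖X ω‖ ∂μ ≤ ∫ ω, (‖S ω‖ + ‖X ω - S ω‖) ∂μ :=
      integral_mono hX.norm (k1.add hd) fun ω => by
        simpa using norm_add_le (S ω) (X ω - S ω)
    rw [integral_add k1 hd] at this
    linarith

lemma gnorm : ∃ N : ℕ, ∀ (ι : Type) [Fintype ι], N ≤ Fintype.card ι →
    √(Fintype.card ι) * (1 - 1 / 4000) ≤ ∫ g, ‖g‖ ∂(stdGaussian (EuclideanSpace ℝ ι)) := by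
  have hm : MemLp (fun x : ℝ => x ^ 2) 2 (gaussianReal 0 1) := by
    have := (memLp_id_gaussianReal' (μ := 0) (v := 1) 4 (by simp)).norm_rpow_div 2
    have e : (4 : ℝ≥0∞) / 2 = 2 := by
      rw [ENNReal.div_eq_inv_mul, show (4 : ℝ≥0∞) = 2 * 2 by norm_num, ← mul_assoc,
        ENNReal.inv_mul_cancel (by simp) (by simp), one_mul]
    simpa [e] using this
  have h1 : ∫ x, x ^ 2 ∂(gaussianReal 0 1) = 1 := by
    have := variance_fun_id_gaussianReal (μ := 0) (v := 1)
    rw [variance_eq_integral measurable_id'.aemeasurable] at this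
    simpa using this
  set v := Var[fun x : ℝ => x ^ 2; gaussianReal 0 1]
  obtain ⟨N, hN⟩ := exists_nat_ge (2000 * v)
  refine ⟨N + 1, fun ι _ hι => ?_⟩
  set D : ℝ := (Fintype.card ι : ℝ) with hDdef
  have hD1 : (N:ℝ) + 1 ≤ D := by rw [hDdef]; exact_mod_cast hι
  have hD : 0 < D := by linarith [Nat.cast_nonneg (α := ℝ) N]
  set P := Measure.pi fun _ : ι => gaussianReal 0 1
  let Y : (ι → ℝ) → ℝ := fun x => ∑ i, x i ^ 2
  have hY : MemLp Y 2 P := memLp_finsetSum _ fun i _ =>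
    hm.comp_measurePreserving (measurePreserving_eval _ i)
  have hE : ∫ x, Y x ∂P = D := by
    have a1 : ∀ i : ι, Integrable (fun x : ι → ℝ => x i ^ 2) P := fun i =>
      ((hm.comp_measurePreserving (measurePreserving_eval _ i)).integrable (by simp))
    have a2 : ∀ i : ι, ∫ x : ι → ℝ, x i ^ 2 ∂P = 1 := fun i =>
      (integral_comp_eval (μ := fun _ : ι => gaussianReal 0 1) (i := i)
        (f := fun x : ℝ => x ^ 2) hm.aestronglyMeasurable).trans h1
    simp only [Y]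
    rw [integral_finsetSum _ fun i _ => a1 i]
    simp [a2, D]
  have hV : ∫ x, (Y x - D) ^ 2 ∂P = D * v := by
    have := variance_sum_pi (μ := fun _ : ι => gaussianReal 0 1) (X := fun _ x => x ^ 2)
      fun _ => hm
    rw [show (∑ i, fun ω : ι → ℝ => ω i ^ 2) = Y by ext; simp [Y],
      variance_eq_integral hY.aemeasurable, hE] at this
    rw [this]; simp [D, v]
  have hi1 : Integrable Y P := hY.integrable (by simp)
  have hi2 : Integrable (fun x => (Y x - D) ^ 2) P := (hY.sub (memLp_const D)).integrable_sq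
  have hi3 : Integrable (fun g : EuclideanSpace ℝ ι => ‖g‖) (P.map (WithLp.toLp 2)) := by
    rw [map_pi_eq_stdGaussian]; exact IsGaussian.integrable_id.norm
  rw [← map_pi_eq_stdGaussian, integral_map (by fun_prop) (by fun_prop)]
  have hs : 0 < √D := sqrt_pos.mpr hD
  calc _ ≤ ∫ x, √D * (1 + (Y x - D) / (2 * D) - (Y x - D) ^ 2 / (2 * D ^ 2)) ∂P := by
        rw [integral_const_mul, integral_sub, integral_add, integral_div, integral_div, hV,
          integral_sub hi1 (integrable_const _), hE]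
        · simp only [integral_const, probReal_univ, smul_eq_mul, one_mul, sub_self, zero_div,
            add_zero]
          have : D * v / (2 * D ^ 2) ≤ 1 / 4000 := by
            rw [div_le_div_iff₀ (by positivity) (by norm_num)]
            nlinarith
          gcongr
        · exact integrable_const _
        · exact (hi1.sub (integrable_const _)).div_const _
        · exact (integrable_const _).add ((hi1.sub (integrable_const _)).div_const _)
        · exact hi2.div_const _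
    _ ≤ _ := by
        refine integral_mono ((((integrable_const _).add
          ((hi1.sub (integrable_const _)).div_const _)).sub (hi2.div_const _)).const_mul _)
          ((integrable_map_measure (by fun_prop) (by fun_prop)).1 hi3) fun x => ?_
        have e : Y x = ‖(WithLp.toLp 2 x : EuclideanSpace ℝ ι)‖ ^ 2 := by
          simp [Y, EuclideanSpace.real_norm_sq_eq]
        simp only [e]
        have hn := norm_nonneg (WithLp.toLp 2 x : EuclideanSpace ℝ ι)
        generalize ‖(WithLp.toLp 2 x : EuclideanSpace ℝ ι)‖ = r at hn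
        have hDD : D = √D ^ 2 := (sq_sqrt hD.le).symm
        generalize √D = a at hs hDD
        rw [hDD, ← sub_nonneg]
        have : r - a * (1 + (r ^ 2 - a ^ 2) / (2 * a ^ 2) - (r ^ 2 - a ^ 2) ^ 2 / (2 * (a ^ 2) ^ 2)) =
          r * (r - a) ^ 2 * (r + 2 * a) / (2 * a ^ 3) := by field_simp; ring
        rw [this]; positivity

end Pool.Agent.H21.Groth
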