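import Mathlib
import Pool.Agent.H21.Groth4

set_option autoImplicit false

open Real Matrix MeasureTheory ProbabilityTheory
open scoped InnerProductSpace ComplexConjugate ComplexOrder ENNReal

namespace Pool.Agent.H21.Groth

lemma assemble {𝕜 : Type} [RCLike 𝕜] {d : ℕ} (hd : 0 < d)
    {Ω : Type} [MeasurableSpace Ω] (μ : Measure Ω) [IsProbabilityMeasure μ]
    (X : Ω → EuclideanSpace 𝕜 (Fin d)) (hX : Integrable X μ) (m D K : ℝ) (hm : 0 < m)
    (hm' : m ≤ 3 / 2) (hD : 9 ≤ D) (h : ∀ z, ∫ ω, ‖⟪z, X ω⟫_𝕜‖ ∂μ ≤ m * ‖z‖)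
    (hw : √D * (1 - 1 / 4000) ≤ ∫ ω, ‖X ω‖ ∂μ)
    (hK : (1 + K) * m ^ 2 * (1 + 1 / 2000) ^ 2 / 2 < D / d * (1 - 1 / 2000) ^ 2) :
    ∃ (k : ℕ) (Sg B : Matrix (Fin k) (Fin k) 𝕜) (b : ℝ), 0 ≤ b ∧ Sg.PosSemidef ∧
      (∀ i, Sg i i = 1) ∧
      (∀ x : Fin k → 𝕜, (∀ i, ‖x i‖ = 1) → ‖(Bᴴ * vecMulVec x (star x)).trace‖ ≤ b) ∧
      K * b < ‖(Bᴴ * Sg).trace‖ := by
  obtain ⟨k, s, h1, h2⟩ := discr (𝕜 := 𝕜) μ X hX m (m / 2000) (by positivity)
    (fun z => (hX.const_inner z).norm) h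
  have h3 : 3 ≤ √D := le_sqrt_of_sq_le (by linarith)
  have h4 : √D * (1 - 1 / 2000) ≤ ∑ i, ‖s i‖ := by linarith
  have hk : 0 < k := by
    rcases k with _ | k
    · simp only [Finset.univ_eq_empty, Finset.sum_empty] at h4; linarith
    · omega
  obtain ⟨Sg, B, a1, a2, a3, a4⟩ := lemA hd hk s (m + m / 2000) (by positivity) h1
  refine ⟨k, Sg, B, _, by positivity, a1, a2, a3, lt_of_lt_of_le ?_ a4⟩
  have h5 : D * (1 - 1 / 2000) ^ 2 ≤ (∑ i, ‖s i‖) ^ 2 := by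
    rw [← sq_sqrt (show 0 ≤ D by linarith), ← mul_pow]; gcongr
  have h6 : D / d * (1 - 1 / 2000) ^ 2 ≤ (∑ i, ‖s i‖) ^ 2 / d := by
    rw [div_mul_eq_mul_div]; gcongr
  linarith

lemma sqrt_le3 : √(2 * π) ≤ 3 := sqrt_le_iff.mpr ⟨by norm_num, by linarith [pi_lt_four]⟩

lemma exR : ∃ (k : ℕ) (Sg B : Matrix (Fin k) (Fin k) ℝ) (b : ℝ), 0 ≤ b ∧
      @PosSemidef _ _ _ RCLike.toPartialOrder _ Sg ∧ (∀ i, Sg i i = 1) ∧
      (∀ x : Fin k → ℝ, (∀ i, ‖x i‖ = 1) → ‖(Bᴴ * vecMulVec x (star x)).trace‖ ≤ b) ∧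
      25 * π / 44 * b < ‖(Bᴴ * Sg).trace‖ := by
  obtain ⟨N, hN⟩ := gnorm
  have hp := pi_gt_three
  refine assemble (d := N + 9) (by omega) (stdGaussian (EuclideanSpace ℝ (Fin (N + 9)))) id
    IsGaussian.integrable_id (√(2 * π) / π) (N + 9 : ℕ) _ (by positivity) ?_ ?_ (fun z => ?_) ?_ ?_
  · rw [div_le_iff₀ pi_pos]; linarith [sqrt_le3]
  · push_cast; linarith [Nat.cast_nonneg (α := ℝ) N]
  · have := abs_id z
    simp only [id, Real.norm_eq_abs]
    rw [this, mul_comm]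
  · simpa using hN (Fin (N + 9)) (by simp)
  · rw [div_self (by positivity), div_pow, sq_sqrt (by positivity)]
    have : (1 + 25 * π / 44) * (2 * π / π ^ 2) = 2 / π + 25 / 22 := by field_simp; ring
    have h2 : 2 / π ≤ 2 / 3 := by gcongr
    rw [this]; nlinarith

lemma exC : ∃ (k : ℕ) (Sg B : Matrix (Fin k) (Fin k) ℂ) (b : ℝ), 0 ≤ b ∧
      @PosSemidef _ _ _ RCLike.toPartialOrder _ Sg ∧ (∀ i, Sg i i = 1) ∧
      (∀ x : Fin k → ℂ, (∀ i, ‖x i‖ = 1) → ‖(Bᴴ * vecMulVec x (star x)).trace‖ ≤ b) ∧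
      25 * π / 44 * (25 / 29) * b < ‖(Bᴴ * Sg).trace‖ := by
  obtain ⟨N, hN⟩ := gnorm
  have hp := pi_gt_three
  set d := N + 9 with hd
  let J : EuclideanSpace ℝ (Fin d ⊕ Fin d) → EuclideanSpace ℂ (Fin d) := fun g =>
    WithLp.toLp 2 fun a => (g (.inl a) : ℂ) + g (.inr a) * Complex.I
  have hJ : ∀ g, ‖J g‖ = ‖g‖ := by
    intro g
    rw [EuclideanSpace.norm_eq, EuclideanSpace.norm_eq, Fintype.sum_sum_type,
      ← Finset.sum_add_distrib]
    congr 1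
    refine Finset.sum_congr rfl fun a _ => ?_
    rw [Complex.sq_norm, Complex.normSq_apply]
    simp [J, sq]
  have hJc : Continuous J := by fun_prop
  have hc : Fintype.card (Fin d ⊕ Fin d) = 2 * d := by simp [two_mul]
  refine assemble (d := d) (by omega) (stdGaussian (EuclideanSpace ℝ (Fin d ⊕ Fin d))) J
    ?_ (√(2 * π) / 2) (2 * d : ℕ) _ (by positivity) ?_ ?_ (fun z => ?_) ?_ ?_
  · exact (IsGaussian.integrable_id.norm).mono' hJc.aestronglyMeasurable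
      (ae_of_all _ fun g => (hJ g).le)
  · linarith [sqrt_le3]
  · rw [hd]; push_cast; linarith [Nat.cast_nonneg (α := ℝ) N]
  · let w : EuclideanSpace ℝ (Fin d ⊕ Fin d) :=
      WithLp.toLp 2 (Sum.elim (fun a => (z a).re) fun a => (z a).im)
    let w' : EuclideanSpace ℝ (Fin d ⊕ Fin d) :=
      WithLp.toLp 2 (Sum.elim (fun a => -(z a).im) fun a => (z a).re)
    have := hyp_id w w' ‖z‖ (norm_nonneg _) ?_ ?_ ?_
    · rw [mul_comm, ← this]
      refine le_of_eq (integral_congr_ae (ae_of_all _ fun g => ?_))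
      simp only [Complex.norm_eq_sqrt_sq_add_sq]
      congr 3
      · simp [J, w, PiLp.inner_apply, Finset.sum_add_distrib]
      · simp [J, w', PiLp.inner_apply, Finset.sum_add_distrib]
    · rw [EuclideanSpace.norm_sq_eq, EuclideanSpace.norm_sq_eq, Fintype.sum_sum_type,
        ← Finset.sum_add_distrib]
      refine Finset.sum_congr rfl fun a _ => ?_
      rw [Complex.sq_norm, Complex.normSq_apply]
      simp [w, sq]
    · rw [EuclideanSpace.norm_sq_eq, EuclideanSpace.norm_sq_eq, Fintype.sum_sum_type,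
        ← Finset.sum_add_distrib]
      refine Finset.sum_congr rfl fun a _ => ?_
      rw [Complex.sq_norm, Complex.normSq_apply]
      simp [w', sq, add_comm]
    · simp [w, w', PiLp.inner_apply, mul_comm]
  · simp only [hJ]
    rw [← hc]
    exact hN _ (by rw [hc]; omega)
  · have : ((2 * d : ℕ) : ℝ) / d = 2 := by
      have : (d : ℝ) ≠ 0 := by rw [hd]; positivity
      push_cast; field_simp
    rw [this, div_pow, sq_sqrt (by positivity)]
    have h2 := pi_lt_d4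
    have h3 : (1 + 25 * π / 44 * (25 / 29)) * (2 * π / 2 ^ 2) ≤
      (1 + 25 * 3.1416 / 44 * (25 / 29)) * (2 * 3.1416 / 2 ^ 2) := by gcongr
    nlinarith

end Pool.Agent.H21.Groth
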