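import Pool.Agent.H21.GuessDef

set_option autoImplicit false

namespace Pool.Agent.H21.Guess

def Rl : Type := Option ℕ → Option ℕ → Prop

instance : Add Rl := ⟨fun r s x y => r x y ∨ s x y⟩
instance : Zero Rl := ⟨fun _ _ => False⟩
instance : One Rl := ⟨fun x y => x = y⟩
instance : Mul Rl := ⟨fun r s x z => ∃ y, s x y ∧ r y z⟩

lemma add_ap (r s : Rl) (x y) : (r + s) x y ↔ r x y ∨ s x y := Iff.rfl
lemma zero_ap (x y) : (0 : Rl) x y ↔ False := Iff.rfl
lemma one_ap (x y) : (1 : Rl) x y ↔ x = y := Iff.rfl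
lemma mul_ap (r s : Rl) (x z) : (r * s) x z ↔ ∃ y, s x y ∧ r y z := Iff.rfl
lemma ext' {r s : Rl} (h : ∀ x y, r x y ↔ s x y) : r = s := funext₂ fun x y => propext (h x y)

instance : Semiring Rl where
  add_assoc := fun _ _ _ => ext' fun _ _ => or_assoc
  zero_add := fun _ => ext' fun _ _ => by simp [add_ap, zero_ap]
  add_zero := fun _ => ext' fun _ _ => by simp [add_ap, zero_ap]
  add_comm := fun _ _ => ext' fun _ _ => or_comm
  nsmul := nsmulRec
  left_distrib := fun _ _ _ => ext' fun _ _ => by simp only [add_ap, mul_ap]; grind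
  right_distrib := fun _ _ _ => ext' fun _ _ => by simp only [add_ap, mul_ap]; grind
  zero_mul := fun _ => ext' fun _ _ => by simp [zero_ap, mul_ap]
  mul_zero := fun _ => ext' fun _ _ => by simp [zero_ap, mul_ap]
  mul_assoc := fun _ _ _ => ext' fun _ _ => by simp only [mul_ap]; grind
  one_mul := fun _ => ext' fun _ _ => by simp [one_ap, mul_ap]
  mul_one := fun _ => ext' fun _ _ => by simp [one_ap, mul_ap]

def SS : Subsemiring Rl where
  carrier := {r | (∀ k y, r (some k) y → ∃ d, y = some (k + d)) ∧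
    (∀ k d, r (some (k + 1)) (some (k + 1 + d)) → r (some k) (some (k + d))) ∧
    ∀ k d, d ≤ 1 → r (some k) (some (k + d)) → r (some (k + 1)) (some (k + 1 + d))}
  mul_mem' := by
    rintro r s ⟨r1, r2, r3⟩ ⟨s1, s2, s3⟩
    refine ⟨?_, ?_, ?_⟩
    · rintro k z ⟨y, h1, h2⟩
      obtain ⟨d, rfl⟩ := s1 _ _ h1
      obtain ⟨e, rfl⟩ := r1 _ _ h2
      exact ⟨d + e, by rw [add_assoc]⟩
    · rintro k d ⟨y, h1, h2⟩
      obtain ⟨a, rfl⟩ := s1 _ _ h1
      obtain ⟨b, hb⟩ := r1 _ _ h2
      obtain rfl : d = a + b := by simp at hb; omega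
      refine ⟨_, s2 _ _ h1, ?_⟩
      have := r2 (k + a) b (by convert h2 using 2 <;> ring)
      rwa [add_assoc] at this
    · rintro k d hd ⟨y, h1, h2⟩
      obtain ⟨a, rfl⟩ := s1 _ _ h1
      obtain ⟨b, hb⟩ := r1 _ _ h2
      obtain rfl : d = a + b := by simp at hb; omega
      refine ⟨_, s3 _ _ (by omega) h1, ?_⟩
      have := r3 (k + a) b (by omega) (by rwa [add_assoc])
      convert this using 2 <;> ring
  one_mem' := ⟨fun k y h => ⟨0, h.symm⟩, fun k d h => by simp [one_ap] at h ⊢; exact h,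
    fun k d _ h => by simp [one_ap] at h ⊢; exact h⟩
  add_mem' := by
    rintro r s ⟨r1, r2, r3⟩ ⟨s1, s2, s3⟩
    exact ⟨fun k y h => h.elim (r1 k y) (s1 k y), fun k d h => h.imp (r2 k d) (s2 k d),
      fun k d hd h => h.imp (r3 k d hd) (s3 k d hd)⟩
  zero_mem' := ⟨fun _ _ h => h.elim, fun _ _ h => h, fun _ _ _ h => h⟩

def aa : SS := ⟨fun x y => ∃ k, x = some k ∧ y = some (k + 1),
  by rintro k y ⟨j, h, rfl⟩; obtain rfl := Option.some.inj h; exact ⟨1, rfl⟩,
  by intro k d; simp, by intro k d; simp⟩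

def pt (n : ℕ) : SS := ⟨fun x y => x = none ∧ y = some n, by simp, by simp, by simp⟩

def lam (n : ℕ) : SS := ⟨fun x y => ∃ k < n, x = some k ∧ y = some (k + 2),
  by rintro k y ⟨j, -, h, rfl⟩; obtain rfl := Option.some.inj h; exact ⟨2, rfl⟩,
  by intro k d; simp; omega, by intro k d; simp; omega⟩

lemma mul_pt (r : SS) (k j : ℕ) : r * pt k = pt j ↔ ∀ y, r.1 (some k) y ↔ y = some j := by
  rw [Subtype.ext_iff]
  constructor
  · intro h y
    simpa [mul_ap, pt] using iff_of_eq (congrFun₂ h none y)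
  · intro h
    exact ext' fun x y => by simp [mul_ap, pt, ← h]

lemma a_pt (k : ℕ) : aa * pt k = pt (k + 1) := (mul_pt _ _ _).2 fun y => by simp [aa]

lemma rigid (r : SS) {d : ℕ} (hd : d ≤ 1) (h : r * pt 0 = pt d) (k : ℕ) :
    r * pt k = pt (k + d) := by
  induction k with
  | zero => simpa using h
  | succ k ih =>
    rw [mul_pt] at ih ⊢
    refine fun y => ⟨fun hy => ?_, fun hy => hy ▸ r.2.2.2 k d hd ((ih _).2 rfl)⟩
    obtain ⟨e, rfl⟩ := r.2.1 _ _ hy
    have := (ih _).1 (r.2.2.1 k e hy)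
    simp at this ⊢; exact this

lemma lam_pt {n k : ℕ} (h : k < n) : lam n * pt k = pt (k + 2) :=
  (mul_pt _ _ _).2 fun y => by simp [lam, h]

lemma lam_ne (n : ℕ) : lam n * pt n ≠ pt (n + 2) := fun h => by
  simpa [lam] using (mul_pt _ _ _).1 h (some (n + 2))

lemma pow_pt (k : ℕ) : aa ^ k * pt 0 = pt k := by
  induction k with
  | zero => simp
  | succ k ih => rw [pow_succ', mul_assoc, ih, a_pt]

def e0 : ({[], [()]} : Finset (List Unit)) := ⟨[], by simp⟩
def e1 : ({[], [()]} : Finset (List Unit)) := ⟨[()], by simp⟩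

lemma sum2 {M : Type} [AddCommMonoid M] (g : ({[], [()]} : Finset (List Unit)) → M) :
    ∑ q, g q = g e0 + g e1 := by
  rw [show (Finset.univ : Finset ({[], [()]} : Finset (List Unit))) = {e0, e1} by decide,
    Finset.sum_pair (by decide)]

lemma cas (q : ({[], [()]} : Finset (List Unit))) : q = e0 ∨ q = e1 := by revert q; decide

theorem main1 : ∃ (S : Type) (_ : Semiring S) (A : Type) (_ : Finite A) (f : List A → S),
    IsWA f ∧ Guessable f ∧ ¬ StronglyGuessable f := by
  refine ⟨SS, inferInstance, Unit, inferInstance, fun w => pt w.length,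
    ⟨1, fun _ => 1, fun _ => pt 0, fun _ => Matrix.diagonal fun _ => aa, fun w => ?_⟩,
    ⟨{[]}, {[]}, by simp, ?_, ⟨(fun _ => 1, fun _ _ _ => aa), by simp [Lam, a_pt]⟩⟩, ?_⟩
  · simp [Matrix.diagonal_pow, Matrix.mulVec_diagonal, dotProduct, pow_pt]
  · ext l
    simp only [Lam, Set.mem_setOf_eq, Finset.univ_unique, Finset.sum_singleton, Unique.forall_iff]
    simp only [Finset.coe_singleton, Set.mem_singleton_iff, forall_eq, Set.mem_univ, true_imp_iff]
    refine ⟨fun h => ⟨fun w => ?_, fun w => ?_⟩, fun h => ⟨h.1 _, h.2 _⟩⟩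
    · exact (rigid _ zero_le_one h.1.symm _).symm
    · exact (rigid _ le_rfl h.2.symm _).symm
  · rintro ⟨-, h⟩
    obtain ⟨T, hT⟩ := h {[], [()]} (by simp)
    set n := T.sup List.length + 1
    have : (fun q => if q = e0 then 1 else 0, fun q _ p => if q = e0 then (if p = e0 then 0 else 1)
        else if p = e0 then lam n else 0) ∈ Lam (fun w => pt w.length) {[], [()]} T := by
      refine ⟨fun w _ => by rw [sum2]; simp [e0, e1], fun q a w hw => ?_⟩
      have := Finset.le_sup (f := List.length) hw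
      rw [sum2]
      rcases cas q with rfl | rfl <;> simp [e0, e1, lam_pt (show w.length < n by omega)]
    rw [hT] at this
    have := this.2 e1 () (List.replicate n ()) trivial
    rw [sum2] at this
    simp [e0, e1] at this
    exact lam_ne n this.symm

open MulOpposite in
theorem main2 : ∃ (S : Type) (_ : Semiring S) (A : Type) (_ : Finite A) (f : List A → S),
    IsWA f ∧ CoGuessable f ∧ ¬ StronglyCoGuessable f := by
  refine ⟨SSᵐᵒᵖ, inferInstance, Unit, inferInstance, fun w => op (pt w.length),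
    ⟨1, fun _ => op (pt 0), fun _ => 1, fun _ => Matrix.diagonal fun _ => op aa, fun w => ?_⟩,
    ⟨{[]}, {[]}, by simp, ?_, ⟨(fun _ => 1, fun _ _ _ => op aa), by
      simp [Gam, ← op_mul, a_pt]⟩⟩, ?_⟩
  · simp [Matrix.diagonal_pow, Matrix.mulVec_diagonal, dotProduct, ← op_pow, ← op_mul, pow_pt]
  · ext l
    simp only [Gam, Set.mem_setOf_eq, Finset.univ_unique, Finset.sum_singleton, Unique.forall_iff]
    simp only [Finset.coe_singleton, Set.mem_singleton_iff, forall_eq, Set.mem_univ, true_imp_iff]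
    refine ⟨fun h => ⟨fun w => ?_, fun w => ?_⟩, fun h => ⟨h.1 _, h.2 _⟩⟩
    · simpa using congrArg op (rigid _ zero_le_one (congrArg unop h.1).symm w.length).symm
    · simpa using congrArg op (rigid _ le_rfl (congrArg unop h.2).symm w.length).symm
  · rintro ⟨-, h⟩
    obtain ⟨T, hT⟩ := h {[], [()]} (by simp)
    set n := T.sup List.length + 1
    have : (fun q => if q = e0 then 1 else 0, fun p _ q => if q = e0 then (if p = e0 then 0 else 1)
        else if p = e0 then op (lam n) else 0) ∈ Gam (fun w => op (pt w.length)) T {[], [()]} := by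
      refine ⟨fun w _ => by rw [sum2]; simp [e0, e1], fun q a w hw => ?_⟩
      have := Finset.le_sup (f := List.length) hw
      rw [sum2]
      rcases cas q with rfl | rfl <;> simp [e0, e1, ← op_mul, lam_pt (show w.length < n by omega)]
    rw [hT] at this
    have := this.2 e1 () (List.replicate n ()) trivial
    rw [sum2] at this
    simp [e0, e1, ← op_mul] at this
    exact lam_ne n this.symm

end Pool.Agent.H21.Guess
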