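import Mathlib

set_option autoImplicit false

namespace Pool.Agent.H21.Guess

variable {S : Type} [Semiring S] {A : Type}

/-- `f` is computed by a finite weighted automaton over `S`. -/
def IsWA (f : List A → S) : Prop :=
  ∃ (n : ℕ) (α β : Fin n → S) (μ : A → Matrix (Fin n) (Fin n) S),
    ∀ w, f w = α ⬝ᵥ (w.map μ).prod.mulVec β

/-- `Λ_{Q,T}` -/
def Lam (f : List A → S) (Q : Finset (List A)) (T : Set (List A)) :
    Set ((Q → S) × (Q → A → Q → S)) :=
  {l | (∀ w ∈ T, f w = ∑ q : Q, l.1 q * f (q.1 ++ w)) ∧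
    ∀ (q : Q) (a : A), ∀ w ∈ T, f (q.1 ++ a :: w) = ∑ p : Q, l.2 q a p * f (p.1 ++ w)}

/-- `Γ_{Q,T}` -/
def Gam (f : List A → S) (Q : Set (List A)) (T : Finset (List A)) :
    Set ((T → S) × (T → A → T → S)) :=
  {g | (∀ w ∈ Q, f w = ∑ t : T, f (w ++ t.1) * g.1 t) ∧
    ∀ (t : T) (a : A), ∀ w ∈ Q, f (w ++ a :: t.1) = ∑ s : T, f (w ++ s.1) * g.2 s a t}

def Guessable (f : List A → S) : Prop :=
  ∃ Q T : Finset (List A), Q.Nonempty ∧ Lam f Q T = Lam f Q Set.univ ∧ (Lam f Q Set.univ).Nonempty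

def StronglyGuessable (f : List A → S) : Prop :=
  Guessable f ∧ ∀ Q : Finset (List A), Q.Nonempty → ∃ T : Finset (List A), Lam f Q T = Lam f Q Set.univ

def CoGuessable (f : List A → S) : Prop :=
  ∃ Q T : Finset (List A), T.Nonempty ∧ Gam f Q T = Gam f Set.univ T ∧ (Gam f Set.univ T).Nonempty

def StronglyCoGuessable (f : List A → S) : Prop :=
  CoGuessable f ∧
    ∀ T : Finset (List A), T.Nonempty → ∃ Q : Finset (List A), Gam f Q T = Gam f Set.univ T

end Pool.Agent.H21.Guess
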