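import Mathlib

namespace Pool.Agent.H21.HPolar

open Matrix

variable {n : ℕ} (H : Matrix (Fin n) (Fin n) ℂ)

/-- `[x, y] = ⟨H x, y⟩ = (H x)^* y`. -/
def ip (x y : Fin n → ℂ) : ℂ := star (H *ᵥ x) ⬝ᵥ y

/-- The `H`-adjoint `H⁻¹ M^* H`. -/
noncomputable def adj (M : Matrix (Fin n) (Fin n) ℂ) : Matrix (Fin n) (Fin n) ℂ := H⁻¹ * Mᴴ * H

/-- The `H`-selfadjoint factors `A` of `H`-polar decompositions `X = U A` with `U A = A U`. -/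
def factors (X : Matrix (Fin n) (Fin n) ℂ) : Set (Matrix (Fin n) (Fin n) ℂ) :=
  {A | ∃ U, adj H U * U = 1 ∧ adj H A = A ∧ X = U * A ∧ U * A = A * U}

/-- Some nonzero proper `H`-nondegenerate subspace is invariant under `X` and `X^[*]`. -/
def Decomposable (X : Matrix (Fin n) (Fin n) ℂ) : Prop :=
  ∃ W : Submodule ℂ (Fin n → ℂ), W ≠ ⊥ ∧ W ≠ ⊤ ∧ (∀ w ∈ W, (∀ v ∈ W, ip H v w = 0) → w = 0) ∧
    (∀ w ∈ W, X *ᵥ w ∈ W) ∧ ∀ w ∈ W, adj H X *ᵥ w ∈ W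

end Pool.Agent.H21.HPolar
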