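import Mathlib

namespace Pool.Agent.H21.Heun

open Polynomial

/-- Equation `(*)` with `μ = A / (2 ω)`, `λ = 1 / (4 ω²) - μ²` has a nonzero polynomial solution. -/
def HasPolySol (ω : ℝ) (l : ℕ) (A : ℝ) : Prop :=
  ∃ E : ℂ[X], E ≠ 0 ∧
    X ^ 2 * derivative (derivative E) +
      (C (1 - (l : ℂ)) * X + C ((A / (2 * ω) : ℝ) : ℂ) * (1 - X ^ 2)) * derivative E +
      (C ((1 / (4 * ω ^ 2) - (A / (2 * ω)) ^ 2 : ℝ) : ℂ) +
        C (((A / (2 * ω) : ℝ) : ℂ) * ((l : ℂ) - 1)) * X) * E = 0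

/-- `P` is the point `𝒫_l`: on the line `B = l ω`, with the largest `A` admitting a solution. -/
def IsP (ω : ℝ) (l : ℕ) (P : ℝ × ℝ) : Prop :=
  P.1 = l * ω ∧ IsGreatest {A | HasPolySol ω l A} P.2

end Pool.Agent.H21.Heun
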