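import Mathlib

set_option autoImplicit false
open Matrix

namespace Pool.Agent.H21.HornCirc

/-- the Horn form -/
def horn (a b c d e : ℝ) : ℝ :=
  a*a + b*b + c*c + d*d + e*e - 2*(a*b + b*c + c*d + d*e + e*a) + 2*(a*c + b*d + c*e + d*a + e*b)

lemma horn_nonneg (a b c d e : ℝ) (ha : 0 ≤ a) (hb : 0 ≤ b) (hc : 0 ≤ c) (hd : 0 ≤ d)
    (he : 0 ≤ e) : 0 ≤ horn a b c d e := by
  unfold horn
  rcases le_total a b with h | h
  · nlinarith [sq_nonneg (a - b + c - d + e), mul_nonneg ha hd, mul_nonneg he (sub_nonneg.2 h)]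
  · rcases le_total b c with h2 | h2
    · nlinarith [sq_nonneg (b - c + d - e + a), mul_nonneg hb he, mul_nonneg ha (sub_nonneg.2 h2)]
    · rcases le_total c d with h3 | h3
      · nlinarith [sq_nonneg (c - d + e - a + b), mul_nonneg hc ha, mul_nonneg hb (sub_nonneg.2 h3)]
      · rcases le_total d e with h4 | h4
        · nlinarith [sq_nonneg (d - e + a - b + c), mul_nonneg hd hb, mul_nonneg hc (sub_nonneg.2 h4)]
        · have h5 : e ≤ a := by linarith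
          nlinarith [sq_nonneg (e - a + b - c + d), mul_nonneg he hc, mul_nonneg hd (sub_nonneg.2 h5)]

def A : Matrix (Fin 5) (Fin 5) ℝ :=
  !![16, 9, 1, 1, 9; 9, 16, 9, 1, 1; 1, 9, 16, 9, 1; 1, 1, 9, 16, 9; 9, 1, 1, 9, 16]

noncomputable def X : ℝ := (3 + √5) / 2
noncomputable def Z : ℝ := (3 - √5) / 2

noncomputable def B : Matrix (Fin 5) (Fin 5) ℝ :=
  !![X, 0, 0, Z, 3; 3, X, 0, 0, Z; Z, 3, X, 0, 0; 0, Z, 3, X, 0; 0, 0, Z, 3, X]

lemma sq5 : √5 * √5 = (5 : ℝ) := Real.mul_self_sqrt (by norm_num)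

lemma hX : 0 ≤ X := by unfold X; positivity
lemma hZ : 0 ≤ Z := by
  unfold Z
  have : √5 ≤ (3 : ℝ) := by
    rw [Real.sqrt_le_iff]; constructor <;> norm_num
  linarith

lemma B_nonneg : ∀ i j, 0 ≤ B i j := by
  intro i j
  fin_cases i <;> fin_cases j <;> simp [B, hX, hZ]

lemma A_eq : A = B * Bᵀ := by
  have h := sq5
  ext i j
  fin_cases i <;> fin_cases j <;>
    simp [A, B, Matrix.mul_apply, Fin.sum_univ_succ, X, Z] <;> nlinarith

lemma A_rat : ∀ i j, ∃ q : ℚ, A i j = (q : ℝ) := by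
  intro i j
  have h : A i j = 16 ∨ A i j = 9 ∨ A i j = 1 := by
    fin_cases i <;> fin_cases j <;> simp [A]
  rcases h with h | h | h
  · exact ⟨16, by simp [h]⟩
  · exact ⟨9, by simp [h]⟩
  · exact ⟨1, by simp [h]⟩

lemma A_pos : ∀ i j, 0 < A i j := by
  intro i j
  fin_cases i <;> fin_cases j <;> simp [A]

lemma A_symm : Aᵀ = A := by
  ext i j
  fin_cases i <;> fin_cases j <;> simp [A]

lemma A_posDef : A.PosDef := by
  refine Matrix.PosDef.of_dotProduct_mulVec_pos ?_ ?_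
  · ext i j
    fin_cases i <;> fin_cases j <;> simp [A]
  · intro x hx
    have hne : ¬ (x 0 = 0 ∧ x 1 = 0 ∧ x 2 = 0 ∧ x 3 = 0 ∧ x 4 = 0) := by
      rintro ⟨h0, h1, h2, h3, h4⟩
      apply hx
      ext i
      fin_cases i <;> simp [h0, h1, h2, h3, h4]
    have key : star x ⬝ᵥ A *ᵥ x = 5 * ((x 0 + x 1)^2 + (x 1 + x 2)^2 + (x 2 + x 3)^2
        + (x 3 + x 4)^2 + (x 4 + x 0)^2) + ((x 0 + 2 * x 1 + x 2)^2 + (x 1 + 2 * x 2 + x 3)^2
        + (x 2 + 2 * x 3 + x 4)^2 + (x 3 + 2 * x 4 + x 0)^2 + (x 4 + 2 * x 0 + x 1)^2) := by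
      simp [A, dotProduct, Matrix.mulVec, Fin.sum_univ_succ]
      ring
    rw [key]
    by_contra hle
    push Not at hle
    have s0 := sq_nonneg (x 0 + x 1)
    have s1 := sq_nonneg (x 1 + x 2)
    have s2 := sq_nonneg (x 2 + x 3)
    have s3 := sq_nonneg (x 3 + x 4)
    have s4 := sq_nonneg (x 4 + x 0)
    have t0 := sq_nonneg (x 0 + 2 * x 1 + x 2)
    have t1 := sq_nonneg (x 1 + 2 * x 2 + x 3)
    have t2 := sq_nonneg (x 2 + 2 * x 3 + x 4)
    have t3 := sq_nonneg (x 3 + 2 * x 4 + x 0)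
    have t4 := sq_nonneg (x 4 + 2 * x 0 + x 1)
    have e0 : x 0 + x 1 = 0 := pow_eq_zero_iff (two_ne_zero) |>.1 (by linarith)
    have e1 : x 1 + x 2 = 0 := pow_eq_zero_iff (two_ne_zero) |>.1 (by linarith)
    have e2 : x 2 + x 3 = 0 := pow_eq_zero_iff (two_ne_zero) |>.1 (by linarith)
    have e3 : x 3 + x 4 = 0 := pow_eq_zero_iff (two_ne_zero) |>.1 (by linarith)
    have e4 : x 4 + x 0 = 0 := pow_eq_zero_iff (two_ne_zero) |>.1 (by linarith)
    exact hne ⟨by linarith, by linarith, by linarith, by linarith, by linarith⟩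

/-- pairing with the Horn matrix -/
def pairH (S : Matrix (Fin 5) (Fin 5) ℝ) : ℝ :=
  S 0 0 + S 1 1 + S 2 2 + S 3 3 + S 4 4 - 2 * (S 0 1 + S 1 2 + S 2 3 + S 3 4 + S 4 0)
    + 2 * (S 0 2 + S 1 3 + S 2 4 + S 3 0 + S 4 1)

lemma pairH_nonneg {m : ℕ} (C : Matrix (Fin 5) (Fin m) ℝ) (hC : ∀ i j, 0 ≤ C i j) :
    0 ≤ pairH (C * Cᵀ) := by
  have : pairH (C * Cᵀ) = ∑ k, horn (C 0 k) (C 1 k) (C 2 k) (C 3 k) (C 4 k) := by
    simp only [pairH, horn, Matrix.mul_apply, Matrix.transpose_apply, Finset.sum_add_distrib,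
      Finset.sum_sub_distrib, ← Finset.mul_sum]
  rw [this]
  exact Finset.sum_nonneg fun k _ => horn_nonneg _ _ _ _ _ (hC _ _) (hC _ _) (hC _ _) (hC _ _) (hC _ _)

lemma A_bdry : ∀ ε : ℝ, 0 < ε → ∃ S : Matrix (Fin 5) (Fin 5) ℝ, Sᵀ = S ∧
    (∀ i j, |S i j - A i j| < ε) ∧
    ¬ ∃ m : ℕ, ∃ C : Matrix (Fin 5) (Fin m) ℝ, (∀ i j, 0 ≤ C i j) ∧ S = C * Cᵀ := by
  intro ε hε
  refine ⟨A - (ε / 2) • (1 : Matrix (Fin 5) (Fin 5) ℝ), ?_, ?_, ?_⟩
  · rw [Matrix.transpose_sub, A_symm, Matrix.transpose_smul, Matrix.transpose_one]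
  · intro i j
    simp only [Matrix.sub_apply, Matrix.smul_apply, Matrix.one_apply, smul_eq_mul]
    split_ifs
    · rw [abs_lt]; constructor <;> linarith
    · simpa using hε
  · rintro ⟨m, C, hC, hS⟩
    have h := pairH_nonneg C hC
    rw [← hS] at h
    simp [pairH, A, Matrix.one_apply] at h
    linarith

lemma XX_irr : ¬ ∃ r : ℚ, B 0 0 * B 0 0 = (r : ℝ) := by
  rintro ⟨r, hr⟩
  have h := sq5
  have h5 : Irrational (√5) := by
    have := Nat.Prime.irrational_sqrt (p := 5) (by norm_num)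
    simpa using this
  apply h5
  refine ⟨(2 * r - 7) / 3, ?_⟩
  simp [B, X] at hr
  push_cast
  nlinarith

end Pool.Agent.H21.HornCirc
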