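import Mathlib

namespace Pool.Agent.H21.Levy

open MeasureTheory ENNReal

/-- The `g`-area `∫_E e^{2u} dx` for `g = e^{2u} δ` on the plane `ℂ = ℝ²`. -/
noncomputable def area (u : ℂ → ℝ) (E : Set ℂ) : ℝ≥0∞ :=
  ∫⁻ z in E, ENNReal.ofReal (Real.exp (2 * u z))

/-- The `g`-length `∫_{∂Ω} e^u ds` of the boundary, `ds` the one-dimensional Hausdorff measure. -/
noncomputable def bdryLength (u : ℂ → ℝ) (Ω : Set ℂ) : ℝ≥0∞ :=
  ∫⁻ z in frontier Ω, ENNReal.ofReal (Real.exp (u z)) ∂(Measure.hausdorffMeasure 1)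

/-- A connected open set cut out by a smooth function with nonzero differential on the boundary. -/
def IsSmoothDomain (Ω : Set ℂ) : Prop :=
  IsOpen Ω ∧ IsConnected Ω ∧ ∃ ρ : ℂ → ℝ, ContDiff ℝ (⊤ : ℕ∞) ρ ∧ Ω = {z | 0 < ρ z} ∧
    frontier Ω = {z | ρ z = 0} ∧ ∀ z ∈ frontier Ω, fderiv ℝ ρ z ≠ 0

end Pool.Agent.H21.Levy
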