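import Mathlib

set_option autoImplicit false

namespace Pool.Agent.H21.LimFP

/-- The multimap on `ℝ³` with the sup metric. -/
def T (p : Fin 3 → ℝ) : Set (Fin 3 → ℝ) := {q | Real.exp (-(q 0 + q 1 + q 2)) ≤ dist p q}

lemma T_closed (p : Fin 3 → ℝ) : IsClosed (T p) := by
  unfold T
  apply isClosed_le <;> fun_prop

lemma not_mem (p : Fin 3 → ℝ) : p ∉ T p := by
  intro h
  have h1 : Real.exp (-(p 0 + p 1 + p 2)) ≤ dist p p := h
  rw [dist_self] at h1
  exact absurd h1 (not_le.mpr (Real.exp_pos _))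

lemma T_nonempty (p : Fin 3 → ℝ) : (T p).Nonempty := by
  set s := Real.exp (-(p 0 + p 1 + p 2)) with hs
  have hs0 : 0 < s := Real.exp_pos _
  refine ⟨fun i => p i + s, ?_⟩
  show Real.exp (-(p 0 + s + (p 1 + s) + (p 2 + s))) ≤ dist p (fun i => p i + s)
  have h1 := dist_le_pi_dist p (fun i => p i + s) 0
  have h2 : dist (p 0) (p 0 + s) = s := by
    rw [Real.dist_eq]; simp [abs_of_pos hs0]
  have h3 : Real.exp (-(p 0 + s + (p 1 + s) + (p 2 + s))) ≤ s := by
    rw [hs]; apply Real.exp_le_exp.mpr; linarith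
  linarith

lemma exists_coord (a b : Fin 3 → ℝ) :
    ∃ i : Fin 3, ∃ σ : ℝ, (σ = 1 ∨ σ = -1) ∧ dist a b ≤ σ * (b i - a i) := by
  by_contra h
  push Not at h
  have hpos : 0 < dist a b := by
    have h1 := h 0 1 (Or.inl rfl)
    have h2 := h 0 (-1) (Or.inr rfl)
    linarith
  have : dist a b < dist a b := by
    rw [dist_pi_lt_iff hpos]
    intro i
    have h1 := h i 1 (Or.inl rfl)
    have h2 := h i (-1) (Or.inr rfl)
    rw [Real.dist_eq, abs_lt]
    constructor <;> linarith
  exact lt_irrefl _ this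

lemma step (p q p' : Fin 3 → ℝ) (e : ℝ) (he : 0 ≤ e) (ht : dist p q ≤ e + e ^ 2)
    (hp : p' ∈ T p) : ∃ q' ∈ T q, dist p' q' ≤ e := by
  obtain ⟨i, σ, hσ, hi⟩ := exists_coord q p'
  set q' : Fin 3 → ℝ := fun j => p' j + e * (if j = i then σ else 1) with hq'
  have hd : dist p' q' ≤ e := by
    rw [dist_pi_le_iff he]
    intro j
    rw [Real.dist_eq, abs_le]
    simp only [hq']
    split_ifs
    · rcases hσ with h | h <;> rw [h] <;> constructor <;> linarith
    · constructor <;> linarith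
  refine ⟨q', ?_, hd⟩
  show Real.exp (-(q' 0 + q' 1 + q' 2)) ≤ dist q q'
  have hA : Real.exp (-(p' 0 + p' 1 + p' 2)) ≤ dist p p' := hp
  set A := Real.exp (-(p' 0 + p' 1 + p' 2)) with hAdef
  have hA0 : 0 < A := Real.exp_pos _
  have h1 : dist q p' + e ≤ dist q q' := by
    have h2 := dist_le_pi_dist q q' i
    rw [Real.dist_eq] at h2
    have h3 : q' i = p' i + e * σ := by simp [hq']
    rw [h3] at h2
    rcases hσ with h | h
    · rw [h] at hi h2
      have := neg_abs_le (q i - (p' i + e * 1))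
      linarith
    · rw [h] at hi h2
      have := le_abs_self (q i - (p' i + e * (-1)))
      linarith
  have hsum : p' 0 + p' 1 + p' 2 + e ≤ q' 0 + q' 1 + q' 2 := by
    have hσ' : -1 ≤ σ := by rcases hσ with h | h <;> rw [h] <;> norm_num
    have hes : -e ≤ e * σ := by nlinarith
    fin_cases i <;> simp [hq'] <;> linarith
  have h4 : Real.exp (-(q' 0 + q' 1 + q' 2)) * (1 + e) ≤ A := by
    have h5 : 1 + e ≤ Real.exp e := by linarith [Real.add_one_le_exp e]
    calc Real.exp (-(q' 0 + q' 1 + q' 2)) * (1 + e)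
        ≤ Real.exp (-(q' 0 + q' 1 + q' 2)) * Real.exp e :=
          mul_le_mul_of_nonneg_left h5 (Real.exp_pos _).le
      _ = Real.exp (-(q' 0 + q' 1 + q' 2) + e) := by rw [← Real.exp_add]
      _ ≤ A := by rw [hAdef]; apply Real.exp_le_exp.mpr; linarith
  set B := Real.exp (-(q' 0 + q' 1 + q' 2)) with hB
  have hB0 : 0 < B := Real.exp_pos _
  have htri := dist_triangle p q p'
  have hqp : 0 ≤ dist q p' := dist_nonneg
  by_cases hBe : B ≤ e
  · linarith
  · push Not at hBe
    have : e ^ 2 ≤ B * e := by nlinarith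
    nlinarith

lemma haus (p q : Fin 3 → ℝ) (e : ℝ) (he : 0 ≤ e) (ht : dist p q ≤ e + e ^ 2) :
    Metric.hausdorffEDist (T p) (T q) ≤ ENNReal.ofReal e := by
  apply Metric.hausdorffEDist_le_of_mem_edist
  · intro x hx
    obtain ⟨y, hy, hd⟩ := step p q x e he ht hx
    exact ⟨y, hy, by rw [edist_dist]; exact ENNReal.ofReal_le_ofReal hd⟩
  · intro x hx
    obtain ⟨y, hy, hd⟩ := step q p x e he (by rwa [dist_comm]) hx
    exact ⟨y, hy, by rw [edist_dist]; exact ENNReal.ofReal_le_ofReal hd⟩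

end Pool.Agent.H21.LimFP
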