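import Mathlib

namespace Pool.Agent.H21.Lonely

/-- The position in `ℤ^d` after the `t` steps `w`; a step is a coordinate and a sign. -/
def pos {d t : ℕ} (w : Fin t → Fin d × Bool) : Fin d → ℤ :=
  ∑ j, Pi.single (w j).1 (if (w j).2 then 1 else -1)

/-- `p_{n,d}(t)`: the fraction of all `n`-tuples of `t`-step walks from `0` in which some walker
is alone at its site at time `t` (uniform steps make all tuples equally likely). -/
def p (n d t : ℕ) : ℚ :=
  ((Finset.univ.filter fun ω : Fin n → Fin t → Fin d × Bool =>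
    ∃ i, ∀ j, j ≠ i → pos (ω j) ≠ pos (ω i)).card : ℚ) / ((2 * d) ^ t) ^ n

end Pool.Agent.H21.Lonely
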