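import Mathlib

namespace Pool.Agent.H21.MST

open Matrix

variable {V : Type} [Fintype V] [DecidableEq V]

/-- The skew adjacency matrix of the oriented graph with arcs `r`. -/
def skew (r : V → V → Prop) [DecidableRel r] : Matrix V V ℝ :=
  of fun a b => if r a b then 1 else if r b a then -1 else 0

/-- Perfect state transfer from `a` to `b` for the real orthogonal walk `exp(tA)`. -/
def PST (r : V → V → Prop) [DecidableRel r] (a b : V) : Prop :=
  ∃ τ c : ℝ, |c| = 1 ∧ NormedSpace.exp (τ • skew r) *ᵥ Pi.single a 1 = c • Pi.single b 1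

/-- `P` is a switching automorphism sending each basis vector `e_v` to `± e_{σ v}`. -/
def Switching (r : V → V → Prop) [DecidableRel r] (P : Matrix V V ℝ) (σ : Equiv.Perm V) : Prop :=
  (∀ v, P *ᵥ Pi.single v 1 = Pi.single (σ v) 1 ∨ P *ᵥ Pi.single v 1 = -Pi.single (σ v) 1) ∧
    Pᵀ * skew r * P = skew r

end Pool.Agent.H21.MST
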