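import Mathlib

namespace Pool.Agent.H21.MaxMin

open Classical

/-- A max-min measure of finite support `⋁ αᵢ ∧ δ_{xᵢ}`, given by its weight function
(`w x = α` at a point of the support, `-∞` elsewhere; the largest weight is `+∞`). -/
structure J (X : Type) where
  w : X → EReal
  fin : {x | w x ≠ ⊥}.Finite
  top : ∃ x, w x = ⊤

/-- The value `μ(φ) = max_x min (w x, φ x)` of the functional. -/
noncomputable def J.ev {X : Type} (μ : J X) (φ : X → ℝ) : EReal := ⨆ x, min (μ.w x) (φ x)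

/-- The distance `d̂` on `J X` attached to the distance `d` on `X`. -/
noncomputable def dhat {X : Type} (d : X → X → ℝ) (μ ν : J X) : ℝ :=
  sInf {r | 0 < r ∧ ∀ φ : X → ℝ, (∀ x y, d x y < r → φ y = φ x) → μ.ev φ = ν.ev φ}

/-- Kleisli morphisms: nonexpanding maps `X → J Y`. -/
def KHom {X Y : Type} (dX : X → X → ℝ) (dY : Y → Y → ℝ) : Type :=
  {f : X → J Y // ∀ x x', dhat dY (f x) (f x') ≤ dX x x'}

/-- `h = g * f = ξ ∘ J(g) ∘ f`. -/
def IsComp {X Y Z : Type} (f : X → J Y) (g : Y → J Z) (h : X → J Z) : Prop :=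
  ∀ x z, (h x).w z = ⨆ y, min ((f x).w y) ((g y).w z)

/-- `f = δ ∘ u`. -/
def IsDirac {X Y : Type} (u : X → Y) (f : X → J Y) : Prop :=
  ∀ x y, (f x).w y = if y = u x then ⊤ else ⊥

/-- The symmetric power `X ^ n / S_n`. -/
def SP (n : ℕ) (X : Type) : Type :=
  Quot fun x y : Fin n → X => ∃ σ : Equiv.Perm (Fin n), y = x ∘ σ

def SP.mk {n : ℕ} {X : Type} (x : Fin n → X) : SP n X := Quot.mk _ x

/-- `SP^n` on maps. -/
def SP.map {n : ℕ} {X Y : Type} (u : X → Y) : SP n X → SP n Y :=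
  Quot.map (fun x => u ∘ x) fun _ _ ⟨σ, h⟩ => ⟨σ, h ▸ rfl⟩

/-- The distance on `SP^n X`: the least value of `max_i d(xᵢ, yᵢ)` over representatives. -/
noncomputable def dSP (n : ℕ) {X : Type} (d : X → X → ℝ) (s t : SP n X) : ℝ :=
  sInf {r | ∃ x y, SP.mk x = s ∧ SP.mk y = t ∧ r = ⨆ i, d (x i) (y i)}

/-- An extension of `SP^n` onto the Kleisli category: an action on Kleisli morphisms between
ultrametric spaces which preserves composition and sends `δ ∘ u` to `δ ∘ SP^n u`. -/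
structure Ext (n : ℕ) where
  map : ∀ {X Y : Type} [MetricSpace X] [IsUltrametricDist X] [MetricSpace Y]
    [IsUltrametricDist Y], KHom (dist : X → X → ℝ) (dist : Y → Y → ℝ) →
      KHom (dSP n (dist : X → X → ℝ)) (dSP n (dist : Y → Y → ℝ))
  comp : ∀ {X Y Z : Type} [MetricSpace X] [IsUltrametricDist X] [MetricSpace Y]
    [IsUltrametricDist Y] [MetricSpace Z] [IsUltrametricDist Z]
    (f : KHom (dist : X → X → ℝ) (dist : Y → Y → ℝ))
    (g : KHom (dist : Y → Y → ℝ) (dist : Z → Z → ℝ))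
    (h : KHom (dist : X → X → ℝ) (dist : Z → Z → ℝ)),
    IsComp f.1 g.1 h.1 → IsComp (map f).1 (map g).1 (map h).1
  dirac : ∀ {X Y : Type} [MetricSpace X] [IsUltrametricDist X] [MetricSpace Y]
    [IsUltrametricDist Y] (u : X → Y) (f : KHom (dist : X → X → ℝ) (dist : Y → Y → ℝ)),
    IsDirac u f.1 → IsDirac (SP.map u) (map f).1

end Pool.Agent.H21.MaxMin
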