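import Mathlib

set_option autoImplicit false

namespace Pool.Agent.H21.MinG

/-- A Hausdorff group topology admitting no strictly coarser Hausdorff group topology. -/
def IsMinimal (G : Type*) [Group G] [t : TopologicalSpace G] : Prop :=
  T2Space G ∧ ∀ s : TopologicalSpace G, @IsTopologicalGroup G s _ → @T2Space G s → t ≤ s → s = t

/-- All quotients by closed normal subgroups are minimal. -/
def IsTotallyMinimal (G : Type*) [Group G] [TopologicalSpace G] : Prop :=
  ∀ (N : Subgroup G) [N.Normal], IsClosed (N : Set G) → IsMinimal (G ⧸ N)

end Pool.Agent.H21.MinG
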