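import Pool.Agent.H21.MinDef

set_option autoImplicit false

namespace Pool.Agent.H21.MinG

open Filter Topology Set Pointwise

variable {A A' H Q : Type*} [CommGroup A] [TopologicalSpace A] [IsTopologicalGroup A]
  [CommGroup A'] [Group H] [TopologicalSpace H] [IsTopologicalGroup H]
  [Group Q] [TopologicalSpace Q] [IsTopologicalGroup Q]

omit [IsTopologicalGroup A] [IsTopologicalGroup H] [IsTopologicalGroup Q] in
lemma clus [T2Space Q] (π : H →* A) (hπ : IsProperMap π) (f : H →* Q) (hf : Continuous f)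
    (𝓖 : Filter Q) (h𝓖 : 𝓖 ≤ 𝓝 1) (x : A)
    (h : ∀ U ∈ 𝓝 x, ∀ V ∈ 𝓖, ∃ y, π y ∈ U ∧ f y ∈ V) :
    ∃ y, π y = x ∧ f y = 1 ∧ ∀ W ∈ 𝓝 y, ∀ V ∈ 𝓖, ∃ z ∈ W, f z ∈ V := by
  have : (comap π (𝓝 x) ⊓ comap f 𝓖).NeBot :=
    (((𝓝 x).basis_sets.comap π).inf (𝓖.basis_sets.comap f)).neBot_iff.2
      fun {p} hp => h p.1 hp.1 p.2 hp.2
  obtain ⟨𝒰, h𝒰⟩ := exists_ultrafilter_le (comap π (𝓝 x) ⊓ comap f 𝓖)
  have h2 : Tendsto f 𝒰 𝓖 := tendsto_iff_comap.2 (h𝒰.trans inf_le_right)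
  obtain ⟨y, hy, hy'⟩ := (isProperMap_iff_ultrafilter.1 hπ).2
    (tendsto_iff_comap.2 (h𝒰.trans inf_le_left))
  exact ⟨y, hy, tendsto_nhds_unique ((hf.tendsto y).mono_left hy') (h2.mono_right h𝓖),
    fun W hW V hV => 𝒰.nonempty_of_mem (inter_mem (hy' hW) (h2 hV))⟩

def bs (π : H →* A) (f : H →* Q) (g : A →* A') (U : Set A) (V : Set Q) : Set A' :=
  {a | ∃ u ∈ U, ∃ y, f y ∈ V ∧ a = g (u * π y)}

@[reducible] def gfb (π : H →* A) (f : H →* Q) (g : A →* A') : GroupFilterBasis A' where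
  sets := {S | ∃ U ∈ 𝓝 (1 : A), ∃ V ∈ 𝓝 (1 : Q), S = bs π f g U V}
  nonempty := ⟨_, univ, univ_mem, univ, univ_mem, rfl⟩
  inter_sets := by
    rintro _ _ ⟨U, hU, V, hV, rfl⟩ ⟨U', hU', V', hV', rfl⟩
    refine ⟨_, ⟨_, inter_mem hU hU', _, inter_mem hV hV', rfl⟩, ?_⟩
    rintro _ ⟨u, hu, y, hy, rfl⟩
    exact ⟨⟨u, hu.1, y, hy.1, rfl⟩, u, hu.2, y, hy.2, rfl⟩
  one' := by
    rintro _ ⟨U, hU, V, hV, rfl⟩
    exact ⟨1, mem_of_mem_nhds hU, 1, by simpa using mem_of_mem_nhds hV, by simp⟩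
  mul' := by
    rintro _ ⟨U, hU, V, hV, rfl⟩
    obtain ⟨U', hU', h1⟩ := exists_nhds_one_split hU
    obtain ⟨V', hV', h2⟩ := exists_nhds_one_split hV
    refine ⟨_, ⟨U', hU', V', hV', rfl⟩, ?_⟩
    rintro _ ⟨_, ⟨u, hu, y, hy, rfl⟩, _, ⟨u', hu', y', hy', rfl⟩, rfl⟩
    exact ⟨u * u', h1 u hu u' hu', y * y', by rw [map_mul]; exact h2 _ hy _ hy', by
      simp only [map_mul]; exact mul_mul_mul_comm _ _ _ _⟩
  inv' := by
    rintro _ ⟨U, hU, V, hV, rfl⟩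
    refine ⟨_, ⟨U⁻¹, inv_mem_nhds_one _ hU, V⁻¹, inv_mem_nhds_one _ hV, rfl⟩, ?_⟩
    rintro _ ⟨u, hu, y, hy, rfl⟩
    exact ⟨u⁻¹, hu, y⁻¹, by rw [map_inv]; exact hy, by simp [mul_comm]⟩
  conj' := fun x U hU => ⟨U, hU, fun y hy => by simpa using hy⟩

theorem key [T2Space Q] [t : TopologicalSpace A'] [IsTopologicalGroup A'] (π : H →* A)
    (hπ : IsProperMap π) (f : H →* Q) (hf : Continuous f) (hfs : Function.Surjective f)
    (g : A →* A') (hg : IsOpenQuotientMap g) (hk : ∀ x, g x = 1 ↔ ∃ y, f y = 1 ∧ π y = x)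
    (hA : IsMinimal A') : IsOpenQuotientMap f := by
  have adj : ∀ u y, g u = g (π y) → ∃ z, π z = u ∧ f z = f y := fun u y h => by
    obtain ⟨n, hn, e⟩ := (hk (u * (π y)⁻¹)).1 (by simp [h])
    exact ⟨n * y, by simp [e], by simp [hn]⟩
  have hB := (gfb π f g).nhds_one_hasBasis
  have e := hA.2 (gfb π f g).topology (gfb π f g).isTopologicalGroup (by
    refine @IsTopologicalGroup.t2Space_of_one_sep _ (gfb π f g).topology _ _ fun a ha => ?_
    by_contra! hc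
    obtain ⟨x, rfl⟩ := hg.surjective a
    obtain ⟨y, h1, h2, -⟩ := clus π hπ f hf _ le_rfl x fun U hU V hV => by
      have hU' : (fun u => u⁻¹ * x) ⁻¹' U ∈ 𝓝 (1 : A) :=
        (by fun_prop : Continuous fun u : A => u⁻¹ * x).continuousAt.preimage_mem_nhds (by simpa)
      obtain ⟨u, hu, y, hy, e⟩ := hc _ (hB.mem_of_mem ⟨_, hU', V, hV, rfl⟩)
      obtain ⟨z, hz, hz'⟩ := adj (u⁻¹ * x) y (by simp [e])
      exact ⟨z, hz ▸ hu, hz' ▸ hy⟩
    exact ha ((hk x).2 ⟨y, h2, h1⟩)) (by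
    refine continuous_id_iff_le.1 (@continuous_of_continuousAt_one A' t _ _ A' _ _
      (gfb π f g).topology (gfb π f g).isTopologicalGroup.toContinuousMul _ _ (MonoidHom.id A') ?_)
    refine (hB.tendsto_right_iff).2 ?_
    rintro _ ⟨U, hU, V, hV, rfl⟩
    refine mem_of_superset (map_one g ▸ hg.isOpenMap.image_mem_nhds hU) ?_
    rintro _ ⟨u, hu, rfl⟩
    exact ⟨u, hu, 1, by simpa using mem_of_mem_nhds hV, by simp⟩)
  rw [e] at hB
  refine ⟨hfs, hf, IsTopologicalGroup.isOpenMap_iff_nhds_one.2 fun S hS => ?_⟩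
  by_contra hc
  obtain ⟨y, -, h2, h3⟩ := clus π hπ f hf (𝓝 1 ⊓ 𝓟 Sᶜ) inf_le_left 1 fun U hU V hV => by
    obtain ⟨_, ⟨U', hU', V', hV', rfl⟩, hs⟩ :=
      hB.mem_iff.1 (map_one g ▸ hg.isOpenMap.image_mem_nhds hU)
    have : (𝓝 (1 : Q) ⊓ 𝓟 Sᶜ).NeBot := notMem_iff_inf_principal_compl.1 hc
    obtain ⟨q, hq, hq'⟩ := this.nonempty_of_mem (inter_mem hV (mem_inf_of_left hV'))
    obtain ⟨y, rfl⟩ := hfs q
    obtain ⟨u, hu, e⟩ := hs ⟨1, mem_of_mem_nhds hU', y, hq', rfl⟩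
    obtain ⟨z, hz, hz'⟩ := adj u y (by simpa using e)
    exact ⟨z, hz ▸ hu, hz' ▸ hq⟩
  have hW : (fun z => z * y⁻¹) ⁻¹' (f ⁻¹' S) ∈ 𝓝 y :=
    (by fun_prop : Continuous fun z : H => z * y⁻¹).continuousAt.preimage_mem_nhds (by simpa)
  obtain ⟨z, hz, hz'⟩ := h3 _ hW Sᶜ (mem_inf_of_right (mem_principal_self _))
  exact hz' (by simpa [h2] using hz)

variable {K : Type*} [Group K] [TopologicalSpace K] [IsTopologicalGroup K] [CompactSpace K]
  [T2Space K]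

omit [IsTopologicalGroup A] [IsTopologicalGroup K] [T2Space K] in
lemma prop (H : Subgroup (A × K)) (hH : IsClosed (H : Set (A × K))) :
    IsProperMap ((MonoidHom.fst A K).comp H.subtype) :=
  isProperMap_fst_of_compactSpace.comp hH.isProperMap_subtypeVal

theorem main1 (hA : IsMinimal A) (H : Subgroup (A × K)) (hH : IsClosed (H : Set (A × K))) :
    IsMinimal H := by
  have := hA.1
  refine ⟨inferInstance, fun s h1 h2 h3 => ?_⟩
  have := @key A A H H _ _ _ _ _ instTopologicalSpaceSubtype _ _ s h1 h2 _ _ _ (prop H hH)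
    (MonoidHom.id H)
    (continuous_id_iff_le.2 h3) Function.surjective_id (MonoidHom.id A) IsOpenQuotientMap.id
    (fun x => ⟨fun h => ⟨1, rfl, by simpa using h.symm⟩, by rintro ⟨y, rfl, rfl⟩; simp⟩) hA
  have h4 := @IsOpenQuotientMap.isOpenMap _ _ instTopologicalSpaceSubtype s _ this
  exact le_antisymm (fun U hU => by simpa using h4 U hU) h3

omit [T2Space K] in
theorem main2 (hA : IsTotallyMinimal A) (H : Subgroup (A × K)) (hH : IsClosed (H : Set (A × K))) :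
    IsTotallyMinimal H := by
  intro N _ hN
  refine ⟨inferInstance, fun s h1 h2 h3 => ?_⟩
  set M := N.map ((MonoidHom.fst A K).comp H.subtype)
  have hM : IsClosed (M : Set A) := (prop H hH).isClosedMap _ hN
  have hc : @Continuous _ _ _ s (QuotientGroup.mk' N) :=
    continuous_le_rng h3 QuotientGroup.continuous_mk
  have := @key A (A ⧸ M) H (H ⧸ N) _ _ _ _ _ _ _ _ s h1 h2 _ _ _ (prop H hH) (QuotientGroup.mk' N)
    hc (QuotientGroup.mk'_surjective N) (QuotientGroup.mk' M) QuotientGroup.isOpenQuotientMap_mk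
    (fun x => by simp only [QuotientGroup.mk'_apply, QuotientGroup.eq_one_iff]; rfl) (hA M hM)
  exact (@IsOpenQuotientMap.isQuotientMap _ _ _ s _ this).eq_coinduced

end Pool.Agent.H21.MinG
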