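import Mathlib

namespace Pool.Agent.H21.Mix

open MeasureTheory ProbabilityTheory Set
open scoped ENNReal NNReal unitInterval Pointwise

theorem symm {Ω : Type} [MeasurableSpace Ω] (P : Measure Ω) [IsProbabilityMeasure P]
    {ι : Type} [Fintype ι] (n : ℕ) (hn : Fintype.card ι = n) (hn0 : 0 < n) (X : ι → Ω → ℝ)
    (hX : ∀ i, Measurable (X i)) (μ : Measure ℝ) (hsum : ∑ i, P.map (X i) = (n : ℝ≥0∞) • μ)
    (c : ℝ) (hc : ∀ᵐ ω ∂P, ∑ i, X i ω = c) :
    ∃ ν : Measure (Fin n → ℝ), IsProbabilityMeasure ν ∧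
      (∀ i : Fin n, ν.map (fun x => x i) = μ) ∧ ∃ c : ℝ, ∀ᵐ x ∂ν, ∑ i, x i = c := by
  obtain ⟨k, rfl⟩ := Nat.exists_eq_succ_of_ne_zero hn0.ne'
  have e : Fin (k + 1) ≃ ι := (Fintype.equivFinOfCardEq hn).symm
  have hm : ∀ j : Fin (k + 1), Measurable fun ω (i : Fin (k + 1)) => X (e (i + j)) ω :=
    fun j => measurable_pi_lambda _ fun i => hX _
  have h0 : ((k.succ : ℕ) : ℝ≥0∞) ≠ 0 := by simp
  have h1 : ((k.succ : ℕ) : ℝ≥0∞) ≠ ∞ := by simp
  refine ⟨((k.succ : ℕ) : ℝ≥0∞)⁻¹ • ∑ j : Fin (k + 1), P.map fun ω i => X (e (i + j)) ω,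
    ⟨?_⟩, fun i => ?_, c, ?_⟩
  · rw [Measure.smul_apply, Measure.finset_sum_apply]
    have : ∀ j : Fin (k + 1), (P.map fun ω (i : Fin (k + 1)) => X (e (i + j)) ω) univ = 1 := by
      intro j
      rw [Measure.map_apply (hm j) MeasurableSet.univ]; simp
    simp only [this, Finset.sum_const, Finset.card_univ, Fintype.card_fin, nsmul_eq_mul, mul_one,
      smul_eq_mul]
    exact ENNReal.inv_mul_cancel h0 h1
  · rw [Measure.map_smul, Measure.map_finset_sum' (measurable_pi_apply i).aemeasurable]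
    have : ∀ j : Fin (k + 1), (P.map fun ω (i : Fin (k + 1)) => X (e (i + j)) ω).map
        (fun x => x i) = P.map (X (((Equiv.addLeft i).trans e) j)) := by
      intro j
      rw [Measure.map_map (measurable_pi_apply i) (hm j)]; rfl
    simp only [this]
    rw [Equiv.sum_comp ((Equiv.addLeft i).trans e) (fun t => P.map (X t)), hsum, smul_smul,
      ENNReal.inv_mul_cancel h0 h1, one_smul]
  · refine Measure.ae_smul_measure ?_ _
    rw [ae_finsetSum_measure_iff]
    intro j _
    rw [ae_map_iff (hm j).aemeasurable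
      (measurableSet_eq_fun (Finset.measurable_sum _ fun i _ => measurable_pi_apply i)
        measurable_const)]
    filter_upwards [hc] with ω hω
    rw [← hω]
    exact Equiv.sum_comp ((Equiv.addRight j).trans e) (fun t => X t ω)

noncomputable def lam : Measure ℝ := volume.restrict (Ico 0 1)

instance : IsProbabilityMeasure lam := ⟨by simp [lam]⟩

theorem lam_ae : ∀ᵐ v ∂lam, v ∈ Ico (0 : ℝ) 1 := ae_restrict_mem measurableSet_Ico

theorem lam_shift (t : ℝ) : lam.map (fun v => v + t) = volume.restrict (Ico t (t + 1)) := by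
  have h := (measurePreserving_add_right (volume : Measure ℝ) t).restrict_preimage
    (s := Ico t (t + 1)) measurableSet_Ico
  have e : (fun v : ℝ => v + t) ⁻¹' Ico t (t + 1) = Ico 0 1 := by
    ext v; simp
  rw [e] at h
  exact h.map_eq

theorem lam_sum (r : ℕ) :
    ∑ i ∈ Finset.range r, lam.map (fun v : ℝ => v + (i : ℝ)) = volume.restrict (Ico 0 (r : ℝ)) := by
  induction r with
  | zero => simp
  | succ r ih =>
    rw [Finset.sum_range_succ, ih, lam_shift, ← Measure.restrict_union _ measurableSet_Ico,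
      Ico_union_Ico_eq_Ico (Nat.cast_nonneg r) (by linarith)]
    · push_cast; rfl
    · exact Set.disjoint_left.2 fun x h1 h2 => absurd h1.2 (not_lt.2 h2.1)

theorem lam_fract (s : ℝ) : lam.map (fun v => Int.fract (v + s)) = lam := by
  have hm : Measurable (Int.fract : ℝ → ℝ) := measurable_fract
  rw [show (fun v : ℝ => Int.fract (v + s)) = Int.fract ∘ fun v => v + s from rfl,
    ← Measure.map_map hm (measurable_add_const s), lam_shift]
  ext A hA
  have h1 : volume (Int.fract ⁻¹' A ∩ Ioc s (s + 1)) = volume (Int.fract ⁻¹' A ∩ Ioc (0 : ℝ) (0 + 1)) := by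
    refine (isAddFundamentalDomain_Ioc one_pos s volume).measure_set_eq
      (isAddFundamentalDomain_Ioc one_pos 0 volume) (hm hA) ?_
    rintro ⟨g, z, rfl⟩
    ext x
    simp only [mem_preimage]
    have : Int.fract ((⟨z • (1 : ℝ), z, rfl⟩ : AddSubgroup.zmultiples (1 : ℝ)) +ᵥ x) =
        Int.fract x := by
      show Int.fract (z • (1 : ℝ) + x) = _
      rw [zsmul_one, Int.fract_intCast_add]
    rw [this]
  rw [Measure.map_apply hm hA, Measure.restrict_congr_set Ico_ae_eq_Ioc,
    Measure.restrict_apply (hm hA), h1, zero_add, ← Measure.restrict_apply (hm hA),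
    ← Measure.restrict_congr_set Ico_ae_eq_Ioc, Measure.restrict_apply (hm hA), lam,
    Measure.restrict_apply hA]
  congr 1
  ext x
  simp only [mem_inter_iff, mem_preimage, and_congr_left_iff]
  intro hx
  rw [Int.fract_eq_self.2 hx]

theorem quantile (R : Measure ℝ) (a b : ℝ) (hab : a ≤ b) (hR : R (Icc a b)ᶜ = 0) (r : ℝ)
    (hr : R univ = ENNReal.ofReal r) :
    ∃ Q : ℝ → ℝ, Monotone Q ∧ (∀ t, Q t ∈ Icc a b) ∧ (volume.restrict (Ico 0 r)).map Q = R := by
  haveI : IsFiniteMeasure R := ⟨by rw [hr]; exact ENNReal.ofReal_lt_top⟩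
  let S : ℝ → Set ℝ := fun t => {x | x = b ∨ (a ≤ x ∧ ENNReal.ofReal t ≤ R (Iic x))}
  have hne : ∀ t, b ∈ S t := fun t => Or.inl rfl
  have hlb : ∀ t, a ∈ lowerBounds (S t) := by
    rintro t x (rfl | h)
    · exact hab
    · exact h.1
  have hmono : Monotone fun t => sInf (S t) := by
    intro s t hst
    refine csInf_le_csInf ⟨a, hlb s⟩ ⟨b, hne t⟩ ?_
    rintro x (rfl | h)
    · exact hne s
    · exact Or.inr ⟨h.1, (ENNReal.ofReal_le_ofReal hst).trans h.2⟩
  have hb : R (Iic b) = R univ := by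
    refine measure_congr ?_
    rw [ae_eq_univ]
    exact measure_mono_null (compl_subset_compl.2 Icc_subset_Iic_self) hR
  have key : ∀ t x, 0 < t → t ≤ r → (sInf (S t) ≤ x ↔ ENNReal.ofReal t ≤ R (Iic x)) := by
    intro t x ht htr
    constructor
    · intro h
      have e : Iic x = ⋂ n : ℕ, Iic (x + 1 / ((n : ℝ) + 1)) := by
        ext y
        simp only [mem_Iic, mem_iInter]
        constructor
        · intro hy n
          have : (0 : ℝ) < 1 / ((n : ℝ) + 1) := by positivity
          linarith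
        · intro hy
          by_contra hxy
          obtain ⟨n, hn⟩ := exists_nat_one_div_lt (sub_pos.2 (not_le.1 hxy))
          linarith [hy n]
      rw [e, Antitone.measure_iInter]
      · refine le_iInf fun n => ?_
        have : (0 : ℝ) < 1 / ((n : ℝ) + 1) := by positivity
        obtain ⟨z, hz, hzx⟩ := exists_lt_of_csInf_lt ⟨b, hne t⟩
          (show sInf (S t) < x + 1 / ((n : ℝ) + 1) by linarith)
        refine le_trans ?_ (measure_mono (Iic_subset_Iic.2 hzx.le))
        rcases hz with rfl | hz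
        · rw [hb, hr]; exact ENNReal.ofReal_le_ofReal htr
        · exact hz.2
      · intro m n hmn
        refine Iic_subset_Iic.2 ?_
        have : (m : ℝ) ≤ n := by exact_mod_cast hmn
        gcongr
      · exact fun n => measurableSet_Iic.nullMeasurableSet
      · exact ⟨0, measure_ne_top _ _⟩
    · intro h
      refine csInf_le ⟨a, hlb t⟩ (Or.inr ⟨?_, h⟩)
      by_contra hx
      have : R (Iic x) = 0 := measure_mono_null (t := (Icc a b)ᶜ)
        (fun y hy (hy' : y ∈ Icc a b) => hx (hy'.1.trans hy)) hR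
      rw [this] at h
      exact absurd (ENNReal.ofReal_pos.2 ht) (not_lt.2 h)
  refine ⟨fun t => sInf (S t), hmono,
    fun t => ⟨le_csInf ⟨b, hne t⟩ (hlb t), csInf_le ⟨a, hlb t⟩ (hne t)⟩, ?_⟩
  symm
  refine Measure.ext_of_Iic _ _ fun x => ?_
  rw [Measure.map_apply hmono.measurable measurableSet_Iic,
    Measure.restrict_congr_set Ico_ae_eq_Ioc,
    Measure.restrict_apply (hmono.measurable measurableSet_Iic)]
  have hx : R (Iic x) ≤ ENNReal.ofReal r := hr ▸ measure_mono (subset_univ _)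
  have e : (fun t => sInf (S t)) ⁻¹' Iic x ∩ Ioc 0 r = Ioc 0 (R (Iic x)).toReal := by
    ext t
    simp only [mem_inter_iff, mem_preimage, mem_Iic, mem_Ioc]
    constructor
    · rintro ⟨h1, h2, h3⟩
      exact ⟨h2, (ENNReal.ofReal_le_iff_le_toReal (measure_ne_top _ _)).1 ((key t x h2 h3).1 h1)⟩
    · rintro ⟨h1, h2⟩
      have h3 := (ENNReal.ofReal_le_iff_le_toReal (measure_ne_top R (Iic x))).2 h2
      have h4 : t ≤ r := by
        by_contra h
        have := h3.trans hx
        rw [ENNReal.ofReal_le_ofReal_iff'] at this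
        rcases this with h' | h' <;> linarith
      exact ⟨(key t x h1 h4).2 h3, h1, h4⟩
  rw [e]
  simp

theorem flex (μ : Measure ℝ) [IsProbabilityMeasure μ] (hac : μ ≪ volume) :
    ∃ (y0 h : ℝ) (C : ℝ≥0∞) (ψ : Bool → ℝ × I → ℝ), 0 < h ∧ C ≠ ∞ ∧ (∀ b, Measurable (ψ b)) ∧
      (∀ b t A, MeasurableSet A → volume ((fun w => ψ b (t, w)) ⁻¹' A) ≤ C * μ A) ∧
      ∀ t ∈ Icc (0 : ℝ) 2, ∀ w, ψ true (t, w) + ψ false (t, w) = y0 + h * t := by
  -- a set on which the density is bounded below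
  obtain ⟨A, δ, hA, hA0, hA1, hδ, hδA⟩ : ∃ (A : Set ℝ) (δ : ℝ≥0∞), MeasurableSet A ∧
      volume A ≠ 0 ∧ volume A ≠ ∞ ∧ δ ≠ ∞ ∧ ∀ s, MeasurableSet s → volume (s ∩ A) ≤ δ * μ s := by
    have hf := Measure.measurable_rnDeriv μ volume
    have hle : ∀ (k : ℕ) (s : Set ℝ), MeasurableSet s →
        volume (s ∩ {x | ((k : ℝ≥0∞) + 1)⁻¹ ≤ μ.rnDeriv volume x}) ≤ ((k : ℝ≥0∞) + 1) * μ s := by
      intro k s hs
      have hm : MeasurableSet (s ∩ {x | ((k : ℝ≥0∞) + 1)⁻¹ ≤ μ.rnDeriv volume x}) :=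
        hs.inter (measurableSet_le measurable_const hf)
      have h1 : ((k : ℝ≥0∞) + 1)⁻¹ * volume (s ∩ {x | ((k : ℝ≥0∞) + 1)⁻¹ ≤ μ.rnDeriv volume x}) ≤
          μ s := by
        rw [← setLIntegral_const]
        refine (setLIntegral_mono' hm fun x hx => hx.2).trans ?_
        rw [Measure.setLIntegral_rnDeriv hac]
        exact measure_mono inter_subset_left
      have h2 := mul_le_mul_right h1 ((k : ℝ≥0∞) + 1)
      rwa [← mul_assoc, ENNReal.mul_inv_cancel (by simp) (by simp), one_mul] at h2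
    have hex : ∃ k : ℕ, volume {x | ((k : ℝ≥0∞) + 1)⁻¹ ≤ μ.rnDeriv volume x} ≠ 0 := by
      by_contra hcon
      push Not at hcon
      have h0 : volume {x | μ.rnDeriv volume x ≠ 0} = 0 := by
        refine measure_mono_null (fun x hx => ?_) (measure_iUnion_null hcon)
        obtain ⟨k, hk⟩ := ENNReal.exists_inv_nat_lt hx
        exact mem_iUnion.2 ⟨k, le_trans (ENNReal.inv_le_inv.2 le_self_add) hk.le⟩
      have h1 : μ.rnDeriv volume =ᵐ[volume] 0 := h0
      have h2 := Measure.lintegral_rnDeriv hac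
      rw [lintegral_congr_ae h1] at h2
      simp at h2
    obtain ⟨k, hk⟩ := hex
    refine ⟨_, (k : ℝ≥0∞) + 1, measurableSet_le measurable_const hf, hk, ?_, by simp, hle k⟩
    have := hle k univ MeasurableSet.univ
    rw [univ_inter] at this
    exact ne_top_of_le_ne_top (by simp) this
  have hB : MeasurableSet {p : ℝ × ℝ | p.2 ∈ A ∧ p.1 - p.2 ∈ A} :=
    (measurable_snd hA).inter ((measurable_fst.sub measurable_snd) hA)
  -- a point where the self convolution is positive
  obtain ⟨y1, hy1⟩ : ∃ y1 : ℝ, volume {x | x ∈ A ∧ y1 - x ∈ A} ≠ 0 := by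
    by_contra hcon
    push Not at hcon
    have h1 := Measure.prod_apply (μ := (volume : Measure ℝ)) (ν := (volume : Measure ℝ)) hB
    have h2 := Measure.prod_apply_symm (μ := (volume : Measure ℝ)) (ν := (volume : Measure ℝ)) hB
    have h3 : ∀ x : ℝ, volume ((fun y => (y, x)) ⁻¹' {p : ℝ × ℝ | p.2 ∈ A ∧ p.1 - p.2 ∈ A}) =
        A.indicator (fun _ => volume A) x := by
      intro x
      by_cases hx : x ∈ A
      · rw [indicator_of_mem hx, ← measure_preimage_add_right volume (-x) A]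
        congr 1
        ext y; simp [hx, sub_eq_add_neg]
      · rw [indicator_of_notMem hx]
        simp [hx]
    simp only [h3, lintegral_indicator hA, setLIntegral_const] at h2
    have h4 : ∀ y : ℝ, volume (Prod.mk y ⁻¹' {p : ℝ × ℝ | p.2 ∈ A ∧ p.1 - p.2 ∈ A}) = 0 :=
      fun y => hcon y
    simp only [h4, lintegral_zero] at h1
    rw [h1] at h2
    exact mul_ne_zero hA0 hA0 h2.symm
  have hBy : ∀ y : ℝ, MeasurableSet {x | x ∈ A ∧ y - x ∈ A} := fun y =>
    measurable_prodMk_left (x := y) hB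
  obtain ⟨K, hKB, hK, hK0⟩ := (hBy y1).exists_lt_isCompact (pos_iff_ne_zero.2 hy1)
  have hK2 : volume K / 2 ≠ 0 := by simp [hK0.ne']
  have hK3 : volume K / 2 ≠ ∞ := ENNReal.div_ne_top hK.measure_lt_top.ne (by simp)
  obtain ⟨ε, hε, hεK⟩ := Metric.eventually_nhds_iff.1
    (eventually_nhds_zero_measure_vadd_sdiff_lt (μ := (volume : Measure ℝ)) hK hK.isClosed hK2)
  have hlow : ∀ t : ℝ, 0 ≤ t → t < ε → volume K / 2 ≤ volume {x | x ∈ A ∧ y1 + t - x ∈ A} := by
    intro t ht0 ht
    have h1 := hεK (y := t) (by rw [Real.dist_eq, sub_zero, abs_of_nonneg ht0]; exact ht)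
    have h2 := measure_inter_add_sdiff (μ := volume) (t +ᵥ K) hK.isClosed.measurableSet
    rw [measure_vadd] at h2
    have h3 : (t +ᵥ K) ∩ K ⊆ {x | x ∈ A ∧ y1 + t - x ∈ A} := by
      rintro x ⟨⟨z, hz, rfl⟩, hx⟩
      refine ⟨(hKB hx).1, ?_⟩
      have := (hKB hz).2
      show y1 + t - (t + z) ∈ A
      rwa [show y1 + t - (t + z) = y1 - z by ring]
    refine le_trans ?_ (measure_mono h3)
    by_contra h4
    have := ENNReal.add_lt_add (not_le.1 h4) h1
    rw [h2, ENNReal.add_halves] at this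
    exact lt_irrefl _ this
  -- the kernel
  let p : ℝ → ℝ := fun t => y1 + ε / 4 * max 0 (min t 2)
  have hp : Measurable p := by fun_prop
  let B : ℝ → Set ℝ := fun t => {x | x ∈ A ∧ p t - x ∈ A}
  have hBl : ∀ t, volume K / 2 ≤ volume (B t) := by
    intro t
    have h1 : 0 ≤ max 0 (min t 2) := le_max_left _ _
    have h2 : max 0 (min t 2) ≤ 2 := max_le (by norm_num) (min_le_right _ _)
    exact hlow _ (by positivity) (by nlinarith)
  have hBu : ∀ t, volume (B t) ≠ ∞ := fun t =>
    ne_top_of_le_ne_top hA1 (measure_mono fun x hx => hx.1)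
  have hB0 : ∀ t, volume (B t) ≠ 0 := fun t h => hK2 (le_zero_iff.1 (h ▸ hBl t))
  have hB' : MeasurableSet {q : ℝ × ℝ | q.2 ∈ B q.1} :=
    (measurable_snd hA).inter (((hp.comp measurable_fst).sub measurable_snd) hA)
  let κ : Kernel ℝ ℝ := ⟨fun t => (volume (B t))⁻¹ • volume.restrict (B t), by
    refine Measure.measurable_of_measurable_coe _ fun s hs => ?_
    simp only [Measure.smul_apply, Measure.restrict_apply hs, smul_eq_mul]
    exact (measurable_measure_prodMk_left hB').inv.mul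
      (measurable_measure_prodMk_left ((measurable_snd hs).inter hB'))⟩
  have hκ : ∀ t s, MeasurableSet s → κ t s ≤ (volume K / 2)⁻¹ * volume (s ∩ B t) := by
    intro t s hs
    show ((volume (B t))⁻¹ • volume.restrict (B t)) s ≤ _
    rw [Measure.smul_apply, Measure.restrict_apply hs, smul_eq_mul]
    exact mul_le_mul_left (ENNReal.inv_le_inv.2 (hBl t)) _
  haveI : IsMarkovKernel κ := ⟨fun t => ⟨by
    show ((volume (B t))⁻¹ • volume.restrict (B t)) univ = 1
    rw [Measure.smul_apply, Measure.restrict_apply MeasurableSet.univ, univ_inter, smul_eq_mul,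
      ENNReal.inv_mul_cancel (hB0 t) (hBu t)]⟩⟩
  obtain ⟨f, hf, hfκ⟩ := κ.exists_measurable_map_eq_unitInterval
  have hft : ∀ t, Measurable (f t) := fun t => hf.comp measurable_prodMk_left
  refine ⟨y1, ε / 4, (volume K / 2)⁻¹ * δ,
    fun b q => if b then f q.1 q.2 else p q.1 - f q.1 q.2, by positivity,
    ENNReal.mul_ne_top (ENNReal.inv_ne_top.2 hK2) hδ, ?_, ?_, ?_⟩
  · rintro (_ | _)
    · exact (hp.comp measurable_fst).sub hf
    · exact hf
  · rintro (_ | _) t s hs
    · have hs' : MeasurableSet ((fun x => p t - x) ⁻¹' s) := (measurable_const.sub measurable_id) hs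
      have h1 := hκ t _ hs'
      rw [← hfκ, Measure.map_apply (hft t) hs'] at h1
      refine h1.trans ?_
      rw [mul_assoc]
      refine mul_le_mul_right (le_trans ?_ (hδA s hs)) _
      rw [← (Measure.measurePreserving_sub_left volume (p t)).measure_preimage
        (hs.inter hA).nullMeasurableSet]
      exact measure_mono fun x hx => ⟨hx.1, hx.2.2⟩
    · have h1 := hκ t _ hs
      rw [← hfκ, Measure.map_apply (hft t) hs] at h1
      refine h1.trans ?_
      rw [mul_assoc]
      refine mul_le_mul_right (le_trans ?_ (hδA s hs)) _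
      exact measure_mono fun x hx => ⟨hx.1, hx.2.1⟩
  · intro t ht w
    simp only [if_true, Bool.false_eq_true, if_false, add_sub_cancel, p]
    rw [min_eq_left ht.2, max_eq_right ht.1]

end Pool.Agent.H21.Mix
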