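import Pool.Agent.H21.Mix

namespace Pool.Agent.H21.Mix

open MeasureTheory ProbabilityTheory Set
open scoped ENNReal NNReal unitInterval

theorem map_prod_apply {α β : Type} [MeasurableSpace α] [MeasurableSpace β] (P : Measure α)
    (ν : Measure β) [SFinite ν] (g : α × β → ℝ) (hg : Measurable g) (A : Set ℝ)
    (hA : MeasurableSet A) :
    (P.prod ν).map g A = ∫⁻ x, ν ((fun w => g (x, w)) ⁻¹' A) ∂P := by
  rw [Measure.map_apply hg hA, Measure.prod_apply (hg hA)]; rfl

theorem map_fst' {α β : Type} [MeasurableSpace α] [MeasurableSpace β] (P : Measure α)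
    [SFinite P] (ν : Measure β) [IsProbabilityMeasure ν] (g : α → ℝ) (hg : Measurable g) :
    (P.prod ν).map (fun x => g x.1) = P.map g := by
  rw [show (fun x : α × β => g x.1) = g ∘ Prod.fst from rfl, ← Measure.map_map hg measurable_fst,
    Measure.map_fst_prod, measure_univ, one_smul]

theorem map_snd' {α β : Type} [MeasurableSpace α] [MeasurableSpace β] (P : Measure α)
    [IsProbabilityMeasure P] (ν : Measure β) [SFinite ν] (g : β → ℝ) (hg : Measurable g) :
    (P.prod ν).map (fun x => g x.2) = ν.map g := by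
  rw [show (fun x : α × β => g x.2) = g ∘ Prod.snd from rfl, ← Measure.map_map hg measurable_snd,
    Measure.map_snd_prod, measure_univ, one_smul]

theorem switch {α : Type} [MeasurableSpace α] (P : Measure α) [IsProbabilityMeasure P] (L : ℕ)
    (k : α → ℕ) (hk : Measurable k) (hkL : ∀ᵐ x ∂P, k x ≤ 2 * L) (hE : ∫⁻ x, k x ∂P = L) :
    ∑ j : Fin (2 * L), (P.prod lam).map (fun x => x.2 + if (j : ℕ) < k x.1 then (1 : ℝ) else 0) =
      (L : ℝ≥0∞) • lam + (L : ℝ≥0∞) • lam.map (fun v => v + 1) := by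
  have hkm : Measurable fun x => (k x : ℝ≥0∞) := measurable_from_top.comp hk
  have hkm' : Measurable fun x => ((2 * L - k x : ℕ) : ℝ≥0∞) :=
    (measurable_from_top (f := fun m : ℕ => ((2 * L - m : ℕ) : ℝ≥0∞))).comp hk
  have hE' : ∫⁻ x, ((2 * L - k x : ℕ) : ℝ≥0∞) ∂P = L := by
    have h1 : ∫⁻ x, ((k x : ℝ≥0∞) + ((2 * L - k x : ℕ) : ℝ≥0∞)) ∂P = L + L := by
      rw [lintegral_congr_ae (g := fun _ => (L : ℝ≥0∞) + L)]
      · simp
      · filter_upwards [hkL] with x hx
        rw [← Nat.cast_add, ← Nat.cast_add, Nat.add_sub_cancel' hx, two_mul]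
    rw [lintegral_add_left hkm, hE] at h1
    exact (ENNReal.add_right_inj (by simp)).1 h1
  ext A hA
  have hm : ∀ j : Fin (2 * L), Measurable fun x : α × ℝ =>
      x.2 + if (j : ℕ) < k x.1 then (1 : ℝ) else 0 := fun j =>
    measurable_snd.add ((measurable_from_top (f := fun m : ℕ =>
      if (j : ℕ) < m then (1 : ℝ) else 0)).comp (hk.comp measurable_fst))
  rw [Measure.finset_sum_apply]
  have h1 : ∀ j : Fin (2 * L),
      (P.prod lam).map (fun x => x.2 + if (j : ℕ) < k x.1 then (1 : ℝ) else 0) A =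
        ∫⁻ x, (if (j : ℕ) < k x then lam.map (fun v => v + 1) A else lam A) ∂P := by
    intro j
    rw [map_prod_apply _ _ _ (hm j) A hA]
    refine lintegral_congr fun x => ?_
    split_ifs with h
    · rw [Measure.map_apply (measurable_add_const 1) hA]
    · simp
  simp only [h1]
  have h2 : ∀ j : Fin (2 * L), Measurable fun x =>
      if (j : ℕ) < k x then lam.map (fun v => v + 1) A else lam A := fun j =>
    (measurable_from_top (f := fun m : ℕ =>
      if (j : ℕ) < m then lam.map (fun v => v + 1) A else lam A)).comp hk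
  rw [← lintegral_finset_sum _ fun j _ => h2 j,
    lintegral_congr_ae (g := fun x => ((2 * L - k x : ℕ) : ℝ≥0∞) * lam A +
      (k x : ℝ≥0∞) * lam.map (fun v => v + 1) A),
    lintegral_add_left (hkm'.mul_const _), lintegral_mul_const _ hkm', lintegral_mul_const _ hkm,
    hE, hE']
  · simp
  · filter_upwards [hkL] with x hx
    show ∑ j : Fin (2 * L), (if (j : ℕ) < k x then lam.map (fun v => v + 1) A else lam A) = _
    rw [Fin.sum_univ_eq_sum_range (fun j => if j < k x then lam.map (fun v => v + 1) A else lam A),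
      ← Finset.sum_range_add_sum_Ico _ hx, add_comm]
    congr 1
    · rw [Finset.sum_congr rfl fun j hj => if_neg (not_lt.2 (Finset.mem_Ico.1 hj).1)]
      simp
    · rw [Finset.sum_congr rfl fun j hj => if_pos (Finset.mem_range.1 hj)]
      simp

noncomputable def Lam (L : ℕ) : Measure ℝ :=
  (lam + lam.map (fun v => 1 - v)) + (((L : ℝ≥0∞) • lam + (L : ℝ≥0∞) • lam.map (fun v => v + 1)) +
    ((2 * L : ℕ) : ℝ≥0∞) • lam.map (fun v => 1 - v))

theorem Lam_univ (L : ℕ) : Lam L univ = ((2 + 4 * L : ℕ) : ℝ≥0∞) := by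
  have h1 : lam.map (fun v => 1 - v) univ = 1 := by
    rw [Measure.map_apply (by fun_prop) MeasurableSet.univ]; simp
  have h2 : lam.map (fun v => v + 1) univ = 1 := by
    rw [Measure.map_apply (by fun_prop) MeasurableSet.univ]; simp
  simp only [Lam, Measure.add_apply, Measure.smul_apply, h1, h2, measure_univ, smul_eq_mul, mul_one]
  push_cast
  ring

abbrev τ (L : ℕ) := Bool ⊕ (Fin (2 * L) × Bool)

/-- absorb a bounded centred variable -/
theorem absorb (L : ℕ) (s : ℝ → ℝ) (hs : Measurable s) (hsL : ∀ᵐ u ∂lam, |s u| ≤ L)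
    (hs0 : ∫ u, s u ∂lam = 0) :
    ∃ T : τ L → (ℝ × ℝ) × ℝ → ℝ, (∀ t, Measurable (T t)) ∧
      ∑ t, ((lam.prod lam).prod lam).map (T t) = Lam L ∧
      ∀ᵐ x ∂((lam.prod lam).prod lam), (∀ t, T t x ∈ Icc (0 : ℝ) 2) ∧
        ∑ t, T t x = s x.1.1 + 1 + 3 * L := by
  let k : ℝ × ℝ → ℕ := fun p => (⌊p.2 + s p.1⌋ + L).toNat
  have hg : Measurable fun p : ℝ × ℝ => p.2 + s p.1 := measurable_snd.add (hs.comp measurable_fst)
  have hk : Measurable k :=
    (measurable_from_top (f := fun z : ℤ => (z + L).toNat)).comp hg.floor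
  have hae : ∀ᵐ p ∂(lam.prod lam), |s p.1| ≤ L ∧ p.2 ∈ Ico (0 : ℝ) 1 :=
    ((Measure.quasiMeasurePreserving_fst (μ := lam) (ν := lam)).ae hsL).and
      ((Measure.quasiMeasurePreserving_snd (μ := lam) (ν := lam)).ae lam_ae)
  have hk1 : ∀ p : ℝ × ℝ, |s p.1| ≤ L ∧ p.2 ∈ Ico (0 : ℝ) 1 →
      k p ≤ 2 * L ∧ (k p : ℝ) = p.2 + s p.1 - Int.fract (p.2 + s p.1) + L := by
    rintro p ⟨h1, h2, h3⟩
    obtain ⟨h4, h5⟩ := abs_le.1 h1
    have a1 : -(L : ℤ) ≤ ⌊p.2 + s p.1⌋ := Int.le_floor.2 (by push_cast; linarith)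
    have a2 : ⌊p.2 + s p.1⌋ < L + 1 := Int.floor_lt.2 (by push_cast; linarith)
    have a3 : ((k p : ℕ) : ℤ) = ⌊p.2 + s p.1⌋ + L := Int.toNat_of_nonneg (by omega)
    refine ⟨by omega, ?_⟩
    rw [Int.self_sub_fract]
    exact_mod_cast a3
  have hZ : (lam.prod lam).map (fun p : ℝ × ℝ => Int.fract (p.2 + s p.1)) = lam := by
    ext A hA
    rw [map_prod_apply _ _ _ hg.fract A hA, lintegral_congr (g := fun _ => lam A)]
    · simp
    · intro u
      conv_rhs => rw [← lam_fract (s u)]
      rw [Measure.map_apply (measurable_add_const _).fract hA]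
  have hV : (lam.prod lam).map (fun p : ℝ × ℝ => p.2) = lam := by
    rw [map_snd' lam lam (fun v => v) measurable_id, Measure.map_id']
  have hE : ∫⁻ p, k p ∂(lam.prod lam) = L := by
    have i1 : Integrable (fun p : ℝ × ℝ => p.2) (lam.prod lam) :=
      Integrable.of_bound measurable_snd.aestronglyMeasurable 1
        (hae.mono fun p hp => by rw [Real.norm_eq_abs, abs_of_nonneg hp.2.1]; exact hp.2.2.le)
    have i2 : Integrable (fun p : ℝ × ℝ => s p.1) (lam.prod lam) :=
      Integrable.of_bound (hs.comp measurable_fst).aestronglyMeasurable L (hae.mono fun p hp => hp.1)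
    have i3 : Integrable (fun p : ℝ × ℝ => Int.fract (p.2 + s p.1)) (lam.prod lam) :=
      Integrable.of_bound hg.fract.aestronglyMeasurable 1 (ae_of_all _ fun p => by
        rw [Real.norm_eq_abs, abs_of_nonneg (Int.fract_nonneg _)]; exact (Int.fract_lt_one _).le)
    have e1 : ∫ p, p.2 ∂(lam.prod lam) = ∫ v, v ∂lam := by
      conv_rhs => rw [← hV]
      rw [integral_map measurable_snd.aemeasurable measurable_id'.aestronglyMeasurable]
    have e3 : ∫ p, Int.fract (p.2 + s p.1) ∂(lam.prod lam) = ∫ v, v ∂lam := by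
      conv_rhs => rw [← hZ]
      rw [integral_map hg.fract.aemeasurable measurable_id'.aestronglyMeasurable]
    have e2 : ∫ p, s p.1 ∂(lam.prod lam) = 0 := by
      rw [integral_fun_fst, hs0]; simp
    have hc : (fun p => (k p : ℝ)) =ᵐ[lam.prod lam]
        fun p => p.2 + s p.1 - Int.fract (p.2 + s p.1) + L := hae.mono fun p hp => (hk1 p hp).2
    have e4 : ∫ p, (k p : ℝ) ∂(lam.prod lam) = L := by
      have j1 : Integrable (fun p : ℝ × ℝ => p.2 + s p.1) (lam.prod lam) := i1.add i2
      have j2 : Integrable (fun p : ℝ × ℝ => p.2 + s p.1 - Int.fract (p.2 + s p.1))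
        (lam.prod lam) := j1.sub i3
      rw [integral_congr_ae hc, integral_add j2 (integrable_const _),
        integral_sub j1 i3, integral_add i1 i2, e1, e2, e3]
      simp
    have e5 := ofReal_integral_eq_lintegral_ofReal (μ := lam.prod lam) (f := fun p => (k p : ℝ))
      ((((i1.add i2).sub i3).add (integrable_const (L : ℝ))).congr hc.symm)
      (ae_of_all _ fun p => Nat.cast_nonneg _)
    rw [e4] at e5
    simpa using e5.symm
  refine ⟨fun t x => match t with
    | Sum.inl true => Int.fract (x.1.2 + s x.1.1)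
    | Sum.inl false => 1 - x.1.2
    | Sum.inr (j, true) => x.2 + if (j : ℕ) < k x.1 then (1 : ℝ) else 0
    | Sum.inr (_, false) => 1 - x.2, ?_, ?_, ?_⟩
  · rintro ((_ | _) | ⟨j, _ | _⟩)
    · fun_prop
    · exact hg.fract.comp measurable_fst
    · fun_prop
    · exact measurable_snd.add ((measurable_from_top (f := fun m : ℕ =>
        if (j : ℕ) < m then (1 : ℝ) else 0)).comp (hk.comp measurable_fst))
  · simp only [Fintype.sum_sum_type, Fintype.sum_prod_type, Fintype.sum_bool,
      Finset.sum_add_distrib]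
    rw [switch (lam.prod lam) L k hk (hae.mono fun p hp => (hk1 p hp).1) hE,
      map_fst' (lam.prod lam) lam _ hg.fract, hZ,
      map_fst' (lam.prod lam) lam (fun p : ℝ × ℝ => 1 - p.2) (by fun_prop),
      map_snd' lam lam (fun v => 1 - v) (by fun_prop),
      map_snd' (lam.prod lam) lam (fun v => 1 - v) (by fun_prop)]
    simp only [Lam, Finset.sum_const, Finset.card_univ, Fintype.card_fin, Nat.cast_smul_eq_nsmul]
  · filter_upwards [(Measure.quasiMeasurePreserving_fst (μ := lam.prod lam) (ν := lam)).ae hae,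
      (Measure.quasiMeasurePreserving_snd (μ := lam.prod lam) (ν := lam)).ae lam_ae] with x h1 h2
    obtain ⟨h3, h4⟩ := hk1 x.1 h1
    constructor
    · rintro ((_ | _) | ⟨j, _ | _⟩)
      · exact ⟨by linarith [h1.2.2], by linarith [h1.2.1]⟩
      · exact ⟨Int.fract_nonneg _, by linarith [Int.fract_lt_one (x.1.2 + s x.1.1)]⟩
      · exact ⟨by linarith [h2.2], by linarith [h2.1]⟩
      · show _ + _ ∈ _
        split_ifs
        · exact ⟨by linarith [h2.1], by linarith [h2.2]⟩
        · exact ⟨by linarith [h2.1], by linarith [h2.2]⟩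
    · simp only [Fintype.sum_sum_type, Fintype.sum_prod_type, Fintype.sum_bool,
        Finset.sum_add_distrib, Finset.sum_const, Finset.card_univ, Fintype.card_fin, nsmul_eq_mul]
      rw [Fin.sum_univ_eq_sum_range (fun j => if j < k x.1 then (1 : ℝ) else 0),
        ← Finset.sum_range_add_sum_Ico _ h3,
        Finset.sum_congr rfl fun j hj => if_neg (not_lt.2 (Finset.mem_Ico.1 hj).1),
        Finset.sum_congr rfl fun j hj => if_pos (Finset.mem_range.1 hj)]
      simp only [Finset.sum_const, Finset.card_range, nsmul_eq_mul, mul_one, mul_zero, add_zero, h4]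
      push_cast
      ring

end Pool.Agent.H21.Mix
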