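import Mathlib

namespace Pool.Agent.H21.NEss

/-- The ring with basis `1, r, x = r r, y = x r`, where `r x = 0` and all products of
total degree above three vanish. -/
@[ext] structure R : Type where
  a : ℤ
  b : ℤ
  c : ℤ
  d : ℤ

instance : Zero R := ⟨⟨0, 0, 0, 0⟩⟩
instance : One R := ⟨⟨1, 0, 0, 0⟩⟩
instance : Add R := ⟨fun u v => ⟨u.a + v.a, u.b + v.b, u.c + v.c, u.d + v.d⟩⟩
instance : Neg R := ⟨fun u => ⟨-u.a, -u.b, -u.c, -u.d⟩⟩
instance : Mul R := ⟨fun u v => ⟨u.a * v.a, u.a * v.b + u.b * v.a,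
  u.a * v.c + u.c * v.a + u.b * v.b, u.a * v.d + u.d * v.a + u.c * v.b⟩⟩

@[simp] theorem zero_a : (0 : R).a = 0 := rfl
@[simp] theorem zero_b : (0 : R).b = 0 := rfl
@[simp] theorem zero_c : (0 : R).c = 0 := rfl
@[simp] theorem zero_d : (0 : R).d = 0 := rfl
@[simp] theorem one_a : (1 : R).a = 1 := rfl
@[simp] theorem one_b : (1 : R).b = 0 := rfl
@[simp] theorem one_c : (1 : R).c = 0 := rfl
@[simp] theorem one_d : (1 : R).d = 0 := rfl
@[simp] theorem add_a (u v : R) : (u + v).a = u.a + v.a := rfl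
@[simp] theorem add_b (u v : R) : (u + v).b = u.b + v.b := rfl
@[simp] theorem add_c (u v : R) : (u + v).c = u.c + v.c := rfl
@[simp] theorem add_d (u v : R) : (u + v).d = u.d + v.d := rfl
@[simp] theorem neg_a (u : R) : (-u).a = -u.a := rfl
@[simp] theorem neg_b (u : R) : (-u).b = -u.b := rfl
@[simp] theorem neg_c (u : R) : (-u).c = -u.c := rfl
@[simp] theorem neg_d (u : R) : (-u).d = -u.d := rfl
@[simp] theorem mul_a (u v : R) : (u * v).a = u.a * v.a := rfl
@[simp] theorem mul_b (u v : R) : (u * v).b = u.a * v.b + u.b * v.a := rfl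
@[simp] theorem mul_c (u v : R) : (u * v).c = u.a * v.c + u.c * v.a + u.b * v.b := rfl
@[simp] theorem mul_d (u v : R) : (u * v).d = u.a * v.d + u.d * v.a + u.c * v.b := rfl

instance : AddCommGroup R :=
  { AddGroup.ofLeftAxioms (G := R) (by intro u v w; ext <;> simp [add_assoc])
      (by intro u; ext <;> simp) (by intro u; ext <;> simp) with
    add_comm := by intro u v; ext <;> simp [add_comm] }

instance inst : NonAssocRing R :=
  { (inferInstance : AddCommGroup R) with
    mul := (· * ·)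
    one := 1
    left_distrib := by intro u v w; ext <;> simp <;> ring
    right_distrib := by intro u v w; ext <;> simp <;> ring
    zero_mul := by intro u; ext <;> simp
    mul_zero := by intro u; ext <;> simp
    one_mul := by intro u; ext <;> simp
    mul_one := by intro u; ext <;> simp }

theorem nuc_iff (x : R) :
    (∀ a b : R, (x * a) * b = x * (a * b) ∧ (a * x) * b = a * (x * b) ∧
      (a * b) * x = a * (b * x)) ↔ x.b = 0 := by
  constructor
  · intro h
    have := congrArg R.d (h ⟨0, 1, 0, 0⟩ ⟨0, 1, 0, 0⟩).1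
    simpa using this
  · intro h a b
    refine ⟨?_, ?_, ?_⟩ <;> ext <;> simp [h] <;> ring

end Pool.Agent.H21.NEss
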