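import Mathlib
import Pool.Agent.H21.FREx

namespace Pool.Agent.H21.PST

open Matrix Finset
open scoped ComplexOrder

theorem fixstep {V : Type} [Fintype V] [DecidableEq V] (G : SimpleGraph V) [DecidableRel G.Adj]
    (τ θ : ℝ) (hθ : Complex.exp (Complex.I * τ * θ) = 1) (x : V → ℂ)
    (h : NormedSpace.exp ((Complex.I * τ) • G.adjMatrix ℂ) *ᵥ (G.adjMatrix ℂ *ᵥ x - (θ : ℂ) • x) =
      G.adjMatrix ℂ *ᵥ x - (θ : ℂ) • x) :
    NormedSpace.exp ((Complex.I * τ) • G.adjMatrix ℂ) *ᵥ x = x := by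
  set U := NormedSpace.exp ((Complex.I * τ) • G.adjMatrix ℂ) with hU
  have hc : G.adjMatrix ℂ * U = U * G.adjMatrix ℂ :=
    ((Commute.refl _).smul_right _).exp_right
  have hs : U.IsSymm := (G.isSymm_adjMatrix.smul _).exp
  set y := U *ᵥ x - x with hy
  have h1 : G.adjMatrix ℂ *ᵥ y = (θ : ℂ) • y := by
    rw [mulVec_sub, mulVec_smul, mulVec_mulVec, ← hc, ← mulVec_mulVec] at h
    rw [hy, mulVec_sub]
    linear_combination (norm := module) h
  have h2 : G.adjMatrix ℂ *ᵥ star y = (θ : ℂ) • star y := by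
    ext v
    have := congrArg star (congrFun h1 v)
    simpa [SimpleGraph.adjMatrix_mulVec_apply] using this
  have h3 : U *ᵥ star y = star y := by
    rw [hU, FREx.exp_mulVec _ _ (Complex.I * τ * θ) (by rw [smul_mulVec, h2, smul_smul]), hθ,
      one_smul]
  have h4 : star y ⬝ᵥ y = 0 := by
    conv_lhs => rw [hy]
    rw [dotProduct_sub, dotProduct_mulVec, ← mulVec_transpose, hs.eq, ← hy, h3, sub_self]
  exact sub_eq_zero.mp (dotProduct_star_self_eq_zero.mp h4)

theorem diam_ge {V : Type} [Finite V] (G : SimpleGraph V) (hG : G.Connected) (lev : V → ℕ)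
    (h : ∀ u v, G.Adj u v → lev v ≤ lev u + 1) (u v : V) : lev v ≤ lev u + G.diam := by
  haveI := hG.nonempty
  obtain ⟨p, hp⟩ := hG.exists_walk_length_eq_dist u v
  have : lev v ≤ lev u + p.length := by
    clear hp
    induction p with
    | nil => simp
    | cons a p ih => have := h _ _ a; simp only [SimpleGraph.Walk.length_cons]; omega
  have h2 := G.dist_le_diam (SimpleGraph.connected_iff_ediam_ne_top.mp hG) (u := u) (v := v)
  omega

variable (m : ℕ)

abbrev J := Fin (2 * m) ⊕ Fin 5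
def s (q : ℕ) : ℕ := if q % 2 = 0 then 2 * (m + 1 - q / 2) else 4 * (q / 2 + 1)
def sz : J m → ℕ := Sum.elim (fun q => s m q) ![1, 1, 4 * m + 3, 2, 2]
def lev : J m → ℕ := Sum.elim (fun q => q) fun x => 2 * m + ![0, 0, 1, 1, 1] x
def col : J m → ℕ := Sum.elim (fun _ => 0) ![1, 2, 0, 1, 2]
def H (s t : J m) : Prop :=
  (lev m s + 1 = lev m t ∨ lev m t + 1 = lev m s) ∧ col m s * col m t ≠ 2
instance : DecidableRel (H m) := fun _ _ => by unfold H; infer_instance
abbrev V := Σ t : J m, Fin (sz m t)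

def G : SimpleGraph (V m) where
  Adj u v := H m u.1 v.1
  symm := ⟨fun _ _ h => ⟨h.1.symm, by rw [mul_comm]; exact h.2⟩⟩
  loopless := ⟨fun _ h => by rcases h.1 with h | h <;> omega⟩
instance : DecidableRel (G m).Adj := fun u v => inferInstanceAs (Decidable (H m u.1 v.1))

variable {R : Type} [Field R] [CharZero R]

theorem mv (f : J m → R) : (G m).adjMatrix R *ᵥ (fun v => f v.1) =
    fun v => ∑ t, if H m v.1 t then (sz m t : R) * f t else 0 := by
  ext v
  simp only [mulVec, dotProduct, SimpleGraph.adjMatrix_apply, Fintype.sum_sigma, G]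
  refine sum_congr rfl fun t _ => ?_
  split_ifs <;> simp

def sc (q : ℕ) : R := if q % 2 = 0 then 2 * (m + 1 - (q / 2 : ℕ)) else 4 * ((q / 2 : ℕ) + 1)
def Q (w : ℕ → R) (l : ℕ) : R :=
  (if l = 0 then 0 else sc m (l - 1) * w (l - 1)) + sc m (l + 1) * w (l + 1)
def vec (w : ℕ → R) (v : V m) : R :=
  w (lev m v.1) * Sum.elim (fun _ => 1) ![1, 1, 1, 1 / 2, 1 / 2] v.1

theorem nb (N l : ℕ) (W : ℕ → R) :
    (∑ q : Fin N, if l + 1 = q ∨ q + 1 = l then W q else 0) =
      (if l ≠ 0 ∧ l ≤ N then W (l - 1) else 0) + if l + 1 < N then W (l + 1) else 0 := by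
  rw [Fin.sum_univ_eq_sum_range (fun q => if l + 1 = q ∨ q + 1 = l then W q else 0)]
  have : ∀ q, (if l + 1 = q ∨ q + 1 = l then W q else 0) =
      (if l - 1 = q then (if l = 0 then 0 else W q) else 0) + if l + 1 = q then W q else 0 := by
    intro q; split_ifs <;> first | omega | simp
  simp only [this, sum_add_distrib, sum_ite_eq, mem_range]
  congr 1
  split_ifs <;> first | omega | rfl

theorem key (w : ℕ → R) : (G m).adjMatrix R *ᵥ vec m w = vec m (Q m w) := by
  have hc : ∀ q : Fin (2 * m), ((s m q : ℕ) : R) = sc m q := fun q => by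
    have : q / 2 ≤ m + 1 := by omega
    unfold s sc; split_ifs <;> push_cast [this] <;> rfl
  have e0 : (sc m (2 * m) : R) = 2 := by simp [sc]
  have e1 : (sc m (2 * m + 1) : R) = 4 * (m + 1) := by
    have : (2 * m + 1) / 2 = m := by omega
    simp [sc, this]
  have e2 : (sc m (2 * m + 1 + 1) : R) = 0 := by
    have : (2 * m + 1 + 1) / 2 = m + 1 := by omega
    have h : (2 * m + 1 + 1) % 2 = 0 := by omega
    simp [sc, this, h]
  unfold vec
  rw [mv m fun t => w (lev m t) * Sum.elim (fun _ => 1) ![1, 1, 1, 1 / 2, 1 / 2] t]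
  ext ⟨t, i⟩
  rw [Fintype.sum_sum_type]
  have := nb (2 * m) (lev m t) fun q => sc m q * w q
  simp only [H, sz, col, Sum.elim_inl, hc, mul_zero, mul_one, OfNat.zero_ne_ofNat, ne_eq,
    not_false_eq_true, and_true, show ∀ q, lev m (.inl q) = q from fun _ => rfl] at this ⊢
  rw [this, Q]
  rcases t with q | x
  · have hq := q.2
    simp only [lev, Sum.elim_inl, Fin.sum_univ_five]
    by_cases h : q + 1 = 2 * m
    · simp [h, e0, hq.le, show ¬ 2 * m + 1 + 1 = q by omega]; ring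
    · simp [h, hq.le, show (q : ℕ) + 1 < 2 * m by omega, show ¬ (q : ℕ) = 2 * m by omega,
        show ¬ 2 * m + 1 = q by omega, show ¬ 2 * m + 1 + 1 = q by omega]
  · fin_cases x <;> simp [lev, Fin.sum_univ_five, e0, e1, e2] <;> ring

def u (d l : ℕ) : ℂ := if l % 2 = 0 then (-1) ^ (l / 2) * (l / 2).choose d else 0
def v (d l : ℕ) : ℂ := if l % 2 = 0 then 0 else (-1) ^ (l / 2) * (l / 2).choose d

theorem Qv (d : ℕ) : Q m (v d) = (4 * (d + 1) : ℂ) • u d := by
  ext l
  obtain ⟨i, rfl | rfl⟩ := Nat.even_or_odd' l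
  · have h1 : (2 * i + 1) / 2 = i := by omega
    rcases i with _ | i
    · rcases d with _ | d <;> simp [Q, u, v, sc]
    have h2 : (2 * (i + 1) - 1) / 2 = i := by omega
    have h3 : (2 * (i + 1) - 1) % 2 = 1 := by omega
    have c1 : ((i + 1 + 1 : ℕ) : ℂ) * (i + 1).choose d = (i + 1 + 1).choose (d + 1) * (d + 1 : ℕ) := by
      exact_mod_cast Nat.add_one_mul_choose_eq (i + 1) d
    have c2 : ((i + 1 : ℕ) : ℂ) * i.choose d = (i + 1).choose (d + 1) * (d + 1 : ℕ) := by
      exact_mod_cast Nat.add_one_mul_choose_eq i d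
    rw [Nat.choose_succ_succ' (i + 1)] at c1
    simp [Q, u, v, sc, h1, h2, h3]
    push_cast at c1 c2
    linear_combination 4 * (-1) ^ (i + 1) * (c1 - c2)
  · have h3 : (2 * i + 1 + 1) % 2 = 0 := by omega
    simp [Q, u, v, h3]

theorem Qu (d : ℕ) : Q m (u d) = (2 * (d + 1) : ℂ) • v d -
    (2 * (m + 1 - d) : ℂ) • if d = 0 then 0 else v (d - 1) := by
  ext l
  obtain ⟨i, rfl | rfl⟩ := Nat.even_or_odd' l
  · have h3 : i = 0 ∨ (2 * i - 1) % 2 = 1 := by omega
    rcases h3 with rfl | h3 <;> rcases d with _ | d <;> simp [Q, u, v, *]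
  · have h1 : (2 * i + 1) / 2 = i := by omega
    have h2 : (2 * i + 1 + 1) / 2 = i + 1 := by omega
    have h3 : (2 * i + 1 + 1) % 2 = 0 := by omega
    rcases d with _ | d
    · simp [Q, u, v, sc, h1, h2, h3]; ring
    have c2 : ((i + 1 : ℕ) : ℂ) * i.choose d = (i + 1).choose (d + 1) * (d + 1 : ℕ) := by
      exact_mod_cast Nat.add_one_mul_choose_eq i d
    rw [Nat.choose_succ_succ' i] at c2
    simp [Q, u, v, sc, h1, h2, h3, Nat.choose_succ_succ' i]
    push_cast at c2
    linear_combination 2 * (-1) ^ i * c2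

noncomputable def U : Matrix (V m) (V m) ℂ :=
  NormedSpace.exp ((Complex.I * (Real.pi / √2 : ℝ)) • (G m).adjMatrix ℂ)

theorem ex (k : ℤ) : Complex.exp (Complex.I * (Real.pi / √2 : ℝ) * (k * √2 : ℝ)) = (-1) ^ k := by
  have h0 : ((√2 : ℝ) : ℂ) ≠ 0 := by exact_mod_cast (by positivity : (√2 : ℝ) ≠ 0)
  rw [← Complex.exp_pi_mul_I, ← Complex.exp_int_mul]
  congr 1; push_cast; field_simp

theorem vec_lin (a b : ℂ) (x y : ℕ → ℂ) : vec m (a • x - b • y) = a • vec m x - b • vec m y := by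
  ext; simp [vec]; ring

theorem fix (d : ℕ) : U m *ᵥ vec m (u d) = vec m (u d) ∧ U m *ᵥ vec m (v d) = vec m (v d) := by
  have h2 : ((√2 : ℝ) : ℂ) ^ 2 = 2 := by exact_mod_cast Real.sq_sqrt (show (0 : ℝ) ≤ 2 by norm_num)
  have h0 : ((√2 : ℝ) : ℂ) ≠ 0 := by exact_mod_cast (by positivity : (√2 : ℝ) ≠ 0)
  have step : ∀ d, U m *ᵥ vec m (if d = 0 then 0 else v (d - 1)) =
      vec m (if d = 0 then 0 else v (d - 1)) →
      U m *ᵥ vec m (u d) = vec m (u d) ∧ U m *ᵥ vec m (v d) = vec m (v d) := by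
    intro d h
    have hv : vec m (Q m (v d)) = (4 * (d + 1) : ℂ) • vec m (u d) := by
      rw [Qv]; ext; simp [vec]; ring
    have f : ∀ e : ℤ, e ^ 2 = 1 → U m *ᵥ (((√2 : ℝ) : ℂ) • vec m (u d) + (e : ℂ) • vec m (v d)) =
        ((√2 : ℝ) : ℂ) • vec m (u d) + (e : ℂ) • vec m (v d) := fun e he => by
      have he' : (e : ℂ) ^ 2 = 1 := by exact_mod_cast he
      apply fixstep (G m) _ ((2 * (e * (d + 1)) : ℤ) * √2) (by rw [ex, _root_.zpow_mul]; simp)
      have : (G m).adjMatrix ℂ *ᵥ (((√2 : ℝ) : ℂ) • vec m (u d) + (e : ℂ) • vec m (v d)) -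
          ((((2 * (e * (d + 1)) : ℤ) * √2 : ℝ)) : ℂ) •
            (((√2 : ℝ) : ℂ) • vec m (u d) + (e : ℂ) • vec m (v d)) =
          (-(√2 : ℝ) * (2 * (m + 1 - d)) : ℂ) • vec m (if d = 0 then 0 else v (d - 1)) := by
        rw [mulVec_add, mulVec_smul, mulVec_smul, key, key, hv, Qu, vec_lin]
        push_cast
        match_scalars
        · linear_combination -2 * (d + 1) * (√2 : ℝ) * he'
        · ring
        · linear_combination -2 * e * (d + 1) * h2
      rw [this, mulVec_smul]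
      exact congrArg _ h
    have f1 := f 1 (by norm_num)
    have f2 := f (-1) (by norm_num)
    rw [mulVec_add, mulVec_smul, mulVec_smul] at f1 f2
    push_cast at f1 f2
    refine ⟨smul_right_injective _ (mul_ne_zero two_ne_zero h0) ?_,
      smul_right_injective _ (two_ne_zero (α := ℂ)) ?_⟩ <;> simp only
    · linear_combination (norm := module) f1 + f2
    · linear_combination (norm := module) f1 - f2
  induction d with
  | zero => exact step 0 (by rw [if_pos rfl, show vec m (0 : ℕ → ℂ) = 0 by ext; simp [vec]]; simp)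
  | succ d ih => exact step _ (by simpa using ih.2)

def a : V m := ⟨.inr 0, (0 : Fin 1)⟩
def b : V m := ⟨.inr 1, (0 : Fin 1)⟩

theorem single_a (x : V m) : (Pi.single (a m) 1 : V m → ℂ) x = if x.1 = .inr 0 then 1 else 0 := by
  rw [Pi.single_apply]
  obtain ⟨t, i⟩ := x
  by_cases h : t = .inr 0
  · subst h; rw [if_pos rfl, if_pos]; exact congrArg _ (Subsingleton.elim (α := Fin 1) _ _)
  · rw [if_neg h, if_neg fun e => h (congrArg Sigma.fst e)]

theorem single_b (x : V m) : (Pi.single (b m) 1 : V m → ℂ) x = if x.1 = .inr 1 then 1 else 0 := by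
  rw [Pi.single_apply]
  obtain ⟨t, i⟩ := x
  by_cases h : t = .inr 1
  · subst h; rw [if_pos rfl, if_pos]; exact congrArg _ (Subsingleton.elim (α := Fin 1) _ _)
  · rw [if_neg h, if_neg fun e => h (congrArg Sigma.fst e)]

theorem pst : U m *ᵥ Pi.single (a m) 1 = Pi.single (b m) 1 := by
  have h2 : ((√2 : ℝ) : ℂ) ^ 2 = 2 := by exact_mod_cast Real.sq_sqrt (show (0 : ℝ) ≤ 2 by norm_num)
  have h0 : ((√2 : ℝ) : ℂ) ≠ 0 := by exact_mod_cast (by positivity : (√2 : ℝ) ≠ 0)
  have e1 : vec m (u m) = (-1 : ℂ) ^ m • (Pi.single (a m) 1 + Pi.single (b m) 1) := by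
    ext ⟨t, i⟩
    simp only [Pi.smul_apply, Pi.add_apply, single_a, single_b, vec, u]
    rcases t with q | x
    · have : ((q : ℕ) / 2).choose m = 0 := Nat.choose_eq_zero_of_lt (by omega)
      simp [lev, this]
    · fin_cases x <;> simp [lev]
  have p1 := (fix m m).1
  rw [e1, mulVec_smul, mulVec_add] at p1
  have p1 := smul_right_injective _ (pow_ne_zero m (neg_ne_zero.mpr one_ne_zero)) p1
  let y : ℤ → V m → ℂ := fun e x => Sum.elim (fun _ => 0) ![(√2 : ℝ), -(√2 : ℝ), 0, e, -e] x.1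
  have f : ∀ e : ℤ, e = 1 ∨ e = -1 → U m *ᵥ y e = -y e := fun e he => by
    have : (G m).adjMatrix ℂ *ᵥ y e = ((e * √2 : ℝ) : ℂ) • y e := by
      rw [mv (R := ℂ) m (Sum.elim (fun _ => 0) ![(√2 : ℝ), -(√2 : ℝ), 0, e, -e])]
      ext ⟨t, i⟩
      rcases t with q | x
      · have hq := q.2
        simp [y, Fin.sum_univ_five, H, lev, col, sz, show ¬ (q : ℕ) = 2 * m by omega,
          show ¬ 2 * m + 1 = q by omega, show ¬ 2 * m + 1 + 1 = q by omega]
        split_ifs <;> simp
      · rcases he with rfl | rfl <;> fin_cases x <;>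
          simp [y, Fin.sum_univ_five, H, lev, col, sz, ← sq, h2]
    rw [U, FREx.exp_mulVec _ _ (Complex.I * (Real.pi / √2 : ℝ) * (e * √2 : ℝ))
      (by rw [smul_mulVec, this, smul_smul]), ex]
    rcases he with rfl | rfl <;> simp
  have e2 : y 1 + y (-1) = (2 * (√2 : ℝ) : ℂ) • (Pi.single (a m) 1 - Pi.single (b m) 1) := by
    ext ⟨t, i⟩
    simp only [Pi.smul_apply, Pi.add_apply, Pi.sub_apply, single_a, single_b, y]
    rcases t with q | x
    · simp
    · fin_cases x <;> simp <;> ring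
  have p2 : U m *ᵥ (y 1 + y (-1)) = -(y 1 + y (-1)) := by
    rw [mulVec_add, f 1 (.inl rfl), f (-1) (.inr rfl), neg_add]
  rw [e2, mulVec_smul, ← smul_neg, mulVec_sub] at p2
  have p2 := smul_right_injective _ (mul_ne_zero two_ne_zero h0) p2
  apply smul_right_injective _ (two_ne_zero (α := ℂ))
  simp only at p1 p2 ⊢
  linear_combination (norm := module) p1 + p2

theorem conn : (G m).Connected := by
  have c : (G m).Adj (a m) ⟨.inr 2, ⟨0, Nat.succ_pos _⟩⟩ := by simp [G, H, a, lev, col]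
  have c' : (G m).Adj ⟨.inr 2, ⟨0, Nat.succ_pos _⟩⟩ (b m) := by simp [G, H, b, lev, col]
  have hb := c.reachable.trans c'.reachable
  have h : ∀ k, ∀ x : V m, 2 * m ≤ lev m x.1 + k → (G m).Reachable (a m) x := by
    intro k
    induction k with
    | zero =>
      rintro ⟨q | x, i⟩ hx
      · exact absurd q.2 (not_lt.mpr hx)
      fin_cases x
      · exact (Subsingleton.elim (α := Fin 1) i 0) ▸ .refl _
      · exact (Subsingleton.elim (α := Fin 1) i 0) ▸ hb
      · exact SimpleGraph.Adj.reachable (by simp [G, H, a, lev, col])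
      · exact SimpleGraph.Adj.reachable (by simp [G, H, a, lev, col])
      · exact hb.trans (SimpleGraph.Adj.reachable (by simp [G, H, b, lev, col]))
    | succ k ih =>
      intro x hx
      by_cases h0 : 2 * m ≤ lev m x.1 + k
      · exact ih x h0
      obtain ⟨q | x, i⟩ := x
      · simp only [lev, Sum.elim_inl] at hx h0
        by_cases h : q + 1 = 2 * m
        · exact SimpleGraph.Adj.reachable (by simp [G, H, a, lev, col, h])
        · refine (ih ⟨.inl ⟨q + 1, by omega⟩, ⟨0, ?_⟩⟩ (by simp [lev]; omega)).trans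
            (SimpleGraph.Adj.reachable (by simp [G, H, lev, col]))
          simp only [sz, s, Sum.elim_inl]; split_ifs <;> omega
      · simp only [lev, Sum.elim_inr] at h0; omega
  exact SimpleGraph.connected_iff_exists_forall_reachable _ |>.mpr
    ⟨a m, fun x => h (2 * m) x (by omega)⟩

theorem card_le : Fintype.card (V m) ≤ 20 * (m + 1) ^ 2 := by
  rw [Fintype.card_sigma]
  refine (sum_le_card_nsmul _ _ (4 * m + 4) fun t _ => ?_).trans (by simp; nlinarith)
  rw [Fintype.card_fin]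
  rcases t with q | x
  · have := q.2
    simp only [sz, s, Sum.elim_inl]; split_ifs <;> omega
  · fin_cases x <;> simp [sz]

theorem card_gt : m < Fintype.card (V m) := by
  rw [Fintype.card_sigma]
  refine lt_of_lt_of_le ?_ (single_le_sum (fun _ _ => Nat.zero_le _) (mem_univ (.inr 2)))
  rw [Fintype.card_fin]; simp [sz]; omega

theorem deg_le (x : V m) : (G m).degree x ≤ 16 * (m + 1) := by
  have hs : ∀ q, q ≤ 2 * m + 2 → (sc m q : ℝ) ≤ 4 * (m + 1) := fun q hq => by
    have h1 : (0 : ℝ) ≤ (q / 2 : ℕ) := by positivity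
    unfold sc; split_ifs
    · linarith [(m.cast_nonneg : (0 : ℝ) ≤ m)]
    · have : ((q / 2 : ℕ) : ℝ) ≤ m := by exact_mod_cast (by omega : q / 2 ≤ m)
      linarith
  have hl : lev m x.1 ≤ 2 * m + 1 := by
    obtain ⟨q | x, i⟩ := x
    · have := q.2; simp only [lev, Sum.elim_inl]; omega
    · fin_cases x <;> simp [lev]
  have hw : ∀ y : V m, (1 : ℝ) / 2 ≤ Sum.elim (fun _ => 1) ![1, 1, 1, 1 / 2, 1 / 2] y.1 ∧
      Sum.elim (fun _ => 1) ![1, 1, 1, 1 / 2, 1 / 2] y.1 ≤ (1 : ℝ) := by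
    rintro ⟨q | x, i⟩
    · norm_num
    · fin_cases x <;> norm_num
  have := congrFun (key m fun _ => (2 : ℝ)) x
  rw [SimpleGraph.adjMatrix_mulVec_apply] at this
  have h1 := card_nsmul_le_sum ((G m).neighborFinset x) (vec m fun _ => (2 : ℝ)) 1 fun y _ => by
    unfold vec; linarith [(hw y).1]
  rw [this, SimpleGraph.card_neighborFinset_eq_degree, nsmul_one] at h1
  have h2 : Q m (fun _ => (2 : ℝ)) (lev m x.1) ≤ 16 * (m + 1) := by
    have := hs (lev m x.1 + 1) (by omega)
    have := hs (lev m x.1 - 1) (by omega)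
    unfold Q; split_ifs <;> linarith [(m.cast_nonneg : (0 : ℝ) ≤ m)]
  have h3 : ((G m).degree x : ℝ) ≤ 16 * (m + 1) := by
    unfold vec at h1
    nlinarith [hw x, (m.cast_nonneg : (0 : ℝ) ≤ m)]
  exact_mod_cast h3

theorem edges_le : (G m).edgeFinset.card ≤ 160 * (m + 1) ^ 3 := by
  have := (G m).sum_degrees_eq_twice_card_edges
  have h := sum_le_card_nsmul univ _ _ fun x _ => deg_le m x
  have h2 := Nat.mul_le_mul_right (16 * (m + 1)) (card_le m)
  rw [card_univ, smul_eq_mul] at h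
  nlinarith

theorem lev_adj (x y : V m) (h : (G m).Adj x y) : lev m y.1 ≤ lev m x.1 + 1 := by
  rcases h.1 with h | h <;> omega

theorem ends : ∃ x y : V m, lev m x.1 = 0 ∧ lev m y.1 = 2 * m + 1 := by
  rcases m with _ | m
  · exact ⟨a 0, ⟨.inr 2, ⟨0, Nat.succ_pos _⟩⟩, rfl, rfl⟩
  · exact ⟨⟨.inl ⟨0, by omega⟩, ⟨0, by simp [sz, s]⟩⟩, ⟨.inr 2, ⟨0, Nat.succ_pos _⟩⟩, rfl, rfl⟩

theorem a_ne_b : a m ≠ b m := fun h => by simpa [a, b] using congrArg Sigma.fst h

end Pool.Agent.H21.PST
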