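import Mathlib

namespace Pool.Agent.H21.PSTDef

open Matrix

/-- `G` admits perfect state transfer between some pair of distinct vertices at some time. -/
def AdmitsPST {V : Type} [Fintype V] [DecidableEq V] (G : SimpleGraph V) [DecidableRel G.Adj] :
    Prop :=
  ∃ (u v : V) (t : ℝ) (γ : ℂ), u ≠ v ∧ ‖γ‖ = 1 ∧
    NormedSpace.exp ((Complex.I * t) • G.adjMatrix ℂ) *ᵥ Pi.single u 1 = γ • Pi.single v 1

/-- The least number of edges of a connected graph on `n` vertices admitting perfect state
transfer (`⊤` if there is none). -/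
noncomputable def minEdges (n : ℕ) : ℕ∞ :=
  sInf {k : ℕ∞ | ∃ (V : Type) (_ : Fintype V) (_ : DecidableEq V) (G : SimpleGraph V)
    (_ : DecidableRel G.Adj), Fintype.card V = n ∧ G.Connected ∧ AdmitsPST G ∧
      k = G.edgeFinset.card}

end Pool.Agent.H21.PSTDef
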