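import Mathlib

set_option autoImplicit false
open Polynomial Finset

namespace Pool.Agent.H21.Peano

/-- Wiener-norm bound for a polynomial -/
def WB (p : ℂ[X]) (B : ℝ) : Prop := ∀ s : Finset ℕ, ∑ i ∈ s, ‖p.coeff i‖ ≤ B

lemma WB.mono {p : ℂ[X]} {B C : ℝ} (h : WB p B) (hBC : B ≤ C) : WB p C :=
  fun s => (h s).trans hBC

lemma WB.add {p q : ℂ[X]} {B C : ℝ} (h : WB p B) (h' : WB q C) : WB (p + q) (B + C) := by
  intro s
  refine le_trans (sum_le_sum fun i _ => ?_) (le_trans (le_of_eq sum_add_distrib)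
    (add_le_add (h s) (h' s)))
  rw [coeff_add]; exact norm_add_le _ _

lemma WB_monomial (n : ℕ) (a : ℂ) : WB (monomial n a) ‖a‖ := by
  intro s
  have : ∀ i ∈ s, ‖(monomial n a).coeff i‖ = if n = i then ‖a‖ else 0 := by
    intro i _; rw [coeff_monomial]; split_ifs <;> simp
  rw [sum_congr rfl this, sum_ite_eq]
  split_ifs <;> simp

lemma WB_sum {ι : Type*} (t : Finset ι) (p : ι → ℂ[X]) (B : ι → ℝ) (h : ∀ i ∈ t, WB (p i) (B i)) :
    WB (∑ i ∈ t, p i) (∑ i ∈ t, B i) := by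
  classical
  induction t using Finset.induction_on with
  | empty => intro s; simp
  | insert a t ha ih =>
    rw [sum_insert ha, sum_insert ha]
    exact (h a (mem_insert_self _ _)).add (ih fun i hi => h i (mem_insert_of_mem hi))

lemma WB.eval_le {p : ℂ[X]} {B : ℝ} (h : WB p B) {z : ℂ} (hz : ‖z‖ ≤ 1) : ‖p.eval z‖ ≤ B := by
  rw [eval_eq_sum_range]
  refine le_trans (norm_sum_le _ _) (le_trans (sum_le_sum fun i _ => ?_) (h _))
  rw [norm_mul, norm_pow]
  exact mul_le_of_le_one_right (norm_nonneg _) (pow_le_one₀ (norm_nonneg _) hz)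

lemma binom1 (m : ℕ) (w : ℂ) :
    w * ∑ j ∈ range m, (m.choose (j + 1) : ℂ) / (j + 2) * w ^ (j + 1)
      = ((1 + w) ^ (m + 1) - 1) / (m + 1) - w := by
  have h : (1 + w) ^ (m + 1) = ∑ j ∈ range (m + 1 + 1), w ^ j * ((m + 1).choose j : ℂ) := by
    rw [add_comm 1 w, add_pow]; simp
  rw [h, sum_range_succ', sum_range_succ', mul_sum]
  have hm : (m + 1 : ℂ) ≠ 0 := by exact_mod_cast Nat.succ_ne_zero m
  have e : ∀ j ∈ range m, w * ((m.choose (j + 1) : ℂ) / (j + 2) * w ^ (j + 1))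
      = w ^ (j + 1 + 1) * ((m + 1).choose (j + 1 + 1) : ℂ) / (m + 1) := by
    intro j _
    have h1 : ((m + 1 : ℕ) : ℂ) * (m.choose (j + 1) : ℂ)
        = ((m + 1).choose (j + 1 + 1) : ℂ) * ((j + 1 + 1 : ℕ) : ℂ) := by
      exact_mod_cast Nat.add_one_mul_choose_eq m (j + 1)
    have hj : (j + 2 : ℂ) ≠ 0 := by exact_mod_cast Nat.succ_ne_zero (j + 1)
    push_cast at h1
    field_simp
    linear_combination (w ^ (j + 1 + 1)) * h1
  rw [sum_congr rfl e, ← sum_div]
  simp
  field_simp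
  ring

lemma binom2 (m : ℕ) : ∑ j ∈ range m, (m.choose (j + 1) : ℝ) / (j + 2) ≤ 2 ^ (m + 1) / (m + 1) := by
  have h := binom1 m 1
  have h2 : ∑ j ∈ range m, (m.choose (j + 1) : ℝ) / (j + 2) = (2 ^ (m + 1) - 1) / (m + 1) - 1 := by
    simp only [one_pow, mul_one, one_mul] at h
    have : (1 + 1 : ℂ) = 2 := by norm_num
    rw [this] at h
    apply Complex.ofReal_injective
    push_cast
    exact h
  rw [h2, sub_div]
  have : (0 : ℝ) ≤ 1 / (m + 1) := by positivity
  linarith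

lemma binom3 (m : ℕ) : ∑ j ∈ range m, (m.choose (j + 1) : ℝ) / ((j + 2) * (j + 3))
    ≤ 2 ^ (m + 2) / ((m + 1) * (m + 2)) := by
  have e : ∀ j ∈ range m, (m.choose (j + 1) : ℝ) / ((j + 2) * (j + 3))
      = ((m + 1).choose (j + 1 + 1) : ℝ) / (((j + 1 : ℕ) : ℝ) + 2) / (m + 1) := by
    intro j _
    have h1 : ((m + 1 : ℕ) : ℝ) * (m.choose (j + 1) : ℝ)
        = ((m + 1).choose (j + 1 + 1) : ℝ) * ((j + 1 + 1 : ℕ) : ℝ) := by
      exact_mod_cast Nat.add_one_mul_choose_eq m (j + 1)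
    push_cast at h1 ⊢
    field_simp
    linear_combination (j + 3 : ℝ) * h1
  rw [sum_congr rfl e, ← sum_div]
  have h := binom2 (m + 1)
  rw [sum_range_succ'] at h
  have h0 : (0 : ℝ) ≤ ((m + 1).choose (0 + 1) : ℝ) / (((0 : ℕ) : ℝ) + 2) := by positivity
  rw [div_le_iff₀ (by positivity)]
  have e2 : (2 : ℝ) ^ (m + 2) / ((m + 1) * (m + 2)) * (m + 1) = 2 ^ (m + 1 + 1) / ((m + 1 : ℕ) + 1) := by
    push_cast; field_simp; ring
  rw [e2]
  linarith

/-- the increment of the primitive -/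
noncomputable def D (g : ℂ[X]) (m N : ℕ) : ℂ[X] :=
  ∑ j ∈ range m, ∑ i ∈ range (g.natDegree + 1),
    monomial (i + (j + 1) * N + 1)
      ((m.choose (j + 1) : ℂ) * g.coeff i / ((i + (j + 1) * N : ℕ) + 1))

lemma prod_expand (g : ℂ[X]) (m N : ℕ) : g * (1 + X ^ N) ^ m = g + ∑ j ∈ range m,
    ∑ i ∈ range (g.natDegree + 1), monomial (i + (j + 1) * N) ((m.choose (j + 1) : ℂ) * g.coeff i) := by
  have h : (1 + X ^ N : ℂ[X]) ^ m = ∑ j ∈ range (m + 1), (X ^ N) ^ j * (m.choose j : ℂ[X]) := by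
    rw [add_comm 1, add_pow]; simp
  rw [h, sum_range_succ', mul_add, add_comm, mul_sum]
  congr 1
  · simp
  · refine sum_congr rfl fun j _ => ?_
    conv_lhs => rw [as_sum_range g, sum_mul]
    refine sum_congr rfl fun i _ => ?_
    rw [← C_mul_X_pow_eq_monomial, ← C_mul_X_pow_eq_monomial, map_mul, map_natCast, ← pow_mul,
      pow_add, mul_comm N]
    ring

lemma D_deriv (g : ℂ[X]) (m N : ℕ) : g + derivative (D g m N) = g * (1 + X ^ N) ^ m := by
  rw [prod_expand, D]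
  congr 1
  rw [derivative_sum]
  refine sum_congr rfl fun j _ => ?_
  rw [derivative_sum]
  refine sum_congr rfl fun i _ => ?_
  rw [derivative_monomial_succ, div_mul_cancel₀]
  exact Nat.cast_add_one_ne_zero _

lemma WB_prod {g : ℂ[X]} {B : ℝ} (h : WB g B) (m N : ℕ) : WB (g * (1 + X ^ N) ^ m) (B * 2 ^ m) := by
  rw [prod_expand]
  refine (h.add (WB_sum _ _ (fun j => (m.choose (j + 1) : ℝ) * B) fun j _ =>
    (WB_sum _ _ _ fun i _ => WB_monomial _ _).mono ?_)).mono (le_of_eq ?_)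
  · simp only [norm_mul, Complex.norm_natCast]
    rw [← mul_sum]
    exact mul_le_mul_of_nonneg_left (h _) (by positivity)
  · have h1 : (∑ j ∈ range (m + 1), (m.choose j : ℝ)) = 2 ^ m := by
      exact_mod_cast Nat.sum_range_choose m
    rw [← h1, sum_range_succ', ← sum_mul]
    simp; ring

lemma WB_D {g : ℂ[X]} {B : ℝ} (h : WB g B) (m : ℕ) {N : ℕ} (hN : 0 < N) :
    WB (D g m N) (2 * (B * 2 ^ (m + 1) / ((m + 1) * N))) := by
  have hB : 0 ≤ B := by simpa using h ∅
  have hN' : (0 : ℝ) < N := by exact_mod_cast hN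
  refine (WB_sum _ _ (fun j => (m.choose (j + 1) : ℝ) / (j + 2) * (2 * B / N)) fun j _ =>
    (WB_sum _ _ _ fun i _ => WB_monomial _ _).mono ?_).mono ?_
  · have e : ∀ i ∈ range (g.natDegree + 1),
        ‖(m.choose (j + 1) : ℂ) * g.coeff i / ((i + (j + 1) * N : ℕ) + 1)‖
          ≤ (m.choose (j + 1) : ℝ) / (j + 2) * (2 / N) * ‖g.coeff i‖ := by
      intro i _
      have e1 : ((i + (j + 1) * N : ℕ) + 1 : ℂ) = ((i + (j + 1) * N + 1 : ℕ) : ℂ) := by push_cast; ring
      rw [e1, norm_div, norm_mul, Complex.norm_natCast, Complex.norm_natCast]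
      have e2 : (1 : ℝ) / ((i + (j + 1) * N + 1 : ℕ) : ℝ) ≤ 1 / (j + 2) * (2 / N) := by
        rw [div_mul_div_comm, div_le_div_iff₀ (by positivity) (by positivity)]
        push_cast
        have : (0 : ℝ) ≤ i := by positivity
        have : (0 : ℝ) ≤ j * N := by positivity
        nlinarith
      have := mul_le_mul_of_nonneg_left e2
        (show 0 ≤ (m.choose (j + 1) : ℝ) * ‖g.coeff i‖ by positivity)
      calc _ = (m.choose (j + 1) : ℝ) * ‖g.coeff i‖ * (1 / ((i + (j + 1) * N + 1 : ℕ) : ℝ)) := by ring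
        _ ≤ _ := this
        _ = _ := by ring
    refine (sum_le_sum e).trans ?_
    rw [← mul_sum]
    refine (mul_le_mul_of_nonneg_left (h _) (by positivity)).trans (le_of_eq ?_)
    ring
  · rw [← sum_mul]
    refine (mul_le_mul_of_nonneg_right (binom2 m) (by positivity)).trans (le_of_eq ?_)
    field_simp

lemma D_approx {g : ℂ[X]} {B : ℝ} (h : WB g B) (m : ℕ) {N : ℕ} (hN : g.natDegree + 1 ≤ N)
    {z : ℂ} (hz : ‖z‖ ≤ 1) :
    ‖(D g m N).eval z - z * g.eval z / N *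
        ∑ j ∈ range m, (m.choose (j + 1) : ℂ) / (j + 2) * (z ^ N) ^ (j + 1)‖
      ≤ 6 / (m + 2) * (B * 2 ^ (m + 1) / ((m + 1) * N)) := by
  have hB : 0 ≤ B := by simpa using h ∅
  have hN' : (0 : ℝ) < N := by exact_mod_cast (lt_of_lt_of_le (Nat.succ_pos _) hN)
  rw [D, eval_finset_sum, mul_sum, ← sum_sub_distrib]
  have key : ∀ j ∈ range m, ‖eval z (∑ i ∈ range (g.natDegree + 1),
      monomial (i + (j + 1) * N + 1)
        ((m.choose (j + 1) : ℂ) * g.coeff i / ((i + (j + 1) * N : ℕ) + 1)))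
      - z * g.eval z / N * ((m.choose (j + 1) : ℂ) / (j + 2) * (z ^ N) ^ (j + 1))‖
      ≤ (m.choose (j + 1) : ℝ) / ((j + 2) * (j + 3)) * (3 * B / N) := by
    intro j _
    rw [eval_finset_sum, eval_eq_sum_range, mul_sum, sum_div, sum_mul, ← sum_sub_distrib]
    have e : ∀ i ∈ range (g.natDegree + 1), ‖eval z (monomial (i + (j + 1) * N + 1)
        ((m.choose (j + 1) : ℂ) * g.coeff i / ((i + (j + 1) * N : ℕ) + 1)))
        - z * (g.coeff i * z ^ i) / N * ((m.choose (j + 1) : ℂ) / (j + 2) * (z ^ N) ^ (j + 1))‖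
        ≤ (m.choose (j + 1) : ℝ) / ((j + 2) * (j + 3)) * (3 / N) * ‖g.coeff i‖ := by
      intro i hi
      have hi' : (i : ℝ) + 1 ≤ N := by
        have : i + 1 ≤ N := le_trans (mem_range.1 hi) hN
        exact_mod_cast this
      have e1 : eval z (monomial (i + (j + 1) * N + 1)
          ((m.choose (j + 1) : ℂ) * g.coeff i / ((i + (j + 1) * N : ℕ) + 1)))
          - z * (g.coeff i * z ^ i) / N * ((m.choose (j + 1) : ℂ) / (j + 2) * (z ^ N) ^ (j + 1))
          = (m.choose (j + 1) : ℂ) * g.coeff i * z ^ (i + (j + 1) * N + 1) *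
            ((1 / (i + (j + 1) * N + 1) - 1 / (N * (j + 2)) : ℝ) : ℂ) := by
        rw [eval_monomial, ← pow_mul, mul_comm N (j + 1)]
        push_cast
        ring_nf
        field_simp
        ring
      have hi0 : (0 : ℝ) ≤ i := by positivity
      have hj0 : (0 : ℝ) ≤ j := by positivity
      have e2 : |(1 / (i + (j + 1) * N + 1) - 1 / (N * (j + 2)) : ℝ)|
          ≤ 1 / ((j + 2) * (j + 3)) * (3 / N) := by
        have a1 : (1 : ℝ) / (N * (j + 2)) ≤ 1 / (i + (j + 1) * N + 1) :=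
          one_div_le_one_div_of_le (by positivity) (by nlinarith)
        have a2 : (1 : ℝ) / (i + (j + 1) * N + 1) ≤ 1 / ((j + 1) * N) :=
          one_div_le_one_div_of_le (by positivity) (by linarith)
        have a3 : (1 : ℝ) / ((j + 1) * N) - 1 / (N * (j + 2)) = 1 / ((j + 1) * (j + 2) * N) := by
          field_simp; ring
        have a4 : (1 : ℝ) / ((j + 1) * (j + 2) * N) ≤ 1 / ((j + 2) * (j + 3)) * (3 / N) := by
          rw [div_mul_div_comm, div_le_div_iff₀ (by positivity) (by positivity)]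
          have : (0 : ℝ) ≤ j * (j + 2) * N := by positivity
          nlinarith
        rw [abs_of_nonneg (by linarith)]
        linarith
      rw [e1, norm_mul, norm_mul, norm_mul, Complex.norm_natCast, Complex.norm_real,
        Real.norm_eq_abs, norm_pow]
      have e3 : ‖z‖ ^ (i + (j + 1) * N + 1) ≤ 1 := pow_le_one₀ (norm_nonneg _) hz
      calc _ ≤ (m.choose (j + 1) : ℝ) * ‖g.coeff i‖ * 1 * (1 / ((j + 2) * (j + 3)) * (3 / N)) := by
            gcongr
        _ = _ := by ring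
    refine (norm_sum_le _ _).trans ((sum_le_sum e).trans ?_)
    rw [← mul_sum]
    refine (mul_le_mul_of_nonneg_left (h _) (by positivity)).trans (le_of_eq ?_)
    ring
  refine (norm_sum_le _ _).trans ((sum_le_sum key).trans ?_)
  rw [← sum_mul]
  refine (mul_le_mul_of_nonneg_right (binom3 m) (by positivity)).trans (le_of_eq ?_)
  field_simp
  ring

end Pool.Agent.H21.Peano
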