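import Pool.Agent.H21.Peano1

set_option autoImplicit false
open Polynomial Finset Complex Filter Topology

namespace Pool.Agent.H21.Peano

lemma big {a : ℝ} (ha : 0 < a) (L k0 : ℕ) :
    ∃ k : ℕ, k0 ≤ k ∧ ((k + 2 + L : ℕ) : ℝ) ≤ a * 2 ^ (k + 2) / (k + 2) := by
  have h := (tendsto_pow_const_div_const_pow_of_one_lt 2 (one_lt_two (α := ℝ))).comp
    (tendsto_add_atTop_nat 2)
  have h1 := h.eventually (gt_mem_nhds (show (0 : ℝ) < a / (L + 1) by positivity))
  obtain ⟨k, hk, hk0⟩ := (h1.and (eventually_ge_atTop k0)).exists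
  refine ⟨k, hk0, ?_⟩
  simp only [Function.comp] at hk
  rw [div_lt_div_iff₀ (by positivity) (by positivity)] at hk
  rw [le_div_iff₀ (by positivity)]
  push_cast at hk ⊢
  have : (0 : ℝ) ≤ L * ((k + 2) * (k + 1)) := by positivity
  nlinarith

lemma dir {k N : ℕ} (hk : 0 < k) (hN : 0 < N) {u z : ℂ} (hu : ‖u‖ = 1) (hz : ‖z‖ = 1) :
    ∃ z' : ℂ, ‖z'‖ = 1 ∧ ‖z' - z‖ ≤ 4 / N ∧ ∃ s : ℝ, |s| ≤ Real.pi / k ∧
      ‖1 + z' ^ N‖ = 2 * |Real.cos s| ∧
      (1 + z' ^ N) ^ (k + 2) = ((2 * Real.cos s) ^ (k + 2) : ℝ) * u * z' ^ N := by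
  have hk' : (0 : ℝ) < k := by exact_mod_cast hk
  have hN' : (0 : ℝ) < N := by exact_mod_cast hN
  set s : ℝ := arg u / k with hs
  set e : ℂ := exp (s * I) with he
  have hen : ‖e‖ = 1 := Complex.norm_exp_ofReal_mul_I s
  have hek : e ^ k = u := by
    rw [he, ← Complex.exp_nat_mul, hs]
    have := Complex.norm_mul_exp_arg_mul_I u
    rw [hu] at this
    have hk2 : (k : ℂ) ≠ 0 := by exact_mod_cast hk.ne'
    have h2 : (k : ℂ) * (((arg u / k : ℝ) : ℂ) * I) = arg u * I := by push_cast; field_simp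
    rw [h2]; simpa using this
  have hz0 : z ≠ 0 := by intro h; simp [h] at hz
  set φ : ℝ := arg (e ^ 2 / z ^ N) with hφ
  have hw : (z * exp (I * (φ / N : ℝ))) ^ N = e ^ 2 := by
    have h1 := Complex.norm_mul_exp_arg_mul_I (e ^ 2 / z ^ N)
    rw [norm_div, norm_pow, norm_pow, hen, hz] at h1
    have hN2 : (N : ℂ) ≠ 0 := by exact_mod_cast hN.ne'
    have h2 : exp (I * (φ / N : ℝ)) ^ N = e ^ 2 / z ^ N := by
      rw [← Complex.exp_nat_mul, ← h1, ← hφ]
      simp only [one_pow, div_one, ofReal_one, one_mul]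
      congr 1; push_cast; field_simp
    rw [mul_pow, h2]; field_simp
  have h1e : 1 + e ^ 2 = (2 * Real.cos s : ℝ) * e := by
    push_cast
    rw [Complex.two_cos, add_mul, he, ← Complex.exp_add, ← Complex.exp_add, ← Complex.exp_nat_mul]
    rw [add_comm]; congr 1
    · congr 1; push_cast; ring
    · simp
  refine ⟨z * exp (I * (φ / N : ℝ)), ?_, ?_, s, ?_, ?_, ?_⟩
  · rw [norm_mul, hz, mul_comm I, Complex.norm_exp_ofReal_mul_I, one_mul]
  · rw [← mul_sub_one, norm_mul, hz, one_mul]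
    refine Real.norm_exp_I_mul_ofReal_sub_one_le.trans ?_
    rw [Real.norm_eq_abs, abs_div, abs_of_pos hN']
    refine div_le_div_of_nonneg_right ((Complex.abs_arg_le_pi _).trans Real.pi_le_four) hN'.le
  · rw [hs, abs_div, abs_of_pos hk']
    exact div_le_div_of_nonneg_right (Complex.abs_arg_le_pi _) hk'.le
  · rw [hw, h1e, norm_mul, hen, mul_one, Complex.norm_real, Real.norm_eq_abs, abs_mul, abs_two]
  · rw [hw, h1e, mul_pow, pow_add e, hek]; push_cast; ring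

lemma cos_pow {k : ℕ} {η s : ℝ} (hη : 0 < η) (hη' : η ≤ 1 / 10) (hk : 20 / η ≤ k)
    (hs : |s| ≤ Real.pi / k) : 0 ≤ Real.cos s ∧ 1 - η / 2 ≤ Real.cos s ^ (k + 2) := by
  rw [div_le_iff₀ hη] at hk
  have hk2 : (200 : ℝ) ≤ k := by nlinarith [(by positivity : (0 : ℝ) ≤ k)]
  have hk' : (0 : ℝ) < k := by linarith
  have h1 : s ^ 2 * k ^ 2 ≤ 10 := by
    rw [le_div_iff₀ hk'] at hs
    have h2 : (|s| * k) ^ 2 ≤ Real.pi ^ 2 := pow_le_pow_left₀ (by positivity) hs 2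
    rw [mul_pow, sq_abs] at h2
    nlinarith [Real.pi_lt_d2, Real.pi_pos]
  have h3 : (k + 2) * s ^ 2 ≤ η := by
    have : (k + 2) * s ^ 2 * k ^ 2 ≤ η * k ^ 2 := by nlinarith
    exact le_of_mul_le_mul_right this (by positivity)
  have h4 : s ^ 2 ≤ 1 := by nlinarith [sq_nonneg s]
  have h5 := Real.one_sub_sq_div_two_le_cos (x := s)
  refine ⟨by linarith, ?_⟩
  have h6 := one_add_mul_le_pow (show (-2 : ℝ) ≤ -(s ^ 2 / 2) by linarith) (k + 2)
  have h7 : (1 + -(s ^ 2 / 2)) ^ (k + 2) ≤ Real.cos s ^ (k + 2) :=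
    pow_le_pow_left₀ (by linarith) (by linarith) _
  push_cast at h6
  linarith

lemma num1 {a G q B r0 κ c η R : ℝ} (hqr : B * q = r0 * κ) (hq0 : 0 ≤ q) (hG1 : G ≤ B)
    (hgz : c * B ≤ G) (hκ : κ ≤ 1) (hκ' : 1 - η / 2 ≤ κ) (hc : c ≤ 1) (hη : 0 < η)
    (hc' : 9 / 10 ≤ c - η) (hr1 : r0 ≤ R / 2) (hr2 : 9 / 20 * R ≤ r0) (hR : 0 < R) (ha : 0 ≤ a)
    (ha' : a ≤ R) : |a - G * q| ≤ 3 / 5 * R := by
  have a1 : G * q ≤ B * q := mul_le_mul_of_nonneg_right hG1 hq0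
  have a2 : c * B * q ≤ G * q := mul_le_mul_of_nonneg_right hgz hq0
  have a3 : r0 * κ ≤ r0 := mul_le_of_le_one_right (by linarith) hκ
  have a4 : 9 / 10 ≤ c * κ := by nlinarith
  have a5 : 9 / 10 * r0 ≤ c * B * q := by
    rw [mul_assoc, hqr]; nlinarith
  rw [abs_le]
  constructor <;> linarith

lemma num2 {G κ c η B T : ℝ} (a1 : (c - η / 2) * B ≤ G) (a2 : 1 - η / 2 ≤ κ) (hc : c ≤ 1)
    (hη : 0 < η) (hη' : η ≤ 1 / 10) (hc' : 9 / 10 ≤ c - η) (hB : 0 < B) (hT : 0 < T) :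
    (c - η) * (B * T) ≤ G * (T * κ) := by
  have a0 : 0 ≤ (c - η / 2) * B := mul_nonneg (by linarith) hB.le
  have a3 : (c - η / 2) * B * (1 - η / 2) ≤ G * κ :=
    mul_le_mul a1 a2 (by linarith) (a0.trans a1)
  have a4 : (c - η) * B ≤ (c - η / 2) * B * (1 - η / 2) := by
    have : c - η ≤ (c - η / 2) * (1 - η / 2) := by nlinarith
    nlinarith
  nlinarith

lemma step (g f : ℂ[X]) {B R c η : ℝ} (L : ℕ) (hg : WB g B) (hB : 0 < B) (hR : 0 < R)
    (hc : c ≤ 1) (hη : 0 < η) (hη' : η ≤ 1 / 10) (hc' : 9 / 10 ≤ c - η) :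
    ∃ m N : ℕ, m + L ≤ N ∧ WB (D g m N) R ∧ ∀ x z : ℂ, ‖z‖ = 1 → ‖x - f.eval z‖ ≤ R →
      c * B ≤ ‖g.eval z‖ → ∃ z' : ℂ, ‖z'‖ = 1 ∧ ‖x - (f + D g m N).eval z'‖ ≤ 4 / 5 * R ∧
        (c - η) * (B * 2 ^ m) ≤ ‖(g * (1 + X ^ N) ^ m).eval z'‖ := by
  obtain ⟨δ1, hδ1, H1⟩ := Metric.uniformContinuousOn_iff.1
    ((isCompact_sphere (0 : ℂ) 1).uniformContinuousOn_of_continuous f.continuous.continuousOn)
    (R / 20) (by positivity)
  obtain ⟨δ2, hδ2, H2⟩ := Metric.uniformContinuousOn_iff.1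
    ((isCompact_sphere (0 : ℂ) 1).uniformContinuousOn_of_continuous
      (f := fun z => z * g.eval z) (continuous_id.mul g.continuous).continuousOn)
    (η / 2 * B) (by positivity)
  obtain ⟨L', hL'⟩ := exists_nat_gt (L + 9 + (g.natDegree + 1) + 4 / δ1 + 4 / δ2 + 40 * B / R : ℝ)
  obtain ⟨k, hk0, hk⟩ := big (show 0 < 2 * B / R by positivity) L' ⌈20 / η⌉₊
  have hk1 : 20 / η ≤ k := Nat.ceil_le.1 hk0
  have hk2 : (200 : ℝ) ≤ k := by
    rw [div_le_iff₀ hη] at hk1; nlinarith [(by positivity : (0 : ℝ) ≤ k)]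
  set Xr : ℝ := 2 * B / R * 2 ^ (k + 2) / (k + 2) with hX
  set N := ⌈Xr⌉₊ with hN
  have hX0 : 0 < Xr := by positivity
  have hN1 : Xr ≤ N := Nat.le_ceil _
  have hN2 : (N : ℝ) < Xr + 1 := Nat.ceil_lt_add_one hX0.le
  have p1 : 0 < 4 / δ1 := by positivity
  have p2 : 0 < 4 / δ2 := by positivity
  have p3 : 0 < 40 * B / R := by positivity
  have p4 : (0 : ℝ) ≤ L := by positivity
  have p5 : (0 : ℝ) ≤ g.natDegree := by positivity
  push_cast at hk
  have hN0 : (0 : ℝ) < N := by linarith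
  have hN0' : 0 < N := by exact_mod_cast hN0
  set r0 : ℝ := B * 2 ^ (k + 2) / ((k + 2) * N) with hr0
  have er : r0 = R / 2 * (Xr / N) := by rw [hr0, hX]; field_simp
  have hr1 : r0 ≤ R / 2 := by
    rw [er]; exact mul_le_of_le_one_right (by positivity) ((div_le_one hN0).2 hN1)
  have hr2 : 9 / 20 * R ≤ r0 := by
    rw [er]
    have : 9 / 10 ≤ Xr / N := by rw [le_div_iff₀ hN0]; linarith
    have := mul_le_mul_of_nonneg_left this (show 0 ≤ R / 2 by positivity)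
    linarith only [this]
  have er' : B * 2 ^ (k + 1 + 1) / ((((k + 1 : ℕ) : ℝ) + 1) * N) = r0 := by
    rw [hr0]; push_cast; ring_nf
  refine ⟨k + 1, N, ?_, (WB_D hg (k + 1) hN0').mono (by rw [er']; linarith), ?_⟩
  · have : ((k + 1 + L : ℕ) : ℝ) ≤ N := by push_cast; linarith
    exact_mod_cast this
  intro x z hz hx hgz
  set y := x - f.eval z with hy
  set G := z * g.eval z with hG
  have hGn : ‖G‖ = ‖g.eval z‖ := by rw [hG, norm_mul, hz, one_mul]
  have hG0 : 0 < ‖G‖ := by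
    rw [hGn]; exact lt_of_lt_of_le (mul_pos (by linarith only [hc', hη]) hB) hgz
  have hG1 : ‖G‖ ≤ B := by rw [hGn]; exact hg.eval_le hz.le
  set v : ℂ := exp (arg y * I) with hv
  have hvn : ‖v‖ = 1 := Complex.norm_exp_ofReal_mul_I _
  have hyv : (‖y‖ : ℂ) * v = y := Complex.norm_mul_exp_arg_mul_I y
  have hGne : G ≠ 0 := norm_pos_iff.1 hG0
  have hu : ‖(‖G‖ : ℂ) * v / G‖ = 1 := by
    rw [norm_div, norm_mul, hvn, mul_one, Complex.norm_real, norm_norm, div_self hG0.ne']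
  obtain ⟨z', hz', hd, s, hs, hn, hp⟩ := dir (k := k) (by exact_mod_cast (by linarith : (0 : ℝ) < k))
    hN0' hu hz
  obtain ⟨hc0, hc1⟩ := cos_pow hη hη' hk1 hs
  have hc2 : Real.cos s ^ (k + 2) ≤ 1 := pow_le_one₀ hc0 (Real.cos_le_one s)
  have hd1 : dist z' z < δ1 := by
    rw [dist_eq_norm]; refine hd.trans_lt ?_
    rw [div_lt_iff₀ hN0, mul_comm, ← div_lt_iff₀ hδ1]; linarith
  have hd2 : dist z' z < δ2 := by
    rw [dist_eq_norm]; refine hd.trans_lt ?_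
    rw [div_lt_iff₀ hN0, mul_comm, ← div_lt_iff₀ hδ2]; linarith
  have E1 := H1 z' (by simpa using hz') z (by simpa using hz) hd1
  have E2 := H2 z' (by simpa using hz') z (by simpa using hz) hd2
  simp only [dist_eq_norm] at E1 E2
  rw [← hG] at E2
  set G' := z' * g.eval z' with hG'
  have hGn' : ‖G'‖ = ‖g.eval z'‖ := by rw [hG', norm_mul, hz', one_mul]
  have hG1' : ‖G'‖ ≤ B := by rw [hGn']; exact hg.eval_le hz'.le
  refine ⟨z', hz', ?_, ?_⟩
  · have hdeg : g.natDegree + 1 ≤ N := by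
      have : ((g.natDegree + 1 : ℕ) : ℝ) ≤ N := by push_cast; linarith
      exact_mod_cast this
    have E4 := D_approx hg (k + 1) hdeg hz'.le
    rw [er', ← hG'] at E4
    set S := ∑ j ∈ range (k + 1), ((k + 1).choose (j + 1) : ℂ) / (j + 2) * (z' ^ N) ^ (j + 1) with hS
    have hb := binom1 (k + 1) (z' ^ N)
    rw [← hS, hp] at hb
    set w := z' ^ N with hw
    have hwn : ‖w‖ = 1 := by rw [hw, norm_pow, hz', one_pow]
    have hw0 : w ≠ 0 := by intro h; simp [h] at hwn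
    set q : ℝ := (2 * Real.cos s) ^ (k + 2) / ((k + 2) * N) with hq
    have hqr : B * q = r0 * Real.cos s ^ (k + 2) := by rw [hq, hr0, mul_pow]; ring
    have hq0 : 0 ≤ q := by positivity
    have hk3 : (k + 2 : ℂ) ≠ 0 := by exact_mod_cast Nat.succ_ne_zero (k + 1)
    have hN3 : (N : ℂ) ≠ 0 := by exact_mod_cast hN0'.ne'
    have eS : S = ((2 * Real.cos s) ^ (k + 2) : ℝ) * ((‖G‖ : ℂ) * v / G) / (k + 2)
        - (1 / ((k + 2) * w) + 1) := by
      have : S = (w * S) / w := by field_simp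
      rw [this, hb]; push_cast
      have : (k + 1 + 1 : ℂ) = k + 2 := by ring
      rw [this]
      field_simp; ring
    have key : x - (f + D g (k + 1) N).eval z' = ((‖y‖ - ‖G‖ * q : ℝ) : ℂ) * v
        - (f.eval z' - f.eval z) - ((D g (k + 1) N).eval z' - G' / N * S)
        - (G' - G) * (q : ℂ) * ((‖G‖ : ℂ) * v / G) + G' / N * (1 / ((k + 2) * w) + 1) := by
      rw [eval_add, eS, hq]
      push_cast
      rw [sub_mul, hyv, hy]
      field_simp
      ring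
    have n1 : ‖((‖y‖ - ‖G‖ * q : ℝ) : ℂ) * v‖ ≤ 3 / 5 * R := by
      rw [norm_mul, hvn, mul_one, Complex.norm_real, Real.norm_eq_abs]
      exact num1 hqr hq0 hG1 (hGn ▸ hgz) hc2 hc1 hc hη hc' hr1 hr2 hR (norm_nonneg y) hx
    have n2 : ‖(G' - G) * (q : ℂ) * ((‖G‖ : ℂ) * v / G)‖ ≤ R / 40 := by
      rw [norm_mul, hu, mul_one, norm_mul, Complex.norm_real, Real.norm_eq_abs, abs_of_nonneg hq0]
      have a1 : ‖G' - G‖ * q ≤ η / 2 * B * q := mul_le_mul_of_nonneg_right E2.le hq0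
      have a3 : r0 * Real.cos s ^ (k + 2) ≤ r0 := mul_le_of_le_one_right (by linarith) hc2
      rw [mul_assoc, hqr] at a1
      have a4 : η / 2 * (r0 * Real.cos s ^ (k + 2)) ≤ 1 / 20 * (R / 2) :=
        mul_le_mul (by linarith) (by linarith) (by positivity) (by norm_num)
      linarith
    have n3 : ‖G' / N * (1 / ((k + 2) * w) + 1)‖ ≤ R / 20 := by
      have a1 : ‖(1 / ((k + 2) * w) + 1 : ℂ)‖ ≤ 2 := by
        refine (norm_add_le _ _).trans ?_
        have : ‖(k + 2 : ℂ)‖ = k + 2 := by exact_mod_cast Complex.norm_natCast (k + 2)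
        rw [norm_div, norm_mul, hwn, this, norm_one, mul_one]
        have : (1 : ℝ) / (k + 2) ≤ 1 := by rw [div_le_one (by positivity)]; linarith
        linarith
      rw [norm_mul, norm_div, Complex.norm_natCast]
      have a2 : ‖G'‖ / N ≤ R / 40 := by
        rw [div_le_iff₀ hN0]
        have : 40 * B / R ≤ N := by linarith
        rw [div_le_iff₀ hR] at this
        linarith
      calc _ ≤ R / 40 * 2 := mul_le_mul a2 a1 (norm_nonneg _) (by positivity)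
        _ = _ := by ring
    have n4 : 6 / (((k + 1 : ℕ) : ℝ) + 2) * r0 ≤ R / 40 := by
      have : 6 / (((k + 1 : ℕ) : ℝ) + 2) ≤ 1 / 20 := by
        rw [div_le_iff₀ (by positivity)]; push_cast; linarith only [hk2]
      have h2 := mul_le_mul this hr1 (by linarith only [hr2, hR]) (by norm_num)
      linarith only [h2]
    rw [key]
    refine (norm_add_le _ _).trans ?_
    have t1 := norm_sub_le (((‖y‖ - ‖G‖ * q : ℝ) : ℂ) * v
        - (f.eval z' - f.eval z) - ((D g (k + 1) N).eval z' - G' / N * S))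
        ((G' - G) * (q : ℂ) * ((‖G‖ : ℂ) * v / G))
    have t2 := norm_sub_le (((‖y‖ - ‖G‖ * q : ℝ) : ℂ) * v - (f.eval z' - f.eval z))
        ((D g (k + 1) N).eval z' - G' / N * S)
    have t3 := norm_sub_le (((‖y‖ - ‖G‖ * q : ℝ) : ℂ) * v) (f.eval z' - f.eval z)
    linarith only [t1, t2, t3, n1, n2, n3, n4, E1, E4, hR]
  · simp only [eval_mul, eval_pow, eval_add, eval_one, eval_X, norm_mul, norm_pow]
    rw [hn, abs_of_nonneg hc0, mul_pow, ← hGn']
    have a1 : (c - η / 2) * B ≤ ‖G'‖ := by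
      have := norm_sub_norm_le G G'
      rw [norm_sub_rev] at this
      rw [← hGn] at hgz
      linarith
    have a2 : 1 - η / 2 ≤ Real.cos s ^ (k + 1) := by
      refine hc1.trans ?_
      rw [pow_succ]
      exact mul_le_of_le_one_right (by positivity) (Real.cos_le_one s)
    exact num2 a1 a2 hc hη hη' hc' hB (by positivity)

end Pool.Agent.H21.Peano
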