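import Pool.Agent.H21.Peano2

set_option autoImplicit false
open Polynomial Finset Complex Filter Topology

namespace Pool.Agent.H21.Peano

lemma seq_exists {σ : Type} (P : ℕ → σ → Prop) (R : ℕ → σ → σ → Prop) (s0 : σ) (h0 : P 0 s0)
    (hs : ∀ n s, P n s → ∃ s', P (n + 1) s' ∧ R n s s') :
    ∃ u : ℕ → σ, u 0 = s0 ∧ ∀ n, P n (u n) ∧ R n (u n) (u (n + 1)) := by
  choose F hF using hs
  let v : (n : ℕ) → {s // P n s} := fun n =>
    Nat.rec ⟨s0, h0⟩ (fun n s => ⟨F n s.1 s.2, (hF n s.1 s.2).1⟩) n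
  exact ⟨fun n => (v n).1, rfl, fun n => ⟨(v n).2, (hF n (v n).1 (v n).2).2⟩⟩

lemma seqs : ∃ (g f : ℕ → ℂ[X]) (m N : ℕ → ℕ), g 0 = 1 ∧ (∀ n, derivative (f n) = g n) ∧
    (∀ n, m n + n ≤ N n) ∧ (∀ n, g (n + 1) = g n * (1 + X ^ N n) ^ m n) ∧
    (∀ n, WB (f (n + 1) - f n) ((4 / 5) ^ n)) ∧
    ∀ n, ∀ x ∈ Metric.closedBall (1 : ℂ) 1, ∃ z : ℂ, ‖z‖ = 1 ∧ ‖x - (f n).eval z‖ ≤ (4 / 5) ^ n := by
  obtain ⟨u, h0, hu⟩ := seq_exists
    (fun n (s : ℂ[X] × ℂ[X] × ℝ) => derivative s.2.1 = s.1 ∧ WB s.1 s.2.2 ∧ 0 < s.2.2 ∧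
      ∀ x ∈ Metric.closedBall (1 : ℂ) 1, ∃ z : ℂ, ‖z‖ = 1 ∧ ‖x - s.2.1.eval z‖ ≤ (4 / 5) ^ n ∧
        (9 / 10 + 1 / 10 * (1 / 2) ^ n) * s.2.2 ≤ ‖s.1.eval z‖)
    (fun n s s' => WB (s'.2.1 - s.2.1) ((4 / 5) ^ n) ∧
      ∃ m N : ℕ, m + n ≤ N ∧ s'.1 = s.1 * (1 + X ^ N) ^ m) (1, X, 1)
    ⟨by simp, by simpa using WB_monomial 0 1, one_pos, fun x hx => ⟨1, by simp,
      by simpa [dist_eq_norm] using hx, by norm_num⟩⟩
    (by
      rintro n ⟨g, f, B⟩ ⟨h1, h2, h3, h4⟩
      have hp : (0 : ℝ) < (1 / 2) ^ n := by positivity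
      have hp1 : ((1 : ℝ) / 2) ^ n ≤ 1 := pow_le_one₀ (by norm_num) (by norm_num)
      obtain ⟨m, N, a1, a2, a3⟩ := step g f (R := (4 / 5) ^ n) (c := 9 / 10 + 1 / 10 * (1 / 2) ^ n)
        (η := 1 / 20 * (1 / 2) ^ n) n h2 h3 (by positivity) (by linarith) (by positivity)
        (by linarith) (by linarith)
      refine ⟨(g * (1 + X ^ N) ^ m, f + D g m N, B * 2 ^ m), ⟨?_, WB_prod h2 m N,
        mul_pos h3 (by positivity), fun x hx => ?_⟩, by simpa using a2, m, N, a1, rfl⟩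
      · dsimp only at h1 ⊢
        rw [derivative_add, h1, D_deriv]
      · obtain ⟨z, b1, b2, b3⟩ := h4 x hx
        obtain ⟨z', c1, c2, c3⟩ := a3 x z b1 b2 b3
        refine ⟨z', c1, by rw [pow_succ']; exact c2, le_trans (le_of_eq ?_) c3⟩
        dsimp only
        ring)
  choose m N hm using fun n => (hu n).2.2
  refine ⟨fun n => (u n).1, fun n => (u n).2.1, m, N, congrArg Prod.fst h0, fun n => (hu n).1.1,
    fun n => (hm n).1, fun n => (hm n).2, fun n => (hu n).2.1, fun n x hx => ?_⟩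
  obtain ⟨z, h1, h2, -⟩ := (hu n).1.2.2.2 x hx
  exact ⟨z, h1, h2⟩

lemma lower {g : ℕ → ℂ[X]} {m N : ℕ → ℕ} (h0 : g 0 = 1) (hm : ∀ n, m n + n ≤ N n)
    (hg : ∀ n, g (n + 1) = g n * (1 + X ^ N n) ^ m n) {z : ℂ} (hz : ‖z‖ < 1) :
    ∃ c : ℝ, 0 < c ∧ ∀ n, c ≤ ‖(g n).eval z‖ := by
  set r := ‖z‖ with hr
  have hr0 : 0 ≤ r := norm_nonneg z
  have h1r : 0 < 1 - r := by linarith
  obtain ⟨C, hC⟩ : ∃ C : ℝ, ∀ k : ℕ, (k : ℝ) * r ^ k ≤ C := by
    have := (tendsto_self_mul_const_pow_of_lt_one hr0 hz).bddAbove_range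
    obtain ⟨C, hC⟩ := this
    exact ⟨C, fun k => hC ⟨k, rfl⟩⟩
  have hC0 : 0 ≤ C := by simpa using hC 0
  have key : ∀ n, Real.exp (-(C / (1 - r) * ∑ k ∈ range n, r ^ k)) ≤ ‖(g n).eval z‖ := by
    intro n
    induction n with
    | zero => simp [h0]
    | succ n ih =>
      rw [hg, sum_range_succ, mul_add, neg_add, Real.exp_add, eval_mul, norm_mul]
      refine mul_le_mul ih ?_ (Real.exp_pos _).le (norm_nonneg _)
      rcases Nat.eq_zero_or_pos (m n) with hm0 | hm0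
      · rw [hm0]; simp; positivity
      have hN : 1 ≤ N n := by have := hm n; omega
      simp only [eval_pow, eval_add, eval_one, eval_X, norm_pow]
      set x := r ^ N n with hx
      have hx0 : 0 ≤ x := by positivity
      have hx1 : x ≤ r := by
        have := pow_le_pow_of_le_one hr0 hz.le hN
        simpa using this
      have e1 : Real.exp (-(x / (1 - r))) ≤ ‖1 + z ^ N n‖ := by
        have a1 : 1 - x ≤ ‖1 + z ^ N n‖ := by
          have := norm_sub_norm_le (1 : ℂ) (-z ^ N n)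
          simpa [hx] using this
        refine le_trans ?_ a1
        have a2 := Real.add_one_le_exp (x / (1 - r))
        rw [Real.exp_neg, inv_le_comm₀ (Real.exp_pos _) (by linarith)]
        refine le_trans ?_ a2
        have a3 : x / (1 - x) ≤ x / (1 - r) := div_le_div_of_nonneg_left hx0 h1r (by linarith)
        have a4 : (1 - x)⁻¹ = x / (1 - x) + 1 := by
          have : 1 - x ≠ 0 := by linarith
          field_simp; ring
        linarith
      refine le_trans ?_ (pow_le_pow_left₀ (Real.exp_pos _).le e1 (m n))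
      rw [← Real.exp_nat_mul, Real.exp_le_exp, mul_neg, neg_le_neg_iff]
      have a5 : x ≤ r ^ m n * r ^ n := by
        rw [← pow_add]; exact pow_le_pow_of_le_one hr0 hz.le (hm n)
      have a6 : (m n : ℝ) * x ≤ C * r ^ n := by
        calc (m n : ℝ) * x ≤ m n * (r ^ m n * r ^ n) := by gcongr
          _ = (m n * r ^ m n) * r ^ n := by ring
          _ ≤ C * r ^ n := by gcongr; exact hC _
      calc (m n : ℝ) * (x / (1 - r)) = (m n * x) / (1 - r) := by ring
        _ ≤ C * r ^ n / (1 - r) := by gcongr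
        _ = _ := by ring
  refine ⟨Real.exp (-(C / (1 - r) * (1 - r)⁻¹)), Real.exp_pos _, fun n => le_trans ?_ (key n)⟩
  rw [Real.exp_le_exp, neg_le_neg_iff]
  refine mul_le_mul_of_nonneg_left ?_ (by positivity)
  rw [← tsum_geometric_of_lt_one hr0 hz]
  exact (summable_geometric_of_lt_one hr0 hz).sum_le_tsum _ fun i _ => by positivity

lemma limit {f : ℕ → ℂ[X]} (hf : ∀ n, WB (f (n + 1) - f n) ((4 / 5) ^ n)) :
    ∃ a : ℕ → ℂ, Summable (fun i => ‖a i‖) ∧
      ∀ n, ∀ w : ℂ, ‖w‖ ≤ 1 → ‖∑' i, a i * w ^ i - (f n).eval w‖ ≤ 5 * (4 / 5) ^ n := by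
  have hc : ∀ i, ∃ a, Tendsto (fun n => (f n).coeff i) atTop (𝓝 a) := by
    intro i
    refine cauchySeq_tendsto_of_complete (cauchySeq_of_le_geometric (4 / 5) 1 (by norm_num) fun n => ?_)
    have := hf n {i}
    rw [sum_singleton, coeff_sub] at this
    rw [dist_comm, dist_eq_norm, one_mul]; exact this
  choose a ha using hc
  have h1 : ∀ n k, WB (f (n + k) - f n) (5 * (4 / 5) ^ n - 5 * (4 / 5) ^ (n + k)) := by
    intro n k
    induction k with
    | zero => intro s; simp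
    | succ k ih =>
      have := (hf (n + k)).add ih
      rw [sub_add_sub_cancel] at this
      refine this.mono (le_of_eq ?_)
      rw [← add_assoc, pow_succ]; ring
  have h2 : ∀ n (s : Finset ℕ), ∑ i ∈ s, ‖a i - (f n).coeff i‖ ≤ 5 * (4 / 5) ^ n := by
    intro n s
    have t : Tendsto (fun k => ∑ i ∈ s, ‖(f (k + n)).coeff i - (f n).coeff i‖) atTop
        (𝓝 (∑ i ∈ s, ‖a i - (f n).coeff i‖)) :=
      tendsto_finset_sum _ fun i _ =>
        (((ha i).comp (tendsto_add_atTop_nat n)).sub_const _).norm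
    refine le_of_tendsto' t fun k => ?_
    have := h1 n k s
    simp only [coeff_sub] at this
    rw [add_comm k n]
    have p : (0 : ℝ) ≤ 5 * (4 / 5) ^ (n + k) := by positivity
    linarith
  have h3 : ∀ n, Summable fun i => ‖a i - (f n).coeff i‖ := fun n =>
    summable_of_sum_le (fun i => norm_nonneg _) (h2 n)
  have h4 : ∀ (p : ℂ[X]) (w : ℂ), HasSum (fun i => p.coeff i * w ^ i) (p.eval w) := by
    intro p w
    rw [eval_eq_sum_range]
    refine hasSum_sum_of_ne_finset_zero fun i hi => ?_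
    rw [coeff_eq_zero_of_natDegree_lt (by simpa using hi), zero_mul]
  have h5 : Summable fun i => ‖a i‖ := by
    have := (h4 (f 0) 1).summable.norm
    simp only [one_pow, mul_one] at this
    refine Summable.of_nonneg_of_le (fun i => norm_nonneg _) (fun i => ?_) ((h3 0).add this)
    exact norm_le_norm_sub_add _ _
  refine ⟨a, h5, fun n w hw => ?_⟩
  have hb : ∀ (b : ℂ) (i : ℕ), ‖b * w ^ i‖ ≤ ‖b‖ := fun b i => by
    rw [norm_mul, norm_pow]
    exact mul_le_of_le_one_right (norm_nonneg _) (pow_le_one₀ (norm_nonneg _) hw)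
  have h6 : Summable fun i => a i * w ^ i := Summable.of_norm_bounded h5 fun i => hb _ i
  rw [← (h4 (f n) w).tsum_eq, ← h6.tsum_sub (h4 (f n) w).summable]
  refine le_trans (tsum_of_norm_bounded (h3 n).hasSum fun i => ?_)
    (Real.tsum_le_of_sum_le (fun i => norm_nonneg _) (h2 n))
  rw [← sub_mul]; exact hb _ i

theorem main : ∃ a : ℕ → ℂ, Summable (fun n => ‖a n‖) ∧
    (∀ z : ℂ, ‖z‖ < 1 → deriv (fun w : ℂ => ∑' n, a n * w ^ n) z ≠ 0) ∧
    Metric.closedBall (1 : ℂ) 1 ⊆ (fun w : ℂ => ∑' n, a n * w ^ n) '' Metric.sphere (0 : ℂ) 1 := by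
  obtain ⟨g, f, m, N, h0, h1, h2, h3, h4, h5⟩ := seqs
  obtain ⟨a, ha, hl⟩ := limit h4
  set F := fun w : ℂ => ∑' n, a n * w ^ n with hF
  have ht : Tendsto (fun n : ℕ => (4 / 5 : ℝ) ^ n) atTop (𝓝 0) :=
    tendsto_pow_atTop_nhds_zero_of_lt_one (by norm_num) (by norm_num)
  have hu : TendstoUniformlyOn (fun n w => (f n).eval w) F atTop (Metric.closedBall 0 1) := by
    rw [Metric.tendstoUniformlyOn_iff]
    intro ε hε
    filter_upwards [ht.eventually (gt_mem_nhds (show (0 : ℝ) < ε / 5 by positivity))] with n hn w hw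
    rw [dist_eq_norm]
    exact (hl n w (by simpa using hw)).trans_lt (by linarith)
  refine ⟨a, ha, fun z hz => ?_, fun x hx => ?_⟩
  · have hd := (hu.mono Metric.ball_subset_closedBall).tendstoLocallyUniformlyOn.deriv
      (Eventually.of_forall fun n => (f n).differentiable.differentiableOn) Metric.isOpen_ball
    have hp := (hd.tendsto_at (show z ∈ Metric.ball (0 : ℂ) 1 by simpa using hz)).norm
    obtain ⟨c, hc, hc'⟩ := lower h0 h2 h3 hz
    have : c ≤ ‖deriv F z‖ := ge_of_tendsto' hp fun n => by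
      simp only [Function.comp, Polynomial.deriv, h1]; exact hc' n
    exact norm_pos_iff.1 (hc.trans_le this)
  · have hcont : ContinuousOn F (Metric.closedBall 0 1) :=
      hu.continuousOn (Eventually.of_forall fun n => (f n).continuous.continuousOn).frequently
    have hcl : IsClosed (F '' Metric.sphere (0 : ℂ) 1) :=
      ((isCompact_sphere 0 1).image_of_continuousOn
        (hcont.mono Metric.sphere_subset_closedBall)).isClosed
    rw [← hcl.closure_eq, Metric.mem_closure_iff]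
    intro ε hε
    obtain ⟨n, hn⟩ := (ht.eventually (gt_mem_nhds (show (0 : ℝ) < ε / 6 by positivity))).exists
    obtain ⟨z, hz, hz'⟩ := h5 n x hx
    refine ⟨F z, ⟨z, by simpa using hz, rfl⟩, ?_⟩
    have := hl n z hz.le
    have e := norm_sub_le (x - (f n).eval z) (F z - (f n).eval z)
    rw [sub_sub_sub_cancel_right] at e
    rw [dist_eq_norm]
    simp only [hF] at e ⊢
    linarith

end Pool.Agent.H21.Peano
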