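import Mathlib

namespace Pool.Agent.H21.Pell

/-- `R(k, d) = 4 d² / (k - d²)` is an integer. -/
def RInt (k : ℕ) (d : ℚ) : Prop := ∃ z : ℤ, 4 * d ^ 2 / (k - d ^ 2) = z

/-- `orbit k d n = f_d^{n+1}(∞)`: it starts at `f(∞) = d`, and `f(x) = (d x + k) / (x + d)`. -/
def orbit (k : ℕ) (d : ℚ) (n : ℕ) : ℚ := (fun x => (d * x + k) / (x + d))^[n] d

/-- `x = p / q` in lowest terms, `p, q > 0`, with `p² - k q² = ± 1`. -/
def Pellian (k : ℕ) (x : ℚ) : Prop :=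
  0 < x ∧ (x.num ^ 2 - k * (x.den : ℤ) ^ 2 = 1 ∨ x.num ^ 2 - k * (x.den : ℤ) ^ 2 = -1)

/-- The convergent of index `i` of `√k`. -/
noncomputable def cvg (k i : ℕ) : ℚ := Real.convergent √(k : ℝ) i

end Pool.Agent.H21.Pell
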