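import Pool.Agent.H21.RWDef

namespace Pool.Agent.H21.RW2

open scoped ENNReal Classical
open Pool.Agent.H21.RWDef

abbrev W (N M : ℕ) := Option (Fin N ⊕ Fin M)

def adj {N M : ℕ} : W N M → W N M → Prop
  | none, none => False
  | none, some _ => True
  | some _, none => True
  | some (Sum.inl a), some (Sum.inl b) => a ≠ b
  | some (Sum.inr a), some (Sum.inr b) => a ≠ b
  | some (Sum.inl _), some (Sum.inr _) => False
  | some (Sum.inr _), some (Sum.inl _) => False

def G (N M : ℕ) : SimpleGraph (W N M) where
  Adj := adj
  symm := ⟨by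
    rintro (_ | a | a) (_ | b | b) h <;> simp only [adj] at h ⊢
    · exact h.symm
    · exact h.symm⟩
  loopless := ⟨by rintro (_ | a | a) <;> simp [adj]⟩

theorem conn (N M : ℕ) : (G N M).Connected := by
  have h : ∀ x, (G N M).Reachable none x := by
    rintro (_ | a)
    · rfl
    · exact SimpleGraph.Adj.reachable (show adj none (some a) from trivial)
  exact { preconnected := fun x y => (h x).symm.trans (h y) }

theorem avg (N M : ℕ) (x : W N M) (f : W N M → ℝ) :
    ∑ y, step (G N M) x y * f y =
      (∑ y, if adj x y then f y else 0) / ∑ y, if adj x y then (1 : ℝ) else 0 := by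
  have : (((Finset.univ.filter (fun z => (G N M).Adj x z)).card : ℕ) : ℝ) =
      ∑ y, if adj x y then (1 : ℝ) else 0 := by
    rw [Finset.card_filter]; push_cast; rfl
  unfold step
  rw [this, Finset.sum_div]
  refine Finset.sum_congr rfl fun y _ => ?_
  by_cases h : adj x y
  · rw [if_pos (show (G N M).Adj x y from h), if_pos h]; ring
  · rw [if_neg (show ¬ (G N M).Adj x y from h), if_neg h]; ring

theorem sum_ne {n : ℕ} (a : Fin n) (f : Fin n → ℝ) :
    (∑ b, if a ≠ b then f b else 0) = ∑ b, f b - f a := by
  rw [← Finset.add_sum_erase _ f (Finset.mem_univ a), ← Finset.add_sum_erase _ _ (Finset.mem_univ a)]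
  simp only [ne_eq, not_true_eq_false, if_false, zero_add, add_sub_cancel_left]
  exact Finset.sum_congr rfl fun b hb => if_pos (Finset.ne_of_mem_erase hb).symm

theorem avg_w (N M : ℕ) (f : W N M → ℝ) :
    ∑ y, step (G N M) none y * f y =
      (∑ a, f (some (Sum.inl a)) + ∑ b, f (some (Sum.inr b))) / (N + M) := by
  rw [avg]
  simp [Fintype.sum_option, Fintype.sum_sum_type, adj]

theorem avg_q (N M : ℕ) (f : W N M → ℝ) (a : Fin N) :
    ∑ y, step (G N M) (some (Sum.inl a)) y * f y =
      (f none + (∑ a, f (some (Sum.inl a)) - f (some (Sum.inl a)))) / N := by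
  have e : ∀ g : W N M → ℝ, (∑ y, if adj (some (Sum.inl a)) y then g y else 0) =
      g none + (∑ a, g (some (Sum.inl a)) - g (some (Sum.inl a))) := by
    intro g
    simp only [Fintype.sum_option, Fintype.sum_sum_type, adj, if_true, if_false,
      Finset.sum_const_zero, add_zero]
    rw [← sum_ne a]
    congr
    funext x
    congr
  rw [avg, e, e]
  simp

theorem avg_b (N M : ℕ) (f : W N M → ℝ) (a : Fin M) :
    ∑ y, step (G N M) (some (Sum.inr a)) y * f y =
      (f none + (∑ a, f (some (Sum.inr a)) - f (some (Sum.inr a)))) / M := by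
  have e : ∀ g : W N M → ℝ, (∑ y, if adj (some (Sum.inr a)) y then g y else 0) =
      g none + (∑ a, g (some (Sum.inr a)) - g (some (Sum.inr a))) := by
    intro g
    simp only [Fintype.sum_option, Fintype.sum_sum_type, adj, if_true, if_false,
      Finset.sum_const_zero, zero_add]
    rw [← sum_ne a]
    congr
    funext x
    congr
  rw [avg, e, e]
  simp

/-- function constant on the three classes, with one vertex set to zero -/
noncomputable def tri {N M : ℕ} (v : W N M) (w q b : ℝ) (x : W N M) : ℝ :=
  if x = v then 0 else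
    match x with
    | none => w
    | some (Sum.inl _) => q
    | some (Sum.inr _) => b

theorem tri_nonneg {N M : ℕ} (v : W N M) (w q b : ℝ) (hw : 0 ≤ w) (hq : 0 ≤ q) (hb : 0 ≤ b)
    (x : W N M) : 0 ≤ tri v w q b x := by
  unfold tri
  split_ifs
  · exact le_rfl
  · rcases x with _ | a | a <;> assumption

theorem tri_le {N M : ℕ} (v : W N M) (w q b c : ℝ) (h0 : 0 ≤ c) (hw : w ≤ c) (hq : q ≤ c)
    (hb : b ≤ c) (x : W N M) : tri v w q b x ≤ c := by
  unfold tri
  split_ifs
  · exact h0
  · rcases x with _ | a | a <;> assumption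

theorem sum_ite_ne {n : ℕ} (a : Fin n) (c : ℝ) :
    (∑ b, if b = a then 0 else c) = (n - 1) * c := by
  have := sum_ne a fun _ => c
  simp only [ne_eq, ite_not, Finset.sum_const, Finset.card_univ, Fintype.card_fin,
    nsmul_eq_mul] at this
  simp only [eq_comm (b := a)]
  rw [this]; ring

/-- target in the small clique -/
theorem hitQ (N M : ℕ) (a0 : Fin N) (hM : 0 < M) (y : ℝ)
    (hy : N + M + M * M + (N - 1) * N / 2 ≤ y * (N + 1) / 2) (hy0 : 0 ≤ y) (n : ℕ) (x : W N M) :
    ∑ t ∈ Finset.range n, hitTail (G N M) (some (Sum.inl a0)) t x ≤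
      tri (some (Sum.inl a0)) y ((N + y) / 2) (y + M) x := by
  have hN : (0 : ℝ) < N := by exact_mod_cast a0.pos
  have hM' : (0 : ℝ) < M := by exact_mod_cast hM
  have := upper (G N M) (some (Sum.inl a0)) (fun _ => 0)
    (tri (some (Sum.inl a0)) y ((N + y) / 2) (y + M)) (fun _ => le_rfl)
    (tri_nonneg _ _ _ _ hy0 (by positivity) (by positivity)) (by
      intro x hx
      refine Or.inr ⟨by simp, ?_⟩
      rcases x with _ | a | a
      · rw [avg_w]
        simp only [tri, Option.some.injEq, Sum.inl.injEq, reduceCtorEq, if_false, sum_ite_ne,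
          Finset.sum_const, Finset.card_univ, Fintype.card_fin, nsmul_eq_mul]
        rw [add_div' _ _ _ (by positivity), div_le_iff₀ (by positivity)]
        nlinarith
      · rw [avg_q]
        have ha : a ≠ a0 := fun h => hx (by rw [h])
        simp only [tri, Option.some.injEq, Sum.inl.injEq, reduceCtorEq, if_false, sum_ite_ne, ha]
        rw [add_div' _ _ _ (by positivity), div_le_iff₀ (by positivity)]
        nlinarith
      · rw [avg_b]
        simp only [tri, Option.some.injEq, reduceCtorEq, if_false,
          Finset.sum_const, Finset.card_univ, Fintype.card_fin, nsmul_eq_mul]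
        rw [add_div' _ _ _ (by positivity), div_le_iff₀ (by positivity)]
        nlinarith) n x
  simpa using this

/-- target in the large clique -/
theorem hitB (N M : ℕ) (a0 : Fin M) (hN : 0 < N) (y : ℝ)
    (hy : N + M + N * N + (M - 1) * M / 2 ≤ y * (M + 1) / 2) (hy0 : 0 ≤ y) (n : ℕ) (x : W N M) :
    ∑ t ∈ Finset.range n, hitTail (G N M) (some (Sum.inr a0)) t x ≤
      tri (some (Sum.inr a0)) y (y + N) ((M + y) / 2) x := by
  have hM : (0 : ℝ) < M := by exact_mod_cast a0.pos
  have hN' : (0 : ℝ) < N := by exact_mod_cast hN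
  have := upper (G N M) (some (Sum.inr a0)) (fun _ => 0)
    (tri (some (Sum.inr a0)) y (y + N) ((M + y) / 2)) (fun _ => le_rfl)
    (tri_nonneg _ _ _ _ hy0 (by positivity) (by positivity)) (by
      intro x hx
      refine Or.inr ⟨by simp, ?_⟩
      rcases x with _ | a | a
      · rw [avg_w]
        simp only [tri, Option.some.injEq, Sum.inr.injEq, reduceCtorEq, if_false, sum_ite_ne,
          Finset.sum_const, Finset.card_univ, Fintype.card_fin, nsmul_eq_mul]
        rw [add_div' _ _ _ (by positivity), div_le_iff₀ (by positivity)]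
        nlinarith
      · rw [avg_q]
        simp only [tri, Option.some.injEq, reduceCtorEq, if_false,
          Finset.sum_const, Finset.card_univ, Fintype.card_fin, nsmul_eq_mul]
        rw [add_div' _ _ _ (by positivity), div_le_iff₀ (by positivity)]
        nlinarith
      · rw [avg_b]
        have ha : a ≠ a0 := fun h => hx (by rw [h])
        simp only [tri, Option.some.injEq, Sum.inr.injEq, reduceCtorEq, if_false, sum_ite_ne, ha]
        rw [add_div' _ _ _ (by positivity), div_le_iff₀ (by positivity)]
        nlinarith) n x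
  simpa using this

/-- target the cut vertex -/
theorem hitW (N M : ℕ) (n : ℕ) (x : W N M) :
    ∑ t ∈ Finset.range n, hitTail (G N M) none t x ≤ tri none 0 N M x := by
  have := upper (G N M) none (fun _ => 0) (tri none 0 N M) (fun _ => le_rfl)
    (tri_nonneg _ _ _ _ le_rfl (by positivity) (by positivity)) (by
      intro x hx
      refine Or.inr ⟨by simp, ?_⟩
      rcases x with _ | a | a
      · exact absurd rfl hx
      · have hN : (0 : ℝ) < N := by exact_mod_cast a.pos
        rw [avg_q]
        simp only [tri, reduceCtorEq, if_false, if_true,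
          Finset.sum_const, Finset.card_univ, Fintype.card_fin, nsmul_eq_mul]
        rw [add_div' _ _ _ (by positivity), div_le_iff₀ (by positivity)]
        nlinarith
      · have hM : (0 : ℝ) < M := by exact_mod_cast a.pos
        rw [avg_b]
        simp only [tri, reduceCtorEq, if_false, if_true,
          Finset.sum_const, Finset.card_univ, Fintype.card_fin, nsmul_eq_mul]
        rw [add_div' _ _ _ (by positivity), div_le_iff₀ (by positivity)]
        nlinarith) n x
  simpa using this

/-- inside the small clique, half of the walks meet the target before leaving -/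
theorem halfQ (N M : ℕ) (a0 a : Fin N) (n : ℕ) :
    ∑ t ∈ Finset.range n, hitTail (G N M) (some (Sum.inl a0)) t (some (Sum.inl a)) ≤
      n * (1 / 2) + N / 2 := by
  have hN : (0 : ℝ) < N := by exact_mod_cast a0.pos
  have := upper (G N M) (some (Sum.inl a0)) (tri (some (Sum.inl a0)) 1 (1 / 2) 1)
    (tri (some (Sum.inl a0)) 0 (N / 2) 0)
    (tri_nonneg _ _ _ _ (by positivity) (by positivity) (by positivity))
    (tri_nonneg _ _ _ _ le_rfl (by positivity) le_rfl) (by
      intro x hx
      rcases x with _ | a | a
      · left; simp [tri]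
      · right
        rw [avg_q, avg_q]
        have ha : a ≠ a0 := fun h => hx (by rw [h])
        simp only [tri, Option.some.injEq, Sum.inl.injEq, reduceCtorEq, if_false, sum_ite_ne, ha]
        rw [add_div' _ _ _ (by positivity), div_le_iff₀ (by positivity),
          div_le_iff₀ (by positivity)]
        constructor <;> nlinarith
      · left; simp [tri]) n (some (Sum.inl a))
  refine this.trans (add_le_add (mul_le_mul_of_nonneg_left ?_ (by positivity)) ?_)
  · unfold tri; split_ifs <;> norm_num
  · unfold tri; split_ifs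
    · positivity
    · exact le_rfl

/-- uncovered vertices of the small clique -/
noncomputable def cnt {N M : ℕ} (U : Finset (W N M)) : ℕ :=
  (Finset.univ.filter fun a : Fin N => some (Sum.inl a) ∈ U).card

noncomputable def Hn (j : ℕ) : ℝ := (harmonic j : ℝ)

theorem Hn_succ (j : ℕ) : Hn (j + 1) = Hn j + ((j : ℝ) + 1)⁻¹ := by
  unfold Hn; rw [harmonic_succ]; push_cast; rfl

theorem Hn_zero : Hn 0 = 0 := by simp [Hn]

theorem Hn_nonneg (j : ℕ) : 0 ≤ Hn j := by
  induction j with
  | zero => rw [Hn_zero]
  | succ j ih => rw [Hn_succ]; positivity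

theorem Hn_le (j : ℕ) : Hn j ≤ j := by
  induction j with
  | zero => simp [Hn_zero]
  | succ j ih =>
    rw [Hn_succ]; push_cast
    have : ((j : ℝ) + 1)⁻¹ ≤ 1 := inv_le_one_of_one_le₀ (by have := Nat.cast_nonneg (α := ℝ) j; linarith)
    linarith

theorem cnt_le {N M : ℕ} (U : Finset (W N M)) : cnt U ≤ N :=
  (Finset.card_filter_le _ _).trans (by simp)

theorem cnt_erase_w {N M : ℕ} (U : Finset (W N M)) : cnt (U.erase none) = cnt U := by
  unfold cnt; congr 1; ext a; simp

theorem cnt_erase_b {N M : ℕ} (U : Finset (W N M)) (b : Fin M) :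
    cnt (U.erase (some (Sum.inr b))) = cnt U := by
  unfold cnt; congr 1; ext a; simp

theorem sum_H {N M : ℕ} (U : Finset (W N M)) (h : cnt U ≠ 0) :
    ∑ a : Fin N, Hn (cnt (U.erase (some (Sum.inl a)))) = N * Hn (cnt U) - 1 := by
  obtain ⟨j, hj⟩ := Nat.exists_eq_succ_of_ne_zero h
  have h1 : ∀ a : Fin N, Hn (cnt (U.erase (some (Sum.inl a)))) =
      Hn (cnt U) - if some (Sum.inl a) ∈ U then ((j : ℝ) + 1)⁻¹ else 0 := by
    intro a
    split_ifs with ha
    · have : cnt (U.erase (some (Sum.inl a))) = j := by
        have e : (Finset.univ.filter fun b : Fin N => some (Sum.inl b) ∈ U.erase (some (Sum.inl a))) =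
            (Finset.univ.filter fun b : Fin N => some (Sum.inl b) ∈ U).erase a := by
          ext b; simp
        unfold cnt at hj ⊢
        rw [e, Finset.card_erase_of_mem (by simpa using ha), hj]; rfl
      rw [this, hj, Nat.succ_eq_add_one, Hn_succ]; ring
    · rw [Finset.erase_eq_of_notMem ha, sub_zero]
  simp only [h1, Finset.sum_sub_distrib, Finset.sum_const, Finset.card_univ, Fintype.card_fin,
    nsmul_eq_mul]
  rw [← Finset.sum_filter, Finset.sum_const, nsmul_eq_mul]
  have : ((Finset.univ.filter fun a : Fin N => some (Sum.inl a) ∈ U).card : ℝ) = j + 1 := by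
    have : cnt U = j + 1 := hj
    unfold cnt at this
    exact_mod_cast this
  rw [this, mul_inv_cancel₀ (by positivity)]

noncomputable def φ {N M : ℕ} (ρ : ℝ) (x : W N M) (U : Finset (W N M)) : ℝ :=
  match x with
  | none => if cnt U = 0 then 0 else ρ * Hn (cnt U) + ρ
  | some (Sum.inl a) => ρ * Hn (cnt (U.erase (some (Sum.inl a))))
  | some (Sum.inr _) => if cnt U = 0 then 0 else ρ * Hn (cnt U) + ρ + M

theorem φ_nonneg {N M : ℕ} (ρ : ℝ) (hρ : 0 ≤ ρ) (x : W N M) (U : Finset (W N M)) : 0 ≤ φ ρ x U := by
  have := Hn_nonneg (cnt U)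
  rcases x with _ | a | a <;> simp only [φ]
  · split_ifs <;> positivity
  · exact mul_nonneg hρ (Hn_nonneg _)
  · split_ifs <;> positivity

theorem ne_of_cnt {N M : ℕ} (U : Finset (W N M)) (h : cnt U ≠ 0) : U.Nonempty := by
  obtain ⟨a, ha⟩ := Finset.card_ne_zero.1 h
  exact ⟨_, (Finset.mem_filter.1 ha).2⟩

theorem φ_zero {N M : ℕ} (ρ : ℝ) (x : W N M) (U : Finset (W N M)) (h : cnt (U.erase x) = 0) :
    φ ρ x U = 0 := by
  rcases x with _ | a | a <;> simp only [φ]
  · rw [cnt_erase_w] at h; rw [if_pos h]
  · rw [h, Hn_zero, mul_zero]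
  · rw [cnt_erase_b] at h; rw [if_pos h]

theorem cover_lower (N M : ℕ) (hN : 0 < N) (ρ : ℝ) (hρ : 0 ≤ ρ) (hρM : ρ * (N + 1) ≤ M * M) :
    ENNReal.ofReal (ρ * Hn N) ≤ coverMax (G N M) := by
  have hN' : (0 : ℝ) < N := by exact_mod_cast hN
  have h := lower (G N M) (φ ρ) (ρ * N + ρ + M) (by
      intro x U
      by_cases h : cnt (U.erase x) = 0
      · rw [φ_zero ρ x U h]; split_ifs <;> positivity
      · rw [if_pos (ne_of_cnt _ h), mul_one]
        have h1 : ∀ U : Finset (W N M), ρ * Hn (cnt U) ≤ ρ * N := fun U =>
          mul_le_mul_of_nonneg_left ((Hn_le _).trans (by exact_mod_cast cnt_le U)) hρ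
        have h2 := h1 U
        have h3 := h1 (U.erase x)
        have h4 := Nat.cast_nonneg (α := ℝ) M
        rcases x with _ | a | a <;> simp only [φ]
        · split_ifs
          · positivity
          · linarith
        · linarith
        · split_ifs
          · positivity
          · linarith) (by
      intro x U
      by_cases h : cnt (U.erase x) = 0
      · rw [φ_zero ρ x U h]
        refine add_nonneg (by split_ifs <;> norm_num) (Finset.sum_nonneg fun y _ =>
          mul_nonneg (step_nonneg _ _ _) (φ_nonneg ρ hρ _ _))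
      · rw [if_pos (ne_of_cnt _ h)]
        rcases x with _ | a | a
        · rw [avg_w]
          have h' := h
          rw [cnt_erase_w] at h'
          simp only [φ, ← Finset.mul_sum, sum_H _ h, cnt_erase_w, if_neg h',
            Finset.sum_const, Finset.card_univ, Fintype.card_fin, nsmul_eq_mul]
          rw [add_div' _ _ _ (by positivity), le_div_iff₀ (by positivity)]
          have h4 := Nat.cast_nonneg (α := ℝ) M
          nlinarith
        · rw [avg_q]
          simp only [φ, ← Finset.mul_sum, sum_H _ h, if_neg h, Finset.erase_idem]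
          rw [add_div' _ _ _ (by positivity), le_div_iff₀ (by positivity)]
          nlinarith
        · have hM : (0 : ℝ) < M := by exact_mod_cast a.pos
          rw [avg_b]
          have h' := h
          rw [cnt_erase_b] at h'
          simp only [φ, cnt_erase_b, if_neg h',
            Finset.sum_const, Finset.card_univ, Fintype.card_fin, nsmul_eq_mul]
          rw [add_div' _ _ _ (by positivity), le_div_iff₀ (by positivity)]
          nlinarith) none
  refine le_trans (ENNReal.ofReal_le_ofReal ?_) (h.trans (le_iSup (fun u => cover (G N M) fun _ : Fin 1 => u) none))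
  have : cnt (Finset.univ : Finset (W N M)) = N := by simp [cnt]
  simp only [φ, this, if_neg hN.ne']
  linarith

end Pool.Agent.H21.RW2
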