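import Mathlib

namespace Pool.Agent.H21.RWDef

open scoped ENNReal Classical

variable {V : Type} [Fintype V]

/-- one-step transition probability of the simple random walk on `G` -/
noncomputable def step (G : SimpleGraph V) (x y : V) : ℝ :=
  if G.Adj x y then (((Finset.univ.filter (fun z => G.Adj x z)).card : ℕ) : ℝ)⁻¹ else 0

/-- probability that the walk started at `u` is at `p 0, ..., p t` at times `0, ..., t` -/
noncomputable def pathProb (G : SimpleGraph V) (u : V) (t : ℕ) (p : Fin (t + 1) → V) : ℝ :=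
  if p 0 = u then ∏ i : Fin t, step G (p i.castSucc) (p i.succ) else 0

/-- probability that the walk started at `u` has not visited `v` up to time `t` -/
noncomputable def hitTail (G : SimpleGraph V) (v : V) (t : ℕ) (u : V) : ℝ :=
  ∑ p : Fin (t + 1) → V, if ∀ s, p s ≠ v then pathProb G u t p else 0

/-- expected hitting time of `v` from `u`, the sum of the tail probabilities -/
noncomputable def hit (G : SimpleGraph V) (u v : V) : ℝ≥0∞ :=
  ∑' t : ℕ, ENNReal.ofReal (hitTail G v t u)

/-- largest expected hitting time -/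
noncomputable def hmax (G : SimpleGraph V) : ℝ≥0∞ := ⨆ (u : V) (v : V), hit G u v

/-- probability that `k` independent walks started at `u 0, ..., u (k-1)` leave some vertex
unvisited up to time `t` -/
noncomputable def coverTail (G : SimpleGraph V) {k : ℕ} (u : Fin k → V) (t : ℕ) : ℝ :=
  ∑ p : Fin k → Fin (t + 1) → V,
    if ∃ v, ∀ i s, p i s ≠ v then ∏ i, pathProb G (u i) t (p i) else 0

/-- expected cover time of `k` independent walks -/
noncomputable def cover (G : SimpleGraph V) {k : ℕ} (u : Fin k → V) : ℝ≥0∞ :=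
  ∑' t : ℕ, ENNReal.ofReal (coverTail G u t)

/-- worst expected cover time of one walk -/
noncomputable def coverMax (G : SimpleGraph V) : ℝ≥0∞ := ⨆ u : V, cover G (fun _ : Fin 1 => u)

theorem step_nonneg (G : SimpleGraph V) (x y : V) : 0 ≤ step G x y := by
  unfold step; split_ifs <;> positivity

theorem step_sum (G : SimpleGraph V) (u : V) : ∑ w, step G u w ≤ 1 := by
  unfold step
  rw [← Finset.sum_filter, Finset.sum_const, nsmul_eq_mul]
  exact mul_inv_le_one

theorem pathProb_nonneg (G : SimpleGraph V) (u : V) (t : ℕ) (p : Fin (t + 1) → V) :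
    0 ≤ pathProb G u t p := by
  unfold pathProb; split_ifs
  · exact Finset.prod_nonneg fun _ _ => step_nonneg _ _ _
  · exact le_rfl

/-- probability of an event -/
noncomputable def Pr (G : SimpleGraph V) (t : ℕ) (u : V) (A : (Fin (t + 1) → V) → Prop) : ℝ :=
  ∑ p : Fin (t + 1) → V, if A p then pathProb G u t p else 0

theorem Pr_nonneg (G : SimpleGraph V) (t : ℕ) (u : V) (A : (Fin (t + 1) → V) → Prop) :
    0 ≤ Pr G t u A :=
  Finset.sum_nonneg fun p _ => by
    split_ifs
    · exact pathProb_nonneg _ _ _ _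
    · exact le_rfl

theorem Pr_zero (G : SimpleGraph V) (u : V) (A : (Fin 1 → V) → Prop) :
    Pr G 0 u A = if A (fun _ => u) then 1 else 0 := by
  unfold Pr pathProb
  rw [Finset.sum_eq_single (fun _ => u)]
  · simp
  · intro b _ hb
    have : b 0 ≠ u := fun h => hb (funext fun i => by rw [Fin.fin_one_eq_zero i, h])
    simp [this]
  · simp

theorem Pr_succ (G : SimpleGraph V) (t : ℕ) (u : V) (A : (Fin (t + 2) → V) → Prop) :
    Pr G (t + 1) u A = ∑ w, step G u w * Pr G t w (fun q => A (Fin.cons u q)) := by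
  unfold Pr
  rw [← (Fin.consEquiv (fun _ : Fin (t + 2) => V)).sum_comp, Fintype.sum_prod_type,
    Finset.sum_eq_single u]
  · simp only [Finset.mul_sum]
    rw [Finset.sum_comm]
    refine Finset.sum_congr rfl fun q _ => ?_
    rw [Finset.sum_eq_single (q 0)]
    · have e : (Fin.consEquiv (fun _ : Fin (t + 2) => V)) (u, q) = Fin.cons u q := rfl
      rw [e]
      by_cases h : A (Fin.cons u q)
      · simp only [h, if_true, pathProb, Fin.cons_zero, Fin.prod_univ_succ, Fin.castSucc_zero,
          Fin.cons_succ, Fin.castSucc_succ]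
      · simp [h]
    · intro b _ hb
      simp [pathProb, hb.symm]
    · simp
  · intro b _ hb
    refine Finset.sum_eq_zero fun q _ => ?_
    simp [pathProb, Fin.consEquiv, hb]
  · simp

theorem Pr_le_one (G : SimpleGraph V) (t : ℕ) : ∀ (u : V) (A : (Fin (t + 1) → V) → Prop),
    Pr G t u A ≤ 1 := by
  induction t with
  | zero => intro u A; rw [Pr_zero]; split_ifs <;> norm_num
  | succ t ih =>
    intro u A
    rw [Pr_succ]
    refine le_trans (Finset.sum_le_sum fun w _ => ?_) (step_sum G u)
    exact mul_le_of_le_one_right (step_nonneg _ _ _) (ih _ _)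

theorem hitTail_eq (G : SimpleGraph V) (v : V) (t : ℕ) (u : V) :
    hitTail G v t u = Pr G t u (fun p => ∀ s, p s ≠ v) := by
  unfold hitTail Pr
  refine Finset.sum_congr rfl fun p _ => ?_
  congr

theorem S_nonneg (G : SimpleGraph V) (v : V) (t : ℕ) (u : V) : 0 ≤ hitTail G v t u := by
  rw [hitTail_eq]; exact Pr_nonneg _ _ _ _

theorem S_le_one (G : SimpleGraph V) (v : V) (t : ℕ) (u : V) : hitTail G v t u ≤ 1 := by
  rw [hitTail_eq]; exact Pr_le_one _ _ _ _

theorem S_zero (G : SimpleGraph V) (v u : V) : hitTail G v 0 u = if u = v then 0 else 1 := by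
  rw [hitTail_eq, Pr_zero]; simp

theorem S_succ (G : SimpleGraph V) (v u : V) (t : ℕ) :
    hitTail G v (t + 1) u = if u = v then 0 else ∑ w, step G u w * hitTail G v t w := by
  rw [hitTail_eq, Pr_succ]
  split_ifs with h
  · refine Finset.sum_eq_zero fun w _ => ?_
    have : Pr G t w (fun q => ∀ s, (Fin.cons u q : Fin (t + 2) → V) s ≠ v) = 0 := by
      unfold Pr
      refine Finset.sum_eq_zero fun q _ => if_neg fun h' => h' 0 (by simp [h])
    rw [this, mul_zero]
  · refine Finset.sum_congr rfl fun w _ => ?_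
    rw [hitTail_eq]
    congr 2
    funext q
    simp [Fin.forall_fin_succ, h]

theorem S_anti (G : SimpleGraph V) (v : V) (t : ℕ) : ∀ u, hitTail G v (t + 1) u ≤ hitTail G v t u := by
  induction t with
  | zero =>
    intro u
    rw [S_zero]
    split_ifs with h
    · rw [S_succ, if_pos h]
    · exact S_le_one _ _ _ _
  | succ t ih =>
    intro u
    rw [S_succ G v u (t + 1), S_succ G v u t]
    split_ifs
    · exact le_rfl
    · exact Finset.sum_le_sum fun w _ => mul_le_mul_of_nonneg_left (ih w) (step_nonneg _ _ _)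

theorem S_antitone (G : SimpleGraph V) (v u : V) : Antitone fun t => hitTail G v t u :=
  antitone_nat_of_succ_le fun t => S_anti G v t u

/-- upper bound by potentials -/
theorem upper (G : SimpleGraph V) (v : V) (g D : V → ℝ) (hg : ∀ x, 0 ≤ g x) (hD : ∀ x, 0 ≤ D x)
    (h : ∀ x, x ≠ v → 1 ≤ g x ∨
      (∑ y, step G x y * g y ≤ g x ∧ 1 + ∑ y, step G x y * D y ≤ D x)) (n : ℕ) :
    ∀ x, ∑ t ∈ Finset.range n, hitTail G v t x ≤ n * g x + D x := by
  induction n with
  | zero => intro x; simpa using hD x
  | succ n ih =>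
    intro x
    by_cases hx : x = v
    · rw [Finset.sum_eq_zero]
      · have := hg x; have := hD x; positivity
      · intro t _
        cases t with
        | zero => rw [S_zero, if_pos hx]
        | succ t => rw [S_succ, if_pos hx]
    · rcases h x hx with h1 | ⟨h1, h2⟩
      · calc _ ≤ ∑ t ∈ Finset.range (n + 1), g x :=
              Finset.sum_le_sum fun t _ => (S_le_one _ _ _ _).trans h1
          _ ≤ _ := by simpa using hD x
      · rw [Finset.sum_range_succ', S_zero, if_neg hx]
        simp only [S_succ, if_neg hx]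
        rw [Finset.sum_comm]
        have : ∑ y, ∑ t ∈ Finset.range n, step G x y * hitTail G v t y ≤
            ∑ y, (n * (step G x y * g y) + step G x y * D y) := Finset.sum_le_sum fun y _ => by
          rw [← Finset.mul_sum]
          have := mul_le_mul_of_nonneg_left (ih y) (step_nonneg G x y)
          linarith
        rw [Finset.sum_add_distrib, ← Finset.mul_sum] at this
        have h3 := mul_le_mul_of_nonneg_left h1 (Nat.cast_nonneg (α := ℝ) n)
        have := hg x
        push_cast
        linarith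

theorem markov (G : SimpleGraph V) (v x : V) (n t : ℕ) (ht : n ≤ t) :
    n * hitTail G v t x ≤ ∑ s ∈ Finset.range n, hitTail G v s x := by
  calc _ = ∑ s ∈ Finset.range n, hitTail G v t x := by simp
    _ ≤ _ := Finset.sum_le_sum fun s hs =>
      S_antitone G v x ((Finset.mem_range.1 hs).le.trans ht)

theorem tsum_le (f : ℕ → ℝ) (hf : ∀ t, 0 ≤ f t) (B : ℝ)
    (h : ∀ n, ∑ t ∈ Finset.range n, f t ≤ B) : ∑' t, ENNReal.ofReal (f t) ≤ ENNReal.ofReal B := by
  rw [ENNReal.tsum_eq_iSup_nat]
  refine iSup_le fun n => ?_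
  rw [← ENNReal.ofReal_sum_of_nonneg fun t _ => hf t]
  exact ENNReal.ofReal_le_ofReal (h n)

theorem union_bound (G : SimpleGraph V) {k : ℕ} (u : Fin k → V) (t : ℕ) :
    coverTail G u t ≤ ∑ v, ∏ i, hitTail G v t (u i) := by
  unfold coverTail hitTail
  simp only [Finset.prod_univ_sum, Fintype.piFinset_univ]
  rw [Finset.sum_comm]
  refine Finset.sum_le_sum fun p _ => ?_
  have hn : ∀ v, 0 ≤ ∏ i, if ∀ s, p i s ≠ v then pathProb G (u i) t (p i) else 0 := fun v =>
    Finset.prod_nonneg fun i _ => by
      split_ifs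
      · exact pathProb_nonneg _ _ _ _
      · exact le_rfl
  split_ifs with h
  · obtain ⟨v, hv⟩ := h
    refine le_trans (le_of_eq ?_) (Finset.single_le_sum (fun v _ => hn v) (Finset.mem_univ v))
    exact Finset.prod_congr rfl fun i _ => (if_pos (hv i)).symm
  · exact Finset.sum_nonneg fun v _ => hn v

theorem coverTail_nonneg (G : SimpleGraph V) {k : ℕ} (u : Fin k → V) (t : ℕ) :
    0 ≤ coverTail G u t :=
  Finset.sum_nonneg fun p _ => by
    split_ifs
    · exact Finset.prod_nonneg fun _ _ => pathProb_nonneg _ _ _ _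
    · exact le_rfl

theorem coverTail_le_one (G : SimpleGraph V) {k : ℕ} (u : Fin k → V) (t : ℕ) :
    coverTail G u t ≤ 1 := by
  have h1 : coverTail G u t ≤ ∏ i, Pr G t (u i) (fun _ => True) := by
    unfold coverTail Pr
    simp only [if_true, Finset.prod_univ_sum, Fintype.piFinset_univ]
    refine Finset.sum_le_sum fun p _ => ?_
    split_ifs
    · exact le_rfl
    · exact Finset.prod_nonneg fun _ _ => pathProb_nonneg _ _ _ _
  exact h1.trans (Finset.prod_le_one (fun _ _ => Pr_nonneg _ _ _ _) fun _ _ => Pr_le_one _ _ _ _)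

/-- probability that some vertex of `U` is unvisited -/
noncomputable def T (G : SimpleGraph V) (U : Finset V) (t : ℕ) (u : V) : ℝ :=
  Pr G t u (fun p => ∃ v ∈ U, ∀ s, p s ≠ v)

variable [DecidableEq V]

theorem T_zero (G : SimpleGraph V) (U : Finset V) (u : V) :
    T G U 0 u = if (U.erase u).Nonempty then 1 else 0 := by
  unfold T
  rw [Pr_zero]
  congr 1
  simp only [Finset.Nonempty, Finset.mem_erase, forall_const, eq_iff_iff]
  exact ⟨fun ⟨v, a, b⟩ => ⟨v, b.symm, a⟩, fun ⟨v, a, b⟩ => ⟨v, b, a.symm⟩⟩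

theorem T_succ (G : SimpleGraph V) (U : Finset V) (t : ℕ) (u : V) :
    T G U (t + 1) u = ∑ w, step G u w * T G (U.erase u) t w := by
  unfold T
  rw [Pr_succ]
  refine Finset.sum_congr rfl fun w _ => ?_
  congr 2
  funext q
  simp only [Fin.forall_fin_succ, Fin.cons_zero, Fin.cons_succ, Finset.mem_erase, eq_iff_iff]
  exact ⟨fun ⟨v, a, b, c⟩ => ⟨v, ⟨b.symm, a⟩, c⟩, fun ⟨v, ⟨a, b⟩, c⟩ => ⟨v, b, a.symm, c⟩⟩

omit [DecidableEq V] in
theorem cover_one (G : SimpleGraph V) (u : V) (t : ℕ) :
    coverTail G (fun _ : Fin 1 => u) t = T G Finset.univ t u := by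
  unfold coverTail T Pr
  rw [← (Equiv.funUnique (Fin 1) (Fin (t + 1) → V)).symm.sum_comp]
  refine Finset.sum_congr rfl fun p _ => ?_
  simp

theorem lower_aux (G : SimpleGraph V) (φ : V → Finset V → ℝ) (B : ℝ)
    (hB : ∀ x U, φ x U ≤ B * if (U.erase x).Nonempty then 1 else 0)
    (h : ∀ x U, φ x U ≤ (if (U.erase x).Nonempty then 1 else 0) +
      ∑ y, step G x y * φ y (U.erase x)) (n : ℕ) :
    ∀ x U, φ x U ≤ ∑ t ∈ Finset.range n, T G U t x + B * T G U n x := by
  induction n with
  | zero => intro x U; simpa [T_zero] using hB x U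
  | succ n ih =>
    intro x U
    rw [Finset.sum_range_succ', T_zero]
    simp only [T_succ]
    rw [Finset.sum_comm, Finset.mul_sum]
    have : ∑ y, step G x y * φ y (U.erase x) ≤
        ∑ y, (∑ t ∈ Finset.range n, step G x y * T G (U.erase x) t y +
          B * (step G x y * T G (U.erase x) n y)) := Finset.sum_le_sum fun y _ => by
      rw [← Finset.mul_sum]
      have := mul_le_mul_of_nonneg_left (ih y (U.erase x)) (step_nonneg G x y)
      linarith
    rw [Finset.sum_add_distrib] at this
    linarith [h x U]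

theorem lower (G : SimpleGraph V) (φ : V → Finset V → ℝ) (B : ℝ)
    (hB : ∀ x U, φ x U ≤ B * if (U.erase x).Nonempty then 1 else 0)
    (h : ∀ x U, φ x U ≤ (if (U.erase x).Nonempty then 1 else 0) +
      ∑ y, step G x y * φ y (U.erase x)) (x : V) :
    ENNReal.ofReal (φ x Finset.univ) ≤ cover G (fun _ : Fin 1 => x) := by
  unfold cover
  simp only [cover_one]
  have hn : ∀ t, 0 ≤ T G Finset.univ t x := fun t => Pr_nonneg _ _ _ _
  by_cases hs : Summable fun t => T G Finset.univ t x
  · rw [← ENNReal.ofReal_tsum_of_nonneg hn hs]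
    refine ENNReal.ofReal_le_ofReal ?_
    have h1 := hs.hasSum.tendsto_sum_nat.add (hs.tendsto_atTop_zero.const_mul B)
    rw [mul_zero, add_zero] at h1
    exact ge_of_tendsto' h1 fun n => lower_aux G φ B hB h n x _
  · have : ∑' t, ENNReal.ofReal (T G Finset.univ t x) = ⊤ := by
      by_contra h'
      apply hs
      have := ENNReal.summable_toReal h'
      simpa [ENNReal.toReal_ofReal (hn _)] using this
    rw [this]; exact le_top

end Pool.Agent.H21.RWDef
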