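import Pool.Agent.H21.Erd1

set_option autoImplicit false

open MeasureTheory Filter Set Topology
open scoped Real ComplexConjugate

namespace Pool.Agent.H21.Ref

noncomputable def cay (x : ℝ) : ℂ := ((x : ℂ) - Complex.I) / ((x : ℂ) + Complex.I)

theorem add_I_ne (x : ℝ) : (x : ℂ) + Complex.I ≠ 0 := by
  intro h
  have := congrArg Complex.im h
  simp at this

theorem cay_cont : Continuous cay := by
  unfold cay
  exact Continuous.div (by fun_prop) (by fun_prop) add_I_ne

theorem cay_norm (x : ℝ) : ‖cay x‖ = 1 := by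
  have h : (x : ℂ) - Complex.I = conj ((x : ℂ) + Complex.I) := by
    simp [sub_eq_add_neg]
  rw [cay, norm_div, h, Complex.norm_conj, div_self (norm_ne_zero_iff.2 (add_I_ne x))]

theorem cay_sub (x y : ℝ) : ‖1 - conj (cay x) * cay y‖ =
    2 * |x - y| / (‖(x : ℂ) + Complex.I‖ * ‖(y : ℂ) + Complex.I‖) := by
  have h2 : conj (cay x) * cay x = 1 := by rw [Complex.conj_mul']; simp [cay_norm]
  have h3 : 1 - conj (cay x) * cay y = conj (cay x) * (cay x - cay y) := by
    linear_combination -h2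
  have h4 : cay x - cay y = 2 * Complex.I * ((x - y : ℝ) : ℂ) /
      (((x : ℂ) + Complex.I) * ((y : ℂ) + Complex.I)) := by
    unfold cay
    have := add_I_ne x
    have := add_I_ne y
    push_cast
    field_simp
    ring
  rw [h3, norm_mul, Complex.norm_conj, cay_norm, one_mul, h4, norm_div, norm_mul, norm_mul,
    norm_mul, Complex.norm_real]
  simp

noncomputable def mom (k : ℕ) (ρ : Measure ℝ) : ℂ := ∫ x, cay x ^ k ∂ρ

noncomputable def kr (r : ℝ) (p : ℝ × ℝ) : ℝ := Real.log ‖1 - (r : ℂ) * (conj (cay p.1) * cay p.2)‖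

theorem hasSum_kr (ρ ν : Measure ℝ) [IsProbabilityMeasure ρ] [IsProbabilityMeasure ν]
    (r : ℝ) (hr0 : 0 ≤ r) (hr1 : r < 1) :
    HasSum (fun k : ℕ => r ^ k / k * (conj (mom k ρ) * mom k ν).re)
      (-∫ p, kr r p ∂(ρ.prod ν)) := by
  have hc := cay_cont
  set F : ℕ → ℝ × ℝ → ℝ := fun k p => r ^ k / k * ((conj (cay p.1)) ^ k * cay p.2 ^ k).re with hF
  have hbd : ∀ k p, ‖F k p‖ ≤ r ^ k := by
    intro k p
    have h1 : |((conj (cay p.1)) ^ k * cay p.2 ^ k).re| ≤ 1 := by
      refine (Complex.abs_re_le_norm _).trans ?_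
      simp [cay_norm]
    have h2 : r ^ k / k ≤ r ^ k := by
      rcases Nat.eq_zero_or_pos k with rfl | hk
      · simp
      · exact div_le_self (by positivity) (by exact_mod_cast hk)
    have h3 : 0 ≤ r ^ k / k := by positivity
    simp only [hF, Real.norm_eq_abs, abs_mul, abs_of_nonneg h3]
    nlinarith [abs_nonneg ((conj (cay p.1)) ^ k * cay p.2 ^ k).re]
  have hint : ∀ k, Integrable (F k) (ρ.prod ν) := fun k =>
    Integrable.of_bound (Continuous.aestronglyMeasurable (by simp only [hF]; fun_prop)) _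
      (Eventually.of_forall (hbd k))
  have hsum : Summable fun k => ∫ p, ‖F k p‖ ∂(ρ.prod ν) := by
    refine Summable.of_nonneg_of_le (fun k => integral_nonneg fun p => norm_nonneg _)
      (fun k => ?_) (summable_geometric_of_lt_one hr0 hr1)
    have := integral_mono (hint k).norm (integrable_const (r ^ k)) (hbd k)
    simpa using this
  have hs := hasSum_integral_of_summable_integral_norm hint hsum
  have h1 : ∀ k, ∫ p, F k p ∂(ρ.prod ν) = r ^ k / k * (conj (mom k ρ) * mom k ν).re := by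
    intro k
    simp only [hF]
    rw [integral_const_mul]
    congr 1
    have hi : Integrable (fun p : ℝ × ℝ => (conj (cay p.1)) ^ k * cay p.2 ^ k) (ρ.prod ν) :=
      Integrable.of_bound (Continuous.aestronglyMeasurable (by fun_prop)) 1
        (Eventually.of_forall fun p => by simp [cay_norm])
    have e1 := integral_re (𝕜 := ℂ) hi
    simp only [RCLike.re_to_complex] at e1
    rw [e1, integral_prod_mul (fun x : ℝ => (conj (cay x)) ^ k) (fun y : ℝ => cay y ^ k)]
    unfold mom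
    rw [← integral_conj]
    simp
  have h2 : ∀ p, ∑' k, F k p = -kr r p := by
    intro p
    have hw : ‖(r : ℂ) * (conj (cay p.1) * cay p.2)‖ < 1 := by
      simp [cay_norm, abs_of_nonneg hr0, hr1]
    have h1 := Complex.hasSum_re (Complex.hasSum_taylorSeries_neg_log hw)
    rw [Complex.neg_re, Complex.log_re] at h1
    unfold kr
    rw [← h1.tsum_eq]
    refine tsum_congr fun k => ?_
    simp only [hF]
    have : ((r : ℂ) * (conj (cay p.1) * cay p.2)) ^ k / (k : ℂ)
        = ((r ^ k / k : ℝ) : ℂ) * ((conj (cay p.1)) ^ k * cay p.2 ^ k) := by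
      push_cast
      ring
    rw [this, Complex.re_ofReal_mul]
  simp_rw [h1, h2, integral_neg] at hs
  exact hs

theorem kr_neg (ρ ν : Measure ℝ) [IsProbabilityMeasure ρ] [IsProbabilityMeasure ν]
    (r : ℝ) (hr0 : 0 ≤ r) (hr1 : r < 1) :
    ∫ p, kr r p ∂(ρ.prod ρ) + ∫ p, kr r p ∂(ν.prod ν) ≤ 2 * ∫ p, kr r p ∂(ρ.prod ν) := by
  have h := (((hasSum_kr ρ ρ r hr0 hr1).add (hasSum_kr ν ν r hr0 hr1)).sub
    ((hasSum_kr ρ ν r hr0 hr1).mul_left 2)).nonneg fun k => by
      have h3 : 0 ≤ r ^ k / k := by positivity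
      simp only [Complex.mul_re, Complex.conj_re, Complex.conj_im]
      nlinarith [mul_nonneg h3 (sq_nonneg ((mom k ρ).re - (mom k ν).re)),
        mul_nonneg h3 (sq_nonneg ((mom k ρ).im - (mom k ν).im))]
  linarith

theorem kr_meas (r : ℝ) : Measurable (kr r) := by
  have hc := cay_cont
  unfold kr
  exact Real.measurable_log.comp (Continuous.measurable (by fun_prop))

theorem w_norm (p : ℝ × ℝ) : ‖conj (cay p.1) * cay p.2‖ = 1 := by simp [cay_norm]

theorem kr_up (r : ℝ) (hr0 : 0 ≤ r) (hr1 : r ≤ 1) (p : ℝ × ℝ) : kr r p ≤ 2 := by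
  refine (Real.log_le_self (norm_nonneg _)).trans ((norm_sub_le _ _).trans ?_)
  rw [norm_mul, w_norm]
  simp [abs_of_nonneg hr0]
  linarith

theorem kr_low (r : ℝ) (hr0 : 0 < r) (hr1 : r ≤ 1) (p : ℝ × ℝ) (hp : p.1 ≠ p.2) :
    kr 1 p + Real.log r / 2 ≤ kr r p := by
  have h1 := Erd.dil _ (w_norm p).le r hr0.le hr1
  have h2 : 0 < ‖1 - conj (cay p.1) * cay p.2‖ := by
    rw [cay_sub]
    have := abs_pos.2 (sub_ne_zero.2 hp)
    have := norm_pos_iff.2 (add_I_ne p.1)
    have := norm_pos_iff.2 (add_I_ne p.2)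
    positivity
  have hl := Real.log_le_log (by positivity) h1
  rw [Real.log_mul hr0.ne' (by positivity), Real.log_pow, Real.log_pow] at hl
  unfold kr
  push_cast at hl ⊢
  rw [one_mul]
  linarith

theorem off_diag (ρ ν : Measure ℝ) [IsProbabilityMeasure ρ] [IsProbabilityMeasure ν]
    [NullSingletonClass ν] : ∀ᵐ p ∂(ρ.prod ν), p.1 ≠ p.2 := by
  have hm : MeasurableSet {p : ℝ × ℝ | p.1 ≠ p.2} :=
    (measurableSet_eq_fun measurable_fst measurable_snd).compl
  rw [Measure.ae_prod_iff_ae_ae hm]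
  refine Eventually.of_forall fun x => ?_
  have : ∀ᵐ y ∂ν, y ∉ ({x} : Set ℝ) := compl_mem_ae_iff.2 (measure_singleton x)
  filter_upwards [this] with y hy
  intro h
  exact hy (by simp [h])

theorem kr_int (ρ ν : Measure ℝ) [IsProbabilityMeasure ρ] [IsProbabilityMeasure ν]
    [NullSingletonClass ν] (hi : Integrable (kr 1) (ρ.prod ν)) (r : ℝ) (hr0 : 1 / 2 ≤ r)
    (hr1 : r ≤ 1) : ∀ᵐ p ∂(ρ.prod ν), ‖kr r p‖ ≤ ‖kr 1 p‖ + 2 := by
  filter_upwards [off_diag ρ ν] with p hp
  have h1 := kr_up r (by linarith) hr1 p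
  have h2 := kr_low r (by linarith) hr1 p hp
  have h3 : -1 ≤ Real.log r := by
    have := Real.one_sub_inv_le_log_of_pos (show 0 < r by linarith)
    have h4 : r⁻¹ ≤ 2 := by
      rw [inv_le_comm₀ (by linarith) (by norm_num)]
      linarith
    linarith
  rw [Real.norm_eq_abs, Real.norm_eq_abs, abs_le]
  constructor <;> linarith [neg_abs_le (kr 1 p), abs_nonneg (kr 1 p)]

theorem kr_one (ρ ν : Measure ℝ) [IsProbabilityMeasure ρ] [IsProbabilityMeasure ν]
    [NullSingletonClass ρ] [NullSingletonClass ν] (h1 : Integrable (kr 1) (ρ.prod ρ))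
    (h2 : Integrable (kr 1) (ν.prod ν)) (h3 : Integrable (kr 1) (ρ.prod ν)) :
    ∫ p, kr 1 p ∂(ρ.prod ρ) + ∫ p, kr 1 p ∂(ν.prod ν) ≤ 2 * ∫ p, kr 1 p ∂(ρ.prod ν) := by
  set r : ℕ → ℝ := fun n => 1 - 1 / 2 * (1 / ((n : ℝ) + 1)) with hr
  have hr0 : ∀ n, 1 / 2 ≤ r n := fun n => by
    have : 1 / ((n : ℝ) + 1) ≤ 1 := by
      rw [div_le_one (by positivity)]
      have : (0 : ℝ) ≤ n := by positivity
      linarith
    simp only [hr]
    linarith
  have hr1 : ∀ n, r n < 1 := fun n => by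
    have : 0 < 1 / ((n : ℝ) + 1) := by positivity
    simp only [hr]
    linarith
  have hlim : Tendsto r atTop (𝓝 1) := by
    have := (tendsto_one_div_add_atTop_nhds_zero_nat (𝕜 := ℝ)).const_mul (1 / 2) |>.const_sub 1
    rw [mul_zero, sub_zero] at this
    exact this
  have up : ∀ (σ : Measure ℝ) [IsProbabilityMeasure σ] [NullSingletonClass σ],
      Integrable (kr 1) (σ.prod σ) → ∀ n, ∫ p, kr 1 p ∂(σ.prod σ) + Real.log (r n) / 2
        ≤ ∫ p, kr (r n) p ∂(σ.prod σ) := by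
    intro σ _ _ h n
    have a1 : Integrable (kr (r n)) (σ.prod σ) :=
      Integrable.mono' (h.norm.add (integrable_const 2)) (kr_meas _).aestronglyMeasurable
        (kr_int σ σ h _ (hr0 n) (hr1 n).le)
    have a2 := integral_mono_ae (h.add (integrable_const (Real.log (r n) / 2))) a1 (by
      filter_upwards [off_diag σ σ] with p hp using
        kr_low _ (by linarith [hr0 n]) (hr1 n).le p hp)
    simp only [Pi.add_apply] at a2
    rw [integral_add h (integrable_const _)] at a2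
    simpa using a2
  have hd : Tendsto (fun n => ∫ p, kr (r n) p ∂(ρ.prod ν)) atTop (𝓝 (∫ p, kr 1 p ∂(ρ.prod ν))) := by
    refine tendsto_integral_of_dominated_convergence (fun p => ‖kr 1 p‖ + 2)
      (fun n => (kr_meas _).aestronglyMeasurable) (h3.norm.add (integrable_const 2))
      (fun n => kr_int ρ ν h3 _ (hr0 n) (hr1 n).le) ?_
    filter_upwards [off_diag ρ ν] with p hp
    unfold kr
    refine Tendsto.log (Tendsto.norm (Tendsto.const_sub _ (Tendsto.mul_const _
      (Complex.continuous_ofReal.tendsto 1 |>.comp hlim)))) ?_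
    rw [Complex.ofReal_one, one_mul, cay_sub]
    have := abs_pos.2 (sub_ne_zero.2 hp)
    have := norm_pos_iff.2 (add_I_ne p.1)
    have := norm_pos_iff.2 (add_I_ne p.2)
    positivity
  have hl : Tendsto (fun n => 2 * ∫ p, kr (r n) p ∂(ρ.prod ν) - Real.log (r n)) atTop
      (𝓝 (2 * ∫ p, kr 1 p ∂(ρ.prod ν) - Real.log 1)) :=
    (hd.const_mul 2).sub (hlim.log one_ne_zero)
  rw [Real.log_one, sub_zero] at hl
  refine ge_of_tendsto' hl fun n => ?_
  have := kr_neg ρ ν (r n) (by linarith [hr0 n]) (hr1 n)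
  linarith [up ρ h1 n, up ν h2 n]

noncomputable def aa (x : ℝ) : ℝ := Real.log ‖(x : ℂ) + Complex.I‖

theorem aa_cont : Continuous aa :=
  Continuous.log (by fun_prop) fun x => norm_ne_zero_iff.2 (add_I_ne x)

theorem pair (ρ ν : Measure ℝ) [IsProbabilityMeasure ρ] [IsProbabilityMeasure ν]
    [NullSingletonClass ν] (a1 : Integrable aa ρ) (a2 : Integrable aa ν)
    (h : Integrable (fun p : ℝ × ℝ => Real.log |p.1 - p.2|) (ρ.prod ν)) :
    Integrable (kr 1) (ρ.prod ν) ∧ ∫ p, kr 1 p ∂(ρ.prod ν) =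
      ∫ p, Real.log |p.1 - p.2| ∂(ρ.prod ν) + Real.log 2 - ∫ x, aa x ∂ρ - ∫ x, aa x ∂ν := by
  have he : ∀ᵐ p ∂(ρ.prod ν),
      Real.log |p.1 - p.2| + Real.log 2 - aa p.1 - aa p.2 = kr 1 p := by
    filter_upwards [off_diag ρ ν] with p hp
    have b1 := abs_pos.2 (sub_ne_zero.2 hp)
    have b2 := norm_pos_iff.2 (add_I_ne p.1)
    have b3 := norm_pos_iff.2 (add_I_ne p.2)
    rw [kr, Complex.ofReal_one, one_mul, cay_sub, Real.log_div (by positivity) (by positivity),
      Real.log_mul (by positivity) (by positivity), Real.log_mul (by positivity) (by positivity)]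
    unfold aa
    ring
  have i1 : Integrable (fun p : ℝ × ℝ => aa p.1) (ρ.prod ν) := a1.comp_fst ν
  have i2 : Integrable (fun p : ℝ × ℝ => aa p.2) (ρ.prod ν) := a2.comp_snd ρ
  have i3 : Integrable (fun p : ℝ × ℝ => Real.log |p.1 - p.2| + Real.log 2) (ρ.prod ν) :=
    h.add (integrable_const _)
  have i4 : Integrable (fun p : ℝ × ℝ => Real.log |p.1 - p.2| + Real.log 2 - aa p.1) (ρ.prod ν) :=
    i3.sub i1
  refine ⟨(i4.sub i2).congr he, ?_⟩
  rw [← integral_congr_ae he, integral_sub i4 i2, integral_sub i3 i1,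
    integral_add h (integrable_const _), integral_fun_fst, integral_fun_snd]
  simp

theorem neg_def (ρ ν : Measure ℝ) [IsProbabilityMeasure ρ] [IsProbabilityMeasure ν]
    [NullSingletonClass ρ] [NullSingletonClass ν] (a1 : Integrable aa ρ) (a2 : Integrable aa ν)
    (h1 : Integrable (fun p : ℝ × ℝ => Real.log |p.1 - p.2|) (ρ.prod ρ))
    (h2 : Integrable (fun p : ℝ × ℝ => Real.log |p.1 - p.2|) (ν.prod ν))
    (h3 : Integrable (fun p : ℝ × ℝ => Real.log |p.1 - p.2|) (ρ.prod ν)) :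
    ∫ p, Real.log |p.1 - p.2| ∂(ρ.prod ρ) + ∫ p, Real.log |p.1 - p.2| ∂(ν.prod ν)
      ≤ 2 * ∫ p, Real.log |p.1 - p.2| ∂(ρ.prod ν) := by
  obtain ⟨b1, c1⟩ := pair ρ ρ a1 a1 h1
  obtain ⟨b2, c2⟩ := pair ν ν a2 a2 h2
  obtain ⟨b3, c3⟩ := pair ρ ν a1 a2 h3
  have := kr_one ρ ν b1 b2 b3
  linarith

end Pool.Agent.H21.Ref
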