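import Pool.Agent.H21.Ref1

set_option autoImplicit false

open MeasureTheory Filter Set Topology
open scoped Real ComplexConjugate ENNReal

namespace Pool.Agent.H21.Ref

theorem cos_pot (α : ℂ) (t : ℝ) (h0 : α ≠ 0) (h : α ^ 2 + 1 = 2 * α * t) :
    IntegrableOn (fun θ => Real.log |t - Real.cos θ|) (Ioo 0 π) ∧
      ∫ θ in Ioo 0 π, Real.log |t - Real.cos θ|
        = π * (2 * Real.posLog ‖α‖ - Real.log (2 * ‖α‖)) := by
  have hpi := Real.pi_pos
  set F : ℝ → ℝ := fun θ => Real.log ‖circleMap 0 1 θ - α‖ with hF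
  have i0 : IntervalIntegrable F volume 0 (2 * π) :=
    circleIntegrable_log_norm_sub_const (a := α) (c := 0) 1
  have i1 : IntervalIntegrable F volume 0 π :=
    i0.mono_set (uIcc_subset_uIcc_left (by rw [uIcc_of_le (by positivity)]; constructor <;> linarith))
  have i2 : IntervalIntegrable F volume π (2 * π) :=
    i0.mono_set (uIcc_subset_uIcc_right (by rw [uIcc_of_le (by positivity)]; constructor <;> linarith))
  have i3 : IntervalIntegrable (fun θ => F (2 * π - θ)) volume 0 π := by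
    have := (i2.comp_sub_left (2 * π)).symm
    rwa [sub_self, show 2 * π - π = π by ring] at this
  have e0 : ∫ θ in (0 : ℝ)..2 * π, F θ = 2 * π * Real.posLog ‖α‖ := by
    have := circleAverage_log_norm_sub_const_eq_posLog (a := α)
    rw [Real.circleAverage_def, smul_eq_mul] at this
    rw [← this]
    field_simp
    rfl
  have e1 : ∫ θ in (0 : ℝ)..π, F (2 * π - θ) = ∫ θ in π..2 * π, F θ := by
    rw [intervalIntegral.integral_comp_sub_left, sub_zero, show 2 * π - π = π by ring]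
  have hae : ∀ᵐ θ : ℝ, F θ + F (2 * π - θ) - Real.log (2 * ‖α‖) = Real.log |t - Real.cos θ| := by
    have c1 := (countable_singleton α).preimage_circleMap 0 one_ne_zero
    have c2 : ((fun θ : ℝ => 2 * π - θ) ⁻¹' (circleMap 0 1 ⁻¹' {α})).Countable :=
      c1.preimage sub_right_injective
    filter_upwards [c1.ae_notMem volume, c2.ae_notMem volume] with θ a1 a2
    have b1 : circleMap 0 1 θ - α ≠ 0 := sub_ne_zero.2 a1
    have b2 : circleMap 0 1 (2 * π - θ) - α ≠ 0 := sub_ne_zero.2 a2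
    have b3 : circleMap 0 1 θ * circleMap 0 1 (2 * π - θ) = 1 := by
      simp only [circleMap, zero_add, Complex.ofReal_one, one_mul]
      rw [← Complex.exp_add, ← Complex.exp_two_pi_mul_I]
      congr 1
      push_cast
      ring
    have b4 : circleMap 0 1 θ + circleMap 0 1 (2 * π - θ) = 2 * (Real.cos θ : ℂ) := by
      simp only [circleMap, zero_add, Complex.ofReal_one, one_mul]
      have : Complex.exp (((2 * π - θ : ℝ) : ℂ) * Complex.I) = Complex.exp (-θ * Complex.I) := by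
        rw [← mul_one (Complex.exp (-θ * Complex.I)), ← Complex.exp_two_pi_mul_I,
          ← Complex.exp_add]
        congr 1
        push_cast
        ring
      rw [this, Complex.ofReal_cos, Complex.two_cos]
    have b5 : 2 * α * ((t - Real.cos θ : ℝ) : ℂ)
        = (circleMap 0 1 θ - α) * (circleMap 0 1 (2 * π - θ) - α) := by
      rw [Complex.ofReal_sub]
      linear_combination -h - b3 + α * b4
    have b6 := congrArg norm b5
    rw [norm_mul, norm_mul, norm_mul, Complex.norm_real, Real.norm_eq_abs] at b6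
    simp only [Complex.norm_ofNat] at b6
    have b7 := norm_pos_iff.2 h0
    have b8 := norm_pos_iff.2 b1
    have b9 := norm_pos_iff.2 b2
    have b10 : |t - Real.cos θ| = ‖circleMap 0 1 θ - α‖ * ‖circleMap 0 1 (2 * π - θ) - α‖
        / (2 * ‖α‖) := by
      rw [← b6]
      field_simp
    rw [b10, Real.log_div (by positivity) (by positivity), Real.log_mul b8.ne' b9.ne']
  have i4 : IntervalIntegrable (fun θ => F θ + F (2 * π - θ) - Real.log (2 * ‖α‖)) volume 0 π :=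
    (i1.add i3).sub intervalIntegrable_const
  refine ⟨(i4.1.mono_set Ioo_subset_Ioc_self).congr (ae_restrict_of_ae hae), ?_⟩
  rw [← integral_congr_ae (ae_restrict_of_ae hae), ← integral_Ioc_eq_integral_Ioo,
    ← intervalIntegral.integral_of_le hpi.le,
    intervalIntegral.integral_sub (i1.add i3) intervalIntegrable_const,
    intervalIntegral.integral_add i1 i3, e1,
    intervalIntegral.integral_add_adjacent_intervals i1 i2, e0]
  simp
  ring

theorem cos_pot_in (t : ℝ) (ht : |t| ≤ 1) :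
    IntegrableOn (fun θ => Real.log |t - Real.cos θ|) (Ioo 0 π) ∧
      ∫ θ in Ioo 0 π, Real.log |t - Real.cos θ| = -π * Real.log 2 := by
  have h1 : 0 ≤ 1 - t ^ 2 := by nlinarith [sq_abs t, abs_nonneg t]
  have h2 := Real.sq_sqrt h1
  have h3 : ‖(t : ℂ) + (√(1 - t ^ 2) : ℝ) * Complex.I‖ = 1 := by
    rw [Complex.norm_add_mul_I, h2]
    simp
  have h4 : (((√(1 - t ^ 2) : ℝ) : ℂ)) ^ 2 = 1 - (t : ℂ) ^ 2 := by exact_mod_cast h2
  have := cos_pot ((t : ℂ) + (√(1 - t ^ 2) : ℝ) * Complex.I) t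
    (norm_ne_zero_iff.1 (by rw [h3]; exact one_ne_zero))
    (by linear_combination (((√(1 - t ^ 2) : ℝ) : ℂ)) ^ 2 * Complex.I_sq - h4)
  rw [h3] at this
  simpa using this

theorem cos_pot_out (a t : ℝ) (ha : 1 ≤ a) (h : a ^ 2 + 1 = -2 * a * t) :
    IntegrableOn (fun θ => Real.log |t - Real.cos θ|) (Ioo 0 π) ∧
      ∫ θ in Ioo 0 π, Real.log |t - Real.cos θ| = π * Real.log (a / 2) := by
  have h1 : ‖((-a : ℝ) : ℂ)‖ = a := by
    rw [Complex.norm_real, Real.norm_eq_abs, abs_neg, abs_of_pos (by linarith)]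
  have := cos_pot ((-a : ℝ) : ℂ) t (norm_ne_zero_iff.1 (by rw [h1]; linarith))
    (by exact_mod_cast (by linarith : (-a) ^ 2 + 1 = 2 * (-a) * t))
  rw [h1, Real.posLog_eq_log (by rw [abs_of_pos (by linarith)]; exact ha),
    Real.log_mul (by norm_num) (by linarith)] at this
  rw [Real.log_div (by linarith) (by norm_num)]
  refine ⟨this.1, this.2.trans ?_⟩
  ring

noncomputable def TT (x : ℝ) : ℝ := (x ^ 4 - 25 * x ^ 2 + 72) / 72

noncomputable def vv (u : ℝ) : ℝ := √(337 / 4 + 72 * u)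

noncomputable def br (a b u : ℝ) : ℝ := a * √(25 / 2 + b * vv u)

theorem br_cont (a b : ℝ) : Continuous (br a b) := by
  unfold br vv
  fun_prop

theorem vv_bd (u : ℝ) (hu : u ∈ Ioo (-1 : ℝ) 1) :
    7 / 2 < vv u ∧ vv u < 25 / 2 ∧ vv u ^ 2 = 337 / 4 + 72 * u := by
  refine ⟨Real.lt_sqrt_of_sq_lt (by linarith [hu.1]),
    (Real.sqrt_lt' (by norm_num)).2 (by linarith [hu.2]), Real.sq_sqrt (by linarith [hu.1])⟩

theorem br_sq (a b u : ℝ) (hu : u ∈ Ioo (-1 : ℝ) 1) (ha : a ^ 2 = 1) (hb : b = 1 ∨ b = -1) :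
    br a b u ^ 2 = 25 / 2 + b * vv u := by
  obtain ⟨h1, h2, -⟩ := vv_bd u hu
  rw [br, mul_pow, ha, one_mul, Real.sq_sqrt]
  rcases hb with rfl | rfl <;> linarith

theorem TT_br (a b u : ℝ) (hu : u ∈ Ioo (-1 : ℝ) 1) (ha : a ^ 2 = 1) (hb : b = 1 ∨ b = -1) :
    TT (br a b u) = u := by
  have h1 := br_sq a b u hu ha hb
  obtain ⟨-, -, h3⟩ := vv_bd u hu
  rw [TT, show br a b u ^ 4 = (br a b u ^ 2) ^ 2 by ring, h1]
  rcases hb with rfl | rfl <;> nlinarith

theorem br_TT (a b x : ℝ) (ha : a ^ 2 = 1) (hb : b ^ 2 = 1) (h1 : 0 < a * x)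
    (h2 : 0 < b * (x ^ 2 - 25 / 2)) : br a b (TT x) = x := by
  have e1 : vv (TT x) = b * (x ^ 2 - 25 / 2) := by
    rw [vv, Real.sqrt_eq_iff_eq_sq (by unfold TT; nlinarith [sq_nonneg (x ^ 2 - 25 / 2)]) h2.le,
      mul_pow, hb, TT]
    ring
  have e2 : √(25 / 2 + b * (b * (x ^ 2 - 25 / 2))) = a * x := by
    have : 25 / 2 + b * (b * (x ^ 2 - 25 / 2)) = (a * x) ^ 2 := by
      rw [mul_pow, ha, ← mul_assoc, ← sq, hb]
      ring
    rw [this, Real.sqrt_sq h1.le]
  rw [br, e1, e2, ← mul_assoc, ← sq, ha, one_mul]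

noncomputable def dens (s x : ℝ) : ℝ :=
  π⁻¹ * |x ^ 2 - s| / √|(x ^ 2 - 9) * (x ^ 2 - 16) * (x ^ 2 - 25)|

theorem dens_meas (s : ℝ) : Measurable fun x => ENNReal.ofReal (dens s x) := by
  unfold dens
  fun_prop

theorem cv (a b : ℝ) (ha : a ^ 2 = 1) (hb : b = 1 ∨ b = -1) (J : Set ℝ) (hJ : MeasurableSet J)
    (h1 : ∀ x ∈ J, 0 < a * x ∧ 0 < b * (x ^ 2 - 25 / 2) ∧ TT x ∈ Ioo (-1 : ℝ) 1)
    (h2 : ∀ u ∈ Ioo (-1 : ℝ) 1, br a b u ∈ J) (g : ℝ → ℝ≥0∞) :
    ∫⁻ x in J, ENNReal.ofReal (dens (25 / 2) x) * g x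
      = ENNReal.ofReal (4 * π)⁻¹ * ∫⁻ θ in Ioo 0 π, g (br a b (Real.cos θ)) := by
  have hb2 : b ^ 2 = 1 := by rcases hb with rfl | rfl <;> norm_num
  have hinv : ∀ x ∈ J, br a b (Real.cos (Real.arccos (TT x))) = x := fun x hx => by
    obtain ⟨a1, a2, a3⟩ := h1 x hx
    rw [Real.cos_arccos a3.1.le a3.2.le, br_TT a b x ha hb2 a1 a2]
  have him : (fun x => Real.arccos (TT x)) '' J = Ioo 0 π := by
    ext θ
    constructor
    · rintro ⟨x, hx, rfl⟩
      obtain ⟨-, -, a3⟩ := h1 x hx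
      exact ⟨Real.arccos_pos.2 a3.2, Real.arccos_lt_pi.2 a3.1⟩
    · intro hθ
      have hc : Real.cos θ ∈ Ioo (-1 : ℝ) 1 := by
        have := Real.sin_pos_of_pos_of_lt_pi hθ.1 hθ.2
        constructor <;> nlinarith [Real.sin_sq_add_cos_sq θ, Real.neg_one_le_cos θ,
          Real.cos_le_one θ]
      refine ⟨_, h2 _ hc, ?_⟩
      simp only
      rw [TT_br a b _ hc ha hb, Real.arccos_cos hθ.1.le hθ.2.le]
  have hd : ∀ x ∈ J, HasDerivWithinAt (fun x => Real.arccos (TT x))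
      (-(1 / √(1 - TT x ^ 2)) * ((4 * x ^ 3 - 50 * x) / 72)) J x := by
    intro x hx
    obtain ⟨-, -, a3⟩ := h1 x hx
    have d1 : HasDerivAt TT ((4 * x ^ 3 - 50 * x) / 72) x := by
      refine HasDerivAt.congr_deriv ((((hasDerivAt_pow 4 x).sub
        ((hasDerivAt_pow 2 x).const_mul 25)).add_const 72).div_const 72) ?_
      norm_num
      ring
    exact ((Real.hasDerivAt_arccos a3.1.ne' a3.2.ne).comp x d1).hasDerivWithinAt
  have hinj : InjOn (fun x => Real.arccos (TT x)) J := fun x hx y hy h => by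
    rw [← hinv x hx, ← hinv y hy]
    simp only at h
    rw [h]
  rw [← him, lintegral_image_eq_lintegral_abs_deriv_mul hJ hd hinj,
    ← lintegral_const_mul' _ _ ENNReal.ofReal_ne_top]
  refine setLIntegral_congr_fun hJ fun x hx => ?_
  obtain ⟨a1, a2, a3⟩ := h1 x hx
  rw [hinv x hx, ← mul_assoc, ← ENNReal.ofReal_mul (by positivity)]
  congr 2
  have hx0 : 0 < |x| := abs_pos.2 (by rintro rfl; simp at a1)
  have b0 : 0 < 1 - TT x ^ 2 := by nlinarith [a3.1, a3.2]
  have b1 : 1 - TT x ^ 2 = (|x| / 72) ^ 2 * -((x ^ 2 - 9) * (x ^ 2 - 16) * (x ^ 2 - 25)) := by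
    rw [div_pow, sq_abs, TT]
    ring
  have b2 : 0 < -((x ^ 2 - 9) * (x ^ 2 - 16) * (x ^ 2 - 25)) := by
    rw [b1] at b0
    exact (pos_iff_pos_of_mul_pos b0).1 (by positivity)
  have b3 : √(1 - TT x ^ 2) = |x| / 72 * √|(x ^ 2 - 9) * (x ^ 2 - 16) * (x ^ 2 - 25)| := by
    rw [b1, Real.sqrt_mul (by positivity), Real.sqrt_sq (by positivity),
      abs_of_neg (neg_pos.1 b2)]
  have b4 : 0 < √|(x ^ 2 - 9) * (x ^ 2 - 16) * (x ^ 2 - 25)| :=
    Real.sqrt_pos.2 (abs_pos.2 (by linarith))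
  have b5 : |(4 * x ^ 3 - 50 * x) / 72| = |x| * |x ^ 2 - 25 / 2| / 18 := by
    rw [show (4 * x ^ 3 - 50 * x) / 72 = x * (x ^ 2 - 25 / 2) / 18 by ring, abs_div, abs_mul]
    norm_num
  rw [abs_mul, abs_neg, abs_of_nonneg (a := 1 / √(1 - TT x ^ 2)) (by positivity), b3, b5, dens]
  field_simp
  ring

end Pool.Agent.H21.Ref
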