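import Pool.Agent.H21.Ref2

set_option autoImplicit false

open MeasureTheory Filter Set Topology
open scoped Real ENNReal

namespace Pool.Agent.H21.Ref

def K0 : Set ℝ := Icc (-5) (-4) ∪ Icc (-3) 3 ∪ Icc 4 5

theorem K0_compact : IsCompact K0 := (isCompact_Icc.union isCompact_Icc).union isCompact_Icc

theorem K0_meas : MeasurableSet K0 := K0_compact.measurableSet

theorem K0_sq (x : ℝ) (hx : x ∈ K0) : x ^ 2 ≤ 9 ∨ (16 ≤ x ^ 2 ∧ x ^ 2 ≤ 25) := by
  rcases hx with (h | h) | h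
  · right; constructor <;> nlinarith [h.1, h.2]
  · left; nlinarith [h.1, h.2]
  · right; constructor <;> nlinarith [h.1, h.2]

theorem K0_abs (x : ℝ) (hx : x ∈ K0) : |x| ≤ 5 := by
  apply abs_le_of_sq_le_sq _ (by norm_num)
  rcases K0_sq x hx with h | h <;> linarith [h]

theorem K0_TT (x : ℝ) (hx : x ∈ K0) : |TT x| ≤ 1 := by
  have h0 := sq_nonneg x
  rw [abs_le, TT, show x ^ 4 = (x ^ 2) ^ 2 by ring]
  rcases K0_sq x hx with h | h
  · constructor <;> nlinarith
  · constructor <;> nlinarith [h.1, h.2]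

noncomputable def refl (s : ℝ) : Measure ℝ :=
  (volume.restrict K0).withDensity fun x => ENNReal.ofReal (dens s x)

instance (s : ℝ) : NullSingletonClass (refl s) := by
  unfold refl
  infer_instance

theorem refl_K0 (s : ℝ) : refl s K0ᶜ = 0 :=
  withDensity_absolutelyContinuous _ _ (by
    rw [Measure.restrict_apply K0_meas.compl, compl_inter_self, measure_empty])

noncomputable def mm : Measure ℝ := volume.restrict (Ioo 0 π)

instance : IsFiniteMeasure mm := by
  unfold mm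
  infer_instance

theorem mm_cos : ∀ᵐ θ ∂mm, Real.cos θ ∈ Ioo (-1 : ℝ) 1 := by
  filter_upwards [ae_restrict_mem (μ := volume) (s := Ioo 0 π) measurableSet_Ioo] with θ hθ
  have := Real.sin_pos_of_pos_of_lt_pi hθ.1 hθ.2
  constructor <;> nlinarith [Real.sin_sq_add_cos_sq θ, Real.neg_one_le_cos θ, Real.cos_le_one θ]

noncomputable def bb (a b θ : ℝ) : ℝ := br a b (Real.cos θ)

theorem bb_meas (a b : ℝ) : Measurable (bb a b) :=
  ((br_cont a b).comp Real.continuous_cos).measurable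

theorem big (u : ℝ) (hu : u ∈ Ioo (-1 : ℝ) 1) : br 1 1 u ∈ Ioo (4 : ℝ) 5 := by
  obtain ⟨h1, h2, -⟩ := vv_bd u hu
  rw [br, one_mul, one_mul]
  exact ⟨Real.lt_sqrt_of_sq_lt (by linarith), (Real.sqrt_lt' (by norm_num)).2 (by linarith)⟩

theorem sml (u : ℝ) (hu : u ∈ Ioo (-1 : ℝ) 1) : br 1 (-1) u ∈ Ioo (0 : ℝ) 3 := by
  obtain ⟨h1, h2, -⟩ := vv_bd u hu
  rw [br, one_mul]
  exact ⟨Real.sqrt_pos.2 (by linarith), (Real.sqrt_lt' (by norm_num)).2 (by linarith)⟩

theorem br_neg (b u : ℝ) : br (-1) b u = -br 1 b u := by simp [br]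

theorem TT_in (x : ℝ) (h : (0 < x ^ 2 ∧ x ^ 2 < 9) ∨ (16 < x ^ 2 ∧ x ^ 2 < 25)) :
    TT x ∈ Ioo (-1 : ℝ) 1 := by
  rw [TT, show x ^ 4 = (x ^ 2) ^ 2 by ring]
  rcases h with h | h <;> constructor <;> nlinarith [h.1, h.2]

theorem nu_eq : refl (25 / 2) = ENNReal.ofReal (4 * π)⁻¹ •
    (mm.map (bb (-1) 1) + mm.map (bb (-1) (-1)) + mm.map (bb 1 (-1)) + mm.map (bb 1 1)) := by
  refine Measure.ext_of_lintegral _ fun g hg => ?_
  have hae : K0 =ᵐ[volume] ((Ioo (-5) (-4) ∪ Ioo (-3) 0 ∪ Ioo 0 3 ∪ Ioo 4 5 : Set ℝ)) := by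
    have hf : ({-5, -4, -3, 0, 3, 4, 5} : Set ℝ).Countable := (toFinite _).countable
    filter_upwards [hf.ae_notMem volume] with x hx
    simp only [mem_insert_iff, mem_singleton_iff, not_or] at hx
    obtain ⟨a1, a2, a3, a4, a5, a6, a7⟩ := hx
    apply propext
    constructor
    · rintro ((h | h) | h)
      · exact Or.inl (Or.inl (Or.inl ⟨lt_of_le_of_ne h.1 (Ne.symm a1), lt_of_le_of_ne h.2 a2⟩))
      · rcases lt_or_gt_of_ne a4 with b | b
        · exact Or.inl (Or.inl (Or.inr ⟨lt_of_le_of_ne h.1 (Ne.symm a3), b⟩))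
        · exact Or.inl (Or.inr ⟨b, lt_of_le_of_ne h.2 a5⟩)
      · exact Or.inr ⟨lt_of_le_of_ne h.1 (Ne.symm a6), lt_of_le_of_ne h.2 a7⟩
    · rintro (((h | h) | h) | h)
      · exact Or.inl (Or.inl ⟨h.1.le, h.2.le⟩)
      · exact Or.inl (Or.inr ⟨h.1.le, by linarith [h.2]⟩)
      · exact Or.inl (Or.inr ⟨by linarith [h.1], h.2.le⟩)
      · exact Or.inr ⟨h.1.le, h.2.le⟩
  rw [refl, lintegral_withDensity_eq_lintegral_mul _ (dens_meas _) hg,
    Measure.restrict_congr_set hae, lintegral_union measurableSet_Ioo, lintegral_union measurableSet_Ioo,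
    lintegral_union measurableSet_Ioo]
  · simp only [Pi.mul_apply]
    rw [cv (-1) 1 (by norm_num) (Or.inl rfl) _ measurableSet_Ioo,
      cv (-1) (-1) (by norm_num) (Or.inr rfl) _ measurableSet_Ioo,
      cv 1 (-1) (by norm_num) (Or.inr rfl) _ measurableSet_Ioo _ sml,
      cv 1 1 (by norm_num) (Or.inl rfl) _ measurableSet_Ioo _ big,
      lintegral_smul_measure, lintegral_add_measure, lintegral_add_measure, lintegral_add_measure,
      lintegral_map hg (bb_meas _ _), lintegral_map hg (bb_meas _ _),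
      lintegral_map hg (bb_meas _ _), lintegral_map hg (bb_meas _ _), smul_eq_mul, mul_add, mul_add,
      mul_add]
    · rfl
    · intro x hx
      exact ⟨by linarith [hx.1], by nlinarith [hx.1],
        TT_in x (Or.inr ⟨by nlinarith [hx.1], by nlinarith [hx.1, hx.2]⟩)⟩
    · intro x hx
      exact ⟨by linarith [hx.1], by nlinarith [hx.1, hx.2],
        TT_in x (Or.inl ⟨by nlinarith [hx.1], by nlinarith [hx.1, hx.2]⟩)⟩
    · intro x hx
      exact ⟨by linarith [hx.2], by nlinarith [hx.1, hx.2],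
        TT_in x (Or.inl ⟨by nlinarith [hx.2], by nlinarith [hx.1, hx.2]⟩)⟩
    · intro u hu
      have := sml u hu
      rw [br_neg]
      constructor <;> linarith [this.1, this.2]
    · intro x hx
      exact ⟨by linarith [hx.2], by nlinarith [hx.2],
        TT_in x (Or.inr ⟨by nlinarith [hx.2], by nlinarith [hx.1, hx.2]⟩)⟩
    · intro u hu
      have := big u hu
      rw [br_neg]
      constructor <;> linarith [this.1, this.2]
  · rw [disjoint_left]
    intro x h1 h2
    linarith [h1.2, h2.1]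
  · rw [disjoint_left]
    rintro x (h1 | h1) h2 <;> linarith [h1.2, h2.1]
  · rw [disjoint_left]
    rintro x ((h1 | h1) | h1) h2 <;> linarith [h1.2, h2.1]

theorem nu_int (g : ℝ → ℝ) (hg : Measurable g) (H : ℝ → ℝ) (hH : Integrable H mm)
    (hb : ∀ᵐ θ ∂mm, |g (bb (-1) 1 θ)| + |g (bb (-1) (-1) θ)| + |g (bb 1 (-1) θ)| + |g (bb 1 1 θ)|
      ≤ H θ) :
    Integrable g (refl (25 / 2)) ∧ ∫ x, g x ∂(refl (25 / 2)) = (4 * π)⁻¹ *
      ∫ θ, (g (bb (-1) 1 θ) + g (bb (-1) (-1) θ) + g (bb 1 (-1) θ) + g (bb 1 1 θ)) ∂mm := by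
  have k : ∀ a b : ℝ, (∀ᵐ θ ∂mm, |g (bb a b θ)| ≤ H θ) → Integrable (fun θ => g (bb a b θ)) mm :=
    fun a b h => Integrable.mono' hH (hg.comp (bb_meas a b)).aestronglyMeasurable h
  have i1 := k (-1) 1 (by
    filter_upwards [hb] with θ h
    linarith [abs_nonneg (g (bb (-1) (-1) θ)), abs_nonneg (g (bb 1 (-1) θ)), abs_nonneg (g (bb 1 1 θ))])
  have i2 := k (-1) (-1) (by
    filter_upwards [hb] with θ h
    linarith [abs_nonneg (g (bb (-1) 1 θ)), abs_nonneg (g (bb 1 (-1) θ)), abs_nonneg (g (bb 1 1 θ))])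
  have i3 := k 1 (-1) (by
    filter_upwards [hb] with θ h
    linarith [abs_nonneg (g (bb (-1) (-1) θ)), abs_nonneg (g (bb (-1) 1 θ)), abs_nonneg (g (bb 1 1 θ))])
  have i4 := k 1 1 (by
    filter_upwards [hb] with θ h
    linarith [abs_nonneg (g (bb (-1) (-1) θ)), abs_nonneg (g (bb 1 (-1) θ)), abs_nonneg (g (bb (-1) 1 θ))])
  have j : ∀ a b : ℝ, Integrable (fun θ => g (bb a b θ)) mm → Integrable g (mm.map (bb a b)) :=
    fun a b h => (integrable_map_measure hg.aestronglyMeasurable (bb_meas a b).aemeasurable).2 h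
  have e : ∀ a b : ℝ, ∫ x, g x ∂(mm.map (bb a b)) = ∫ θ, g (bb a b θ) ∂mm :=
    fun a b => integral_map (bb_meas a b).aemeasurable hg.aestronglyMeasurable
  have j12 := (j _ _ i1).add_measure (j _ _ i2)
  have j123 := j12.add_measure (j _ _ i3)
  have i12 : Integrable (fun θ => g (bb (-1) 1 θ) + g (bb (-1) (-1) θ)) mm := i1.add i2
  have i123 : Integrable (fun θ => g (bb (-1) 1 θ) + g (bb (-1) (-1) θ) + g (bb 1 (-1) θ)) mm :=
    i12.add i3
  rw [nu_eq]
  refine ⟨(j123.add_measure (j _ _ i4)).smul_measure ENNReal.ofReal_ne_top, ?_⟩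
  rw [integral_smul_measure, integral_add_measure j123 (j _ _ i4),
    integral_add_measure j12 (j _ _ i3), integral_add_measure (j _ _ i1) (j _ _ i2), e, e, e, e,
    integral_add i123 i4, integral_add i12 i3, integral_add i1 i2,
    ENNReal.toReal_ofReal (by positivity), smul_eq_mul]

theorem mm_univ : mm.real univ = π := by
  simp [mm, Measure.real, Real.pi_pos.le]

instance : IsProbabilityMeasure (refl (25 / 2)) := by
  constructor
  rw [nu_eq]
  have : mm univ = ENNReal.ofReal π := by simp [mm]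
  simp only [Measure.smul_apply, Measure.add_apply, Measure.map_apply (bb_meas _ _) MeasurableSet.univ,
    preimage_univ, this, smul_eq_mul]
  have hp := Real.pi_pos
  rw [← ENNReal.ofReal_add hp.le hp.le, ← ENNReal.ofReal_add (by positivity) hp.le,
    ← ENNReal.ofReal_add (by positivity) hp.le, ← ENNReal.ofReal_mul (by positivity),
    ← ENNReal.ofReal_one]
  congr 1
  field_simp
  norm_num

theorem abs_log_le (t : ℝ) (h0 : 0 ≤ t) (h1 : t ≤ 10) : |Real.log t| ≤ 20 - Real.log t := by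
  have := Real.log_le_self h0
  rw [abs_le]
  constructor <;> linarith

theorem pot (z : ℝ) (hz : |z| ≤ 5)
    (hi : IntegrableOn (fun θ => Real.log |TT z - Real.cos θ|) (Ioo 0 π)) :
    Integrable (fun y => Real.log |z - y|) (refl (25 / 2)) ∧
      ∫ y, Real.log |z - y| ∂(refl (25 / 2)) =
        (Real.log 72 + π⁻¹ * ∫ θ in Ioo 0 π, Real.log |TT z - Real.cos θ|) / 4 := by
  have hne : ∀ᵐ θ ∂mm, TT z - Real.cos θ ≠ 0 := by
    have hs : ({θ | TT z - Real.cos θ = 0} ∩ Ioo 0 π).Subsingleton := by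
      intro a ha b hb
      refine Real.injOn_cos (Ioo_subset_Icc_self ha.2) (Ioo_subset_Icc_self hb.2) ?_
      have h1 : TT z - Real.cos a = 0 := ha.1
      have h2 : TT z - Real.cos b = 0 := hb.1
      linarith
    have : mm {θ | TT z - Real.cos θ = 0} = 0 := by
      rw [mm, Measure.restrict_apply' measurableSet_Ioo]
      exact hs.measure_zero _
    exact measure_eq_zero_iff_ae_notMem.1 this
  have hsum : ∀ᵐ θ ∂mm, Real.log |z - bb (-1) 1 θ| + Real.log |z - bb (-1) (-1) θ|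
      + Real.log |z - bb 1 (-1) θ| + Real.log |z - bb 1 1 θ|
      = Real.log 72 + Real.log |TT z - Real.cos θ| := by
    filter_upwards [hne, mm_cos] with θ h1 h2
    have a1 := br_sq 1 1 _ h2 (by norm_num) (Or.inl rfl)
    have a2 := br_sq 1 (-1) _ h2 (by norm_num) (Or.inr rfl)
    obtain ⟨-, -, a3⟩ := vv_bd _ h2
    have a4 : (z - bb (-1) 1 θ) * (z - bb (-1) (-1) θ) * (z - bb 1 (-1) θ) * (z - bb 1 1 θ)
        = 72 * (TT z - Real.cos θ) := by
      unfold bb
      rw [br_neg, br_neg, TT]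
      set p := br 1 1 (Real.cos θ)
      set q := br 1 (-1) (Real.cos θ)
      have : (z - -p) * (z - -q) * (z - q) * (z - p) = (z ^ 2 - p ^ 2) * (z ^ 2 - q ^ 2) := by ring
      rw [this, a1, a2]
      linear_combination -a3
    have a5 : (z - bb (-1) 1 θ) * (z - bb (-1) (-1) θ) * (z - bb 1 (-1) θ) * (z - bb 1 1 θ) ≠ 0 := by
      rw [a4]
      exact mul_ne_zero (by norm_num) h1
    simp only [ne_eq, mul_eq_zero, not_or] at a5
    simp only [Real.log_abs]
    rw [← Real.log_mul a5.1.1.1 a5.1.1.2, ← Real.log_mul (mul_ne_zero a5.1.1.1 a5.1.1.2) a5.1.2,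
      ← Real.log_mul (mul_ne_zero (mul_ne_zero a5.1.1.1 a5.1.1.2) a5.1.2) a5.2, a4,
      Real.log_mul (by norm_num) h1]
  have hi' : Integrable (fun θ => Real.log |TT z - Real.cos θ|) mm := hi
  have i1 : Integrable (fun θ => Real.log 72 + Real.log |TT z - Real.cos θ|) mm :=
    (integrable_const _).add hi'
  obtain ⟨k1, k2⟩ := nu_int (fun y => Real.log |z - y|)
    (Real.measurable_log.comp (Continuous.measurable (by fun_prop)))
    (fun θ => 80 - (Real.log 72 + Real.log |TT z - Real.cos θ|)) ((integrable_const _).sub i1) (by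
      filter_upwards [hsum, mm_cos] with θ h1 h2
      have b1 := big _ h2
      have b2 := sml _ h2
      have b3 := abs_le.1 hz
      have c : ∀ y : ℝ, -5 ≤ y → y ≤ 5 → abs (Real.log |z - y|) ≤ 20 - Real.log |z - y| :=
        fun y y1 y2 => abs_log_le _ (abs_nonneg _) (abs_le.2 ⟨by linarith, by linarith⟩)
      have c1 := c (bb (-1) 1 θ) (by rw [bb, br_neg]; linarith [b1.2]) (by rw [bb, br_neg]; linarith [b1.1])
      have c2 := c (bb (-1) (-1) θ) (by rw [bb, br_neg]; linarith [b2.2]) (by rw [bb, br_neg]; linarith [b2.1])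
      have c3 := c (bb 1 (-1) θ) (by rw [bb]; linarith [b2.1]) (by rw [bb]; linarith [b2.2])
      have c4 := c (bb 1 1 θ) (by rw [bb]; linarith [b1.1]) (by rw [bb]; linarith [b1.2])
      linarith)
  refine ⟨k1, ?_⟩
  rw [k2, integral_congr_ae hsum, integral_add (integrable_const _) hi', integral_const, mm_univ,
    smul_eq_mul]
  have := Real.pi_pos
  unfold mm
  field_simp

theorem pot_in (z : ℝ) (hz : z ∈ K0) :
    Integrable (fun y => Real.log |z - y|) (refl (25 / 2)) ∧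
      ∫ y, Real.log |z - y| ∂(refl (25 / 2)) = Real.log 36 / 4 := by
  obtain ⟨h1, h2⟩ := cos_pot_in (TT z) (K0_TT z hz)
  obtain ⟨h3, h4⟩ := pot z (K0_abs z hz) h1
  refine ⟨h3, ?_⟩
  rw [h4, h2, show (36 : ℝ) = 72 / 2 by norm_num, Real.log_div (by norm_num) (by norm_num)]
  have := Real.pi_pos
  field_simp
  ring

theorem pot_out (z s a : ℝ) (hz : z ^ 2 = s) (hs : s ≤ 25) (ha : 1 ≤ a)
    (h : a ^ 2 + 1 = -2 * a * ((s ^ 2 - 25 * s + 72) / 72)) :
    Integrable (fun y => Real.log |z - y|) (refl (25 / 2)) ∧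
      ∫ y, Real.log |z - y| ∂(refl (25 / 2)) = Real.log (36 * a) / 4 := by
  have hT : TT z = (s ^ 2 - 25 * s + 72) / 72 := by rw [TT, ← hz]; ring
  obtain ⟨h1, h2⟩ := cos_pot_out a (TT z) ha (by rw [hT]; exact h)
  obtain ⟨h3, h4⟩ := pot z (abs_le_of_sq_le_sq (by linarith) (by norm_num)) h1
  refine ⟨h3, ?_⟩
  rw [h4, h2, show 36 * a = 72 * (a / 2) by ring, Real.log_mul (by norm_num) (by positivity)]
  have := Real.pi_pos
  field_simp

theorem cross (ρ : Measure ℝ) [IsProbabilityMeasure ρ] (hK : ρ K0ᶜ = 0) :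
    Integrable (fun p : ℝ × ℝ => Real.log |p.1 - p.2|) (ρ.prod (refl (25 / 2))) ∧
      ∫ p, Real.log |p.1 - p.2| ∂(ρ.prod (refl (25 / 2))) = Real.log 36 / 4 := by
  have hm : Measurable fun p : ℝ × ℝ => Real.log |p.1 - p.2| :=
    Real.measurable_log.comp (Continuous.measurable (by fun_prop))
  have hKa : ∀ᵐ x ∂ρ, x ∈ K0 := hK
  have hKb : ∀ᵐ x ∂(refl (25 / 2)), x ∈ K0 := refl_K0 _
  have hi : Integrable (fun p : ℝ × ℝ => Real.log |p.1 - p.2|) (ρ.prod (refl (25 / 2))) := by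
    rw [integrable_prod_iff hm.aestronglyMeasurable]
    refine ⟨by filter_upwards [hKa] with x hx using (pot_in x hx).1, ?_⟩
    refine Integrable.of_bound
      (hm.stronglyMeasurable.norm.integral_prod_right').aestronglyMeasurable
      (20 - Real.log 36 / 4) ?_
    filter_upwards [hKa] with x hx
    rw [Real.norm_eq_abs, abs_of_nonneg (integral_nonneg fun y => norm_nonneg _)]
    have hpt : ∀ᵐ y ∂(refl (25 / 2)), ‖Real.log |x - y|‖ ≤ 20 - Real.log |x - y| := by
      filter_upwards [hKb] with y hy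
      refine abs_log_le _ (abs_nonneg _) ((abs_sub _ _).trans ?_)
      linarith [K0_abs x hx, K0_abs y hy]
    have := integral_mono_ae (pot_in x hx).1.norm ((integrable_const 20).sub (pot_in x hx).1) hpt
    simp only [Pi.sub_apply] at this
    rw [integral_sub (integrable_const 20) (pot_in x hx).1, (pot_in x hx).2] at this
    simpa using this
  refine ⟨hi, ?_⟩
  rw [integral_prod _ hi]
  have : ∀ᵐ x ∂ρ, ∫ y, Real.log |x - y| ∂(refl (25 / 2)) = Real.log 36 / 4 := by
    filter_upwards [hKa] with x hx using (pot_in x hx).2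
  rw [integral_congr_ae this]
  simp

theorem int_K0 (ρ : Measure ℝ) [IsProbabilityMeasure ρ] (hK : ρ K0ᶜ = 0) (f : ℝ → ℝ)
    (hf : Continuous f) : Integrable f ρ := by
  obtain ⟨C, hC⟩ := K0_compact.exists_bound_of_continuousOn hf.continuousOn
  refine Integrable.of_bound hf.aestronglyMeasurable C ?_
  have hKa : ∀ᵐ y ∂ρ, y ∈ K0 := hK
  filter_upwards [hKa] with y hy using hC y hy

theorem maximal (ρ : Measure ℝ) [IsProbabilityMeasure ρ] [NullSingletonClass ρ] (hK : ρ K0ᶜ = 0)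
    (hi : Integrable (fun p : ℝ × ℝ => Real.log |p.1 - p.2|) (ρ.prod ρ)) :
    ∫ p, Real.log |p.1 - p.2| ∂(ρ.prod ρ) ≤ Real.log 36 / 4 := by
  obtain ⟨a1, a2⟩ := cross ρ hK
  obtain ⟨b1, b2⟩ := cross (refl (25 / 2)) (refl_K0 _)
  have := neg_def ρ (refl (25 / 2)) (int_K0 ρ hK _ aa_cont) (int_K0 _ (refl_K0 _) _ aa_cont)
    hi b1 a1
  linarith

end Pool.Agent.H21.Ref
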