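import Pool.Agent.H21.Ref3

set_option autoImplicit false

open MeasureTheory Filter Set Topology
open scoped Real ENNReal

namespace Pool.Agent.H21.Ref

noncomputable def ff (x : ℝ) : ℝ := |x ^ 2 - 15| / |x ^ 2 - 25 / 2|

theorem ff_meas : Measurable ff := by
  unfold ff
  fun_prop

theorem ff_nn (x : ℝ) : 0 ≤ ff x := by
  unfold ff
  positivity

theorem mu_eq : refl 15 = (refl (25 / 2)).withDensity fun x => ENNReal.ofReal (ff x) := by
  rw [refl, refl, ← withDensity_mul _ (g := fun x => ENNReal.ofReal (ff x)) (dens_meas _)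
    (ENNReal.measurable_ofReal.comp ff_meas)]
  refine withDensity_congr_ae ?_
  filter_upwards [ae_restrict_mem K0_meas] with x hx
  have h : 0 < |x ^ 2 - 25 / 2| := by
    refine abs_pos.2 fun h => ?_
    rcases K0_sq x hx with a | a <;> linarith [a]
  simp only [Pi.mul_apply]
  rw [← ENNReal.ofReal_mul (by unfold dens; positivity)]
  congr 1
  unfold dens ff
  generalize |x ^ 2 - 25 / 2| = t at h ⊢
  field_simp

theorem ff_br (θ : ℝ) (h : Real.cos θ ∈ Ioo (-1 : ℝ) 1) (a : ℝ) (ha : a ^ 2 = 1) :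
    ff (bb a 1 θ) = (vv (Real.cos θ) - 5 / 2) / vv (Real.cos θ) ∧
    ff (bb a (-1) θ) = (vv (Real.cos θ) + 5 / 2) / vv (Real.cos θ) ∧
    bb a 1 θ ^ 2 = 25 / 2 + vv (Real.cos θ) ∧ bb a (-1) θ ^ 2 = 25 / 2 - vv (Real.cos θ) := by
  have a1 := br_sq a 1 _ h ha (Or.inl rfl)
  have a2 := br_sq a (-1) _ h ha (Or.inr rfl)
  obtain ⟨b1, b2, -⟩ := vv_bd _ h
  unfold ff bb
  rw [a1, a2]
  refine ⟨?_, ?_, by ring, by ring⟩
  · rw [abs_of_pos (by linarith), abs_of_pos (by linarith)]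
    congr 1 <;> ring
  · rw [abs_of_neg (by linarith), abs_of_neg (by linarith)]
    congr 1 <;> ring

theorem int_ff : Integrable ff (refl (25 / 2)) ∧ ∫ x, ff x ∂(refl (25 / 2)) = 1 := by
  have hs : ∀ᵐ θ ∂mm, ff (bb (-1) 1 θ) + ff (bb (-1) (-1) θ) + ff (bb 1 (-1) θ) + ff (bb 1 1 θ)
      = 4 := by
    filter_upwards [mm_cos] with θ h
    obtain ⟨a1, a2, -, -⟩ := ff_br θ h 1 (by norm_num)
    obtain ⟨a3, a4, -, -⟩ := ff_br θ h (-1) (by norm_num)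
    obtain ⟨b1, -, -⟩ := vv_bd _ h
    have : vv (Real.cos θ) ≠ 0 := by linarith
    rw [a1, a2, a3, a4]
    field_simp
    ring
  obtain ⟨k1, k2⟩ := nu_int ff ff_meas (fun _ => 4) (integrable_const _) (by
    filter_upwards [hs] with θ h
    simp only [abs_of_nonneg (ff_nn _)]
    exact h.le)
  refine ⟨k1, ?_⟩
  rw [k2, integral_congr_ae hs, integral_const, mm_univ, smul_eq_mul]
  have := Real.pi_pos
  field_simp

theorem int_ff2 : ∫ x, ff x * x ^ 2 ∂(refl (25 / 2)) = 10 := by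
  have hs : ∀ᵐ θ ∂mm, ff (bb (-1) 1 θ) * bb (-1) 1 θ ^ 2 + ff (bb (-1) (-1) θ) * bb (-1) (-1) θ ^ 2
      + ff (bb 1 (-1) θ) * bb 1 (-1) θ ^ 2 + ff (bb 1 1 θ) * bb 1 1 θ ^ 2 = 40 := by
    filter_upwards [mm_cos] with θ h
    obtain ⟨a1, a2, c1, c2⟩ := ff_br θ h 1 (by norm_num)
    obtain ⟨a3, a4, c3, c4⟩ := ff_br θ h (-1) (by norm_num)
    obtain ⟨b1, -, -⟩ := vv_bd _ h
    have : vv (Real.cos θ) ≠ 0 := by linarith
    rw [a1, a2, a3, a4, c1, c2, c3, c4]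
    field_simp
    ring
  obtain ⟨-, k2⟩ := nu_int (fun x => ff x * x ^ 2) (ff_meas.mul (by fun_prop)) (fun _ => 40)
    (integrable_const _) (by
    filter_upwards [hs] with θ h
    simp only [abs_of_nonneg (mul_nonneg (ff_nn _) (sq_nonneg _))]
    exact h.le)
  rw [k2, integral_congr_ae hs, integral_const, mm_univ, smul_eq_mul]
  have := Real.pi_pos
  field_simp
  norm_num

instance : IsProbabilityMeasure (refl 15) := by
  constructor
  rw [mu_eq, withDensity_apply _ MeasurableSet.univ, Measure.restrict_univ,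
    ← ofReal_integral_eq_lintegral_ofReal int_ff.1 (Eventually.of_forall ff_nn), int_ff.2,
    ENNReal.ofReal_one]

theorem mom2 : ∫ x, x ^ 2 ∂(refl 15) = 10 := by
  rw [mu_eq, integral_withDensity_eq_integral_toReal_smul (f := fun x => ENNReal.ofReal (ff x))
    (ENNReal.measurable_ofReal.comp ff_meas) (Eventually.of_forall fun _ => ENNReal.ofReal_lt_top),
    ← int_ff2]
  simp only [ENNReal.toReal_ofReal (ff_nn _), smul_eq_mul]

theorem szego : Integrable (fun x => Real.log (((refl 15).rnDeriv (refl (25 / 2)) x).toReal))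
      (refl (25 / 2)) ∧
    ∫ x, Real.log (((refl 15).rnDeriv (refl (25 / 2)) x).toReal) ∂(refl (25 / 2))
      = Real.log (27 / 32) / 2 := by
  have h1 : (refl 15).rnDeriv (refl (25 / 2)) =ᵐ[refl (25 / 2)]
      fun x => ENNReal.ofReal (ff x) := by
    conv_lhs => rw [mu_eq]
    exact Measure.rnDeriv_withDensity _ (ENNReal.measurable_ofReal.comp ff_meas)
  have g2 : √15 ^ 2 = (15 : ℝ) := Real.sq_sqrt (by norm_num)
  have c2 : √(25 / 2) ^ 2 = (25 / 2 : ℝ) := Real.sq_sqrt (by norm_num)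
  obtain ⟨i1, e1⟩ := pot_out (√15) 15 (3 / 2) g2 (by norm_num) (by norm_num) (by norm_num)
  obtain ⟨i2, e2⟩ := pot_out (-√15) 15 (3 / 2) (by rw [neg_sq, g2]) (by norm_num) (by norm_num)
    (by norm_num)
  obtain ⟨i3, e3⟩ := pot_out (√(25 / 2)) (25 / 2) (16 / 9) c2 (by norm_num) (by norm_num)
    (by norm_num)
  obtain ⟨i4, e4⟩ := pot_out (-√(25 / 2)) (25 / 2) (16 / 9) (by rw [neg_sq, c2]) (by norm_num)
    (by norm_num) (by norm_num)
  have hK : ∀ᵐ x ∂(refl (25 / 2)), x ∈ K0 := refl_K0 _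
  have h2 : ∀ᵐ x ∂(refl (25 / 2)), Real.log |√15 - x| + Real.log |-√15 - x|
      - (Real.log |√(25 / 2) - x| + Real.log |-√(25 / 2) - x|)
      = Real.log (((refl 15).rnDeriv (refl (25 / 2)) x).toReal) := by
    filter_upwards [h1, hK] with x a1 a2
    have b1 : (√15 - x) * (-√15 - x) = x ^ 2 - 15 := by linear_combination -g2
    have b2 : (√(25 / 2) - x) * (-√(25 / 2) - x) = x ^ 2 - 25 / 2 := by linear_combination -c2
    have b3 : x ^ 2 - 15 ≠ 0 := fun h => by rcases K0_sq x a2 with a | a <;> linarith [a]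
    have b4 : x ^ 2 - 25 / 2 ≠ 0 := fun h => by rcases K0_sq x a2 with a | a <;> linarith [a]
    have b5 := mul_ne_zero_iff.1 (b1 ▸ b3)
    have b6 := mul_ne_zero_iff.1 (b2 ▸ b4)
    rw [a1, ENNReal.toReal_ofReal (ff_nn _), ff, Real.log_div (abs_ne_zero.2 b3) (abs_ne_zero.2 b4)]
    simp only [Real.log_abs]
    rw [← Real.log_mul b5.1 b5.2, ← Real.log_mul b6.1 b6.2, b1, b2]
  have i12 : Integrable (fun x => Real.log |√15 - x| + Real.log |-√15 - x|) (refl (25 / 2)) :=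
    i1.add i2
  have i34 : Integrable (fun x => Real.log |√(25 / 2) - x| + Real.log |-√(25 / 2) - x|)
    (refl (25 / 2)) := i3.add i4
  refine ⟨(i12.sub i34).congr h2, ?_⟩
  rw [← integral_congr_ae h2, integral_sub i12 i34, integral_add i1 i2, integral_add i3 i4,
    e1, e2, e3, e4, show (27 / 32 : ℝ) = (36 * (3 / 2)) / (36 * (16 / 9)) by norm_num,
    Real.log_div (x := 36 * (3 / 2)) (by norm_num) (by norm_num)]
  ring

theorem sq_pos (a : ℝ) (ha : 0 < a) :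
    Tendsto (fun ε : ℝ => ((a : ℂ) + ε * Complex.I) ^ (1 / 2 : ℂ)) (𝓝[>] 0) (𝓝 ((√a : ℝ) : ℂ)) := by
  have h1 : Tendsto (fun ε : ℝ => (a : ℂ) + ε * Complex.I) (𝓝[>] 0) (𝓝 (a : ℂ)) := by
    refine tendsto_nhdsWithin_of_tendsto_nhds (Continuous.tendsto' (by fun_prop) _ _ (by simp))
  have h2 := (continuousAt_cpow_const (b := (1 / 2 : ℂ))
    (Complex.ofReal_mem_slitPlane.2 ha)).tendsto.comp h1
  have h3 : (a : ℂ) ^ (1 / 2 : ℂ) = ((√a : ℝ) : ℂ) := by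
    rw [Real.sqrt_eq_rpow, Complex.ofReal_cpow ha.le]
    norm_num
  rw [← h3]
  exact h2

theorem sq_neg (a : ℝ) (ha : a < 0) :
    Tendsto (fun ε : ℝ => ((a : ℂ) + ε * Complex.I) ^ (1 / 2 : ℂ)) (𝓝[>] 0)
      (𝓝 ((√(-a) : ℝ) * Complex.I)) := by
  have h1 : Tendsto (fun ε : ℝ => (a : ℂ) + ε * Complex.I) (𝓝[>] 0)
      (𝓝[{z : ℂ | 0 ≤ z.im}] (a : ℂ)) := by
    refine tendsto_nhdsWithin_iff.2 ⟨tendsto_nhdsWithin_of_tendsto_nhds
      (Continuous.tendsto' (by fun_prop) _ _ (by simp)), ?_⟩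
    filter_upwards [self_mem_nhdsWithin] with ε hε
    simpa using le_of_lt hε
  have h2 := (Complex.continuousWithinAt_log_of_re_neg_of_im_zero (z := (a : ℂ))
    (by simpa using ha) (by simp)).tendsto.comp h1
  have h3 := (h2.mul_const (1 / 2 : ℂ)).cexp
  have h4 : Complex.exp (Complex.log a * (1 / 2 : ℂ)) = (√(-a) : ℝ) * Complex.I := by
    rw [← Complex.cpow_def_of_ne_zero (by exact_mod_cast ha.ne), Complex.ofReal_cpow_of_nonpos ha.le,
      Real.sqrt_eq_rpow, Complex.ofReal_cpow (by linarith),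
      show (π : ℂ) * Complex.I * (1 / 2) = π / 2 * Complex.I by ring,
      Complex.exp_pi_div_two_mul_I]
    norm_num
  rw [h4] at h3
  refine h3.congr fun ε => ?_
  rw [Complex.cpow_def_of_ne_zero]
  · rfl
  · intro h
    have := congrArg Complex.re h
    simp at this
    exact ha.ne this

noncomputable def GG (s : ℝ) (z : ℂ) : ℂ :=
  -((z - ((-s : ℝ) : ℂ)) * (z - (s : ℝ))) /
    (((z - ((-5 : ℝ) : ℂ)) ^ (1 / 2 : ℂ) * (z - ((-4 : ℝ) : ℂ)) ^ (1 / 2 : ℂ)) *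
     ((z - ((-3 : ℝ) : ℂ)) ^ (1 / 2 : ℂ) * (z - ((3 : ℝ) : ℂ)) ^ (1 / 2 : ℂ)) *
     ((z - ((4 : ℝ) : ℂ)) ^ (1 / 2 : ℂ) * (z - ((5 : ℝ) : ℂ)) ^ (1 / 2 : ℂ)))

theorem sq_gen (x e : ℝ) (u : ℂ) (h : (0 < x - e ∧ u = 1) ∨ (x - e < 0 ∧ u = Complex.I)) :
    Tendsto (fun ε : ℝ => ((x : ℂ) + ε * Complex.I - e) ^ (1 / 2 : ℂ)) (𝓝[>] 0)
      (𝓝 ((√|x - e| : ℝ) * u)) := by
  have e1 : ∀ ε : ℝ, (x : ℂ) + ε * Complex.I - e = ((x - e : ℝ) : ℂ) + ε * Complex.I := by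
    intro ε
    push_cast
    ring
  simp_rw [e1]
  rcases h with ⟨h, rfl⟩ | ⟨h, rfl⟩
  · rw [abs_of_pos h, mul_one]
    exact sq_pos _ h
  · rw [abs_of_neg h]
    exact sq_neg _ h

theorem GG_lim (x : ℝ) (u1 u2 u3 u4 u5 u6 : ℂ) (σ : ℝ)
    (h1 : (0 < x - -5 ∧ u1 = 1) ∨ (x - -5 < 0 ∧ u1 = Complex.I))
    (h2 : (0 < x - -4 ∧ u2 = 1) ∨ (x - -4 < 0 ∧ u2 = Complex.I))
    (h3 : (0 < x - -3 ∧ u3 = 1) ∨ (x - -3 < 0 ∧ u3 = Complex.I))
    (h4 : (0 < x - 3 ∧ u4 = 1) ∨ (x - 3 < 0 ∧ u4 = Complex.I))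
    (h5 : (0 < x - 4 ∧ u5 = 1) ∨ (x - 4 < 0 ∧ u5 = Complex.I))
    (h6 : (0 < x - 5 ∧ u6 = 1) ∨ (x - 5 < 0 ∧ u6 = Complex.I))
    (hu : u1 * u2 * (u3 * u4) * (u5 * u6) = σ * Complex.I) (hσ : σ ^ 2 = 1)
    (hs : |x ^ 2 - 15| = σ * (x ^ 2 - 15)) :
    π⁻¹ * limUnder (𝓝[>] (0 : ℝ)) (fun ε : ℝ => (GG (√15) (x + ε * Complex.I)).im) = dens 15 x := by
  have g2 : √15 ^ 2 = (15 : ℝ) := Real.sq_sqrt (by norm_num)
  have ne : ∀ (e : ℝ) (u : ℂ), ((0 < x - e ∧ u = 1) ∨ (x - e < 0 ∧ u = Complex.I)) →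
      0 < |x - e| := fun e u h => by
    rcases h with h | h
    · exact abs_pos.2 h.1.ne'
    · exact abs_pos.2 h.1.ne
  set W := √|(x ^ 2 - 9) * (x ^ 2 - 16) * (x ^ 2 - 25)| with hW
  have hW1 : W = √|x - -5| * √|x - -4| * (√|x - -3| * √|x - 3|) * (√|x - 4| * √|x - 5|) := by
    rw [hW, ← Real.sqrt_mul (abs_nonneg _), ← Real.sqrt_mul (abs_nonneg _),
      ← Real.sqrt_mul (abs_nonneg _), ← Real.sqrt_mul (by positivity),
      ← Real.sqrt_mul (by positivity), ← abs_mul, ← abs_mul, ← abs_mul, ← abs_mul, ← abs_mul]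
    congr 2
    ring
  have hW0 : 0 < W := by
    have := ne _ _ h1
    have := ne _ _ h2
    have := ne _ _ h3
    have := ne _ _ h4
    have := ne _ _ h5
    have := ne _ _ h6
    rw [hW1]
    positivity
  have t1 := (((sq_gen x _ _ h1).mul (sq_gen x _ _ h2)).mul
    ((sq_gen x _ _ h3).mul (sq_gen x _ _ h4))).mul ((sq_gen x _ _ h5).mul (sq_gen x _ _ h6))
  have e1 : ((√|x - -5| : ℝ) : ℂ) * u1 * ((√|x - -4| : ℝ) * u2) *
      ((√|x - -3| : ℝ) * u3 * ((√|x - 3| : ℝ) * u4)) *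
      ((√|x - 4| : ℝ) * u5 * ((√|x - 5| : ℝ) * u6)) = W * (σ * Complex.I) := by
    rw [← hu, hW1]
    push_cast
    ring
  rw [e1] at t1
  have t2 : Tendsto (fun ε : ℝ => -(((x : ℂ) + ε * Complex.I - ((-√15 : ℝ) : ℂ)) *
      ((x : ℂ) + ε * Complex.I - (√15 : ℝ)))) (𝓝[>] 0) (𝓝 (-((x ^ 2 - 15 : ℝ) : ℂ))) := by
    refine tendsto_nhdsWithin_of_tendsto_nhds (Continuous.tendsto' (by fun_prop) _ _ ?_)
    have : (((√15 : ℝ) : ℂ)) ^ 2 = 15 := by exact_mod_cast g2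
    push_cast
    linear_combination this
  have hσ0 : σ ≠ 0 := by rintro rfl; simp at hσ
  have hWc : (W : ℂ) ≠ 0 := by exact_mod_cast hW0.ne'
  have hσc : (σ : ℂ) ≠ 0 := by exact_mod_cast hσ0
  have t3 := t2.div t1 (mul_ne_zero hWc (mul_ne_zero hσc Complex.I_ne_zero))
  have e2 : -((x ^ 2 - 15 : ℝ) : ℂ) / (W * (σ * Complex.I))
      = ((σ * (x ^ 2 - 15) / W : ℝ) : ℂ) * Complex.I := by
    have : (σ : ℂ) ^ 2 = 1 := by exact_mod_cast hσ
    rw [div_eq_iff (mul_ne_zero hWc (mul_ne_zero hσc Complex.I_ne_zero))]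
    push_cast
    field_simp
    linear_combination (-(x : ℂ) ^ 2 + 15) * (σ : ℂ) ^ 2 * Complex.I_sq + ((x : ℂ) ^ 2 - 15) * this
  rw [e2] at t3
  have t4 := (Complex.continuous_im.tendsto _).comp t3
  rw [Complex.mul_I_im, Complex.ofReal_re] at t4
  have t5 : limUnder (𝓝[>] (0 : ℝ)) (fun ε : ℝ => (GG (√15) (x + ε * Complex.I)).im)
      = σ * (x ^ 2 - 15) / W := Tendsto.limUnder_eq t4
  rw [t5, dens, hs, ← hW, ← mul_div_assoc]

theorem GG_ae : ∀ᵐ x : ℝ ∂(volume.restrict K0),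
    π⁻¹ * limUnder (𝓝[>] (0 : ℝ)) (fun ε : ℝ => (GG (√15) (x + ε * Complex.I)).im) = dens 15 x := by
  have hf : ({-5, -4, -3, 3, 4, 5} : Set ℝ).Countable := (toFinite _).countable
  filter_upwards [ae_restrict_of_ae (hf.ae_notMem volume), ae_restrict_mem K0_meas] with x hx hK
  simp only [mem_insert_iff, mem_singleton_iff, not_or] at hx
  obtain ⟨a1, a2, a3, a5, a6, a7⟩ := hx
  rcases hK with (h | h) | h
  · have b1 := lt_of_le_of_ne h.1 (Ne.symm a1)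
    have b2 := lt_of_le_of_ne h.2 a2
    refine GG_lim x 1 _ _ _ _ _ 1 (Or.inl ⟨by linarith, rfl⟩) (Or.inr ⟨by linarith, rfl⟩)
      (Or.inr ⟨by linarith, rfl⟩) (Or.inr ⟨by linarith, rfl⟩) (Or.inr ⟨by linarith, rfl⟩)
      (Or.inr ⟨by linarith, rfl⟩) (by simp) (by norm_num) ?_
    rw [one_mul, abs_of_pos (by nlinarith)]
  · have b1 := lt_of_le_of_ne h.1 (Ne.symm a3)
    have b2 := lt_of_le_of_ne h.2 a5
    refine GG_lim x 1 1 1 _ _ _ (-1) (Or.inl ⟨by linarith, rfl⟩) (Or.inl ⟨by linarith, rfl⟩)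
      (Or.inl ⟨by linarith, rfl⟩) (Or.inr ⟨by linarith, rfl⟩) (Or.inr ⟨by linarith, rfl⟩)
      (Or.inr ⟨by linarith, rfl⟩) (by simp) (by norm_num) ?_
    rw [neg_one_mul, abs_of_neg (by nlinarith)]
  · have b1 := lt_of_le_of_ne h.1 (Ne.symm a6)
    have b2 := lt_of_le_of_ne h.2 a7
    refine GG_lim x 1 1 1 1 1 _ 1 (Or.inl ⟨by linarith, rfl⟩) (Or.inl ⟨by linarith, rfl⟩)
      (Or.inl ⟨by linarith, rfl⟩) (Or.inl ⟨by linarith, rfl⟩) (Or.inl ⟨by linarith, rfl⟩)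
      (Or.inr ⟨by linarith, rfl⟩) (by simp) (by norm_num) ?_
    rw [one_mul, abs_of_pos (by nlinarith)]

end Pool.Agent.H21.Ref
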