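import Mathlib
import Pool.Agent.H21.Peano3

set_option autoImplicit false
open Finset Complex Filter Topology

namespace Pool.Agent.H21.Rep

lemma represent {H : Type} [NormedAddCommGroup H] [NormedSpace ℂ H] (k : ℕ → H)
    (h : ∀ (f : H) (N0 : ℕ), ∃ N1, N0 < N1 ∧ ∃ c : ℕ → ℂ, (∀ n < N0, c n = 0) ∧
      ‖f - ∑ n ∈ range N1, c n • k n‖ ≤ ‖f‖ / 2 ∧
      ∀ N ≤ N1, ‖∑ n ∈ range N, c n • k n‖ ≤ 2 * ‖f‖) (f : H) :
    ∃ c : ℕ → ℂ, Tendsto (fun N => ∑ n ∈ range N, c n • k n) atTop (𝓝 f) := by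
  obtain ⟨u, -, hu⟩ := Pool.Agent.H21.Peano.seq_exists
    (fun s (x : ℕ × (ℕ → ℂ)) => ‖f - ∑ n ∈ range x.1, x.2 n • k n‖ ≤ (1 / 2) ^ s * ‖f‖)
    (fun s x y => x.1 < y.1 ∧ (∀ n < x.1, y.2 n = x.2 n) ∧ ∀ M, x.1 ≤ M → M ≤ y.1 →
      ‖f - ∑ n ∈ range M, y.2 n • k n‖ ≤ 3 * ((1 / 2) ^ s * ‖f‖)) (0, fun _ => 0) (by simp)
    (by
      rintro s ⟨N, c⟩ hx
      dsimp only at hx
      set g := f - ∑ n ∈ range N, c n • k n with hg
      obtain ⟨N1, h1, c', h2, h3, h4⟩ := h g N
      have key : ∀ M, N ≤ M → f - ∑ n ∈ range M, (if n < N then c n else c' n) • k n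
          = g - ∑ n ∈ range M, c' n • k n := by
        intro M hM
        rw [hg, sub_sub]
        congr 1
        rw [← sum_range_add_sum_Ico _ hM, ← sum_range_add_sum_Ico (fun n => c' n • k n) hM]
        have a1 : ∑ n ∈ range N, c' n • k n = 0 :=
          sum_eq_zero fun n hn => by rw [h2 n (mem_range.1 hn), zero_smul]
        rw [a1, zero_add]
        congr 1
        · exact sum_congr rfl fun n hn => by rw [if_pos (mem_range.1 hn)]
        · exact sum_congr rfl fun n hn => by rw [if_neg (not_lt.2 (mem_Ico.1 hn).1)]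
      refine ⟨(N1, fun n => if n < N then c n else c' n), ?_, h1, fun n hn => if_pos hn,
        fun M hM hM' => ?_⟩
      · dsimp only
        rw [key N1 h1.le, pow_succ]; linarith
      · dsimp only at hM hM' ⊢
        rw [key M hM]
        have := norm_sub_le g (∑ n ∈ range M, c' n • k n)
        have := h4 M hM'
        linarith)
  have hmono : StrictMono fun s => (u s).1 := strictMono_nat_of_lt_succ fun s => (hu s).2.1
  have hstab : ∀ s t n, n < (u s).1 → s ≤ t → (u t).2 n = (u s).2 n := by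
    intro s t n hn hst
    induction t, hst using Nat.le_induction with
    | base => rfl
    | succ t ht ih => rw [(hu t).2.2.1 n (lt_of_lt_of_le hn (hmono.monotone ht)), ih]
  have hfin : ∀ s n, n < (u s).1 → (u (n + 1)).2 n = (u s).2 n := by
    intro s n hn
    have h1 : n < (u (n + 1)).1 := lt_of_lt_of_le (Nat.lt_succ_self n) (hmono.id_le (n + 1))
    rcases le_total s (n + 1) with h | h
    · exact hstab _ _ _ hn h
    · exact (hstab _ _ _ h1 h).symm
  refine ⟨fun n => (u (n + 1)).2 n, ?_⟩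
  rw [Metric.tendsto_atTop]
  intro ε hε
  have ht : Tendsto (fun s : ℕ => 3 * ((1 / 2 : ℝ) ^ s * ‖f‖)) atTop (𝓝 (3 * (0 * ‖f‖))) :=
    ((tendsto_pow_atTop_nhds_zero_of_lt_one (by norm_num) (by norm_num)).mul_const _).const_mul _
  rw [zero_mul, mul_zero] at ht
  obtain ⟨s0, hs0⟩ := eventually_atTop.1 (ht.eventually (gt_mem_nhds hε))
  refine ⟨(u s0).1, fun M hM => ?_⟩
  have hex : ∃ s, M < (u (s + 1)).1 :=
    ⟨M, lt_of_lt_of_le (Nat.lt_succ_self M) (hmono.id_le (M + 1))⟩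
  classical
  set s := Nat.find hex with hs
  have h1 : M < (u (s + 1)).1 := Nat.find_spec hex
  have h3 : s0 ≤ s := by
    by_contra hc
    have := hmono.monotone (show s + 1 ≤ s0 by omega)
    omega
  have h2 : (u s).1 ≤ M := by
    rcases Nat.eq_zero_or_pos s with h0 | h0
    · have : s0 = s := by omega
      rw [← this]; exact hM
    · have := Nat.find_min hex (show s - 1 < s by omega)
      rw [Nat.sub_add_cancel h0] at this
      omega
  have h4 := (hu s).2.2.2 M h2 h1.le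
  rw [dist_comm, dist_eq_norm]
  have e : ∑ n ∈ range M, (u (n + 1)).2 n • k n = ∑ n ∈ range M, (u (s + 1)).2 n • k n :=
    sum_congr rfl fun n hn => by rw [hfin (s + 1) n (lt_trans (mem_range.1 hn) h1)]
  rw [e]
  exact h4.trans_lt (hs0 s h3)

lemma blocks {M : Type} [AddCommMonoid M] (φ : ℕ → M) (n T : ℕ) :
    ∑ t ∈ range (T * n), φ t = ∑ l ∈ range T, ∑ s ∈ range n, φ (l * n + s) := by
  induction T with
  | zero => simp
  | succ T ih => rw [Nat.succ_mul, sum_range_add, ih, sum_range_succ]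

lemma geo {ρ : ℝ} (h0 : 0 ≤ ρ) (h1 : ρ < 1) (T : ℕ) : ∑ l ∈ range T, ρ ^ l ≤ 1 / (1 - ρ) := by
  rw [one_div, ← tsum_geometric_of_lt_one h0 h1]
  exact (summable_geometric_of_lt_one h0 h1).sum_le_tsum _ fun i _ => by positivity

lemma geo2 {ρ : ℝ} (h0 : 0 ≤ ρ) (h1 : ρ < 1) {q : ℕ} (hq : 0 < q) (T : ℕ) :
    ∑ l ∈ range T, (if 1 ≤ l then ρ ^ (l * q) else 0) ≤ 1 / q * (1 / (1 - ρ)) := by
  have hq' : (0 : ℝ) < q := by exact_mod_cast hq
  rcases T with _ | T
  · simp; exact mul_nonneg (by positivity) (inv_nonneg.2 (by linarith))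
  rw [sum_range_succ']
  simp only [le_add_iff_nonneg_left, zero_le, if_true, nonpos_iff_eq_zero, one_ne_zero, if_false,
    add_zero]
  refine le_trans ?_ (mul_le_mul_of_nonneg_left (geo h0 h1 (T * q)) (by positivity))
  rw [blocks, mul_sum]
  refine sum_le_sum fun l _ => ?_
  have : ∑ _s ∈ range q, ρ ^ ((l + 1) * q) ≤ ∑ s ∈ range q, ρ ^ (l * q + s) :=
    sum_le_sum fun s hs => pow_le_pow_of_le_one h0 h1.le (by
      have := mem_range.1 hs; rw [add_mul]; omega)
  rw [sum_const, card_range, nsmul_eq_mul] at this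
  rw [one_div, ← div_eq_inv_mul, le_div_iff₀ hq']
  linarith

/-- majorant of the tail of the ring sum -/
noncomputable def v (ρ : ℝ) (d i t : ℕ) : ℝ :=
  if 2 ^ i ≤ t ∧ t % 2 ^ i < d then ρ ^ (t / 2 ^ i) else 0

lemma v_nonneg {ρ : ℝ} (h0 : 0 ≤ ρ) (d i t : ℕ) : 0 ≤ v ρ d i t := by
  unfold v; split_ifs <;> positivity

lemma pair {ρ : ℝ} (h0 : 0 ≤ ρ) (h1 : ρ < 1) (d i g T : ℕ) :
    ∑ t ∈ range T, v ρ d i t * v ρ d (i + g) t ≤ (1 / 2) ^ g * (d * (1 / (1 - ρ))) := by
  have hn : 0 < 2 ^ (i + g) := by positivity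
  refine le_trans (sum_le_sum_of_subset_of_nonneg (range_subset_range.2 (Nat.le_mul_of_pos_right T hn))
    fun t _ _ => mul_nonneg (v_nonneg h0 _ _ _) (v_nonneg h0 _ _ _)) ?_
  rw [blocks]
  have key : ∀ l ∈ range T, ∑ s ∈ range (2 ^ (i + g)),
      v ρ d i (l * 2 ^ (i + g) + s) * v ρ d (i + g) (l * 2 ^ (i + g) + s)
      ≤ d * (if 1 ≤ l then ρ ^ (l * 2 ^ g) else 0) := by
    intro l _
    have e : ∀ s ∈ range (2 ^ (i + g)),
        v ρ d i (l * 2 ^ (i + g) + s) * v ρ d (i + g) (l * 2 ^ (i + g) + s)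
        ≤ if s < d then (if 1 ≤ l then ρ ^ (l * 2 ^ g) else 0) else 0 := by
      intro s hs
      have hs' := mem_range.1 hs
      have m1 : (l * 2 ^ (i + g) + s) % 2 ^ (i + g) = s := by
        rw [Nat.mul_add_mod_self_right, Nat.mod_eq_of_lt hs']
      by_cases hc : 2 ^ (i + g) ≤ l * 2 ^ (i + g) + s ∧ s < d
      · have hl : 1 ≤ l := by
          rcases Nat.eq_zero_or_pos l with h | h
          · rw [h] at hc; omega
          · exact h
        rw [if_pos hc.2, if_pos hl]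
        have a1 : v ρ d (i + g) (l * 2 ^ (i + g) + s) ≤ 1 := by
          unfold v; split_ifs
          · exact pow_le_one₀ h0 h1.le
          · exact zero_le_one
        have a2 : v ρ d i (l * 2 ^ (i + g) + s) ≤ ρ ^ (l * 2 ^ g) := by
          unfold v; split_ifs
          · refine pow_le_pow_of_le_one h0 h1.le ((Nat.le_div_iff_mul_le (by positivity)).2 ?_)
            rw [pow_add, mul_assoc, mul_comm (2 ^ g)]; omega
          · positivity
        calc _ ≤ ρ ^ (l * 2 ^ g) * 1 := mul_le_mul a2 a1 (v_nonneg h0 _ _ _) (by positivity)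
          _ = _ := mul_one _
      · have : v ρ d (i + g) (l * 2 ^ (i + g) + s) = 0 := by
          unfold v; rw [m1, if_neg hc]
        rw [this, mul_zero]
        split_ifs <;> positivity
    refine (sum_le_sum e).trans ?_
    rw [← sum_filter, sum_const, nsmul_eq_mul]
    refine mul_le_mul_of_nonneg_right ?_ (by split_ifs <;> positivity)
    have : ((range (2 ^ (i + g))).filter (· < d)).card ≤ (range d).card :=
      card_le_card fun s hs => mem_range.2 (mem_filter.1 hs).2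
    rw [card_range] at this
    exact_mod_cast this
  refine (sum_le_sum key).trans ?_
  rw [← mul_sum]
  refine (mul_le_mul_of_nonneg_left (geo2 h0 h1 (by positivity) T) (by positivity)).trans
    (le_of_eq ?_)
  push_cast
  rw [one_div_pow]; ring

lemma gram {ρ : ℝ} (h0 : 0 ≤ ρ) (h1 : ρ < 1) (d I L T : ℕ) :
    ∑ t ∈ range T, (∑ a ∈ range L, v ρ d (I + a) t) ^ 2 ≤ 3 * L * (d * (1 / (1 - ρ))) := by
  have hX : 0 ≤ (d : ℝ) * (1 / (1 - ρ)) := mul_nonneg (by positivity) (one_div_nonneg.2 (by linarith))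
  induction L with
  | zero => simp
  | succ L ih =>
    have e : ∀ t ∈ range T, (∑ a ∈ range (L + 1), v ρ d (I + a) t) ^ 2
        = (∑ a ∈ range L, v ρ d (I + a) t) ^ 2
          + 2 * ∑ a ∈ range L, v ρ d (I + a) t * v ρ d (I + L) t
          + v ρ d (I + L) t * v ρ d (I + L + 0) t := by
      intro t _
      rw [sum_range_succ, ← sum_mul, add_zero]; ring
    rw [sum_congr rfl e, sum_add_distrib, sum_add_distrib, ← mul_sum, sum_comm]
    have a1 := pair h0 h1 d (I + L) 0 T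
    have a2 : ∑ a ∈ range L, ∑ t ∈ range T, v ρ d (I + a) t * v ρ d (I + L) t
        ≤ ∑ a ∈ range L, (1 / 2) ^ (L - 1 - a + 1) * (d * (1 / (1 - ρ))) := by
      refine sum_le_sum fun a ha => ?_
      have := pair h0 h1 d (I + a) (L - 1 - a + 1) T
      have ha' := mem_range.1 ha
      rwa [show I + a + (L - 1 - a + 1) = I + L by omega] at this
    rw [← sum_mul, sum_range_reflect (fun a => ((1 : ℝ) / 2) ^ (a + 1))] at a2
    have a3 : ∑ a ∈ range L, ((1 : ℝ) / 2) ^ (a + 1) ≤ 1 := by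
      simp only [pow_succ]
      rw [← sum_mul]
      have := geo (ρ := 1 / 2) (by norm_num) (by norm_num) L
      linarith
    have a4 := mul_le_mul_of_nonneg_right a3 hX
    push_cast
    linarith

lemma orth {n : ℕ} {ω : ℂ} (hω : IsPrimitiveRoot ω n) {a b : ℕ} (ha : a < n) (hb : b < n) :
    ∑ s ∈ range n, (ω ^ a) ^ s * (starRingEnd ℂ) ((ω ^ b) ^ s) = if a = b then (n : ℂ) else 0 := by
  have hn : n ≠ 0 := by omega
  have h1 : ‖ω‖ = 1 := hω.norm'_eq_one hn
  have h2 : ∀ c : ℕ, ω ^ c * (starRingEnd ℂ) (ω ^ c) = 1 := fun c => by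
    rw [Complex.mul_conj, Complex.normSq_eq_norm_sq, norm_pow, h1]; simp
  simp only [map_pow (starRingEnd ℂ) (ω ^ b), ← mul_pow]
  split_ifs with h
  · rw [h, h2]; simp
  · set x := ω ^ a * (starRingEnd ℂ) (ω ^ b) with hx
    have hx1 : x ≠ 1 := by
      intro hc
      refine h (hω.pow_inj ha hb ?_)
      have : x * ω ^ b = ω ^ a := by rw [hx, mul_assoc, mul_comm _ (ω ^ b), h2, mul_one]
      rw [← this, hc, one_mul]
    have hxn : x ^ n = 1 := by
      rw [hx, mul_pow, ← map_pow, ← pow_mul, ← pow_mul, mul_comm a, mul_comm b, pow_mul, pow_mul,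
        hω.pow_eq_one]
      simp
    rw [geom_sum_eq hx1, hxn]; simp

lemma parseval {n : ℕ} {ω : ℂ} (hω : IsPrimitiveRoot ω n) {j0 : ℕ} (hj : j0 ≤ n) (c : ℕ → ℂ) :
    ∑ s ∈ range n, ‖∑ j ∈ range j0, c j * (ω ^ j) ^ s‖ ^ 2 = n * ∑ j ∈ range j0, ‖c j‖ ^ 2 := by
  apply Complex.ofReal_injective
  push_cast
  simp only [← Complex.mul_conj', map_sum, sum_mul_sum]
  rw [sum_comm, mul_sum]
  refine sum_congr rfl fun a ha => ?_
  rw [sum_comm]
  have e : ∀ b ∈ range j0, ∑ s ∈ range n, c a * (ω ^ a) ^ s * (starRingEnd ℂ) (c b * (ω ^ b) ^ s)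
      = if a = b then (n : ℂ) * (c a * (starRingEnd ℂ) (c a)) else 0 := by
    intro b hb
    have := orth hω (lt_of_lt_of_le (mem_range.1 ha) hj) (lt_of_lt_of_le (mem_range.1 hb) hj)
    have e2 : ∑ s ∈ range n, c a * (ω ^ a) ^ s * (starRingEnd ℂ) (c b * (ω ^ b) ^ s)
        = c a * (starRingEnd ℂ) (c b) *
          ∑ s ∈ range n, (ω ^ a) ^ s * (starRingEnd ℂ) ((ω ^ b) ^ s) := by
      rw [mul_sum]; exact sum_congr rfl fun s _ => by rw [map_mul]; ring
    rw [e2, this]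
    split_ifs with h
    · rw [h]; ring
    · simp
  rw [sum_congr rfl e, sum_ite_eq, if_pos ha]

end Pool.Agent.H21.Rep
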