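import Pool.Agent.H21.Rep1

set_option autoImplicit false
open Finset Complex Filter Topology

namespace Pool.Agent.H21.Rep

noncomputable abbrev H2 := lp (fun _ : ℕ => ℂ) 2

lemma nrm (f : H2) {C : ℝ} (hC : 0 ≤ C) {n : ℕ} (hn : 0 < n)
    (h : ∀ T, ∑ t ∈ range (T * n), ‖f t‖ ^ 2 ≤ C ^ 2) : ‖f‖ ≤ C := by
  refine lp.norm_le_of_forall_sum_le (by norm_num) hC fun s => ?_
  obtain ⟨T, hT⟩ := s.exists_nat_subset_range
  have : ((2 : ENNReal).toReal) = ((2 : ℕ) : ℝ) := by norm_num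
  simp only [this, Real.rpow_natCast]
  refine le_trans (sum_le_sum_of_subset_of_nonneg
    (hT.trans (range_subset_range.2 (Nat.le_mul_of_pos_right T hn))) fun _ _ _ => by positivity) (h T)

noncomputable def ker (x : ℂ) (hx : ‖x‖ < 1) : H2 := ⟨fun m => x ^ m, memℓp_gen (by
  have : ((2 : ENNReal).toReal) = ((2 : ℕ) : ℝ) := by norm_num
  have e : ∀ m : ℕ, ‖x ^ m‖ ^ (2 : ENNReal).toReal = (‖x‖ ^ 2) ^ m := fun m => by
    rw [this, Real.rpow_natCast, norm_pow, ← pow_mul, ← pow_mul, mul_comm]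
  simp only [e]
  exact summable_geometric_of_lt_one (by positivity) (by nlinarith [norm_nonneg x]))⟩

noncomputable def eps (i : ℕ) : ℝ := 1 / √(i + 4)

noncomputable def R (i : ℕ) : ℝ := 1 - eps i / 2 ^ i

noncomputable def om (i : ℕ) : ℂ := exp (2 * Real.pi * I / (2 ^ i : ℕ))

lemma om_prim (i : ℕ) : IsPrimitiveRoot (om i) (2 ^ i) :=
  Complex.isPrimitiveRoot_exp _ (by positivity)

lemma om_norm (i : ℕ) : ‖om i‖ = 1 := (om_prim i).norm'_eq_one (by positivity)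

lemma eps_pos (i : ℕ) : 0 < eps i := by unfold eps; positivity

lemma eps_le (i : ℕ) : eps i ≤ 1 / 2 := by
  unfold eps
  refine one_div_le_one_div_of_le two_pos (Real.le_sqrt_of_sq_le ?_)
  have : (0 : ℝ) ≤ i := by positivity
  linarith

lemma eps_anti {i j : ℕ} (h : i ≤ j) : eps j ≤ eps i := by
  unfold eps
  refine one_div_le_one_div_of_le (by positivity) (Real.sqrt_le_sqrt ?_)
  have : (i : ℝ) ≤ j := by exact_mod_cast h
  linarith

lemma R_lt (i : ℕ) : R i < 1 := by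
  have := eps_pos i
  have : 0 < eps i / 2 ^ i := by positivity
  unfold R; linarith

lemma R_ge (i : ℕ) : 1 / 2 ≤ R i := by
  have h1 : eps i / 2 ^ i ≤ eps i := div_le_self (eps_pos i).le (one_le_pow₀ one_le_two)
  have := eps_le i
  unfold R; linarith

lemma R_mono : StrictMono R := strictMono_nat_of_lt_succ fun i => by
  have h1 := eps_anti (Nat.le_succ i)
  have h2 := eps_pos i
  have h3 : eps (i + 1) / 2 ^ (i + 1) < eps i / 2 ^ i := by
    rw [div_lt_div_iff₀ (by positivity) (by positivity), pow_succ]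
    have : (0 : ℝ) < 2 ^ i := by positivity
    nlinarith
  unfold R; linarith

lemma rho_le (i : ℕ) : R i ^ 2 ^ i ≤ 1 - eps i / 2 := by
  have h1 := eps_pos i
  have h2 := eps_le i
  have h3 := Real.one_sub_div_pow_le_exp_neg (n := 2 ^ i) (t := eps i)
    (by push_cast; linarith [one_le_pow₀ (n := i) (one_le_two (α := ℝ))])
  push_cast at h3
  refine h3.trans ?_
  rw [Real.exp_neg, inv_le_comm₀ (Real.exp_pos _) (by linarith)]
  refine le_trans ?_ (Real.add_one_le_exp _)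
  rw [inv_le_iff_one_le_mul₀ (by linarith)]
  nlinarith

noncomputable def mu (i j : ℕ) : ℂ := R i * om i ^ j

lemma mu_norm (i j : ℕ) : ‖mu i j‖ = R i := by
  rw [mu, norm_mul, norm_pow, om_norm, one_pow, mul_one, Complex.norm_real,
    Real.norm_of_nonneg (by linarith [R_ge i])]

noncomputable def K (i j : ℕ) : H2 := ker (mu i j) (by rw [mu_norm]; exact R_lt i)

lemma K_apply (i j t : ℕ) : K i j t = mu i j ^ t := rfl

lemma sum_apply' (s : Finset ℕ) (c : ℕ → ℂ) (k : ℕ → H2) (t : ℕ) :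
    (∑ j ∈ s, c j • k j : H2) t = ∑ j ∈ s, c j * k j t := by
  rw [lp.coeFn_sum, Finset.sum_apply]
  rfl

lemma om_pow (i j t : ℕ) : (om i ^ j) ^ t = (om i ^ j) ^ (t % 2 ^ i) := by
  refine pow_eq_pow_mod t ?_
  rw [← pow_mul, mul_comm, pow_mul, (om_prim i).pow_eq_one, one_pow]

lemma partial_ring (i : ℕ) {j0 : ℕ} (hj : j0 ≤ 2 ^ i) (c : ℕ → ℂ) {A ρ C : ℝ} (hA : 0 ≤ A)
    (hc : ∀ j, ‖c j‖ ≤ A / 2 ^ i) (hρ : R i ^ 2 ^ i ≤ ρ) (hρ1 : ρ < 1) (hC : 0 ≤ C)
    (hC' : A ^ 2 * (1 / (1 - ρ)) ≤ C ^ 2) : ‖∑ j ∈ range j0, c j • K i j‖ ≤ C := by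
  have hR0 : 0 ≤ R i := by linarith [R_ge i]
  have hρ0 : 0 ≤ ρ := le_trans (by positivity) hρ
  refine nrm _ hC (show 0 < 2 ^ i by positivity) fun T => le_trans ?_ hC'
  rw [blocks]
  have hp : ∑ s ∈ range (2 ^ i), ‖∑ j ∈ range j0, c j * (om i ^ j) ^ s‖ ^ 2 ≤ A ^ 2 := by
    rw [parseval (om_prim i) hj]
    have : ∑ j ∈ range j0, ‖c j‖ ^ 2 ≤ ∑ _j ∈ range j0, (A / 2 ^ i) ^ 2 :=
      sum_le_sum fun j _ => pow_le_pow_left₀ (norm_nonneg _) (hc j) 2
    rw [sum_const, card_range, nsmul_eq_mul] at this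
    have hj' : (j0 : ℝ) ≤ 2 ^ i := by exact_mod_cast hj
    push_cast
    calc (2 : ℝ) ^ i * ∑ j ∈ range j0, ‖c j‖ ^ 2 ≤ 2 ^ i * (2 ^ i * (A / 2 ^ i) ^ 2) := by
          gcongr; exact this.trans (by gcongr)
      _ = A ^ 2 := by field_simp
  refine le_trans (sum_le_sum (g := fun l => A ^ 2 * ρ ^ l) fun l _ => ?_) ?_
  · refine le_trans (sum_le_sum (g := fun s => ‖∑ j ∈ range j0, c j * (om i ^ j) ^ s‖ ^ 2 * ρ ^ l)
      fun s hs => ?_) ?_
    · rw [sum_apply']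
      have e : ∑ j ∈ range j0, c j * K i j (l * 2 ^ i + s)
          = (∑ j ∈ range j0, c j * (om i ^ j) ^ s) * (R i : ℂ) ^ (l * 2 ^ i + s) := by
        rw [sum_mul]
        refine sum_congr rfl fun j _ => ?_
        rw [K_apply, mu, mul_pow, om_pow, Nat.mul_add_mod_self_right,
          Nat.mod_eq_of_lt (mem_range.1 hs)]
        ring
      rw [e, norm_mul, mul_pow, norm_pow, Complex.norm_real, Real.norm_of_nonneg hR0]
      refine mul_le_mul_of_nonneg_left ?_ (by positivity)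
      refine le_trans ?_ (pow_le_pow_left₀ (by positivity) hρ l)
      rw [← pow_mul, ← pow_mul]
      exact pow_le_pow_of_le_one hR0 (R_lt i).le (by rw [mul_comm (2 ^ i)]; omega)
    · rw [← sum_mul]; gcongr
  · rw [← mul_sum]
    exact mul_le_mul_of_nonneg_left (geo hρ0 hρ1 T) (by positivity)

noncomputable def cf (p : ℕ → ℂ) (d i j : ℕ) : ℂ :=
  ∑ m ∈ range d, p m / (R i : ℂ) ^ m * (starRingEnd ℂ) ((om i ^ m) ^ j) / (2 ^ i : ℕ)

lemma cf_le (p : ℕ → ℂ) {P : ℝ} (hp : ∀ m, ‖p m‖ ≤ P) (d i j : ℕ) :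
    ‖cf p d i j‖ ≤ d * (P * 2 ^ d) / 2 ^ i := by
  have hP : 0 ≤ P := (norm_nonneg _).trans (hp 0)
  refine (norm_sum_le _ _).trans ?_
  refine le_trans (sum_le_sum (g := fun _ => P * 2 ^ d / 2 ^ i) fun m hm => ?_) (le_of_eq ?_)
  · have hR := R_ge i
    rw [norm_div, norm_mul, norm_div, RCLike.norm_conj, norm_pow, norm_pow, norm_pow, om_norm,
      Complex.norm_real, Real.norm_of_nonneg (by linarith), Complex.norm_natCast]
    push_cast
    simp only [one_pow, mul_one]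
    refine div_le_div_of_nonneg_right ?_ (by positivity)
    rw [div_le_iff₀ (by positivity)]
    have h1 : (1 : ℝ) ≤ 2 ^ d * R i ^ m := by
      have a1 : (2 : ℝ) ^ m ≤ 2 ^ d := pow_le_pow_right₀ one_le_two (mem_range.1 hm).le
      have a2 : (1 : ℝ) ≤ (2 * R i) ^ m := one_le_pow₀ (by linarith)
      rw [mul_pow] at a2
      exact a2.trans (mul_le_mul_of_nonneg_right a1 (by positivity))
    calc ‖p m‖ ≤ P * 1 := by rw [mul_one]; exact hp m
      _ ≤ P * (2 ^ d * R i ^ m) := by gcongr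
      _ = _ := by ring
  · rw [sum_const, card_range, nsmul_eq_mul]; ring

lemma ring_sum (p : ℕ → ℂ) {d i : ℕ} (hd : d ≤ 2 ^ i) (t : ℕ) :
    (∑ j ∈ range (2 ^ i), cf p d i j • K i j : H2) t
      = if t % 2 ^ i < d then p (t % 2 ^ i) * ((R i ^ 2 ^ i) ^ (t / 2 ^ i) : ℝ) else 0 := by
  have hn : 0 < 2 ^ i := by positivity
  have hR : (R i : ℂ) ≠ 0 := by
    have := R_ge i
    exact_mod_cast (by linarith : R i ≠ 0)
  rw [sum_apply']
  simp only [cf, sum_mul, K_apply]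
  rw [sum_comm]
  have e : ∀ m ∈ range d, ∑ j ∈ range (2 ^ i),
      p m / (R i : ℂ) ^ m * (starRingEnd ℂ) ((om i ^ m) ^ j) / (2 ^ i : ℕ) * mu i j ^ t
      = if t % 2 ^ i = m then p (t % 2 ^ i) * ((R i ^ 2 ^ i) ^ (t / 2 ^ i) : ℝ) else 0 := by
    intro m hm
    have h := orth (om_prim i) (Nat.mod_lt t hn) (lt_of_lt_of_le (mem_range.1 hm) hd)
    have e2 : ∑ j ∈ range (2 ^ i),
        p m / (R i : ℂ) ^ m * (starRingEnd ℂ) ((om i ^ m) ^ j) / (2 ^ i : ℕ) * mu i j ^ t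
        = p m / (R i : ℂ) ^ m * (R i : ℂ) ^ t / (2 ^ i : ℕ) * ∑ j ∈ range (2 ^ i),
          (om i ^ (t % 2 ^ i)) ^ j * (starRingEnd ℂ) ((om i ^ m) ^ j) := by
      rw [mul_sum]
      refine sum_congr rfl fun j _ => ?_
      rw [mu, mul_pow, om_pow i j t, ← pow_mul (om i) j, mul_comm j, pow_mul]
      ring
    rw [e2, h]
    split_ifs with hc
    · have hn' : ((2 ^ i : ℕ) : ℂ) ≠ 0 := by exact_mod_cast hn.ne'
      have e3 : (R i : ℂ) ^ t = ((R i : ℂ) ^ 2 ^ i) ^ (t / 2 ^ i) * (R i : ℂ) ^ m := by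
        rw [← pow_mul, ← pow_add, ← hc, Nat.div_add_mod]
      rw [e3, hc]
      push_cast at hn' ⊢
      field_simp
    · simp
  rw [sum_congr rfl e, sum_ite_eq]
  simp only [mem_range]

def rg (n : ℕ) : ℕ := Nat.log 2 (n + 1)

def ps (n : ℕ) : ℕ := n + 1 - 2 ^ rg n

lemma rg_eq {i j : ℕ} (hj : j < 2 ^ i) : rg (2 ^ i - 1 + j) = i := by
  have : 0 < 2 ^ i := by positivity
  unfold rg
  rw [Nat.log_eq_iff (Or.inr ⟨one_lt_two, by omega⟩), pow_succ]
  omega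

lemma ps_eq {i j : ℕ} (hj : j < 2 ^ i) : ps (2 ^ i - 1 + j) = j := by
  have : 0 < 2 ^ i := by positivity
  unfold ps; rw [rg_eq hj]; omega

lemma rg_le (n : ℕ) : 2 ^ rg n ≤ n + 1 := Nat.pow_log_le_self 2 (Nat.succ_ne_zero n)

lemma rg_lt (n : ℕ) : n + 1 < 2 ^ (rg n + 1) := Nat.lt_pow_succ_log_self one_lt_two _

lemma ps_lt (n : ℕ) : ps n < 2 ^ rg n := by
  have h1 := rg_le n
  have h2 := rg_lt n
  rw [pow_succ] at h2
  unfold ps; omega

lemma decomp (n : ℕ) : n = 2 ^ rg n - 1 + ps n := by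
  have h1 := rg_le n
  have : 0 < 2 ^ rg n := by positivity
  unfold ps; omega

lemma sum_rings {M : Type} [AddCommMonoid M] (g : ℕ → ℕ → M) (i : ℕ) {j0 : ℕ} (hj : j0 ≤ 2 ^ i) :
    ∑ n ∈ range (2 ^ i - 1 + j0), g (rg n) (ps n)
      = ∑ a ∈ range i, ∑ j ∈ range (2 ^ a), g a j + ∑ j ∈ range j0, g i j := by
  have key : ∀ i j0, j0 ≤ 2 ^ i → ∑ n ∈ range (2 ^ i - 1 + j0), g (rg n) (ps n)
      = ∑ n ∈ range (2 ^ i - 1), g (rg n) (ps n) + ∑ j ∈ range j0, g i j := by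
    intro i j0 hj
    rw [sum_range_add]
    congr 1
    refine sum_congr rfl fun j hj' => ?_
    have := lt_of_lt_of_le (mem_range.1 hj') hj
    rw [rg_eq this, ps_eq this]
  rw [key i j0 hj]
  congr 1
  clear hj
  induction i with
  | zero => simp
  | succ i ih =>
    have : 2 ^ (i + 1) - 1 = 2 ^ i - 1 + 2 ^ i := by
      have : 0 < 2 ^ i := by positivity
      rw [pow_succ]; omega
    rw [this, key i _ le_rfl, ih, sum_range_succ]

end Pool.Agent.H21.Rep
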