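import Pool.Agent.H21.Rep2

set_option autoImplicit false
open Finset Complex Filter Topology

namespace Pool.Agent.H21.Rep

lemma tail_bound (f p : H2) {d I L : ℕ} (hp : ∀ t, p t = if t < d then f t else 0) (hd : d ≤ 2 ^ I)
    {ρ C : ℝ} (hρ0 : 0 ≤ ρ) (hρ1 : ρ < 1) (hρ : ∀ a < L, R (I + a) ^ 2 ^ (I + a) ≤ ρ) (hC : 0 ≤ C)
    (hC' : ‖f‖ ^ 2 * (3 * L * (d * (1 / (1 - ρ)))) ≤ C ^ 2) :
    ‖∑ a ∈ range L, (∑ j ∈ range (2 ^ (I + a)), cf f d (I + a) j • K (I + a) j - p)‖ ≤ C := by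
  refine nrm _ hC one_pos fun T => le_trans ?_ hC'
  refine le_trans ?_ (mul_le_mul_of_nonneg_left (gram hρ0 hρ1 d I L (T * 1)) (by positivity))
  rw [mul_sum]
  refine sum_le_sum fun t _ => ?_
  rw [← mul_pow]
  refine pow_le_pow_left₀ (norm_nonneg _) ?_ 2
  rw [lp.coeFn_sum, Finset.sum_apply, mul_sum]
  refine (norm_sum_le _ _).trans (sum_le_sum fun a ha => ?_)
  have hd' : d ≤ 2 ^ (I + a) := hd.trans (Nat.pow_le_pow_right two_pos (Nat.le_add_right _ _))
  rw [lp.coeFn_sub, Pi.sub_apply, ring_sum f hd', hp]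
  by_cases h : 2 ^ (I + a) ≤ t
  · rw [if_neg (show ¬t < d by omega), sub_zero]
    unfold v
    by_cases h2 : t % 2 ^ (I + a) < d
    · rw [if_pos h2, if_pos ⟨h, h2⟩, norm_mul, Complex.norm_real]
      have hR : 0 ≤ R (I + a) := by linarith [R_ge (I + a)]
      rw [Real.norm_of_nonneg (by positivity)]
      exact mul_le_mul (lp.norm_apply_le_norm (by norm_num) f _)
        (pow_le_pow_left₀ (by positivity) (hρ a (mem_range.1 ha)) _) (by positivity) (norm_nonneg _)
    · rw [if_neg h2, if_neg (fun hc => h2 hc.2)]; simp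
  · push Not at h
    rw [Nat.mod_eq_of_lt h, Nat.div_eq_of_lt h]
    simp only [pow_zero, ofReal_one, mul_one, sub_self, norm_zero]
    exact mul_nonneg (norm_nonneg _) (v_nonneg hρ0 _ _ _)

noncomputable def kk (n : ℕ) : H2 := K (rg n) (ps n)

lemma step (f : H2) (N0 : ℕ) : ∃ N1, N0 < N1 ∧ ∃ c : ℕ → ℂ, (∀ n < N0, c n = 0) ∧
    ‖f - ∑ n ∈ range N1, c n • kk n‖ ≤ ‖f‖ / 2 ∧
    ∀ N ≤ N1, ‖∑ n ∈ range N, c n • kk n‖ ≤ 2 * ‖f‖ := by
  rcases eq_or_ne f 0 with rfl | hf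
  · exact ⟨N0 + 1, Nat.lt_succ_self _, fun _ => 0, fun _ _ => rfl, by simp, by simp⟩
  have hP : 0 < ‖f‖ := norm_pos_iff.2 hf
  obtain ⟨d, hd⟩ := Metric.tendsto_atTop.1
    (lp.hasSum_single (p := 2) (by norm_num) f).tendsto_sum_nat (‖f‖ / 4) (by positivity)
  have hd' := hd d le_rfl
  set p : H2 := ∑ i ∈ range d, lp.single 2 i (f i) with hpdef
  rw [dist_comm, dist_eq_norm] at hd'
  have hp : ∀ t, p t = if t < d then f t else 0 := by
    intro t
    rw [hpdef, lp.coeFn_sum, Finset.sum_apply]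
    simp only [lp.single_apply, Pi.single_apply]
    rw [sum_ite_eq]; simp only [mem_range]
  have hpn : ‖p‖ ≤ 5 / 4 * ‖f‖ := by
    have := norm_sub_norm_le p f
    rw [norm_sub_rev] at this
    linarith
  obtain ⟨J, hJ⟩ : ∃ J : ℕ, J = N0 + 2 + 192 * d + 64 * (d * 2 ^ d) ^ 2 := ⟨_, rfl⟩
  obtain ⟨I, hI⟩ : ∃ I : ℕ, I = J ^ 2 := ⟨_, rfl⟩
  have hJI : J ≤ I := by rw [hI]; exact Nat.le_self_pow two_ne_zero J
  have hI2 : I < 2 ^ I := Nat.lt_two_pow_self
  have hJ2 : (2 : ℝ) ≤ J := by exact_mod_cast (by omega : 2 ≤ J)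
  have hJd : 192 * (d : ℝ) ≤ J := by exact_mod_cast (by omega : 192 * d ≤ J)
  have hJA : 64 * ((d : ℝ) * 2 ^ d) ^ 2 ≤ J := by
    exact_mod_cast (by omega : 64 * (d * 2 ^ d) ^ 2 ≤ J)
  have hIr : (I : ℝ) = J ^ 2 := by exact_mod_cast hI
  have hI0 : (0 : ℝ) < I := by rw [hIr]; positivity
  set ρ : ℝ := 1 - 1 / (4 * J) with hρ
  have hq : 0 < 1 / (4 * (J : ℝ)) := by positivity
  have hq1 : 1 / (4 * (J : ℝ)) ≤ 1 := by rw [div_le_one (by positivity)]; linarith
  have hρ0 : 0 ≤ ρ := by linarith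
  have hρ1 : ρ < 1 := by linarith
  have hρe : 1 / (1 - ρ) = 4 * J := by rw [hρ]; field_simp; ring
  have hρa : ∀ a ≤ I + I, R a ^ 2 ^ a ≤ ρ := by
    intro a ha
    refine (rho_le a).trans ?_
    have h1 : √((a : ℝ) + 4) ≤ 2 * J := by
      refine Real.sqrt_le_iff.2 ⟨by positivity, ?_⟩
      have : (a : ℝ) ≤ I + I := by exact_mod_cast ha
      nlinarith
    have h2 : 1 / (2 * (J : ℝ)) ≤ eps a := one_div_le_one_div_of_le (by positivity) h1
    have h3 : 1 / (4 * (J : ℝ)) = 1 / (2 * J) / 2 := by field_simp; ring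
    linarith
  set g : ℕ → ℕ → H2 := fun a j => (if I ≤ a then cf f d a j / I else 0) • K a j with hg
  set E : ℕ → H2 := fun L =>
    ∑ a ∈ range L, (∑ j ∈ range (2 ^ (I + a)), cf f d (I + a) j • K (I + a) j - p) with hE
  have hEn : ∀ L ≤ I, ‖((I : ℂ)⁻¹) • E L‖ ≤ ‖f‖ / 4 := by
    intro L hL
    have hL' : (L : ℝ) ≤ J ^ 2 := by rw [← hIr]; exact_mod_cast hL
    have := tail_bound f p (I := I) (L := L) hp (by omega) hρ0 hρ1
      (fun a ha => hρa _ (by omega)) (C := I * (‖f‖ / 4)) (by positivity) (by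
        rw [hρe, hIr]
        have a1 : 3 * (L : ℝ) * (d * (4 * J)) ≤ 3 * J ^ 2 * (J / 192 * (4 * J)) := by
          gcongr; linarith
        calc _ ≤ ‖f‖ ^ 2 * (3 * J ^ 2 * (J / 192 * (4 * J))) := by gcongr
          _ = _ := by ring)
    rw [norm_smul, norm_inv, Complex.norm_natCast, inv_mul_le_iff₀ hI0]
    exact this
  have hfull : ∀ L, ∑ a ∈ range (I + L), ∑ j ∈ range (2 ^ a), g a j
      = ((L : ℂ) / I) • p + ((I : ℂ)⁻¹) • E L := by
    intro L
    rw [sum_range_add, sum_eq_zero (s := range I) fun a ha => sum_eq_zero fun j _ => by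
      simp only [hg]; rw [if_neg (not_le.2 (mem_range.1 ha)), zero_smul], zero_add]
    simp only [hg, hE, le_add_iff_nonneg_right, zero_le, if_true]
    rw [sum_sub_distrib, sum_const, card_range, smul_sub, ← Nat.cast_smul_eq_nsmul ℂ, smul_smul,
      div_eq_inv_mul (L : ℂ), add_sub_cancel, smul_sum]
    refine sum_congr rfl fun a _ => ?_
    rw [smul_sum]
    exact sum_congr rfl fun j _ => by rw [smul_smul, div_eq_inv_mul]
  have hpart : ∀ a ≤ I + I, ∀ j0 ≤ 2 ^ a, ‖∑ j ∈ range j0, g a j‖ ≤ ‖f‖ / 4 := by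
    intro a ha j0 hj0
    refine partial_ring a hj0 _ (A := d * (‖f‖ * 2 ^ d) / I) (by positivity) (fun j => ?_)
      (hρa a ha) hρ1 (by positivity) ?_
    · split_ifs
      · rw [norm_div, Complex.norm_natCast, div_right_comm]
        exact div_le_div_of_nonneg_right
          (cf_le f (fun m => lp.norm_apply_le_norm (by norm_num) f m) d a j) hI0.le
      · rw [norm_zero]; positivity
    · rw [hρe, hIr]
      have e : (d * (‖f‖ * 2 ^ d) / (J : ℝ) ^ 2) ^ 2 * (4 * J)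
          = (‖f‖ / 4) ^ 2 * (64 * ((d : ℝ) * 2 ^ d) ^ 2 / J ^ 3) := by field_simp; ring
      rw [e]
      refine mul_le_of_le_one_right (by positivity) ?_
      rw [div_le_one (by positivity)]
      exact hJA.trans (le_self_pow₀ (by linarith) (by norm_num))
  have hII : I + I < 2 ^ (I + I) := Nat.lt_two_pow_self
  refine ⟨2 ^ (I + I) - 1 + 0, by omega,
    fun n => if I ≤ rg n then cf f d (rg n) (ps n) / I else 0, fun n hn => ?_, ?_, fun N hN => ?_⟩
  · refine if_neg fun hc => ?_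
    have h1 := rg_le n
    have h2 := Nat.pow_le_pow_right two_pos hc
    omega
  · have := sum_rings g (I + I) (Nat.zero_le _)
    simp only [hg] at this
    simp only [kk]
    rw [this]
    have h2 := hfull I
    simp only [hg] at h2
    have hI3 : (I : ℂ) ≠ 0 := by exact_mod_cast hI0.ne'
    rw [h2, sum_range_zero, add_zero, div_self hI3, one_smul, ← sub_sub]
    have := norm_sub_le (f - p) (((I : ℂ)⁻¹) • E I)
    linarith [hEn I le_rfl]
  · have h0 := sum_rings g (rg N) (ps_lt N).le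
    rw [← decomp N] at h0
    have ha : rg N ≤ I + I := by
      have h1 := rg_le N
      exact (Nat.pow_le_pow_iff_right one_lt_two).1 (by omega)
    have h3 := hpart _ ha _ (ps_lt N).le
    have h4 : ‖∑ a ∈ range (rg N), ∑ j ∈ range (2 ^ a), g a j‖ ≤ 3 / 2 * ‖f‖ := by
      rcases le_total (rg N) I with h | h
      · rw [sum_eq_zero fun a ha => sum_eq_zero fun j _ => by
          simp only [hg]; rw [if_neg (not_le.2 (lt_of_lt_of_le (mem_range.1 ha) h)), zero_smul]]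
        rw [norm_zero]; positivity
      · obtain ⟨L, hL⟩ := Nat.exists_eq_add_of_le h
        rw [hL, hfull]
        have a1 := hEn L (by omega)
        have a2 : ‖((L : ℂ) / I) • p‖ ≤ ‖p‖ := by
          rw [norm_smul, norm_div, Complex.norm_natCast, Complex.norm_natCast]
          refine mul_le_of_le_one_left (norm_nonneg _) ((div_le_one hI0).2 ?_)
          exact_mod_cast (by omega : L ≤ I)
        have := norm_add_le (((L : ℂ) / I) • p) (((I : ℂ)⁻¹) • E L)
        linarith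
    have h5 : ∑ n ∈ range N, (if I ≤ rg n then cf f d (rg n) (ps n) / I else 0) • kk n
        = ∑ n ∈ range N, g (rg n) (ps n) := rfl
    rw [h5, h0]
    exact (norm_add_le _ _).trans (by linarith)

noncomputable def Lam (n : ℕ) : ℂ := (starRingEnd ℂ) (mu (rg n) (ps n))

lemma Lam_norm (n : ℕ) : ‖Lam n‖ = R (rg n) := by rw [Lam, RCLike.norm_conj, mu_norm]

lemma Lam_inj : Function.Injective Lam := by
  intro a b h
  have h1 : rg a = rg b := R_mono.injective (by rw [← Lam_norm, ← Lam_norm, h])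
  have h2 : mu (rg a) (ps a) = mu (rg b) (ps b) := (starRingEnd ℂ).injective h
  have hR : (R (rg b) : ℂ) ≠ 0 := by
    have := R_ge (rg b)
    exact_mod_cast (by linarith : R (rg b) ≠ 0)
  rw [h1, mu, mu] at h2
  have h3 := (om_prim (rg b)).pow_inj (h1 ▸ ps_lt a) (ps_lt b) (mul_left_cancel₀ hR h2)
  rw [decomp a, decomp b, h1, h3]

lemma eps_small {η : ℝ} (hη : 0 < η) : ∃ i, eps i < η := by
  obtain ⟨i, hi⟩ := exists_nat_gt (1 / η ^ 2)
  refine ⟨i, ?_⟩
  unfold eps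
  rw [div_lt_iff₀ (by positivity), ← div_lt_iff₀' hη]
  refine Real.lt_sqrt_of_sq_lt ?_
  rw [div_pow, one_pow]; linarith

lemma sub_range {r : ℝ} {i : ℕ} (h : r ≤ R i) :
    Set.range Lam ∩ Metric.ball 0 r ⊆ ((range (2 ^ i)).image Lam : Finset ℂ) := by
  rintro _ ⟨⟨n, rfl⟩, hn⟩
  rw [mem_ball_zero_iff, Lam_norm] at hn
  have h1 : rg n < i := R_mono.lt_iff_lt.1 (hn.trans_le h)
  have h2 := rg_lt n
  have h3 := Nat.pow_le_pow_right two_pos (Nat.succ_le_of_lt h1)
  exact mem_coe.2 (mem_image_of_mem _ (mem_range.2 (by simp only [Nat.succ_eq_add_one] at h3; omega)))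

lemma exists_R {r : ℝ} (hr : r < 1) : ∃ i, r ≤ R i := by
  obtain ⟨i, hi⟩ := eps_small (show 0 < 1 - r by linarith)
  have h1 : eps i / 2 ^ i ≤ eps i := div_le_self (eps_pos i).le (one_le_pow₀ one_le_two)
  exact ⟨i, by unfold R; linarith⟩

lemma finite_ball {r : ℝ} (hr : r < 1) : (Set.range Lam ∩ Metric.ball 0 r).Finite := by
  obtain ⟨i, hi⟩ := exists_R hr
  exact (Finset.finite_toSet _).subset (sub_range hi)

lemma card_le' {r : ℝ} {i : ℕ} (h : r ≤ R i) :
    ((Set.range Lam ∩ Metric.ball 0 r).ncard : ℝ) ≤ 2 ^ i := by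
  have h1 := Set.ncard_le_ncard (sub_range h) (Finset.finite_toSet _)
  rw [Set.ncard_coe_finset] at h1
  have h2 := h1.trans card_image_le
  rw [card_range] at h2
  exact_mod_cast h2

lemma density : Tendsto (fun r : ℝ => (1 - r) * ((Set.range Lam ∩ Metric.ball 0 r).ncard : ℝ))
    (𝓝[<] 1) (𝓝 0) := by
  rw [Metric.tendsto_nhdsWithin_nhds]
  intro η hη
  obtain ⟨i0, hi0⟩ := eps_small (show 0 < η / 2 by positivity)
  refine ⟨1 - R i0, by linarith [R_lt i0], fun r hr hd => ?_⟩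
  have hr' : r < 1 := hr
  rw [Real.dist_eq, abs_sub_comm, abs_of_pos (by linarith)] at hd
  rw [Real.dist_eq, sub_zero, abs_of_nonneg (mul_nonneg (by linarith) (by positivity))]
  classical
  have hex := exists_R hr'
  have h1 := Nat.find_spec hex
  have h2 : i0 < Nat.find hex := R_mono.lt_iff_lt.1 (by linarith)
  obtain ⟨i, hi⟩ : ∃ i, Nat.find hex = i + 1 := ⟨Nat.find hex - 1, by omega⟩
  have h3 : R i < r := not_le.1 (Nat.find_min hex (by omega))
  rw [hi] at h1
  have h4 := card_le' h1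
  have h5 := eps_anti (show i0 ≤ i by omega)
  have h6 : (1 - r) * 2 ^ i < eps i := by
    unfold R at h3
    rw [← lt_div_iff₀ (by positivity)]; linarith
  calc _ ≤ (1 - r) * 2 ^ (i + 1) := by gcongr
    _ = 2 * ((1 - r) * 2 ^ i) := by ring
    _ < η := by linarith

end Pool.Agent.H21.Rep
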