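import Pool.Agent.H21.Rep2

set_option autoImplicit false
open Finset Complex Filter Topology

namespace Pool.Agent.H21.Rep

noncomputable def KR (x : ℝ) : H2 :=
  if h : |x| < 1 then ker x (by rwa [Complex.norm_real, Real.norm_eq_abs]) else 0

lemma KR_apply {x : ℝ} (h : |x| < 1) (t : ℕ) : KR x t = (x : ℂ) ^ t := by
  rw [KR, dif_pos h]; rfl

lemma coeff_zero (a : ℕ → ℂ) {C : ℝ} (ha : ∀ n, ‖a n‖ ≤ C) (x : ℕ → ℝ) {x0 : ℝ} (h0 : |x0| < 1)
    (hx : Tendsto x atTop (𝓝 x0)) (hne : ∀ n, x n ≠ x0)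
    (hz : ∀ n, ∑' m, a m * (x n : ℂ) ^ m = 0) : a = 0 := by
  set p := FormalMultilinearSeries.ofScalars ℂ a with hp
  have hr : ((1 : NNReal) : ENNReal) ≤ p.radius := p.le_radius_of_bound C fun n => by
    rw [hp, FormalMultilinearSeries.ofScalars_norm]; simpa using ha n
  have h := (p.hasFPowerSeriesOnBall (lt_of_lt_of_le (by simp) hr)).mono (by simp) hr
  have han : AnalyticOnNhd ℂ p.sum (Metric.ball 0 1) := by
    have := h.analyticOnNhd
    rwa [Metric.eball_coe] at this
  have hx' : Tendsto (fun n => (x n : ℂ)) atTop (𝓝[≠] (x0 : ℂ)) :=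
    tendsto_nhdsWithin_iff.2 ⟨(Complex.continuous_ofReal.tendsto x0).comp hx,
      Eventually.of_forall fun n hn => hne n (Complex.ofReal_injective hn)⟩
  have hf : ∃ᶠ z in 𝓝[≠] (x0 : ℂ), p.sum z = 0 := hx'.frequently (Frequently.of_forall fun n => by
    have := FormalMultilinearSeries.ofScalars_sum_eq a (x n : ℂ)
    simp only [smul_eq_mul] at this
    exact this.trans (hz n))
  have he := han.eqOn_zero_of_preconnected_of_frequently_eq_zero
    (convex_ball (0 : ℂ) 1).isPreconnected (by simpa using h0) hf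
  have h2 : HasFPowerSeriesAt (0 : ℂ → ℂ) p 0 :=
    h.hasFPowerSeriesAt.congr (eventually_of_mem (Metric.ball_mem_nhds _ one_pos) he)
  exact (FormalMultilinearSeries.ofScalars_series_eq_zero ℂ).1 h2.eq_zero

lemma complete (x : ℕ → ℝ) {x0 : ℝ} (h0 : |x0| < 1) (h1 : ∀ n, |x n| < 1)
    (hx : Tendsto x atTop (𝓝 x0)) (hne : ∀ n, x n ≠ x0) :
    Dense (Submodule.span ℂ (Set.range fun n => KR (x n)) : Set H2) := by
  rw [Submodule.dense_iff_topologicalClosure_eq_top, Submodule.topologicalClosure_eq_top_iff,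
    Submodule.eq_bot_iff]
  intro g hg
  have := coeff_zero (fun n => g n) (fun n => lp.norm_apply_le_norm (by norm_num) g n) x h0 hx hne
    fun n => by
      have h := (Submodule.mem_orthogonal _ _).1 hg (KR (x n))
        (Submodule.subset_span ⟨n, rfl⟩)
      rw [lp.inner_eq_tsum] at h
      rw [← h]
      refine tsum_congr fun m => ?_
      rw [KR_apply (h1 n)]
      simp
  exact lp.ext this

lemma lip {b : ℝ} (hb : 1 / 2 ≤ b) (hb1 : b < 1) : ∃ C : ℝ, 0 ≤ C ∧ ∀ x y : ℝ, |x| ≤ b → |y| ≤ b →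
    ‖KR x - KR y‖ ≤ C * |x - y| := by
  have hs : Summable fun t : ℕ => (t : ℝ) ^ 2 * (b ^ 2) ^ t :=
    summable_pow_mul_geometric_of_norm_lt_one 2 (by
      rw [Real.norm_of_nonneg (by positivity)]; nlinarith)
  set S := ∑' t : ℕ, (t : ℝ) ^ 2 * (b ^ 2) ^ t with hS
  have hS0 : 0 ≤ S := tsum_nonneg fun t => by positivity
  refine ⟨2 * √S, by positivity, fun x y hx hy => nrm _ (by positivity) one_pos fun T => ?_⟩
  have e : (2 * √S * |x - y|) ^ 2 = 4 * |x - y| ^ 2 * S := by
    rw [mul_pow, mul_pow, Real.sq_sqrt hS0]; ring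
  rw [e]
  refine le_trans ?_ (mul_le_mul_of_nonneg_left
    (hs.sum_le_tsum (range (T * 1)) fun t _ => by positivity) (by positivity))
  rw [mul_sum]
  refine sum_le_sum fun t _ => ?_
  rw [lp.coeFn_sub, Pi.sub_apply, KR_apply (hx.trans_lt hb1), KR_apply (hy.trans_lt hb1),
    ← Complex.ofReal_pow, ← Complex.ofReal_pow, ← Complex.ofReal_sub, Complex.norm_real,
    Real.norm_eq_abs]
  have h1 := abs_pow_sub_pow_le x y t
  have h2 : max |x| |y| ^ (t - 1) ≤ b ^ (t - 1) :=
    pow_le_pow_left₀ (le_max_of_le_left (abs_nonneg _)) (max_le hx hy) _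
  have h3 : b ^ (t - 1) ≤ 2 * b ^ t := by
    rcases t with _ | t
    · simp
    · rw [Nat.add_sub_cancel, pow_succ]
      have : 0 ≤ b ^ t := by positivity
      nlinarith
  have h4 : |x ^ t - y ^ t| ≤ |x - y| * t * (2 * b ^ t) := h1.trans (by gcongr; exact h2.trans h3)
  calc _ ≤ (|x - y| * t * (2 * b ^ t)) ^ 2 := pow_le_pow_left₀ (abs_nonneg _) h4 2
    _ = _ := by ring

lemma node_tendsto (a d : ℝ) : Tendsto (fun j : ℕ => a + d / (j + 2)) atTop (𝓝 a) := by
  have h : Tendsto (fun j : ℕ => d / ((j : ℝ) + 2)) atTop (𝓝 0) :=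
    tendsto_const_nhds.div_atTop (tendsto_atTop_add_const_right _ _ tendsto_natCast_atTop_atTop)
  simpa using h.const_add a

lemma sepH : TopologicalSpace.SeparableSpace H2 := by
  have h := complete (fun j : ℕ => 0 + 1 / (j + 2)) (x0 := 0) (by simp) (fun n => by
    rw [zero_add, abs_of_pos (by positivity), div_lt_one (by positivity)]
    have : (0 : ℝ) ≤ n := by positivity
    linarith) (node_tendsto 0 1) (fun n => by positivity)
  rw [← TopologicalSpace.isSeparable_univ_iff, ← h.closure_eq]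
  exact ((Set.countable_range _).isSeparable.span).closure

lemma stage {a b : ℝ} (ha : 0 ≤ a) (hab : a < b) (hb : 1 / 2 ≤ b) (hb1 : b < 1) (q : H2) {ε : ℝ}
    (hε : 0 < ε) : ∃ (n : ℕ) (y : ℕ → ℝ) (c : ℕ → ℂ), 0 < n ∧ (∀ j < n, a < y j ∧ y j < b) ∧
      (∀ j < n, ∀ j' < n, y j = y j' → j = j') ∧ ‖q - ∑ j ∈ range n, c j • KR (y j)‖ ≤ ε ∧
      ∀ N ≤ n, ‖∑ j ∈ range N, c j • KR (y j)‖ ≤ ‖q‖ + ε := by
  set d := b - a with hd
  have hd0 : 0 < d := by linarith
  set x : ℕ → ℝ := fun j => a + d / (j + 2) with hx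
  have hx1 : ∀ j, a < x j := fun j => by
    have : 0 < d / ((j : ℝ) + 2) := by positivity
    simp only [hx]; linarith
  have hx2 : ∀ j, x j ≤ a + d / 2 := fun j => by
    have : d / ((j : ℝ) + 2) ≤ d / 2 := div_le_div_of_nonneg_left hd0.le two_pos
      (by have : (0 : ℝ) ≤ j := by positivity
          linarith)
    simp only [hx]; linarith
  have hD := complete x (x0 := a) (by rw [abs_of_nonneg ha]; linarith)
    (fun n => by rw [abs_of_pos (ha.trans_lt (hx1 n))]; linarith [hx2 n]) (node_tendsto a d)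
    fun n => (hx1 n).ne'
  obtain ⟨g, hg, hg'⟩ := hD.exists_dist_lt q (half_pos hε)
  obtain ⟨c, rfl⟩ := Finsupp.mem_span_range_iff_exists_finsupp.1 hg
  obtain ⟨J0, hJ0⟩ := c.support.exists_nat_subset_range
  set J := J0 + 1 with hJ
  have hJ1 : 0 < J := Nat.succ_pos _
  rw [Finsupp.sum_of_support_subset _ (hJ0.trans (range_subset_range.2 (Nat.le_succ J0))) _
    (by simp), dist_eq_norm] at hg'
  obtain ⟨C, hC, hlip⟩ := lip hb hb1
  set S := ∑ j ∈ range J, ‖c j‖ with hS
  have hS0 : 0 ≤ S := sum_nonneg fun _ _ => norm_nonneg _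
  obtain ⟨L, hL⟩ := exists_nat_gt (4 * (S * (C + ‖KR 0‖)) / ε)
  have hL0 : (0 : ℝ) < L := lt_of_le_of_lt (by positivity) hL
  have hL1 : 0 < L := by exact_mod_cast hL0
  set δ := min (d / ((J + 2) * (J + 2))) (ε / (4 * (S * C + 1))) with hδ
  have hδ0 : 0 < δ := lt_min (by positivity) (by positivity)
  have hδ1 : δ ≤ d / ((J + 2) * (J + 2)) := min_le_left _ _
  have hδ2 : δ ≤ ε / (4 * (S * C + 1)) := min_le_right _ _
  have hJr : (0 : ℝ) ≤ J := by positivity
  have hδ3 : δ ≤ d / 4 := hδ1.trans (div_le_div_of_nonneg_left hd0.le (by norm_num) (by nlinarith))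
  set y : ℕ → ℝ := fun n => x (n % J) + δ * ((n / J : ℕ) / L) with hy
  have hpert : ∀ l : ℕ, l < L → 0 ≤ δ * ((l : ℝ) / L) ∧ δ * ((l : ℝ) / L) < δ := by
    intro l hl
    refine ⟨by positivity, mul_lt_of_lt_one_right hδ0 ((div_lt_one hL0).2 (by exact_mod_cast hl))⟩
  have hdiv : ∀ n < L * J, n / J < L := fun n hn => (Nat.div_lt_iff_lt_mul hJ1).2 hn
  have hyb : ∀ n < L * J, a < y n ∧ y n < b := by
    intro n hn
    have := hpert _ (hdiv n hn)
    have h1 := hx1 (n % J)
    have h2 := hx2 (n % J)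
    simp only [hy]
    constructor <;> linarith
  have hval : ∀ l j, j < J → y (l * J + j) = x j + δ * ((l : ℝ) / L) ∧ (l * J + j) % J = j := by
    intro l j hj
    have m1 : (l * J + j) % J = j := by rw [Nat.mul_add_mod_self_right, Nat.mod_eq_of_lt hj]
    have m2 : (l * J + j) / J = l := by
      rw [add_comm, Nat.add_mul_div_right _ _ hJ1, Nat.div_eq_of_lt hj, zero_add]
    exact ⟨by simp only [hy]; rw [m1, m2], m1⟩
  have hblock : ∀ l < L, ‖q - ∑ j ∈ range J, c j • KR (y (l * J + j))‖ ≤ 3 / 4 * ε := by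
    intro l hl
    have h1 : ‖∑ j ∈ range J, c j • KR (x j) - ∑ j ∈ range J, c j • KR (y (l * J + j))‖
        ≤ S * (C * δ) := by
      rw [← sum_sub_distrib, hS, sum_mul]
      refine (norm_sum_le _ _).trans (sum_le_sum fun j hj => ?_)
      rw [← smul_sub, norm_smul]
      refine mul_le_mul_of_nonneg_left ?_ (norm_nonneg _)
      have hj' := mem_range.1 hj
      have h2 := hyb (l * J + j) (by nlinarith)
      have h3 := hpert l hl
      refine (hlip _ _ (by rw [abs_of_pos (ha.trans_lt (hx1 j))]; linarith [hx2 j])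
        (by rw [abs_of_pos (ha.trans_lt h2.1)]; exact h2.2.le)).trans
        (mul_le_mul_of_nonneg_left ?_ hC)
      rw [(hval l j hj').1, abs_le]; constructor <;> linarith
    have h2 : S * (C * δ) ≤ ε / 4 := by
      rw [le_div_iff₀ (by positivity)] at hδ2
      nlinarith
    have h3 := norm_sub_le_norm_sub_add_norm_sub q (∑ j ∈ range J, c j • KR (x j))
      (∑ j ∈ range J, c j • KR (y (l * J + j)))
    linarith
  have hfull : ∀ i, ∑ n ∈ range (i * J), (c (n % J) / L) • KR (y n)
      = ∑ l ∈ range i, ((L : ℂ)⁻¹) • ∑ j ∈ range J, c j • KR (y (l * J + j)) := by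
    intro i
    rw [blocks]
    refine sum_congr rfl fun l _ => ?_
    rw [smul_sum]
    exact sum_congr rfl fun j hj => by
      rw [(hval l j (mem_range.1 hj)).2, smul_smul, div_eq_inv_mul]
  have hL2 : (L : ℂ) ≠ 0 := by exact_mod_cast hL1.ne'
  refine ⟨L * J, y, fun n => c (n % J) / L, Nat.mul_pos hL1 hJ1, hyb, ?_, ?_, ?_⟩
  · intro n hn n' hn' h
    have p1 := hpert _ (hdiv n hn)
    have p2 := hpert _ (hdiv n' hn')
    have gap : ∀ j j' : ℕ, j < j' → j' < J → δ ≤ x j - x j' := by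
      intro j j' h1 h2
      have a1 : (j : ℝ) + 1 ≤ j' := by exact_mod_cast h1
      have a2 : (j' : ℝ) ≤ J := by exact_mod_cast h2.le
      have a3 : (0 : ℝ) ≤ j := by positivity
      have e : x j - x j' = d * (j' - j) / ((j + 2) * (j' + 2)) := by
        simp only [hx]; field_simp; ring
      rw [e]
      refine hδ1.trans (div_le_div₀ (by nlinarith) (by nlinarith) (by positivity) ?_)
      exact mul_le_mul (by linarith) (by linarith) (by positivity) (by positivity)
    simp only [hy] at h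
    have hm : n % J = n' % J := by
      rcases lt_trichotomy (n % J) (n' % J) with h1 | h1 | h1
      · have := gap _ _ h1 (Nat.mod_lt _ hJ1); linarith
      · exact h1
      · have := gap _ _ h1 (Nat.mod_lt _ hJ1); linarith
    rw [hm, add_right_inj, mul_right_inj' hδ0.ne', div_left_inj' hL0.ne', Nat.cast_inj] at h
    rw [← Nat.div_add_mod n J, ← Nat.div_add_mod n' J, hm, h]
  · rw [hfull]
    have e : q = ∑ _l ∈ range L, ((L : ℂ)⁻¹) • q := by
      rw [sum_const, card_range, ← Nat.cast_smul_eq_nsmul ℂ, smul_smul, mul_inv_cancel₀ hL2,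
        one_smul]
    conv_lhs => rw [e, ← sum_sub_distrib]
    refine (norm_sum_le _ _).trans (le_trans (sum_le_sum (g := fun _ => (L : ℝ)⁻¹ * ε)
      fun l hl => ?_) (le_of_eq ?_))
    · rw [← smul_sub, norm_smul, norm_inv, Complex.norm_natCast]
      exact mul_le_mul_of_nonneg_left ((hblock l (mem_range.1 hl)).trans (by linarith))
        (by positivity)
    · rw [sum_const, card_range, nsmul_eq_mul]; field_simp
  · intro N hN
    have hi : N / J ≤ L := Nat.div_le_of_le_mul (by rwa [mul_comm])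
    have eN : N = N / J * J + N % J := (Nat.div_add_mod' N J).symm
    have h1 : ‖∑ n ∈ range (N / J * J), (c (n % J) / L) • KR (y n)‖ ≤ ‖q‖ + 3 / 4 * ε := by
      rw [hfull]
      refine (norm_sum_le _ _).trans (le_trans
        (sum_le_sum (g := fun _ => (L : ℝ)⁻¹ * (‖q‖ + 3 / 4 * ε)) fun l hl => ?_) ?_)
      · rw [norm_smul, norm_inv, Complex.norm_natCast]
        refine mul_le_mul_of_nonneg_left ?_ (by positivity)
        have := hblock l (lt_of_lt_of_le (mem_range.1 hl) hi)
        have h2 := norm_sub_norm_le (∑ j ∈ range J, c j • KR (y (l * J + j))) q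
        rw [norm_sub_rev] at h2
        linarith
      · rw [sum_const, card_range, nsmul_eq_mul, ← mul_assoc]
        refine mul_le_of_le_one_left (by positivity) ?_
        rw [← div_eq_mul_inv, div_le_one hL0]
        exact_mod_cast hi
    have h2 : ‖∑ j ∈ range (N % J), (c ((N / J * J + j) % J) / L) • KR (y (N / J * J + j))‖
        ≤ S * ((C + ‖KR 0‖) / L) := by
      have hm := Nat.mod_lt N hJ1
      rw [hS, sum_mul]
      refine (norm_sum_le _ _).trans (le_trans (sum_le_sum fun j hj => ?_)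
        (sum_le_sum_of_subset_of_nonneg (range_subset_range.2 hm.le) fun _ _ _ => by positivity))
      have hj' := mem_range.1 hj
      rw [(hval _ j (hj'.trans hm)).2, norm_smul, norm_div, Complex.norm_natCast, div_mul_eq_mul_div,
        mul_div_assoc]
      refine mul_le_mul_of_nonneg_left (div_le_div_of_nonneg_right ?_ hL0.le) (norm_nonneg _)
      have h3 := hyb (N / J * J + j) (by omega)
      have h4 := hlip (y (N / J * J + j)) 0 (by rw [abs_of_pos (ha.trans_lt h3.1)]; exact h3.2.le)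
        (by rw [abs_zero]; linarith)
      rw [sub_zero, abs_of_pos (ha.trans_lt h3.1)] at h4
      have h5 := norm_sub_norm_le (KR (y (N / J * J + j))) (KR 0)
      have h6 : C * y (N / J * J + j) ≤ C := mul_le_of_le_one_right hC (by linarith)
      linarith
    have h3 : S * ((C + ‖KR 0‖) / L) ≤ ε / 4 := by
      rw [div_lt_iff₀ hε] at hL
      rw [← mul_div_assoc, div_le_iff₀ hL0]
      linarith
    rw [eN, sum_range_add]
    exact (norm_add_le _ _).trans (by linarith)

theorem main2 : ∃ Λ : ℕ → ℝ, Function.Injective Λ ∧ (∀ n, 0 < Λ n ∧ Λ n < 1) ∧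
    Tendsto Λ atTop (𝓝 1) ∧ ∀ f : H2, ∃ c : ℕ → ℂ,
      Tendsto (fun N => ∑ n ∈ range N, c n • KR (Λ n)) atTop (𝓝 f) := by
  haveI := sepH
  set a : ℕ → ℝ := fun s => 1 - (1 / 2) ^ s with ha
  have hmono : StrictMono a := strictMono_nat_of_lt_succ fun s => by
    simp only [ha, pow_succ]
    have : (0 : ℝ) < (1 / 2) ^ s := by positivity
    linarith
  have ha0 : ∀ s, 0 ≤ a s := fun s => by
    have := hmono.monotone (Nat.zero_le s)
    simpa [ha] using this
  have ha1 : ∀ s, a s < 1 := fun s => by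
    have : (0 : ℝ) < (1 / 2) ^ s := by positivity
    simp only [ha]; linarith
  have ha2 : ∀ s, 1 / 2 ≤ a (s + 1) := fun s => by
    have := hmono.monotone (show 1 ≤ s + 1 by omega)
    simp only [ha] at this ⊢
    linarith
  choose n y c hn hy hinj h1 h2 using fun s : ℕ => stage (ha0 s) (hmono (Nat.lt_succ_self s))
    (ha2 s) (ha1 _) (TopologicalSpace.denseSeq H2 s.unpair.1)
    (show (0 : ℝ) < 1 / (s + 1) by positivity)
  set M : ℕ → ℕ := fun s => ∑ r ∈ range s, n r with hM
  have hMs : ∀ s, M (s + 1) = M s + n s := fun s => sum_range_succ _ _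
  have hMm : StrictMono M := strictMono_nat_of_lt_succ fun s => by
    rw [hMs]; exact Nat.lt_add_of_pos_right (hn s)
  have hex : ∀ k, ∃ s, k < M (s + 1) := fun k =>
    ⟨k, lt_of_lt_of_le (Nat.lt_succ_self k) (hMm.id_le (k + 1))⟩
  classical
  set st : ℕ → ℕ := fun k => Nat.find (hex k) with hst
  have st1 : ∀ k, k < M (st k + 1) := fun k => Nat.find_spec (hex k)
  have st2 : ∀ k, M (st k) ≤ k := fun k => by
    rcases Nat.eq_zero_or_pos (st k) with h | h
    · rw [h]; simp [hM]
    · have := Nat.find_min (hex k) (show st k - 1 < st k by omega)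
      rw [Nat.sub_add_cancel h] at this
      omega
  have st3 : ∀ s j, j < n s → st (M s + j) = s := by
    intro s j hj
    have b1 := st1 (M s + j)
    have b2 := st2 (M s + j)
    have b3 : M s < M (st (M s + j) + 1) := by omega
    have b4 : M (st (M s + j)) < M (s + 1) := by rw [hMs]; omega
    have := hMm.lt_iff_lt.1 b3
    have := hMm.lt_iff_lt.1 b4
    omega
  have st4 : ∀ k, k - M (st k) < n (st k) := fun k => by
    have := st1 k
    have := st2 k
    rw [hMs] at *
    omega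
  set Λ : ℕ → ℝ := fun k => y (st k) (k - M (st k)) with hΛ
  have hΛ1 : ∀ k, a (st k) < Λ k ∧ Λ k < a (st k + 1) := fun k => hy _ _ (st4 k)
  refine ⟨Λ, fun k k' h => ?_, fun k => ⟨(ha0 _).trans_lt (hΛ1 k).1, (hΛ1 k).2.trans (ha1 _)⟩,
    ?_, represent _ fun f N0 => ?_⟩
  · have e : st k = st k' := by
      have b1 := hmono.lt_iff_lt.1 ((hΛ1 k).1.trans (h ▸ (hΛ1 k').2))
      have b2 := hmono.lt_iff_lt.1 ((hΛ1 k').1.trans (h ▸ (hΛ1 k).2))
      omega
    simp only [hΛ] at h
    have b3 := st4 k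
    have b4 := st2 k
    have b5 := st2 k'
    rw [e] at h b3 b4
    have := hinj _ _ b3 _ (st4 k') h
    omega
  · have t1 : Tendsto a atTop (𝓝 1) := by
      simpa [ha] using (tendsto_pow_atTop_nhds_zero_of_lt_one (r := (1 / 2 : ℝ)) (by norm_num)
        (by norm_num)).const_sub 1
    have t2 : Tendsto st atTop atTop := tendsto_atTop_atTop.2 fun s => ⟨M s, fun k hk => by
      have := hMm.lt_iff_lt.1 (lt_of_le_of_lt hk (st1 k))
      omega⟩
    exact tendsto_of_tendsto_of_tendsto_of_le_of_le (t1.comp t2) tendsto_const_nhds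
      (fun k => (hΛ1 k).1.le) fun k => ((hΛ1 k).2.trans (ha1 _)).le
  · rcases eq_or_ne f 0 with rfl | hf
    · exact ⟨N0 + 1, Nat.lt_succ_self _, fun _ => 0, fun _ _ => rfl, by simp, by simp⟩
    have hP : 0 < ‖f‖ := norm_pos_iff.2 hf
    obtain ⟨t, ht⟩ := (TopologicalSpace.denseRange_denseSeq H2).exists_dist_lt f
      (show 0 < ‖f‖ / 4 by positivity)
    obtain ⟨m, hm⟩ := exists_nat_gt (4 / ‖f‖)
    set s := Nat.pair t (m + N0) with hs
    have hs1 : m + N0 ≤ s := Nat.right_le_pair _ _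
    have hs2 : 1 / ((s : ℝ) + 1) ≤ ‖f‖ / 4 := by
      have : (m : ℝ) ≤ s := by exact_mod_cast (by omega : m ≤ s)
      rw [div_lt_iff₀ hP] at hm
      rw [div_le_div_iff₀ (by positivity) (by norm_num)]
      nlinarith
    have b1 := h1 s
    have b2 := h2 s
    rw [hs, Nat.unpair_pair, ← hs] at b1 b2
    dsimp only at b1 b2
    rw [dist_eq_norm] at ht
    have hMs' : s ≤ M s := hMm.id_le s
    have key : ∀ N ≤ n s, ∑ k ∈ range (M s + N), (if M s ≤ k then c s (k - M s) else 0) • KR (Λ k)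
        = ∑ j ∈ range N, c s j • KR (y s j) := by
      intro N hN
      rw [sum_range_add, sum_eq_zero (s := range (M s)) fun k hk => by
        rw [if_neg (not_le.2 (mem_range.1 hk)), zero_smul], zero_add]
      refine sum_congr rfl fun j hj => ?_
      simp only [hΛ]
      rw [st3 s j (lt_of_lt_of_le (mem_range.1 hj) hN), if_pos (Nat.le_add_right _ _),
        Nat.add_sub_cancel_left]
    refine ⟨M s + n s, by have := hn s; omega, fun k => if M s ≤ k then c s (k - M s) else 0,
      fun k hk => if_neg (by omega), ?_, fun N hN => ?_⟩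
    · rw [key _ le_rfl]
      have := norm_sub_le_norm_sub_add_norm_sub f (TopologicalSpace.denseSeq H2 t)
        (∑ j ∈ range (n s), c s j • KR (y s j))
      linarith
    · rcases le_total N (M s) with h | h
      · rw [sum_eq_zero fun k hk => by
          dsimp only
          rw [if_neg (not_le.2 (lt_of_lt_of_le (mem_range.1 hk) h)), zero_smul], norm_zero]
        positivity
      · obtain ⟨N', rfl⟩ := Nat.exists_eq_add_of_le h
        rw [key N' (by omega)]
        have b3 := b2 N' (by omega)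
        have b4 := norm_sub_norm_le (TopologicalSpace.denseSeq H2 t) f
        rw [norm_sub_rev] at b4
        linarith

theorem main3 : ∃ Λ : ℕ → ℂ, Function.Injective Λ ∧ (∀ n, ‖Λ n‖ < 1) ∧ Tendsto Λ atTop (𝓝 1) ∧
    ∀ f : ℕ → ℂ, Summable (fun n => ‖f n‖ ^ 2) → ∃ c : ℕ → ℂ, Tendsto (fun N : ℕ => ∑' n : ℕ,
      ‖f n - ∑ k ∈ range N, c k * (starRingEnd ℂ (Λ k)) ^ n‖ ^ 2) atTop (𝓝 0) := by
  obtain ⟨Λ, h1, h2, h3, h4⟩ := main2
  have h5 : ∀ n, |Λ n| < 1 := fun n => by rw [abs_of_pos (h2 n).1]; exact (h2 n).2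
  refine ⟨fun n => Λ n, Complex.ofReal_injective.comp h1, fun n => by
    rw [Complex.norm_real]; exact h5 n, (Complex.continuous_ofReal.tendsto 1).comp h3,
    fun f hf => ?_⟩
  have h2 : ((2 : ENNReal).toReal) = ((2 : ℕ) : ℝ) := by norm_num
  let F : H2 := ⟨f, memℓp_gen (by simp only [h2, Real.rpow_natCast]; exact hf)⟩
  obtain ⟨c, hc⟩ := h4 F
  refine ⟨c, ?_⟩
  have h3 := ((tendsto_const_nhds (x := F)).sub hc).norm.pow 2
  rw [sub_self, norm_zero, zero_pow two_ne_zero] at h3
  refine h3.congr fun N => ?_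
  have h6 := lp.norm_rpow_eq_tsum (p := 2) (by norm_num) (F - ∑ n ∈ range N, c n • KR (Λ n))
  simp only [h2, Real.rpow_natCast] at h6
  rw [h6]
  refine tsum_congr fun m => ?_
  rw [lp.coeFn_sub, Pi.sub_apply, sum_apply']
  simp only [KR_apply (h5 _), Complex.conj_ofReal]
  rfl

end Pool.Agent.H21.Rep
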