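import Mathlib

set_option autoImplicit false

open Filter Topology Set Metric MeasureTheory

namespace Pool.Agent.H21.Ruz

variable {E F : Type} [NormedAddCommGroup E] [NormedSpace ℂ E] [FiniteDimensional ℂ E]
  [NormedAddCommGroup F] [NormedSpace ℂ F] [FiniteDimensional ℂ F]

omit [FiniteDimensional ℂ E] in
theorem line_analytic {U : Set E} {d : E → ℂ} (hd : AnalyticOnNhd ℂ d U) (z e : E) {s : Set ℂ}
    (hs : ∀ t ∈ s, z + t • e ∈ U) : AnalyticOnNhd ℂ (fun t : ℂ => d (z + t • e)) s := by
  intro t ht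
  have h1 : AnalyticAt ℂ (fun t : ℂ => z + t • e) t :=
    analyticAt_const.add (analyticAt_id.smul analyticAt_const)
  exact AnalyticAt.comp (g := d) (f := fun t : ℂ => z + t • e) (hd _ (hs t ht)) h1

/-- Riemann removability across the zero set of an analytic function, in `C¹` form. -/
theorem removable {U : Set E} (hU : IsOpen U) {w : E → F} (hw : ContinuousOn w U) {d : E → ℂ}
    (hd : AnalyticOnNhd ℂ d U) (hwd : ∀ z ∈ U, d z ≠ 0 → ContDiffAt ℂ 1 w z) {η : E}
    (hη : η ∈ U) (hne : ∃ᶠ z in 𝓝 η, d z ≠ 0) :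
    ∃ w' : E → E →L[ℂ] F, (∀ᶠ z in 𝓝 η, HasFDerivAt w (w' z) z) ∧ ContinuousAt w' η := by
  haveI : ProperSpace E := FiniteDimensional.proper ℂ E
  haveI : CompleteSpace F := FiniteDimensional.complete ℂ F
  obtain ⟨R, hR, hRU⟩ := Metric.isOpen_iff.1 hU η hη
  obtain ⟨z1, hz1, hz1b⟩ := (hne.and_eventually (ball_mem_nhds η (half_pos hR))).exists
  set e := z1 - η with he
  have hen : ‖e‖ < R / 2 := by rwa [dist_eq_norm] at hz1b
  have hmem : ∀ z ∈ ball η (R / 2), ∀ t ∈ closedBall (0 : ℂ) 1, z + t • e ∈ U := by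
    intro z hz t ht
    apply hRU
    rw [mem_ball, dist_eq_norm] at hz ⊢
    rw [mem_closedBall, dist_zero_right] at ht
    have h1 : z + t • e - η = (z - η) + t • e := by abel
    have h2 : ‖t • e‖ ≤ ‖e‖ := by
      rw [norm_smul]; exact mul_le_of_le_one_left (norm_nonneg _) ht
    rw [h1]
    linarith [norm_add_le (z - η) (t • e)]
  have hηb : η ∈ ball η (R / 2) := mem_ball_self (half_pos hR)
  have han := line_analytic hd η e (hmem η hηb)
  obtain ⟨ρ, hρ0, hρ1, hρ⟩ : ∃ ρ : ℝ, 0 < ρ ∧ ρ ≤ 1 ∧ ∀ t : ℂ, ‖t‖ = ρ → d (η + t • e) ≠ 0 := by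
    rcases (han 0 (mem_closedBall_self zero_le_one)).eventually_eq_zero_or_eventually_ne_zero
      with h | h
    · have := han.eqOn_zero_of_preconnected_of_eventuallyEq_zero
        (convex_closedBall (0 : ℂ) 1).isPreconnected (mem_closedBall_self zero_le_one) h
        (show (1 : ℂ) ∈ closedBall (0 : ℂ) 1 by simp)
      simp [he] at this
      exact absurd this hz1
    · rw [eventually_nhdsWithin_iff, Metric.eventually_nhds_iff] at h
      obtain ⟨ε, hε, h⟩ := h
      refine ⟨min (ε / 2) 1, lt_min (half_pos hε) one_pos, min_le_right _ _, fun t ht => ?_⟩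
      apply h
      · rw [dist_zero_right, ht]; exact (min_le_left _ _).trans_lt (half_lt_self hε)
      · intro h0
        rw [mem_singleton_iff.1 h0, norm_zero] at ht
        exact (lt_min (half_pos hε) one_pos).ne ht
  set O := U ∩ d ⁻¹' {0}ᶜ with hO
  have hOo : IsOpen O := hd.continuousOn.isOpen_inter_preimage hU isOpen_compl_singleton
  set C := (fun t : ℂ => η + t • e) '' sphere 0 ρ with hC
  have hCc : IsCompact C := (isCompact_sphere 0 ρ).image (by fun_prop)
  have hCO : C ⊆ O := by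
    rintro _ ⟨t, ht, rfl⟩
    rw [mem_sphere_zero_iff_norm] at ht
    exact ⟨hmem η hηb t (by rw [mem_closedBall, dist_zero_right, ht]; exact hρ1), hρ t ht⟩
  obtain ⟨δ0, hδ0, hδO⟩ := hCc.exists_cthickening_subset_open hOo hCO
  have hK : IsCompact (cthickening δ0 C) := hCc.cthickening
  have hfc : ContinuousOn (fderiv ℂ w) O := fun z hz =>
    ((hwd z hz.1 hz.2).continuousAt_fderiv one_ne_zero).continuousWithinAt
  obtain ⟨M, hM⟩ := hK.exists_bound_of_continuousOn (hfc.mono hδO)
  set δ := min δ0 (R / 2) with hδ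
  have hδp : 0 < δ := lt_min hδ0 (half_pos hR)
  have hin : ∀ z ∈ ball η δ, ∀ θ : ℝ, z + circleMap 0 ρ θ • e ∈ cthickening δ0 C := by
    intro z hz θ
    refine mem_cthickening_of_dist_le _ (η + circleMap 0 ρ θ • e) _ _
      ⟨_, circleMap_mem_sphere 0 hρ0.le θ, rfl⟩ ?_
    rw [dist_add_right]
    exact (mem_ball.1 hz).le.trans (min_le_left _ _)
  have hcθ : ∀ z : E, Continuous fun θ : ℝ => z + circleMap 0 ρ θ • e := fun z =>
    continuous_const.add ((continuous_circleMap 0 ρ).smul continuous_const)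
  have hmv : ∀ z ∈ ball η δ,
      w z = (2 * Real.pi)⁻¹ • ∫ θ in (0 : ℝ)..2 * Real.pi, w (z + circleMap 0 ρ θ • e) := by
    intro z hz
    have hz' : z ∈ ball η (R / 2) := ball_subset_ball (min_le_right _ _) hz
    have hsub : closedBall (0 : ℂ) ρ ⊆ closedBall 0 1 := closedBall_subset_closedBall hρ1
    have han2 := (line_analytic hd z e (hmem z hz')).mono hsub
    have hfin : (closedBall (0 : ℂ) ρ \ {t | d (z + t • e) ≠ 0}).Finite := by
      rcases han2.eqOn_zero_or_eventually_ne_zero_of_preconnected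
        (convex_closedBall (0 : ℂ) ρ).isPreconnected with h | h
      · exact absurd (h (sphere_subset_closedBall (circleMap_mem_sphere 0 hρ0.le 0)))
          (hδO (hin z hz 0)).2
      · exact (isCompact_closedBall 0 ρ).finite_sdiff_of_mem_codiscreteWithin h
    have key := circleAverage_of_differentiable_on_off_countable (c := 0) (R := ρ)
      (f := fun t : ℂ => w (z + t • e)) hfin.countable
      (by
        rw [abs_of_pos hρ0]
        exact hw.comp (by fun_prop) (fun t ht => hmem z hz' t (hsub ht)))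
      (by
        rw [abs_of_pos hρ0]
        intro t ht
        have ht1 := ball_subset_closedBall ht.1
        have h2 : d (z + t • e) ≠ 0 := by
          by_contra h; exact ht.2 ⟨ht1, fun h' => h' h⟩
        have h3 := (hwd _ (hmem z hz' t (hsub ht1)) h2).differentiableAt one_ne_zero
        exact DifferentiableAt.comp (g := w) (f := fun t : ℂ => z + t • e) t h3 (by fun_prop))
    rw [Real.circleAverage_def] at key
    simpa using key.symm
  have hfcθ : ∀ z ∈ ball η δ, Continuous fun θ : ℝ => fderiv ℂ w (z + circleMap 0 ρ θ • e) :=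
    fun z hz => hfc.comp_continuous (hcθ z) (fun θ => hδO (hin z hz θ))
  have hwcθ : ∀ z ∈ ball η δ, Continuous fun θ : ℝ => w (z + circleMap 0 ρ θ • e) :=
    fun z hz => hw.comp_continuous (hcθ z) (fun θ => (hδO (hin z hz θ)).1)
  refine ⟨fun z => (2 * Real.pi)⁻¹ • ∫ θ in (0 : ℝ)..2 * Real.pi,
    fderiv ℂ w (z + circleMap 0 ρ θ • e), ?_, ?_⟩
  · filter_upwards [ball_mem_nhds η hδp] with z hz
    have hb : ball η δ ∈ 𝓝 z := isOpen_ball.mem_nhds hz
    have h1 := intervalIntegral.hasFDerivAt_integral_of_dominated_of_fderiv_le (𝕜 := ℂ)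
      (μ := volume) (a := 0) (b := 2 * Real.pi) (bound := fun _ => M)
      (F := fun z θ => w (z + circleMap 0 ρ θ • e))
      (F' := fun z θ => fderiv ℂ w (z + circleMap 0 ρ θ • e)) hb
      (by filter_upwards [hb] with y hy; exact (hwcθ y hy).aestronglyMeasurable)
      ((hwcθ z hz).intervalIntegrable _ _) (hfcθ z hz).aestronglyMeasurable
      (Eventually.of_forall fun θ _ y hy => hM _ (hin y hy θ)) intervalIntegrable_const
      (Eventually.of_forall fun θ _ y hy => by
        have h3 := ((hwd _ (hδO (hin y hy θ)).1 (hδO (hin y hy θ)).2).differentiableAt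
          one_ne_zero).hasFDerivAt
        have h4 := HasFDerivAt.comp (f := fun y : E => y + circleMap 0 ρ θ • e) y h3
          ((hasFDerivAt_id y).add_const _)
        rw [ContinuousLinearMap.comp_id] at h4
        exact h4)
    refine (h1.const_smul (2 * Real.pi)⁻¹).congr_of_eventuallyEq ?_
    filter_upwards [hb] with y hy
    exact hmv y hy
  · apply ContinuousAt.fun_const_smul
    refine intervalIntegral.continuousAt_of_dominated_interval (bound := fun _ => M) ?_ ?_
      intervalIntegrable_const ?_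
    · filter_upwards [ball_mem_nhds η hδp] with y hy; exact (hfcθ y hy).aestronglyMeasurable
    · filter_upwards [ball_mem_nhds η hδp] with y hy
      exact Eventually.of_forall fun θ _ => hM _ (hin y hy θ)
    · refine Eventually.of_forall fun θ _ => ?_
      have h1 := hδO (hin η (mem_ball_self hδp) θ)
      exact ContinuousAt.comp (g := fderiv ℂ w) (f := fun y : E => y + circleMap 0 ρ θ • e)
        (hfc.continuousAt (hOo.mem_nhds h1)) (by fun_prop)

theorem det_bound (M : E →L[ℂ] E)
    (h : ∀ s : ℂ, ‖s - 1‖ < 1 → ∀ x, x + s • M x = 0 → x = 0) :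
    (1 / 2 : ℝ) ^ Module.finrank ℂ E ≤ ‖(-(1 + M)).det‖ := by
  have e1 : (-(1 + M)).det = (LinearMap.charpoly (M : E →ₗ[ℂ] E)).eval (-1) := by
    rw [LinearMap.eval_charpoly, ContinuousLinearMap.det]
    congr 1
    ext x
    simp [sub_eq_add_neg]
    abel
  have hs := IsAlgClosed.splits (LinearMap.charpoly (M : E →ₗ[ℂ] E))
  rw [e1, hs.eval_eq_prod_roots_of_monic (LinearMap.charpoly_monic _),
    ← LinearMap.charpoly_natDegree (M : E →ₗ[ℂ] E), hs.natDegree_eq_card_roots]
  have hr : ∀ μ ∈ (LinearMap.charpoly (M : E →ₗ[ℂ] E)).roots, 1 / 2 ≤ ‖-1 - μ‖ := by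
    intro μ hμ
    have h1 := (Module.End.hasEigenvalue_iff_isRoot_charpoly (M : E →ₗ[ℂ] E) μ).2
      (Polynomial.isRoot_of_mem_roots hμ)
    obtain ⟨x, hx⟩ := h1.exists_hasEigenvector
    have h2 : M x = μ • x := hx.apply_eq_smul
    by_contra hlt
    push Not at hlt
    have h3 : 1 / 2 < ‖μ‖ := by
      have := norm_add_le (-1 - μ) μ
      simp at this
      linarith
    have hμ0 : μ ≠ 0 := by intro h0; rw [h0, norm_zero] at h3; linarith
    refine hx.2 (h (-μ⁻¹) ?_ x ?_)
    · have : -μ⁻¹ - 1 = (-1 - μ) / μ := by field_simp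
      rw [this, norm_div, div_lt_one (by linarith)]
      linarith
    · rw [h2, smul_smul, neg_mul, inv_mul_cancel₀ hμ0]; simp
  generalize (LinearMap.charpoly (M : E →ₗ[ℂ] E)).roots = s at hr
  induction s using Multiset.induction_on with
  | empty => simp
  | cons a s ih =>
    rw [Multiset.map_cons, Multiset.prod_cons, norm_mul, Multiset.card_cons, pow_succ']
    exact mul_le_mul (hr a (Multiset.mem_cons_self a s))
      (ih fun μ hμ => hr μ (Multiset.mem_cons_of_mem hμ)) (by positivity) (norm_nonneg _)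

theorem inv_of_limit {M : E → E →L[ℂ] E} {η : E} (hM : ContinuousAt M η)
    (h : ∃ᶠ z in 𝓝 η, ∀ s : ℂ, ‖s - 1‖ < 1 → ∀ x, x + s • M z x = 0 → x = 0) :
    ∃ A : E ≃L[ℂ] E, (A : E →L[ℂ] E) = ContinuousLinearMap.id ℂ E + M η := by
  have h1 : ContinuousAt (fun z => ‖(-(1 + M z)).det‖) η :=
    (ContinuousLinearMap.continuous_det.continuousAt.comp
      (continuousAt_const.add hM).neg).norm
  have h2 : (1 / 2 : ℝ) ^ Module.finrank ℂ E ≤ ‖(-(1 + M η)).det‖ :=
    ge_of_tendsto_of_frequently h1 (h.mono fun z hz => det_bound (M z) hz)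
  have h3 : (-(1 + M η)).det ≠ 0 := by
    intro h0
    rw [h0, norm_zero] at h2
    have : (0 : ℝ) < (1 / 2 : ℝ) ^ Module.finrank ℂ E := by positivity
    linarith
  refine ⟨((-(1 + M η)).toContinuousLinearEquivOfDetNeZero h3).trans (ContinuousLinearEquiv.neg ℂ),
    ?_⟩
  ext x
  simp

end Pool.Agent.H21.Ruz
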