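import Pool.Agent.H21.Ruz1

set_option autoImplicit false

open Filter Topology Set Metric MeasureTheory Module

namespace Pool.Agent.H21.Ruz

variable {E F : Type} [NormedAddCommGroup E] [NormedSpace ℂ E] [FiniteDimensional ℂ E]
  [NormedAddCommGroup F] [NormedSpace ℂ F] [FiniteDimensional ℂ F]

omit [FiniteDimensional ℂ E] [FiniteDimensional ℂ F] in
theorem ker_of_const {G : E → F} {z u : E} (hG : DifferentiableAt ℂ G z)
    (h : ∀ᶠ t in 𝓝 (0 : ℂ), G (z + t • u) = G z) : fderiv ℂ G z u = 0 := by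
  have h1 : HasDerivAt (fun t : ℂ => z + t • u) u 0 := by
    simpa using ((hasDerivAt_id (0 : ℂ)).smul_const u).const_add z
  have h2 : HasFDerivAt G (fderiv ℂ G z) (z + (0 : ℂ) • u) := by simpa using hG.hasFDerivAt
  have h3 := HasFDerivAt.comp_hasDerivAt (f := fun t : ℂ => z + t • u) (0 : ℂ) h2 h1
  have h4 : HasDerivAt (G ∘ fun t : ℂ => z + t • u) 0 0 :=
    (hasDerivAt_const (0 : ℂ) (G z)).congr_of_eventuallyEq h
  exact h3.unique h4

omit [FiniteDimensional ℂ E] in
theorem ev_line {O : Set E} (hO : IsOpen O) {z : E} (hz : z ∈ O) (u : E) :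
    ∀ᶠ t in 𝓝 (0 : ℂ), z + t • u ∈ O := by
  have : ContinuousAt (fun t : ℂ => z + t • u) 0 := by fun_prop
  exact this.eventually (by simpa using hO.mem_nhds hz)

/-- rank of the derivative -/
noncomputable abbrev rk (G : E → F) (z : E) : ℕ :=
  finrank ℂ (LinearMap.range (fderiv ℂ G z : E →ₗ[ℂ] F))

omit [FiniteDimensional ℂ F] in
theorem ker_dim {G : E → F} {z : E} {k m : ℕ} (hE : finrank ℂ E = k + m) (h : rk G z = k) :
    finrank ℂ (LinearMap.ker (fderiv ℂ G z : E →ₗ[ℂ] F)) = m := by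
  have := LinearMap.finrank_range_add_finrank_ker (fderiv ℂ G z : E →ₗ[ℂ] F)
  rw [rk] at h
  omega

omit [FiniteDimensional ℂ F] in
theorem level {Ω : Set E} (hΩ : IsOpen Ω) {G : E → F} (hG : AnalyticOnNhd ℂ G Ω) {k m : ℕ}
    (hE : finrank ℂ E = k + m)
    (hlev : ∀ ξ ∈ Ω, rk G ξ = k → ∃ V : Submodule ℂ E, finrank ℂ V = m ∧
      {η | η ∈ Ω ∧ G η = G ξ} = {η | η ∈ Ω ∧ η - ξ ∈ V})
    {z u : E} (hz : z ∈ Ω) (hr : rk G z = k) (hu : fderiv ℂ G z u = 0) (hzu : z + u ∈ Ω) :
    G (z + u) = G z := by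
  obtain ⟨V, hV, hs⟩ := hlev z hz hr
  have hmem : ∀ x ∈ V, z + x ∈ Ω → G (z + x) = G z := by
    intro x hx hzx
    have : z + x ∈ {η | η ∈ Ω ∧ η - z ∈ V} := ⟨hzx, by simpa using hx⟩
    rw [← hs] at this
    exact this.2
  have hle : V ≤ LinearMap.ker (fderiv ℂ G z : E →ₗ[ℂ] F) := by
    intro x hx
    apply ker_of_const (hG z hz).differentiableAt
    filter_upwards [ev_line hΩ hz x] with t ht
    exact hmem _ (V.smul_mem t hx) ht
  have heq : V = LinearMap.ker (fderiv ℂ G z : E →ₗ[ℂ] F) :=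
    Submodule.eq_of_le_of_finrank_eq hle (by rw [hV, ker_dim hE hr])
  exact hmem u (by rw [heq]; exact hu) hzu

theorem generic {Ω : Set E} (hΩ : IsOpen Ω) (hc : IsPreconnected Ω) {G : E → F}
    (hG : AnalyticOnNhd ℂ G Ω) {k : ℕ} (hle : ∀ ξ ∈ Ω, rk G ξ ≤ k) (hex : ∃ ξ ∈ Ω, rk G ξ = k) :
    ∃ (d : E → ℂ) (p : F →L[ℂ] (Fin k → ℂ)), AnalyticOnNhd ℂ d Ω ∧
      (∀ z ∈ Ω, d z ≠ 0 → rk G z = k ∧ ∀ x, p (fderiv ℂ G z x) = 0 → fderiv ℂ G z x = 0) ∧
      ∀ z ∈ Ω, ∃ᶠ y in 𝓝 z, d y ≠ 0 := by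
  haveI : CompleteSpace F := FiniteDimensional.complete ℂ F
  obtain ⟨z0, hz0, hr0⟩ := hex
  let b : Basis (Fin k) ℂ (LinearMap.range (fderiv ℂ G z0 : E →ₗ[ℂ] F)) :=
    Module.finBasisOfFinrankEq ℂ _ hr0
  have hb : ∀ j, ∃ x, fderiv ℂ G z0 x = (b j : F) := fun j => (b j).2
  choose e he using hb
  have hli : LinearIndependent ℂ (fun j => (b j : F)) :=
    b.linearIndependent.map' (Submodule.subtype _) (Submodule.ker_subtype _)
  obtain ⟨p0, hp0⟩ := LinearMap.exists_leftInverse_of_injective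
    (Fintype.linearCombination ℂ (fun j => (b j : F)))
    (LinearMap.ker_eq_bot.2 hli.fintypeLinearCombination_injective)
  let p : F →L[ℂ] (Fin k → ℂ) := LinearMap.toContinuousLinearMap p0
  let A : E → Matrix (Fin k) (Fin k) ℂ := fun z => Matrix.of fun i j => p (fderiv ℂ G z (e j)) i
  have hA0 : A z0 = 1 := by
    ext i j
    have h1 := LinearMap.congr_fun hp0 (Pi.single j 1)
    simp only [LinearMap.comp_apply, Fintype.linearCombination_apply_single, one_smul,
      LinearMap.id_apply] at h1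
    simp only [A, Matrix.of_apply, he, p, LinearMap.coe_toContinuousLinearMap', h1,
      Matrix.one_apply, Pi.single_apply]
  have hd : AnalyticOnNhd ℂ (fun z => (A z).det) Ω := by
    intro z hz
    simp only [Matrix.det_apply']
    refine Finset.analyticAt_fun_sum _ fun σ _ => analyticAt_const.mul ?_
    refine Finset.analyticAt_fun_prod _ fun i _ => ?_
    have h1 : AnalyticAt ℂ (fderiv ℂ G) z := (hG z hz).fderiv
    exact ((((ContinuousLinearMap.proj (R := ℂ) (φ := fun _ : Fin k => ℂ) (σ i)).comp p).comp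
      (ContinuousLinearMap.apply ℂ F (e i))).analyticAt _).comp h1
  refine ⟨fun z => (A z).det, p, hd, fun z hz hdz => ?_, fun z hz => ?_⟩
  · let N : (Fin k → ℂ) →ₗ[ℂ] F := Fintype.linearCombination ℂ (fun j => fderiv ℂ G z (e j))
    have hN : ∀ c, p (N c) = (A z).mulVec c := by
      intro c
      ext i
      simp [N, Fintype.linearCombination_apply, A, Matrix.mulVec, dotProduct, mul_comm]
    have hinj : ∀ c, p (N c) = 0 → c = 0 := by
      intro c hc
      rw [hN] at hc
      exact Matrix.eq_zero_of_mulVec_eq_zero hdz hc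
    have hNi : Function.Injective N := by
      rw [← LinearMap.ker_eq_bot, LinearMap.ker_eq_bot']
      intro c hc
      exact hinj c (by rw [hc, map_zero])
    have hsub : LinearMap.range N ≤ LinearMap.range (fderiv ℂ G z : E →ₗ[ℂ] F) := by
      rintro _ ⟨c, rfl⟩
      rw [Fintype.linearCombination_apply]
      exact Submodule.sum_mem _ fun j _ => Submodule.smul_mem _ _ ⟨e j, rfl⟩
    have hdim : finrank ℂ (LinearMap.range N) = k := by
      rw [LinearMap.finrank_range_of_inj hNi]; simp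
    have h1 := Submodule.finrank_mono hsub
    have h2 := hle z hz
    have h3 : rk G z = k := by rw [rk] at h2 ⊢; omega
    refine ⟨h3, fun x hx => ?_⟩
    have h4 := Submodule.eq_of_le_of_finrank_eq hsub (by rw [hdim]; exact h3.symm)
    have h5 : fderiv ℂ G z x ∈ LinearMap.range N := by rw [h4]; exact ⟨x, rfl⟩
    obtain ⟨c, hc⟩ := h5
    rw [← hc] at hx ⊢
    rw [hinj c hx, map_zero]
  · by_contra h
    rw [not_frequently] at h
    have h1 := hd.eqOn_zero_of_preconnected_of_eventuallyEq_zero hc hz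
      (h.mono fun y hy => by simpa using hy) hz0
    simp [hA0] at h1

omit [FiniteDimensional ℂ E] in
theorem line_dense {B : Set E} (hB : Convex ℝ B) {d : E → ℂ}
    (hd : AnalyticOnNhd ℂ d B) {z u : E} (hz : z ∈ B) (hdz : d z ≠ 0) (hu : z + u ∈ B) :
    ∃ᶠ t in 𝓝 (1 : ℂ), d (z + t • u) ≠ 0 := by
  by_contra h
  rw [not_frequently] at h
  have hcv : Convex ℝ {t : ℂ | z + t • u ∈ B} := by
    intro s hs t ht a b ha hb hab
    have := hB hs ht ha hb hab
    have e : z + (a • s + b • t) • u = a • (z + s • u) + b • (z + t • u) := by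
      rw [smul_add, smul_add, add_smul, smul_assoc, smul_assoc]
      have : z = a • z + b • z := by rw [← add_smul, hab, one_smul]
      conv_lhs => rw [this]
      abel
    show z + (a • s + b • t) • u ∈ B
    rw [e]; exact this
  have han := line_analytic hd z u (s := {t : ℂ | z + t • u ∈ B}) (fun t ht => ht)
  have h1 := han.eqOn_zero_of_preconnected_of_eventuallyEq_zero hcv.isPreconnected
    (show (1 : ℂ) ∈ {t : ℂ | z + t • u ∈ B} by simpa using hu)
    (h.mono fun y hy => by simpa using hy)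
    (show (0 : ℂ) ∈ {t : ℂ | z + t • u ∈ B} by simpa using hz)
  simp at h1
  exact hdz h1

/-- a continuous projection onto a continuous frame -/
theorem frame_proj {m : ℕ} {U : Set E} (hU : IsOpen U) {v : Fin m → E → E}
    (hv : ∀ i, ContinuousOn (v i) U) {η : E} (hη : η ∈ U)
    (hli : LinearIndependent ℂ (fun i => v i η)) :
    ∃ (U' : Set E) (L : E →L[ℂ] (Fin m → ℂ)) (Q : E → E →L[ℂ] E),
      IsOpen U' ∧ η ∈ U' ∧ U' ⊆ U ∧ ContinuousOn Q U' ∧
      (∀ z ∈ U', ∀ u, L (Q z u) = L u) ∧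
      (∀ z ∈ U', ∀ u, Q z u ∈ Submodule.span ℂ (range fun i => v i z)) ∧
      (∀ z ∈ U', ∀ u ∈ Submodule.span ℂ (range fun i => v i z), Q z u = u) ∧
      (∀ z ∈ U', ∀ u u', L u = L u' → Q z u = Q z u') := by
  obtain ⟨L0, hL0⟩ := LinearMap.exists_leftInverse_of_injective
    (Fintype.linearCombination ℂ (fun i => v i η))
    (LinearMap.ker_eq_bot.2 hli.fintypeLinearCombination_injective)
  let L : E →L[ℂ] (Fin m → ℂ) := LinearMap.toContinuousLinearMap L0
  let Vm : E → (Fin m → ℂ) →L[ℂ] E := fun z =>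
    ∑ i, (ContinuousLinearMap.proj (R := ℂ) (φ := fun _ : Fin m => ℂ) i).smulRight (v i z)
  have hVa : ∀ z c, Vm z c = ∑ i, c i • v i z := by
    intro z c; simp [Vm]
  have hVc : ContinuousOn Vm U := by
    refine continuousOn_finset_sum _ fun i _ => ?_
    exact ((ContinuousLinearMap.smulRightL ℂ (Fin m → ℂ) E
      (ContinuousLinearMap.proj (R := ℂ) (φ := fun _ : Fin m => ℂ) i)).continuous).comp_continuousOn
      (hv i)
  let Gm : E → (Fin m → ℂ) →L[ℂ] (Fin m → ℂ) := fun z => L.comp (Vm z)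
  have hGc : ContinuousOn Gm U := continuousOn_const.clm_comp hVc
  have hG1 : Gm η = 1 := by
    ext1 c
    have := LinearMap.congr_fun hL0 c
    simp only [LinearMap.comp_apply, Fintype.linearCombination_apply, LinearMap.id_apply] at this
    show L0 (Vm η c) = c
    rw [hVa, this]
  refine ⟨U ∩ Gm ⁻¹' {x | IsUnit x}, L, fun z => (Vm z).comp ((Ring.inverse (Gm z)).comp L),
    hGc.isOpen_inter_preimage hU Units.isOpen, ⟨hη, by simp [hG1]⟩,
    inter_subset_left, ?_, ?_, ?_, ?_, ?_⟩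
  · refine (hVc.mono inter_subset_left).clm_comp (ContinuousOn.clm_comp ?_ continuousOn_const)
    intro z hz
    obtain ⟨x, hx⟩ := hz.2
    have h1 := NormedRing.inverse_continuousAt x
    rw [hx] at h1
    exact h1.comp_continuousWithinAt ((hGc z hz.1).mono inter_subset_left)
  · intro z hz u
    have h1 := Ring.mul_inverse_cancel _ hz.2
    exact ContinuousLinearMap.ext_iff.1 h1 (L u)
  · intro z _ u
    simp only [ContinuousLinearMap.comp_apply]
    rw [hVa]
    exact Submodule.sum_mem _ fun i _ => Submodule.smul_mem _ _ (Submodule.subset_span ⟨i, rfl⟩)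
  · intro z hz u hu
    obtain ⟨c, rfl⟩ := (Submodule.mem_span_range_iff_exists_fun ℂ).1 hu
    rw [← hVa]
    have h1 := ContinuousLinearMap.ext_iff.1 (Ring.inverse_mul_cancel _ hz.2) c
    simp only [ContinuousLinearMap.comp_apply]
    congr 1
  · intro z _ u u' h
    simp only [ContinuousLinearMap.comp_apply, h]

end Pool.Agent.H21.Ruz
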