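import Pool.Agent.H21.Ruz2

set_option autoImplicit false

open Filter Topology Set Metric MeasureTheory Module

namespace Pool.Agent.H21.Ruz

variable {E F : Type} [NormedAddCommGroup E] [NormedSpace ℂ E] [FiniteDimensional ℂ E]
  [NormedAddCommGroup F] [NormedSpace ℂ F] [FiniteDimensional ℂ F]

/-- the kernel field extends continuously near the point -/
def Ext (Ω : Set E) (G : E → F) (k m : ℕ) (z : E) : Prop :=
  ∃ U : Set E, IsOpen U ∧ z ∈ U ∧ U ⊆ Ω ∧ ∃ v : Fin m → E → E,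
    (∀ i, ContinuousOn (v i) U) ∧ (∀ η ∈ U, LinearIndependent ℂ (fun i => v i η)) ∧
    (∀ η ∈ U, rk G η = k → Submodule.span ℂ (range fun i => v i η) =
      LinearMap.ker (fderiv ℂ G η : E →ₗ[ℂ] F))

theorem transfer {Ω : Set E} (hΩ : IsOpen Ω) {G : E → F} (hG : AnalyticOnNhd ℂ G Ω) {k m : ℕ}
    (hE : finrank ℂ E = k + m)
    (hlev : ∀ ξ ∈ Ω, rk G ξ = k → ∃ V : Submodule ℂ E, finrank ℂ V = m ∧
      {η | η ∈ Ω ∧ G η = G ξ} = {η | η ∈ Ω ∧ η - ξ ∈ V})
    {d : E → ℂ} {p : F →L[ℂ] (Fin k → ℂ)} (hd : AnalyticOnNhd ℂ d Ω)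
    (hdp : ∀ z ∈ Ω, d z ≠ 0 → rk G z = k ∧ ∀ x, p (fderiv ℂ G z x) = 0 → fderiv ℂ G z x = 0)
    (hdn : ∀ z ∈ Ω, ∃ᶠ y in 𝓝 z, d y ≠ 0)
    {U : Set E} (hU : IsOpen U) (hUΩ : U ⊆ Ω) {v : Fin m → E → E}
    (hv : ∀ i, ContinuousOn (v i) U) (hli : ∀ η ∈ U, LinearIndependent ℂ (fun i => v i η))
    (hsp : ∀ η ∈ U, rk G η = k → Submodule.span ℂ (range fun i => v i η) =
      LinearMap.ker (fderiv ℂ G η : E →ₗ[ℂ] F))
    {η a : E} (hη : η ∈ U) (ha : a ∈ Submodule.span ℂ (range fun i => v i η))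
    {R : ℝ} (hR : ball (η + a) R ⊆ Ω) (haR : ‖a‖ < R / 2) : Ext Ω G k m (η + a) := by
  haveI : CompleteSpace F := FiniteDimensional.complete ℂ F
  haveI : CompleteSpace E := FiniteDimensional.complete ℂ E
  obtain ⟨U', L, Q, hU', hηU', hU'U, hQc, hLQ, hQs, hQi, hQL⟩ := frame_proj hU hv hη (hli η hη)
  have hU'Ω : U' ⊆ Ω := hU'U.trans hUΩ
  set w : E → E := fun z => Q z a with hw
  have hwc : ContinuousOn w U' := hQc.clm_apply continuousOn_const
  have hwη : w η = a := hQi η hηU' a ha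
  set O := U' ∩ d ⁻¹' {0}ᶜ with hO
  have hOo : IsOpen O :=
    (hd.continuousOn.mono hU'Ω).isOpen_inter_preimage hU' isOpen_compl_singleton
  have hker : ∀ z ∈ O, ∀ u, u ∈ Submodule.span ℂ (range fun i => v i z) ↔
      fderiv ℂ G z u = 0 := by
    intro z hz u
    rw [hsp z (hU'U hz.1) (hdp z (hU'Ω hz.1) hz.2).1]
    rfl
  -- smoothness off the zero set
  have hwd : ∀ z ∈ U', d z ≠ 0 → ContDiffAt ℂ 1 w z := by
    intro z hz hdz
    let Θ : E → E →L[ℂ] ((Fin k → ℂ) × (Fin m → ℂ)) := fun y => (p.comp (fderiv ℂ G y)).prod L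
    have hinv : ∀ y ∈ O, (Θ y).IsInvertible := by
      intro y hy
      have hinj : Function.Injective (Θ y : E →ₗ[ℂ] ((Fin k → ℂ) × (Fin m → ℂ))) := by
        rw [← LinearMap.ker_eq_bot, LinearMap.ker_eq_bot']
        intro x hx
        have h1 : p (fderiv ℂ G y x) = 0 := congrArg Prod.fst hx
        have h2 : L x = 0 := congrArg Prod.snd hx
        have h3 := (hker y hy x).2 ((hdp y (hU'Ω hy.1) hy.2).2 x h1)
        rw [← hQi y hy.1 x h3, hQL y hy.1 x 0 (by rw [h2, map_zero]), map_zero]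
      exact ⟨(LinearMap.linearEquivOfInjective _ hinj (by simp [hE])).toContinuousLinearEquiv,
        by ext1 x; rfl⟩
    have hΘ : ContDiffAt ℂ 1 Θ z := by
      have h1 : ContDiffAt ℂ 1 (fderiv ℂ G) z := (hG z (hU'Ω hz)).fderiv.contDiffAt
      have h2 : ContDiffAt ℂ 1 (fun y => p.comp (fderiv ℂ G y)) z := contDiffAt_const.clm_comp h1
      have h3 : ContDiffAt ℂ 1 (fun y =>
          (ContinuousLinearMap.inl ℂ (Fin k → ℂ) (Fin m → ℂ)).comp (p.comp (fderiv ℂ G y)) +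
          (ContinuousLinearMap.inr ℂ (Fin k → ℂ) (Fin m → ℂ)).comp L) z :=
        (contDiffAt_const.clm_comp h2).add contDiffAt_const
      refine h3.congr_of_eventuallyEq (Eventually.of_forall fun y => ?_)
      ext1 x
      simp [Θ]
    have h3 : ContDiffAt ℂ 1 (fun y => (Θ y).inverse (0, L a)) z :=
      (((hinv z ⟨hz, hdz⟩).contDiffAt_map_inverse).comp z hΘ).clm_apply contDiffAt_const
    refine h3.congr_of_eventuallyEq ?_
    filter_upwards [hOo.mem_nhds ⟨hz, hdz⟩] with y hy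
    symm
    rw [(hinv y hy).inverse_apply_eq]
    have h4 := (hker y hy _).1 (hQs y hy.1 a)
    refine Prod.ext ?_ ?_
    · show 0 = p (fderiv ℂ G y (Q y a))
      rw [h4, map_zero]
    · exact (hLQ y hy.1 a).symm
  obtain ⟨w', hw', hw'c⟩ := removable hU' hwc (hd.mono hU'Ω) hwd hηU' (hdn η (hU'Ω hηU'))
  -- constancy along the planes
  have hconst : ∀ z ∈ U', ∀ u ∈ Submodule.span ℂ (range fun i => v i z), z + u ∈ Ω →
      G (z + u) = G z := by
    intro z hz u hu hzu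
    have hQz : ContinuousAt (fun y => y + Q y u) z :=
      continuousAt_id.add ((hQc.continuousAt (hU'.mem_nhds hz)).clm_apply continuousAt_const)
    have e0 : z + Q z u = z + u := by rw [hQi z hz u hu]
    have h1 : ContinuousAt (fun y => G (y + Q y u)) z :=
      ContinuousAt.comp (g := G) (by rw [e0]; exact (hG _ hzu).continuousAt) hQz
    have h2 : ContinuousAt G z := (hG z (hU'Ω hz)).continuousAt
    have h3 : ∀ᶠ y in 𝓝 z, y + Q y u ∈ Ω := hQz.eventually (by simp only [e0]; exact hΩ.mem_nhds hzu)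
    have h4 : ∃ᶠ y in 𝓝 z, G (y + Q y u) = G y := by
      refine ((hdn z (hU'Ω hz)).and_eventually (h3.and (hU'.mem_nhds hz))).mono ?_
      rintro y ⟨a1, a2, a3⟩
      exact level hΩ hG hE hlev (hU'Ω a3) (hdp y (hU'Ω a3) a1).1
        ((hker y ⟨a3, a1⟩ _).1 (hQs y a3 u)) a2
    have := tendsto_nhds_unique_of_frequently_eq h1 h2 h4
    simp only [e0] at this
    exact this
  -- the translated points stay in the domain
  have hR0 : 0 < R := by linarith [norm_nonneg a]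
  have hstay : ∀ᶠ z in 𝓝 η, ∀ s : ℂ, ‖s - 1‖ < 1 → z + s • w z ∈ Ω := by
    have h1 : ∀ᶠ z in 𝓝 η, ‖w z - a‖ < R / 8 := by
      have := (hwc.continuousAt (hU'.mem_nhds hηU')).eventually
        (ball_mem_nhds (w η) (show 0 < R / 8 by positivity))
      filter_upwards [this] with z hz
      rwa [hwη, dist_eq_norm] at hz
    filter_upwards [h1, ball_mem_nhds η (show 0 < R / 8 by positivity)] with z a1 a2 s hs
    apply hR
    rw [mem_ball, dist_eq_norm] at a2 ⊢
    have e : z + s • w z - (η + a) = (z - η) + s • (w z - a) + (s - 1) • a := by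
      rw [smul_sub, sub_smul, one_smul]; abel
    have b1 : ‖s‖ ≤ 2 := by
      have := norm_add_le (s - 1) 1
      simp at this; linarith
    have b2 : ‖s • (w z - a)‖ ≤ 2 * (R / 8) := by
      rw [norm_smul]; exact mul_le_mul b1 a1.le (norm_nonneg _) (by norm_num)
    have b3 : ‖(s - 1) • a‖ ≤ ‖a‖ := by
      rw [norm_smul]; exact mul_le_of_le_one_left (norm_nonneg _) hs.le
    rw [e]
    linarith [norm_add₃_le (a := z - η) (b := s • (w z - a)) (c := (s - 1) • a)]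
  obtain ⟨A, hA⟩ := inv_of_limit hw'c (by
    refine ((hdn η (hU'Ω hηU')).and_eventually
      (hw'.and (hstay.eventually_nhds.and (hU'.mem_nhds hηU')))).mono ?_
    rintro z ⟨a1, a2, a3, a4⟩ s hs x hx
    have hzO : z ∈ O := ⟨a4, a1⟩
    have b1 : HasFDerivAt (fun y => y + s • w y) (ContinuousLinearMap.id ℂ E + s • w' z) z :=
      (hasFDerivAt_id z).add (a2.const_smul s)
    have b2 := HasFDerivAt.comp (f := fun y => y + s • w y) z
      (hG _ (a3.self_of_nhds s hs)).differentiableAt.hasFDerivAt b1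
    have b3 : G =ᶠ[𝓝 z] (G ∘ fun y => y + s • w y) := by
      filter_upwards [a3, hU'.mem_nhds a4] with y c1 c2
      exact (hconst y c2 _ (Submodule.smul_mem _ _ (hQs y c2 a)) (c1 s hs)).symm
    have b4 := (b2.congr_of_eventuallyEq b3).fderiv
    have b5 : fderiv ℂ G z x = 0 := by
      rw [b4, ContinuousLinearMap.comp_apply]
      have : (ContinuousLinearMap.id ℂ E + s • w' z) x = 0 := hx
      rw [this, map_zero]
    have b6 : fderiv ℂ w z x = 0 := by
      apply ker_of_const a2.differentiableAt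
      filter_upwards [ev_line hOo hzO x] with t ht
      have c1 : t • x ∈ Submodule.span ℂ (range fun i => v i z) :=
        Submodule.smul_mem _ _ ((hker z hzO x).2 b5)
      have c2 : fderiv ℂ G (z + t • x) (w z) = 0 := by
        apply ker_of_const (hG _ (hU'Ω ht.1)).differentiableAt
        filter_upwards [ev_line hΩ (hU'Ω ht.1) (w z)] with τ hτ
        rw [hconst z a4 _ c1 (hU'Ω ht.1), add_assoc]
        rw [add_assoc] at hτ
        exact hconst z a4 _ (Submodule.add_mem _ c1 (Submodule.smul_mem _ _ (hQs z a4 a))) hτ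
      have c3 := hQi _ ht.1 _ ((hker _ ht _).2 c2)
      rw [← c3]
      exact hQL _ ht.1 _ _ (hLQ z a4 a).symm
    rw [a2.fderiv] at b6
    rwa [b6, smul_zero, add_zero] at hx)
  have hstr : HasStrictFDerivAt (fun y => y + w y) (A : E →L[ℂ] E) η := by
    rw [hA]
    exact (hasStrictFDerivAt_id η).add (hasStrictFDerivAt_of_hasFDerivAt_of_continuousAt hw' hw'c)
  let Φ := hstr.toOpenPartialHomeomorph (fun y => y + w y)
  have hΦ : ∀ y, Φ y = y + w y := fun y => rfl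
  have hηs : η ∈ Φ.source := hstr.mem_toOpenPartialHomeomorph_source
  have hΦη : Φ η = η + a := by rw [hΦ, hwη]
  refine ⟨(Φ.target ∩ Φ.symm ⁻¹' U') ∩ Ω, (Φ.isOpen_inter_preimage_symm hU').inter hΩ,
    ⟨⟨hΦη ▸ Φ.map_source hηs, ?_⟩, hR (mem_ball_self hR0)⟩, inter_subset_right,
    fun i y => v i (Φ.symm y), fun i => ?_, fun y hy => hli _ (hU'U hy.1.2), fun y hy hr => ?_⟩
  · rw [mem_preimage, ← hΦη, Φ.left_inv hηs]; exact hηU'
  · exact (hv i).comp (Φ.continuousOn_symm.mono fun y hy => hy.1.1) fun y hy => hU'U hy.1.2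
  · have e : Φ.symm y + w (Φ.symm y) = y := Φ.right_inv hy.1.1
    apply Submodule.eq_of_le_of_finrank_eq
    · intro u hu
      apply ker_of_const (hG y hy.2).differentiableAt
      filter_upwards [ev_line hΩ hy.2 u] with τ hτ
      have c1 := hconst _ hy.1.2 _ (hQs _ hy.1.2 a) (by rw [e]; exact hy.2)
      have c2 := hconst _ hy.1.2 _ (Submodule.add_mem _ (hQs _ hy.1.2 a)
        (Submodule.smul_mem _ τ hu)) (by rw [← add_assoc, e]; exact hτ)
      rw [← add_assoc, e] at c2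
      rw [e] at c1
      rw [c2, c1]
    · rw [finrank_span_eq_card (hli _ (hU'U hy.1.2)), ker_dim hE hr, Fintype.card_fin]

theorem main {Ω : Set E} (hΩ : IsOpen Ω) (hc : IsPreconnected Ω) {G : E → F}
    (hG : AnalyticOnNhd ℂ G Ω) {k m : ℕ} (hE : finrank ℂ E = k + m) (hm : 0 < m)
    (hle : ∀ ξ ∈ Ω, rk G ξ ≤ k) (hex : ∃ ξ ∈ Ω, rk G ξ = k)
    (hlev : ∀ ξ ∈ Ω, rk G ξ = k → ∃ V : Submodule ℂ E, finrank ℂ V = m ∧
      {η | η ∈ Ω ∧ G η = G ξ} = {η | η ∈ Ω ∧ η - ξ ∈ V}) {ξ : E} (hξ : ξ ∈ Ω) :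
    ∃ a : E, a ≠ 0 ∧ ∃ R : ℝ, 0 < R ∧ ball ξ R ⊆ Ω ∧
      ∀ c : ℂ, ξ + c • a ∈ ball ξ R → Ext Ω G k m (ξ + c • a) → Ext Ω G k m ξ := by
  haveI : ProperSpace E := FiniteDimensional.proper ℂ E
  obtain ⟨d, p, hd, hdp, hdn⟩ := generic hΩ hc hG hle hex
  obtain ⟨R, hR, hRΩ⟩ := Metric.isOpen_iff.1 hΩ ξ hξ
  obtain ⟨x, hx, hxd⟩ := exists_seq_forall_of_frequently
    ((hdn ξ hξ).and_eventually (ball_mem_nhds ξ hR))
  have hu : ∀ j, ∃ u : E, u ∈ sphere (0 : E) 1 ∧ fderiv ℂ G (x j) u = 0 := by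
    intro j
    have h1 := ker_dim hE (hdp _ (hRΩ (hxd j).2) (hxd j).1).1
    have h2 : LinearMap.ker (fderiv ℂ G (x j) : E →ₗ[ℂ] F) ≠ ⊥ := by
      intro h; rw [h, finrank_bot] at h1; omega
    obtain ⟨u, hu, hu0⟩ := Submodule.exists_mem_ne_zero_of_ne_bot h2
    refine ⟨((‖u‖⁻¹ : ℝ) : ℂ) • u, ?_, ?_⟩
    · rw [mem_sphere_zero_iff_norm, norm_smul, Complex.norm_real, norm_inv, norm_norm,
        inv_mul_cancel₀ (norm_ne_zero_iff.2 hu0)]
    · have : fderiv ℂ G (x j) u = 0 := hu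
      rw [map_smul, this, smul_zero]
  choose u hus huk using hu
  obtain ⟨a, has, φ, hφ, hφa⟩ := (isCompact_sphere (0 : E) 1).tendsto_subseq hus
  have ha0 : a ≠ 0 := by
    intro h; rw [h] at has; simp at has
  refine ⟨a, ha0, R / 2, half_pos hR, (ball_subset_ball (half_le_self hR.le)).trans hRΩ, ?_⟩
  rintro c hc' ⟨U, hU, hηU, hUΩ, v, hv, hli, hsp⟩
  have hcn : ‖c • a‖ < R / 2 := by simpa [mem_ball, dist_eq_norm] using hc'
  obtain ⟨U', L, Q, hU', hηU', hU'U, hQc, -, hQs, hQi, -⟩ := frame_proj hU hv hηU (hli _ hηU)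
  have hlim : Tendsto (fun j => x (φ j) + c • (u ∘ φ) j) atTop (𝓝 (ξ + c • a)) :=
    (hx.comp hφ.tendsto_atTop).add (hφa.const_smul c)
  have hopen : IsOpen (U' ∩ ball ξ R) := hU'.inter isOpen_ball
  have hηb : ξ + c • a ∈ U' ∩ ball ξ R := ⟨hηU', ball_subset_ball (half_le_self hR.le) hc'⟩
  have hev : ∀ᶠ j in atTop, Q (x (φ j) + c • (u ∘ φ) j) ((u ∘ φ) j) = (u ∘ φ) j := by
    filter_upwards [hlim.eventually (hopen.mem_nhds hηb)] with j hj
    set z := x (φ j) with hz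
    set b := (u ∘ φ) j with hb
    have hbk : fderiv ℂ G z b = 0 := huk (φ j)
    have hzd := hxd (φ j)
    have hzr := (hdp _ (hRΩ hzd.2) hzd.1).1
    have h1 := line_dense (convex_ball ξ R) (hd.mono hRΩ) hzd.2 hzd.1 hj.2
    have h2 : ContinuousAt (fun t : ℂ => z + t • c • b) 1 := by fun_prop
    have h3 : ∀ᶠ t in 𝓝 (1 : ℂ), z + t • c • b ∈ U' ∩ ball ξ R :=
      h2.eventually (by simp only [one_smul]; exact hopen.mem_nhds hj)
    have h4 : ContinuousAt (fun t : ℂ => Q (z + t • c • b) b) 1 :=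
      (ContinuousAt.comp (g := Q) (by rw [one_smul]; exact hQc.continuousAt (hU'.mem_nhds hj.1))
        h2).clm_apply continuousAt_const
    have h5 : ∃ᶠ t in 𝓝 (1 : ℂ), Q (z + t • c • b) b = b := by
      refine (h1.and_eventually h3).mono ?_
      rintro t ⟨a1, a2⟩
      apply hQi _ a2.1
      rw [hsp _ (hU'U a2.1) (hdp _ (hRΩ a2.2) a1).1]
      apply ker_of_const (hG _ (hRΩ a2.2)).differentiableAt
      filter_upwards [ev_line hΩ (hRΩ a2.2) b] with τ hτ
      have k1 : fderiv ℂ G z (t • c • b) = 0 := by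
        rw [map_smul, map_smul, hbk, smul_zero, smul_zero]
      have k2 : fderiv ℂ G z (t • c • b + τ • b) = 0 := by
        rw [map_add, k1, map_smul, hbk, smul_zero, add_zero]
      rw [level hΩ hG hE hlev (hRΩ hzd.2) hzr k1 (hRΩ a2.2), add_assoc]
      rw [add_assoc] at hτ
      exact level hΩ hG hE hlev (hRΩ hzd.2) hzr k2 hτ
    have := tendsto_nhds_unique_of_frequently_eq h4 tendsto_const_nhds h5
    simp only [one_smul] at this
    exact this
  have hQa : Q (ξ + c • a) a = a := by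
    have h1 : Tendsto (fun j => Q (x (φ j) + c • (u ∘ φ) j) ((u ∘ φ) j)) atTop
        (𝓝 (Q (ξ + c • a) a)) := by
      have h2 := ((hQc.continuousAt (hU'.mem_nhds hηU')).tendsto).comp hlim
      exact (isBoundedBilinearMap_apply.continuous.tendsto (Q (ξ + c • a), a)).comp
        (h2.prodMk_nhds hφa)
    exact tendsto_nhds_unique_of_eventuallyEq h1 hφa hev
  have hmem : -(c • a) ∈ Submodule.span ℂ (range fun i => v i (ξ + c • a)) := by
    refine Submodule.neg_mem _ (Submodule.smul_mem _ _ ?_)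
    have := hQs _ hηU' a
    rwa [hQa] at this
  have e : ξ + c • a + -(c • a) = ξ := by abel
  have := transfer hΩ hG hE hlev hd hdp hdn hU hUΩ hv hli hsp hηU hmem (R := R)
    (by rw [e]; exact hRΩ) (by rwa [norm_neg])
  rwa [e] at this

end Pool.Agent.H21.Ruz
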