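import Mathlib

set_option autoImplicit false
open Matrix InnerProductSpace

namespace Pool.Agent.H21.SV

variable {E F : Type*} [NormedAddCommGroup E] [InnerProductSpace ℂ E] [FiniteDimensional ℂ E]
  [NormedAddCommGroup F] [InnerProductSpace ℂ F] [FiniteDimensional ℂ F]

lemma svd (T : E →ₗ[ℂ] F) {n : ℕ} (hn : Module.finrank ℂ E = n) :
    ∃ b : OrthonormalBasis (Fin n) ℂ E,
      (∀ i, (LinearMap.adjoint T ∘ₗ T) (b i) = ((T.singularValues i ^ 2 : ℝ) : ℂ) • b i) ∧
      (∀ i j, ⟪T (b i), T (b j)⟫_ℂ = if i = j then ((T.singularValues i ^ 2 : ℝ) : ℂ) else 0) ∧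
      (∀ i, ‖T (b i)‖ = T.singularValues i) := by
  set b := T.isSymmetric_adjoint_comp_self.eigenvectorBasis hn with hb
  have h1 : ∀ i, (LinearMap.adjoint T ∘ₗ T) (b i) = ((T.singularValues i ^ 2 : ℝ) : ℂ) • b i := by
    intro i
    rw [T.sq_singularValues_fin hn i]
    exact T.isSymmetric_adjoint_comp_self.apply_eigenvectorBasis hn i
  have h2 : ∀ i j, ⟪T (b i), T (b j)⟫_ℂ
      = if i = j then ((T.singularValues i ^ 2 : ℝ) : ℂ) else 0 := by
    intro i j
    rw [← LinearMap.adjoint_inner_right]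
    have := h1 j
    simp only [LinearMap.comp_apply] at this
    rw [this, inner_smul_right, b.inner_eq_ite]
    split_ifs with h
    · subst h; simp
    · simp
  refine ⟨b, h1, h2, fun i => ?_⟩
  have := h2 i i
  rw [if_pos rfl, inner_self_eq_norm_sq_to_K] at this
  have h3 : ‖T (b i)‖ ^ 2 = T.singularValues i ^ 2 := by
    apply Complex.ofReal_injective
    rw [← this]; simp
  exact (sq_eq_sq₀ (norm_nonneg _) (T.singularValues_nonneg i)).1 h3

/-- duality lower bound for the trace norm -/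
lemma re_trace_le (T : E →ₗ[ℂ] F) (U : F →ₗ[ℂ] E) (hU : ∀ x, ‖U x‖ ≤ ‖x‖) {n : ℕ}
    (hn : Module.finrank ℂ E = n) :
    (LinearMap.trace ℂ E (U ∘ₗ T)).re ≤ ∑ i ∈ Finset.range n, T.singularValues i := by
  obtain ⟨b, -, -, h3⟩ := svd T hn
  rw [LinearMap.trace_eq_sum_inner _ b, ← Fin.sum_univ_eq_sum_range, Complex.re_sum]
  refine Finset.sum_le_sum fun i _ => ?_
  calc (⟪b i, (U ∘ₗ T) (b i)⟫_ℂ).re ≤ ‖⟪b i, (U ∘ₗ T) (b i)⟫_ℂ‖ := Complex.re_le_norm _
    _ ≤ ‖b i‖ * ‖(U ∘ₗ T) (b i)‖ := norm_inner_le_norm _ _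
    _ ≤ T.singularValues i := by
      rw [b.norm_eq_one, one_mul, ← h3]; exact hU _

/-- if `S = T†T` satisfies `S² = c² S` then the trace norm is `tr S / c` -/
lemma sum_sv_of_sq (T : E →ₗ[ℂ] F) (c : ℝ) (hc : 0 < c)
    (h : (LinearMap.adjoint T ∘ₗ T) ∘ₗ (LinearMap.adjoint T ∘ₗ T)
      = ((c ^ 2 : ℝ) : ℂ) • (LinearMap.adjoint T ∘ₗ T)) {n : ℕ} (hn : Module.finrank ℂ E = n) :
    (∀ i, T.singularValues i ≤ c) ∧
    c * ∑ i ∈ Finset.range n, T.singularValues i
      = (LinearMap.trace ℂ E (LinearMap.adjoint T ∘ₗ T)).re := by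
  obtain ⟨b, h1, -, -⟩ := svd T hn
  have key : ∀ i : Fin n, T.singularValues i = 0 ∨ T.singularValues i = c := by
    intro i
    have e := congrArg (fun S : E →ₗ[ℂ] E => S (b i)) h
    simp only [LinearMap.smul_apply] at e
    rw [LinearMap.comp_apply, h1, map_smul, h1, smul_smul, smul_smul] at e
    have hb : b i ≠ 0 := b.orthonormal.ne_zero i
    have e2 := smul_left_injective ℂ hb e
    have e3 : T.singularValues i ^ 2 * T.singularValues i ^ 2 = c ^ 2 * T.singularValues i ^ 2 := by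
      exact_mod_cast e2
    by_cases h0 : T.singularValues i = 0
    · exact Or.inl h0
    · right
      have : T.singularValues i ^ 2 = c ^ 2 := mul_right_cancel₀ (pow_ne_zero 2 h0) e3
      exact (sq_eq_sq₀ (T.singularValues_nonneg i) hc.le).1 this
  constructor
  · intro i
    by_cases hi : i < n
    · rcases key ⟨i, hi⟩ with h | h
      · simp only at h; rw [h]; exact hc.le
      · simp only at h; rw [h]
    · rw [T.singularValues_of_finrank_le (by omega)]; exact hc.le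
  · rw [LinearMap.trace_eq_sum_inner _ b, ← Fin.sum_univ_eq_sum_range, Complex.re_sum,
      Finset.mul_sum]
    refine Finset.sum_congr rfl fun i _ => ?_
    rw [h1, inner_smul_right, b.inner_eq_ite, if_pos rfl, mul_one, Complex.ofReal_re]
    rcases key i with h | h <;> rw [h] <;> ring

lemma trace_toEuc {n : Type*} [Fintype n] [DecidableEq n] (M : Matrix n n ℂ) :
    LinearMap.trace ℂ _ (toEuclideanLin M) = M.trace := by
  rw [toEuclideanLin_eq_toLin_orthonormal, Matrix.trace_toLin_eq]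

lemma toEuc_mul {l m n : Type*} [Fintype n] [DecidableEq n] [Fintype m] [DecidableEq m]
    (A : Matrix l m ℂ) (B : Matrix m n ℂ) :
    toEuclideanLin (A * B) = toEuclideanLin A ∘ₗ toEuclideanLin B :=
  Matrix.toLpLin_mul_same 2 A B

lemma mat_re_trace_le {m n : ℕ} (T : Matrix (Fin m) (Fin n) ℂ) (U : Matrix (Fin n) (Fin m) ℂ)
    (hU : Uᴴ * U = 1) :
    (U * T).trace.re ≤ ∑ i ∈ Finset.range n, (toEuclideanLin T).singularValues i := by
  rw [← trace_toEuc, toEuc_mul]
  refine re_trace_le _ _ (fun x => le_of_eq ?_) (by simp)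
  have h : ⟪toEuclideanLin U x, toEuclideanLin U x⟫_ℂ = ⟪x, x⟫_ℂ := by
    rw [← LinearMap.adjoint_inner_right, ← Matrix.toEuclideanLin_conjTranspose_eq_adjoint,
      ← LinearMap.comp_apply, ← toEuc_mul, hU, Matrix.toLpLin_one]
    rfl
  rw [inner_self_eq_norm_sq_to_K, inner_self_eq_norm_sq_to_K] at h
  have h3 : ‖toEuclideanLin U x‖ ^ 2 = ‖x‖ ^ 2 := by exact_mod_cast h
  exact (sq_eq_sq₀ (norm_nonneg _) (norm_nonneg _)).1 h3

lemma mat_sum_sv_of_sq {m n : ℕ} (T : Matrix (Fin m) (Fin n) ℂ) (c : ℝ) (hc : 0 < c)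
    (h : (Tᴴ * T) * (Tᴴ * T) = ((c ^ 2 : ℝ) : ℂ) • (Tᴴ * T)) :
    (∀ i, (toEuclideanLin T).singularValues i ≤ c) ∧
    c * ∑ i ∈ Finset.range n, (toEuclideanLin T).singularValues i = (Tᴴ * T).trace.re := by
  have e : LinearMap.adjoint (toEuclideanLin T) ∘ₗ toEuclideanLin T = toEuclideanLin (Tᴴ * T) := by
    rw [← Matrix.toEuclideanLin_conjTranspose_eq_adjoint, toEuc_mul]
  have := sum_sv_of_sq (toEuclideanLin T) c hc (by rw [e, ← toEuc_mul, h, map_smul]) (n := n)
    (by simp)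
  rwa [e, trace_toEuc] at this

end Pool.Agent.H21.SV
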