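import Mathlib

namespace Pool.Agent.H21.Sharp

variable {F V : Type} [Field F] [AddCommGroup V] [Module F V]

/-- `N` is a cubic form: `N(x + λ y) = N(x) + λ D(x, y) + λ² D(y, x) + λ³ N(y)` with `D`
quadratic in the first and linear in the second argument. -/
def IsCubicForm (N : V → F) : Prop :=
  ∃ D : V → V → F, (∀ y, ∃ Q : QuadraticMap F V F, ∀ x, D x y = Q x) ∧
    (∀ x, IsLinearMap F (D x)) ∧
    ∀ (x y : V) (l : F), N (x + l • y) = N x + l * D x y + l ^ 2 * D y x + l ^ 3 * N y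

/-- The complete linearization `N(v, u, w)`. -/
def N3 (N : V → F) (v u w : V) : F :=
  N (v + u + w) - N (v + u) - N (v + w) - N (u + w) + N u + N v + N w

/-- `T(r) = N(r, c, c) / 2`. -/
def Tr (N : V → F) (c r : V) : F := N3 N r c c / 2

/-- `(r, q) = T(r) T(q) - S(r, q) - Δ(r, q)`. -/
def Bil (N : V → F) (Δ : LinearMap.BilinForm F V) (c r q : V) : F :=
  Tr N c r * Tr N c q - N3 N r q c - Δ r q

/-- `(N, Δ, #, c)` is a generalized sharped cubic form; `r # q` is the polar map of `#`. -/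
def IsGenSharped (N : V → F) (Δ : LinearMap.BilinForm F V) (sh : QuadraticMap F V V) (c : V) :
    Prop :=
  IsCubicForm N ∧ N c = 1 ∧ (∀ r q, Δ r q = Δ q r) ∧ (∀ r, Δ r c = 0) ∧
    (∀ r q, Bil N Δ c (QuadraticMap.polar sh r q) r + Bil N Δ c (sh r) q = 3 * (N3 N r r q / 2)) ∧
    (∀ r, sh (sh r) = (N r + Δ (sh r) r) • r) ∧
    ∀ r, QuadraticMap.polar sh c r = Tr N c r • c - r

/-- The identity `(⋆)`. -/
def Star (N : V → F) (Δ : LinearMap.BilinForm F V) (sh : QuadraticMap F V V) (c : V) : Prop :=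
  ∀ r q s, Δ (QuadraticMap.polar sh r q) s - Δ r (QuadraticMap.polar sh q s) =
    1 / 3 * (Tr N c s * Δ r q - Tr N c r * Δ q s)

end Pool.Agent.H21.Sharp
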