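import Mathlib

set_option autoImplicit false
open Complex Metric

namespace Pool.Agent.H21.Valence

/-- Noshiro–Warschawski on a convex set -/
lemma nw {S : Set ℂ} (hS : Convex ℝ S) (F u : ℂ → ℂ) (c : ℂ) (hF : ∀ w ∈ S, HasDerivAt F (u w) w)
    (hu : ∀ w ∈ S, 0 < (c * u w).re) : Set.InjOn F S := by
  intro a ha b hb hab
  by_contra hne
  have hd : b - a ≠ 0 := sub_ne_zero.2 (Ne.symm hne)
  have hmem : ∀ t : ℝ, t ∈ Set.Icc (0 : ℝ) 1 → a + (t : ℂ) * (b - a) ∈ S := by
    intro t ht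
    have := hS.add_smul_sub_mem ha hb ht
    simpa using this
  have hder : ∀ t : ℝ, t ∈ Set.Icc (0 : ℝ) 1 →
      HasDerivAt (fun t : ℝ => (c * F (a + (t : ℂ) * (b - a)) / (b - a)).re)
        ((c * u (a + (t : ℂ) * (b - a))).re) t := by
    intro t ht
    have h1 : HasDerivAt (fun s : ℂ => c * F (a + s * (b - a)) / (b - a))
        (c * u (a + (t : ℂ) * (b - a))) (t : ℂ) := by
      have h2 : HasDerivAt (fun s : ℂ => a + s * (b - a)) (b - a) (t : ℂ) := by
        simpa using ((hasDerivAt_id (t : ℂ)).mul_const (b - a)).const_add a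
      have h3 := ((hF _ (hmem t ht)).comp (t : ℂ) h2).const_mul c |>.div_const (b - a)
      have e : c * (u (a + (t : ℂ) * (b - a)) * (b - a)) / (b - a) = c * u (a + (t : ℂ) * (b - a)) := by
        field_simp
      rw [e] at h3
      exact h3
    exact h1.real_of_complex
  obtain ⟨t, ht, h0⟩ := exists_hasDerivAt_eq_zero (f := fun t : ℝ =>
      (c * F (a + (t : ℂ) * (b - a)) / (b - a)).re)
    (f' := fun t : ℝ => (c * u (a + (t : ℂ) * (b - a))).re) (a := 0) (b := 1) one_pos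
    (fun t ht => (hder t ht).continuousAt.continuousWithinAt) (by simp [hab])
    (fun t ht => hder t (Set.Ioo_subset_Icc_self ht))
  exact (hu _ (hmem t (Set.Ioo_subset_Icc_self ht))).ne' h0

noncomputable def tau (z : ℂ) : ℂ := -Complex.log (1 - z)

lemma slit {z : ℂ} (hz : z ∈ ball (0 : ℂ) 1) : 1 - z ∈ slitPlane := by
  left
  have : ‖z‖ < 1 := by simpa using hz
  have := Complex.re_le_norm z
  simp; linarith

lemma tau_deriv {z : ℂ} (hz : z ∈ ball (0 : ℂ) 1) : HasDerivAt tau (1 / (1 - z)) z := by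
  have h := (((hasDerivAt_id z).const_sub 1).clog (slit hz)).neg
  have e : -(-1 / (1 - id z)) = 1 / (1 - z) := by simp [neg_div]
  rw [e] at h
  exact h

lemma tau_inj : Set.InjOn tau (ball (0 : ℂ) 1) := by
  intro a ha b hb h
  have h1 : Complex.log (1 - a) = Complex.log (1 - b) := neg_injective h
  have h2 := congrArg Complex.exp h1
  rw [Complex.exp_log (slitPlane_ne_zero (slit ha)), Complex.exp_log (slitPlane_ne_zero (slit hb))]
    at h2
  exact sub_right_injective h2

lemma tau_im (z : ℂ) : |(tau z).im| ≤ Real.pi := by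
  simp only [tau, neg_im, abs_neg, Complex.log_im]
  exact Complex.abs_arg_le_pi _

lemma tau_zero : tau 0 = 0 := by simp [tau]

lemma tau_pt (x : ℝ) : tau (1 - (Real.exp (-x) : ℝ)) = x := by
  simp only [tau, sub_sub_cancel]
  rw [← Complex.ofReal_log (Real.exp_pos _).le, Real.log_exp]
  simp

def strip : Set ℂ := {w | |w.im| ≤ Real.pi}

lemma strip_convex : Convex ℝ strip := by
  have : strip = {w : ℂ | w.im ≤ Real.pi} ∩ {w : ℂ | -Real.pi ≤ w.im} := by
    ext w; simp [strip, abs_le, and_comm]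
  rw [this]
  exact (convex_halfSpace_im_le _).inter (convex_halfSpace_im_ge _)

noncomputable def Phi (ε b : ℝ) (w : ℂ) : ℂ :=
  (1 - I * b) * (Complex.sin (ε * w) / ε) + I * b * w

lemma Phi_deriv (ε b : ℝ) (hε : ε ≠ 0) (w : ℂ) :
    HasDerivAt (Phi ε b) ((1 - I * b) * Complex.cos (ε * w) + I * b) w := by
  have h1 : HasDerivAt (fun w : ℂ => (ε : ℂ) * w) (ε : ℂ) w := by
    simpa using (hasDerivAt_id w).const_mul (ε : ℂ)
  have h2 := ((h1.csin.div_const (ε : ℂ)).const_mul (1 - I * b)).add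
    ((hasDerivAt_id w).const_mul (I * b))
  have hε' : (ε : ℂ) ≠ 0 := by exact_mod_cast hε
  have e : (1 - I * b) * (Complex.cos (ε * w) * ε / ε) + I * b * 1
      = (1 - I * b) * Complex.cos (ε * w) + I * b := by field_simp
  rw [e] at h2
  exact h2

lemma cos_im_le (ε : ℝ) (hε : 0 < ε) {w : ℂ} (hw : w ∈ strip) :
    |(Complex.cos (ε * w)).im| ≤ Real.sinh (ε * Real.pi) := by
  have e : (Complex.cos (ε * w)).im = -(Real.sin (ε * w.re) * Real.sinh (ε * w.im)) := by
    have : (ε : ℂ) * w = ((ε * w.re : ℝ) : ℂ) + ((ε * w.im : ℝ) : ℂ) * I := by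
      apply Complex.ext <;> simp
    rw [this, Complex.cos_add_mul_I, ← Complex.ofReal_cos, ← Complex.ofReal_cosh,
      ← Complex.ofReal_sin, ← Complex.ofReal_sinh]
    simp only [sub_im, mul_im, ofReal_re, ofReal_im, mul_re, I_re, I_im]
    ring
  rw [e, abs_neg, abs_mul, Real.abs_sinh]
  have h1 := Real.abs_sin_le_one (ε * w.re)
  have h2 : Real.sinh |ε * w.im| ≤ Real.sinh (ε * Real.pi) := by
    rw [Real.sinh_le_sinh, abs_mul, abs_of_pos hε]
    exact mul_le_mul_of_nonneg_left hw hε.le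
  have h3 : 0 ≤ Real.sinh |ε * w.im| := Real.sinh_nonneg_iff.2 (abs_nonneg _)
  nlinarith [abs_nonneg (Real.sin (ε * w.re))]

lemma Phi_inj (ε b : ℝ) (hε : 0 < ε) (hb : (1 + b ^ 2) * Real.sinh (ε * Real.pi) < |b|) :
    Set.InjOn (Phi ε b) strip := by
  refine nw strip_convex _ _ ((b : ℂ) * (b - I)) (fun w _ => Phi_deriv ε b hε.ne' w) ?_
  intro w hw
  have h := cos_im_le ε hε hw
  set c := Complex.cos (ε * w)
  have e : ((b : ℂ) * (b - I) * ((1 - I * b) * c + I * b)).re = b * ((1 + b ^ 2) * c.im) + b ^ 2 := by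
    simp only [mul_re, sub_re, add_re, mul_im, sub_im, add_im, ofReal_re, ofReal_im, I_re, I_im,
      one_re, one_im]
    ring
  rw [e]
  have h1 : |(1 + b ^ 2) * c.im| < |b| := by
    rw [abs_mul, abs_of_pos (by positivity : 0 < 1 + b ^ 2)]
    exact lt_of_le_of_lt (mul_le_mul_of_nonneg_left h (by positivity)) hb
  have hb0 : 0 < |b| := lt_of_le_of_lt (abs_nonneg _) h1
  have h2 : |b * ((1 + b ^ 2) * c.im)| < b ^ 2 := by
    have h3 := mul_lt_mul_of_pos_left h1 hb0
    rw [abs_mul_abs_self b, ← abs_mul] at h3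
    linarith [sq b]
  linarith [neg_abs_le (b * ((1 + b ^ 2) * c.im))]

lemma inS (ε b : ℝ) (hε : 0 < ε) (hb : (1 + b ^ 2) * Real.sinh (ε * Real.pi) < |b|) :
    DifferentiableOn ℂ (fun z => Phi ε b (tau z)) (ball (0 : ℂ) 1) ∧
      Set.InjOn (fun z => Phi ε b (tau z)) (ball (0 : ℂ) 1) ∧
      (fun z => Phi ε b (tau z)) 0 = 0 ∧ deriv (fun z => Phi ε b (tau z)) 0 = 1 := by
  refine ⟨fun z hz => ((Phi_deriv ε b hε.ne' _).comp z
    (tau_deriv hz)).differentiableAt.differentiableWithinAt, ?_, by simp [Phi, tau_zero], ?_⟩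
  · intro a ha c hc h
    exact tau_inj ha hc (Phi_inj ε b hε hb (tau_im a) (tau_im c) h)
  · have := ((Phi_deriv ε b hε.ne' _).comp 0 (tau_deriv (mem_ball_self one_pos))).deriv
    rw [tau_zero] at this
    simpa [Function.comp_def] using this

theorem arith (α : ℝ) (h0 : 0 < α) (h1 : α < 1) : ∃ f g : ℂ → ℂ,
    (DifferentiableOn ℂ f (ball (0 : ℂ) 1) ∧ Set.InjOn f (ball (0 : ℂ) 1) ∧
      f 0 = 0 ∧ deriv f 0 = 1) ∧
    (DifferentiableOn ℂ g (ball (0 : ℂ) 1) ∧ Set.InjOn g (ball (0 : ℂ) 1) ∧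
      g 0 = 0 ∧ deriv g 0 = 1) ∧
    {z : ℂ | z ∈ ball (0 : ℂ) 1 ∧ (α : ℂ) * f z + (1 - (α : ℂ)) * g z = 0}.Infinite := by
  have hβ : 0 < 1 - α := by linarith
  set m := α * (1 - α) / 4 with hm
  have hm0 : 0 < m := by positivity
  set ε := Real.arsinh m / Real.pi with hε
  have hε0 : 0 < ε := div_pos (Real.arsinh_pos_iff.2 hm0) Real.pi_pos
  have hs : Real.sinh (ε * Real.pi) = m := by
    rw [hε, div_mul_cancel₀ _ Real.pi_pos.ne', Real.sinh_arsinh]
  refine ⟨fun z => Phi ε (1 - α) (tau z), fun z => Phi ε (-α) (tau z), inS _ _ hε0 ?_,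
    inS _ _ hε0 ?_, ?_⟩
  · rw [hs, abs_of_pos hβ, hm]
    have : (1 - α) ^ 2 < 1 := by nlinarith
    nlinarith [mul_pos h0 hβ]
  · rw [hs, abs_neg, abs_of_pos h0, hm]
    have : α ^ 2 < 1 := by nlinarith
    nlinarith [mul_pos h0 hβ]
  · refine Set.infinite_of_injective_forall_mem
      (f := fun n : ℕ => (1 : ℂ) - (Real.exp (-(n * Real.pi / ε)) : ℝ)) ?_ ?_
    · intro a b h
      have h2 := congrArg tau h
      simp only [tau_pt] at h2
      have h3 : (a : ℝ) * Real.pi / ε = b * Real.pi / ε := by exact_mod_cast h2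
      field_simp at h3
      exact_mod_cast h3
    · intro n
      refine ⟨?_, ?_⟩
      · rw [mem_ball_zero_iff, ← Complex.ofReal_one, ← Complex.ofReal_sub, Complex.norm_real,
          Real.norm_eq_abs, abs_lt]
        have h2 := Real.exp_pos (-(n * Real.pi / ε))
        have h3 : Real.exp (-(n * Real.pi / ε)) ≤ 1 := by
          rw [Real.exp_le_one_iff]
          have : 0 ≤ (n : ℝ) * Real.pi / ε := by positivity
          linarith
        constructor <;> linarith
      · simp only [tau_pt, Phi]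
        have hε' : (ε : ℂ) ≠ 0 := by exact_mod_cast hε0.ne'
        have : (ε : ℂ) * ((n * Real.pi / ε : ℝ) : ℂ) = n * Real.pi := by
          push_cast; field_simp
        rw [this, Complex.sin_nat_mul_pi]
        push_cast
        ring

end Pool.Agent.H21.Valence
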