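import Mathlib
import Pool.Agent.H21.Valence

set_option autoImplicit false
open Complex Metric

namespace Pool.Agent.H21.Spiral

open Pool.Agent.H21.Valence

noncomputable def W (c : ℂ) (n : ℕ) (z : ℂ) : ℂ := Complex.exp ((c + n) * tau z)

lemma exp_tau {z : ℂ} (hz : z ∈ ball (0 : ℂ) 1) : Complex.exp (tau z) = 1 / (1 - z) := by
  rw [tau, Complex.exp_neg, Complex.exp_log (slitPlane_ne_zero (slit hz)), one_div]

lemma W_deriv (c : ℂ) (n : ℕ) {z : ℂ} (hz : z ∈ ball (0 : ℂ) 1) :
    HasDerivAt (W c n) ((c + n) * W c (n + 1) z) z := by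
  have h := ((tau_deriv hz).const_mul (c + n)).cexp
  have e : Complex.exp ((c + n) * tau z) * ((c + n) * (1 / (1 - z))) = (c + n) * W c (n + 1) z := by
    have : W c (n + 1) z = Complex.exp ((c + n) * tau z) * (1 / (1 - z)) := by
      rw [W, ← exp_tau hz, ← Complex.exp_add]; push_cast; ring_nf
    rw [this]; ring
  rw [e] at h
  exact h

lemma W_zero (c : ℂ) (n : ℕ) : W c n 0 = 1 := by simp [W, tau_zero]

noncomputable def h (c : ℂ) (z : ℂ) : ℂ := z * W c 0 z

noncomputable def P (c : ℂ) : ℕ → ℂ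
  | 0 => 1
  | n + 1 => P c n * (c + n)

lemma h_deriv (c : ℂ) {z : ℂ} (hz : z ∈ ball (0 : ℂ) 1) :
    HasDerivAt (h c) (z * P c 1 * W c 1 z + W c 0 z) z := by
  have h1 := (hasDerivAt_id z).mul (W_deriv c 0 hz)
  have e : 1 * W c 0 z + id z * ((c + ((0 : ℕ) : ℂ)) * W c (0 + 1) z)
      = z * P c 1 * W c 1 z + W c 0 z := by
    simp [P]; ring
  rw [e] at h1
  exact h1

lemma h_iter (c : ℂ) (n : ℕ) : ∀ z ∈ ball (0 : ℂ) 1, iteratedDeriv (n + 1) (h c) z
    = z * P c (n + 1) * W c (n + 1) z + (n + 1) * P c n * W c n z := by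
  induction n with
  | zero =>
    intro z hz
    rw [iteratedDeriv_one, (h_deriv c hz).deriv]
    simp [P]
  | succ n ih =>
    intro z hz
    rw [iteratedDeriv_succ]
    have e : iteratedDeriv (n + 1) (h c) =ᶠ[nhds z] fun z =>
        z * P c (n + 1) * W c (n + 1) z + (n + 1) * P c n * W c n z := by
      filter_upwards [isOpen_ball.mem_nhds hz] with w hw using ih w hw
    rw [e.deriv_eq]
    have h1 := (((hasDerivAt_id z).mul_const (P c (n + 1))).mul (W_deriv c (n + 1) hz)).add
      ((W_deriv c n hz).const_mul ((n + 1) * P c n))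
    have h2 := h1.deriv
    have e2 : (fun z => z * P c (n + 1) * W c (n + 1) z + (n + 1) * P c n * W c n z)
        = ((fun y => id y * P c (n + 1)) * W c (n + 1) + fun y => (n + 1) * P c n * W c n y) := by
      ext y; simp
    rw [e2, h2]
    simp only [P, id]
    push_cast
    ring

lemma h_coeff (c : ℂ) (n : ℕ) :
    iteratedDeriv (n + 1) (h c) 0 / ((n + 1).factorial : ℂ) = P c n / (n.factorial : ℂ) := by
  rw [h_iter c n 0 (mem_ball_self one_pos), W_zero, W_zero, Nat.factorial_succ]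
  have h1 : ((n : ℂ) + 1) ≠ 0 := by exact_mod_cast Nat.succ_ne_zero n
  have h2 : (n.factorial : ℂ) ≠ 0 := by exact_mod_cast n.factorial_ne_zero
  push_cast
  field_simp
  ring

lemma re_frac {z : ℂ} (hz : z ∈ ball (0 : ℂ) 1) : -1 / 2 < (1 / (1 - z) * z).re := by
  have h0 : 1 - z ≠ 0 := slitPlane_ne_zero (slit hz)
  have h1 : ‖z‖ < 1 := by simpa using hz
  have h2 : Complex.normSq z < 1 := by
    rw [Complex.normSq_eq_norm_sq]; nlinarith [norm_nonneg z]
  have h3 : 0 < Complex.normSq (1 - z) := Complex.normSq_pos.2 h0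
  rw [one_div, mul_comm, ← div_eq_mul_inv, Complex.div_re, ← add_div, lt_div_iff₀ h3]
  simp only [Complex.normSq_apply, sub_re, one_re, sub_im, one_im] at *
  nlinarith

lemma h_inj (c : ℂ) (hc0 : c ≠ 0) (hc : Complex.normSq c ≤ 2 * c.re) :
    Set.InjOn (h c) (ball (0 : ℂ) 1) := by
  have hW : ∀ z, W c 0 z ≠ 0 := fun z => Complex.exp_ne_zero _
  have hmem : ∀ s : ℂ, s.re < 0 → Complex.exp s ∈ ball (0 : ℂ) 1 := by
    intro s hs
    rw [mem_ball_zero_iff, Complex.norm_exp]
    exact Real.exp_lt_one_iff.2 hs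
  have hinj : Set.InjOn (fun s => s + c * tau (Complex.exp s)) {s : ℂ | s.re < 0} := by
    refine nw (convex_halfSpace_re_lt 0) _
      (fun s => 1 + c * (1 / (1 - Complex.exp s) * Complex.exp s)) ((starRingEnd ℂ) c) ?_ ?_
    · intro s hs
      exact (hasDerivAt_id s).add
        (((tau_deriv (hmem s hs)).comp s (Complex.hasDerivAt_exp s)).const_mul c)
    · intro s hs
      have h1 := re_frac (hmem s hs)
      set t := 1 / (1 - Complex.exp s) * Complex.exp s
      have e : ((starRingEnd ℂ) c * (1 + c * t)).re = c.re + Complex.normSq c * t.re := by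
        simp [Complex.normSq_apply]; ring
      rw [e]
      have := Complex.normSq_pos.2 hc0
      nlinarith
  intro a ha b hb hab
  by_cases ha0 : a = 0
  · have : b * W c 0 b = 0 := by rw [← h, ← hab, ha0]; simp [h]
    rw [ha0, (mul_eq_zero.1 this).resolve_right (hW b)]
  by_cases hb0 : b = 0
  · have : a * W c 0 a = 0 := by rw [← h, hab, hb0]; simp [h]
    exact absurd ((mul_eq_zero.1 this).resolve_right (hW a)) ha0
  have hre : ∀ z ∈ ball (0 : ℂ) 1, z ≠ 0 → (Complex.log z).re < 0 := by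
    intro z hz hz0
    rw [Complex.log_re]
    exact Real.log_neg (norm_pos_iff.2 hz0) (by simpa using hz)
  have hexp : ∀ z, z ≠ 0 → Complex.exp (Complex.log z + c * tau (Complex.exp (Complex.log z)))
      = h c z := by
    intro z hz0
    rw [Complex.exp_add, Complex.exp_log hz0]
    simp [h, W]
  have e1 := (hexp a ha0).trans (hab.trans (hexp b hb0).symm)
  obtain ⟨n, hn⟩ := Complex.exp_eq_exp_iff_exists_int.1 e1
  have e2 : Complex.exp (Complex.log b + n * (2 * Real.pi * I)) = Complex.exp (Complex.log b) := by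
    rw [Complex.exp_add, Complex.exp_int_mul_two_pi_mul_I, mul_one]
  have e3 : Complex.log a = Complex.log b + n * (2 * Real.pi * I) := by
    apply hinj (hre a ha ha0)
    · show (Complex.log b + n * (2 * Real.pi * I)).re < 0
      simpa using hre b hb hb0
    · simp only [e2]
      rw [hn]; ring
  rw [← Complex.exp_log ha0, e3, e2, Complex.exp_log hb0]

lemma poly_iter (p : Polynomial ℂ) (n : ℕ) :
    iteratedDeriv n (fun z => p.eval z) = fun z => (Polynomial.derivative^[n] p).eval z := by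
  induction n with
  | zero => simp
  | succ n ih =>
    rw [iteratedDeriv_succ, ih, Function.iterate_succ_apply']
    ext z
    exact Polynomial.deriv _

lemma poly_coeff (p : Polynomial ℂ) (n : ℕ) :
    iteratedDeriv n (fun z => p.eval z) 0 / (n.factorial : ℂ) = p.coeff n := by
  have h2 : (n.factorial : ℂ) ≠ 0 := by exact_mod_cast n.factorial_ne_zero
  rw [poly_iter]
  simp only
  rw [← Polynomial.coeff_zero_eq_eval_zero, Polynomial.coeff_iterate_derivative]
  simp only [zero_add, Nat.descFactorial_self, nsmul_eq_mul]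
  field_simp

noncomputable def evL : List ℝ → ℂ → ℂ
  | [], _ => 0
  | a :: l, z => (a : ℂ) + z * evL l z

lemma evL_norm (l : List ℝ) (z : ℂ) (hz : ‖z‖ = 1) : ‖evL l z‖ ≤ (l.map abs).sum := by
  induction l with
  | nil => simp [evL]
  | cons a l ih =>
    simp only [evL, List.map_cons, List.sum_cons]
    refine (norm_add_le _ _).trans ?_
    rw [norm_mul, hz, one_mul, Complex.norm_real, Real.norm_eq_abs]
    linarith

lemma evL_conj (a0 a1 a2 a3 a4 a5 a6 : ℝ) (z : ℂ) (hz : ‖z‖ = 1) :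
    z ^ 6 * (starRingEnd ℂ) (evL [a0, a1, a2, a3, a4, a5, a6] z)
      = evL [a6, a5, a4, a3, a2, a1, a0] z := by
  have hw : z * (starRingEnd ℂ) z = 1 := by
    rw [Complex.mul_conj, Complex.normSq_eq_norm_sq, hz]; simp
  simp only [evL, map_add, map_mul, Complex.conj_ofReal, map_zero]
  set w := (starRingEnd ℂ) z
  linear_combination (a1 * z ^ 5 + a2 * z ^ 4 * (1 + z * w) + a3 * z ^ 3 * (1 + z * w + (z * w) ^ 2)
    + a4 * z ^ 2 * (1 + z * w + (z * w) ^ 2 + (z * w) ^ 3)
    + a5 * z * (1 + z * w + (z * w) ^ 2 + (z * w) ^ 3 + (z * w) ^ 4)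
    + a6 * (1 + z * w + (z * w) ^ 2 + (z * w) ^ 3 + (z * w) ^ 4 + (z * w) ^ 5)) * hw

lemma sq_eq (x y x' y' z : ℂ) (hx : z * (starRingEnd ℂ) x = x') (hy : z * (starRingEnd ℂ) y = y') :
    z * ((‖x + I * y‖ ^ 2 : ℝ) : ℂ) = x * x' + y * y' + I * (y * x' - x * y') := by
  rw [← Complex.normSq_eq_norm_sq, ← Complex.mul_conj, ← hx, ← hy]
  simp only [map_add, map_mul, Complex.conj_I]
  linear_combination (-(y * z * (starRingEnd ℂ) y)) * Complex.I_mul_I

/-- maximum principle for a sum of two moduli -/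
lemma max_two (U V : ℂ → ℂ) (hU : Differentiable ℂ U) (hV : Differentiable ℂ V) (M : ℝ)
    (hM : ∀ z, ‖z‖ = 1 → ‖U z‖ + ‖V z‖ ≤ M) (z : ℂ) (hz : z ∈ ball (0 : ℂ) 1) :
    ‖U z‖ + ‖V z‖ ≤ M := by
  have key : ∀ u : ℂ, ∃ α : ℂ, ‖α‖ = 1 ∧ α * u = ‖u‖ := fun u => by
    by_cases hu : u = 0
    · exact ⟨1, by simp, by simp [hu]⟩
    refine ⟨(starRingEnd ℂ) u / ‖u‖, ?_, ?_⟩
    · simp [hu]
    · have : (‖u‖ : ℂ) ≠ 0 := by exact_mod_cast norm_ne_zero_iff.2 hu
      rw [div_mul_eq_mul_div, mul_comm, Complex.mul_conj, Complex.normSq_eq_norm_sq]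
      push_cast
      field_simp
  obtain ⟨α, hα, hα'⟩ := key (U z)
  obtain ⟨β, hβ, hβ'⟩ := key (V z)
  have h1 : ‖α * U z + β * V z‖ ≤ M := by
    refine Complex.norm_le_of_forall_mem_frontier_norm_le (f := fun w => α * U w + β * V w)
      (U := ball (0 : ℂ) 1) isBounded_ball
      (((hU.const_mul α).add (hV.const_mul β)).diffContOnCl) ?_ (subset_closure hz)
    intro w hw
    rw [frontier_ball _ one_ne_zero] at hw
    refine (norm_add_le _ _).trans ?_
    rw [norm_mul, norm_mul, hα, hβ, one_mul, one_mul]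
    exact hM w (by simpa using hw)
  rw [hα', hβ', ← Complex.ofReal_add, Complex.norm_real, Real.norm_eq_abs] at h1
  exact (le_abs_self _).trans h1

end Pool.Agent.H21.Spiral
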