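import Mathlib
import Pool.Agent.H21.Spiral

set_option autoImplicit false
open Complex Metric

namespace Pool.Agent.H21.SigmaNb

open Pool.Agent.H21.Valence Pool.Agent.H21.Spiral

noncomputable def U (z : ℂ) : ℂ :=
  evL [23887 / 100000, 7 / 50000, 1269 / 25000, 443 / 5000, 2339 / 20000, 7041 / 50000, 7 / 500] z + I * evL [2159 / 10000, -5267 / 25000, -537 / 3125, -77 / 625, -289 / 4000, -51 / 3125, 17493 / 100000] z

lemma U_diff : Differentiable ℂ U := by
  unfold U
  simp only [evL]
  fun_prop

noncomputable def V (z : ℂ) : ℂ :=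
  evL [71661 / 100000, 7 / 25000, 423 / 5000, 1329 / 10000, 16373 / 100000, 2347 / 12500, 9 / 500] z + I * evL [6477 / 10000, -5267 / 12500, -179 / 625, -231 / 1250, -2023 / 20000, -68 / 3125, 22491 / 100000] z

lemma V_diff : Differentiable ℂ V := by
  unfold V
  simp only [evL]
  fun_prop

noncomputable def Q (z : ℂ) : ℂ :=
  evL [315477 / 500000, -21297 / 200000, -60093 / 1000000, -3489 / 200000, 183 / 31250, -10893 / 1000000, -381639 / 1000000] z + I * evL [0, 12779 / 100000, 27953 / 500000, 10783 / 250000, 82013 / 1000000, 33323 / 200000, -89959 / 250000] z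

lemma Q_diff : Differentiable ℂ Q := by
  unfold Q
  simp only [evL]
  fun_prop

lemma bound (z : ℂ) (hz : ‖z‖ = 1) : ‖U z‖ + ‖V z‖ ≤ 2 := by
  have hU := sq_eq _ _ _ _ _ (evL_conj (23887 / 100000) (7 / 50000) (1269 / 25000) (443 / 5000) (2339 / 20000) (7041 / 50000) (7 / 500) z hz)
    (evL_conj (2159 / 10000) (-5267 / 25000) (-537 / 3125) (-77 / 625) (-289 / 4000) (-51 / 3125) (17493 / 100000) z hz)
  have hV := sq_eq _ _ _ _ _ (evL_conj (71661 / 100000) (7 / 25000) (423 / 5000) (1329 / 10000) (16373 / 100000) (2347 / 12500) (9 / 500) z hz)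
    (evL_conj (6477 / 10000) (-5267 / 12500) (-179 / 625) (-231 / 1250) (-2023 / 20000) (-68 / 3125) (22491 / 100000) z hz)
  have hQ := sq_eq _ _ _ _ _ (evL_conj (315477 / 500000) (-21297 / 200000) (-60093 / 1000000) (-3489 / 200000) (183 / 31250) (-10893 / 1000000) (-381639 / 1000000) z hz)
    (evL_conj (0) (12779 / 100000) (27953 / 500000) (10783 / 250000) (82013 / 1000000) (33323 / 200000) (-89959 / 250000) z hz)
  rw [← U] at hU
  rw [← V] at hV
  rw [← Q] at hQ
  have key : z ^ 6 * ((2 * ‖U z‖ ^ 2 + ‖V z‖ ^ 2 + ‖Q z‖ ^ 2 - 7997 / 3000 : ℝ) : ℂ)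
      = evL [-166303 / 500000000000, -105447 / 1000000000000, 52769 / 100000000000, -119389 / 500000000000, -102917 / 500000000000, 13301 / 500000000000, 1967713 / 3000000000000, 13301 / 500000000000, -102917 / 500000000000, -119389 / 500000000000, 52769 / 100000000000, -105447 / 1000000000000, -166303 / 500000000000] z + I * evL [-12439 / 250000000000, -14089 / 50000000000, -41779 / 1000000000000, -188807 / 500000000000, 261299 / 1000000000000, -400019 / 1000000000000, 0, 400019 / 1000000000000, -261299 / 1000000000000, 188807 / 500000000000, 41779 / 1000000000000, 14089 / 50000000000, 12439 / 250000000000] z := by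
    rw [Complex.ofReal_sub, Complex.ofReal_add, Complex.ofReal_add, Complex.ofReal_mul, mul_sub,
      mul_add, mul_add, mul_left_comm, hU, hV, hQ]
    simp only [evL]
    push_cast
    ring
  have h1 := congrArg norm key
  rw [norm_mul, norm_pow, hz, one_pow, one_mul, Complex.norm_real, Real.norm_eq_abs] at h1
  have h2 := evL_norm [-166303 / 500000000000, -105447 / 1000000000000, 52769 / 100000000000, -119389 / 500000000000, -102917 / 500000000000, 13301 / 500000000000, 1967713 / 3000000000000, 13301 / 500000000000, -102917 / 500000000000, -119389 / 500000000000, 52769 / 100000000000, -105447 / 1000000000000, -166303 / 500000000000] z hz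
  have h3 := evL_norm [-12439 / 250000000000, -14089 / 50000000000, -41779 / 1000000000000, -188807 / 500000000000, 261299 / 1000000000000, -400019 / 1000000000000, 0, 400019 / 1000000000000, -261299 / 1000000000000, 188807 / 500000000000, 41779 / 1000000000000, 14089 / 50000000000, 12439 / 250000000000] z hz
  have h4 := norm_add_le (evL [-166303 / 500000000000, -105447 / 1000000000000, 52769 / 100000000000, -119389 / 500000000000, -102917 / 500000000000, 13301 / 500000000000, 1967713 / 3000000000000, 13301 / 500000000000, -102917 / 500000000000, -119389 / 500000000000, 52769 / 100000000000, -105447 / 1000000000000, -166303 / 500000000000] z) (I * evL [-12439 / 250000000000, -14089 / 50000000000, -41779 / 1000000000000, -188807 / 500000000000, 261299 / 1000000000000, -400019 / 1000000000000, 0, 400019 / 1000000000000, -261299 / 1000000000000, 188807 / 500000000000, 41779 / 1000000000000, 14089 / 50000000000, 12439 / 250000000000] z)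
  rw [norm_mul, Complex.norm_I, one_mul, ← h1] at h4
  norm_num [abs_of_pos, abs_of_neg] at h2 h3
  have h5 := le_abs_self (2 * ‖U z‖ ^ 2 + ‖V z‖ ^ 2 + ‖Q z‖ ^ 2 - 7997 / 3000)
  have h6 : 2 * ‖U z‖ ^ 2 + ‖V z‖ ^ 2 ≤ 8 / 3 := by
    norm_num at h4 h5
    nlinarith [sq_nonneg ‖Q z‖]
  nlinarith [sq_nonneg (2 * ‖U z‖ - ‖V z‖), norm_nonneg (U z), norm_nonneg (V z)]

noncomputable def c : ℂ := 248 / 125 + 89 / 500 * I

noncomputable def b : ℕ → ℂ
  | 2 => (23887 / 100000 + (2159 / 10000) * I : ℂ)
  | 3 => (7 / 100000 + (-5267 / 50000) * I : ℂ)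
  | 4 => (423 / 25000 + (-179 / 3125) * I : ℂ)
  | 5 => (443 / 20000 + (-77 / 2500) * I : ℂ)
  | 6 => (2339 / 100000 + (-289 / 20000) * I : ℂ)
  | 7 => (2347 / 100000 + (-17 / 6250) * I : ℂ)
  | 8 => (1 / 500 + (2499 / 100000) * I : ℂ)
  | _ => 0

lemma P1 : P c 1 = (248 / 125 + (89 / 500) * I : ℂ) := by
  simp [P, c]

lemma P2 : P c 2 = (1472143 / 250000 + (55269 / 62500) * I : ℂ) := by
  rw [P, P1, c]
  apply Complex.ext <;> simp <;> norm_num

lemma P3 : P c 3 = (728208273 / 31250000 + (571404119 / 125000000) * I : ℂ) := by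
  rw [P, P2, c]
  apply Complex.ext <;> simp <;> norm_num

lemma P4 : P c 4 = (7207925098673 / 62500000000 + (210397651217 / 7812500000) * I : ℂ) := by
  rw [P, P3, c]
  apply Complex.ext <;> simp <;> norm_num

lemma P5 : P c 5 = (2677038595945389 / 3906250000000 + (5677583513312009 / 31250000000000) * I : ℂ) := by
  rw [P, P4, c]
  apply Complex.ext <;> simp <;> norm_num

lemma P6 : P c 6 = (74280445283645618303 / 15625000000000000 + (5433043277199663099 / 3906250000000000) * I : ℂ) := by
  rw [P, P5, c]
  apply Complex.ext <;> simp <;> norm_num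

lemma P7 : P c 7 = (73648343541407557050583 / 1953125000000000000 + (93365794680568680393799 / 7812500000000000000) * I : ℂ) := by
  rw [P, P6, c]
  apply Complex.ext <;> simp <;> norm_num

noncomputable def r : ℂ := 9999 / 10000

noncomputable def L : ℂ := ∑ k ∈ Finset.range 7, b (k + 2) * (P c (k + 1) / ((k + 1).factorial : ℂ)) * r ^ (k + 1)

lemma L_eq : L = (627326695656244185703225097419081396847942809111231227 / 625000000000000000000000000000000000000000000000000000 + (3573157245671795225966928035062753673911467399237 / 1093750000000000000000000000000000000000000000000000000) * I : ℂ) := by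
  simp only [L, Finset.sum_range_succ, Finset.sum_range_zero, b, r, zero_add, Nat.reduceAdd,
    P1, P2, P3, P4, P5, P6, P7, Nat.factorial]
  apply Complex.ext <;> simp [pow_succ] <;> norm_num

lemma L_norm : 1 ≤ ‖L‖ := by
  refine le_trans ?_ (Complex.re_le_norm L)
  rw [L_eq]
  simp
  norm_num

noncomputable def be (k : ℕ) : ℂ := if k = 1 then 1 else -1 / L * b k

noncomputable def gp : Polynomial ℂ := ∑ k ∈ Finset.range 9, Polynomial.monomial k (be k)

lemma gp_coeff (n : ℕ) : gp.coeff n = if n < 9 then be n else 0 := by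
  simp [gp, Polynomial.finset_sum_coeff, Polynomial.coeff_monomial]

noncomputable def g (z : ℂ) : ℂ := gp.eval z

lemma g_deriv (z : ℂ) : deriv g z = gp.derivative.eval z := Polynomial.deriv _

lemma gU (z : ℂ) (hz : z ≠ 0) : (deriv g z - 1) - (g z - z) / z = -1 / L * z * U z := by
  rw [g_deriv]
  simp only [g, gp, Finset.sum_range_succ, Finset.sum_range_zero, be, b, U, evL,
    Polynomial.derivative_add, Polynomial.derivative_monomial, Polynomial.eval_add,
    Polynomial.eval_monomial, zero_add]
  generalize -1 / L = m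
  norm_num
  field_simp
  ring

lemma gV (z : ℂ) (hz : z ≠ 0) : (deriv g z - 1) + (g z - z) / z = -1 / L * z * V z := by
  rw [g_deriv]
  simp only [g, gp, Finset.sum_range_succ, Finset.sum_range_zero, be, b, V, evL,
    Polynomial.derivative_add, Polynomial.derivative_monomial, Polynomial.eval_add,
    Polynomial.eval_monomial, zero_add]
  generalize -1 / L = m
  norm_num
  field_simp
  ring

lemma g_zero : g 0 = 0 := by
  rw [g, ← Polynomial.coeff_zero_eq_eval_zero, gp_coeff]; simp [be, b]

lemma g_one : deriv g 0 = 1 := by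
  rw [g_deriv, ← Polynomial.coeff_zero_eq_eval_zero, Polynomial.coeff_derivative, gp_coeff]
  simp [be]

lemma g_diff : Differentiable ℂ g := Polynomial.differentiable _

lemma g_nb (z : ℂ) (hz : z ∈ ball (0 : ℂ) 1) (hz0 : z ≠ 0) :
    ‖(deriv g z - 1) - (g z - z) / z‖ + ‖(deriv g z - 1) + (g z - z) / z‖ < 2 := by
  rw [gU z hz0, gV z hz0]
  have h1 := max_two U V U_diff V_diff 2 bound z hz
  have h2 : ‖z‖ < 1 := by simpa using hz
  have h3 : ‖-1 / L‖ ≤ 1 := by
    rw [norm_div, norm_neg, norm_one]
    exact div_le_one_of_le₀ L_norm (norm_nonneg _)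
  simp only [norm_mul]
  have h4 : ‖-1 / L‖ * ‖z‖ < 1 := lt_of_le_of_lt (mul_le_of_le_one_left (norm_nonneg _) h3) h2
  have h5 : 0 ≤ ‖-1 / L‖ * ‖z‖ := by positivity
  nlinarith

lemma hc_inj : Set.InjOn (h c) (ball (0 : ℂ) 1) := by
  refine h_inj c ?_ ?_
  · intro e
    have := congrArg Complex.re e
    simp [c] at this
  · simp [c, Complex.normSq_apply]
    norm_num

lemma r_norm : ‖r‖ = 9999 / 10000 := by
  simp [r]

lemma had_zero : (∑' n : ℕ, (iteratedDeriv n g 0 / (n.factorial : ℂ)) *
    (iteratedDeriv n (h c) 0 / (n.factorial : ℂ)) * r ^ n) = 0 := by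
  have e : ∀ n, iteratedDeriv n g 0 / (n.factorial : ℂ) = if n < 9 then be n else 0 := fun n => by
    rw [← gp_coeff]; exact poly_coeff gp n
  simp only [e]
  rw [tsum_eq_sum (s := Finset.range 9) (fun n hn => by
    rw [if_neg (by simpa using hn)]; simp)]
  have hL : L ≠ 0 := by
    intro e0
    have := L_norm
    rw [e0, norm_zero] at this
    linarith
  rw [Finset.sum_range_succ', Finset.sum_range_succ']
  simp only [h_coeff]
  have e2 : ∑ k ∈ Finset.range 7, (if k + 1 + 1 < 9 then be (k + 1 + 1) else 0) *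
      (P c (k + 1) / ((k + 1).factorial : ℂ)) * r ^ (k + 1 + 1) = -1 / L * r * L := by
    rw [L, Finset.mul_sum]
    refine Finset.sum_congr rfl fun k hk => ?_
    rw [if_pos (by simp at hk; omega), be, if_neg (by omega), ← L]
    ring
  rw [e2]
  simp [be, b, P]
  field_simp
  ring

end Pool.Agent.H21.SigmaNb
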