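import Mathlib

namespace Pool.Agent.H21.SmoothRep

/-- `A_{p,q} = {p^α q^β}`. -/
def A (p q : ℕ) : Set ℕ := {a | ∃ α β : ℕ, a = p ^ α * q ^ β}

/-- The number of finite subsets of `A_{p,q}` with sum `n`. -/
noncomputable def f (p q n : ℕ) : ℕ := {S : Finset ℕ | (S : Set ℕ) ⊆ A p q ∧ ∑ s ∈ S, s = n}.ncard

/-- `d(n) = f(n+1) - f(n)`. -/
noncomputable def d (p q n : ℕ) : ℤ := (f p q (n + 1) : ℤ) - f p q n

end Pool.Agent.H21.SmoothRep
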