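import Mathlib

namespace Pool.Agent.H21.Sofic

open Filter Topology Classical

/-- Every finite open cover has a finite open refinement of order at most `n + 1`. -/
def DimLE (P : Type) [TopologicalSpace P] (n : ℕ) : Prop :=
  ∀ (ι : Type) [Finite ι] (U : ι → Set P), (∀ i, IsOpen (U i)) → ⋃ i, U i = Set.univ →
    ∃ (κ : Type) (_ : Finite κ) (V : κ → Set P), (∀ j, IsOpen (V j)) ∧ ⋃ j, V j = Set.univ ∧
      (∀ j, ∃ i, V j ⊆ U i) ∧ ∀ x, {j | x ∈ V j}.ncard ≤ n + 1

/-- Lebesgue covering dimension, with `dim ∅ = -∞`. -/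
noncomputable def covDim (P : Type) [TopologicalSpace P] : EReal :=
  if IsEmpty P then ⊥ else ⨅ (n : ℕ) (_ : DimLE P n), (n : EReal)

/-- `Widim_ε`: the least dimension of a compact metrizable target of an `ε`-embedding. -/
noncomputable def Widim (Y : Type) [MetricSpace Y] (ε : ℝ) : EReal :=
  ⨅ (P : Type) (_ : TopologicalSpace P) (_ : CompactSpace P)
    (_ : TopologicalSpace.MetrizableSpace P) (f : C(Y, P))
    (_ : ∀ x x', f x = f x' → dist x x' < ε), covDim P

/-- Sofic approximation sequences. -/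
def IsSoficApprox {G : Type} [Group G] (d : ℕ → ℕ) (σ : ∀ i, G → Equiv.Perm (Fin (d i))) : Prop :=
  (∀ s t : G, Tendsto (fun i => ((Finset.univ.filter fun k =>
    σ i (s * t) k = σ i s (σ i t k)).card : ℝ) / d i) atTop (𝓝 1)) ∧
  (∀ s t : G, s ≠ t → Tendsto (fun i => ((Finset.univ.filter fun k =>
    σ i s k ≠ σ i t k).card : ℝ) / d i) atTop (𝓝 1)) ∧
  Tendsto d atTop atTop

/-- `Map(ρ, F, δ, σ)`, a subset of `X ^ d` (which carries the sup metric `ρ_∞`). -/
def MapSet {G : Type} [Group G] (X : Type) [MetricSpace X] [MulAction G X] {d : ℕ}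
    (F : Finset G) (δ : ℝ) (σ : G → Equiv.Perm (Fin d)) : Set (Fin d → X) :=
  {φ | ∀ s ∈ F, √((∑ l, dist (φ (σ s l)) (s • φ l) ^ 2) / d) ≤ δ}

/-- Sofic mean dimension. -/
noncomputable def mdim {G : Type} [Group G] (X : Type) [MetricSpace X] [MulAction G X]
    (d : ℕ → ℕ) (σ : ∀ i, G → Equiv.Perm (Fin (d i))) : EReal :=
  ⨆ (ε : ℝ) (_ : 0 < ε), ⨅ (F : Finset G) (δ : ℝ) (_ : 0 < δ),
    limsup (fun i => Widim (MapSet X F δ (σ i)) ε / (d i : EReal)) atTop

end Pool.Agent.H21.Sofic
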