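import Mathlib

namespace Pool.Agent.H21.Span

open Set

/-- The surjective span. -/
noncomputable def surjSpan (X : Type) [MetricSpace X] : ℝ :=
  sSup {a | 0 ≤ a ∧ ∃ C : Set (X × X), IsConnected C ∧ Prod.fst '' C = univ ∧
    Prod.snd '' C = univ ∧ ∀ p ∈ C, a ≤ dist p.1 p.2}

/-- The surjective semi-span. -/
noncomputable def surjSemiSpan (X : Type) [MetricSpace X] : ℝ :=
  sSup {a | 0 ≤ a ∧ ∃ C : Set (X × X), IsConnected C ∧
    (Prod.fst '' C = univ ∨ Prod.snd '' C = univ) ∧ ∀ p ∈ C, a ≤ dist p.1 p.2}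

/-- The letter T in the plane: three unit segments from the origin. -/
def triod : Set (ℝ × ℝ) :=
  {p | (p.2 = 0 ∧ -1 ≤ p.1 ∧ p.1 ≤ 1) ∨ (p.1 = 0 ∧ 0 ≤ p.2 ∧ p.2 ≤ 1)}

end Pool.Agent.H21.Span
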