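import Mathlib

namespace Pool.Agent.H21.Stable

open Real Finset

/-- The coefficient `a_{m,n}`. -/
noncomputable def a (α ρ : ℝ) (m n : ℕ) : ℝ :=
  (-1) ^ (m + n) / (Gamma (1 - ρ - n - m / α) * Gamma (α * ρ + m + α * n)) *
    (∏ j ∈ Icc 1 m, sin (π / α * (α * ρ + j - 1)) / sin (π * j / α)) *
    ∏ j ∈ Icc 1 n, sin (π * α * (ρ + j - 1)) / sin (π * α * j)

/-- The coefficient `b_{m,n}`. -/
noncomputable def b (α ρ : ℝ) (m n : ℕ) : ℝ :=
  Gamma (1 - ρ - n - m / α) * Gamma (α * ρ + m + α * n) /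
    (Gamma (1 + n + m / α) * Gamma (-m - α * n)) * a α ρ m n

/-- The series attached to `(α, ρ)` converges absolutely for every `x > 0`. -/
def AbsConv (α ρ : ℝ) : Prop :=
  ∀ x : ℝ, 0 < x →
    if α < 1 then Summable fun p : ℕ × ℕ =>
      |x ^ (-1 - α) * (b α ρ p.1 (p.2 + 1) * x ^ (-(p.1 : ℝ) - α * p.2))|
    else Summable fun p : ℕ × ℕ => |x ^ (α * ρ - 1) * (a α ρ p.1 p.2 * x ^ (p.1 + α * p.2))|

end Pool.Agent.H21.Stable
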