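import Mathlib

set_option autoImplicit false

open Polynomial Complex

namespace Pool.Agent.H21.Strip

lemma pair (z : ℂ) (a b β γ η : ℝ) (hb : 0 < b) (hη : 0 < η) (h : η ≤ |z.re - a|) :
    (z - a) ^ 2 + b ^ 2 ≠ 0 ∧
      ‖(β * (z - a) + γ) / ((z - a) ^ 2 + b ^ 2)‖ ≤ (|β| + |γ| / b) / η := by
  have hu : η ≤ ‖z - a - I * b‖ := h.trans (by simpa using abs_re_le_norm (z - a - I * b))
  have hv : η ≤ ‖z - a + I * b‖ := h.trans (by simpa using abs_re_le_norm (z - a + I * b))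
  have hu0 : z - a - I * b ≠ 0 := norm_pos_iff.mp (hη.trans_le hu)
  have hv0 : z - a + I * b ≠ 0 := norm_pos_iff.mp (hη.trans_le hv)
  have hb0 : (b : ℂ) ≠ 0 := by exact_mod_cast hb.ne'
  have e : (z - a) ^ 2 + b ^ 2 = (z - a - I * b) * (z - a + I * b) := by
    linear_combination ((b : ℂ) ^ 2) * I_sq
  rw [e]
  refine ⟨mul_ne_zero hu0 hv0, ?_⟩
  have e2 : (β * (z - a) + γ) / ((z - a - I * b) * (z - a + I * b)) =
      (β / 2 : ℂ) * ((z - a - I * b)⁻¹ + (z - a + I * b)⁻¹) +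
      (γ / (2 * b) * -I : ℂ) * ((z - a - I * b)⁻¹ - (z - a + I * b)⁻¹) := by
    field_simp
    linear_combination (2 * b * γ : ℂ) * I_sq
  have h1 : ‖(z - a - I * b)⁻¹‖ ≤ η⁻¹ := by rw [norm_inv]; gcongr
  have h2 : ‖(z - a + I * b)⁻¹‖ ≤ η⁻¹ := by rw [norm_inv]; gcongr
  have h3 := norm_add_le (z - a - I * b)⁻¹ (z - a + I * b)⁻¹
  have h4 := norm_sub_le (z - a - I * b)⁻¹ (z - a + I * b)⁻¹
  rw [e2]
  refine (norm_add_le _ _).trans ?_
  rw [norm_mul, norm_mul, norm_mul, norm_neg, norm_I, norm_div, norm_div, norm_mul]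
  simp only [norm_real, Real.norm_eq_abs, Complex.norm_ofNat, abs_of_pos hb, mul_one]
  calc _ ≤ |β| / 2 * (2 * η⁻¹) + |γ| / (2 * b) * (2 * η⁻¹) := by gcongr <;> linarith
    _ = _ := by field_simp

lemma strip (z : ℂ) (lo hi η r a1 b1 a2 b2 a3 b3 α β1 γ1 β2 γ2 β3 γ3 : ℝ) (hη : 0 < η)
    (hb : 0 < b1 ∧ 0 < b2 ∧ 0 < b3) (h1 : lo + η ≤ r ∧ lo + η ≤ a1 ∧ lo + η ≤ a2 ∧ lo + η ≤ a3)
    (h2 : r + η ≤ hi ∧ a1 + η ≤ hi ∧ a2 + η ≤ hi ∧ a3 + η ≤ hi)
    (hs : |α| + (|β1| + |γ1| / b1) + (|β2| + |γ2| / b2) + (|β3| + |γ3| / b3) < η)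
    (h : (z - r) * ((z - a1) ^ 2 + b1 ^ 2) * ((z - a2) ^ 2 + b2 ^ 2) * ((z - a3) ^ 2 + b3 ^ 2)
      + α * ((z - a1) ^ 2 + b1 ^ 2) * ((z - a2) ^ 2 + b2 ^ 2) * ((z - a3) ^ 2 + b3 ^ 2)
      + (β1 * (z - a1) + γ1) * (z - r) * ((z - a2) ^ 2 + b2 ^ 2) * ((z - a3) ^ 2 + b3 ^ 2)
      + (β2 * (z - a2) + γ2) * (z - r) * ((z - a1) ^ 2 + b1 ^ 2) * ((z - a3) ^ 2 + b3 ^ 2)
      + (β3 * (z - a3) + γ3) * (z - r) * ((z - a1) ^ 2 + b1 ^ 2) * ((z - a2) ^ 2 + b2 ^ 2) = 0) :
    lo ≤ z.re ∧ z.re ≤ hi := by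
  by_contra hn
  have key : ∀ c, lo + η ≤ c → c + η ≤ hi → η ≤ |z.re - c| := by
    intro c c1 c2
    rcases not_and_or.mp hn with h | h <;> push Not at h
    · exact le_abs.mpr (Or.inr (by linarith))
    · exact le_abs.mpr (Or.inl (by linarith))
  obtain ⟨n1, m1⟩ := pair z a1 b1 β1 γ1 η hb.1 hη (key _ h1.2.1 h2.2.1)
  obtain ⟨n2, m2⟩ := pair z a2 b2 β2 γ2 η hb.2.1 hη (key _ h1.2.2.1 h2.2.2.1)
  obtain ⟨n3, m3⟩ := pair z a3 b3 β3 γ3 η hb.2.2 hη (key _ h1.2.2.2 h2.2.2.2)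
  have hr : η ≤ ‖z - r‖ := (key _ h1.1 h2.1).trans (by simpa using abs_re_le_norm (z - r))
  have n0 : z - r ≠ 0 := norm_pos_iff.mp (hη.trans_le hr)
  have m0 : ‖α / (z - r)‖ ≤ |α| / η := by
    rw [norm_div, norm_real, Real.norm_eq_abs]; gcongr
  generalize (z - a1) ^ 2 + b1 ^ 2 = Q1 at *
  generalize (z - a2) ^ 2 + b2 ^ 2 = Q2 at *
  generalize (z - a3) ^ 2 + b3 ^ 2 = Q3 at *
  generalize β1 * (z - a1) + γ1 = T1 at *
  generalize β2 * (z - a2) + γ2 = T2 at *
  generalize β3 * (z - a3) + γ3 = T3 at *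
  generalize z - r = L at *
  have e : α / L + T1 / Q1 + T2 / Q2 + T3 / Q3 = -1 := by
    field_simp
    linear_combination h
  have := norm_add₄_le (a := α / L) (b := T1 / Q1) (c := T2 / Q2) (d := T3 / Q3)
  rw [e, norm_neg, norm_one] at this
  have h5 : (|α| + (|β1| + |γ1| / b1) + (|β2| + |γ2| / b2) + (|β3| + |γ3| / b3)) / η < 1 :=
    (div_lt_one hη).mpr hs
  simp only [add_div _ _ η] at h5 m1 m2 m3
  linarith

lemma bdd (q : ℂ[X]) (lo hi : ℝ) (h : ∀ z, q.eval z = 0 → lo ≤ z.re ∧ z.re ≤ hi) :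
    ∀ x ∈ {x : ℝ | ∃ z ∈ q.roots, ∃ w ∈ q.roots, x = z.re - w.re}, x ≤ hi - lo := by
  rintro x ⟨z, hz, w, hw, rfl⟩
  linarith [(h z (isRoot_of_mem_roots hz)).2, (h w (isRoot_of_mem_roots hw)).1]

noncomputable def pp : ℂ[X] := C (1 / 8) * X ^ 8 + C (-62 / 7) * X ^ 7 + C (248287 / 6) * X ^ 6 +
  C (-1307258) * X ^ 5 + C (-1865764099 / 12) * X ^ 4 + C (191972888798 / 3) * X ^ 3 +
  C (4092148502563 / 6) * X ^ 2 + C (-14321358325061462 / 21) * X ^ 1

noncomputable def dd (l : ℝ) : ℂ[X] :=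
  (pp.comp (X + C (l : ℂ)) - pp.comp (X - C (l : ℂ))) * C (1 / (2 * (l : ℂ)))

lemma dd_eval (l : ℝ) (z : ℂ) : (dd l).eval z = (pp.eval (z + l) - pp.eval (z - l)) * (1 / (2 * l)) := by
  simp only [dd, eval_mul, eval_sub, eval_comp, eval_add, eval_X, eval_C]

lemma s0 (z : ℂ) (h : (derivative pp).eval z = 0) : -696 / 10 ≤ z.re ∧ z.re ≤ 581 / 10 := by
  refine strip z _ _ (1 / 2) (288 / 5)
    (-691 / 10)
    (86 / 5)
    (551 / 10)
    (159 / 2)
    (81 / 5)
    (999 / 2)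
    (-944987816334520256 / 1364115171214913378625)
    (-1341163183749596591457631191192149 / 31779250333952250341158595198626020)
    (-62422587654411556280561072115660557 / 105930834446507501137195317328753400)
    (3167646316194371034827921426843348 / 95191407788893881283695995135369625)
    (5992156781659787746043542182017636 / 3807656311555755251347839805414785)
    (769290010625298233995203625683339929 / 79979175411776988151228875671327501940)
    (-1113047402758334755676194206186113691197 / 44432875228764993417349375372959723300) (by norm_num) (by norm_num) (by norm_num) (by norm_num)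
    (by norm_num [abs_div]) ?_
  simp only [pp, derivative_add, derivative_C_mul_X_pow, eval_add, eval_mul, eval_C, eval_pow,
    eval_X] at h
  push_cast at h ⊢
  linear_combination h

lemma s1 (z : ℂ) (h : (dd 128).eval z = 0) : 33 / 100 ≤ z.re ∧ z.re ≤ 1521 / 100 := by
  refine strip z _ _ (1 / 20) (19 / 50)
    (59 / 100)
    (689 / 10)
    (753 / 50)
    (20313 / 100)
    (379 / 25)
    (56169 / 100)
    (5614049682508524894500448 / 1554128561318762836771689625)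
    (232753004765628665026289223398568717396522 / 97021803685901816034253198402604646153248125)
    (1087201047915019806336755042196917932420639707 / 2388229013806813933150847960679498982233800000)
    (-2950290775060559403490100381007167426680681 / 405692483793909900636325584261797950283259200)
    (572378841151370874814430095285593905948191689 / 665069645563786722354632105347209754562720000)
    (723752784401023787278623063403373804836289141 / 573991401252684598493276203625120508582662440000)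
    (238680160391310811746543891825934335350079249827233 / 57399140125268459849327620362512050858266244000000) (by norm_num) (by norm_num) (by norm_num) (by norm_num)
    (by norm_num [abs_div]) ?_
  simp only [dd_eval, pp, eval_add, eval_mul, eval_C, eval_pow, eval_X] at h
  push_cast at h ⊢
  linear_combination h

lemma e2 (z : ℂ) : (dd 137).eval z =
    z * ((z - 2) ^ 2 + 74 ^ 2) * ((z - 14) ^ 2 + 216 ^ 2) * ((z - 15) ^ 2 + 571 ^ 2) := by
  simp only [dd_eval, pp, eval_add, eval_mul, eval_C, eval_pow, eval_X]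
  push_cast
  ring

lemma s2 (z : ℂ) (h : (dd 137).eval z = 0) : -1 ≤ z.re ∧ z.re ≤ 16 := by
  refine strip z _ _ 1 0 2 74 14 216 15 571 0 0 0 0 0 0 0 (by norm_num) (by norm_num) (by norm_num)
    (by norm_num) (by norm_num) ?_
  rw [e2] at h
  push_cast
  linear_combination h

lemma low : 15 ≤ sSup {x : ℝ | ∃ z ∈ (dd 137).roots, ∃ w ∈ (dd 137).roots, x = z.re - w.re} := by
  have h0 : dd 137 ≠ 0 := by
    intro h
    have := e2 1
    rw [h] at this
    norm_num at this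
  refine le_csSup ⟨_, bdd _ _ _ s2⟩ ⟨15 + 571 * I, (mem_roots h0).2 ?_, 0, (mem_roots h0).2 ?_, by simp⟩
  · rw [IsRoot, e2]
    exact mul_eq_zero_of_right _ (by linear_combination (571 ^ 2 : ℂ) * I_sq)
  · rw [IsRoot, e2]; simp

end Pool.Agent.H21.Strip
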