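import Mathlib

namespace Pool.Agent.H21.TD

variable {K V : Type} [Field K] [AddCommGroup V] [Module K V]

/-- `f` is diagonalizable: its eigenspaces span `V`. -/
def Diag (f : Module.End K V) : Prop := ⨆ μ : K, f.eigenspace μ = ⊤

/-- `θ 0, …, θ d` lists the eigenvalues of `A` without repetition, and `B` maps the `i`-th
eigenspace of `A` into the sum of the eigenspaces with index `i - 1`, `i`, `i + 1`. -/
def TriOrd (A B : Module.End K V) (d : ℕ) (θ : Fin (d + 1) → K) : Prop :=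
  Function.Injective θ ∧ (∀ μ, A.HasEigenvalue μ ↔ μ ∈ Set.range θ) ∧
    ∀ i, (A.eigenspace (θ i)).map B ≤
      ⨆ j : Fin (d + 1), ⨆ (_ : j.val ≤ i.val + 1 ∧ i.val ≤ j.val + 1), A.eigenspace (θ j)

/-- `A, B` is a tridiagonal pair on `V`, with the orderings of eigenspaces given by the
eigenvalue lists `θ` (for `A`) and `η` (for `B`). -/
def IsTD (A B : Module.End K V) (d : ℕ) (θ η : Fin (d + 1) → K) : Prop :=
  FiniteDimensional K V ∧ Nontrivial V ∧ Diag A ∧ Diag B ∧ TriOrd A B d θ ∧ TriOrd B A d η ∧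
    ∀ W : Submodule K V, W.map A ≤ W → W.map B ≤ W → W = ⊥ ∨ W = ⊤

/-- `S` is admissible: `S V_i = V_i` and `S (V*_0 + ⋯ + V*_i) = V*_d + ⋯ + V*_{d-i}`. -/
def Admissible (A B : Module.End K V) (d : ℕ) (θ η : Fin (d + 1) → K) (S : Module.End K V) :
    Prop :=
  ∀ i : Fin (d + 1), (A.eigenspace (θ i)).map S = A.eigenspace (θ i) ∧
    (⨆ j : Fin (d + 1), ⨆ (_ : j.val ≤ i.val), B.eigenspace (η j)).map S =
      ⨆ j : Fin (d + 1), ⨆ (_ : d - i.val ≤ j.val), B.eigenspace (η j)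

end Pool.Agent.H21.TD
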