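import Mathlib

namespace Pool.Agent.H21.TIndep

variable {G : Type} [AddCommGroup G]

/-- `A` is `t`-independent. -/
def IsIndep (t : ℕ) (A : Finset G) : Prop :=
  ∀ l : G → ℤ, ∑ a ∈ A, |l a| ≤ t → ∑ a ∈ A, l a • a = 0 → ∀ a ∈ A, l a = 0

open Classical in
/-- `τ_±(G, [1, t])`: the largest size of a `t`-independent subset. -/
noncomputable def tau (G : Type) [AddCommGroup G] [Fintype G] (t : ℕ) : ℕ :=
  ((Finset.univ : Finset (Finset G)).filter (IsIndep t)).sup Finset.card

end Pool.Agent.H21.TIndep
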