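import Mathlib

namespace Pool.Agent.H21.UM

abbrev F := ZMod 5

noncomputable def χ : AddChar F ℂ := ZMod.stdAddChar

theorem chi_eq (r : F) :
    Complex.exp (2 * (Real.pi : ℂ) * Complex.I * ((r.val : ℕ) : ℂ) / ((5 : ℕ) : ℂ)) = χ r := by
  simp only [χ, ZMod.stdAddChar_apply, ZMod.toCircle_apply]

theorem chi_int (n : ℤ) :
    χ (n : F) = Complex.exp (2 * (Real.pi : ℂ) * Complex.I * (n : ℂ) / ((5 : ℕ) : ℂ)) := by
  simp only [χ, ZMod.stdAddChar_coe]

theorem chi_sum (s : F) : ∑ a : F, χ (a * s) = if s = 0 then 5 else 0 := by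
  have := AddChar.sum_mulShift (ψ := χ) s (ZMod.isPrimitive_stdAddChar 5)
  rw [this]
  split_ifs <;> simp [ZMod.card]

theorem sum_F (f : F → ℂ) : ∑ a : F, f a = f 0 + f 1 + f 2 + f 3 + f 4 := by
  have : (Finset.univ : Finset F) = {0, 1, 2, 3, 4} := by decide
  rw [this, Finset.sum_insert (by decide), Finset.sum_insert (by decide),
    Finset.sum_insert (by decide), Finset.sum_insert (by decide), Finset.sum_singleton]
  ring

theorem chi_four (s : F) :
    χ s + (χ (2 * s) + (χ (3 * s) + χ (4 * s))) = (if s = 0 then 5 else 0) - 1 := by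
  rw [← chi_sum, sum_F]
  simp
  ring

abbrev T := F × F × F × F

def vec (p : T) : Fin 4 → F := ![p.1, p.2.1, p.2.2.1, p.2.2.2]

theorem vec_inj : Function.Injective vec := by
  rintro ⟨a, b, c, d⟩ ⟨a', b', c', d'⟩ h
  have h0 := congrFun h 0
  have h1 := congrFun h 1
  have h2 := congrFun h 2
  have h3 := congrFun h 3
  simp [vec] at h0 h1 h2 h3
  simp [h0, h1, h2, h3]

def J : List T :=
  [(0, 4, 1, 0), (2, 4, 1, 0), (3, 2, 1, 0), (2, 2, 0, 1), (4, 0, 0, 1), (4, 3, 0, 1),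
   (1, 1, 1, 1), (2, 1, 1, 1), (2, 3, 1, 1), (0, 1, 1, 2), (1, 0, 1, 2), (4, 4, 1, 2),
   (0, 1, 1, 3), (1, 2, 1, 3), (4, 2, 1, 3), (1, 4, 1, 4), (2, 0, 1, 4), (2, 1, 1, 4)]

def sc (a : F) (p : T) : T := (a * p.1, a * p.2.1, a * p.2.2.1, a * p.2.2.2)

def L : List T :=
  (1, 0, 0, 0) :: (-1, 0, 0, 0) :: J.flatMap (fun p => [p, sc 2 p, sc 3 p, sc 4 p])

theorem L_nodup : L.Nodup := by decide +kernel
theorem L_zero : ∀ p ∈ L, p ≠ (0, 0, 0, 0) := by decide +kernel
theorem L_neg : ∀ p ∈ L, sc (-1) p ∈ L := by decide +kernel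

def C : Finset (Fin 4 → F) := (L.map vec).toFinset

def dot (p : T) (a b c d : F) : F := p.1 * a + p.2.1 * b + p.2.2.1 * c + p.2.2.2 * d

def N (a b c d : F) : ℕ := J.countP (fun p => decide (dot p a b c d = 0))

def p1 (a b : F) : F := 4 * a ^ 3 + a ^ 2 * b + a * b ^ 2 + 2 * b ^ 3
def p2 (a : F) : F := a ^ 3

theorem N_mod : ∀ a b c d : F, ((N a b c d : ℕ) : F) = 3 + p1 a b * c + p2 a * d := by
  decide +kernel

theorem pi_bij : ∀ u v : F, ∃ x : F × F, ∀ z : F × F,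
    (u - p1 z.1 z.2 = 0 ∧ v - p2 z.1 = 0) ↔ z = x := by
  decide +kernel

theorem lam_aux (a b c d : F) : ∀ K : List T,
    ((K.flatMap (fun p => [p, sc 2 p, sc 3 p, sc 4 p])).map (fun p => χ (dot p a b c d))).sum =
      5 * (K.countP (fun p => decide (dot p a b c d = 0)) : ℂ) - K.length
  | [] => by simp
  | p :: K => by
      have ih := lam_aux a b c d K
      have hs : ∀ r : F, dot (sc r p) a b c d = r * dot p a b c d := by
        intro r; simp only [dot, sc]; ring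
      have h4 := chi_four (dot p a b c d)
      simp only [List.flatMap_cons, List.map_append, List.sum_append, ih, List.map_cons,
        List.map_nil, List.sum_cons, List.sum_nil, hs, add_zero, h4, List.countP_cons,
        List.length_cons, decide_eq_true_eq]
      split_ifs <;> push_cast <;> ring

theorem lam (y : Fin 4 → F) :
    ∑ c ∈ C, Complex.exp (2 * (Real.pi : ℂ) * Complex.I *
      (((∑ j, c j * y j : ZMod 5).val : ℕ) : ℂ) / ((5 : ℕ) : ℂ)) =
      5 * (N (y 0) (y 1) (y 2) (y 3) : ℂ) - 18 + (χ (y 0) + χ (- y 0)) := by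
  simp only [chi_eq]
  rw [C, List.sum_toFinset _ (L_nodup.map vec_inj), List.map_map]
  have : ((fun c : Fin 4 → F => χ (∑ j, c j * y j)) ∘ vec) =
      fun p => χ (dot p (y 0) (y 1) (y 2) (y 3)) := by
    funext p
    simp [vec, dot, Fin.sum_univ_four]
  rw [this, L, List.map_cons, List.map_cons, List.sum_cons, List.sum_cons, lam_aux]
  have hl : J.length = 18 := rfl
  rw [hl]
  simp only [N, dot]
  simp
  ring

noncomputable def Gf (a : F) : ℂ :=
  Complex.exp (-(Complex.I * ((2 * Real.pi / 25 : ℝ) : ℂ) * (-18 + (χ a + χ (-a)))))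

theorem chi_conj (a : F) : χ (-a) = (starRingEnd ℂ) (χ a) := by
  rw [AddChar.map_neg_eq_conj]

theorem norm_Gf (a : F) : ‖Gf a‖ = 1 := by
  rw [Gf, Complex.norm_exp, chi_conj, Complex.add_conj]
  simp

theorem norm_chi (a : F) : ‖χ a‖ = 1 := by
  simp only [χ, ZMod.stdAddChar_apply]
  exact Circle.norm_coe _

theorem phase (y : Fin 4 → F) :
    Complex.exp (-(Complex.I * ((2 * Real.pi / 25 : ℝ) : ℂ) *
      (5 * (N (y 0) (y 1) (y 2) (y 3) : ℂ) - 18 + (χ (y 0) + χ (- y 0))))) =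
      χ (-(3 + p1 (y 0) (y 1) * y 2 + p2 (y 0) * y 3)) * Gf (y 0) := by
  rw [← N_mod]
  have := chi_int (-(N (y 0) (y 1) (y 2) (y 3) : ℤ))
  rw [Int.cast_neg, Int.cast_natCast] at this
  rw [this, Gf, ← Complex.exp_add]
  congr 1
  push_cast
  ring

def eqv : (F × F) × F × F ≃ (Fin 4 → F) where
  toFun z := ![z.1.1, z.1.2, z.2.1, z.2.2]
  invFun y := ((y 0, y 1), y 2, y 3)
  left_inv _ := rfl
  right_inv y := by
    funext i
    fin_cases i <;> rfl

theorem main (w : Fin 4 → F) :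
    ‖∑ y : Fin 4 → F, χ (-(3 + p1 (y 0) (y 1) * y 2 + p2 (y 0) * y 3)) * Gf (y 0) *
      χ (∑ j, w j * y j)‖ = 25 := by
  obtain ⟨x, hx⟩ := pi_bij (w 2) (w 3)
  rw [← eqv.sum_comp, Fintype.sum_prod_type]
  have h1 : ∀ z : F × F, ∑ u : F × F,
      χ (-(3 + p1 (eqv (z, u) 0) (eqv (z, u) 1) * eqv (z, u) 2 + p2 (eqv (z, u) 0) * eqv (z, u) 3))
        * Gf (eqv (z, u) 0) * χ (∑ j, w j * eqv (z, u) j) =
      if z = x then Gf z.1 * χ (-3 + w 0 * z.1 + w 1 * z.2) * 25 else 0 := by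
    intro z
    have h2 : ∀ u : F × F,
        χ (-(3 + p1 (eqv (z, u) 0) (eqv (z, u) 1) * eqv (z, u) 2 +
          p2 (eqv (z, u) 0) * eqv (z, u) 3))
        * Gf (eqv (z, u) 0) * χ (∑ j, w j * eqv (z, u) j) =
        Gf z.1 * χ (-3 + w 0 * z.1 + w 1 * z.2) *
          (χ (u.1 * (w 2 - p1 z.1 z.2)) * χ (u.2 * (w 3 - p2 z.1))) := by
      intro u
      rw [Fin.sum_univ_four]
      change χ (-(3 + p1 z.1 z.2 * u.1 + p2 z.1 * u.2)) * Gf z.1 *
        χ (w 0 * z.1 + w 1 * z.2 + w 2 * u.1 + w 3 * u.2) = _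
      rw [mul_comm (χ _) (Gf _), mul_assoc, mul_assoc, ← AddChar.map_add_eq_mul,
        ← AddChar.map_add_eq_mul, ← AddChar.map_add_eq_mul]
      congr 2
      ring
    simp only [h2]
    rw [← Finset.mul_sum, Fintype.sum_prod_type]
    dsimp only
    rw [← Finset.sum_mul_sum, chi_sum, chi_sum]
    by_cases hz : z = x
    · have := (hx z).2 hz
      rw [if_pos this.1, if_pos this.2, if_pos hz]; norm_num
    · rw [if_neg hz]
      have := fun h => hz ((hx z).1 h)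
      by_cases ha : w 2 - p1 z.1 z.2 = 0
      · rw [if_neg (fun hb : w 3 - p2 z.1 = 0 => this ⟨ha, hb⟩)]; simp
      · rw [if_neg ha]; simp
  simp only [h1]
  rw [Finset.sum_ite_eq' Finset.univ x, if_pos (Finset.mem_univ _), norm_mul, norm_mul, norm_Gf,
    norm_chi]
  simp

theorem irr (k : ℤ) : χ 1 + χ (-1) ≠ (k : ℂ) := by
  intro h
  have h4 := chi_four 1
  rw [if_neg (by decide)] at h4
  have e1 : χ (2 * 1) = χ 1 * χ 1 := by rw [← AddChar.map_add_eq_mul]; rfl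
  have e2 : χ (3 * 1) = χ (-1) * χ (-1) := by rw [← AddChar.map_add_eq_mul]; rfl
  have e3 : χ (4 * 1) = χ (-1) := rfl
  have e4 : χ 1 * χ (-1) = 1 := by rw [← AddChar.map_add_eq_mul]; simp
  rw [e1, e2, e3] at h4
  have h5 : (k : ℂ) * (k + 1) = 1 := by
    rw [← h]; linear_combination h4 + 2 * e4
  have h6 : k * (k + 1) = 1 := by exact_mod_cast h5
  have := Int.even_mul_succ_self k
  rw [h6] at this
  exact absurd this (by decide)


theorem C_zero : (0 : Fin 4 → F) ∉ C := by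
  intro h0
  simp only [C, List.mem_toFinset, List.mem_map] at h0
  obtain ⟨p, hp, h0⟩ := h0
  apply L_zero p hp
  apply vec_inj
  rw [h0]
  funext i
  fin_cases i <;> rfl

theorem C_neg : ∀ c ∈ C, -c ∈ C := by
  intro c hc
  simp only [C, List.mem_toFinset, List.mem_map] at hc ⊢
  obtain ⟨p, hp, rfl⟩ := hc
  refine ⟨_, L_neg p hp, ?_⟩
  funext i
  fin_cases i <;> simp [vec, sc]

end Pool.Agent.H21.UM
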