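import Mathlib

namespace Pool.Agent.H21.VNum

open MvPolynomial

variable {K : Type} [Field K] {n : ℕ}

/-- `Ass(J)`: the primes of the form `(J : f)`. -/
def Ass (J : Ideal (MvPolynomial (Fin n) K)) : Set (Ideal (MvPolynomial (Fin n) K)) :=
  {p | p.IsPrime ∧ ∃ f, Submodule.colon J {f} = p}

/-- `Ass^∞(I)`: the primes associated to `I^k` for infinitely many `k`. -/
def AssInf (I : Ideal (MvPolynomial (Fin n) K)) : Set (Ideal (MvPolynomial (Fin n) K)) :=
  {p | {k : ℕ | p ∈ Ass (I ^ k)}.Infinite}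

/-- The local v-number: the least degree of a homogeneous `f` with `(J : f) = p`. -/
noncomputable def vLoc (p J : Ideal (MvPolynomial (Fin n) K)) : ℕ :=
  sInf {d : ℕ | ∃ f : MvPolynomial (Fin n) K, f.IsHomogeneous d ∧ Submodule.colon J {f} = p}

end Pool.Agent.H21.VNum
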