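import Mathlib
import Pool.Agent.H21.VNumDef

namespace Pool.Agent.H21.VNum

open MvPolynomial

variable {K : Type} [Field K] {n : ℕ}

/-- The v-number: the least degree of a homogeneous `f` with `(J : f) ∈ Ass(J)`. -/
noncomputable def vNum (J : Ideal (MvPolynomial (Fin n) K)) : ℕ :=
  sInf {d : ℕ | ∃ f : MvPolynomial (Fin n) K, f.IsHomogeneous d ∧ Submodule.colon J {f} ∈ Ass J}

/-- The initial degree: the least degree of a nonzero homogeneous element. -/
noncomputable def alpha (I : Ideal (MvPolynomial (Fin n) K)) : ℕ :=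
  sInf {d : ℕ | ∃ f ∈ I, f ≠ 0 ∧ f.IsHomogeneous d}

end Pool.Agent.H21.VNum
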