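import Mathlib
import Pool.Agent.H21.VNumDef

namespace Pool.Agent.H21.VNumEx

open MvPolynomial Pool.Agent.H21.VNum

attribute [local instance] MvPolynomial.gradedAlgebra

variable (K : Type) [Field K]

noncomputable def I : Ideal (MvPolynomial (Fin 3) K) :=
  Ideal.span {X 0 * X 1, X 0 * X 2, X 1 * X 2, X 0 ^ 5, X 1 ^ 5, X 2 ^ 5}

def P (a b c : ℕ) : Prop :=
  (1 ≤ a ∧ 1 ≤ b) ∨ (1 ≤ a ∧ 1 ≤ c) ∨ (1 ≤ b ∧ 1 ≤ c) ∨ 5 ≤ a ∨ 5 ≤ b ∨ 5 ≤ c

open Finsupp in
theorem mem_I (f : MvPolynomial (Fin 3) K) :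
    f ∈ I K ↔ ∀ m ∈ f.support, P (m 0) (m 1) (m 2) := by
  have h : I K = Ideal.span ((fun s => monomial s (1 : K)) ''
      {single 0 1 + single 1 1, single 0 1 + single 2 1, single 1 1 + single 2 1,
        single 0 5, single 1 5, single 2 5}) := by
    simp only [I, Set.image_insert_eq, Set.image_singleton, X_pow_eq_monomial]
    simp only [X, monomial_mul, mul_one]
  rw [h, mem_ideal_span_monomial_image]
  refine forall₂_congr fun m _ => ?_
  simp [P, Finsupp.le_def, Fin.forall_fin_succ]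

theorem maxl : (idealOfVars (Fin 3) K).IsMaximal := by
  have : idealOfVars (Fin 3) K = RingHom.ker (constantCoeff : MvPolynomial (Fin 3) K →+* K) := by
    ext f
    have := mem_pow_idealOfVars_iff' (σ := Fin 3) (R := K) 1 f
    rw [pow_one] at this
    rw [this, RingHom.mem_ker, constantCoeff_eq]
    simp [Finsupp.degree_eq_zero_iff]
  rw [this]
  exact RingHom.ker_isMaximal_of_surjective _ fun a => ⟨C a, by simp⟩

theorem colon_eq (J : Ideal (MvPolynomial (Fin 3) K)) (f) (hf : f ∉ J)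
    (h : ∀ g ∈ idealOfVars (Fin 3) K, g * f ∈ J) :
    Submodule.colon J {f} = idealOfVars (Fin 3) K := by
  refine ((maxl K).eq_of_le (fun ht => hf ?_) fun g hg => ?_).symm
  · have : (1 : MvPolynomial (Fin 3) K) ∈ Submodule.colon J {f} := by rw [ht]; trivial
    simpa using this
  · simpa using h g hg

theorem colon_eq' (J : Ideal (MvPolynomial (Fin 3) K)) (f) (hf : f ∉ J)
    (h : ∀ i, X i * f ∈ J) : Submodule.colon J {f} = idealOfVars (Fin 3) K := by
  refine colon_eq K J f hf fun g hg => ?_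
  have : idealOfVars (Fin 3) K ≤ Submodule.colon J {f} := by
    rw [Ideal.span_le]; rintro _ ⟨i, rfl⟩; simpa using h i
  simpa using this hg

theorem I_le : I K ≤ idealOfVars (Fin 3) K ^ 2 := by
  intro f hf
  rw [mem_pow_idealOfVars_iff]
  intro m hm
  have := (mem_I K f).1 hf m hm
  rw [Finsupp.degree_eq_sum, Fin.sum_univ_three]
  unfold P at this
  omega

theorem ass (k : ℕ) (hk : 1 ≤ k) : idealOfVars (Fin 3) K ∈ Ass (I K ^ k) := by
  refine ⟨(maxl K).isPrime, ?_⟩
  have hex : ∃ N, idealOfVars (Fin 3) K ^ N ≤ I K ^ k := by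
    refine Ideal.exists_pow_le_of_le_radical_of_fg ?_ (idealOfVars_fg _ _)
    rw [Ideal.radical_pow _ (by omega), Ideal.span_le]
    rintro _ ⟨i, rfl⟩
    refine ⟨5, Ideal.subset_span ?_⟩
    fin_cases i <;> simp
  classical
  have h0 : Nat.find hex ≠ 0 := by
    intro h
    have h1 := Nat.find_spec hex
    rw [h, pow_zero, Ideal.one_eq_top, top_le_iff] at h1
    have h2 : I K ^ k ≤ idealOfVars (Fin 3) K :=
      (Ideal.pow_le_self (by omega)).trans ((I_le K).trans (Ideal.pow_le_self (by omega)))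
    exact (maxl K).ne_top (top_le_iff.1 (h1 ▸ h2))
  obtain ⟨N, hN⟩ := Nat.exists_eq_succ_of_ne_zero h0
  have h1 := Nat.find_spec hex
  have h2 := Nat.find_min hex (m := N) (by omega)
  rw [hN] at h1
  obtain ⟨f, hf, hf'⟩ := SetLike.not_le_iff_exists.1 h2
  refine ⟨f, colon_eq K _ f hf' fun g hg => h1 ?_⟩
  rw [pow_succ']
  exact Ideal.mul_mem_mul hg hf

theorem main : (I K).IsHomogeneous (homogeneousSubmodule (Fin 3) K) ∧
    vLoc (idealOfVars (Fin 3) K) (I K ^ 2) < vLoc (idealOfVars (Fin 3) K) (I K ^ 1) := by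
  refine ⟨?_, ?_⟩
  · refine Ideal.homogeneous_span _ _ fun x hx => ?_
    simp only [Set.mem_insert_iff, Set.mem_singleton_iff] at hx
    rcases hx with rfl | rfl | rfl | rfl | rfl | rfl
    · exact ⟨_, (isHomogeneous_X K 0).mul (isHomogeneous_X K 1)⟩
    · exact ⟨_, (isHomogeneous_X K 0).mul (isHomogeneous_X K 2)⟩
    · exact ⟨_, (isHomogeneous_X K 1).mul (isHomogeneous_X K 2)⟩
    all_goals exact ⟨_, (isHomogeneous_X K _).pow 5⟩
  have g1 : X 0 * X 1 ∈ I K := Ideal.subset_span (by simp)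
  have g2 : X 0 * X 2 ∈ I K := Ideal.subset_span (by simp)
  have g3 : X 1 * X 2 ∈ I K := Ideal.subset_span (by simp)
  have hle : vLoc (idealOfVars (Fin 3) K) (I K ^ 2) ≤ 3 := by
    refine Nat.sInf_le ⟨X 0 * X 1 * X 2,
      ((isHomogeneous_X K 0).mul (isHomogeneous_X K 1)).mul (isHomogeneous_X K 2),
      colon_eq' K _ _ (fun h => ?_) fun i => ?_⟩
    · have h4 := Ideal.pow_right_mono (I_le K) 2 h
      rw [← pow_mul] at h4
      simp only [X, monomial_mul] at h4
      rw [monomial_mem_pow_idealOfVars_iff _ _ (by simp)] at h4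
      simp at h4
    · rw [sq]
      fin_cases i
      · convert Ideal.mul_mem_mul g1 g2 using 1; simp; ring
      · convert Ideal.mul_mem_mul g1 g3 using 1; simp; ring
      · convert Ideal.mul_mem_mul g2 g3 using 1; simp; ring
  refine lt_of_le_of_lt hle ?_
  rw [pow_one]
  refine Nat.lt_of_succ_le (le_csInf (Set.nonempty_of_mem (x := 4) ⟨X 0 ^ 4,
    (isHomogeneous_X K 0).pow 4, colon_eq' K _ _ (fun h => ?_) fun i => ?_⟩) ?_)
  · have := (mem_I K _).1 h (Finsupp.single 0 4) (by simp [X_pow_eq_monomial])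
    simp [P] at this
  · fin_cases i
    · exact Ideal.subset_span (by simp [← pow_succ'])
    · have := Ideal.mul_mem_left _ (X 0 ^ 3) g1
      rw [show (X 0 ^ 3 * (X 0 * X 1) : MvPolynomial (Fin 3) K) = X 1 * X 0 ^ 4 by ring] at this
      exact this
    · have := Ideal.mul_mem_left _ (X 0 ^ 3) g2
      rw [show (X 0 ^ 3 * (X 0 * X 2) : MvPolynomial (Fin 3) K) = X 2 * X 0 ^ 4 by ring] at this
      exact this
  rintro d ⟨f, hf, hc⟩
  by_contra hd
  have hI : f ∈ I K := by
    rw [mem_I]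
    intro m hm
    have hdeg : m 0 + m 1 + m 2 = d := by
      have : Finsupp.weight (fun _ => 1) m = d := hf (mem_support_iff.1 hm)
      rw [← Finsupp.degree_eq_weight_one, Finsupp.degree_eq_sum, Fin.sum_univ_three] at this
      exact this
    have key : ∀ i, P ((Finsupp.single i 1 + m : Fin 3 →₀ ℕ) 0) ((Finsupp.single i 1 + m : Fin 3 →₀ ℕ) 1)
        ((Finsupp.single i 1 + m : Fin 3 →₀ ℕ) 2) := by
      intro i
      have : X i ∈ Submodule.colon (I K) {f} := by rw [hc]; exact Ideal.subset_span ⟨i, rfl⟩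
      rw [Submodule.mem_colon_singleton, smul_eq_mul, mem_I] at this
      exact this _ (by rw [mem_support_iff, coeff_X_mul]; exact mem_support_iff.1 hm)
    have k0 := key 0
    have k1 := key 1
    have k2 := key 2
    simp [P] at k0 k1 k2 ⊢
    omega
  have : (1 : MvPolynomial (Fin 3) K) ∈ idealOfVars (Fin 3) K := by rw [← hc]; simpa using hI
  exact (maxl K).ne_top ((Ideal.eq_top_iff_one _).2 this)

end Pool.Agent.H21.VNumEx
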