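import Pool.Agent.H21.XiZeros

set_option autoImplicit false

open Complex Metric Set Filter Topology

namespace Pool.Agent.H21.Vol

/-- a quotient of entire functions of small exponential type has small exponential type -/
lemma quot_type (f g G : ℂ → ℂ) (hf : Differentiable ℂ f) (hg : Differentiable ℂ g)
    (h0 : ∃ z, g z ≠ 0) (hfg : ∀ z, f z * g z = G z) (M ε : ℝ) (hε : 0 ≤ ε)
    (hgb : ∀ z, ‖g z‖ ≤ M * Real.exp (ε * ‖z‖)) (hGb : ∀ z, ‖G z‖ ≤ M * Real.exp (ε * ‖z‖)) :
    ∃ C : ℝ, ∀ z, ‖f z‖ ≤ C * Real.exp (12 * ε * ‖z‖) := by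
  obtain ⟨c, hc⟩ := h0
  have hc0 : 0 < ‖g c‖ := norm_pos_iff.2 hc
  have hM : 0 < M := by
    have := hc0.trans_le (hgb c)
    exact (mul_pos_iff_of_pos_right (Real.exp_pos _)).1 this
  refine ⟨Real.exp 1 * (M * Real.exp (ε * (7 * ‖c‖ + 6))) ^ 2 / ‖g c‖ ^ 2, fun z => ?_⟩
  set R := ‖z - c‖ + 1 with hR
  have R0 : 0 < R := by positivity
  set B := M * Real.exp (ε * (‖c‖ + 6 * R)) with hB
  have B0 : 0 < B := by positivity
  obtain ⟨n, P, k, -, hk, hk0, hfac, hup, hlow⟩ := Xi.factor_ball g hg ⟨c, hc⟩ c (3 * R) (by positivity)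
  have hP : ∀ w ∈ frontier (ball c (6 * R)), 1 ≤ ‖P w‖ ∧ M * Real.exp (ε * ‖w‖) ≤ B := by
    intro w hw
    rw [frontier_ball c (by positivity)] at hw
    have hw' : ‖w - c‖ = 6 * R := by simpa [dist_eq_norm] using hw
    constructor
    · have := hlow w 1 (by norm_num) fun ρ hρ _ => by
        have hρ' : ‖ρ - c‖ ≤ 3 * R := by simpa [dist_eq_norm] using hρ
        have : ‖w - c‖ ≤ ‖w - ρ‖ + ‖ρ - c‖ := by simpa using norm_add_le (w - ρ) (ρ - c)
        linarith
      simpa using this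
    · have : ‖w‖ ≤ ‖c‖ + 6 * R := by
        have := norm_add_le c (w - c)
        rw [add_sub_cancel] at this; linarith
      rw [hB]; gcongr
  have hkB : ∀ w ∈ ball c (6 * R), ‖k w‖ ≤ B := fun w hw =>
    norm_le_of_forall_mem_frontier_norm_le isBounded_ball hk.diffContOnCl (fun u hu => by
      have h1 := hgb u
      rw [hfac u, norm_mul] at h1
      nlinarith [(hP u hu).1, (hP u hu).2, norm_nonneg (k u)]) (subset_closure hw)
  have hzb : z ∈ ball c (6 * R) := by rw [mem_ball, dist_eq_norm]; linarith [norm_nonneg (z - c)]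
  have hH : ‖f z * k z‖ ≤ B :=
    norm_le_of_forall_mem_frontier_norm_le (f := fun w => f w * k w) isBounded_ball
      (hf.mul hk).diffContOnCl (fun u hu => by
        have h1 := hGb u
        rw [← hfg u, hfac u, show f u * (P u * k u) = P u * (f u * k u) by ring, norm_mul] at h1
        nlinarith [(hP u hu).1, (hP u hu).2, norm_nonneg (f u * k u)]) (subset_closure hzb)
  have hkc : ‖g c‖ ≤ ‖k c‖ := by
    have h1 := hup c 1 fun ρ hρ _ => by
      have hρ' : ‖ρ - c‖ ≤ 3 * R := by simpa [dist_eq_norm] using hρ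
      rw [norm_sub_rev]; linarith
    rw [one_pow] at h1
    rw [hfac c, norm_mul]
    nlinarith [norm_nonneg (k c)]
  obtain ⟨F, hF, hFre⟩ := InnerProductSpace.HarmonicOnNhd.exists_analyticOnNhd_ball_re_eq
    (f := fun z => Real.log ‖k z‖) (z := c) (R := 3 * R)
    (fun z hz => (hk.analyticAt z).harmonicAt_log_norm (hk0 z (ball_subset_closedBall hz)))
  have hmem : ∀ u : ℂ, u ∈ ball (0 : ℂ) (3 * R) → c + u ∈ ball c (3 * R) := by
    intro u hu; simpa [dist_eq_norm] using hu
  have hcb : c ∈ ball c (3 * R) := mem_ball_self (by positivity)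
  have hgB : ‖g c‖ ≤ B := hkc.trans (hkB c (mem_ball_self (by positivity)))
  set m := Real.log B - Real.log ‖g c‖ + 1 with hm
  have m0 : 0 < m := by have := Real.log_le_log hc0 hgB; linarith
  have hFc : Real.log ‖g c‖ ≤ (F c).re := by
    rw [show (F c).re = Real.log ‖k c‖ from hFre hcb]; exact Real.log_le_log hc0 hkc
  have hum : z - c ∈ ball (0 : ℂ) (3 * R) := by
    rw [mem_ball_zero_iff]; linarith [norm_nonneg (z - c)]
  have hbc := borelCaratheodory_zero (f := fun u => F (c + u) - F c) (M := m) m0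
    ((hF.differentiableOn.comp (by fun_prop) hmem).sub (differentiableOn_const _))
    (fun w hw => by
      have hw' := hmem w hw
      have e : (F (c + w)).re = Real.log ‖k (c + w)‖ := hFre hw'
      have h1 := Real.log_le_log (norm_pos_iff.2 (hk0 _ (ball_subset_closedBall hw')))
        (hkB _ (ball_subset_ball (by linarith) hw'))
      show (F (c + w) - F c).re ≤ m
      rw [sub_re]; linarith) (by positivity) hum (by simp)
  have hb2 : ‖F z - F c‖ ≤ m := by
    simp only [add_sub_cancel] at hbc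
    refine hbc.trans ?_
    rw [div_le_iff₀ (by linarith [norm_nonneg (z - c)])]
    nlinarith [norm_nonneg (z - c)]
  have hz3 : z ∈ ball c (3 * R) := by simpa using hmem _ hum
  have hkz0 : 0 < ‖k z‖ := norm_pos_iff.2 (hk0 z (ball_subset_closedBall hz3))
  have hkz : Real.log ‖g c‖ - m ≤ Real.log ‖k z‖ := by
    have h1 := (abs_le.1 ((abs_re_le_norm _).trans hb2)).1
    rw [sub_re, show (F z).re = Real.log ‖k z‖ from hFre hz3] at h1
    linarith
  have hkz2 : ‖g c‖ ^ 2 / (Real.exp 1 * B) ≤ ‖k z‖ := by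
    rw [← Real.log_le_log_iff (by positivity) hkz0, Real.log_div (by positivity) (by positivity),
      Real.log_mul (by positivity) B0.ne', Real.log_pow, Real.log_exp]
    push_cast; linarith
  rw [norm_mul] at hH
  have h3 : ‖f z‖ ≤ Real.exp 1 * B ^ 2 / ‖g c‖ ^ 2 := by
    have : ‖f z‖ * (‖g c‖ ^ 2 / (Real.exp 1 * B)) ≤ B := le_trans (by gcongr) hH
    rw [← mul_div_assoc, div_le_iff₀ (by positivity)] at this
    rw [le_div_iff₀ (by positivity)]; linarith
  refine h3.trans ?_
  have h4 : B ≤ M * Real.exp (ε * (7 * ‖c‖ + 6)) * Real.exp (6 * ε * ‖z‖) := by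
    rw [hB, mul_assoc, ← Real.exp_add]
    gcongr
    have := norm_sub_le z c
    nlinarith
  have e : Real.exp (12 * ε * ‖z‖) = Real.exp (6 * ε * ‖z‖) ^ 2 := by
    rw [← Real.exp_nat_mul]; congr 1; push_cast; ring
  calc Real.exp 1 * B ^ 2 / ‖g c‖ ^ 2
      ≤ Real.exp 1 * (M * Real.exp (ε * (7 * ‖c‖ + 6)) * Real.exp (6 * ε * ‖z‖)) ^ 2 / ‖g c‖ ^ 2 := by
        gcongr
    _ = _ := by rw [e]; ring

/-- an entire function of exponential type zero, bounded on the left half-plane, is constant -/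
lemma const_of_type_zero (f : ℂ → ℂ) (hf : Differentiable ℂ f) (M : ℝ)
    (hl : ∀ z : ℂ, z.re ≤ 0 → ‖f z‖ ≤ M)
    (ht : ∀ ε : ℝ, 0 < ε → ∃ C : ℝ, ∀ z, ‖f z‖ ≤ C * Real.exp (ε * ‖z‖)) (z w : ℂ) : f z = f w := by
  have hr : ∀ z : ℂ, 0 ≤ z.re → ‖f z‖ ≤ M := by
    intro z hz
    have key : ∀ ε : ℝ, 0 < ε → ‖f z * exp (-(ε * z))‖ ≤ M := by
      intro ε hε
      obtain ⟨C, hC⟩ := ht ε hε
      have hn : ∀ u : ℂ, ‖f u * exp (-(ε * u))‖ = ‖f u‖ * Real.exp (-(ε * u.re)) := by
        intro u; rw [norm_mul, Complex.norm_exp]; simp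
      refine PhragmenLindelof.right_half_plane_of_bounded_on_real
        (f := fun u => f u * exp (-(ε * u))) (Differentiable.diffContOnCl (by fun_prop))
        ⟨1, by norm_num, ε, Asymptotics.IsBigO.of_bound C ?_⟩ ⟨C, ?_⟩ (fun x => ?_) hz
      · rw [eventually_inf_principal]
        refine Eventually.of_forall fun u hu => ?_
        have hu' : 0 < u.re := hu
        rw [hn, Real.rpow_one, Real.norm_of_nonneg (Real.exp_pos _).le]
        have : Real.exp (-(ε * u.re)) ≤ 1 := Real.exp_le_one_iff.2 (by nlinarith)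
        nlinarith [hC u, norm_nonneg (f u)]
      · rw [eventually_map]
        filter_upwards [eventually_ge_atTop (0 : ℝ)] with x hx
        rw [hn, ofReal_re]
        have h1 := hC x
        rw [Complex.norm_real, Real.norm_of_nonneg hx] at h1
        calc ‖f x‖ * Real.exp (-(ε * x)) ≤ C * Real.exp (ε * x) * Real.exp (-(ε * x)) := by gcongr
          _ = C := by rw [mul_assoc, ← Real.exp_add]; simp
      · rw [hn]; simpa using hl (x * I) (by simp)
    have hc : Continuous fun ε : ℝ => ‖f z * exp (-(ε * z))‖ := by fun_prop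
    have := le_of_tendsto ((hc.tendsto 0).mono_left (nhdsWithin_le_nhds (s := Ioi 0)))
      (by filter_upwards [self_mem_nhdsWithin] with ε hε using key ε hε)
    simpa using this
  refine hf.apply_eq_apply_of_bounded (isBounded_iff_forall_norm_le.2 ⟨M, ?_⟩) z w
  rintro _ ⟨u, rfl⟩
  rcases le_total u.re 0 with h | h
  · exact hl u h
  · exact hr u h

end Pool.Agent.H21.Vol
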