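import Pool.Agent.H21.VolDef
import Pool.Agent.H21.VolA

set_option autoImplicit false

open MeasureTheory Complex Set Filter Topology
open scoped ENNReal

namespace Pool.Agent.H21.Vol

noncomputable abbrev BM : ℂ →L[ℝ] ℂ →L[ℝ] ℂ := ContinuousLinearMap.mul ℝ ℂ

lemma polar {X : Type} [MeasurableSpace X] (μ : ComplexMeasure X) [IsFiniteMeasure μ.variation] :
    ∃ h : X → ℂ, Integrable h μ.variation ∧ (∀ᵐ x ∂μ.variation, ‖h x‖ = 1) ∧
      μ = μ.variation.withDensityᵥ h := by
  have hac : μ ≪ᵥ μ.variation.toENNRealVectorMeasure := by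
    refine VectorMeasure.AbsolutelyContinuous.mk fun s hs h0 => ?_
    rw [Measure.toENNRealVectorMeasure_apply_measurable hs] at h0
    have := μ.enorm_measure_le_variation s
    rw [h0] at this
    simpa using this
  obtain ⟨h1, h2⟩ := (ComplexMeasure.absolutelyContinuous_ennreal_iff _ _).1 hac
  have hi := ComplexMeasure.integrable_rnDeriv μ μ.variation
  have e : μ = μ.variation.withDensityᵥ (μ.rnDeriv μ.variation) := by
    ext s hs
    rw [withDensityᵥ_apply hi hs]
    have a1 := congrArg (fun ν : SignedMeasure X => ν s) (SignedMeasure.withDensityᵥ_rnDeriv_eq _ _ h1)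
    have a2 := congrArg (fun ν : SignedMeasure X => ν s) (SignedMeasure.withDensityᵥ_rnDeriv_eq _ _ h2)
    simp only [withDensityᵥ_apply (SignedMeasure.integrable_rnDeriv _ _) hs] at a1 a2
    apply Complex.ext
    · exact a1.symm.trans (integral_re (𝕜 := ℂ) hi.integrableOn)
    · exact a2.symm.trans (integral_im (𝕜 := ℂ) hi.integrableOn)
  refine ⟨_, hi, ?_, e⟩
  have e2 := congrArg VectorMeasure.variation e
  rw [Measure.variation_withDensityᵥ hi] at e2
  have e3 : μ.variation.withDensity (fun x => ‖μ.rnDeriv μ.variation x‖ₑ) =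
      μ.variation.withDensity 1 := by rw [withDensity_one]; exact e2.symm
  have := (withDensity_eq_iff_of_sigmaFinite hi.aestronglyMeasurable.enorm aemeasurable_const).1 e3
  filter_upwards [this] with x hx
  have := congrArg ENNReal.toReal hx
  simpa using this

lemma integral_polar {X : Type} [MeasurableSpace X] (μ : VectorMeasure X ℂ)
    [IsFiniteMeasure μ.variation] {h : X → ℂ} (hi : Integrable h μ.variation)
    (h1 : ∀ᵐ x ∂μ.variation, ‖h x‖ = 1) (e : μ = μ.variation.withDensityᵥ h) {φ : X → ℂ}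
    (hφ : Integrable φ μ.variation) :
    μ.integral φ BM = ∫ x, φ x * h x ∂μ.variation := by
  have hint : ∀ {ψ : X → ℂ}, Integrable ψ μ.variation → Integrable (fun x => ψ x * h x) μ.variation :=
    fun hψ => hψ.mul_bdd hi.aestronglyMeasurable (h1.mono fun x hx => hx.le)
  refine Integrable.induction (μ := μ.variation)
    (fun ψ => μ.integral ψ BM = ∫ x, ψ x * h x ∂μ.variation) ?_ ?_ ?_ ?_ hφ
  · intro c s hs _
    rw [VectorMeasure.integral_indicator_const _ hs]
    have : (fun x => s.indicator (fun _ => c) x * h x) = s.indicator fun x => c * h x := by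
      funext x; by_cases hx : x ∈ s <;> simp [hx]
    rw [this, integral_indicator hs, integral_const_mul, ← withDensityᵥ_apply hi hs, ← e]
    simp
  · intro f g _ hf hg e1 e2
    rw [VectorMeasure.integral_add hf hg, e1, e2, ← integral_add (hint hf) (hint hg)]
    simp [add_mul]
  · refine isClosed_eq VectorMeasure.continuous_integral (LipschitzWith.continuous (K := 1)
      (LipschitzWith.of_dist_le_mul fun f g => ?_))
    rw [dist_eq_norm, ← integral_sub (hint (L1.integrable_coeFn f)) (hint (L1.integrable_coeFn g)),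
      L1.dist_eq_integral_dist, NNReal.coe_one, one_mul]
    refine (norm_integral_le_integral_norm _).trans_eq (integral_congr_ae ?_)
    filter_upwards [h1] with x hx
    rw [← sub_mul, norm_mul, hx, mul_one, dist_eq_norm]
  · intro f g hfg _ e1
    rw [← VectorMeasure.integral_congr_ae hfg, e1]
    refine integral_congr_ae ?_
    filter_upwards [hfg] with x hx
    rw [hx]

lemma prod_density {ν₁ ν₂ : Measure ℝ} [IsFiniteMeasure ν₁] [IsFiniteMeasure ν₂] {h₁ h₂ : ℝ → ℂ}
    (i₁ : Integrable h₁ ν₁) (i₂ : Integrable h₂ ν₂) :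
    VectorMeasure.prod (ν₁.withDensityᵥ h₁) (ν₂.withDensityᵥ h₂) BM =
      (ν₁.prod ν₂).withDensityᵥ fun p => h₁ p.1 * h₂ p.2 := by
  refine VectorMeasure.prod_eq_of_forall_apply_prod fun s t hs ht => ?_
  rw [withDensityᵥ_apply (i₁.mul_prod i₂) (hs.prod ht), withDensityᵥ_apply i₁ hs,
    withDensityᵥ_apply i₂ ht, setIntegral_prod_mul]
  simp

/-- untruncated convolution -/
noncomputable def conv (μ ν : ComplexMeasure ℝ) : ComplexMeasure ℝ :=
  (VectorMeasure.prod μ ν BM).map fun p : ℝ × ℝ => p.1 + p.2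

instance (μ ν : ComplexMeasure ℝ) [IsFiniteMeasure μ.variation] [IsFiniteMeasure ν.variation] :
    IsFiniteMeasure (conv μ ν).variation := by unfold conv; infer_instance

/-- Laplace transform -/
noncomputable def LT (μ : ComplexMeasure ℝ) (z : ℂ) : ℂ := μ.integral (fun t : ℝ => exp (z * t)) BM

lemma LT_conv (μ ν : ComplexMeasure ℝ) [IsFiniteMeasure μ.variation] [IsFiniteMeasure ν.variation]
    (z : ℂ) (hμ : Integrable (fun t : ℝ => exp (z * t)) μ.variation)
    (hν : Integrable (fun t : ℝ => exp (z * t)) ν.variation) :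
    LT (conv μ ν) z = LT μ z * LT ν z := by
  obtain ⟨h₁, i₁, n₁, e₁⟩ := polar μ
  obtain ⟨h₂, i₂, n₂, e₂⟩ := polar ν
  have e : VectorMeasure.prod μ ν BM =
      (μ.variation.prod ν.variation).withDensityᵥ fun p => h₁ p.1 * h₂ p.2 := by
    conv_lhs => rw [e₁, e₂]
    exact prod_density i₁ i₂
  have n : ∀ᵐ p ∂(μ.variation.prod ν.variation), ‖h₁ p.1 * h₂ p.2‖ = 1 := by
    filter_upwards [Measure.quasiMeasurePreserving_fst.ae n₁,
      Measure.quasiMeasurePreserving_snd.ae n₂] with p a b
    rw [norm_mul, a, b, mul_one]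
  have ev : (VectorMeasure.prod μ ν BM).variation = μ.variation.prod ν.variation := by
    rw [e, Measure.variation_withDensityᵥ (i₁.mul_prod i₂)]
    rw [withDensity_congr_ae (g := 1), withDensity_one]
    filter_upwards [n] with p hp
    rw [← ofReal_norm_eq_enorm, hp]; simp
  have ee : (fun p : ℝ × ℝ => exp (z * ((p.1 + p.2 : ℝ) : ℂ))) =
      fun p => exp (z * p.1) * exp (z * p.2) := by
    funext p; rw [← exp_add]; push_cast; ring_nf
  have hi : Integrable (fun p : ℝ × ℝ => exp (z * ((p.1 + p.2 : ℝ) : ℂ)))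
      (VectorMeasure.prod μ ν BM).variation := by
    rw [ee, ev]; exact hμ.mul_prod hν
  have hm : Measurable fun p : ℝ × ℝ => p.1 + p.2 := measurable_fst.add measurable_snd
  have hc : Continuous fun t : ℝ => exp (z * t) := by fun_prop
  have s1 : LT (conv μ ν) z = (VectorMeasure.prod μ ν BM).integral
      (fun p : ℝ × ℝ => exp (z * ((p.1 + p.2 : ℝ) : ℂ))) BM :=
    VectorMeasure.integral_map (f := fun t : ℝ => exp (z * t)) hm hc.aestronglyMeasurable hi
  rw [s1, LT, LT,
    integral_polar _ (h := fun p => h₁ p.1 * h₂ p.2) (by rw [ev]; exact i₁.mul_prod i₂)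
      (by rw [ev]; exact n) (by rw [ev]; exact e) hi,
    integral_polar _ i₁ n₁ e₁ hμ, integral_polar _ i₂ n₂ e₂ hν, ev, ← integral_prod_mul]
  refine integral_congr_ae (Eventually.of_forall fun p => ?_)
  have := congrFun ee p
  simp only at this ⊢
  rw [this]; ring

lemma int_char (ν : Measure ℝ) [IsFiniteMeasure ν] (y : ℝ) :
    Integrable (fun t : ℝ => exp (y * I * t)) ν := by
  refine Integrable.of_bound (by fun_prop) 1 (Eventually.of_forall fun t => ?_)
  rw [Complex.norm_exp]; simp

lemma real_unique (ν : Measure ℝ) [IsFiniteMeasure ν] {g : ℝ → ℝ} (hg : Integrable g ν)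
    (h : ∀ y : ℝ, ∫ t : ℝ, exp (y * I * t) * g t ∂ν = 0) : g =ᵐ[ν] 0 := by
  have key : ∀ {k : ℝ → ℝ}, Integrable k ν → ∀ y : ℝ,
      charFun (ν.withDensity fun t => ENNReal.ofReal (k t)) y =
        ∫ t : ℝ, exp (y * I * t) * (max (k t) 0 : ℝ) ∂ν := by
    intro k hk y
    rw [charFun_apply_real, integral_withDensity_eq_integral_toReal_smul₀
      hk.aemeasurable.ennreal_ofReal (by simp)]
    refine integral_congr_ae (Eventually.of_forall fun t => ?_)
    simp only [ENNReal.toReal_ofReal', real_smul]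
    rw [mul_comm]; congr 2; ring
  have i1 : ∀ {k : ℝ → ℝ}, Integrable k ν → ∀ y : ℝ,
      Integrable (fun t : ℝ => exp (y * I * t) * (max (k t) 0 : ℝ)) ν := by
    intro k hk y
    refine Integrable.bdd_mul (c := 1) hk.pos_part.ofReal (by fun_prop)
      (Eventually.of_forall fun t => ?_)
    rw [Complex.norm_exp]; simp
  have := isFiniteMeasure_withDensity_ofReal hg.2
  have := isFiniteMeasure_withDensity_ofReal hg.neg.2
  have e : ν.withDensity (fun t => ENNReal.ofReal (g t)) =
      ν.withDensity fun t => ENNReal.ofReal ((-g) t) := by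
    refine Measure.ext_of_charFun (funext fun y => ?_)
    rw [key hg, key hg.neg, ← sub_eq_zero, ← integral_sub (i1 hg y) (i1 hg.neg y), ← h y]
    refine integral_congr_ae (Eventually.of_forall fun t => ?_)
    simp only [Pi.neg_apply]
    rw [← mul_sub, ← ofReal_sub, max_zero_sub_max_neg_zero_eq_self]
  have := (withDensity_eq_iff_of_sigmaFinite hg.aemeasurable.ennreal_ofReal
    hg.neg.aemeasurable.ennreal_ofReal).1 e
  filter_upwards [this] with t ht
  simp only [Pi.neg_apply] at ht
  rcases le_total (g t) 0 with h0 | h0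
  · rw [ENNReal.ofReal_of_nonpos h0, eq_comm, ENNReal.ofReal_eq_zero] at ht
    show g t = 0
    linarith
  · rw [ENNReal.ofReal_of_nonpos (neg_nonpos.2 h0), ENNReal.ofReal_eq_zero] at ht
    show g t = 0
    linarith

lemma eq_zero_of_LT (μ : ComplexMeasure ℝ) [IsFiniteMeasure μ.variation]
    (h : ∀ y : ℝ, LT μ (y * I) = 0) : μ = 0 := by
  obtain ⟨k, i₁, n₁, e₁⟩ := polar μ
  have h1 : ∀ y : ℝ, ∫ t : ℝ, exp (y * I * t) * k t ∂μ.variation = 0 := fun y => by
    rw [← integral_polar _ i₁ n₁ e₁ (int_char _ y)]; exact h y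
  have h2 : ∀ y : ℝ, ∫ t : ℝ, exp (y * I * t) * (starRingEnd ℂ) (k t) ∂μ.variation = 0 := fun y => by
    have := congrArg (starRingEnd ℂ) (h1 (-y))
    rw [← integral_conj, map_zero] at this
    rw [← this]
    refine integral_congr_ae (Eventually.of_forall fun t => ?_)
    simp only [map_mul, ← exp_conj, conj_ofReal, conj_I]
    congr 2; push_cast; ring
  have ib : ∀ {g : ℝ → ℂ}, Integrable g μ.variation → ∀ y : ℝ,
      Integrable (fun t : ℝ => exp (y * I * t) * g t) μ.variation := by
    intro g hg y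
    refine Integrable.bdd_mul (c := 1) hg (by fun_prop) (Eventually.of_forall fun t => ?_)
    rw [Complex.norm_exp]; simp
  have ic : Integrable (fun t => (starRingEnd ℂ) (k t)) μ.variation :=
    (conjCLE : ℂ →L[ℝ] ℂ).integrable_comp i₁
  have r1 := real_unique μ.variation (g := fun t => (k t).re) i₁.re fun y => by
    have : ∫ t : ℝ, exp (y * I * t) * ((k t).re : ℂ) ∂μ.variation =
        ∫ t : ℝ, (exp (y * I * t) * k t + exp (y * I * t) * (starRingEnd ℂ) (k t)) * (1 / 2)
          ∂μ.variation := by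
      refine integral_congr_ae (Eventually.of_forall fun t => ?_)
      simp only [re_eq_add_conj]; ring
    rw [this, integral_mul_const, integral_add (ib i₁ y) (ib ic y), h1, h2]; simp
  have r2 := real_unique μ.variation (g := fun t => (k t).im) i₁.im fun y => by
    have : ∫ t : ℝ, exp (y * I * t) * ((k t).im : ℂ) ∂μ.variation =
        ∫ t : ℝ, (exp (y * I * t) * k t - exp (y * I * t) * (starRingEnd ℂ) (k t)) * (1 / (2 * I))
          ∂μ.variation := by
      refine integral_congr_ae (Eventually.of_forall fun t => ?_)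
      simp only [im_eq_sub_conj]; ring
    rw [this, integral_mul_const, integral_sub (ib i₁ y) (ib ic y), h1, h2]; simp
  have : k =ᵐ[μ.variation] 0 := by
    filter_upwards [r1, r2] with t a b
    exact Complex.ext a b
  rw [e₁, WithDensityᵥEq.congr_ae this, withDensityᵥ_zero]

lemma ext_LT (μ ν : ComplexMeasure ℝ) [IsFiniteMeasure μ.variation] [IsFiniteMeasure ν.variation]
    (h : ∀ y : ℝ, LT μ (y * I) = LT ν (y * I)) : μ = ν := by
  have : IsFiniteMeasure (μ - ν).variation := isFiniteMeasure_of_le _ VectorMeasure.variation_sub_le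
  refine sub_eq_zero.1 (eq_zero_of_LT _ fun y => ?_)
  unfold LT at h ⊢
  rw [VectorMeasure.integral_sub_vectorMeasure (int_char _ y) (int_char _ y), h, sub_self]

lemma LT_conv' (μ ν : ComplexMeasure ℝ) [IsFiniteMeasure μ.variation] [IsFiniteMeasure ν.variation]
    (y : ℝ) : LT (conv μ ν) (y * I) = LT μ (y * I) * LT ν (y * I) :=
  LT_conv μ ν _ (int_char _ y) (int_char _ y)

lemma conv_comm (μ ν : ComplexMeasure ℝ) [IsFiniteMeasure μ.variation]
    [IsFiniteMeasure ν.variation] : conv μ ν = conv ν μ :=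
  ext_LT _ _ fun y => by rw [LT_conv', LT_conv', mul_comm]

lemma conv_assoc (μ ν ρ : ComplexMeasure ℝ) [IsFiniteMeasure μ.variation]
    [IsFiniteMeasure ν.variation] [IsFiniteMeasure ρ.variation] :
    conv (conv μ ν) ρ = conv μ (conv ν ρ) :=
  ext_LT _ _ fun y => by simp only [LT_conv', mul_assoc]

lemma var_conv_le (μ ν : ComplexMeasure ℝ) [IsFiniteMeasure μ.variation]
    [IsFiniteMeasure ν.variation] : (conv μ ν).variation ≤ μ.variation.conv ν.variation := by
  refine VectorMeasure.variation_map_le.trans (Measure.map_mono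
    (VectorMeasure.variation_prod_le.trans ?_) measurable_add)
  have : ‖BM‖ₑ = 1 := by
    rw [← ofReal_norm_eq_enorm, ContinuousLinearMap.opNorm_mul]; simp
  rw [this, one_smul]

lemma conv_null {α β : Measure ℝ} [SFinite β] {S A B : Set ℝ} (hS : MeasurableSet S)
    (hA : α A = 0) (hB : β B = 0) (h : ∀ s t, s + t ∈ S → s ∈ A ∨ t ∈ B) : α.conv β S = 0 := by
  rw [Measure.conv, Measure.map_apply measurable_add hS]
  refine measure_mono_null (t := A ×ˢ univ ∪ univ ×ˢ B) (fun p hp => ?_) (measure_union_null ?_ ?_)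
  · rcases h _ _ hp with h | h
    · exact Or.inl ⟨h, trivial⟩
    · exact Or.inr ⟨trivial, h⟩
  · rw [Measure.prod_prod, hA, zero_mul]
  · rw [Measure.prod_prod, hB, mul_zero]

/-- restriction to `(0,1)` -/
noncomputable abbrev RR (μ : ComplexMeasure ℝ) : ComplexMeasure ℝ := μ.restrict (Ioo 0 1)

lemma tconv_eq (μ ν : ComplexMeasure ℝ) : tconv μ ν = RR (conv μ ν) := rfl

lemma restrict_eq_self {μ : ComplexMeasure ℝ} (h : μ.variation (Ioo 0 1)ᶜ = 0) : RR μ = μ := by
  have h1 : μ.restrict (Ioo 0 1)ᶜ = 0 := by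
    rw [← VectorMeasure.variation_eq_zero, VectorMeasure.variation_restrict measurableSet_Ioo.compl,
      Measure.restrict_eq_zero, h]
  have := VectorMeasure.restrict_add_restrict_compl (v := μ) (measurableSet_Ioo (a := (0 : ℝ)) (b := 1))
  rwa [h1, add_zero] at this

lemma RR_conv_RR (μ ν : ComplexMeasure ℝ) [IsFiniteMeasure μ.variation]
    [IsFiniteMeasure ν.variation] (hμ : μ.variation (Iic 0) = 0) (hν : ν.variation (Iic 0) = 0) :
    RR (conv (RR μ) ν) = RR (conv μ ν) := by
  set ρ : ComplexMeasure ℝ := μ.restrict (Ioo 0 1)ᶜ with hρ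
  have : IsFiniteMeasure (conv (RR μ) ν + conv ρ ν).variation :=
    isFiniteMeasure_of_le _ VectorMeasure.variation_add_le
  have e : conv μ ν = conv (RR μ) ν + conv ρ ν := by
    refine ext_LT _ _ fun y => ?_
    have a : LT (conv (RR μ) ν + conv ρ ν) (y * I) =
        LT (conv (RR μ) ν) (y * I) + LT (conv ρ ν) (y * I) :=
      VectorMeasure.integral_add_vectorMeasure (int_char _ y) (int_char _ y)
    have b : LT (RR μ + ρ) (y * I) = LT (RR μ) (y * I) + LT ρ (y * I) :=
      VectorMeasure.integral_add_vectorMeasure (int_char _ y) (int_char _ y)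
    rw [a, LT_conv', LT_conv', LT_conv', ← add_mul, ← b, hρ,
      VectorMeasure.restrict_add_restrict_compl measurableSet_Ioo]
  have z : RR (conv ρ ν) = 0 := by
    rw [← VectorMeasure.variation_eq_zero, VectorMeasure.variation_restrict measurableSet_Ioo,
      Measure.restrict_eq_zero]
    refine le_antisymm ((var_conv_le ρ ν _).trans_eq (conv_null (A := Iio 1) (B := Iic 0)
      measurableSet_Ioo ?_ hν fun s t h => ?_)) zero_le
    · rw [hρ, VectorMeasure.variation_restrict measurableSet_Ioo.compl,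
        Measure.restrict_apply measurableSet_Iio]
      refine measure_mono_null (fun s hs => ?_) hμ
      by_contra h0
      exact hs.2 ⟨not_le.1 h0, hs.1⟩
    · by_contra hc
      push Not at hc
      have a1 : 1 ≤ s := not_lt.1 hc.1
      have a2 : 0 < t := not_le.1 hc.2
      linarith [h.2]
  rw [e]
  have := VectorMeasure.restrict_add (conv (RR μ) ν) (conv ρ ν) (Ioo (0 : ℝ) 1)
  exact (this.trans (by rw [show VectorMeasure.restrict (conv ρ ν) (Ioo 0 1) = 0 from z, add_zero])).symm

end Pool.Agent.H21.Vol
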