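import Pool.Agent.H21.VolB

set_option autoImplicit false

open MeasureTheory Complex Set Filter Topology
open scoped ENNReal

namespace Pool.Agent.H21.Vol

noncomputable def cpow (a : ComplexMeasure ℝ) : ℕ → ComplexMeasure ℝ
  | 0 => a
  | n + 1 => conv (cpow a n) a

instance cpow_fin (a : ComplexMeasure ℝ) [IsFiniteMeasure a.variation] (n : ℕ) :
    IsFiniteMeasure (cpow a n).variation := by
  induction n with
  | zero => exact ‹_›
  | succ n ih => unfold cpow; infer_instance

lemma conv_pos (μ ν : ComplexMeasure ℝ) [IsFiniteMeasure μ.variation] [IsFiniteMeasure ν.variation]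
    (hμ : μ.variation (Iic 0) = 0) (hν : ν.variation (Iic 0) = 0) :
    (conv μ ν).variation (Iic 0) = 0 := by
  refine le_antisymm ((var_conv_le μ ν _).trans_eq (conv_null measurableSet_Iic hμ hν
    fun s t h => ?_)) zero_le
  by_contra hc
  push Not at hc
  have a1 : 0 < s := not_le.1 hc.1
  have a2 : 0 < t := not_le.1 hc.2
  have : s + t ≤ 0 := h
  linarith

lemma good_pos {a : ComplexMeasure ℝ} (h : a.variation (Ioo 0 1)ᶜ = 0) : a.variation (Iic 0) = 0 :=
  measure_mono_null (t := (Ioo 0 1)ᶜ) (fun _ hs h' => not_le.2 h'.1 hs) h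

lemma RR_good (μ : ComplexMeasure ℝ) : (RR μ).variation (Ioo 0 1)ᶜ = 0 := by
  rw [VectorMeasure.variation_restrict measurableSet_Ioo,
    Measure.restrict_apply measurableSet_Ioo.compl]
  simp

section
variable (a : ComplexMeasure ℝ) [IsFiniteMeasure a.variation] (ha : a.variation (Ioo 0 1)ᶜ = 0)
include ha

lemma cpow_pos (n : ℕ) : (cpow a n).variation (Iic 0) = 0 := by
  induction n with
  | zero => exact good_pos ha
  | succ n ih => exact conv_pos _ _ ih (good_pos ha)

omit ha in
lemma LT_cpow (n : ℕ) (y : ℝ) : LT (cpow a n) (y * I) = LT a (y * I) ^ (n + 1) := by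
  induction n with
  | zero => simp [cpow]
  | succ n ih => rw [cpow, LT_conv', ih, pow_succ _ (n + 1)]

lemma mpow_eq (n : ℕ) : mpow a n = RR (cpow a n) := by
  induction n with
  | zero => exact (restrict_eq_self ha).symm
  | succ n ih =>
    rw [mpow, ih, tconv_eq, RR_conv_RR _ _ (cpow_pos a ha n) (good_pos ha), cpow]

lemma mpow_fin (n : ℕ) : IsFiniteMeasure (mpow a n).variation := by
  rw [mpow_eq a ha]; infer_instance

lemma mpow_good (n : ℕ) : (mpow a n).variation (Ioo 0 1)ᶜ = 0 := by
  rw [mpow_eq a ha]; exact RR_good _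

lemma mpow_add (m n : ℕ) : mpow a (m + n + 1) = tconv (mpow a m) (mpow a n) := by
  have e : cpow a (m + n + 1) = conv (cpow a m) (cpow a n) :=
    ext_LT _ _ fun y => by rw [LT_conv', LT_cpow, LT_cpow, LT_cpow, ← pow_add]; congr 1; ring
  rw [mpow_eq a ha, mpow_eq a ha, mpow_eq a ha, tconv_eq,
    RR_conv_RR _ _ (cpow_pos a ha m) (good_pos (RR_good _)), conv_comm,
    RR_conv_RR _ _ (cpow_pos a ha n) (cpow_pos a ha m), conv_comm, e]

lemma mpow_mpow (n j : ℕ) : mpow (mpow a n) j = mpow a (j * (n + 1) + n) := by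
  induction j with
  | zero => simp [mpow]
  | succ j ih => rw [mpow, ih, ← mpow_add a ha]; congr 1; ring

lemma supp_of_norm (j : ℕ) (c : ℝ) (hc : 1 ≤ (j + 1) * c)
    (h : (mpow a j).variation univ = a.variation univ ^ (j + 1)) : a.variation (Ici c) = 0 := by
  set β := a.variation with hβ
  have key : ∀ k : ℕ, ∃ π : Measure ℝ, IsFiniteMeasure π ∧ π univ = β univ ^ (k + 1) ∧
      β (Ici c) ^ (k + 1) ≤ π (Ici ((k + 1) * c)) ∧ (mpow a k).variation ≤ π := by
    intro k
    induction k with
    | zero => exact ⟨β, ‹_›, by simp, by simp, le_rfl⟩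
    | succ k ih =>
      obtain ⟨π, h1, h2, h3, h4⟩ := ih
      have := mpow_fin a ha k
      refine ⟨π.conv β, inferInstance, ?_, ?_, ?_⟩
      · rw [Measure.conv, Measure.map_apply measurable_add MeasurableSet.univ, preimage_univ,
          ← univ_prod_univ, Measure.prod_prod, h2, pow_succ _ (k + 1)]
      · rw [Measure.conv, Measure.map_apply measurable_add measurableSet_Ici, pow_succ _ (k + 1)]
        refine le_trans ?_ (measure_mono (s := Ici ((k + 1) * c) ×ˢ Ici c) fun p hp => ?_)
        · rw [Measure.prod_prod]; gcongr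
        · have a1 : (k + 1) * c ≤ p.1 := hp.1
          have a2 : c ≤ p.2 := hp.2
          show ((k + 1 : ℕ) + 1) * c ≤ p.1 + p.2
          push_cast; linarith
      · rw [mpow, tconv_eq]
        refine VectorMeasure.variation_restrict_le.trans (Measure.restrict_le_self.trans
          ((var_conv_le _ _).trans (Measure.map_mono (Measure.prod_mono h4 le_rfl) measurable_add)))
  obtain ⟨π, h1, h2, h3, h4⟩ := key j
  have a1 : (mpow a j).variation univ ≤ π (Ioo 0 1) := by
    rw [← measure_add_measure_compl (μ := (mpow a j).variation) (measurableSet_Ioo (a := (0 : ℝ)) (b := 1)),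
      mpow_good a ha, add_zero]
    exact h4 _
  have a2 : π (Ioo 0 1) + β (Ici c) ^ (j + 1) ≤ π univ := by
    rw [← measure_add_measure_compl (μ := π) (measurableSet_Ioo (a := (0 : ℝ)) (b := 1))]
    gcongr
    exact h3.trans (measure_mono fun x hx h' => not_le.2 h'.2 (hc.trans hx))
  rw [h, ← h2] at a1
  have a3 : π univ + β (Ici c) ^ (j + 1) ≤ π univ + 0 := by
    rw [add_zero]; exact le_trans (by gcongr) a2
  have a4 := (ENNReal.add_le_add_iff_left (measure_ne_top π univ)).1 a3
  exact pow_eq_zero_iff (Nat.succ_ne_zero j) |>.1 (le_antisymm a4 zero_le)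

lemma ae_mem : ∀ᵐ t ∂a.variation, t ∈ Ioo (0 : ℝ) 1 := ha

lemma int_exp (z : ℂ) : Integrable (fun t : ℝ => exp (z * t)) a.variation := by
  refine Integrable.of_bound (by fun_prop) (Real.exp ‖z‖) ?_
  filter_upwards [ae_mem a ha] with t ht
  refine (norm_exp_le_exp_norm _).trans (Real.exp_le_exp.2 ?_)
  rw [norm_mul, Complex.norm_real, Real.norm_of_nonneg ht.1.le]
  nlinarith [norm_nonneg z, ht.2]

omit ha in
lemma LT_le (z : ℂ) (C : ℝ) (h : ∀ᵐ t ∂a.variation, ‖exp (z * (t : ℝ))‖ ≤ C) :
    ‖LT a z‖ ≤ a.variation.real univ * C := by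
  have := VectorMeasure.norm_integral_le_of_norm_le_const (B := BM) h
  rwa [ContinuousLinearMap.opNorm_mul, mul_one, mul_comm] at this

lemma LT_left (z : ℂ) (hz : z.re ≤ 0) : ‖LT a z‖ ≤ a.variation.real univ := by
  have := LT_le a z 1 (by
    filter_upwards [ae_mem a ha] with t ht
    rw [Complex.norm_exp, Real.exp_le_one_iff]
    simp only [mul_re, ofReal_re, ofReal_im, mul_zero, sub_zero]
    nlinarith [ht.1])
  rwa [mul_one] at this

lemma LT_type (ε : ℝ) (h : a.variation (Ici ε) = 0) (z : ℂ) :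
    ‖LT a z‖ ≤ a.variation.real univ * Real.exp (ε * ‖z‖) := by
  refine LT_le a z _ ?_
  have h' : ∀ᵐ t ∂a.variation, t ∉ Ici ε := measure_eq_zero_iff_ae_notMem.1 h
  filter_upwards [ae_mem a ha, h'] with t ht h2
  refine (norm_exp_le_exp_norm _).trans (Real.exp_le_exp.2 ?_)
  rw [norm_mul, Complex.norm_real, Real.norm_of_nonneg ht.1.le]
  have : t < ε := not_le.1 h2
  nlinarith [norm_nonneg z]

lemma LT_diff : Differentiable ℂ (LT a) := by
  obtain ⟨k, i₁, n₁, e₁⟩ := polar a
  have e : LT a = fun z => ∫ t : ℝ, exp (z * t) * k t ∂a.variation :=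
    funext fun z => integral_polar _ i₁ n₁ e₁ (int_exp a ha z)
  rw [e]
  intro z
  refine (hasDerivAt_integral_of_dominated_loc_of_deriv_le (s := Metric.ball z 1)
    (F := fun w (t : ℝ) => exp (w * t) * k t) (F' := fun w (t : ℝ) => exp (w * t) * t * k t)
    (bound := fun _ => Real.exp (‖z‖ + 1)) (Metric.ball_mem_nhds z one_pos)
    (Eventually.of_forall fun w => ?_) ?_ ?_ ?_ (integrable_const _) ?_).2.differentiableAt
  · exact (int_exp a ha w).1.mul i₁.1
  · exact (int_exp a ha z).mul_bdd i₁.1 (n₁.mono fun x hx => hx.le)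
  · exact ((int_exp a ha z).1.mul continuous_ofReal.aestronglyMeasurable).mul i₁.1
  · filter_upwards [ae_mem a ha, n₁] with t ht hk w hw
    have hw' : ‖w‖ ≤ ‖z‖ + 1 := by
      have := norm_le_norm_add_norm_sub' w z
      rw [Metric.mem_ball, dist_eq_norm] at hw
      linarith
    rw [norm_mul, norm_mul, hk, mul_one, Complex.norm_real, Real.norm_of_nonneg ht.1.le]
    have : ‖exp (w * t)‖ ≤ Real.exp (‖z‖ + 1) := by
      refine (norm_exp_le_exp_norm _).trans (Real.exp_le_exp.2 ?_)
      rw [norm_mul, Complex.norm_real, Real.norm_of_nonneg ht.1.le]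
      nlinarith [norm_nonneg w, ht.2]
    nlinarith [ht.1, ht.2, norm_nonneg (exp (w * t))]
  · refine Eventually.of_forall fun t w _ => ?_
    simpa using (((hasDerivAt_id w).mul_const (t : ℂ)).cexp).mul_const (k t)

lemma LT_tendsto : Tendsto (fun n : ℕ => LT a (-(n : ℂ))) atTop (𝓝 0) := by
  have h1 : Tendsto (fun n : ℕ => ∫ t : ℝ, Real.exp (-t) ^ n ∂a.variation) atTop
      (𝓝 (∫ _ : ℝ, (0 : ℝ) ∂a.variation)) := by
    refine tendsto_integral_of_dominated_convergence (fun _ => 1) (fun n => by fun_prop)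
      (integrable_const _) (fun n => ?_) ?_
    · filter_upwards [ae_mem a ha] with t ht
      rw [Real.norm_of_nonneg (by positivity)]
      exact pow_le_one₀ (by positivity) (Real.exp_le_one_iff.2 (by linarith [ht.1]))
    · filter_upwards [ae_mem a ha] with t ht
      exact tendsto_pow_atTop_nhds_zero_of_lt_one (by positivity)
        (Real.exp_lt_one_iff.2 (by linarith [ht.1]))
  rw [integral_zero] at h1
  refine squeeze_zero_norm (fun n => ?_) h1
  have := VectorMeasure.norm_integral_le_integral_norm (B := BM) (μ := a)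
    (f := fun t : ℝ => exp (-(n : ℂ) * t))
  rw [ContinuousLinearMap.opNorm_mul, one_mul] at this
  refine this.trans_eq (integral_congr_ae (Eventually.of_forall fun t => ?_))
  simp only
  rw [Complex.norm_exp, ← Real.exp_nat_mul]; congr 1; simp

/-- main obstruction -/
theorem obstruction (h2 : (mpow a 1).variation univ = a.variation univ ^ 2)
    (h : ∀ j : ℕ, ∃ n : ℕ, mpow a n ≠ 0 ∧
      (mpow a (j * (n + 1) + n)).variation univ = (mpow a n).variation univ ^ (j + 1) ∧
      (mpow a (j * (n + 1 + 1) + (n + 1))).variation univ =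
        (mpow a (n + 1)).variation univ ^ (j + 1)) : a = 0 := by
  have s1 := supp_of_norm a ha 1 (1 / 2) (by norm_num) h2
  have ht : ∀ ε : ℝ, 0 < ε → ∃ C : ℝ, ∀ z, ‖LT a z‖ ≤ C * Real.exp (ε * ‖z‖) := by
    intro ε hε
    set δ := min (ε / 12) (1 / 2) with hδ
    have δ0 : 0 < δ := lt_min (by positivity) (by norm_num)
    obtain ⟨j, hj⟩ := exists_nat_ge (1 / δ)
    have hj' : 1 ≤ (j + 1) * δ := by rw [div_le_iff₀ δ0] at hj; nlinarith
    obtain ⟨n, n0, n1, n2⟩ := h j
    have f1 := mpow_fin a ha n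
    have f2 := mpow_fin a ha (n + 1)
    rw [← mpow_mpow a ha] at n1 n2
    have t1 := supp_of_norm _ (mpow_good a ha n) j δ hj' n1
    have t2 := supp_of_norm _ (mpow_good a ha (n + 1)) j δ hj' n2
    have e : mpow a (n + 1) = conv (mpow a n) a := by
      rw [mpow, tconv_eq]
      refine restrict_eq_self (le_antisymm ((var_conv_le _ _ _).trans_eq
        (conv_null (A := Iic 0 ∪ Ici δ) (B := Iic 0 ∪ Ici (1 / 2)) measurableSet_Ioo.compl
          (measure_union_null (good_pos (mpow_good a ha n)) t1)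
          (measure_union_null (good_pos ha) s1) fun s t hst => ?_)) zero_le)
      by_contra hc
      simp only [mem_union, mem_Iic, mem_Ici, not_or, not_le] at hc
      have : δ ≤ 1 / 2 := min_le_right _ _
      exact hst ⟨by linarith [hc.1.1, hc.2.1], by linarith [hc.1.2, hc.2.2]⟩
    obtain ⟨C, hC⟩ := quot_type (LT a) (LT (mpow a n)) (LT (mpow a (n + 1))) (LT_diff a ha)
      (LT_diff _ (mpow_good a ha n))
      (by
        by_contra hc
        push Not at hc
        exact n0 (eq_zero_of_LT _ fun y => hc _))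
      (fun z => by
        rw [e, LT_conv _ _ z (int_exp _ (mpow_good a ha n) z) (int_exp a ha z), mul_comm])
      (max ((mpow a n).variation.real univ) ((mpow a (n + 1)).variation.real univ)) δ δ0.le
      (fun z => (LT_type _ (mpow_good a ha n) δ t1 z).trans (by gcongr; exact le_max_left _ _))
      (fun z => (LT_type _ (mpow_good a ha (n + 1)) δ t2 z).trans (by gcongr; exact le_max_right _ _))
    refine ⟨max C 0, fun z => (hC z).trans ?_⟩
    have : δ ≤ ε / 12 := min_le_left _ _
    gcongr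
    · exact le_max_left _ _
    · linarith
  have hc := const_of_type_zero _ (LT_diff a ha) _ (LT_left a ha) ht
  refine eq_zero_of_LT a fun y => ?_
  exact tendsto_nhds_unique tendsto_const_nhds ((LT_tendsto a ha).congr fun n => hc _ _)

end

/-- embedding of `L¹[0,1]` -/
noncomputable def emb (f : ℝ → ℂ) : ComplexMeasure ℝ :=
  (volume : Measure ℝ).withDensityᵥ ((Ioo 0 1).indicator f)

lemma emb_var {f : ℝ → ℂ} (hf : IntegrableOn f (Ioo 0 1)) {S : Set ℝ} (hS : MeasurableSet S) :
    (emb f).variation S = ∫⁻ t in S, ‖(Ioo 0 1).indicator f t‖ₑ := by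
  rw [emb, Measure.variation_withDensityᵥ (hf.integrable_indicator measurableSet_Ioo),
    withDensity_apply _ hS]

lemma emb_norm {f : ℝ → ℂ} (hf : IntegrableOn f (Ioo 0 1)) :
    (emb f).variation univ = ENNReal.ofReal (∫ t in (0 : ℝ)..1, ‖f t‖) := by
  rw [emb_var hf MeasurableSet.univ, Measure.restrict_univ,
    intervalIntegral.integral_of_le zero_le_one, integral_Ioc_eq_integral_Ioo,
    ofReal_integral_norm_eq_lintegral_enorm hf, ← lintegral_indicator measurableSet_Ioo]
  congr 1; funext t; exact enorm_indicator_eq_indicator_enorm _ _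

lemma emb_good {f : ℝ → ℂ} (hf : IntegrableOn f (Ioo 0 1)) : (emb f).variation (Ioo 0 1)ᶜ = 0 := by
  rw [emb_var hf measurableSet_Ioo.compl]
  refine setLIntegral_eq_zero measurableSet_Ioo.compl fun t ht => ?_
  simp [indicator_of_notMem ht]

lemma emb_fin {f : ℝ → ℂ} (hf : IntegrableOn f (Ioo 0 1)) : IsFiniteMeasure (emb f).variation :=
  ⟨by rw [emb_norm hf]; exact ENNReal.ofReal_lt_top⟩

lemma conv_wd {F G : ℝ → ℂ} (hF : Integrable F) (hG : Integrable G) :
    Integrable (fun t => ∫ s, F s * G (t - s)) ∧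
    conv ((volume : Measure ℝ).withDensityᵥ F) ((volume : Measure ℝ).withDensityᵥ G) =
      (volume : Measure ℝ).withDensityᵥ fun t => ∫ s, F s * G (t - s) := by
  have hmp := measurePreserving_prod_add (volume : Measure ℝ) (volume : Measure ℝ)
  have hemb : MeasurableEmbedding fun z : ℝ × ℝ => (z.1, z.1 + z.2) :=
    (MeasurableEquiv.shearAddRight ℝ).measurableEmbedding
  set K : ℝ × ℝ → ℂ := fun q => F q.1 * G (q.2 - q.1) with hK
  have hKc : (K ∘ fun z : ℝ × ℝ => (z.1, z.1 + z.2)) = fun p => F p.1 * G p.2 := by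
    funext p; simp [hK]
  have hKi : Integrable K ((volume : Measure ℝ).prod volume) := by
    rw [← hmp.integrable_comp_emb hemb, hKc]; exact hF.mul_prod hG
  refine ⟨hKi.integral_prod_right, ?_⟩
  have e : VectorMeasure.prod ((volume : Measure ℝ).withDensityᵥ F)
      ((volume : Measure ℝ).withDensityᵥ G) BM =
      ((volume : Measure ℝ).prod volume).withDensityᵥ fun p => F p.1 * G p.2 := by
    refine VectorMeasure.prod_eq_of_forall_apply_prod fun s t hs ht => ?_
    rw [withDensityᵥ_apply (hF.mul_prod hG) (hs.prod ht), withDensityᵥ_apply hF hs,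
      withDensityᵥ_apply hG ht, setIntegral_prod_mul]
    simp
  ext E hE
  have hm : Measurable fun p : ℝ × ℝ => p.1 + p.2 := measurable_fst.add measurable_snd
  rw [conv, e, VectorMeasure.map_apply _ hm hE, withDensityᵥ_apply (hF.mul_prod hG) (hm hE),
    withDensityᵥ_apply hKi.integral_prod_right hE]
  have h1 := hmp.setIntegral_preimage_emb hemb K (univ ×ˢ E)
  have h2 : (fun z : ℝ × ℝ => (z.1, z.1 + z.2)) ⁻¹' (univ ×ˢ E) = (fun p : ℝ × ℝ => p.1 + p.2) ⁻¹' E := by
    ext p; simp
  rw [h2] at h1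
  have h3 : ∫ q in univ ×ˢ E, K q ∂((volume : Measure ℝ).prod volume) =
      ∫ t in E, ∫ s, F s * G (t - s) := by
    rw [← Measure.prod_restrict, integral_prod_symm _ (by
      rw [Measure.prod_restrict]; exact hKi.integrableOn), Measure.restrict_univ]
  rw [← h3, ← h1]
  exact congrArg (fun k : ℝ × ℝ → ℂ => ∫ p in (fun p : ℝ × ℝ => p.1 + p.2) ⁻¹' E, k p
    ∂((volume : Measure ℝ).prod volume)) hKc.symm

lemma emb_tconv {f g : ℝ → ℂ} (hf : IntegrableOn f (Ioo 0 1)) (hg : IntegrableOn g (Ioo 0 1)) :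
    IntegrableOn (vconv f g) (Ioo 0 1) ∧ tconv (emb f) (emb g) = emb (vconv f g) := by
  have := emb_fin hf
  have := emb_fin hg
  obtain ⟨h1, h2⟩ := conv_wd (hg.integrable_indicator measurableSet_Ioo)
    (hf.integrable_indicator measurableSet_Ioo)
  set C : ℝ → ℂ := fun t => ∫ s, (Ioo 0 1).indicator g s * (Ioo 0 1).indicator f (t - s) with hC
  have e : ∀ t ∈ Ioo (0 : ℝ) 1, C t = vconv f g t := by
    intro t ht
    rw [vconv, intervalIntegral.integral_of_le ht.1.le, integral_Ioc_eq_integral_Ioo,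
      ← integral_indicator measurableSet_Ioo]
    refine integral_congr_ae (Eventually.of_forall fun s => ?_)
    by_cases hs : s ∈ Ioo 0 t
    · simp only
      rw [indicator_of_mem hs, indicator_of_mem (show s ∈ Ioo 0 1 from ⟨hs.1, hs.2.trans ht.2⟩),
        indicator_of_mem (show t - s ∈ Ioo 0 1 from ⟨by linarith [hs.2], by linarith [hs.1, ht.2]⟩),
        mul_comm]
    · simp only
      rw [indicator_of_notMem hs]
      by_cases h0 : 0 < s
      · rw [indicator_of_notMem (show t - s ∉ Ioo 0 1 from fun h' => hs ⟨h0, by linarith [h'.1]⟩),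
          mul_zero]
      · rw [indicator_of_notMem (show s ∉ Ioo 0 1 from fun h' => h0 h'.1), zero_mul]
  have hi : IntegrableOn (vconv f g) (Ioo 0 1) := h1.integrableOn.congr_fun e measurableSet_Ioo
  refine ⟨hi, ?_⟩
  rw [tconv_eq, conv_comm, emb, emb, h2]
  ext E hE
  rw [VectorMeasure.restrict_apply _ measurableSet_Ioo hE,
    withDensityᵥ_apply h1 (hE.inter measurableSet_Ioo), emb,
    withDensityᵥ_apply (hi.integrable_indicator measurableSet_Ioo) hE,
    setIntegral_indicator measurableSet_Ioo]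
  exact setIntegral_congr_fun (hE.inter measurableSet_Ioo) fun t ht => e t ht.2

lemma emb_vpow {f : ℝ → ℂ} (hf : IntegrableOn f (Ioo 0 1)) (n : ℕ) :
    IntegrableOn (vpow f n) (Ioo 0 1) ∧ mpow (emb f) n = emb (vpow f n) := by
  induction n with
  | zero => exact ⟨hf, rfl⟩
  | succ n ih =>
    refine ⟨(emb_tconv ih.1 hf).1, ?_⟩
    rw [mpow, ih.2, vpow, (emb_tconv ih.1 hf).2]

end Pool.Agent.H21.Vol
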