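import Mathlib

set_option autoImplicit false

open MeasureTheory

namespace Pool.Agent.H21.Vol

/-- truncated convolution of complex measures: `(μ × ν){(s,t) : s + t ∈ E}` for `E ⊆ (0,1)` -/
noncomputable def tconv (μ ν : ComplexMeasure ℝ) : ComplexMeasure ℝ :=
  ((VectorMeasure.prod μ ν (ContinuousLinearMap.mul ℝ ℂ)).map fun p : ℝ × ℝ => p.1 + p.2).restrict
    (Set.Ioo 0 1)

/-- `mpow μ n` is the `(n+1)`-fold truncated convolution power of `μ` -/
noncomputable def mpow (μ : ComplexMeasure ℝ) : ℕ → ComplexMeasure ℝ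
  | 0 => μ
  | n + 1 => tconv (mpow μ n) μ

/-- Volterra convolution -/
noncomputable def vconv (f g : ℝ → ℂ) (t : ℝ) : ℂ := ∫ s in (0 : ℝ)..t, f (t - s) * g s

/-- `vpow f n` is the `(n+1)`-fold Volterra convolution power of `f` -/
noncomputable def vpow (f : ℝ → ℂ) : ℕ → ℝ → ℂ
  | 0 => f
  | n + 1 => vconv (vpow f n) f

end Pool.Agent.H21.Vol
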