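import Pool.Agent.H21.WTDef

set_option autoImplicit false

namespace Pool.Agent.H21.WT

open Polynomial

def O (p : ℕ) [Fact p.Prime] : Subring ℚ where
  carrier := {x | padicNorm p x ≤ 1}
  mul_mem' := fun {a b} ha hb => by
    simp only [Set.mem_setOf_eq, padicNorm.mul] at *
    exact mul_le_one₀ ha (padicNorm.nonneg _) hb
  one_mem' := by simp
  add_mem' := fun ha hb => padicNorm.nonarchimedean.trans (max_le ha hb)
  zero_mem' := by simp
  neg_mem' := fun ha => by simpa using ha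

noncomputable def T (p : ℕ) [Fact p.Prime] : Subring ℚ[X] := (mapRingHom (O p).subtype).range

variable {p : ℕ} [hp : Fact p.Prime]

lemma mem_O {x : ℚ} : x ∈ O p ↔ padicNorm p x ≤ 1 := Iff.rfl

lemma mem_T {f : ℚ[X]} : f ∈ T p ↔ ∀ i, f.coeff i ∈ O p := by
  rw [T, mem_map_range]; simp

lemma C_mem {x : ℚ} (h : x ∈ O p) : C x ∈ T p := ⟨C ⟨x, h⟩, by simp⟩
lemma X_mem : X ∈ T p := ⟨X, by simp⟩

lemma comp_mem {f g : ℚ[X]} (hf : f ∈ T p) (hg : g ∈ T p) : f.comp g ∈ T p := by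
  obtain ⟨f, rfl⟩ := hf
  obtain ⟨g, rfl⟩ := hg
  exact ⟨f.comp g, by simp [map_comp]⟩

lemma eval_mem {f : ℚ[X]} (hf : f ∈ T p) (a : ℤ) : f.eval (a : ℚ) ∈ O p := by
  have := mem_T.1 (comp_mem hf (C_mem (intCast_mem (O p) a))) 0
  simpa [coeff_zero_eq_eval_zero, eval_comp] using this

lemma norm_pow (x : ℚ) (n : ℕ) : padicNorm p (x ^ n) = padicNorm p x ^ n := by
  induction n with
  | zero => simp
  | succ n ih => rw [pow_succ, padicNorm.mul, ih, pow_succ]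

lemma norm_inv (x : ℚ) : padicNorm p x⁻¹ = (padicNorm p x)⁻¹ := by
  simpa using padicNorm.div (p := p) 1 x

lemma ex_not {x : ℚ} (hx : x ≠ 0) : ∃ n : ℕ, ((p : ℚ) ^ n)⁻¹ * x ∉ O p := by
  have h0 : 0 < padicNorm p x := (padicNorm.nonneg _).lt_of_ne' (padicNorm.nonzero hx)
  have h1 : (1 : ℚ) < p := by exact_mod_cast hp.out.one_lt
  obtain ⟨n, hn⟩ := pow_unbounded_of_one_lt (padicNorm p x)⁻¹ h1
  refine ⟨n, ?_⟩
  rw [mem_O, padicNorm.mul, norm_inv, norm_pow, padicNorm.padicNorm_p_of_prime, inv_pow, inv_inv,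
    not_le]
  rwa [inv_lt_iff_one_lt_mul₀ h0] at hn

lemma inv_mem_of_ne {q : ℕ} [Fact q.Prime] (h : p ≠ q) (n : ℕ) : ((q : ℚ) ^ n)⁻¹ ∈ O p := by
  rw [mem_O, norm_inv, norm_pow, padicNorm.padicNorm_of_prime_of_ne h]; simp

lemma mem_of_lt {x : ℚ} (h : x.den < p) : x ∈ O p := by
  rw [mem_O, ← x.num_div_den, padicNorm.div,
    (padicNorm.nat_eq_one_iff _).2 (Nat.not_dvd_of_pos_of_lt x.pos h), div_one]
  exact padicNorm.of_int _

lemma inv_mul_mem {c : ℚ} (h : c ∉ O p) : (c * p)⁻¹ ∈ O p := by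
  have hc : c ≠ 0 := by rintro rfl; exact h (zero_mem _)
  rw [mem_O, not_le] at h
  obtain ⟨z, hz⟩ := padicNorm.values_discrete (p := p) hc
  have h1 : (1 : ℚ) < p := by exact_mod_cast hp.out.one_lt
  rw [hz, one_lt_zpow_iff_right₀ h1] at h
  rw [mem_O, norm_inv, padicNorm.mul, padicNorm.padicNorm_p_of_prime, hz, ← zpow_sub_one₀ (by positivity)]
  exact inv_le_one_of_one_le₀ (one_le_zpow₀ h1.le (by omega))

omit hp in
lemma int_of_all {c : ℚ} (h : ∀ (q : ℕ) [Fact q.Prime], c ∈ O q) : ∃ z : ℤ, c = z := by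
  refine ⟨c.num, (Rat.coe_int_num_of_den_eq_one ?_).symm⟩
  by_contra hne
  haveI : Fact c.den.minFac.Prime := ⟨Nat.minFac_prime hne⟩
  have h1 := h c.den.minFac
  have h2 : ¬ (c.den.minFac : ℤ) ∣ c.num := fun h => by
    have := Nat.dvd_gcd (Int.natCast_dvd.1 h) (Nat.minFac_dvd c.den)
    rw [c.reduced] at this
    exact (Nat.minFac_prime hne).one_lt.ne' (Nat.dvd_one.1 this)
  have h3 := (padicNorm.nat_lt_one_iff (p := c.den.minFac) c.den).2 (Nat.minFac_dvd _)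
  have h4 : 0 < padicNorm c.den.minFac (c.den : ℚ) :=
    (padicNorm.nonneg _).lt_of_ne' (padicNorm.nonzero (by exact_mod_cast c.den_nz))
  rw [mem_O] at h1
  nth_rw 2 [← c.num_div_den] at h1
  rw [padicNorm.div, (padicNorm.int_eq_one_iff _).2 h2, div_le_one h4] at h1
  exact absurd h1 (not_le.2 h3)

omit hp in
lemma ev_T (f : ℚ[X]) : ∃ N, ∀ (q : ℕ) [Fact q.Prime], N < q → f ∈ T q := by
  refine ⟨f.support.sup fun i => (f.coeff i).den, fun q _ hq => mem_T.2 fun i => ?_⟩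
  by_cases hi : i ∈ f.support
  · exact mem_of_lt ((Finset.le_sup (f := fun i => (f.coeff i).den) hi).trans_lt hq)
  · rw [notMem_support_iff.1 hi]; exact zero_mem _

omit hp in
lemma schur (F : ℤ[X]) (hF : F = 0 ∨ 0 < F.natDegree) (d : ℚ[X]) (hd : d ≠ 0) (N : ℕ) :
    ∃ q : ℕ, q.Prime ∧ N < q ∧ ∃ a : ℤ, (q : ℤ) ∣ F.eval a ∧ d.eval (a : ℚ) ≠ 0 := by
  have av : ∀ (c : ℤ) (e : ℚ[X]), c ≠ 0 → e ≠ 0 → ∃ t : ℤ, e.eval ((c * t : ℤ) : ℚ) ≠ 0 := by
    intro c e hc he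
    by_contra! h
    refine he (eq_zero_of_infinite_isRoot _ (Set.infinite_of_injective_forall_mem
      (f := fun t : ℤ => ((c * t : ℤ) : ℚ)) (fun s t hst => ?_) h))
    exact mul_left_cancel₀ hc (Int.cast_injective hst)
  by_cases h0 : F.eval 0 = 0
  · obtain ⟨q, hq, hq'⟩ := Nat.exists_infinite_primes (N + 1)
    obtain ⟨t, ht⟩ := av q d (by exact_mod_cast hq'.ne_zero) hd
    refine ⟨q, hq', hq, _, ?_, ht⟩
    have := sub_dvd_eval_sub (q * t) 0 F
    rw [h0, sub_zero, sub_zero] at this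
    exact (dvd_mul_right _ _).trans this
  have hF' : 0 < F.natDegree := hF.resolve_left (by rintro rfl; simp at h0)
  set c := F.eval 0
  have hne : ∀ k : ℤ, (F - C k).map (Int.castRingHom ℚ) ≠ 0 := fun k h => by
    rw [Polynomial.map_eq_zero_iff Int.cast_injective, sub_eq_zero] at h
    rw [h] at hF'; simp at hF'
  obtain ⟨t, ht⟩ := av (c * N.factorial) (d * ((F - C (-c)).map (Int.castRingHom ℚ) *
    (F - C c).map (Int.castRingHom ℚ))) (mul_ne_zero h0 (by exact_mod_cast N.factorial_ne_zero))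
    (mul_ne_zero hd (mul_ne_zero (hne _) (hne _)))
  set x := c * N.factorial * t
  have e : ∀ k : ℤ, ((F - C k).map (Int.castRingHom ℚ)).eval (x : ℚ) = ((F.eval x - k : ℤ) : ℚ) :=
    fun k => by rw [eval_intCast_map]; simp
  rw [eval_mul, eval_mul, e, e] at ht
  simp only [mul_ne_zero_iff, Int.cast_ne_zero] at ht
  obtain ⟨s, hs⟩ := sub_dvd_eval_sub x 0 F
  have hy : F.eval x = c * (1 + N.factorial * t * s) := by
    simp only [x, sub_zero] at hs ⊢; linear_combination hs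
  have : (1 + N.factorial * t * s : ℤ).natAbs ≠ 1 := by
    intro h
    rcases Int.natAbs_eq_iff.1 h with h | h
    · exact ht.2.2 (by rw [hy, h]; simp)
    · exact ht.2.1 (by rw [hy, h]; simp)
  obtain ⟨q, hq, hqd⟩ := Nat.exists_prime_and_dvd this
  have hqd' : (q : ℤ) ∣ 1 + N.factorial * t * s := Int.natCast_dvd.2 hqd
  refine ⟨q, hq, ?_, x, hy ▸ hqd'.mul_left c, ht.1⟩
  by_contra! hle
  have h1 : (q : ℤ) ∣ N.factorial := by exact_mod_cast (hq.dvd_factorial).2 hle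
  have := (dvd_add_left ((h1.mul_right t).mul_right s)).1 hqd'
  exact hq.one_lt.ne' (by exact_mod_cast Int.eq_one_of_dvd_one (by positivity) this)

noncomputable def L (a b : ℤ) : ℚ[X] := C (a : ℚ) + C (b : ℚ) * X

lemma L_mem (a b : ℤ) : L a b ∈ T p :=
  add_mem (C_mem (intCast_mem _ _)) (mul_mem (C_mem (intCast_mem _ _)) X_mem)

omit hp in
lemma coeff0 (f : ℚ[X]) (a b : ℤ) : (f.comp (L a b)).coeff 0 = f.eval (a : ℚ) := by
  simp [coeff_zero_eq_eval_zero, eval_comp, L]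

lemma comp_sub {f : ℚ[X]} (hf : f ∈ T p) (a b : ℤ) :
    ∃ w ∈ T p, f.comp (L a b) = C (f.eval (a : ℚ)) + C (b : ℚ) * w := by
  obtain ⟨f, rfl⟩ := hf
  obtain ⟨w, hw⟩ := X_sub_C_dvd_sub_C_eval (a := (a : O p)) (p := f)
  refine ⟨X * (w.map (O p).subtype).comp (L a b),
    mul_mem X_mem (comp_mem ⟨w, rfl⟩ (L_mem a b)), ?_⟩
  have h1 : f.map (O p).subtype = C ((f.map (O p).subtype).eval (a : ℚ)) +
      (X - C (a : ℚ)) * w.map (O p).subtype := by
    have := congrArg (Polynomial.map (O p).subtype) hw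
    have h2 : (f.map (O p).subtype).eval (a : ℚ) = (O p).subtype (f.eval (a : O p)) := by
      rw [← eval_map_apply]; simp
    rw [h2]
    simp only [Polynomial.map_sub, Polynomial.map_mul, map_X, map_C] at this
    simp only [map_intCast] at this ⊢
    linear_combination this
  simp only [coe_mapRingHom]
  conv_lhs => rw [h1]
  simp only [add_comp, C_comp, mul_comp, sub_comp, X_comp, L]
  ring

omit hp in
lemma dist (f g : ℚ[X]) (h : ¬ f ∣ g) (N : ℕ) : ∃ (q : ℕ) (a b : ℤ) (n : ℕ), N < q ∧ b ≠ 0 ∧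
    ∃ _ : Fact q.Prime, C ((q : ℚ) ^ n)⁻¹ * f.comp (L a b) ∈ T q ∧
      C ((q : ℚ) ^ n)⁻¹ * g.comp (L a b) ∉ T q := by
  classical
  obtain ⟨F, H, hF, hH, hu⟩ := extract_gcd f g
  set d := gcd f g
  obtain ⟨u, v, huv⟩ := (gcd_isUnit_iff F H).1 hu
  have hd : d ≠ 0 := fun h0 => h (by rw [hH, h0]; simp)
  obtain ⟨M, hM, hFM⟩ := IsLocalization.integerNormalization_spec (nonZeroDivisors ℤ) F
  set F' := IsLocalization.integerNormalization (nonZeroDivisors ℤ) F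
  have hM0 : M ≠ 0 := nonZeroDivisors.ne_zero hM
  have hF' : F' = 0 ∨ 0 < F'.natDegree := by
    by_contra! hc
    have h1 : F'.natDegree = 0 := by omega
    rw [natDegree_eq_zero] at h1
    obtain ⟨x, hx⟩ := h1
    have hx0 : x ≠ 0 := by rintro rfl; exact hc.1 (by simp [← hx])
    apply h
    rw [hF, hH]
    refine mul_dvd_mul_left d (IsUnit.dvd ?_)
    have : F * (C (M : ℚ) * C (x : ℚ)⁻¹) = 1 := by
      rw [← hx, map_C, zsmul_eq_mul] at hFM
      rw [← mul_assoc, mul_comm F, map_intCast, ← hFM, ← C_mul]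
      simp [hx0]
    exact IsUnit.of_mul_eq_one _ this
  obtain ⟨N1, h1⟩ := ev_T u
  obtain ⟨N2, h2⟩ := ev_T v
  obtain ⟨N3, h3⟩ := ev_T d
  obtain ⟨N4, h4⟩ := ev_T f
  obtain ⟨q, hq, hN, a, ⟨y, hy⟩, hda⟩ := schur F' hF' d hd (N + N1 + N2 + N3 + N4 + M.natAbs)
  haveI : Fact q.Prime := ⟨hq⟩
  have hq0 : (q : ℚ) ≠ 0 := by exact_mod_cast hq.ne_zero
  have hMq : (M : ℚ) ≠ 0 := by exact_mod_cast hM0
  have hy' : F.eval (a : ℚ) = q * ((M : ℚ)⁻¹ * y) := by
    have := congrArg (eval (a : ℚ)) hFM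
    rw [algebraMap_int_eq, eval_intCast_map, Int.cast_id, hy] at this
    simp at this
    field_simp; linear_combination -this
  have hyO : (M : ℚ)⁻¹ * y ∈ O q := by
    refine mul_mem (mem_of_lt ?_) (intCast_mem _ _)
    rw [Rat.inv_intCast_den, if_neg hM0]; omega
  set y' := (M : ℚ)⁻¹ * y
  have hex := ex_not (p := q) hda
  obtain ⟨k, hk⟩ : ∃ k, Nat.find hex = k + 1 := Nat.exists_eq_succ_of_ne_zero fun h0 => by
    have := Nat.find_spec hex
    rw [h0] at this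
    exact this (by simpa using eval_mem (h3 q (by omega)) a)
  have k1 := Nat.find_spec hex
  have k2 := not_not.1 (Nat.find_min hex (m := k) (by omega))
  rw [hk] at k1
  refine ⟨q, a, q ^ (k + 1), k + 1, by omega, pow_ne_zero _ (by exact_mod_cast hq.ne_zero),
    inferInstance, ?_, fun hg => k1 ?_⟩
  · obtain ⟨w, hw, e⟩ := comp_sub (h4 q (by omega)) a (q ^ (k + 1))
    have : C ((q : ℚ) ^ (k + 1))⁻¹ * f.comp (L a (q ^ (k + 1))) =
        C (((q : ℚ) ^ k)⁻¹ * d.eval (a : ℚ) * y') + w := by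
      rw [e, mul_add, ← mul_assoc, ← C_mul, ← C_mul]
      push_cast
      rw [inv_mul_cancel₀ (pow_ne_zero _ hq0), C_1, one_mul]
      congr 2
      nth_rw 1 [hF]
      rw [eval_mul, hy']; field_simp; ring
    rw [this]
    exact add_mem (C_mem (mul_mem k2 hyO)) hw
  · have g0 := mem_T.1 hg 0
    rw [coeff_C_mul, coeff0, hH, eval_mul] at g0
    have e := congrArg (eval (a : ℚ)) huv
    simp only [eval_add, eval_mul, eval_one, hy'] at e
    have := add_mem (mul_mem (eval_mem (h2 q (by omega)) a) g0)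
      (mul_mem (mul_mem (eval_mem (h1 q (by omega)) a) hyO) k2)
    convert this using 1
    have e2 : ((q : ℚ) ^ k)⁻¹ = q * ((q : ℚ) ^ (k + 1))⁻¹ := by field_simp; ring
    rw [e2]
    linear_combination (-((q : ℚ) ^ (k + 1))⁻¹ * eval (a : ℚ) d) * e

end Pool.Agent.H21.WT
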