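import Pool.Agent.H21.WT1

set_option autoImplicit false

namespace Pool.Agent.H21.WT

open Polynomial

def Dist (a b : ℕ → ℤ) : Prop := ∀ f g : ℚ[X], ¬ f ∣ g → ∃ (q n : ℕ) (_ : Fact q.Prime),
  C ((q : ℚ) ^ n)⁻¹ * f.comp (L (a q) (b q)) ∈ T q ∧ C ((q : ℚ) ^ n)⁻¹ * g.comp (L (a q) (b q)) ∉ T q

lemma exAB : ∃ a b : ℕ → ℤ, a 5 = 0 ∧ b 5 = 1 ∧ (∀ p, b p ≠ 0) ∧ Dist a b := by
  classical
  have : Nonempty {x : ℚ[X] × ℚ[X] // ¬ x.1 ∣ x.2} := ⟨⟨(0, 1), by simp⟩⟩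
  have : Countable ℚ[X] := Cardinal.mk_le_aleph0_iff.1 (cardinalMk_le_max.trans (by simp))
  obtain ⟨s, hs⟩ := exists_surjective_nat {x : ℚ[X] × ℚ[X] // ¬ x.1 ∣ x.2}
  choose pp aa bb nn h1 h2 h3 using fun j N => dist _ _ (s j).2 N
  let Q : ℕ → ℕ := fun j => Nat.rec 5 (fun j q => pp j q) j
  have hQ : StrictMono Q := strictMono_nat_of_lt_succ fun j => h1 j _
  have hi : Function.Injective fun j => Q (j + 1) := fun i j h =>
    Nat.succ_injective (hQ.injective h)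
  have h5 : ¬ ∃ j, Q (j + 1) = 5 := by
    rintro ⟨j, hj⟩
    have : Q 0 < Q (j + 1) := hQ j.succ_pos
    rw [hj] at this; exact lt_irrefl 5 this
  refine ⟨Function.extend (fun j => Q (j + 1)) (fun j => aa j (Q j)) 0,
    Function.extend (fun j => Q (j + 1)) (fun j => bb j (Q j)) 1,
    Function.extend_apply' _ _ _ h5, Function.extend_apply' _ _ _ h5, fun p => ?_, fun f g h => ?_⟩
  · by_cases hp : ∃ j, Q (j + 1) = p
    · obtain ⟨j, rfl⟩ := hp
      rw [hi.extend_apply]; exact h2 _ _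
    · rw [Function.extend_apply' _ _ _ hp]; simp
  · obtain ⟨j, hj⟩ := hs ⟨(f, g), h⟩
    obtain ⟨i, h4⟩ := h3 j (Q j)
    rw [hj] at h4
    refine ⟨Q (j + 1), nn j (Q j), i, ?_⟩
    rw [hi.extend_apply, hi.extend_apply]
    exact h4

noncomputable def R (a b : ℕ → ℤ) : Subring ℚ[X] :=
  ⨅ p : Nat.Primes, (@T p ⟨p.2⟩).comap (compRingHom (L (a p) (b p)))

variable {a b : ℕ → ℤ}

lemma mem_R {f : ℚ[X]} : f ∈ R a b ↔ ∀ (p : ℕ) [Fact p.Prime], f.comp (L (a p) (b p)) ∈ T p := by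
  simp only [R, Subring.mem_iInf, Subring.mem_comap, coe_compRingHom_apply]
  exact ⟨fun h p hp => h ⟨p, hp.out⟩, fun h p => @h p ⟨p.2⟩⟩

lemma X_R : X ∈ R a b := mem_R.2 fun p _ => by rw [X_comp]; exact L_mem _ _

lemma ht {p : ℕ} [hp : Fact p.Prime] (n : ℕ) (f : R a b) : (∃ z : R a b, p ^ n • z = f) ↔
    C ((p : ℚ) ^ n)⁻¹ * f.1.comp (L (a p) (b p)) ∈ T p := by
  have h0 : ((p : ℚ) ^ n) ≠ 0 := pow_ne_zero _ (by exact_mod_cast hp.out.ne_zero)
  have e : ((p ^ n : ℕ) : ℚ[X]) = C ((p : ℚ) ^ n) := by simp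
  constructor
  · rintro ⟨z, rfl⟩
    rw [AddSubmonoidClass.coe_nsmul, nsmul_eq_mul, e, mul_comp, C_comp, ← mul_assoc, ← C_mul,
      inv_mul_cancel₀ h0, C_1, one_mul]
    exact mem_R.1 z.2 p
  · intro h
    refine ⟨⟨C ((p : ℚ) ^ n)⁻¹ * f.1, mem_R.2 fun q _ => ?_⟩, Subtype.ext ?_⟩
    · rw [mul_comp, C_comp]
      rcases eq_or_ne q p with rfl | hq
      · exact h
      · exact mul_mem (C_mem (inv_mem_of_ne hq n)) (mem_R.1 f.2 q)
    · rw [AddSubmonoidClass.coe_nsmul, nsmul_eq_mul, e, ← mul_assoc, ← C_mul, mul_inv_cancel₀ h0,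
        C_1, one_mul]

def HtLe (f g : R a b) : Prop :=
  ∀ p n : ℕ, p.Prime → (∃ z : R a b, p ^ n • z = f) → ∃ z : R a b, p ^ n • z = g

lemma dvd_of (hD : Dist a b) {f g : R a b} (h : HtLe f g) : f.1 ∣ g.1 := by
  by_contra hn
  obtain ⟨q, n, i, h1, h2⟩ := hD _ _ hn
  exact h2 ((ht n g).1 (h q n i.out ((ht n f).2 h1)))

lemma endo (hD : Dist a b) (φ : R a b →+ R a b) (f : R a b) : φ f = φ 1 * f := by
  refine Subtype.ext (Polynomial.funext fun x => ?_)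
  set c := f.1.eval x
  have hd : (c.den • f - c.num • (1 : R a b)).1 ∣ (φ (c.den • f - c.num • (1 : R a b))).1 :=
    dvd_of hD fun p n _ ⟨z, hz⟩ => ⟨φ z, by rw [← hz, map_nsmul]⟩
  have h1 := eval_dvd (x := x) hd
  have h2 : (c.den : ℚ) * c = c.num := by rw [mul_comm]; exact c.mul_den_eq_num
  have h3 : (c.den : ℚ) ≠ 0 := by exact_mod_cast c.den_nz
  rw [map_sub, map_nsmul, map_zsmul] at h1
  simp only [AddSubgroupClass.coe_sub, AddSubmonoidClass.coe_nsmul, AddSubgroupClass.coe_zsmul,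
    eval_sub, nsmul_eq_mul, zsmul_eq_mul, eval_mul, eval_natCast, eval_intCast,
    OneMemClass.coe_one, mul_one, Subring.coe_mul, Subring.coe_natCast, Subring.coe_intCast] at h1
  rw [show (c.den : ℚ) * eval x f.1 - c.num = 0 from sub_eq_zero.2 h2, zero_dvd_iff] at h1
  rw [Subring.coe_mul, eval_mul]
  apply mul_left_cancel₀ h3
  linear_combination h1 - eval x (φ 1).1 * h2

lemma const_int (hb : ∀ p, b p ≠ 0) {f g : R a b} (hf : f ≠ 0) {c : ℚ} (hg : g.1 = C c * f.1)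
    (h : HtLe f g) : ∃ z : ℤ, c = z := by
  refine int_of_all fun p hp => ?_
  by_contra hc
  have hc0 : c ≠ 0 := by rintro rfl; exact hc (zero_mem _)
  have hp0 : (p : ℚ) ≠ 0 := by exact_mod_cast hp.out.ne_zero
  have key : ∀ n : ℕ, C ((p : ℚ) ^ n)⁻¹ * f.1.comp (L (a p) (b p)) ∈ T p := by
    intro n
    induction n with
    | zero => simpa using mem_R.1 f.2 p
    | succ n ih =>
      have := mul_mem (C_mem (inv_mul_mem hc)) ((ht n g).1 (h p n hp.out ((ht n f).2 ih)))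
      rw [hg, mul_comp, C_comp, ← mul_assoc, ← mul_assoc, ← C_mul, ← C_mul] at this
      convert this using 3
      field_simp; ring
  have hne : f.1.comp (L (a p) (b p)) ≠ 0 := by
    intro h0
    rcases comp_eq_zero_iff.1 h0 with h1 | ⟨-, h1⟩
    · exact hf (Subtype.ext h1)
    · have := congrArg (fun q => coeff q 1) h1
      simp [L, hb p, coeff_X, coeff_C] at this
  obtain ⟨n, hn⟩ := ex_not (p := p) (leadingCoeff_ne_zero.2 hne)
  exact hn (by simpa using mem_T.1 (key n) (f.1.comp (L (a p) (b p))).natDegree)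

lemma krylov (hb : ∀ p, b p ≠ 0) (hD : Dist a b) : KrylovTransitive (R a b) := by
  intro f g h
  have h1 : f.1 ∣ g.1 := dvd_of hD fun p n hp => (h p n hp).1
  have h2 : g.1 ∣ f.1 := dvd_of hD fun p n hp => (h p n hp).2
  by_cases hf : f = 0
  · subst hf
    exact ⟨0, Subtype.ext (zero_dvd_iff.1 h1).symm⟩
  obtain ⟨u, hu⟩ := associated_of_dvd_dvd h1 h2
  obtain ⟨c, -, hc⟩ := Polynomial.isUnit_iff.1 u.isUnit
  have hg : g.1 = C c * f.1 := by rw [← hu, hc, mul_comm]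
  obtain ⟨z, rfl⟩ := const_int hb hf hg fun p n hp => (h p n hp).1
  exact ⟨AddMonoidHom.mulLeft (z : R a b), Subtype.ext (by simp [hg])⟩

lemma weak (hD : Dist a b) : WeaklyTransitive (R a b) := by
  rintro x y ⟨φ, ψ, h1, h2⟩
  rw [endo hD] at h1 h2
  by_cases hx : x = 0
  · exact ⟨AddEquiv.refl _, by rw [← h1, hx]; simp⟩
  have : ψ 1 * φ 1 = 1 := mul_right_cancel₀ hx (by rw [mul_assoc, h1, h2, one_mul])
  exact ⟨⟨⟨fun t => φ 1 * t, fun t => ψ 1 * t, fun t => by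
    simp only; rw [← mul_assoc, this, one_mul], fun t => by
    simp only; rw [← mul_assoc, mul_comm (φ 1), this, one_mul]⟩, fun s t => mul_add _ s t⟩, h1⟩

lemma endo2 (hD : Dist a b) (θ : R a b × R a b →+ R a b × R a b) (u v : R a b) :
    θ (u, v) = ((θ (1, 0)).1 * u + (θ (0, 1)).1 * v, (θ (1, 0)).2 * u + (θ (0, 1)).2 * v) := by
  have e1 := endo hD ((AddMonoidHom.fst _ _).comp (θ.comp (AddMonoidHom.inl _ _))) u
  have e2 := endo hD ((AddMonoidHom.fst _ _).comp (θ.comp (AddMonoidHom.inr _ _))) v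
  have e3 := endo hD ((AddMonoidHom.snd _ _).comp (θ.comp (AddMonoidHom.inl _ _))) u
  have e4 := endo hD ((AddMonoidHom.snd _ _).comp (θ.comp (AddMonoidHom.inr _ _))) v
  simp only [AddMonoidHom.comp_apply, AddMonoidHom.coe_fst, AddMonoidHom.coe_snd,
    AddMonoidHom.inl_apply, AddMonoidHom.inr_apply] at e1 e2 e3 e4
  rw [← e1, ← e2, ← e3, ← e4, show (u, v) = (u, 0) + (0, v) by simp, map_add]
  rfl

lemma unit_pm {r s : R a b} (h : r * s = 1) : r.1.coeff 0 = 1 ∨ r.1.coeff 0 = -1 := by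
  have h' : r.1 * s.1 = 1 := congrArg Subtype.val h
  have ci : ∀ t : R a b, IsUnit t.1 → ∃ z : ℤ, t.1 = C (z : ℚ) := fun t ht => by
    obtain ⟨c, -, hc⟩ := Polynomial.isUnit_iff.1 ht
    obtain ⟨z, rfl⟩ := int_of_all (c := c) fun q _ => by
      have := mem_T.1 (mem_R.1 t.2 q) 0
      rwa [← hc, C_comp, coeff_C_zero] at this
    exact ⟨z, hc.symm⟩
  obtain ⟨z, hz⟩ := ci r (IsUnit.of_mul_eq_one _ h')
  obtain ⟨w, hw⟩ := ci s (IsUnit.of_mul_eq_one_right _ h')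
  rw [hz, hw, ← C_mul, ← C_1, C_inj] at h'
  rw [hz, coeff_C_zero]
  rcases Int.eq_one_or_neg_one_of_mul_eq_one (u := z) (v := w) (by exact_mod_cast h') with h | h <;>
    simp [h]

lemma notweak (ha : a 5 = 0) (hb : b 5 = 1) (hD : Dist a b) :
    ¬ WeaklyTransitive (R a b × R a b) := by
  intro h
  let x : R a b := ⟨X, X_R⟩
  let M : R a b → R a b → R a b → R a b → (R a b × R a b →+ R a b × R a b) := fun p q r s =>
    AddMonoidHom.mk' (fun t => (p * t.1 + q * t.2, r * t.1 + s * t.2)) fun t t' => by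
      ext1 <;> simp only [Prod.fst_add, Prod.snd_add] <;> ring
  obtain ⟨η, hη⟩ := h (5, x) (5 + 2 * x, 2 * x + x ^ 2) ⟨M 1 2 0 (2 + x), M (1 - 2 * x) 4 x (-2),
    by ext1 <;> simp only [M, AddMonoidHom.mk'_apply] <;> ring,
    by ext1 <;> simp only [M, AddMonoidHom.mk'_apply] <;> ring⟩
  have e := endo2 hD η.toAddMonoidHom
  simp only [AddEquiv.toAddMonoidHom_eq_coe, AddMonoidHom.coe_coe] at e
  have e1 := e (η.symm (1, 0)).1 (η.symm (1, 0)).2
  have e2 := e (η.symm (0, 1)).1 (η.symm (0, 1)).2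
  rw [Prod.mk.eta, η.apply_symm_apply, Prod.mk.injEq] at e1 e2
  rw [e, Prod.mk.injEq] at hη
  set r11 := (η (1, 0)).1
  set r12 := (η (0, 1)).1
  set r21 := (η (1, 0)).2
  set r22 := (η (0, 1)).2
  have hdet := unit_pm (r := r11 * r22 - r12 * r21)
    (s := (η.symm (1, 0)).1 * (η.symm (0, 1)).2 - (η.symm (1, 0)).2 * (η.symm (0, 1)).1) (by
      linear_combination (-(r21 * (η.symm (0, 1)).1 + r22 * (η.symm (0, 1)).2)) * e1.1 - e2.2 +
        (r11 * (η.symm (0, 1)).1 + r12 * (η.symm (0, 1)).2) * e1.2)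
  have g1 : r11.1 * C 5 + r12.1 * X = C 5 + C 2 * X := congrArg Subtype.val hη.1
  have g2 : r21.1 * C 5 + r22.1 * X = C 2 * X + X ^ 2 := congrArg Subtype.val hη.2
  have k1 := congrArg (fun q => coeff q 0) g1
  have k2 := congrArg (fun q => coeff q 0) g2
  have k3 := congrArg (fun q => coeff q 1) g2
  simp [coeff_X_pow, coeff_mul_X] at k1 k2 k3
  haveI : Fact (Nat.Prime 5) := ⟨by norm_num⟩
  have ht := mem_T.1 (mem_R.1 r21.2 5) 1
  rw [ha, hb] at ht
  simp [L] at ht hdet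
  rw [k1, k2] at hdet
  have n5 : (5 : ℚ)⁻¹ ∉ O 5 := by
    have := padicNorm.padicNorm_p_of_prime (p := 5)
    rw [mem_O, norm_inv]
    push_cast at this
    rw [this]; norm_num
  apply n5
  rcases hdet with h | h
  · convert ht using 1; linarith
  · convert sub_mem (mul_mem (ofNat_mem (O 5) 2) ht) (one_mem _) using 1; linarith

theorem main : ∃ (G : Type) (_ : AddCommGroup G), (∀ (n : ℕ) (x : G), n ≠ 0 → n • x = 0 → x = 0) ∧
    KrylovTransitive G ∧ WeaklyTransitive G ∧ ¬ WeaklyTransitive (G × G) := by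
  obtain ⟨a, b, h1, h2, h3, h4⟩ := exAB
  refine ⟨R a b, inferInstance, fun n x hn h => ?_, krylov h3 h4, weak h4, notweak h1 h2 h4⟩
  rw [nsmul_eq_mul, mul_eq_zero] at h
  exact h.resolve_left (by exact_mod_cast hn)

end Pool.Agent.H21.WT
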