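import Mathlib

set_option autoImplicit false

namespace Pool.Agent.H21.WT

/-- `χ(x) = χ(y)`: for every prime `p` the `p`-heights agree. -/
def SameChar {G : Type} [AddCommGroup G] (x y : G) : Prop :=
  ∀ p n : ℕ, p.Prime → ((∃ z : G, p ^ n • z = x) ↔ ∃ z : G, p ^ n • z = y)

def KrylovTransitive (G : Type) [AddCommGroup G] : Prop :=
  ∀ x y : G, SameChar x y → ∃ φ : G →+ G, φ x = y

def WeaklyTransitive (G : Type) [AddCommGroup G] : Prop :=
  ∀ x y : G, (∃ φ ψ : G →+ G, φ x = y ∧ ψ y = x) → ∃ η : G ≃+ G, η x = y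

end Pool.Agent.H21.WT
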