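import Mathlib

set_option autoImplicit false

open MeasureTheory Filter Set Metric Complex
open scoped Real ComplexConjugate

namespace Pool.Agent.H21.Wid

/-- the diagonal is null for an atomless measure -/
theorem diag_ae (ρ : Measure ℂ) [IsProbabilityMeasure ρ] [NullSingletonClass ρ] :
    ∀ᵐ p ∂(ρ.prod ρ), p.1 ≠ p.2 := by
  have hm : MeasurableSet {p : ℂ × ℂ | p.1 ≠ p.2} :=
    (measurableSet_eq_fun measurable_fst measurable_snd).compl
  rw [Measure.ae_prod_iff_ae_ae hm]
  refine Eventually.of_forall fun x => ?_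
  have : ∀ᵐ y ∂ρ, y ∉ ({x} : Set ℂ) := compl_mem_ae_iff.2 (measure_singleton x)
  filter_upwards [this] with y hy
  intro h
  exact hy (by simp [h])

theorem both_ae (ρ : Measure ℂ) [IsProbabilityMeasure ρ] (h : ∀ᵐ x ∂ρ, ‖x‖ = 1) :
    ∀ᵐ p ∂(ρ.prod ρ), ‖p.1‖ = 1 ∧ ‖p.2‖ = 1 := by
  have h1 : ∀ᵐ p ∂(ρ.prod ρ), ‖p.1‖ = 1 :=
    (Measure.quasiMeasurePreserving_fst (μ := ρ) (ν := ρ)).ae h
  have h2 : ∀ᵐ p ∂(ρ.prod ρ), ‖p.2‖ = 1 :=
    (Measure.quasiMeasurePreserving_snd (μ := ρ) (ν := ρ)).ae h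
  exact h1.and h2

/-- smoothed energy is nonpositive on the circle -/
theorem smooth_le (ρ : Measure ℂ) [IsProbabilityMeasure ρ] (h : ∀ᵐ x ∂ρ, ‖x‖ = 1)
    (r : ℝ) (hr0 : 0 ≤ r) (hr1 : r < 1) :
    0 ≤ ∫ p, -Real.log ‖1 - (r : ℂ) * (conj p.1 * p.2)‖ ∂(ρ.prod ρ) := by
  set F : ℕ → ℂ × ℂ → ℝ := fun k p => r ^ k / k * ((conj p.1) ^ k * p.2 ^ k).re with hF
  have hb := both_ae ρ h
  have hbd : ∀ k, ∀ᵐ p ∂(ρ.prod ρ), ‖F k p‖ ≤ r ^ k := by
    intro k
    filter_upwards [hb] with p hp
    have h1 : |((conj p.1) ^ k * p.2 ^ k).re| ≤ 1 := by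
      refine (Complex.abs_re_le_norm _).trans ?_
      simp [hp.1, hp.2]
    have h2 : r ^ k / k ≤ r ^ k := by
      rcases Nat.eq_zero_or_pos k with rfl | hk
      · simp
      · exact div_le_self (by positivity) (by exact_mod_cast hk)
    have h3 : 0 ≤ r ^ k / k := by positivity
    simp only [hF, Real.norm_eq_abs, abs_mul, abs_of_nonneg h3]
    nlinarith [abs_nonneg ((conj p.1) ^ k * p.2 ^ k).re]
  have hmeas : ∀ k, AEStronglyMeasurable (F k) (ρ.prod ρ) := by
    intro k
    apply Continuous.aestronglyMeasurable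
    simp only [hF]
    fun_prop
  have hint : ∀ k, Integrable (F k) (ρ.prod ρ) := fun k =>
    Integrable.of_bound (hmeas k) _ (hbd k)
  have hsum : Summable fun k => ∫ p, ‖F k p‖ ∂(ρ.prod ρ) := by
    refine Summable.of_nonneg_of_le (fun k => integral_nonneg fun p => norm_nonneg _)
      (fun k => ?_) (summable_geometric_of_lt_one hr0 hr1)
    have := integral_mono_ae (hint k).norm (integrable_const (r ^ k)) (hbd k)
    simpa using this
  have hs := hasSum_integral_of_summable_integral_norm hint hsum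
  have hpos : ∀ k, 0 ≤ ∫ p, F k p ∂(ρ.prod ρ) := by
    intro k
    simp only [hF]
    rw [integral_const_mul]
    refine mul_nonneg (by positivity) ?_
    have hi : Integrable (fun p : ℂ × ℂ => (conj p.1) ^ k * p.2 ^ k) (ρ.prod ρ) := by
      refine Integrable.of_bound (Continuous.aestronglyMeasurable (by fun_prop)) 1 ?_
      filter_upwards [hb] with p hp
      simp [hp.1, hp.2]
    have e1 := integral_re (𝕜 := ℂ) hi
    simp only [RCLike.re_to_complex] at e1
    rw [e1, integral_prod_mul (fun x : ℂ => (conj x) ^ k) (fun y : ℂ => y ^ k)]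
    have e2 : ∫ x, (conj x) ^ k ∂ρ = conj (∫ x, x ^ k ∂ρ) := by
      rw [← integral_conj]
      simp
    rw [e2, Complex.conj_mul']
    norm_cast
    positivity
  have hcongr : ∫ p, -Real.log ‖1 - (r : ℂ) * (conj p.1 * p.2)‖ ∂(ρ.prod ρ)
      = ∫ p, ∑' k, F k p ∂(ρ.prod ρ) := by
    refine integral_congr_ae ?_
    filter_upwards [hb] with p hp
    have hw : ‖(r : ℂ) * (conj p.1 * p.2)‖ < 1 := by
      simp [hp.1, hp.2, abs_of_nonneg hr0, hr1]
    have h1 := Complex.hasSum_re (Complex.hasSum_taylorSeries_neg_log hw)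
    rw [Complex.neg_re, Complex.log_re] at h1
    rw [← h1.tsum_eq]
    refine tsum_congr fun k => ?_
    simp only [hF]
    have : ((r : ℂ) * (conj p.1 * p.2)) ^ k / (k : ℂ)
        = ((r ^ k / k : ℝ) : ℂ) * ((conj p.1) ^ k * p.2 ^ k) := by
      push_cast
      ring
    rw [this, Complex.re_ofReal_mul]
  rw [hcongr]
  exact hs.nonneg hpos

theorem energy_le (ρ : Measure ℂ) [IsProbabilityMeasure ρ] [NullSingletonClass ρ]
    (h : ∀ᵐ x ∂ρ, ‖x‖ = 1)
    (hi : Integrable (fun p : ℂ × ℂ => Real.log ‖p.1 - p.2‖) (ρ.prod ρ)) :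
    ∫ p, Real.log ‖p.1 - p.2‖ ∂(ρ.prod ρ) ≤ 0 := by
  have key : ∀ r : ℝ, 0 < r → r < 1 →
      ∫ p, Real.log ‖p.1 - p.2‖ ∂(ρ.prod ρ) ≤ -Real.log r / 2 := by
    intro r hr0 hr1
    have hb := both_ae ρ h
    have hd := diag_ae ρ
    have hlow : ∀ p : ℂ × ℂ, ‖p.1‖ = 1 → ‖p.2‖ = 1 →
        1 - r ≤ ‖1 - (r : ℂ) * (conj p.1 * p.2)‖ := by
      intro p h1 h2
      have := norm_sub_norm_le (1 : ℂ) ((r : ℂ) * (conj p.1 * p.2))
      simpa [h1, h2, abs_of_pos hr0] using this
    have hup : ∀ p : ℂ × ℂ, ‖p.1‖ = 1 → ‖p.2‖ = 1 →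
        ‖1 - (r : ℂ) * (conj p.1 * p.2)‖ ≤ 2 := by
      intro p h1 h2
      have := norm_sub_le (1 : ℂ) ((r : ℂ) * (conj p.1 * p.2))
      simp [h1, h2, abs_of_pos hr0] at this
      linarith
    have hi2 : Integrable (fun p : ℂ × ℂ => -Real.log ‖1 - (r : ℂ) * (conj p.1 * p.2)‖)
        (ρ.prod ρ) := by
      refine Integrable.of_bound ?_ (|Real.log (1 - r)| + Real.log 2) ?_
      · apply Measurable.aestronglyMeasurable
        apply Measurable.neg
        apply Real.measurable_log.comp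
        apply Continuous.measurable
        fun_prop
      · filter_upwards [hb] with p hp
        have h1 := Real.log_le_log (by linarith) (hlow p hp.1 hp.2)
        have h2 := Real.log_le_log (by linarith [hlow p hp.1 hp.2]) (hup p hp.1 hp.2)
        have h3 : 0 ≤ Real.log 2 := Real.log_nonneg (by norm_num)
        rw [Real.norm_eq_abs, abs_le]
        constructor
        · linarith [abs_nonneg (Real.log (1 - r))]
        · linarith [neg_abs_le (Real.log (1 - r))]
    have hs := smooth_le ρ h r hr0.le hr1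
    have hpt : ∀ᵐ p ∂(ρ.prod ρ), Real.log ‖p.1 - p.2‖ +
        (-Real.log ‖1 - (r : ℂ) * (conj p.1 * p.2)‖) ≤ -Real.log r / 2 := by
      filter_upwards [hb, hd] with p hp hne
      have hpos : 0 < ‖p.1 - p.2‖ := norm_pos_iff.2 (sub_ne_zero.2 hne)
      have hsq : r * ‖p.1 - p.2‖ ^ 2 ≤ ‖1 - (r : ℂ) * (conj p.1 * p.2)‖ ^ 2 := by
        have a1 : p.1.re ^ 2 + p.1.im ^ 2 = 1 := by
          have := Complex.sq_norm p.1
          rw [hp.1, Complex.normSq_apply] at this
          nlinarith
        have a2 : p.2.re ^ 2 + p.2.im ^ 2 = 1 := by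
          have := Complex.sq_norm p.2
          rw [hp.2, Complex.normSq_apply] at this
          nlinarith
        rw [Complex.sq_norm, Complex.sq_norm, Complex.normSq_apply, Complex.normSq_apply]
        simp only [Complex.sub_re, Complex.sub_im, Complex.mul_re, Complex.mul_im,
          Complex.one_re, Complex.one_im, Complex.ofReal_re, Complex.ofReal_im,
          Complex.conj_re, Complex.conj_im]
        set a := p.1.re
        set b := p.1.im
        set c := p.2.re
        set d := p.2.im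
        have a3 : (a * c + b * d) ^ 2 + (a * d - b * c) ^ 2 = 1 := by
          have : (a * c + b * d) ^ 2 + (a * d - b * c) ^ 2 = (a ^ 2 + b ^ 2) * (c ^ 2 + d ^ 2) := by
            ring
          rw [this, a1, a2, one_mul]
        have e1 : r * ((a - c) * (a - c) + (b - d) * (b - d)) = r * (2 - 2 * (a * c + b * d)) := by
          have : (a - c) * (a - c) + (b - d) * (b - d)
              = (a ^ 2 + b ^ 2) + (c ^ 2 + d ^ 2) - 2 * (a * c + b * d) := by ring
          rw [this, a1, a2]
          ring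
        have e2 : (1 - (r * (a * c - -b * d) - 0 * (a * d + -b * c))) *
            (1 - (r * (a * c - -b * d) - 0 * (a * d + -b * c))) +
            (0 - (r * (a * d + -b * c) + 0 * (a * c - -b * d))) *
            (0 - (r * (a * d + -b * c) + 0 * (a * c - -b * d)))
            = 1 - 2 * r * (a * c + b * d)
              + r ^ 2 * ((a * c + b * d) ^ 2 + (a * d - b * c) ^ 2) := by ring
        rw [e1, e2, a3]
        nlinarith [sq_nonneg (1 - r)]
      have hl := Real.log_le_log (by positivity) hsq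
      rw [Real.log_mul hr0.ne' (by positivity), Real.log_pow, Real.log_pow] at hl
      push_cast at hl
      linarith
    have := integral_mono_ae (hi.add hi2) (integrable_const _) hpt
    simp only [Pi.add_apply] at this
    rw [integral_add hi hi2] at this
    simp only [integral_const, probReal_univ, smul_eq_mul, one_mul] at this
    linarith
  by_contra hc
  push Not at hc
  set I := ∫ p, Real.log ‖p.1 - p.2‖ ∂(ρ.prod ρ)
  have h1 := key (Real.exp (-I)) (Real.exp_pos _) (by
    rw [← Real.exp_zero]; exact Real.exp_lt_exp.2 (by linarith))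
  rw [Real.log_exp] at h1
  linarith

/-- a set covered by few tiny balls is small for a finite energy measure -/
theorem cover_le (ρ : Measure ℂ) [IsProbabilityMeasure ρ] [NullSingletonClass ρ]
    (hi : Integrable (fun p : ℂ × ℂ => Real.log ‖p.1 - p.2‖) (ρ.prod ρ))
    (c : ℂ) (r : ℝ) (hr : 0 < r) :
    -Real.log (2 * r) * (ρ.real (closedBall c r)) ^ 2
      ≤ ∫ p, |Real.log ‖p.1 - p.2‖| ∂(ρ.prod ρ) := by
  rcases le_or_gt (-Real.log (2 * r)) 0 with h0 | h0
  · exact (mul_nonpos_of_nonpos_of_nonneg h0 (by positivity)).trans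
      (integral_nonneg fun p => abs_nonneg _)
  have h1 := mul_meas_ge_le_integral_of_nonneg (μ := ρ.prod ρ)
    (f := fun p : ℂ × ℂ => |Real.log ‖p.1 - p.2‖|) (Eventually.of_forall fun p => abs_nonneg _)
    hi.abs (-Real.log (2 * r))
  refine le_trans (mul_le_mul_of_nonneg_left ?_ h0.le) h1
  have h2 : (ρ.real (closedBall c r)) ^ 2 = (ρ.prod ρ).real (closedBall c r ×ˢ closedBall c r) := by
    simp [Measure.real, Measure.prod_prod, sq]
  rw [h2]
  refine ENNReal.toReal_mono (measure_ne_top _ _) (measure_mono_ae ?_)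
  filter_upwards [diag_ae ρ] with p hp hmem
  have hpos : 0 < ‖p.1 - p.2‖ := norm_pos_iff.2 (sub_ne_zero.2 hp)
  have hle : ‖p.1 - p.2‖ ≤ 2 * r := by
    have a1 : dist p.1 c ≤ r := hmem.1
    have a2 : dist p.2 c ≤ r := hmem.2
    have := dist_triangle_right p.1 p.2 c
    rw [dist_eq_norm] at this
    linarith
  have := Real.log_le_log hpos hle
  show -Real.log (2 * r) ≤ |Real.log ‖p.1 - p.2‖|
  linarith [neg_abs_le (Real.log ‖p.1 - p.2‖)]

theorem thin_null (ρ : Measure ℂ) [IsProbabilityMeasure ρ] [NullSingletonClass ρ]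
    (hi : Integrable (fun p : ℂ × ℂ => Real.log ‖p.1 - p.2‖) (ρ.prod ρ))
    (S : Set ℂ) (c : ℕ → ℕ → ℂ)
    (hS : ∀ i : ℕ, S ⊆ ⋃ a ∈ Finset.range (2 ^ i), closedBall (c i a) (4 * Real.exp (-8 ^ i))) :
    ρ S = 0 := by
  by_contra hne
  set m := ρ.real S with hm
  have hmpos : 0 < m := ENNReal.toReal_pos hne (measure_ne_top _ _)
  set E := ∫ p, |Real.log ‖p.1 - p.2‖| ∂(ρ.prod ρ)
  have key : ∀ i : ℕ, ((2 : ℝ) ^ i - 8) * m ^ 2 ≤ E := by
    intro i
    have h1 : m ≤ ∑ a ∈ Finset.range (2 ^ i),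
        ρ.real (closedBall (c i a) (4 * Real.exp (-8 ^ i))) :=
      (measureReal_mono (hS i) (measure_ne_top _ _)).trans (measureReal_biUnion_finset_le _ _)
    obtain ⟨a, -, ha⟩ : ∃ a ∈ Finset.range (2 ^ i),
        m / 2 ^ i ≤ ρ.real (closedBall (c i a) (4 * Real.exp (-8 ^ i))) := by
      refine Finset.exists_le_of_sum_le ⟨0, by simp⟩ ?_
      simp only [Finset.sum_const, Finset.card_range, nsmul_eq_mul]
      push_cast
      rw [mul_div_cancel₀ _ (by positivity)]
      exact h1
    have h2 := cover_le ρ hi (c i a) (4 * Real.exp (-8 ^ i)) (by positivity)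
    have h3 : -Real.log (2 * (4 * Real.exp (-8 ^ i))) = 8 ^ i - Real.log 8 := by
      rw [show 2 * (4 * Real.exp (-8 ^ i)) = 8 * Real.exp (-8 ^ i) by ring,
        Real.log_mul (by norm_num) (Real.exp_pos _).ne', Real.log_exp]
      ring
    have h4 : Real.log 8 ≤ 8 := (Real.log_le_sub_one_of_pos (by norm_num)).trans (by norm_num)
    rw [h3] at h2
    have hE : 0 ≤ E := integral_nonneg fun p => abs_nonneg _
    rcases le_or_gt ((2 : ℝ) ^ i - 8) 0 with h0 | h0
    · exact (mul_nonpos_of_nonpos_of_nonneg h0 (by positivity)).trans hE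
    have h2i : (1 : ℝ) ≤ 2 ^ i := one_le_pow₀ (by norm_num)
    have e8 : (8 : ℝ) ^ i = 2 ^ i * (2 ^ i) ^ 2 := by
      rw [show (8 : ℝ) = 2 * 2 ^ 2 by norm_num, mul_pow, ← pow_mul, ← pow_mul, mul_comm 2 i]
    have h5 : ((2 : ℝ) ^ i - 8) * (2 ^ i) ^ 2 ≤ 8 ^ i - Real.log 8 := by
      rw [e8]
      nlinarith
    have h6 : (m / 2 ^ i) ^ 2 ≤ (ρ.real (closedBall (c i a) (4 * Real.exp (-8 ^ i)))) ^ 2 :=
      pow_le_pow_left₀ (by positivity) ha 2
    calc ((2 : ℝ) ^ i - 8) * m ^ 2 = (((2 : ℝ) ^ i - 8) * (2 ^ i) ^ 2) * (m / 2 ^ i) ^ 2 := by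
          field_simp
      _ ≤ (8 ^ i - Real.log 8) * (ρ.real (closedBall (c i a) (4 * Real.exp (-8 ^ i)))) ^ 2 :=
          mul_le_mul h5 h6 (by positivity) (le_trans (by positivity) h5)
      _ ≤ E := h2
  obtain ⟨i, hi'⟩ := pow_unbounded_of_one_lt (E / m ^ 2 + 8) (show (1 : ℝ) < 2 by norm_num)
  have := key i
  have h7 : E / m ^ 2 < 2 ^ i - 8 := by linarith
  rw [div_lt_iff₀ (by positivity)] at h7
  linarith

/-- normalised arc length -/
noncomputable def arc : Measure ℂ :=
  Measure.map (circleMap 0 1) ((ENNReal.ofReal (2 * π))⁻¹ • volume.restrict (Ioc 0 (2 * π)))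

theorem meas_cm : Measurable (circleMap 0 1) := (continuous_circleMap 0 1).measurable

instance : IsProbabilityMeasure arc := by
  constructor
  have : 0 < 2 * π := by positivity
  rw [arc, Measure.map_apply meas_cm MeasurableSet.univ]
  simp only [preimage_univ, Measure.smul_apply, MeasurableSet.univ, Measure.restrict_apply,
    univ_inter, Real.volume_Ioc, sub_zero, smul_eq_mul]
  exact ENNReal.inv_mul_cancel (by simpa using this) ENNReal.ofReal_ne_top

instance : NullSingletonClass arc := by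
  constructor
  intro x
  rw [arc, Measure.map_apply meas_cm (measurableSet_singleton x), Measure.smul_apply,
    ((countable_singleton x).preimage_circleMap 0 one_ne_zero).measure_zero, smul_zero]

theorem arc_ae (P : ℂ → Prop) (hP : MeasurableSet {x | P x})
    (h : ∀ θ ∈ Ioo 0 (2 * π), P (circleMap 0 1 θ)) : ∀ᵐ x ∂arc, P x := by
  rw [arc, ae_map_iff meas_cm.aemeasurable hP]
  refine Measure.ae_smul_measure ?_ _
  rw [← Measure.restrict_congr_set Ioo_ae_eq_Ioc]
  exact (ae_restrict_iff' measurableSet_Ioo).2 (Eventually.of_forall h)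

theorem arc_norm : ∀ᵐ x ∂arc, ‖x‖ = 1 :=
  arc_ae _ (measurableSet_eq_fun measurable_norm measurable_const) fun θ _ => by simp

theorem meas_log (x : ℂ) : Measurable fun y : ℂ => Real.log ‖x - y‖ :=
  Real.measurable_log.comp (Continuous.measurable (by fun_prop))

theorem arc_int (x : ℂ) : Integrable (fun y => Real.log ‖x - y‖) arc := by
  rw [arc, integrable_map_measure (meas_log x).aestronglyMeasurable meas_cm.aemeasurable]
  refine Integrable.smul_measure ?_ (by simpa using Real.pi_pos)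
  have := (circleIntegrable_log_norm_sub_const (a := x) (c := 0) 1).1
  refine this.congr_fun (fun θ _ => ?_) measurableSet_Ioc
  simp [norm_sub_rev]

theorem arc_pot (x : ℂ) (hx : ‖x‖ = 1) : ∫ y, Real.log ‖x - y‖ ∂arc = 0 := by
  rw [arc, integral_map meas_cm.aemeasurable (meas_log x).aestronglyMeasurable,
    integral_smul_measure]
  have := circleAverage_log_norm_sub_const₁ hx
  rw [Real.circleAverage_def, intervalIntegral.integral_of_le (by positivity)] at this
  rcases smul_eq_zero.1 this with h | h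
  · exfalso
    have : 0 < (2 * π)⁻¹ := by positivity
    linarith
  · simp only [norm_sub_rev x]
    rw [h, smul_zero]

theorem arc_prod_int : Integrable (fun p : ℂ × ℂ => Real.log ‖p.1 - p.2‖) (arc.prod arc) := by
  have hm : Measurable fun p : ℂ × ℂ => Real.log ‖p.1 - p.2‖ :=
    Real.measurable_log.comp (Continuous.measurable (by fun_prop))
  rw [integrable_prod_iff hm.aestronglyMeasurable]
  refine ⟨Eventually.of_forall fun x => arc_int x, ?_⟩
  refine Integrable.of_bound (hm.stronglyMeasurable.norm.integral_prod_right').aestronglyMeasurable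
    4 ?_
  filter_upwards [arc_norm] with x hx
  rw [Real.norm_eq_abs, abs_of_nonneg (integral_nonneg fun y => norm_nonneg _)]
  have hpt : ∀ᵐ y ∂arc, ‖Real.log ‖x - y‖‖ ≤ 4 - Real.log ‖x - y‖ := by
    filter_upwards [arc_norm] with y hy
    have h1 : ‖x - y‖ ≤ 2 := by
      have := norm_sub_le x y
      linarith
    have h2 : Real.log ‖x - y‖ ≤ 2 := (Real.log_le_self (norm_nonneg _)).trans h1
    rw [Real.norm_eq_abs, abs_le]
    rcases le_total 0 (Real.log ‖x - y‖) with h | h
    · constructor <;> linarith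
    · constructor <;> linarith
  have := integral_mono_ae (arc_int x).norm ((integrable_const 4).sub (arc_int x)) hpt
  simp only [Pi.sub_apply] at this
  rw [integral_sub (integrable_const 4) (arc_int x), arc_pot x hx] at this
  simpa using this

theorem arc_energy : ∫ p, Real.log ‖p.1 - p.2‖ ∂(arc.prod arc) = 0 := by
  rw [integral_prod _ arc_prod_int]
  have : ∀ᵐ x ∂arc, ∫ y, Real.log ‖x - y‖ ∂arc = 0 := by
    filter_upwards [arc_norm] with x hx using arc_pot x hx
  rw [integral_congr_ae this]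
  simp

end Pool.Agent.H21.Wid
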