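import Pool.Agent.H21.Wid1

set_option autoImplicit false

open MeasureTheory Filter Set Metric Complex
open scoped Real ComplexConjugate ENNReal

namespace Pool.Agent.H21.Wid

noncomputable def tau (l : ℕ) : ℝ := Real.exp (-8 ^ l) / 4 ^ l

theorem tau_pos (l : ℕ) : 0 < tau l := by unfold tau; positivity

noncomputable def term (t : ℝ) (l : ℕ) : ℝ := (⌊2 ^ l * t⌋₊ : ℝ) * tau l

theorem term_nonneg (t : ℝ) (l : ℕ) : 0 ≤ term t l := by
  unfold term
  have := tau_pos l
  positivity

theorem term_le (t : ℝ) (l : ℕ) : term t l ≤ |t| * (Real.exp (-8 ^ l) * (1 / 2) ^ l) := by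
  have h1 : (⌊2 ^ l * t⌋₊ : ℝ) ≤ 2 ^ l * |t| := by
    have h2 : ⌊2 ^ l * t⌋₊ ≤ ⌊2 ^ l * |t|⌋₊ :=
      Nat.floor_mono (mul_le_mul_of_nonneg_left (le_abs_self t) (by positivity))
    exact (Nat.cast_le.2 h2).trans (Nat.floor_le (by positivity))
  have h3 : 2 ^ l * |t| * tau l = |t| * (Real.exp (-8 ^ l) * (1 / 2) ^ l) := by
    unfold tau
    rw [show (4 : ℝ) = 2 * 2 by norm_num, mul_pow, one_div, inv_pow]
    field_simp
  unfold term
  rw [← h3]
  exact mul_le_mul_of_nonneg_right h1 (tau_pos l).le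

theorem exp_le_one' (l : ℕ) : Real.exp (-8 ^ l) ≤ 1 := by
  rw [Real.exp_le_one_iff]
  have : (0 : ℝ) < 8 ^ l := by positivity
  linarith

theorem term_summable (t : ℝ) : Summable (term t) := by
  refine Summable.of_nonneg_of_le (term_nonneg t) (fun l => ?_)
    (summable_geometric_two.mul_left |t|)
  refine (term_le t l).trans (mul_le_mul_of_nonneg_left ?_ (abs_nonneg t))
  exact mul_le_of_le_one_left (by positivity) (exp_le_one' l)

noncomputable def phi (t : ℝ) : ℝ := ∑' l, term t l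

theorem term_mono {s t : ℝ} (h : s ≤ t) (l : ℕ) : term s l ≤ term t l := by
  unfold term
  refine mul_le_mul_of_nonneg_right ?_ (tau_pos l).le
  exact Nat.cast_le.2 (Nat.floor_mono (mul_le_mul_of_nonneg_left h (by positivity)))

theorem phi_mono : Monotone phi := fun s t h =>
  (term_summable s).tsum_le_tsum (term_mono h) (term_summable t)

theorem phi_strict : StrictMonoOn phi (Ici 0) := by
  intro s hs t _ hst
  obtain ⟨l, hl⟩ := pow_unbounded_of_one_lt (1 / (t - s)) (show (1 : ℝ) < 2 by norm_num)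
  have hd : 0 < t - s := by linarith
  rw [div_lt_iff₀ hd] at hl
  refine Summable.tsum_lt_tsum (i := l) (term_mono hst.le) ?_ (term_summable s) (term_summable t)
  unfold term
  refine mul_lt_mul_of_pos_right ?_ (tau_pos l)
  have h0 : (0 : ℝ) ≤ 2 ^ l * s := mul_nonneg (by positivity) hs
  have h1 : ⌊2 ^ l * s⌋₊ + 1 ≤ ⌊2 ^ l * t⌋₊ := by
    rw [← Nat.floor_add_one h0]
    exact Nat.floor_mono (by nlinarith)
  exact_mod_cast h1

theorem phi_nonneg (t : ℝ) : 0 ≤ phi t := tsum_nonneg (term_nonneg t)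

theorem tail_le (t : ℝ) (ht : t ∈ Ico (0 : ℝ) 1) (i : ℕ) :
    |phi t - ∑ l ∈ Finset.range i, term t l| ≤ 2 * Real.exp (-8 ^ i) := by
  have h1 := (term_summable t).sum_add_tsum_nat_add i
  have h2 : phi t - ∑ l ∈ Finset.range i, term t l = ∑' l, term t (l + i) := by
    unfold phi
    linarith
  rw [h2, abs_of_nonneg (tsum_nonneg fun l => term_nonneg t _)]
  have h3 : ∀ l, term t (l + i) ≤ Real.exp (-8 ^ i) * (1 / 2) ^ l := by
    intro l
    refine (term_le t _).trans ?_
    have a1 : |t| ≤ 1 := by rw [abs_of_nonneg ht.1]; exact ht.2.le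
    have a2 : Real.exp (-8 ^ (l + i)) ≤ Real.exp (-8 ^ i) := by
      refine Real.exp_le_exp.2 (neg_le_neg ?_)
      exact pow_le_pow_right₀ (by norm_num) (by omega)
    have a3 : ((1 : ℝ) / 2) ^ (l + i) ≤ (1 / 2) ^ l :=
      pow_le_pow_of_le_one (by norm_num) (by norm_num) (by omega)
    calc |t| * (Real.exp (-8 ^ (l + i)) * (1 / 2) ^ (l + i))
        ≤ 1 * (Real.exp (-8 ^ i) * (1 / 2) ^ l) := by gcongr
      _ = _ := one_mul _
  have h4 := ((summable_nat_add_iff i).2 (term_summable t)).tsum_le_tsum h3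
    (summable_geometric_two.mul_left _)
  rw [tsum_mul_left, tsum_geometric_two] at h4
  linarith

theorem phi_le (t : ℝ) (ht : t ∈ Ico (0 : ℝ) 1) : phi t ≤ 2 := by
  have h := tail_le t ht 0
  simp only [Finset.range_zero, Finset.sum_empty, sub_zero] at h
  have := exp_le_one' 0
  linarith [le_abs_self (phi t)]

noncomputable def G (i a : ℕ) : ℝ := ∑ l ∈ Finset.range i, ((a / 2 ^ (i - l) : ℕ) : ℝ) * tau l

theorem approx (t : ℝ) (ht : t ∈ Ico (0 : ℝ) 1) (i : ℕ) :
    ∃ a ∈ Finset.range (2 ^ i), |phi t - G i a| ≤ 2 * Real.exp (-8 ^ i) := by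
  refine ⟨⌊2 ^ i * t⌋₊, ?_, ?_⟩
  · rw [Finset.mem_range, Nat.floor_lt (mul_nonneg (by positivity) ht.1)]
    push_cast
    have : (0 : ℝ) < 2 ^ i := by positivity
    nlinarith [ht.2]
  · have : G i ⌊2 ^ i * t⌋₊ = ∑ l ∈ Finset.range i, term t l := by
      refine Finset.sum_congr rfl fun l hl => ?_
      have hl' : l ≤ i := (Finset.mem_range.1 hl).le
      unfold term
      rw [← Nat.floor_div_natCast]
      congr 3
      push_cast
      rw [pow_sub₀ _ (by norm_num) hl']
      field_simp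
    rw [this]
    exact tail_le t ht i

noncomputable def rad (k : ℕ) : ℝ := 1 + 1 / ((k : ℝ) + 1)

def NN (k : ℕ) : ℕ := (k + 1) ^ 2

theorem NN_pos (k : ℕ) : 0 < NN k := by unfold NN; positivity

theorem rad_gt (k : ℕ) : 1 < rad k := by
  unfold rad
  have : (0 : ℝ) < 1 / ((k : ℝ) + 1) := by positivity
  linarith

theorem rad_le (k : ℕ) : rad k ≤ 2 := by
  unfold rad
  have : 1 / ((k : ℝ) + 1) ≤ 1 := by
    rw [div_le_one (by positivity)]
    have : (0 : ℝ) ≤ k := by positivity
    linarith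
  linarith

noncomputable def ang (k j : ℕ) (s : ℝ) : ℝ := 2 * π * j / NN k + s / ((k : ℝ) + 1)

noncomputable def g (k j : ℕ) (t : ℝ) : ℂ := circleMap 0 (rad k) (ang k j (phi t))

theorem g_meas (k j : ℕ) : Measurable (g k j) := by
  have h1 : Continuous fun s => circleMap 0 (rad k) (ang k j s) := by
    unfold ang
    fun_prop
  exact h1.measurable.comp phi_mono.measurable

theorem g_norm (k j : ℕ) (t : ℝ) : ‖g k j t‖ = rad k := by
  unfold g
  rw [norm_circleMap_zero, abs_of_pos (by linarith [rad_gt k])]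

noncomputable def lam : Measure ℝ := volume.restrict (Ico 0 1)

instance : IsProbabilityMeasure lam := by
  constructor
  simp [lam]

theorem lam_ae : ∀ᵐ t ∂lam, t ∈ Ico (0 : ℝ) 1 := ae_restrict_mem measurableSet_Ico

noncomputable def piece (k j : ℕ) : Measure ℂ := Measure.map (g k j) lam

instance (k j : ℕ) : IsProbabilityMeasure (piece k j) :=
  Measure.isProbabilityMeasure_map (g_meas k j).aemeasurable

instance (k j : ℕ) : NullSingletonClass (piece k j) := by
  constructor
  intro x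
  rw [piece, Measure.map_apply (g_meas k j) (measurableSet_singleton x), lam,
    Measure.restrict_apply ((g_meas k j) (measurableSet_singleton x))]
  refine Set.Countable.measure_zero ?_ _
  have h1 := (countable_singleton x).preimage_circleMap 0
    (show rad k ≠ 0 by linarith [rad_gt k])
  refine Set.MapsTo.countable_of_injOn (f := fun t => ang k j (phi t)) ?_ ?_ h1
  · intro t ht
    exact ht.1
  · intro s hs t ht hst
    refine phi_strict.injOn hs.2.1 ht.2.1 ?_
    simp only [ang, add_right_inj] at hst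
    have : (0 : ℝ) < (k : ℝ) + 1 := by positivity
    field_simp at hst
    exact hst

noncomputable def ring (k : ℕ) : Measure ℂ :=
  ((NN k : ℝ≥0∞))⁻¹ • ∑ j ∈ Finset.range (NN k), piece k j

instance (k : ℕ) : IsProbabilityMeasure (ring k) := by
  constructor
  simp only [ring, Measure.smul_apply, Measure.coe_finsetSum, Finset.sum_apply, measure_univ,
    Finset.sum_const, Finset.card_range, nsmul_eq_mul, mul_one, smul_eq_mul]
  exact ENNReal.inv_mul_cancel (by simpa using (NN_pos k).ne') (by simp)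

noncomputable def mu : Measure ℂ := Measure.sum fun k => ((2 : ℝ≥0∞)⁻¹ ^ (k + 1)) • ring k

instance : IsProbabilityMeasure mu := by
  constructor
  simp only [mu, Measure.sum_apply _ MeasurableSet.univ, Measure.smul_apply, measure_univ,
    smul_eq_mul, mul_one]
  rw [ENNReal.tsum_geometric_add_one, ENNReal.one_sub_inv_two, inv_inv]
  exact ENNReal.inv_mul_cancel (by simp) (by simp)

theorem mu_null (U : Set ℂ) (hU : MeasurableSet U)
    (h : ∀ k, ∀ j < NN k, piece k j U = 0) : mu U = 0 := by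
  simp only [mu, Measure.sum_apply _ hU, Measure.smul_apply, ring, Measure.coe_finsetSum,
    Finset.sum_apply, smul_eq_mul, ENNReal.tsum_eq_zero]
  intro k
  rw [Finset.sum_eq_zero fun j hj => h k j (Finset.mem_range.1 hj)]
  simp

theorem mu_null' (U : Set ℂ) (hU : MeasurableSet U)
    (h : ∀ k, ∀ j < NN k, ∀ t ∈ Ico (0 : ℝ) 1, g k j t ∉ U) : mu U = 0 := by
  refine mu_null U hU fun k j hj => ?_
  rw [piece, Measure.map_apply (g_meas k j) hU]
  refine measure_eq_zero_iff_ae_notMem.2 ?_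
  filter_upwards [lam_ae] with t ht using h k j hj t ht

instance : NullSingletonClass mu := by
  constructor
  intro x
  exact mu_null _ (measurableSet_singleton x) fun k j _ => measure_singleton x

theorem ring_le (k : ℕ) : ((2 : ℝ≥0∞)⁻¹ ^ (k + 1)) • ring k ≤ mu :=
  Measure.le_sum (fun k => ((2 : ℝ≥0∞)⁻¹ ^ (k + 1)) • ring k) k

theorem mu_pos (U : Set ℂ) (hU : MeasurableSet U) (k j : ℕ) (hj : j < NN k)
    (h : ∀ t ∈ Ico (0 : ℝ) 1, g k j t ∈ U) : 0 < mu U := by
  have h1 : piece k j U = 1 := by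
    rw [← prob_compl_eq_zero_iff hU, piece, Measure.map_apply (g_meas k j) hU.compl]
    refine measure_eq_zero_iff_ae_notMem.2 ?_
    filter_upwards [lam_ae] with t ht hc using hc (h t ht)
  refine lt_of_lt_of_le ?_ (ring_le k U)
  simp only [Measure.smul_apply, ring, Measure.coe_finsetSum, Finset.sum_apply, smul_eq_mul]
  refine ENNReal.mul_pos (by simp) (ENNReal.mul_pos (by simp) ?_).ne'
  intro h0
  have := (Finset.sum_eq_zero_iff.1 h0) j (Finset.mem_range.2 hj)
  rw [h1] at this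
  exact one_ne_zero this

theorem mu_ball : ∀ᵐ x ∂mu, x ∈ closedBall (0 : ℂ) 2 := by
  refine mu_null' _ measurableSet_closedBall.compl fun k j _ t _ hc => hc ?_
  show g k j t ∈ closedBall (0 : ℂ) 2
  rw [mem_closedBall_zero_iff, g_norm]
  exact rad_le k

theorem supp_compact : IsCompact mu.support :=
  (isCompact_closedBall (0 : ℂ) 2).of_isClosed_subset Measure.isClosed_support
    (Measure.support_subset_of_isClosed isClosed_closedBall mu_ball)

theorem cm_dist (R a b : ℝ) (hR : 0 ≤ R) :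
    dist (circleMap 0 R a) (circleMap 0 R b) ≤ R * |a - b| := by
  have := (lipschitzWith_circleMap 0 R).dist_le_mul a b
  simpa [Real.dist_eq, abs_of_nonneg hR] using this

theorem circle_mem (θ : ℝ) (hθ : θ ∈ Ioo 0 (2 * π)) : circleMap 0 1 θ ∈ mu.support := by
  rw [Metric.nhds_basis_ball.mem_measureSupport]
  intro ε hε
  obtain ⟨k, hk⟩ := exists_nat_one_div_lt (show 0 < ε / 20 by positivity)
  have hN : (0 : ℝ) < NN k := by exact_mod_cast NN_pos k
  have hpi := Real.pi_pos
  have h0 : 0 ≤ θ * NN k / (2 * π) := by have := hθ.1; positivity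
  set j := ⌊θ * NN k / (2 * π)⌋₊ with hj
  have hjN : j < NN k := by
    rw [hj, Nat.floor_lt h0, div_lt_iff₀ (by positivity)]
    nlinarith [hθ.2]
  refine mu_pos _ measurableSet_ball k j hjN fun t ht => ?_
  have hk1 : (0 : ℝ) < (k : ℝ) + 1 := by positivity
  set δ : ℝ := 1 / ((k : ℝ) + 1) with hδ
  have hδ0 : 0 < δ := by positivity
  have a1 : (j : ℝ) ≤ θ * NN k / (2 * π) := Nat.floor_le h0
  have a2 : θ * NN k / (2 * π) < j + 1 := Nat.lt_floor_add_one _
  rw [le_div_iff₀ (by positivity)] at a1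
  rw [div_lt_iff₀ (by positivity)] at a2
  have a3 : 2 * π * j / NN k ≤ θ := by rw [div_le_iff₀ hN]; linarith
  have hNk : (k : ℝ) + 1 ≤ NN k := by
    unfold NN
    push_cast
    have : (0 : ℝ) ≤ k := by positivity
    nlinarith
  have a4 : θ ≤ 2 * π * j / NN k + 7 * δ := by
    have b1 : θ ≤ 2 * π * j / NN k + 2 * π / NN k := by
      rw [← add_div, le_div_iff₀ hN]; linarith
    have b2 : 2 * π / NN k ≤ 7 * δ := by
      rw [hδ, mul_one_div]
      exact div_le_div₀ (by norm_num) (by linarith [Real.pi_lt_d2]) hk1 hNk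
    linarith
  have a5 : 0 ≤ phi t / ((k : ℝ) + 1) := div_nonneg (phi_nonneg t) hk1.le
  have a6 : phi t / ((k : ℝ) + 1) ≤ 2 * δ := by
    rw [hδ, mul_one_div]
    exact div_le_div_of_nonneg_right (phi_le t ht) hk1.le
  have a7 : |ang k j (phi t) - θ| ≤ 7 * δ := by
    unfold ang
    rw [abs_le]
    constructor <;> linarith
  have a8 := cm_dist (rad k) (ang k j (phi t)) θ (by linarith [rad_gt k])
  have a9 : dist (circleMap 0 (rad k) θ) (circleMap 0 1 θ) = δ := by
    rw [dist_eq_norm]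
    have : circleMap 0 (rad k) θ - circleMap 0 1 θ = circleMap 0 δ θ := by
      simp only [circleMap, rad, hδ]
      push_cast
      ring
    rw [this, norm_circleMap_zero, abs_of_pos hδ0]
  have a10 := dist_triangle (g k j t) (circleMap 0 (rad k) θ) (circleMap 0 1 θ)
  have a11 : rad k * |ang k j (phi t) - θ| ≤ 2 * (7 * δ) :=
    mul_le_mul (rad_le k) a7 (abs_nonneg _) (by norm_num)
  rw [mem_ball]
  unfold g at a10 ⊢
  linarith

theorem arc_supp : arc mu.supportᶜ = 0 :=
  arc_ae (fun x => x ∈ mu.support) Measure.isClosed_support.measurableSet circle_mem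

noncomputable def ctr (k j i a : ℕ) : ℂ := circleMap 0 (rad k) (ang k j (G i a))

def thin (k j : ℕ) : Set ℂ :=
  sphere 0 (rad k) ∩
    ⋂ i : ℕ, ⋃ a ∈ Finset.range (2 ^ i), closedBall (ctr k j i a) (4 * Real.exp (-8 ^ i))

theorem thin_closed (k j : ℕ) : IsClosed (thin k j) :=
  isClosed_sphere.inter (isClosed_iInter fun _ =>
    isClosed_biUnion_finset fun _ _ => isClosed_closedBall)

theorem g_mem (k j : ℕ) (t : ℝ) (ht : t ∈ Ico (0 : ℝ) 1) : g k j t ∈ thin k j := by
  refine ⟨by rw [mem_sphere_zero_iff_norm, g_norm], mem_iInter.2 fun i => ?_⟩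
  obtain ⟨a, ha, h⟩ := approx t ht i
  refine mem_biUnion ha ?_
  rw [mem_closedBall]
  have h1 := cm_dist (rad k) (ang k j (phi t)) (ang k j (G i a)) (by linarith [rad_gt k])
  have hk1 : (1 : ℝ) ≤ (k : ℝ) + 1 := by
    have : (0 : ℝ) ≤ k := by positivity
    linarith
  have h2 : |ang k j (phi t) - ang k j (G i a)| ≤ 2 * Real.exp (-8 ^ i) := by
    have : ang k j (phi t) - ang k j (G i a) = (phi t - G i a) / ((k : ℝ) + 1) := by
      unfold ang
      ring
    rw [this, abs_div, abs_of_pos (show (0 : ℝ) < (k : ℝ) + 1 by positivity)]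
    exact (div_le_self (abs_nonneg _) hk1).trans h
  have h3 : rad k * |ang k j (phi t) - ang k j (G i a)| ≤ 2 * (2 * Real.exp (-8 ^ i)) :=
    mul_le_mul (rad_le k) h2 (abs_nonneg _) (by norm_num)
  unfold g ctr
  linarith

theorem supp_sub (x : ℂ) (hx : x ∈ mu.support) : ‖x‖ = 1 ∨ ∃ k j, x ∈ thin k j := by
  by_contra hc
  push Not at hc
  obtain ⟨h1, h2⟩ := hc
  have hδ : 0 < |‖x‖ - 1| / 2 := by
    have := abs_pos.2 (sub_ne_zero.2 h1)
    positivity
  obtain ⟨K, hK⟩ := exists_nat_one_div_lt hδ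
  set U : Set ℂ := ball x (|‖x‖ - 1| / 2) ∩
    ⋂ k ∈ Finset.range K, ⋂ j ∈ Finset.range (NN k), (thin k j)ᶜ with hU
  have hUo : IsOpen U := isOpen_ball.inter (isOpen_biInter_finset fun k _ =>
    isOpen_biInter_finset fun j _ => (thin_closed k j).isOpen_compl)
  have hxU : x ∈ U := ⟨mem_ball_self hδ, by
    simp only [mem_iInter]
    intro k _ j _
    exact h2 k j⟩
  have h0 : mu U = 0 := by
    refine mu_null' U hUo.measurableSet fun k j hj t ht hm => ?_
    rcases lt_or_ge k K with hk | hk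
    · have := hm.2
      simp only [mem_iInter] at this
      exact this k (Finset.mem_range.2 hk) j (Finset.mem_range.2 hj) (g_mem k j t ht)
    · have a1 : dist (g k j t) x < |‖x‖ - 1| / 2 := hm.1
      have a2 : 1 / ((k : ℝ) + 1) ≤ 1 / ((K : ℝ) + 1) := Nat.one_div_le_one_div hk
      have a3 := abs_norm_sub_norm_le (g k j t) x
      rw [g_norm, ← dist_eq_norm] at a3
      have a4 := rad_gt k
      have a5 : rad k = 1 + 1 / ((k : ℝ) + 1) := rfl
      rw [abs_le] at a3
      rcases abs_cases (‖x‖ - 1) with h | h <;> linarith [a3.1, a3.2, h.1]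
  exact (Measure.subset_compl_support_of_isOpen hUo h0 hxU) hx

theorem on_circle (ρ : Measure ℂ) [IsProbabilityMeasure ρ] [NullSingletonClass ρ]
    (hK : ρ mu.supportᶜ = 0)
    (hi : Integrable (fun p : ℂ × ℂ => Real.log ‖p.1 - p.2‖) (ρ.prod ρ)) :
    ∀ᵐ x ∂ρ, ‖x‖ = 1 := by
  have h1 : ∀ k j, ∀ᵐ x ∂ρ, x ∉ thin k j := fun k j =>
    measure_eq_zero_iff_ae_notMem.1 (thin_null ρ hi (thin k j) (ctr k j)
      fun i x hx => mem_iInter.1 hx.2 i)
  have h2 : ∀ᵐ x ∂ρ, ∀ k j, x ∉ thin k j := ae_all_iff.2 fun k => ae_all_iff.2 fun j => h1 k j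
  have h3 : ∀ᵐ x ∂ρ, x ∈ mu.support := hK
  filter_upwards [h2, h3] with x hx hs
  rcases supp_sub x hs with h | ⟨k, j, h⟩
  · exact h
  · exact absurd h (hx k j)

theorem sing : mu.MutuallySingular arc := by
  refine ⟨sphere 0 1, isClosed_sphere.measurableSet, ?_, ?_⟩
  · refine mu_null' _ isClosed_sphere.measurableSet fun k j _ t _ hc => ?_
    rw [mem_sphere_zero_iff_norm, g_norm] at hc
    linarith [rad_gt k]
  · refine measure_eq_zero_iff_ae_notMem.2 ?_
    filter_upwards [arc_norm] with x hx hc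
    exact hc (mem_sphere_zero_iff_norm.2 hx)

end Pool.Agent.H21.Wid
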