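import Pool.Agent.H21.Wid2

set_option autoImplicit false

open MeasureTheory Filter Set Metric Complex
open scoped Real ComplexConjugate ENNReal

namespace Pool.Agent.H21.Wid

theorem top_coeff (P : Polynomial ℂ) (hP : P.Monic) (N : ℕ) (hN : P.natDegree < N) (ζ u : ℂ)
    (hζ : IsPrimitiveRoot ζ N) :
    ∑ j ∈ Finset.range N, P.eval (u * ζ ^ j) * (ζ ^ j) ^ (N - P.natDegree)
      = N * u ^ P.natDegree := by
  set n := P.natDegree with hn
  have h1 : ∀ j, P.eval (u * ζ ^ j) * (ζ ^ j) ^ (N - n)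
      = ∑ l ∈ Finset.range (n + 1), P.coeff l * u ^ l * (ζ ^ (l + (N - n))) ^ j := by
    intro j
    rw [Polynomial.eval_eq_sum_range, Finset.sum_mul]
    refine Finset.sum_congr rfl fun l _ => ?_
    rw [mul_pow, ← pow_mul, ← pow_mul, ← pow_mul, mul_assoc, mul_assoc, mul_assoc, ← pow_add]
    congr 3
    ring
  simp_rw [h1]
  rw [Finset.sum_comm, Finset.sum_range_succ, Finset.sum_eq_zero, zero_add]
  · have : n + (N - n) = N := by omega
    rw [this, hζ.pow_eq_one, hn, hP.coeff_natDegree]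
    simp
  · intro l hl
    have hl' := Finset.mem_range.1 hl
    rw [← Finset.mul_sum]
    have hne : ζ ^ (l + (N - n)) ≠ 1 := hζ.pow_ne_one_of_pos_of_lt (by omega) (by omega)
    rw [geom_sum_eq hne, ← pow_mul, mul_comm (l + (N - n)) N, pow_mul, hζ.pow_eq_one]
    simp

theorem ring_pt (P : Polynomial ℂ) (hP : P.Monic) (N : ℕ) (hN : P.natDegree < N) (ζ u : ℂ)
    (hζ : IsPrimitiveRoot ζ N) :
    N * (‖u‖ ^ P.natDegree) ^ 2 ≤ ∑ j ∈ Finset.range N, ‖P.eval (u * ζ ^ j)‖ ^ 2 := by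
  have hN0 : N ≠ 0 := by omega
  have hz : ‖ζ‖ = 1 := hζ.norm'_eq_one hN0
  have h1 : N * ‖u‖ ^ P.natDegree ≤ ∑ j ∈ Finset.range N, ‖P.eval (u * ζ ^ j)‖ := by
    have := norm_sum_le (Finset.range N)
      (fun j => P.eval (u * ζ ^ j) * (ζ ^ j) ^ (N - P.natDegree))
    rw [top_coeff P hP N hN ζ u hζ] at this
    simpa [hz] using this
  have h2 := sq_sum_le_card_mul_sum_sq (s := Finset.range N) (f := fun j => ‖P.eval (u * ζ ^ j)‖)
  rw [Finset.card_range] at h2
  have h3 := (pow_le_pow_left₀ (by positivity) h1 2).trans h2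
  have hpos : (0 : ℝ) < N := by positivity
  refine le_of_mul_le_mul_left ?_ hpos
  nlinarith

theorem g_eq (k j : ℕ) (t : ℝ) : g k j t = circleMap 0 (rad k) (phi t / ((k : ℝ) + 1)) *
    Complex.exp (2 * π * I / NN k) ^ j := by
  unfold g ang circleMap
  rw [← Complex.exp_nat_mul, zero_add, zero_add, mul_assoc (rad k : ℂ), ← Complex.exp_add]
  congr 2
  push_cast
  ring

theorem int_mu (P : Polynomial ℂ) : Integrable (fun z => ‖P.eval z‖ ^ 2) mu := by
  have hc : Continuous fun z : ℂ => ‖P.eval z‖ ^ 2 := by fun_prop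
  obtain ⟨C, hC⟩ := (isCompact_closedBall (0 : ℂ) 2).exists_bound_of_continuousOn hc.continuousOn
  refine Integrable.of_bound hc.aestronglyMeasurable C ?_
  filter_upwards [mu_ball] with x hx using hC x hx

theorem int_g (P : Polynomial ℂ) (k j : ℕ) :
    Integrable (fun t => ‖P.eval (g k j t)‖ ^ 2) lam := by
  have hc : Continuous fun z : ℂ => ‖P.eval z‖ ^ 2 := by fun_prop
  obtain ⟨C, hC⟩ := (isCompact_closedBall (0 : ℂ) 2).exists_bound_of_continuousOn hc.continuousOn
  refine Integrable.of_bound (hc.measurable.comp (g_meas k j)).aestronglyMeasurable C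
    (Eventually.of_forall fun t => hC _ ?_)
  rw [mem_closedBall_zero_iff, g_norm]
  exact rad_le k

theorem ring_int (P : Polynomial ℂ) (hP : P.Monic) (k : ℕ) (hN : P.natDegree < NN k) :
    (rad k ^ P.natDegree) ^ 2 ≤ ∫ z, ‖P.eval z‖ ^ 2 ∂(ring k) := by
  have hc : Continuous fun z : ℂ => ‖P.eval z‖ ^ 2 := by fun_prop
  have hi : ∀ j, Integrable (fun z => ‖P.eval z‖ ^ 2) (piece k j) := fun j => by
    rw [piece, integrable_map_measure hc.aestronglyMeasurable (g_meas k j).aemeasurable]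
    exact int_g P k j
  have h1 : ∀ j, ∫ z, ‖P.eval z‖ ^ 2 ∂(piece k j) = ∫ t, ‖P.eval (g k j t)‖ ^ 2 ∂lam := fun j => by
    rw [piece, integral_map (g_meas k j).aemeasurable hc.aestronglyMeasurable]
  rw [ring, integral_smul_measure, integral_finsetSum_measure fun j _ => hi j]
  simp_rw [h1]
  rw [← integral_finsetSum _ fun j _ => int_g P k j]
  have hpos : (0 : ℝ) < NN k := by exact_mod_cast NN_pos k
  have h2 : ∀ t, NN k * (rad k ^ P.natDegree) ^ 2
      ≤ ∑ j ∈ Finset.range (NN k), ‖P.eval (g k j t)‖ ^ 2 := by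
    intro t
    have := ring_pt P hP (NN k) hN _ (circleMap 0 (rad k) (phi t / ((k : ℝ) + 1)))
      (Complex.isPrimitiveRoot_exp (NN k) (NN_pos k).ne')
    rw [norm_circleMap_zero, abs_of_pos (by linarith [rad_gt k])] at this
    simp_rw [g_eq]
    exact this
  have h3 := integral_mono (integrable_const _)
    (integrable_finsetSum _ fun j _ => int_g P k j) h2
  simp only [integral_const, probReal_univ, smul_eq_mul, one_mul] at h3
  simp only [ENNReal.toReal_inv, ENNReal.toReal_natCast, smul_eq_mul]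
  rw [le_inv_mul_iff₀ hpos]
  exact h3

theorem rad_pow (k : ℕ) : 2 ≤ rad k ^ (k + 1) := by
  have hk : (0 : ℝ) < (k : ℝ) + 1 := by positivity
  have := one_add_mul_le_pow (a := 1 / ((k : ℝ) + 1))
    (le_trans (by norm_num) (by positivity : (0 : ℝ) ≤ 1 / ((k : ℝ) + 1))) (k + 1)
  push_cast at this
  rw [mul_one_div_cancel hk.ne'] at this
  unfold rad
  linarith

theorem mu_low (P : Polynomial ℂ) (hP : P.Monic) (hn : 9 ≤ P.natDegree) :
    1 ≤ ∫ z, ‖P.eval z‖ ^ 2 ∂mu := by
  set n := P.natDegree with hnn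
  set k := Nat.sqrt n with hk
  have h1 : n < NN k := Nat.lt_succ_sqrt' n
  have h2 : k * k ≤ n := Nat.sqrt_le n
  have h3 : 3 ≤ k := Nat.le_sqrt.2 hn
  have h4 := ring_int P hP k h1
  have h5 := integral_mono_measure (ring_le k) (Eventually.of_forall fun z => by positivity)
    (int_mu P)
  rw [integral_smul_measure] at h5
  simp only [ENNReal.toReal_pow, ENNReal.toReal_inv, ENNReal.toReal_ofNat, smul_eq_mul] at h5
  have h6 : (2 : ℝ) ^ (k + 1) ≤ (rad k ^ n) ^ 2 := by
    calc (2 : ℝ) ^ (k + 1) ≤ (rad k ^ (k + 1)) ^ (k + 1) :=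
          pow_le_pow_left₀ (by norm_num) (rad_pow k) _
      _ ≤ (rad k ^ n) ^ 2 := by
          rw [← pow_mul, ← pow_mul]
          exact pow_le_pow_right₀ (rad_gt k).le (by nlinarith)
  refine le_trans ?_ h5
  rw [inv_pow, le_inv_mul_iff₀ (by positivity), mul_one]
  exact h6.trans h4

end Pool.Agent.H21.Wid
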