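import Mathlib

set_option autoImplicit false

open scoped ENNReal

namespace Pool.Agent.H21.Xi

/-- The kernel `Φ(t) = 2 ∑_{n ≥ 1} (2π²n⁴e^{9t/2} - 3πn²e^{5t/2}) exp(-πn²e^{2t})`
(the summation index `n` below stands for `n + 1`). -/
noncomputable def Phi (t : ℝ) : ℝ :=
  2 * ∑' n : ℕ, (2 * Real.pi ^ 2 * ((n : ℝ) + 1) ^ 4 * Real.exp (9 * t / 2)
      - 3 * Real.pi * ((n : ℝ) + 1) ^ 2 * Real.exp (5 * t / 2))
      * Real.exp (-Real.pi * ((n : ℝ) + 1) ^ 2 * Real.exp (2 * t))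

/-- The deformed Xi function `Ξ_λ(z) = ∫ Φ(t) e^{λ t²} e^{i z t} dt`. -/
noncomputable def XiL (lam : ℝ) (z : ℂ) : ℂ :=
  ∫ t : ℝ, (Phi t : ℂ) * Complex.exp ((lam : ℂ) * (t : ℂ) ^ 2) * Complex.exp (Complex.I * z * t)

/-- Number of zeros of `f` in the set `S`, counted with multiplicity (a value in `[0, ∞]`):
the sum over `z ∈ S` of the order of vanishing of `f` at `z`. -/
noncomputable def cnt (f : ℂ → ℂ) (S : Set ℂ) : ℝ≥0∞ :=
  ∑' z : S, ((analyticOrderAt f (z : ℂ) : ℕ∞) : ℝ≥0∞)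

end Pool.Agent.H21.Xi
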