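import Mathlib

set_option autoImplicit false

open Complex Set Filter Topology Finset

namespace Pool.Agent.H21.Xi

lemma norm_add_nat_ge (z : ℂ) (hz : 0 ≤ z.re) (j : ℕ) :
    ‖z‖ ^ 2 + (j : ℝ) ^ 2 ≤ ‖z + j‖ ^ 2 := by
  rw [Complex.sq_norm, Complex.sq_norm, normSq_apply, normSq_apply]
  simp only [add_re, natCast_re, add_im, natCast_im, add_zero]
  have : (0 : ℝ) ≤ j := Nat.cast_nonneg j
  nlinarith

lemma sum_inv_sq_le (z : ℂ) (hz : 0 ≤ z.re) (h1 : 1 ≤ ‖z‖) (N : ℕ) :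
    ∑ j ∈ range N, 1 / ‖z + j‖ ^ 2 ≤ 4 / ‖z‖ := by
  have key : ∀ N : ℕ, ∑ j ∈ range N, 1 / ‖z + j‖ ^ 2 ≤
      2 / (‖z‖ - 1 / 2) - 2 / (‖z‖ + N - 1 / 2) := by
    intro N
    induction N with
    | zero => simp
    | succ N ih =>
      rw [sum_range_succ]
      have hN : (0 : ℝ) ≤ N := Nat.cast_nonneg N
      have h2 := norm_add_nat_ge z hz N
      have h3 : 1 / ‖z + N‖ ^ 2 ≤ 2 / (‖z‖ + N - 1 / 2) - 2 / (‖z‖ + (N + 1 : ℕ) - 1 / 2) := by
        push_cast
        have ha : 0 < ‖z‖ + N - 1 / 2 := by linarith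
        have hb : 0 < ‖z‖ + (N + 1) - 1 / 2 := by linarith
        rw [div_sub_div _ _ ha.ne' hb.ne', div_le_div_iff₀ (by nlinarith) (by positivity)]
        nlinarith [sq_nonneg (‖z‖ - N)]
      linarith
  refine (key N).trans ?_
  have hN : (0 : ℝ) ≤ N := Nat.cast_nonneg N
  have h2 : 0 ≤ 2 / (‖z‖ + N - 1 / 2) := div_nonneg (by norm_num) (by linarith)
  have h3 : 2 / (‖z‖ - 1 / 2) ≤ 4 / ‖z‖ := by
    rw [div_le_div_iff₀ (by linarith) (by linarith)]; linarith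
  linarith

lemma norm_log_sub_le {x : ℂ} (hx : ‖x‖ ≤ 1 / 2) : ‖log (1 + x) - x‖ ≤ ‖x‖ ^ 2 := by
  refine (norm_log_one_add_sub_self_le (by linarith)).trans ?_
  have : (1 - ‖x‖)⁻¹ ≤ 2 := by
    rw [inv_le_comm₀ (by linarith) (by norm_num)]; linarith
  nlinarith [sq_nonneg ‖x‖]

lemma one_add_ne_zero' {x : ℂ} (hx : ‖x‖ ≤ 1 / 2) : 0 < (1 + x).re := by
  have := (abs_le.1 (abs_re_le_norm x)).1
  simp only [add_re, one_re]; linarith

lemma norm_exp_sub_one_le' (x : ℂ) (D : ℝ) (h : ‖x‖ ≤ D) : ‖exp x - 1‖ ≤ Real.exp D - 1 := by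
  have := norm_exp_sub_sum_le_exp_norm_sub_sum x 1
  simp only [range_one, sum_singleton, pow_zero, Nat.factorial_zero, Nat.cast_one, div_one] at this
  have h2 := Real.exp_le_exp.2 h
  linarith

lemma log_succ_eq (u : ℂ) (hu : 0 ≤ u.re) (h2 : 2 ≤ ‖u‖) :
    log (u + 1) = log u + log (1 + 1 / u) := by
  have hu0 : u ≠ 0 := by rintro rfl; norm_num at h2
  have hy : ‖1 / u‖ ≤ 1 / 2 := by
    rw [norm_div, norm_one]; exact one_div_le_one_div_of_le (by norm_num) h2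
  have hre := one_add_ne_zero' hy
  have h1 : (1 + 1 / u) ≠ 0 := fun h => by rw [h] at hre; simp at hre
  rw [← (log_mul_eq_add_log_iff hu0 h1).2]
  · congr 1; field_simp
  · have a1 := abs_le.1 (abs_arg_le_pi_div_two_iff.2 hu)
    have a2 := abs_lt.1 (abs_arg_lt_pi_div_two_iff.2 (Or.inl hre))
    constructor <;> linarith [a1.1, a1.2, a2.1, a2.2]

lemma prod_ratio (z w : ℂ) (hz : 0 ≤ z.re) (h2 : 2 ≤ ‖z‖) (hw : ‖w‖ ≤ ‖z‖ / 2) (N : ℕ) :
    ∃ φ : ℂ, ‖φ‖ ≤ (‖w‖ + ‖w‖ ^ 2) * ∑ j ∈ range N, 1 / ‖z + j‖ ^ 2 ∧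
      (∏ j ∈ range N, (z + w + j)) * exp φ =
        (∏ j ∈ range N, (z + j)) * exp (w * (log (z + N) - log z)) := by
  induction N with
  | zero => exact ⟨0, by simp, by simp⟩
  | succ N ih =>
    obtain ⟨φ, hφ, he⟩ := ih
    have hN : (0 : ℝ) ≤ N := Nat.cast_nonneg N
    have hge : ‖z‖ ≤ ‖z + N‖ := by
      have := norm_add_nat_ge z hz N
      exact le_of_sq_le_sq (by nlinarith) (norm_nonneg _)
    have hpos : 0 < ‖z + N‖ := by linarith
    have hu0 : z + N ≠ 0 := norm_pos_iff.1 hpos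
    have hx : ‖w / (z + N)‖ ≤ 1 / 2 := by
      rw [norm_div, div_le_iff₀ hpos]; linarith
    have hy : ‖1 / (z + N)‖ ≤ 1 / 2 := by
      rw [norm_div, norm_one]; exact one_div_le_one_div_of_le (by norm_num) (by linarith)
    have hre := one_add_ne_zero' hx
    have h1 : (1 + w / (z + N)) ≠ 0 := fun h => by rw [h] at hre; simp at hre
    refine ⟨φ + (w * log (1 + 1 / (z + N)) - log (1 + w / (z + N))), ?_, ?_⟩
    · rw [sum_range_succ, mul_add]
      refine norm_add_le_of_le hφ ?_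
      have e : w * log (1 + 1 / (z + N)) - log (1 + w / (z + N)) =
          w * (log (1 + 1 / (z + N)) - 1 / (z + N)) - (log (1 + w / (z + N)) - w / (z + N)) := by
        ring
      rw [e]
      refine (norm_sub_le _ _).trans ?_
      have b1 := norm_log_sub_le hx
      have b2 := norm_log_sub_le hy
      rw [norm_div, div_pow] at b1
      rw [norm_div, norm_one, div_pow, one_pow] at b2
      rw [norm_mul]
      have : ‖w‖ * ‖log (1 + 1 / (z + N)) - 1 / (z + N)‖ ≤ ‖w‖ * (1 / ‖z + N‖ ^ 2) := by gcongr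
      have e2 : ‖w‖ ^ 2 / ‖z + N‖ ^ 2 = ‖w‖ ^ 2 * (1 / ‖z + N‖ ^ 2) := by ring
      linarith
    · have hl := log_succ_eq (z + N) (by simpa using add_nonneg hz hN) (by linarith)
      rw [prod_range_succ, prod_range_succ]
      push_cast
      rw [← add_assoc z, hl]
      have e1 : z + w + N = (z + N) * exp (log (1 + w / (z + N))) := by
        rw [exp_log h1]; field_simp; ring
      have e2 : exp (log (1 + w / (z + N))) *
          exp (φ + (w * log (1 + 1 / (z + N)) - log (1 + w / (z + N)))) =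
          exp φ * exp (w * log (1 + 1 / (z + N))) := by
        rw [← exp_add, ← exp_add]; congr 1; ring
      have e3 : exp (w * (log (z + N) + log (1 + 1 / (z + N)) - log z)) =
          exp (w * (log (z + N) - log z)) * exp (w * log (1 + 1 / (z + N))) := by
        rw [← exp_add]; congr 1; ring
      rw [e1, e3]
      linear_combination (∏ j ∈ range N, (z + w + j)) * (z + N) * e2 +
        (z + N) * exp (w * log (1 + 1 / (z + N))) * he

lemma tendsto_log_sub (z : ℂ) (hz : 0 ≤ z.re) :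
    Tendsto (fun n : ℕ => log (n : ℂ) - log (z + ((n + 1 : ℕ) : ℂ))) atTop (𝓝 0) := by
  have h1 : Tendsto (fun n : ℕ => 1 + (z + 1) / (n : ℂ)) atTop (𝓝 1) := by
    have := (tendsto_const_div_atTop_nhds_zero_nat (𝕜 := ℂ) (z + 1)).const_add 1
    simpa using this
  have h2 : Tendsto (fun n : ℕ => log (1 + (z + 1) / (n : ℂ))) atTop (𝓝 0) := by
    have := h1.clog (by simp)
    simpa using this
  have h3 := h2.neg
  rw [neg_zero] at h3
  refine h3.congr' ?_
  filter_upwards [eventually_gt_atTop 0] with n hn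
  have hn' : (0 : ℝ) < n := by exact_mod_cast hn
  have hnc : (n : ℂ) ≠ 0 := by exact_mod_cast hn.ne'
  have hne : 1 + (z + 1) / (n : ℂ) ≠ 0 := by
    intro h
    have h' : z + 1 + n = 0 := by field_simp at h; linear_combination h
    have := congrArg Complex.re h'
    simp at this
    linarith
  have e : z + ((n + 1 : ℕ) : ℂ) = ((n : ℝ) : ℂ) * (1 + (z + 1) / (n : ℂ)) := by
    push_cast; field_simp; ring
  rw [e, log_ofReal_mul hn' hne, ofReal_log hn'.le]
  simp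

/-- Ratio of Gamma values: `Γ(z+w) ≈ Γ(z) z^w`. -/
lemma gamma_ratio (z w : ℂ) (hz : 0 < z.re) (h2 : 2 ≤ ‖z‖) (hw : ‖w‖ ≤ ‖z‖ / 2) :
    ‖Gamma (z + w) - Gamma z * exp (w * log z)‖ ≤
      (Real.exp (4 * (‖w‖ + ‖w‖ ^ 2) / ‖z‖) - 1) * ‖Gamma z * exp (w * log z)‖ := by
  set D := 4 * (‖w‖ + ‖w‖ ^ 2) / ‖z‖ with hD
  let Y : ℕ → ℂ := fun n => GammaSeq z n * exp (w * log z) *
    exp (w * (log (n : ℂ) - log (z + ((n + 1 : ℕ) : ℂ))))
  have hY : Tendsto Y atTop (𝓝 (Gamma z * exp (w * log z))) := by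
    have h1 := ((tendsto_log_sub z hz.le).const_mul w).cexp
    have := ((GammaSeq_tendsto_Gamma z).mul_const (exp (w * log z))).mul h1
    rw [mul_zero, exp_zero, mul_one] at this
    exact this
  have hX := GammaSeq_tendsto_Gamma (z + w)
  refine le_of_tendsto_of_tendsto (hX.sub hY).norm (hY.norm.const_mul (Real.exp D - 1)) ?_
  filter_upwards [eventually_gt_atTop 0] with n hn
  obtain ⟨φ, hφ, he⟩ := prod_ratio z w hz.le h2 hw (n + 1)
  have hφD : ‖φ‖ ≤ D := by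
    refine hφ.trans ?_
    have := sum_inv_sq_le z hz.le (by linarith) (n + 1)
    calc _ ≤ (‖w‖ + ‖w‖ ^ 2) * (4 / ‖z‖) := by gcongr
      _ = D := by rw [hD]; ring
  have hnc : (n : ℂ) ≠ 0 := by exact_mod_cast hn.ne'
  have hP : (∏ j ∈ range (n + 1), (z + j)) ≠ 0 := by
    refine prod_ne_zero_iff.2 fun j _ h => ?_
    have := congrArg Complex.re h
    simp at this
    have : (0 : ℝ) ≤ j := Nat.cast_nonneg j
    linarith
  have hP' : (∏ j ∈ range (n + 1), (z + w + j)) ≠ 0 := by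
    intro h
    rw [h, zero_mul] at he
    exact (mul_ne_zero hP (exp_ne_zero _)) he.symm
  have hkey : GammaSeq (z + w) n = Y n * exp φ := by
    simp only [Y, GammaSeq]
    rw [cpow_add _ _ hnc, cpow_def_of_ne_zero hnc w]
    have e1 : exp (w * log z) * exp (w * (log (n : ℂ) - log (z + ((n + 1 : ℕ) : ℂ)))) *
        exp (w * (log (z + ((n + 1 : ℕ) : ℂ)) - log z)) = exp (log (n : ℂ) * w) := by
      rw [← exp_add, ← exp_add]; congr 1; ring
    field_simp
    rw [← e1]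
    linear_combination (-((n : ℂ) ^ z * (n.factorial : ℂ) * exp (w * log z) *
      exp (w * (log (n : ℂ) - log (z + ((n + 1 : ℕ) : ℂ)))))) * he
  show ‖GammaSeq (z + w) n - Y n‖ ≤ (Real.exp D - 1) * ‖Y n‖
  rw [hkey, show Y n * exp φ - Y n = (exp φ - 1) * Y n by ring, norm_mul]
  gcongr
  exact norm_exp_sub_one_le' φ D hφD

lemma norm_Gamma_le (z : ℂ) (hz : 0 < z.re) : ‖Gamma z‖ ≤ Real.Gamma z.re := by
  rw [Gamma_eq_integral hz, Real.Gamma_eq_integral hz, GammaIntegral]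
  refine (MeasureTheory.norm_integral_le_integral_norm _).trans (le_of_eq ?_)
  refine MeasureTheory.setIntegral_congr_fun measurableSet_Ioi fun x hx => ?_
  rw [norm_mul, Complex.norm_of_nonneg (Real.exp_pos _).le, norm_cpow_eq_rpow_re_of_pos hx]
  simp

lemma real_Gamma_le (x : ℝ) (hx : 2 ≤ x) : Real.Gamma x ≤ Real.exp ((x + 1) ^ 2) := by
  set n := ⌈x⌉₊ with hn
  have h1 : x ≤ n := Nat.le_ceil x
  have h2 : (n : ℝ) < x + 1 := Nat.ceil_lt_add_one (by linarith)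
  have h3 : Real.Gamma x ≤ Real.Gamma (n + 1) :=
    Real.Gamma_strictMonoOn_Ici.monotoneOn (by simpa using hx)
      (by simp only [Set.mem_Ici]; linarith) (by linarith)
  rw [Real.Gamma_nat_eq_factorial] at h3
  have h4 : (n.factorial : ℝ) ≤ (n : ℝ) ^ n := by exact_mod_cast Nat.factorial_le_pow n
  have h5 : (n : ℝ) ^ n ≤ (Real.exp n) ^ n := by
    gcongr
    linarith [Real.add_one_le_exp (n : ℝ)]
  rw [← Real.exp_nat_mul] at h5
  have h6 : Real.exp (n * n) ≤ Real.exp ((x + 1) ^ 2) := by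
    apply Real.exp_le_exp.2
    nlinarith
  linarith

lemma norm_sin_le_exp (z : ℂ) : ‖sin z‖ ≤ Real.exp |z.im| := by
  rw [Complex.sin, norm_div, norm_mul, norm_I, mul_one]
  have h1 : ‖exp (-z * I)‖ ≤ Real.exp |z.im| := by
    rw [norm_exp]; apply Real.exp_le_exp.2; simpa using le_abs_self _
  have h2 : ‖exp (z * I)‖ ≤ Real.exp |z.im| := by
    rw [norm_exp]; apply Real.exp_le_exp.2; simpa using neg_le_abs _
  have h3 := norm_sub_le (exp (-z * I)) (exp (z * I))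
  simp only [Complex.norm_ofNat]
  linarith

lemma norm_Gamma_half_ge (t : ℝ) :
    Real.sqrt Real.pi * Real.exp (-(Real.pi * |t|)) ≤ ‖Gamma (1 / 2 + t * I)‖ := by
  have h := Gamma_mul_Gamma_one_sub (1 / 2 + t * I)
  have hne : ∀ s : ℝ, Gamma (1 / 2 + s * I) ≠ 0 := fun s =>
    Gamma_ne_zero_of_re_pos (by simp)
  have e : (1 : ℂ) - (1 / 2 + t * I) = 1 / 2 + ((-t : ℝ) : ℂ) * I := by push_cast; ring
  have hs : sin (Real.pi * (1 / 2 + t * I)) ≠ 0 := by
    intro h0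
    rw [h0, div_zero, e] at h
    exact mul_ne_zero (hne t) (hne (-t)) h
  have h1 : ‖Gamma (1 - (1 / 2 + t * I))‖ ≤ Real.sqrt Real.pi := by
    have := norm_Gamma_le (1 - (1 / 2 + t * I)) (by simp; norm_num)
    have e2 : (1 - (1 / 2 + t * I) : ℂ).re = 1 / 2 := by simp; norm_num
    rwa [e2, Real.Gamma_one_half_eq] at this
  have h2 := norm_sin_le_exp (Real.pi * (1 / 2 + t * I))
  have e3 : |((Real.pi : ℂ) * (1 / 2 + t * I)).im| = Real.pi * |t| := by
    simp [abs_mul, abs_of_pos Real.pi_pos]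
  rw [e3] at h2
  have h3 := congrArg norm h
  rw [norm_mul, norm_div, Complex.norm_real, Real.norm_of_nonneg Real.pi_pos.le,
    eq_div_iff (norm_ne_zero_iff.2 hs)] at h3
  have hsq : Real.sqrt Real.pi * Real.sqrt Real.pi = Real.pi := Real.mul_self_sqrt Real.pi_pos.le
  have hsp : 0 < Real.sqrt Real.pi := Real.sqrt_pos.2 Real.pi_pos
  have h4 : Real.pi ≤ ‖Gamma (1 / 2 + t * I)‖ * Real.sqrt Real.pi * Real.exp (Real.pi * |t|) := by
    calc Real.pi = _ := h3.symm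
      _ ≤ _ := by gcongr
  rw [Real.exp_neg, ← div_eq_mul_inv, div_le_iff₀ (Real.exp_pos _)]
  nlinarith [mul_nonneg (norm_nonneg (Gamma (1 / 2 + t * I))) (Real.exp_pos (Real.pi * |t|)).le]

lemma norm_Gamma_five_half_ge (t : ℝ) :
    Real.exp (-(4 * |t|)) ≤ ‖Gamma (5 / 2 + t * I)‖ := by
  have e1 : (5 / 2 + t * I : ℂ) = (1 / 2 + t * I + 1) + 1 := by ring
  have n1 : (1 / 2 + t * I : ℂ) ≠ 0 := fun h => by
    have := congrArg Complex.re h; simp at this
  have n2 : (1 / 2 + t * I + 1 : ℂ) ≠ 0 := fun h => by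
    have := congrArg Complex.re h; simp at this; norm_num at this
  rw [e1, Gamma_add_one _ n2, Gamma_add_one _ n1, norm_mul, norm_mul]
  have b1 : 1 / 2 ≤ ‖(1 / 2 + t * I : ℂ)‖ := by
    have := re_le_norm (1 / 2 + t * I : ℂ); simpa using this
  have b2 : 3 / 2 ≤ ‖(1 / 2 + t * I + 1 : ℂ)‖ := by
    have := re_le_norm (1 / 2 + t * I + 1 : ℂ); simp at this; norm_num at this ⊢; linarith
  have b3 := norm_Gamma_half_ge t
  have b4 : 3 / 2 ≤ Real.sqrt Real.pi := Real.le_sqrt_of_sq_le (by linarith [Real.pi_gt_three])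
  have b5 : Real.exp (-(4 * |t|)) ≤ Real.exp (-(Real.pi * |t|)) := by
    apply Real.exp_le_exp.2
    nlinarith [Real.pi_le_four, abs_nonneg t]
  have b6 : 3 / 2 * Real.exp (-(4 * |t|)) ≤ ‖Gamma (1 / 2 + t * I)‖ :=
    le_trans (by gcongr) b3
  calc Real.exp (-(4 * |t|)) ≤ 3 / 2 * (1 / 2 * (3 / 2 * Real.exp (-(4 * |t|)))) := by
        nlinarith [Real.exp_pos (-(4 * |t|))]
    _ ≤ _ := by gcongr

/-- The gamma factor `(s-1) π^{-s/2} Γ(1+s/2)`. -/
noncomputable def gam (s : ℂ) : ℂ :=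
  (s - 1) * exp (-(s / 2) * (Real.log Real.pi : ℂ)) * Gamma (1 + s / 2)

/-- The logarithmic slope of the gamma factor at `3 + iτ`. -/
noncomputable def ell (τ : ℝ) : ℂ := (log (5 / 2 + (τ / 2 : ℝ) * I) - (Real.log Real.pi : ℂ)) / 2

lemma norm_z_bounds (τ : ℝ) :
    |τ| / 2 ≤ ‖(5 / 2 + (τ / 2 : ℝ) * I : ℂ)‖ ∧ ‖(5 / 2 + (τ / 2 : ℝ) * I : ℂ)‖ ≤ 5 / 2 + |τ| / 2 := by
  constructor
  · have := abs_im_le_norm (5 / 2 + (τ / 2 : ℝ) * I : ℂ)
    simpa [abs_div] using this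
  · refine (norm_add_le _ _).trans ?_
    simp [abs_div]

lemma log_pi_bounds : 1 ≤ Real.log Real.pi ∧ Real.log Real.pi ≤ 4 / 3 := by
  constructor
  · rw [Real.le_log_iff_exp_le Real.pi_pos]
    linarith [Real.exp_one_lt_d9, Real.pi_gt_three]
  · have h1 : Real.log Real.pi ≤ Real.log (2 ^ 2 * (4 / 5)) :=
      Real.log_le_log Real.pi_pos (by linarith [Real.pi_lt_d2])
    rw [Real.log_mul (by norm_num) (by norm_num), Real.log_pow] at h1
    have := Real.log_le_sub_one_of_pos (show (0 : ℝ) < 4 / 5 by norm_num)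
    have := Real.log_two_lt_d9
    push_cast at h1
    linarith

lemma ell_bounds (τ : ℝ) (h : 64 ≤ |τ|) :
    Real.log |τ| / 4 ≤ (ell τ).re ∧ (ell τ).re ≤ Real.log |τ| / 2 ∧ |(ell τ).im| ≤ 1 := by
  obtain ⟨h1, h2⟩ := norm_z_bounds τ
  obtain ⟨p1, p2⟩ := log_pi_bounds
  have hre : (ell τ).re = (Real.log ‖(5 / 2 + (τ / 2 : ℝ) * I : ℂ)‖ - Real.log Real.pi) / 2 := by
    simp only [ell, div_ofNat_re, sub_re, log_re, ofReal_re]
  have him : (ell τ).im = arg (5 / 2 + (τ / 2 : ℝ) * I : ℂ) / 2 := by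
    simp only [ell, div_ofNat_im, sub_im, log_im, ofReal_im, sub_zero]
  have a1 : Real.log (|τ| / 2) ≤ Real.log ‖(5 / 2 + (τ / 2 : ℝ) * I : ℂ)‖ :=
    Real.log_le_log (by linarith) h1
  have a2 : Real.log ‖(5 / 2 + (τ / 2 : ℝ) * I : ℂ)‖ ≤ Real.log |τ| :=
    Real.log_le_log (by linarith) (by linarith)
  rw [Real.log_div (by linarith) (by norm_num)] at a1
  have a3 : Real.log (2 ^ 6) ≤ Real.log |τ| := Real.log_le_log (by norm_num) (by linarith)
  rw [Real.log_pow] at a3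
  push_cast at a3
  have l1 := Real.log_two_gt_d9
  have l2 := Real.log_two_lt_d9
  refine ⟨by rw [hre]; linarith, by rw [hre]; linarith, ?_⟩
  rw [him, abs_div, abs_two]
  have := (abs_arg_le_pi_div_two_iff (z := (5 / 2 + (τ / 2 : ℝ) * I : ℂ))).2 (by simp; norm_num)
  linarith [Real.pi_le_four]

lemma gam_base (τ : ℝ) (w : ℂ) : gam (3 + τ * I) * exp (w * ell τ) =
    (2 + τ * I) * (exp (-((3 + τ * I + w) / 2) * (Real.log Real.pi : ℂ)) *
      (Gamma (5 / 2 + (τ / 2 : ℝ) * I) * exp (w / 2 * log (5 / 2 + (τ / 2 : ℝ) * I)))) := by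
  have e1 : (1 + (3 + τ * I) / 2 : ℂ) = 5 / 2 + (τ / 2 : ℝ) * I := by push_cast; ring
  have e2 : exp (-((3 + τ * I) / 2) * (Real.log Real.pi : ℂ)) * exp (w * ell τ) =
      exp (-((3 + τ * I + w) / 2) * (Real.log Real.pi : ℂ)) *
        exp (w / 2 * log (5 / 2 + (τ / 2 : ℝ) * I)) := by
    rw [← exp_add, ← exp_add, ell]; congr 1; ring
  rw [gam, e1]
  linear_combination (2 + τ * I) * Gamma (5 / 2 + (τ / 2 : ℝ) * I) * e2

lemma gam_central (τ : ℝ) (w : ℂ) (h : 64 ≤ |τ|) (hw : ‖w‖ ≤ |τ| / 2) :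
    ‖gam (3 + τ * I + w) - gam (3 + τ * I) * exp (w * ell τ)‖ ≤
      (Real.exp ((5 * ‖w‖ ^ 2 + 3) / |τ|) - 1) * ‖gam (3 + τ * I) * exp (w * ell τ)‖ := by
  obtain ⟨h1, h2⟩ := norm_z_bounds τ
  set z : ℂ := 5 / 2 + (τ / 2 : ℝ) * I with hz
  have hT : 0 < |τ| := by linarith
  have hw2 : ‖w / 2‖ = ‖w‖ / 2 := by simp
  have hr := gamma_ratio z (w / 2) (by simp [hz]) (by linarith) (by rw [hw2]; linarith)
  have e1 : (1 + (3 + τ * I + w) / 2 : ℂ) = z + w / 2 := by rw [hz]; push_cast; ring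
  rw [gam_base, gam, e1]
  set X := Gamma (z + w / 2)
  set Y := Gamma z * exp (w / 2 * log z)
  set Ex := exp (-((3 + τ * I + w) / 2) * (Real.log Real.pi : ℂ))
  set D := 4 * (‖w / 2‖ + ‖w / 2‖ ^ 2) / ‖z‖ with hD
  have hA : |τ| ≤ ‖(2 + τ * I : ℂ)‖ := by
    have := abs_im_le_norm (2 + τ * I : ℂ); simpa using this
  have e2 : (3 + τ * I + w - 1) * Ex * X - (2 + τ * I) * (Ex * Y) =
      Ex * ((2 + τ * I + w) * (X - Y) + w * Y) := by ring
  rw [e2, norm_mul, norm_mul, norm_mul]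
  set A := ‖(2 + τ * I : ℂ)‖
  have hA0 : 0 < A := by linarith
  have b1 : ‖(2 + τ * I + w) * (X - Y) + w * Y‖ ≤
      (A + ‖w‖) * ((Real.exp D - 1) * ‖Y‖) + ‖w‖ * ‖Y‖ := by
    refine (norm_add_le _ _).trans ?_
    rw [norm_mul, norm_mul]
    gcongr
    exact norm_add_le _ _
  have hDle : D + ‖w‖ / |τ| ≤ (5 * ‖w‖ ^ 2 + 3) / |τ| := by
    have : D ≤ (2 * ‖w‖ ^ 2 + 4 * ‖w‖) / |τ| := by
      rw [hD, hw2]
      calc 4 * (‖w‖ / 2 + (‖w‖ / 2) ^ 2) / ‖z‖ ≤ 4 * (‖w‖ / 2 + (‖w‖ / 2) ^ 2) / (|τ| / 2) := by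
            gcongr
        _ = _ := by field_simp; ring
    refine le_trans (add_le_add this le_rfl) ?_
    rw [← add_div]
    refine div_le_div_of_nonneg_right ?_ hT.le
    nlinarith [sq_nonneg (‖w‖ - 1)]
  have b2 : (A + ‖w‖) * Real.exp D ≤ A * Real.exp ((5 * ‖w‖ ^ 2 + 3) / |τ|) := by
    have c1 : A + ‖w‖ ≤ A * Real.exp (‖w‖ / |τ|) := by
      have := Real.add_one_le_exp (‖w‖ / |τ|)
      have c2 : ‖w‖ ≤ A * (‖w‖ / |τ|) := by
        rw [mul_div_assoc', le_div_iff₀ hT]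
        nlinarith [norm_nonneg w]
      nlinarith
    calc (A + ‖w‖) * Real.exp D ≤ A * Real.exp (‖w‖ / |τ|) * Real.exp D := by gcongr
      _ = A * Real.exp (D + ‖w‖ / |τ|) := by rw [Real.exp_add]; ring
      _ ≤ _ := by gcongr
  calc ‖Ex‖ * ‖(2 + τ * I + w) * (X - Y) + w * Y‖
      ≤ ‖Ex‖ * ((A + ‖w‖) * ((Real.exp D - 1) * ‖Y‖) + ‖w‖ * ‖Y‖) := by gcongr
    _ = ‖Ex‖ * ‖Y‖ * ((A + ‖w‖) * Real.exp D - A) := by ring
    _ ≤ ‖Ex‖ * ‖Y‖ * (A * Real.exp ((5 * ‖w‖ ^ 2 + 3) / |τ|) - A) := by gcongr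
    _ = _ := by ring

lemma gam_upper (s : ℂ) (hs : 3 ≤ s.re) :
    ‖gam s‖ ≤ ‖s - 1‖ * Real.exp ((s.re / 2 + 2) ^ 2) := by
  rw [gam, norm_mul, norm_mul]
  have h1 : ‖exp (-(s / 2) * (Real.log Real.pi : ℂ))‖ ≤ 1 := by
    rw [norm_exp, Real.exp_le_one_iff]
    simp only [mul_re, neg_re, div_ofNat_re, ofReal_re, ofReal_im, mul_zero, sub_zero]
    nlinarith [log_pi_bounds.1]
  have e : (1 + s / 2 : ℂ).re = 1 + s.re / 2 := by simp
  have h2 : ‖Gamma (1 + s / 2)‖ ≤ Real.exp ((s.re / 2 + 2) ^ 2) := by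
    have a1 := norm_Gamma_le (1 + s / 2) (by rw [e]; linarith)
    have a2 := real_Gamma_le (1 + s.re / 2) (by linarith)
    rw [e] at a1
    rw [show 1 + s.re / 2 + 1 = s.re / 2 + 2 by ring] at a2
    linarith
  calc _ ≤ ‖s - 1‖ * 1 * Real.exp ((s.re / 2 + 2) ^ 2) := by gcongr
    _ = _ := by ring

lemma gam_base_lower (τ : ℝ) (h : 64 ≤ |τ|) : Real.exp (-(2 + 2 * |τ|)) ≤ ‖gam (3 + τ * I)‖ := by
  have e1 : (1 + (3 + τ * I) / 2 : ℂ) = 5 / 2 + (τ / 2 : ℝ) * I := by push_cast; ring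
  rw [gam, e1, norm_mul, norm_mul]
  have h1 : 1 ≤ ‖(3 + τ * I - 1 : ℂ)‖ := by
    have := re_le_norm (3 + τ * I - 1 : ℂ); simp at this; linarith
  have h2 : Real.exp (-2) ≤ ‖exp (-((3 + τ * I) / 2) * (Real.log Real.pi : ℂ))‖ := by
    rw [norm_exp]
    apply Real.exp_le_exp.2
    simp only [mul_re, neg_re, div_ofNat_re, ofReal_re, ofReal_im, mul_zero, sub_zero, add_re,
      re_ofNat, I_re, I_im, mul_one, sub_self, add_zero]
    linarith [log_pi_bounds.2]
  have h3 := norm_Gamma_five_half_ge (τ / 2)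
  rw [abs_div, abs_two] at h3
  calc Real.exp (-(2 + 2 * |τ|)) = 1 * Real.exp (-2) * Real.exp (-(4 * (|τ| / 2))) := by
        rw [one_mul, ← Real.exp_add]; congr 1; ring
    _ ≤ _ := by gcongr

lemma gam_base_ne_zero (τ : ℝ) (h : 64 ≤ |τ|) : gam (3 + τ * I) ≠ 0 := by
  have := gam_base_lower τ h
  exact norm_pos_iff.1 (lt_of_lt_of_le (Real.exp_pos _) this)

/-- Uniform comparison of the gamma factor with its exponential model along a vertical line. -/
lemma gam_unif (τ y : ℝ) (w : ℂ) (hy : 8 ≤ y) (hτ : |τ| = y ^ 2) (hw0 : 0 ≤ w.re)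
    (hw : 5 * w.re ^ 2 + 3 ≤ y / 4) :
    ‖gam (3 + τ * I + w) - gam (3 + τ * I) * exp (w * ell τ)‖ ≤
      (Real.exp (25 * w.im ^ 2 / y) / y) * ‖gam (3 + τ * I) * exp (w * ell τ)‖ := by
  have h64 : 64 ≤ |τ| := by rw [hτ]; nlinarith
  have hy0 : 0 < y := by linarith
  have hx : w.re ≤ y / 4 := by nlinarith [sq_nonneg (w.re - 1)]
  have hyy : 8 * y ≤ y ^ 2 := by nlinarith
  by_cases hu : |w.im| ≤ y ^ 2 / 4
  · have hwn : ‖w‖ ≤ |τ| / 2 := by
      have := norm_le_abs_re_add_abs_im w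
      rw [abs_of_nonneg hw0] at this
      rw [hτ]; linarith
    refine (gam_central τ w h64 hwn).trans ?_
    gcongr
    set v := w.im ^ 2 / y with hv
    have hv0 : 0 ≤ v := by positivity
    set D := (5 * ‖w‖ ^ 2 + 3) / |τ| with hD
    have hDle : D ≤ (1 / 4 + 5 * v) / y := by
      rw [hD, hτ, Complex.sq_norm, normSq_apply, hv, div_le_div_iff₀ (by positivity) hy0]
      have : (1 / 4 + 5 * (w.im ^ 2 / y)) * y ^ 2 = (y / 4 + 5 * w.im ^ 2) * y := by
        field_simp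
      rw [this]
      refine mul_le_mul_of_nonneg_right ?_ hy0.le
      nlinarith
    have hD0 : 0 ≤ D := by positivity
    have hD2 : D ≤ 1 / 4 + 5 * v := by
      refine hDle.trans ?_
      rw [div_le_iff₀ hy0]; nlinarith
    have a1 : Real.exp D - 1 ≤ D * Real.exp D := by
      have := Real.add_one_le_exp (-D)
      have e : Real.exp (-D) * Real.exp D = 1 := by rw [← Real.exp_add]; simp
      nlinarith [Real.exp_pos D]
    have a2 : Real.exp D ≤ 2 * Real.exp (5 * v) := by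
      have : Real.exp (1 / 4) ≤ 2 := by
        have := Real.exp_one_lt_d9
        have h4 : Real.exp (1 / 4) ≤ Real.exp (Real.log 2) := by
          apply Real.exp_le_exp.2; linarith [Real.log_two_gt_d9]
        rwa [Real.exp_log (by norm_num)] at h4
      calc Real.exp D ≤ Real.exp (1 / 4 + 5 * v) := Real.exp_le_exp.2 hD2
        _ = Real.exp (1 / 4) * Real.exp (5 * v) := Real.exp_add _ _
        _ ≤ _ := by gcongr
    have a3 : 1 / 4 + 5 * v ≤ 1 / 4 * Real.exp (20 * v) := by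
      linarith [Real.add_one_le_exp (20 * v)]
    have a4 : 25 * w.im ^ 2 / y = 20 * v + 5 * v := by rw [hv]; ring
    rw [a4, Real.exp_add]
    calc Real.exp D - 1 ≤ D * Real.exp D := a1
      _ ≤ (1 / 4 * Real.exp (20 * v) / y) * (2 * Real.exp (5 * v)) := by
        gcongr
        exact hDle.trans (by gcongr)
      _ = (Real.exp (20 * v) * Real.exp (5 * v) / y) / 2 := by ring
      _ ≤ _ := by
        have : 0 ≤ Real.exp (20 * v) * Real.exp (5 * v) / y := by positivity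
        linarith
  · push Not at hu
    set u := |w.im| with hudef
    have hu16 : 16 ≤ u := by nlinarith
    obtain ⟨l1, l2, l3⟩ := ell_bounds τ h64
    have hlog : 0 ≤ Real.log |τ| := Real.log_nonneg (by linarith)
    have hM : Real.exp (-(2 + 9 * u)) ≤ ‖gam (3 + τ * I) * exp (w * ell τ)‖ := by
      rw [norm_mul, norm_exp]
      have c1 := gam_base_lower τ h64
      have c2 : -u ≤ (w * ell τ).re := by
        rw [mul_re]
        have : w.im * (ell τ).im ≤ u := by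
          calc _ ≤ |w.im * (ell τ).im| := le_abs_self _
            _ = u * |(ell τ).im| := abs_mul _ _
            _ ≤ u * 1 := by gcongr
            _ = u := mul_one _
        have : 0 ≤ w.re * (ell τ).re := mul_nonneg hw0 (by linarith)
        linarith
      calc Real.exp (-(2 + 9 * u)) ≤ Real.exp (-(2 + 2 * |τ|) + -u) := by
            apply Real.exp_le_exp.2; rw [hτ]; linarith
        _ = Real.exp (-(2 + 2 * |τ|)) * Real.exp (-u) := Real.exp_add _ _
        _ ≤ _ := by gcongr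
    have hU : ‖gam (3 + τ * I + w)‖ ≤ Real.exp (10 * u + 1) := by
      have c1 := gam_upper (3 + τ * I + w) (by simpa using hw0)
      have c2 : ‖(3 + τ * I + w - 1 : ℂ)‖ ≤ Real.exp (6 * u + 1) := by
        have d1 := norm_le_abs_re_add_abs_im (3 + τ * I + w - 1 : ℂ)
        have d2 : (3 + τ * I + w - 1 : ℂ).re = 2 + w.re := by simp; ring
        have d3 : (3 + τ * I + w - 1 : ℂ).im = τ + w.im := by simp
        rw [d2, d3, abs_of_nonneg (by linarith)] at d1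
        have d4 := abs_add_le τ w.im
        have := Real.add_one_le_exp (6 * u + 1)
        rw [hτ] at d4
        linarith
      have c3 : ((3 + τ * I + w : ℂ).re / 2 + 2) ^ 2 ≤ 4 * u := by
        have d2 : (3 + τ * I + w : ℂ).re = 3 + w.re := by simp
        rw [d2]
        nlinarith [sq_nonneg (w.re - 7)]
      calc _ ≤ _ := c1
        _ ≤ Real.exp (6 * u + 1) * Real.exp (4 * u) := by gcongr
        _ = _ := by rw [← Real.exp_add]; congr 1; ring
    set Mo := ‖gam (3 + τ * I) * exp (w * ell τ)‖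
    have f1 : Real.exp (10 * u + 1) ≤ Real.exp (19 * u + 3) * Mo := by
      calc Real.exp (10 * u + 1) = Real.exp (19 * u + 3) * Real.exp (-(2 + 9 * u)) := by
            rw [← Real.exp_add]; congr 1; ring
        _ ≤ _ := by gcongr
    have f2 : Real.exp (19 * u + 3) + 1 ≤ Real.exp (25 * w.im ^ 2 / y) / y := by
      rw [le_div_iff₀ hy0]
      have g1 : Real.exp (19 * u + 3) + 1 ≤ Real.exp (19 * u + 4) := by
        have : Real.exp (19 * u + 4) = Real.exp (19 * u + 3) * Real.exp 1 := by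
          rw [← Real.exp_add]; congr 1; ring
        have h1 := Real.add_one_le_exp (1 : ℝ)
        have h2 : 1 ≤ Real.exp (19 * u + 3) := Real.one_le_exp (by linarith)
        nlinarith
      have g2 : y ≤ Real.exp u := by linarith [Real.add_one_le_exp u]
      have g3 : 20 * u + 4 ≤ 25 * w.im ^ 2 / y := by
        rw [le_div_iff₀ hy0, ← sq_abs w.im, ← hudef]
        nlinarith
      calc (Real.exp (19 * u + 3) + 1) * y ≤ Real.exp (19 * u + 4) * Real.exp u := by gcongr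
        _ = Real.exp (20 * u + 4) := by rw [← Real.exp_add]; congr 1; ring
        _ ≤ _ := Real.exp_le_exp.2 g3
    have hMo : 0 ≤ Mo := norm_nonneg _
    calc _ ≤ ‖gam (3 + τ * I + w)‖ + Mo := norm_sub_le _ _
      _ ≤ (Real.exp (19 * u + 3) + 1) * Mo := by linarith
      _ ≤ _ := by gcongr

end Pool.Agent.H21.Xi
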