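import Mathlib
import Pool.Agent.H21.XiDef
import Pool.Agent.H21.XiGamma

set_option autoImplicit false

open Complex Set Filter Topology MeasureTheory

namespace Pool.Agent.H21.Xi

noncomputable def phi (u : ℝ) : ℝ :=
  2 * ((2 * Real.pi ^ 2 * Real.exp (9 * u / 2) - 3 * Real.pi * Real.exp (5 * u / 2))
    * Real.exp (-Real.pi * Real.exp (2 * u)))

noncomputable def Lg (n : ℕ) : ℝ := Real.log ((n : ℝ) + 1)

noncomputable def phin (n : ℕ) (t : ℝ) : ℝ := Real.exp (-(Lg n) / 2) * phi (t + Lg n)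

lemma exp_Lg (n : ℕ) : Real.exp (Lg n) = (n : ℝ) + 1 := Real.exp_log (by positivity)

lemma Lg_nonneg (n : ℕ) : 0 ≤ Lg n := Real.log_nonneg (by linarith [Nat.cast_nonneg (α := ℝ) n])

lemma exp_mul_Lg (n k : ℕ) : Real.exp (k * Lg n) = ((n : ℝ) + 1) ^ k := by
  rw [Real.exp_nat_mul, exp_Lg]

lemma phin_eq (n : ℕ) (t : ℝ) : phin n t =
    2 * ((2 * Real.pi ^ 2 * ((n : ℝ) + 1) ^ 4 * Real.exp (9 * t / 2)
      - 3 * Real.pi * ((n : ℝ) + 1) ^ 2 * Real.exp (5 * t / 2))
      * Real.exp (-Real.pi * ((n : ℝ) + 1) ^ 2 * Real.exp (2 * t))) := by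
  have e1 : Real.exp (-(Lg n) / 2) * Real.exp (9 * (t + Lg n) / 2) =
      ((n : ℝ) + 1) ^ 4 * Real.exp (9 * t / 2) := by
    rw [← exp_mul_Lg, ← Real.exp_add, ← Real.exp_add]; congr 1; push_cast; ring
  have e2 : Real.exp (-(Lg n) / 2) * Real.exp (5 * (t + Lg n) / 2) =
      ((n : ℝ) + 1) ^ 2 * Real.exp (5 * t / 2) := by
    rw [← exp_mul_Lg, ← Real.exp_add, ← Real.exp_add]; congr 1; push_cast; ring
  have e3 : Real.exp (2 * (t + Lg n)) = ((n : ℝ) + 1) ^ 2 * Real.exp (2 * t) := by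
    rw [← exp_mul_Lg, ← Real.exp_add]; congr 1; push_cast; ring
  rw [phin, phi, e3, mul_assoc (-Real.pi)]
  linear_combination (4 * Real.pi ^ 2 * Real.exp (-Real.pi * (((n : ℝ) + 1) ^ 2 * Real.exp (2 * t)))) * e1
    - (6 * Real.pi * Real.exp (-Real.pi * (((n : ℝ) + 1) ^ 2 * Real.exp (2 * t)))) * e2

lemma Phi_eq (t : ℝ) : Phi t = ∑' n, phin n t := by
  simp only [phin_eq, Phi, tsum_mul_left]

lemma continuous_phi : Continuous phi := by unfold phi; fun_prop

lemma continuous_phin (n : ℕ) : Continuous (phin n) := by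
  unfold phin; have := continuous_phi; fun_prop

lemma abs_phi_le (u : ℝ) : |phi u| ≤ 500 * Real.exp (-(3 * u / 2)) := by
  set X := Real.exp (2 * u) with hX
  have hX0 : 0 < X := Real.exp_pos _
  have e1 : Real.exp (9 * u / 2) = X ^ 3 * Real.exp (-(3 * u / 2)) := by
    rw [hX, ← Real.exp_nat_mul, ← Real.exp_add]; congr 1; push_cast; ring
  have e2 : Real.exp (5 * u / 2) = X ^ 2 * Real.exp (-(3 * u / 2)) := by
    rw [hX, ← Real.exp_nat_mul, ← Real.exp_add]; congr 1; push_cast; ring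
  have h3 : X ^ 3 ≤ 6 * Real.exp X := by
    have := Real.pow_div_factorial_le_exp X hX0.le 3
    norm_num [Nat.factorial] at this; linarith
  have h2 : X ^ 2 ≤ 2 * Real.exp X := by
    have := Real.pow_div_factorial_le_exp X hX0.le 2
    norm_num [Nat.factorial] at this; linarith
  have h4 : Real.exp X * Real.exp (-Real.pi * X) ≤ 1 := by
    rw [← Real.exp_add, Real.exp_le_one_iff]; nlinarith [Real.pi_gt_three]
  have hp : Real.pi ≤ 4 := Real.pi_le_four
  have hp0 := Real.pi_pos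
  set E := Real.exp (-Real.pi * X)
  have hE : 0 < E := Real.exp_pos _
  have a3 : X ^ 3 * E ≤ 6 := by nlinarith
  have a2 : X ^ 2 * E ≤ 2 := by nlinarith
  have hp2 : Real.pi ^ 2 ≤ 16 := by nlinarith
  have key : |(2 * Real.pi ^ 2 * (X ^ 3 * E) - 3 * Real.pi * (X ^ 2 * E))| ≤ 250 := by
    have b1 : 0 ≤ Real.pi ^ 2 * (X ^ 3 * E) := by positivity
    have b2 : Real.pi ^ 2 * (X ^ 3 * E) ≤ 16 * 6 := by gcongr
    have b3 : 0 ≤ Real.pi * (X ^ 2 * E) := by positivity
    have b4 : Real.pi * (X ^ 2 * E) ≤ 4 * 2 := by gcongr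
    rw [abs_le]; constructor <;> nlinarith
  have e : phi u = 2 * (2 * Real.pi ^ 2 * (X ^ 3 * E) - 3 * Real.pi * (X ^ 2 * E))
      * Real.exp (-(3 * u / 2)) := by
    rw [phi, e1, e2]; ring
  rw [e, abs_mul, abs_mul, abs_two, abs_of_pos (Real.exp_pos _)]
  gcongr
  linarith

lemma abs_phin_le (n : ℕ) (t : ℝ) :
    |phin n t| ≤ 500 * Real.exp (-(3 * t / 2)) * (1 / ((n : ℝ) + 1) ^ 2) := by
  rw [phin, abs_mul, abs_of_pos (Real.exp_pos _), ← exp_mul_Lg, one_div, ← Real.exp_neg]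
  calc _ ≤ Real.exp (-(Lg n) / 2) * (500 * Real.exp (-(3 * (t + Lg n) / 2))) := by
        gcongr; exact abs_phi_le _
    _ = _ := by
      rw [mul_left_comm, ← Real.exp_add, mul_assoc, ← Real.exp_add]
      congr 2; push_cast; ring

lemma hasSum_inv_sq : HasSum (fun n : ℕ => 1 / ((n : ℝ) + 1) ^ 2) (Real.pi ^ 2 / 6) := by
  have := (hasSum_nat_add_iff' 1).2 hasSum_zeta_two
  simpa using this

lemma tsum_inv_sq_le : ∑' n : ℕ, 1 / ((n : ℝ) + 1) ^ 2 ≤ 5 / 3 := by
  rw [hasSum_inv_sq.tsum_eq]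
  nlinarith [Real.pi_lt_d2, Real.pi_pos]

lemma summable_phin (t : ℝ) : Summable fun n => phin n t :=
  Summable.of_norm_bounded (hasSum_inv_sq.summable.mul_left (500 * Real.exp (-(3 * t / 2))))
    fun n => abs_phin_le n t

lemma abs_Phi_le (t : ℝ) : |Phi t| ≤ 1000 * Real.exp (-(3 * t / 2)) := by
  rw [Phi_eq]
  have := tsum_of_norm_bounded (f := fun n => phin n t) (hasSum_inv_sq.mul_left (500 * Real.exp (-(3 * t / 2))))
    fun n => abs_phin_le n t
  refine this.trans ?_
  have h : Real.pi ^ 2 / 6 ≤ 2 := by nlinarith [Real.pi_lt_d2, Real.pi_pos]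
  nlinarith [Real.exp_pos (-(3 * t / 2))]

lemma continuous_Phi : Continuous Phi := by
  have h : Continuous fun t => ∑' n, Real.exp (3 * t / 2) * phin n t := by
    refine continuous_tsum (fun n => ?_) (hasSum_inv_sq.summable.mul_left 500) fun n t => ?_
    · have := continuous_phin n; fun_prop
    · rw [norm_mul, Real.norm_of_nonneg (Real.exp_pos _).le]
      calc _ ≤ Real.exp (3 * t / 2) * (500 * Real.exp (-(3 * t / 2)) * (1 / ((n : ℝ) + 1) ^ 2)) := by
            gcongr; exact abs_phin_le n t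
        _ = 500 * (Real.exp (3 * t / 2) * Real.exp (-(3 * t / 2))) * (1 / ((n : ℝ) + 1) ^ 2) := by
            ring
        _ = _ := by rw [← Real.exp_add]; simp
  have e : Phi = fun t => Real.exp (-(3 * t / 2)) * ∑' n, Real.exp (3 * t / 2) * phin n t := by
    funext t
    rw [tsum_mul_left, ← mul_assoc, ← Real.exp_add, Phi_eq]; simp
  rw [e]; fun_prop

lemma integrable_gauss (a b : ℝ) (ha : 0 < a) :
    Integrable fun t : ℝ => Real.exp (-a * t ^ 2 + b * t) := by
  have := (integrable_cexp_quadratic (b := a) (by simpa using ha) b 0).norm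
  refine this.congr (Eventually.of_forall fun t => ?_)
  simp only [norm_exp, add_zero]
  congr 1
  simp [← ofReal_pow]

lemma diff_laplace (h : ℝ → ℂ) (hc : Continuous h) (C a b : ℝ) (ha : 0 < a)
    (hb : ∀ t, ‖h t‖ ≤ C * Real.exp (-a * t ^ 2 + b * t)) :
    Differentiable ℂ fun s : ℂ => ∫ t : ℝ, h t * exp (s * t) := by
  intro s0
  set R := ‖s0‖ + 2 with hR
  have hC : 0 ≤ C := by
    have := (norm_nonneg _).trans (hb 0)
    simpa using this
  have hbd : ∀ (t : ℝ) (s : ℂ), s ∈ Metric.ball s0 1 → ‖h t * exp (s * t)‖ * Real.exp |t| ≤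
      C * (Real.exp (-a * t ^ 2 + (b + R) * t) + Real.exp (-a * t ^ 2 + (b - R) * t)) := by
    intro t s hs
    have hs' : ‖s‖ ≤ ‖s0‖ + 1 := by
      have := norm_le_norm_add_norm_sub' s s0
      rw [Metric.mem_ball, dist_eq_norm] at hs
      linarith
    rw [norm_mul, norm_exp]
    have h1 : (s * t).re + |t| ≤ R * |t| := by
      have : (s * t).re ≤ ‖s‖ * |t| := by
        have := re_le_norm (s * t); simpa using this
      nlinarith [abs_nonneg t]
    calc ‖h t‖ * Real.exp (s * t).re * Real.exp |t|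
        = ‖h t‖ * Real.exp ((s * t).re + |t|) := by rw [Real.exp_add]; ring
      _ ≤ C * Real.exp (-a * t ^ 2 + b * t) * Real.exp (R * |t|) := by gcongr; exact hb t
      _ = C * Real.exp (-a * t ^ 2 + b * t + R * |t|) := by rw [mul_assoc, ← Real.exp_add]
      _ ≤ _ := by
        gcongr
        rcases abs_cases t with ⟨h2, _⟩ | ⟨h2, _⟩
        · rw [h2, show -a * t ^ 2 + b * t + R * t = -a * t ^ 2 + (b + R) * t by ring]
          linarith [Real.exp_pos (-a * t ^ 2 + (b - R) * t)]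
        · rw [h2, show -a * t ^ 2 + b * t + R * -t = -a * t ^ 2 + (b - R) * t by ring]
          linarith [Real.exp_pos (-a * t ^ 2 + (b + R) * t)]
  have hint : Integrable fun t : ℝ =>
      C * (Real.exp (-a * t ^ 2 + (b + R) * t) + Real.exp (-a * t ^ 2 + (b - R) * t)) :=
    ((integrable_gauss a _ ha).add (integrable_gauss a _ ha)).const_mul C
  refine (hasDerivAt_integral_of_dominated_loc_of_deriv_le (μ := volume)
    (F := fun (s : ℂ) (t : ℝ) => h t * exp (s * t))
    (F' := fun (s : ℂ) (t : ℝ) => h t * (exp (s * t) * t)) (Metric.ball_mem_nhds s0 one_pos)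
    (Eventually.of_forall fun s => Continuous.aestronglyMeasurable (by fun_prop)) ?_
    (Continuous.aestronglyMeasurable (by fun_prop)) (Eventually.of_forall fun t s hs => ?_) hint
    (Eventually.of_forall fun t s _ => ?_)).2.differentiableAt
  · refine hint.mono' (Continuous.aestronglyMeasurable (by fun_prop))
      (Eventually.of_forall fun t => le_trans ?_ (hbd t s0 (Metric.mem_ball_self one_pos)))
    exact le_mul_of_one_le_right (norm_nonneg _) (Real.one_le_exp (abs_nonneg t))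
  · refine le_trans ?_ (hbd t s hs)
    rw [← mul_assoc, norm_mul (h t * exp (s * t))]
    gcongr
    rw [Complex.norm_real, Real.norm_eq_abs]
    linarith [Real.add_one_le_exp |t|]
  · have : HasDerivAt (fun s : ℂ => s * t) (t : ℂ) s := by simpa using (hasDerivAt_id s).mul_const (t : ℂ)
    exact this.cexp.const_mul (h t)

/-- `Ξ` in the variable `s = 1/2 + i z`, with `a = -λ`. -/
noncomputable def XS (a : ℝ) (s : ℂ) : ℂ :=
  ∫ t : ℝ, (Phi t : ℂ) * exp (-a * (t : ℂ) ^ 2 + (s - 1 / 2) * t)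

lemma XiL_eq (a : ℝ) (z : ℂ) : XiL (-a) z = XS a (1 / 2 + I * z) := by
  unfold XiL XS
  congr 1; funext t
  rw [mul_assoc, ← exp_add]; congr 2; push_cast; ring

lemma norm_exp_quad (a : ℝ) (s : ℂ) (t : ℝ) :
    ‖exp (-a * (t : ℂ) ^ 2 + s * t)‖ = Real.exp (-a * t ^ 2 + s.re * t) := by
  rw [norm_exp]; congr 1; simp [← ofReal_pow]

lemma differentiable_XS (a : ℝ) (ha : 0 < a) : Differentiable ℂ (XS a) := by
  have h := diff_laplace (fun t => (Phi t : ℂ) * exp (-a * (t : ℂ) ^ 2 + (-1 / 2 : ℂ) * t))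
    (by have := continuous_Phi; fun_prop) 1000 a (-2) ha ?_
  · have e : XS a = fun s : ℂ => ∫ t : ℝ,
        (Phi t : ℂ) * exp (-a * (t : ℂ) ^ 2 + (-1 / 2 : ℂ) * t) * exp (s * t) := by
      funext s
      unfold XS
      congr 1; funext t
      rw [mul_assoc, ← exp_add]; congr 2; ring
    rw [e]; exact h
  · intro t
    rw [norm_mul, norm_exp_quad, Complex.norm_real, Real.norm_eq_abs]
    calc _ ≤ 1000 * Real.exp (-(3 * t / 2)) * Real.exp (-a * t ^ 2 + (-1 / 2 : ℂ).re * t) := by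
          gcongr; exact abs_Phi_le t
      _ = _ := by
        rw [mul_assoc, ← Real.exp_add]; congr 2; simp; ring

lemma differentiable_XiL (a : ℝ) (ha : 0 < a) : Differentiable ℂ (XiL (-a)) := by
  have : XiL (-a) = fun z => XS a (1 / 2 + I * z) := funext (XiL_eq a)
  rw [this]
  exact (differentiable_XS a ha).comp (by fun_prop)

noncomputable def Xn (a : ℝ) (n : ℕ) (s : ℂ) : ℂ :=
  ∫ t : ℝ, (phin n t : ℂ) * exp (-a * (t : ℂ) ^ 2 + (s - 1 / 2) * t)

lemma hasSum_Xn (a : ℝ) (ha : 0 < a) (s : ℂ) : HasSum (fun n => Xn a n s) (XS a s) := by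
  have hb : ∀ n t, ‖(phin n t : ℂ) * exp (-a * (t : ℂ) ^ 2 + (s - 1 / 2) * t)‖ ≤
      (500 * (1 / ((n : ℝ) + 1) ^ 2)) * Real.exp (-a * t ^ 2 + (s.re - 2) * t) := by
    intro n t
    rw [norm_mul, norm_exp_quad, Complex.norm_real, Real.norm_eq_abs]
    calc _ ≤ 500 * Real.exp (-(3 * t / 2)) * (1 / ((n : ℝ) + 1) ^ 2) *
          Real.exp (-a * t ^ 2 + (s - 1 / 2 : ℂ).re * t) := by
          gcongr; exact abs_phin_le n t
      _ = (500 * (1 / ((n : ℝ) + 1) ^ 2)) * (Real.exp (-(3 * t / 2)) *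
          Real.exp (-a * t ^ 2 + (s - 1 / 2 : ℂ).re * t)) := by ring
      _ = _ := by
        rw [← Real.exp_add]; congr 2; simp; ring
  have hi : ∀ n, Integrable fun t : ℝ =>
      (phin n t : ℂ) * exp (-a * (t : ℂ) ^ 2 + (s - 1 / 2) * t) := fun n =>
    ((integrable_gauss a (s.re - 2) ha).const_mul _).mono'
      (Continuous.aestronglyMeasurable (by have := continuous_phin n; fun_prop))
      (Eventually.of_forall (hb n))
  have := hasSum_integral_of_summable_integral_norm hi ?_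
  · have e : XS a s = ∫ t : ℝ, ∑' n,
        (phin n t : ℂ) * exp (-a * (t : ℂ) ^ 2 + (s - 1 / 2) * t) := by
      unfold XS
      congr 1; funext t
      rw [tsum_mul_right, Phi_eq, ofReal_tsum]
    rw [e]; exact this
  · refine Summable.of_nonneg_of_le (fun n => integral_nonneg fun t => norm_nonneg _)
      (fun n => ?_) ((hasSum_inv_sq.summable.mul_left 500).mul_right
        (∫ t : ℝ, Real.exp (-a * t ^ 2 + (s.re - 2) * t)))
    rw [← integral_const_mul]
    exact integral_mono (hi n).norm ((integrable_gauss a (s.re - 2) ha).const_mul _) (hb n)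

lemma mellin_basic (α : ℂ) (hα : 0 < α.re) :
    Integrable (fun t : ℝ => exp (α * t) * (Real.exp (-Real.pi * Real.exp (2 * t)) : ℂ)) ∧
    ∫ t : ℝ, exp (α * t) * (Real.exp (-Real.pi * Real.exp (2 * t)) : ℂ) =
      exp (-(α / 2) * (Real.log Real.pi : ℂ)) * Gamma (α / 2) / 2 := by
  have hα2 : 0 < (α / 2).re := by simpa using hα
  have hp := Real.pi_pos
  let f : ℝ → ℝ := fun t => Real.pi * Real.exp (2 * t)
  have himg : f '' univ = Ioi 0 := by
    ext x
    simp only [image_univ, mem_range, mem_Ioi]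
    constructor
    · rintro ⟨t, rfl⟩; positivity
    · intro hx
      refine ⟨Real.log (x / Real.pi) / 2, ?_⟩
      simp only [f]
      rw [mul_div_cancel₀ _ two_ne_zero, Real.exp_log (by positivity)]
      field_simp
  have hder : ∀ t ∈ (univ : Set ℝ), HasDerivWithinAt f (Real.pi * (Real.exp (2 * t) * 2)) univ t := by
    intro t _
    have : HasDerivAt (fun t : ℝ => 2 * t) 2 t := by simpa using (hasDerivAt_id t).const_mul (2 : ℝ)
    exact (this.exp.const_mul Real.pi).hasDerivWithinAt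
  have hinj : InjOn f univ := by
    intro x _ y _ h
    have := Real.exp_injective (mul_left_cancel₀ hp.ne' h)
    linarith
  let g : ℝ → ℂ := fun x => ((-x).exp : ℂ) * (x : ℂ) ^ (α / 2 - 1)
  have hpt : ∀ t : ℝ, |Real.pi * (Real.exp (2 * t) * 2)| • g (f t) =
      (2 * exp (α / 2 * (Real.log Real.pi : ℂ))) *
        (exp (α * t) * (Real.exp (-Real.pi * Real.exp (2 * t)) : ℂ)) := by
    intro t
    have hf : 0 < f t := by positivity
    have hfc : ((f t : ℝ) : ℂ) ≠ 0 := by exact_mod_cast hf.ne'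
    have hl : log (f t : ℂ) = (Real.log Real.pi : ℂ) + 2 * t := by
      rw [← ofReal_log hf.le]
      simp only [f]
      rw [Real.log_mul hp.ne' (Real.exp_pos _).ne', Real.log_exp]; push_cast; ring
    have e1 : ((f t : ℝ) : ℂ) * ((f t : ℝ) : ℂ) ^ (α / 2 - 1) =
        exp (α / 2 * (Real.log Real.pi : ℂ)) * exp (α * t) := by
      rw [cpow_sub _ _ hfc, cpow_one, mul_div_cancel₀ _ hfc, cpow_def_of_ne_zero hfc, hl,
        ← exp_add]
      congr 1; ring
    rw [abs_of_pos (by positivity), real_smul]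
    simp only [g]
    have e2 : ((Real.pi * (Real.exp (2 * t) * 2) : ℝ) : ℂ) = 2 * ((f t : ℝ) : ℂ) := by
      simp only [f]; push_cast; ring
    have e3 : -f t = -Real.pi * Real.exp (2 * t) := by simp only [f]; ring
    rw [e2, e3]
    linear_combination (2 * (Real.exp (-Real.pi * Real.exp (2 * t)) : ℂ)) * e1
  have hc : (2 * exp (α / 2 * (Real.log Real.pi : ℂ))) ≠ 0 := mul_ne_zero two_ne_zero (exp_ne_zero _)
  constructor
  · have h1 := (integrableOn_image_iff_integrableOn_abs_deriv_smul MeasurableSet.univ hder hinj g).1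
      (by rw [himg]; exact GammaIntegral_convergent hα2)
    rw [integrableOn_univ] at h1
    simp only [hpt] at h1
    exact (integrable_const_mul_iff (IsUnit.mk0 _ hc) _).1 h1
  · have h1 := integral_image_eq_integral_abs_deriv_smul MeasurableSet.univ hder hinj g
    rw [himg, Measure.restrict_univ] at h1
    simp only [hpt] at h1
    rw [integral_const_mul] at h1
    have h2 : Gamma (α / 2) = ∫ x in Ioi (0 : ℝ), g x := Gamma_eq_integral hα2
    rw [h2, h1]
    have e : exp (-(α / 2) * (Real.log Real.pi : ℂ)) * exp (α / 2 * (Real.log Real.pi : ℂ)) = 1 := by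
      rw [← exp_add]; simp
    linear_combination (-(∫ t : ℝ, exp (α * t) *
      (Real.exp (-Real.pi * Real.exp (2 * t)) : ℂ))) * e

lemma mellin_phi (s : ℂ) (hs : 0 < s.re) :
    Integrable (fun t : ℝ => (phi t : ℂ) * exp ((s - 1 / 2) * t)) ∧
    ∫ t : ℝ, (phi t : ℂ) * exp ((s - 1 / 2) * t) = gam s := by
  obtain ⟨i1, v1⟩ := mellin_basic (s + 4) (by simp; linarith)
  obtain ⟨i2, v2⟩ := mellin_basic (s + 2) (by simp; linarith)
  have e : (fun t : ℝ => (phi t : ℂ) * exp ((s - 1 / 2) * t)) = fun t : ℝ =>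
      (4 * (Real.pi : ℂ) ^ 2) * (exp ((s + 4) * t) * (Real.exp (-Real.pi * Real.exp (2 * t)) : ℂ)) -
      (6 * (Real.pi : ℂ)) * (exp ((s + 2) * t) * (Real.exp (-Real.pi * Real.exp (2 * t)) : ℂ)) := by
    funext t
    have e1 : exp ((s + 4) * t) = (Real.exp (9 * t / 2) : ℂ) * exp ((s - 1 / 2) * t) := by
      rw [ofReal_exp, ← exp_add]; congr 1; push_cast; ring
    have e2 : exp ((s + 2) * t) = (Real.exp (5 * t / 2) : ℂ) * exp ((s - 1 / 2) * t) := by
      rw [ofReal_exp, ← exp_add]; congr 1; push_cast; ring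
    rw [e1, e2, phi]
    simp only [ofReal_mul, ofReal_sub, ofReal_pow, ofReal_ofNat]
    ring
  rw [e]
  refine ⟨(i1.const_mul _).sub (i2.const_mul _), ?_⟩
  rw [integral_sub (i1.const_mul _) (i2.const_mul _), integral_const_mul, integral_const_mul,
    v1, v2, gam]
  have hpi : exp (Real.log Real.pi : ℂ) = Real.pi := by
    rw [← ofReal_exp, Real.exp_log Real.pi_pos]
  have hne : (1 + s / 2) ≠ 0 := fun h => by
    have := congrArg Complex.re h; simp at this; linarith
  have g1 : Gamma ((s + 4) / 2) = (1 + s / 2) * Gamma (1 + s / 2) := by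
    rw [← Gamma_add_one _ hne]; congr 1; ring
  have g2 : Gamma ((s + 2) / 2) = Gamma (1 + s / 2) := by congr 1; ring
  have x1 : (Real.pi : ℂ) ^ 2 * exp (-((s + 4) / 2) * (Real.log Real.pi : ℂ)) =
      exp (-(s / 2) * (Real.log Real.pi : ℂ)) := by
    rw [← hpi, ← exp_nat_mul, ← exp_add]; congr 1; push_cast; ring
  have x2 : (Real.pi : ℂ) * exp (-((s + 2) / 2) * (Real.log Real.pi : ℂ)) =
      exp (-(s / 2) * (Real.log Real.pi : ℂ)) := by
    nth_rewrite 1 [← hpi]
    rw [← exp_add]; congr 1; ring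
  rw [g1, g2]
  linear_combination (2 * (1 + s / 2) * Gamma (1 + s / 2)) * x1 - (3 * Gamma (1 + s / 2)) * x2

lemma mellin_phin (n : ℕ) (s : ℂ) (hs : 0 < s.re) :
    Integrable (fun t : ℝ => (phin n t : ℂ) * exp ((s - 1 / 2) * t)) ∧
    ∫ t : ℝ, (phin n t : ℂ) * exp ((s - 1 / 2) * t) = exp (-s * Lg n) * gam s := by
  obtain ⟨i1, v1⟩ := mellin_phi s hs
  have e : (fun t : ℝ => (phin n t : ℂ) * exp ((s - 1 / 2) * t)) = fun t : ℝ =>
      exp (-s * Lg n) * ((fun u : ℝ => (phi u : ℂ) * exp ((s - 1 / 2) * u)) (t + Lg n)) := by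
    funext t
    have : (Real.exp (-(Lg n) / 2) : ℂ) * exp ((s - 1 / 2) * t) =
        exp (-s * Lg n) * exp ((s - 1 / 2) * ((t + Lg n : ℝ) : ℂ)) := by
      rw [ofReal_exp, ← exp_add, ← exp_add]; congr 1; push_cast; ring
    simp only [phin, ofReal_mul]
    linear_combination (phi (t + Lg n) : ℂ) * this
  rw [e]
  refine ⟨(i1.comp_add_right (Lg n)).const_mul _, ?_⟩
  rw [integral_const_mul, integral_add_right_eq_self (fun u : ℝ => (phi u : ℂ) * exp ((s - 1 / 2) * u)), v1]

end Pool.Agent.H21.Xi
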