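import Mathlib
import Pool.Agent.H21.XiRep

set_option autoImplicit false

open Complex Set Filter Topology MeasureTheory

namespace Pool.Agent.H21.Xi

lemma gauss_line (a : ℝ) (ha : 0 < a) (κ : ℝ) (l : ℂ) :
    Integrable (fun v : ℝ => exp ((κ + v * I) ^ 2 / (4 * a) + (κ + v * I) * l)) ∧
    ∫ v : ℝ, exp ((κ + v * I) ^ 2 / (4 * a) + (κ + v * I) * l) =
      (Real.sqrt (4 * Real.pi * a) : ℂ) * exp (-a * l ^ 2) := by
  have hac : (a : ℂ) ≠ 0 := by exact_mod_cast ha.ne'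
  have hb : (-(1 / (4 * a)) : ℂ).re < 0 := by
    have : (-(1 / (4 * a)) : ℂ) = ((-(1 / (4 * a)) : ℝ) : ℂ) := by push_cast; ring
    rw [this, ofReal_re]
    have : 0 < 1 / (4 * a) := by positivity
    linarith
  have e : (fun v : ℝ => exp ((κ + v * I) ^ 2 / (4 * a) + (κ + v * I) * l)) = fun v : ℝ =>
      exp (-(1 / (4 * a)) * (v : ℂ) ^ 2 + (I * (κ / (2 * a) + l)) * v + (κ ^ 2 / (4 * a) + κ * l)) := by
    funext v
    congr 1
    field_simp
    linear_combination 2 * (v : ℂ) ^ 2 * I_sq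
  rw [e]
  refine ⟨integrable_cexp_quadratic' hb _ _, ?_⟩
  rw [integral_cexp_quadratic hb]
  congr 1
  · have : (Real.pi : ℂ) / -(-(1 / (4 * a))) = ((4 * Real.pi * a : ℝ) : ℂ) := by
      push_cast; field_simp
    rw [this, Real.sqrt_eq_rpow, ofReal_cpow (by positivity)]
    norm_num
  · congr 1
    rw [mul_pow, I_sq]
    field_simp
    ring

lemma norm_exp_line (a κ v : ℝ) (m : ℂ) :
    ‖exp ((κ + v * I + m) ^ 2 / (4 * a))‖ =
      Real.exp (((κ + m.re) ^ 2 - (v + m.im) ^ 2) / (4 * a)) := by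
  rw [norm_exp]
  congr 1
  have : (4 * a : ℂ) = ((4 * a : ℝ) : ℂ) := by push_cast; ring
  rw [this, div_ofReal_re, sq, mul_re]
  simp; ring

lemma Xn_rep (a : ℝ) (ha : 0 < a) (n : ℕ) (s : ℂ) (κ : ℝ) (hc : 0 < s.re + κ) :
    Integrable (fun v : ℝ => exp ((κ + v * I) ^ 2 / (4 * a)) *
      (exp (-(s + (κ + v * I)) * Lg n) * gam (s + (κ + v * I)))) ∧
    (Real.sqrt (4 * Real.pi * a) : ℂ) * Xn a n s = ∫ v : ℝ, exp ((κ + v * I) ^ 2 / (4 * a)) *
      (exp (-(s + (κ + v * I)) * Lg n) * gam (s + (κ + v * I))) := by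
  let H : ℝ → ℝ → ℂ := fun t v => (phin n t : ℂ) * exp ((s - 1 / 2) * t) *
    exp ((κ + v * I) ^ 2 / (4 * a) + (κ + v * I) * t)
  have hH : Integrable (Function.uncurry H) ((volume : Measure ℝ).prod volume) := by
    have i1 := (mellin_phin n (s + κ) (by simpa using hc)).1.norm
    have i2 := (gauss_line a ha κ 0).1.norm
    refine (i1.mul_prod i2).mono' ?_ (Eventually.of_forall ?_)
    · refine Continuous.aestronglyMeasurable ?_
      have := continuous_phin n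
      simp only [H, Function.uncurry_def]
      fun_prop
    · rintro ⟨t, v⟩
      simp only [H, Function.uncurry_apply_pair, norm_mul, norm_exp, mul_assoc, ← Real.exp_add]
      apply le_of_eq
      congr 2
      simp
      ring
  have h1 : ∀ t : ℝ, ∫ v, H t v = (Real.sqrt (4 * Real.pi * a) : ℂ) *
      ((phin n t : ℂ) * exp (-a * (t : ℂ) ^ 2 + (s - 1 / 2) * t)) := by
    intro t
    simp only [H]
    rw [integral_const_mul, (gauss_line a ha κ t).2, exp_add]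
    ring
  have h2 : ∀ v : ℝ, ∫ t, H t v = exp ((κ + v * I) ^ 2 / (4 * a)) *
      (exp (-(s + (κ + v * I)) * Lg n) * gam (s + (κ + v * I))) := by
    intro v
    rw [← (mellin_phin n (s + (κ + v * I)) (by simpa using hc)).2, ← integral_const_mul]
    congr 1; funext t
    simp only [H]
    have : exp ((s - 1 / 2) * t) * exp ((κ + v * I) ^ 2 / (4 * a) + (κ + v * I) * t) =
        exp ((κ + v * I) ^ 2 / (4 * a)) * exp ((s + (κ + v * I) - 1 / 2) * t) := by
      rw [← exp_add, ← exp_add]; congr 1; ring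
    linear_combination (phin n t : ℂ) * this
  constructor
  · have := hH.integral_prod_right
    simp only [Function.uncurry_apply_pair, h2] at this
    exact this
  · have := integral_integral_swap hH
    simp only [h1, h2] at this
    rw [← this, integral_const_mul]
    rfl

noncomputable def Fn (a : ℝ) (n : ℕ) (s : ℂ) : ℂ := exp (-s * Lg n - a * (Lg n : ℂ) ^ 2)

/-- The Dirichlet series `∑ n^{-s} exp(-a log² n)`. -/
noncomputable def FF (a : ℝ) (s : ℂ) : ℂ := ∑' n, Fn a n s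

noncomputable def EE (a τ : ℝ) (s : ℂ) : ℂ :=
  gam (3 + τ * I) * exp ((s - (3 + τ * I)) * ell τ - a * ell τ ^ 2)

lemma model_rep (a : ℝ) (ha : 0 < a) (n : ℕ) (s : ℂ) (κ τ : ℝ) :
    Integrable (fun v : ℝ => exp ((κ + v * I) ^ 2 / (4 * a)) *
      (exp (-(s + (κ + v * I)) * Lg n) *
        (gam (3 + τ * I) * exp ((s + (κ + v * I) - (3 + τ * I)) * ell τ)))) ∧
    (Real.sqrt (4 * Real.pi * a) : ℂ) * (EE a τ s * Fn a n (s - 2 * a * ell τ)) =
      ∫ v : ℝ, exp ((κ + v * I) ^ 2 / (4 * a)) *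
      (exp (-(s + (κ + v * I)) * Lg n) *
        (gam (3 + τ * I) * exp ((s + (κ + v * I) - (3 + τ * I)) * ell τ))) := by
  obtain ⟨i1, v1⟩ := gauss_line a ha κ (ell τ - Lg n)
  have e : (fun v : ℝ => exp ((κ + v * I) ^ 2 / (4 * a)) *
      (exp (-(s + (κ + v * I)) * Lg n) *
        (gam (3 + τ * I) * exp ((s + (κ + v * I) - (3 + τ * I)) * ell τ)))) = fun v : ℝ =>
      (gam (3 + τ * I) * exp ((s - (3 + τ * I)) * ell τ - s * Lg n)) *
        exp ((κ + v * I) ^ 2 / (4 * a) + (κ + v * I) * (ell τ - Lg n)) := by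
    funext v
    have : exp ((κ + v * I) ^ 2 / (4 * a)) * exp (-(s + (κ + v * I)) * Lg n) *
        exp ((s + (κ + v * I) - (3 + τ * I)) * ell τ) =
        exp ((s - (3 + τ * I)) * ell τ - s * Lg n) *
        exp ((κ + v * I) ^ 2 / (4 * a) + (κ + v * I) * (ell τ - Lg n)) := by
      simp only [← exp_add]; congr 1; ring
    linear_combination gam (3 + τ * I) * this
  rw [e]
  refine ⟨i1.const_mul _, ?_⟩
  rw [integral_const_mul, v1, EE, Fn]
  have : exp ((s - (3 + τ * I)) * ell τ - a * ell τ ^ 2) *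
      exp (-(s - 2 * a * ell τ) * Lg n - a * (Lg n : ℂ) ^ 2) =
      exp ((s - (3 + τ * I)) * ell τ - s * Lg n) * exp (-a * (ell τ - Lg n) ^ 2) := by
    simp only [← exp_add]; congr 1; ring
  linear_combination (Real.sqrt (4 * Real.pi * a) : ℂ) * gam (3 + τ * I) * this

lemma norm_exp_Lg_le (n : ℕ) (w : ℂ) (hw : 2 ≤ w.re) :
    ‖exp (-w * Lg n)‖ ≤ 1 / ((n : ℝ) + 1) ^ 2 := by
  rw [norm_exp, ← exp_mul_Lg, one_div, ← Real.exp_neg]
  apply Real.exp_le_exp.2
  simp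
  nlinarith [Lg_nonneg n]

lemma term_approx (a : ℝ) (ha : 0 < a) (n : ℕ) (τ y ρ : ℝ) (s' : ℂ) (hy : 8 ≤ y)
    (hτ : |τ| = y ^ 2) (hs : ‖s' - (3 + τ * I)‖ ≤ ρ) (hρ : 50 * ρ ^ 2 + 12 ≤ y)
    (hay : 400 * a ≤ y) :
    ‖Xn a n (s' + 2 * a * ell τ) - EE a τ (s' + 2 * a * ell τ) * Fn a n s'‖ ≤
      (1 / ((n : ℝ) + 1) ^ 2) * (4 / y * Real.exp ((max (3 - s'.re) 0) ^ 2 / (4 * a)) *
        ‖EE a τ (s' + 2 * a * ell τ)‖) := by
  set s := s' + 2 * a * ell τ with hsdef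
  set c := max s'.re 3 with hc
  set κ := c - s.re with hκ
  have hy0 : 0 < y := by linarith
  have hc3 : 3 ≤ c := le_max_right _ _
  have hre : |s'.re - 3| ≤ ρ := by
    have := (abs_re_le_norm _).trans hs; simpa using this
  have him : |s'.im - τ| ≤ ρ := by
    have := (abs_im_le_norm _).trans hs; simpa using this
  have hρ0 : 0 ≤ ρ := (abs_nonneg _).trans hre
  have hc4 : c - 3 ≤ ρ := by
    rcases le_total s'.re 3 with h | h
    · rw [hc, max_eq_right h]; linarith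
    · rw [hc, max_eq_left h]; linarith [(abs_le.1 hre).2]
  have hmax : max (3 - s'.re) 0 = c - s'.re := by
    rcases le_total s'.re 3 with h | h
    · rw [hc, max_eq_right h, max_eq_left (by linarith)]
    · rw [hc, max_eq_left h, max_eq_right (by linarith), sub_self]
  obtain ⟨i1, v1⟩ := Xn_rep a ha n s κ (by rw [hκ]; linarith)
  obtain ⟨i2, v2⟩ := model_rep a ha n s κ τ
  have hss : s - 2 * a * ell τ = s' := by rw [hsdef]; ring
  rw [hss] at v2
  have hsq : 0 < Real.sqrt (4 * Real.pi * a) := Real.sqrt_pos.2 (by have := Real.pi_pos; positivity)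
  set m : ℂ := 2 * a * ell τ with hm
  set K : ℝ := (1 / ((n : ℝ) + 1) ^ 2) * (Real.exp 1 / y * Real.exp ((c - s'.re) ^ 2 / (4 * a)) *
    ‖EE a τ s‖) with hK
  have hb : ∀ v : ℝ, ‖exp ((κ + v * I) ^ 2 / (4 * a)) *
      (exp (-(s + (κ + v * I)) * Lg n) * gam (s + (κ + v * I))) -
      exp ((κ + v * I) ^ 2 / (4 * a)) * (exp (-(s + (κ + v * I)) * Lg n) *
        (gam (3 + τ * I) * exp ((s + (κ + v * I) - (3 + τ * I)) * ell τ)))‖ ≤
      K * Real.exp (-(1 / (8 * a)) * (v + m.im) ^ 2) := by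
    intro v
    set w := s + (κ + v * I) - (3 + τ * I) with hw
    have hwre : w.re = c - 3 := by simp [hw, hκ]
    have hwim : w.im = (s'.im - τ) + (v + m.im) := by simp [hw, hsdef]; ring
    have hu := gam_unif τ y w hy hτ (by rw [hwre]; linarith) (by rw [hwre]; nlinarith)
    have e0 : 3 + τ * I + w = s + (κ + v * I) := by rw [hw]; ring
    rw [e0] at hu
    have hL := norm_exp_Lg_le n (s + (κ + v * I)) (by simp [hκ]; linarith)
    have e1 : exp ((κ + v * I) ^ 2 / (4 * a)) * (gam (3 + τ * I) * exp (w * ell τ)) =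
        EE a τ s * exp ((κ + v * I + m) ^ 2 / (4 * a)) := by
      have hac : (a : ℂ) ≠ 0 := by exact_mod_cast ha.ne'
      have : exp ((κ + v * I) ^ 2 / (4 * a)) * exp (w * ell τ) =
          exp ((s - (3 + τ * I)) * ell τ - a * ell τ ^ 2) * exp ((κ + v * I + m) ^ 2 / (4 * a)) := by
        simp only [← exp_add]; congr 1; rw [hw, hm]; field_simp; ring
      rw [EE]
      linear_combination gam (3 + τ * I) * this
    have e2 : κ + m.re = c - s'.re := by rw [hκ, hsdef, add_re]; ring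
    have n1 : ‖exp ((κ + v * I) ^ 2 / (4 * a))‖ * ‖gam (3 + τ * I) * exp (w * ell τ)‖ =
        ‖EE a τ s‖ * Real.exp (((c - s'.re) ^ 2 - (v + m.im) ^ 2) / (4 * a)) := by
      rw [← norm_mul, e1, norm_mul, norm_exp_line, e2]
    have x1 : 25 * w.im ^ 2 / y ≤ 1 + (v + m.im) ^ 2 / (8 * a) := by
      rw [hwim]
      have d1 : (s'.im - τ) ^ 2 ≤ ρ ^ 2 := by
        rw [← sq_abs]; exact pow_le_pow_left₀ (abs_nonneg _) him 2
      have d2 : 50 * (v + m.im) ^ 2 / y ≤ (v + m.im) ^ 2 / (8 * a) := by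
        rw [div_le_div_iff₀ hy0 (by positivity)]
        nlinarith [sq_nonneg (v + m.im)]
      have d3 : 25 * (s'.im - τ + (v + m.im)) ^ 2 / y ≤ 1 + 50 * (v + m.im) ^ 2 / y := by
        rw [div_le_iff₀ hy0, add_mul, div_mul_cancel₀ _ hy0.ne']
        nlinarith [sq_nonneg (s'.im - τ - (v + m.im))]
      linarith
    rw [← mul_sub, ← mul_sub, norm_mul, norm_mul]
    calc _ ≤ ‖exp ((κ + v * I) ^ 2 / (4 * a))‖ * ((1 / ((n : ℝ) + 1) ^ 2) *
          ((Real.exp (25 * w.im ^ 2 / y) / y) * ‖gam (3 + τ * I) * exp (w * ell τ)‖)) := by gcongr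
      _ = (1 / ((n : ℝ) + 1) ^ 2) * (Real.exp (25 * w.im ^ 2 / y) / y) *
          (‖exp ((κ + v * I) ^ 2 / (4 * a))‖ * ‖gam (3 + τ * I) * exp (w * ell τ)‖) := by ring
      _ ≤ (1 / ((n : ℝ) + 1) ^ 2) * (Real.exp (1 + (v + m.im) ^ 2 / (8 * a)) / y) *
          (‖EE a τ s‖ * Real.exp (((c - s'.re) ^ 2 - (v + m.im) ^ 2) / (4 * a))) := by
        rw [n1]; gcongr
      _ = _ := by
        have : Real.exp (1 + (v + m.im) ^ 2 / (8 * a)) *
            Real.exp (((c - s'.re) ^ 2 - (v + m.im) ^ 2) / (4 * a)) =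
            Real.exp 1 * Real.exp ((c - s'.re) ^ 2 / (4 * a)) *
              Real.exp (-(1 / (8 * a)) * (v + m.im) ^ 2) := by
          simp only [← Real.exp_add]; congr 1; field_simp; ring
        rw [hK]
        linear_combination (1 / ((n : ℝ) + 1) ^ 2) / y * ‖EE a τ s‖ * this
  have hgi : Integrable fun v : ℝ => Real.exp (-(1 / (8 * a)) * (v + m.im) ^ 2) :=
    (integrable_exp_neg_mul_sq (b := 1 / (8 * a)) (by positivity)).comp_add_right m.im
  have hgv : ∫ v : ℝ, Real.exp (-(1 / (8 * a)) * (v + m.im) ^ 2) =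
      Real.sqrt 2 * Real.sqrt (4 * Real.pi * a) := by
    rw [integral_add_right_eq_self (fun v : ℝ => Real.exp (-(1 / (8 * a)) * v ^ 2)),
      integral_gaussian, ← Real.sqrt_mul (by norm_num)]
    congr 1; field_simp; ring
  have hfin := norm_integral_le_of_norm_le (hgi.const_mul K) (Eventually.of_forall hb)
  rw [integral_sub i1 i2, ← v1, ← v2, ← mul_sub, norm_mul, Complex.norm_real,
    Real.norm_of_nonneg hsq.le, integral_const_mul, hgv, ← mul_assoc, mul_comm] at hfin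
  have hfin' := le_of_mul_le_mul_right hfin hsq
  refine hfin'.trans ?_
  rw [hmax, hK]
  have s2 : Real.sqrt 2 ≤ 10 / 7 := Real.sqrt_le_iff.2 ⟨by norm_num, by norm_num⟩
  have s3 : Real.exp 1 * Real.sqrt 2 ≤ 4 := by
    have := Real.exp_one_lt_d9
    nlinarith [Real.sqrt_nonneg 2, Real.exp_pos 1]
  calc _ = (1 / ((n : ℝ) + 1) ^ 2) * ((Real.exp 1 * Real.sqrt 2) / y *
        Real.exp ((c - s'.re) ^ 2 / (4 * a)) * ‖EE a τ s‖) := by ring
    _ ≤ _ := by gcongr

lemma norm_Fn (a : ℝ) (n : ℕ) (s : ℂ) :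
    ‖Fn a n s‖ = Real.exp (-s.re * Lg n - a * Lg n ^ 2) := by
  rw [Fn, norm_exp]; congr 1; simp [← ofReal_pow]

lemma norm_Fn_le (a : ℝ) (ha : 0 < a) (n : ℕ) (s : ℂ) :
    ‖Fn a n s‖ ≤ (1 / ((n : ℝ) + 1) ^ 2) * Real.exp ((max (3 - s.re) 0) ^ 2 / (4 * a)) := by
  rw [norm_Fn, ← exp_mul_Lg, one_div, ← Real.exp_neg, ← Real.exp_add]
  apply Real.exp_le_exp.2
  set d := max (3 - s.re) 0
  have h1 : 3 - s.re ≤ d := le_max_left _ _
  have hL := Lg_nonneg n
  have h2 : d * Lg n - a * Lg n ^ 2 ≤ d ^ 2 / (4 * a) := by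
    rw [le_div_iff₀ (by positivity)]
    nlinarith [sq_nonneg (d - 2 * a * Lg n)]
  push_cast
  nlinarith

lemma summable_Fn (a : ℝ) (ha : 0 < a) (s : ℂ) : Summable fun n => Fn a n s :=
  Summable.of_norm_bounded (hasSum_inv_sq.summable.mul_right _) fun n => norm_Fn_le a ha n s

lemma norm_FF_le (a : ℝ) (ha : 0 < a) (s : ℂ) :
    ‖FF a s‖ ≤ 2 * Real.exp ((max (3 - s.re) 0) ^ 2 / (4 * a)) := by
  have := tsum_of_norm_bounded (f := fun n => Fn a n s) (hasSum_inv_sq.mul_right _)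
    fun n => norm_Fn_le a ha n s
  refine this.trans ?_
  gcongr
  nlinarith [Real.pi_lt_d2, Real.pi_pos]

lemma norm_FF_sub_one_le (a : ℝ) (ha : 0 < a) (s : ℂ) (hs : 3 ≤ s.re) : ‖FF a s - 1‖ ≤ 1 / 3 := by
  have h0 : Fn a 0 s = 1 := by simp [Fn, Lg]
  rw [FF, (summable_Fn a ha s).tsum_eq_zero_add, h0, add_sub_cancel_left]
  have h1 : HasSum (fun n : ℕ => 1 / 2 * (1 / (((n + 1 : ℕ) : ℝ) + 1) ^ 2))
      (1 / 2 * (Real.pi ^ 2 / 6 - 1)) := by
    have := (hasSum_nat_add_iff' 1).2 hasSum_inv_sq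
    simp only [Finset.range_one, Finset.sum_singleton, Nat.cast_zero, zero_add, one_pow,
      div_one] at this
    exact this.mul_left _
  have := tsum_of_norm_bounded (f := fun n => Fn a (n + 1) s) h1 ?_
  · refine this.trans ?_
    nlinarith [Real.pi_lt_d2, Real.pi_pos]
  · intro n
    rw [norm_Fn, ← exp_mul_Lg, one_div (Real.exp _), ← Real.exp_neg]
    have hL : Real.log 2 ≤ Lg (n + 1) := Real.log_le_log (by norm_num)
      (by push_cast; linarith [Nat.cast_nonneg (α := ℝ) n])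
    have e : (1 / 2 : ℝ) = Real.exp (-Real.log 2) := by
      rw [Real.exp_neg, Real.exp_log (by norm_num)]; norm_num
    rw [e, ← Real.exp_add]
    apply Real.exp_le_exp.2
    have := Lg_nonneg (n + 1)
    push_cast
    nlinarith [sq_nonneg (Lg (n + 1))]

lemma EE_ne_zero (a τ : ℝ) (s : ℂ) (h : 64 ≤ |τ|) : EE a τ s ≠ 0 :=
  mul_ne_zero (gam_base_ne_zero τ h) (exp_ne_zero _)

/-- Main approximation: `Ξ` divided by an explicit exponential factor is close to `FF`. -/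
lemma main_approx (a : ℝ) (ha : 0 < a) (τ y ρ : ℝ) (s' : ℂ) (hy : 8 ≤ y)
    (hτ : |τ| = y ^ 2) (hs : ‖s' - (3 + τ * I)‖ ≤ ρ) (hρ : 50 * ρ ^ 2 + 12 ≤ y)
    (hay : 400 * a ≤ y) :
    ‖XS a (s' + 2 * a * ell τ) / EE a τ (s' + 2 * a * ell τ) - FF a s'‖ ≤
      8 / y * Real.exp ((max (3 - s'.re) 0) ^ 2 / (4 * a)) := by
  have hE := EE_ne_zero a τ (s' + 2 * a * ell τ) (by rw [hτ]; nlinarith)
  have hE' : 0 < ‖EE a τ (s' + 2 * a * ell τ)‖ := norm_pos_iff.2 hE
  have h1 := (hasSum_Xn a ha (s' + 2 * a * ell τ)).sub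
    ((summable_Fn a ha s').hasSum.mul_left (EE a τ (s' + 2 * a * ell τ)))
  have h2 := tsum_of_norm_bounded (hasSum_inv_sq.mul_right _)
    fun n => term_approx a ha n τ y ρ s' hy hτ hs hρ hay
  rw [h1.tsum_eq] at h2
  have e : XS a (s' + 2 * a * ell τ) / EE a τ (s' + 2 * a * ell τ) - FF a s' =
      (XS a (s' + 2 * a * ell τ) - EE a τ (s' + 2 * a * ell τ) * ∑' n, Fn a n s') /
        EE a τ (s' + 2 * a * ell τ) := by
    rw [FF]; field_simp
  rw [e, norm_div, div_le_iff₀ hE']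
  refine h2.trans ?_
  have hp : Real.pi ^ 2 / 6 ≤ 2 := by nlinarith [Real.pi_lt_d2, Real.pi_pos]
  have hy0 : 0 < y := by linarith
  calc _ ≤ 2 * (4 / y * Real.exp ((max (3 - s'.re) 0) ^ 2 / (4 * a)) *
        ‖EE a τ (s' + 2 * a * ell τ)‖) := by gcongr
    _ = _ := by ring

end Pool.Agent.H21.Xi
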