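import Mathlib

set_option autoImplicit false

open Complex Filter Topology MeasureTheory Finset

namespace Pool.Agent.H21.Xi

lemma sum_le_of_surj {α β : Type*} (T : Finset β) (U : Finset α) (f : α → β) (g : β → ℝ)
    (hg : ∀ y, 0 ≤ g y) (h : ∀ y ∈ T, ∃ x ∈ U, f x = y) : ∑ y ∈ T, g y ≤ ∑ x ∈ U, g (f x) := by
  classical
  rw [← sum_fiberwise_of_maps_to (s := U) (t := U.image f) (g := f)
    (fun x hx => mem_image_of_mem f hx)]
  refine le_trans (sum_le_sum_of_subset_of_nonneg (t := U.image f) (fun y hy => ?_)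
    fun y _ _ => hg y) (sum_le_sum fun y hy => ?_)
  · obtain ⟨x, hx, rfl⟩ := h y hy
    exact mem_image_of_mem f hx
  · obtain ⟨x, hx, rfl⟩ := mem_image.1 hy
    exact single_le_sum (f := fun x => g (f x)) (fun i _ => hg _) (mem_filter.2 ⟨hx, rfl⟩)

lemma norm_int_exp_le (l A B : ℝ) (hl : l ≠ 0) :
    ‖∫ τ in A..B, exp (I * l * τ)‖ ≤ 2 / |l| := by
  have hc : (I * l : ℂ) ≠ 0 := mul_ne_zero I_ne_zero (by exact_mod_cast hl)
  rw [integral_exp_mul_complex hc, norm_div]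
  have h1 : ∀ x : ℝ, ‖exp (I * l * x)‖ = 1 := fun x => by rw [norm_exp]; simp
  have h2 : ‖(I * l : ℂ)‖ = |l| := by simp
  rw [h2]
  gcongr
  have := norm_sub_le (exp (I * l * B)) (exp (I * l * A))
  rw [h1, h1] at this; linarith

lemma mean_value {ι : Type*} (s : Finset ι) (c : ι → ℂ) (l : ι → ℝ) (D T H : ℝ) (hD : 0 ≤ D)
    (h : ∀ i ∈ s, l i ≠ 0 → 1 / |l i| ≤ D) :
    ‖(∫ τ in T..(T + H), ∑ i ∈ s, c i * exp (I * l i * τ)) - H * ∑ i ∈ s with l i = 0, c i‖ ≤
      2 * D * ∑ i ∈ s, ‖c i‖ := by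
  classical
  rw [intervalIntegral.integral_finset_sum (fun i _ => Continuous.intervalIntegrable (by fun_prop) _ _),
    sum_filter, mul_sum, ← sum_sub_distrib, mul_sum]
  refine norm_sum_le_of_le _ fun i hi => ?_
  rw [intervalIntegral.integral_const_mul]
  by_cases h0 : l i = 0
  · simp only [h0, if_true, ofReal_zero, mul_zero, zero_mul, exp_zero,
      intervalIntegral.integral_const, add_sub_cancel_left, real_smul, mul_one]
    rw [mul_comm, sub_self, norm_zero]; positivity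
  · simp only [h0, if_false, mul_zero, sub_zero, norm_mul]
    have h1 := norm_int_exp_le (l i) T (T + H) h0
    have h2 := h i hi h0
    rw [mul_comm]
    gcongr
    calc _ ≤ 2 / |l i| := h1
      _ = 2 * (1 / |l i|) := by ring
      _ ≤ _ := by gcongr

lemma inv_abs_log_le (p q X : ℕ) (hp : 1 ≤ p) (hq : 1 ≤ q) (hpX : p ≤ X) (hqX : q ≤ X)
    (hne : Real.log p - Real.log q ≠ 0) : 1 / |Real.log p - Real.log q| ≤ X := by
  have key : ∀ p q : ℕ, 1 ≤ q → p ≤ X → q < p → 1 / (X : ℝ) ≤ Real.log p - Real.log q := by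
    intro p q hq hpX hlt
    have hq' : (0 : ℝ) < q := by exact_mod_cast hq
    have hlt' : (q : ℝ) + 1 ≤ p := by exact_mod_cast hlt
    have hp' : (0 : ℝ) < p := by linarith
    have hX : (p : ℝ) ≤ X := by exact_mod_cast hpX
    have h1 := Real.log_le_sub_one_of_pos (div_pos hq' hp')
    rw [Real.log_div hq'.ne' hp'.ne'] at h1
    have h2 : 1 / (p : ℝ) ≤ 1 - q / p := by
      rw [div_le_iff₀ hp', sub_mul, div_mul_cancel₀ _ hp'.ne']; linarith
    have h3 : 1 / (X : ℝ) ≤ 1 / p := one_div_le_one_div_of_le hp' hX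
    linarith
  have hX : (0 : ℝ) < X := by exact_mod_cast (lt_of_lt_of_le hp hpX)
  rw [one_div_le (abs_pos.2 hne) hX]
  rcases lt_trichotomy p q with h | h | h
  · have := key q p hp hqX h
    rw [abs_sub_comm]; exact this.trans (le_abs_self _)
  · subst h; simp at hne
  · exact (key p q hq hpX h).trans (le_abs_self _)

lemma log_eq_iff (p q : ℕ) (hp : 1 ≤ p) (hq : 1 ≤ q) : Real.log p - Real.log q = 0 ↔ p = q := by
  constructor
  · intro h
    have := Real.log_injOn_pos (Set.mem_Ioi.2 (by exact_mod_cast hp : (0 : ℝ) < p))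
      (Set.mem_Ioi.2 (by exact_mod_cast hq : (0 : ℝ) < q)) (sub_eq_zero.1 h)
    exact_mod_cast this
  · rintro rfl; simp

noncomputable def kk (R x : ℝ) : ℂ := ∫ v in (0 : ℝ)..R, exp (I * x * v)

lemma kk_zero (R : ℝ) : kk R 0 = R := by simp [kk]

lemma norm_kk_le (R x : ℝ) (hR : 0 ≤ R) : ‖kk R x‖ ≤ R := by
  have := intervalIntegral.norm_integral_le_of_norm_le_const (a := 0) (b := R) (C := 1)
    (f := fun v : ℝ => exp (I * x * v)) (fun v _ => by rw [norm_exp]; simp)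
  simpa [abs_of_nonneg hR, kk] using this

/-- The Dirichlet polynomial `∑_{1 ≤ n ≤ N} b_n n^{-iτ}`. -/
noncomputable def dp (N : ℕ) (b : ℕ → ℝ) (τ : ℝ) : ℂ :=
  ∑ n ∈ Icc 1 N, (b n : ℂ) * exp (-(I * Real.log n * τ))

lemma continuous_dp (N : ℕ) (b : ℕ → ℝ) : Continuous (dp N b) := by unfold dp; fun_prop

noncomputable def QQ (N : ℕ) (b : ℕ → ℝ) (R τ : ℝ) : ℝ := ∫ v in (0 : ℝ)..R, ‖dp N b (τ + v)‖ ^ 2

lemma QQ_eq (N : ℕ) (b : ℕ → ℝ) (R τ : ℝ) : (QQ N b R τ : ℂ) =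
    ∑ p ∈ Icc 1 N ×ˢ Icc 1 N, ((b p.1 * b p.2 : ℝ) * kk R (Real.log p.2 - Real.log p.1)) *
      exp (I * (Real.log p.2 - Real.log p.1 : ℝ) * τ) := by
  have h1 : ∀ u : ℝ, ((‖dp N b u‖ ^ 2 : ℝ) : ℂ) = ∑ p ∈ Icc 1 N ×ˢ Icc 1 N,
      ((b p.1 * b p.2 : ℝ) : ℂ) * exp (I * (Real.log p.2 - Real.log p.1 : ℝ) * u) := by
    intro u
    rw [ofReal_pow, ← mul_conj', dp, map_sum, sum_mul_sum, sum_product]
    refine sum_congr rfl fun m _ => sum_congr rfl fun n _ => ?_
    rw [map_mul, conj_ofReal, ← exp_conj]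
    simp only [map_neg, map_mul, conj_I, conj_ofReal]
    have : exp (-(I * Real.log m * u)) * exp (-(-I * Real.log n * u)) =
        exp (I * (Real.log n - Real.log m : ℝ) * u) := by
      rw [← exp_add]; congr 1; push_cast; ring
    push_cast at this ⊢
    linear_combination (b m : ℂ) * b n * this
  rw [QQ, ← intervalIntegral.integral_ofReal]
  simp only [h1]
  rw [intervalIntegral.integral_finset_sum
    (fun i _ => Continuous.intervalIntegrable (by fun_prop) _ _)]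
  refine sum_congr rfl fun p _ => ?_
  rw [kk, ← intervalIntegral.integral_const_mul, ← intervalIntegral.integral_mul_const]
  congr 1; funext v
  rw [mul_assoc _ (exp _), ← exp_add]; congr 2; push_cast; ring

lemma continuous_QQ (N : ℕ) (b : ℕ → ℝ) (R : ℝ) : Continuous (QQ N b R) := by
  have : QQ N b R = fun τ => ((QQ N b R τ : ℝ) : ℂ).re := by funext τ; simp
  rw [this]
  simp only [QQ_eq]
  fun_prop

lemma second_moment (N : ℕ) (b : ℕ → ℝ) (R T H : ℝ) (hR : 0 ≤ R) (hb0 : ∀ n, 0 ≤ b n)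
    (hb1 : ∀ n, b n ≤ 1) :
    H * R * (∑ n ∈ Icc 1 N, b n ^ 2) - 2 * N ^ 3 * R ≤ ∫ τ in T..(T + H), QQ N b R τ := by
  have h := mean_value (Icc 1 N ×ˢ Icc 1 N)
    (fun p => ((b p.1 * b p.2 : ℝ) * kk R (Real.log p.2 - Real.log p.1)))
    (fun p => Real.log p.2 - Real.log p.1) N T H (Nat.cast_nonneg N) (fun p hp hne => by
      obtain ⟨h1, h2⟩ := mem_product.1 hp
      exact inv_abs_log_le _ _ N (mem_Icc.1 h2).1 (mem_Icc.1 h1).1 (mem_Icc.1 h2).2
        (mem_Icc.1 h1).2 hne)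
  simp only [← QQ_eq] at h
  rw [intervalIntegral.integral_ofReal] at h
  have hd : ∑ p ∈ Icc 1 N ×ˢ Icc 1 N with Real.log (p.2 : ℕ) - Real.log (p.1 : ℕ) = 0,
      (((b p.1 * b p.2 : ℝ) : ℂ) * kk R (Real.log p.2 - Real.log p.1)) =
      ((R * ∑ n ∈ Icc 1 N, b n ^ 2 : ℝ) : ℂ) := by
    rw [sum_filter, sum_product]
    push_cast
    rw [mul_sum]
    refine sum_congr rfl fun m hm => ?_
    rw [sum_eq_single_of_mem m hm]
    · simp [kk_zero]; ring
    · intro n hn hne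
      rw [if_neg]
      rw [log_eq_iff _ _ (mem_Icc.1 hn).1 (mem_Icc.1 hm).1]
      exact hne
  rw [hd, ← ofReal_mul, ← ofReal_sub, Complex.norm_real, Real.norm_eq_abs] at h
  have hs : ∑ p ∈ Icc 1 N ×ˢ Icc 1 N,
      ‖((b p.1 * b p.2 : ℝ) : ℂ) * kk R (Real.log p.2 - Real.log p.1)‖ ≤ N ^ 2 * R := by
    have := sum_le_card_nsmul (Icc 1 N ×ˢ Icc 1 N)
      (fun p => ‖((b p.1 * b p.2 : ℝ) : ℂ) * kk R (Real.log p.2 - Real.log p.1)‖) R (fun p _ => by
        rw [norm_mul, Complex.norm_real, Real.norm_of_nonneg (mul_nonneg (hb0 _) (hb0 _))]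
        calc _ ≤ 1 * 1 * R := by
              gcongr
              · exact hb0 _
              · exact hb1 _
              · exact hb1 _
              · exact norm_kk_le _ _ hR
          _ = R := by ring)
    simpa [sq] using this
  have h3 := (abs_le.1 (h.trans (show _ ≤ 2 * N * (N ^ 2 * R) by gcongr))).1
  nlinarith

noncomputable def WW (R x : ℝ) : ℝ := ‖kk R x‖ * ‖kk R (-x)‖

lemma WW_nonneg (R x : ℝ) : 0 ≤ WW R x := by unfold WW; positivity

lemma WW_neg (R x : ℝ) : WW R (-x) = WW R x := by simp [WW, mul_comm]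

lemma WW_le (R x : ℝ) (hR : 0 ≤ R) : WW R x ≤ R ^ 2 := by
  rw [WW, sq]; gcongr <;> exact norm_kk_le _ _ hR

lemma WW_le' (R x : ℝ) (hx : x ≠ 0) : WW R x ≤ 4 / x ^ 2 := by
  have h1 : ‖kk R x‖ ≤ 2 / |x| := norm_int_exp_le x 0 R hx
  have h2 : ‖kk R (-x)‖ ≤ 2 / |x| := by
    have := norm_int_exp_le (-x) 0 R (neg_ne_zero.2 hx)
    rwa [abs_neg] at this
  calc WW R x ≤ 2 / |x| * (2 / |x|) := by unfold WW; gcongr
    _ = 4 / x ^ 2 := by rw [← sq_abs x]; ring

lemma sum_min_le (μ : ℝ) (hμ : 0 < μ) (N : ℕ) :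
    ∑ j ∈ Icc 1 N, min 1 (μ ^ 2 / (j : ℝ) ^ 2) ≤ 4 * μ := by
  have key : ∀ N : ℕ, ∑ j ∈ Icc 1 N, min 1 (μ ^ 2 / (j : ℝ) ^ 2) ≤ 4 * μ - 4 * μ ^ 2 / (μ + N) := by
    intro N
    induction N with
    | zero => simp; field_simp; simp
    | succ N ih =>
      rw [sum_Icc_succ_top (by omega)]
      have hN : (0 : ℝ) ≤ N := Nat.cast_nonneg N
      have h1 : min 1 (μ ^ 2 / ((N + 1 : ℕ) : ℝ) ^ 2) ≤ 4 * μ ^ 2 / (μ + (N + 1)) ^ 2 := by
        push_cast
        rcases le_total ((N : ℝ) + 1) μ with h | h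
        · refine (min_le_left _ _).trans ?_
          rw [le_div_iff₀ (by positivity)]; nlinarith
        · refine (min_le_right _ _).trans ?_
          rw [div_le_div_iff₀ (by positivity) (by positivity)]
          have : (μ + (N + 1)) ^ 2 ≤ 4 * (N + 1) ^ 2 := by nlinarith
          nlinarith [sq_nonneg μ]
      have h2 : 4 * μ ^ 2 / (μ + (N + 1)) ^ 2 ≤ 4 * μ ^ 2 / (μ + N) - 4 * μ ^ 2 / (μ + (N + 1)) := by
        rw [div_sub_div _ _ (by positivity) (by positivity),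
          div_le_div_iff₀ (by positivity) (by positivity)]
        have : 0 ≤ 4 * μ ^ 2 * (μ + (N + 1)) := by positivity
        nlinarith
      push_cast at h1 ⊢
      linarith
  have := key N
  have h2 : 0 ≤ 4 * μ ^ 2 / (μ + N) := by positivity
  linarith

lemma sum_multiples_le (N M β : ℕ) (b : ℕ → ℝ) (Cb : ℝ) (hCb : 1 ≤ Cb) (hM : 1 ≤ M) (hβ : 1 ≤ β)
    (hb1 : ∀ n, b n ≤ 1) (hb2 : ∀ n, 1 ≤ n → b n ≤ Cb * ((M : ℝ) / n) ^ 2) :
    ∑ g ∈ Icc 1 N, b (g * β) ≤ 4 * Cb * M / β := by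
  have hM' : (0 : ℝ) < M := by exact_mod_cast hM
  have hβ' : (0 : ℝ) < β := by exact_mod_cast hβ
  have h := sum_min_le ((M : ℝ) / β) (by positivity) N
  calc _ ≤ ∑ g ∈ Icc 1 N, Cb * min 1 (((M : ℝ) / β) ^ 2 / (g : ℝ) ^ 2) := by
        refine sum_le_sum fun g hg => ?_
        have hg1 := (mem_Icc.1 hg).1
        rw [mul_min_of_nonneg _ _ (by linarith)]
        refine le_min (by linarith [hb1 (g * β)]) ?_
        refine (hb2 _ (Nat.mul_pos hg1 hβ)).trans (le_of_eq ?_)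
        push_cast; ring
    _ = Cb * ∑ g ∈ Icc 1 N, min 1 (((M : ℝ) / β) ^ 2 / (g : ℝ) ^ 2) := by rw [mul_sum]
    _ ≤ Cb * (4 * ((M : ℝ) / β)) := by gcongr
    _ = _ := by ring

lemma sum_WW_le (N β : ℕ) (R : ℝ) (hR : 0 < R) (hβ : β ∈ Icc 1 N) :
    ∑ γ ∈ Icc 1 N with γ < β, WW R (Real.log β - Real.log γ) ≤ 8 * R * β := by
  have hβ' : (0 : ℝ) < β := by exact_mod_cast (mem_Icc.1 hβ).1
  have h := sum_min_le (2 * β / R) (by positivity) N
  let F : ℕ → ℝ := fun j => R ^ 2 * min 1 ((2 * β / R) ^ 2 / (j : ℝ) ^ 2)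
  calc _ ≤ ∑ γ ∈ Icc 1 N with γ < β, F (β - (β - (β - γ))) := by
        refine sum_le_sum fun γ hγ => ?_
        obtain ⟨h1, h2⟩ := mem_filter.1 hγ
        have h3 : β - (β - (β - γ)) = β - γ := by omega
        have hγ' : (0 : ℝ) < γ := by exact_mod_cast (mem_Icc.1 h1).1
        have hlt : (γ : ℝ) < β := by exact_mod_cast h2
        simp only [F, h3]
        rw [mul_min_of_nonneg _ _ (by positivity), Nat.cast_sub h2.le]
        refine le_min (by simpa using WW_le R _ hR.le) ?_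
        have a1 := Real.log_le_sub_one_of_pos (div_pos hγ' hβ')
        rw [Real.log_div hγ'.ne' hβ'.ne'] at a1
        have a2 : ((β : ℝ) - γ) / β ≤ Real.log β - Real.log γ := by
          rw [sub_div, div_self hβ'.ne']; linarith
        have a3 : 0 < ((β : ℝ) - γ) / β := div_pos (by linarith) hβ'
        refine (WW_le' R _ (by linarith)).trans ?_
        calc 4 / (Real.log β - Real.log γ) ^ 2 ≤ 4 / (((β : ℝ) - γ) / β) ^ 2 := by gcongr
          _ = _ := by
            have : (β : ℝ) - γ ≠ 0 := by linarith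
            field_simp; ring
    _ ≤ ∑ j ∈ Icc 1 N with j < β, F (β - (β - j)) := by
        refine sum_le_of_surj (Icc 1 N |>.filter (· < β)) (Icc 1 N |>.filter (· < β))
          (fun j => β - j) (fun γ => F (β - (β - (β - γ)))) (fun y => by positivity) ?_ |>.trans
          (le_of_eq (sum_congr rfl fun j hj => ?_))
        · intro γ hγ
          simp only [mem_filter, mem_Icc] at hγ hβ ⊢
          exact ⟨β - γ, by omega, by omega⟩
        · simp only [mem_filter, mem_Icc] at hj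
          congr 1; omega
    _ ≤ ∑ j ∈ Icc 1 N, F j := by
        refine le_trans (le_of_eq (sum_congr rfl fun j hj => ?_))
          (sum_le_sum_of_subset_of_nonneg (filter_subset (· < β) _) fun j _ _ => by positivity)
        simp only [mem_filter, mem_Icc] at hj
        congr 1; omega
    _ = R ^ 2 * ∑ j ∈ Icc 1 N, min 1 ((2 * β / R) ^ 2 / (j : ℝ) ^ 2) := by rw [mul_sum]
    _ ≤ R ^ 2 * (4 * (2 * β / R)) := by gcongr
    _ = _ := by field_simp; ring

lemma pair_sum_le (N M : ℕ) (b : ℕ → ℝ) (Cb R : ℝ) (hCb : 1 ≤ Cb) (hM : 1 ≤ M) (hR : 0 < R)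
    (hb0 : ∀ n, 0 ≤ b n) (hb1 : ∀ n, b n ≤ 1) (hb2 : ∀ n, 1 ≤ n → b n ≤ Cb * ((M : ℝ) / n) ^ 2) :
    ∑ p ∈ Icc 1 N ×ˢ Icc 1 N with Nat.Coprime p.1 p.2,
      WW R (Real.log p.1 - Real.log p.2) * (∑ g ∈ Icc 1 N, b (g * p.1) * b (g * p.2)) ^ 2 ≤
      R ^ 2 * (∑ n ∈ Icc 1 N, b n ^ 2) ^ 2 + 256 * Cb ^ 2 * R * M ^ 2 * (1 + Real.log N) := by
  classical
  let h : ℕ → ℕ → ℝ := fun β γ =>
    if γ < β then WW R (Real.log β - Real.log γ) * (4 * Cb * M / β) ^ 2 else 0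
  have hh0 : ∀ β γ, 0 ≤ h β γ := fun β γ => by
    simp only [h]; split_ifs
    · have := WW_nonneg R (Real.log β - Real.log γ); positivity
    · exact le_rfl
  have hV : ∀ β γ : ℕ, 1 ≤ β → ∑ g ∈ Icc 1 N, b (g * β) * b (g * γ) ≤ 4 * Cb * M / β := by
    intro β γ hβ
    refine le_trans (sum_le_sum fun g _ => ?_) (sum_multiples_le N M β b Cb hCb hM hβ hb1 hb2)
    exact mul_le_of_le_one_right (hb0 _) (hb1 _)
  have hV0 : ∀ β γ : ℕ, 0 ≤ ∑ g ∈ Icc 1 N, b (g * β) * b (g * γ) := fun β γ =>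
    sum_nonneg fun g _ => mul_nonneg (hb0 _) (hb0 _)
  have hrow : ∑ β ∈ Icc 1 N, ∑ γ ∈ Icc 1 N, h β γ ≤
      128 * Cb ^ 2 * R * M ^ 2 * (1 + Real.log N) := by
    have hH : ∑ β ∈ Icc 1 N, ((β : ℝ))⁻¹ ≤ 1 + Real.log N := by
      have := harmonic_le_one_add_log N
      simpa [harmonic_eq_sum_Icc] using this
    calc _ ≤ ∑ β ∈ Icc 1 N, 128 * Cb ^ 2 * R * M ^ 2 * ((β : ℝ))⁻¹ := by
          refine sum_le_sum fun β hβ => ?_
          have hβ' : (0 : ℝ) < β := by exact_mod_cast (mem_Icc.1 hβ).1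
          simp only [h]
          rw [← sum_filter, ← sum_mul]
          calc _ ≤ 8 * R * β * (4 * Cb * M / β) ^ 2 := by
                gcongr; exact sum_WW_le N β R hR hβ
            _ = _ := by field_simp; ring
      _ = 128 * Cb ^ 2 * R * M ^ 2 * ∑ β ∈ Icc 1 N, ((β : ℝ))⁻¹ := by rw [mul_sum]
      _ ≤ _ := by gcongr
  set D := R ^ 2 * (∑ n ∈ Icc 1 N, b n ^ 2) ^ 2 with hD
  have hD0 : 0 ≤ D := by positivity
  calc _ ≤ ∑ p ∈ Icc 1 N ×ˢ Icc 1 N with Nat.Coprime p.1 p.2,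
        ((if p = (1, 1) then D else 0) + h p.1 p.2 + h p.2 p.1) := by
        refine sum_le_sum ?_
        rintro ⟨β, γ⟩ hp
        simp only [mem_filter, mem_product, mem_Icc] at hp
        obtain ⟨⟨⟨h1, _⟩, ⟨h2, _⟩⟩, hco⟩ := hp
        have hi : 0 ≤ (if (β, γ) = (1, 1) then D else 0) := by split_ifs <;> simp [hD0]
        rcases lt_trichotomy γ β with hlt | heq | hlt
        · have : WW R (Real.log β - Real.log γ) *
              (∑ g ∈ Icc 1 N, b (g * β) * b (g * γ)) ^ 2 ≤ h β γ := by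
            simp only [h, if_pos hlt]
            have := WW_nonneg R (Real.log β - Real.log γ)
            have := hV0 β γ
            gcongr
            exact hV β γ h1
          linarith [hh0 γ β]
        · subst heq
          have : γ = 1 := by simpa using hco
          subst this
          simp only [if_true, mul_one]
          have : WW R (Real.log (1 : ℕ) - Real.log (1 : ℕ)) *
              (∑ g ∈ Icc 1 N, b g * b g) ^ 2 ≤ D := by
            rw [hD]
            simp only [← sq]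
            gcongr
            exact WW_le _ _ hR.le
          linarith [hh0 1 1]
        · have : WW R (Real.log β - Real.log γ) *
              (∑ g ∈ Icc 1 N, b (g * β) * b (g * γ)) ^ 2 ≤ h γ β := by
            simp only [h, if_pos hlt]
            rw [← WW_neg, neg_sub]
            have := WW_nonneg R (Real.log γ - Real.log β)
            have := hV0 β γ
            gcongr
            simp only [mul_comm (b (_ * β))]
            exact hV γ β h2
          linarith [hh0 β γ]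
    _ ≤ ∑ p ∈ Icc 1 N ×ˢ Icc 1 N, ((if p = (1, 1) then D else 0) + h p.1 p.2 + h p.2 p.1) := by
        refine sum_le_sum_of_subset_of_nonneg (filter_subset _ _) fun p _ _ => ?_
        have hi : 0 ≤ (if p = (1, 1) then D else 0) := by split_ifs <;> simp [hD0]
        linarith [hh0 p.1 p.2, hh0 p.2 p.1]
    _ ≤ _ := by
        rw [sum_add_distrib, sum_add_distrib, sum_ite_eq', sum_product, sum_product_right]
        have : (if (1, 1) ∈ Icc 1 N ×ˢ Icc 1 N then D else 0) ≤ D := by split_ifs <;> simp [hD0]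
        linarith

lemma fourth_moment (N M : ℕ) (b : ℕ → ℝ) (Cb R T H : ℝ) (hCb : 1 ≤ Cb) (hM : 1 ≤ M) (hR : 0 < R)
    (hH : 0 ≤ H)
    (hb0 : ∀ n, 0 ≤ b n) (hb1 : ∀ n, b n ≤ 1) (hb2 : ∀ n, 1 ≤ n → b n ≤ Cb * ((M : ℝ) / n) ^ 2) :
    ∫ τ in T..(T + H), QQ N b R τ ^ 2 ≤
      H * (R ^ 2 * (∑ n ∈ Icc 1 N, b n ^ 2) ^ 2 + 256 * Cb ^ 2 * R * M ^ 2 * (1 + Real.log N)) +
        2 * N ^ 6 * R ^ 2 := by
  classical
  set S := Icc 1 N ×ˢ Icc 1 N with hS
  let c : ℕ × ℕ → ℂ := fun p => ((b p.1 * b p.2 : ℝ) * kk R (Real.log p.2 - Real.log p.1))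
  let l : ℕ × ℕ → ℝ := fun p => Real.log p.2 - Real.log p.1
  have hl : ∀ q ∈ S ×ˢ S, l q.1 + l q.2 =
      Real.log (q.1.2 * q.2.2 : ℕ) - Real.log (q.1.1 * q.2.1 : ℕ) := by
    rintro ⟨⟨m1, n1⟩, ⟨m2, n2⟩⟩ hq
    simp only [hS, mem_product, mem_Icc] at hq
    obtain ⟨⟨⟨a1, _⟩, ⟨a2, _⟩⟩, ⟨⟨a3, _⟩, ⟨a4, _⟩⟩⟩ := hq
    have e : ∀ x : ℕ, 1 ≤ x → (x : ℝ) ≠ 0 := fun x hx => by positivity
    simp only [l]
    push_cast
    rw [Real.log_mul (e _ a2) (e _ a4), Real.log_mul (e _ a1) (e _ a3)]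
    ring
  have h := mean_value (S ×ˢ S) (fun q => c q.1 * c q.2) (fun q => l q.1 + l q.2)
    ((N ^ 2 : ℕ) : ℝ) T H (Nat.cast_nonneg _) (fun q hq hne => by
      rw [hl q hq] at hne ⊢
      simp only [hS, mem_product, mem_Icc] at hq
      obtain ⟨⟨⟨a1, b1⟩, ⟨a2, b2⟩⟩, ⟨⟨a3, b3⟩, ⟨a4, b4⟩⟩⟩ := hq
      exact inv_abs_log_le _ _ _ (Nat.mul_pos a2 a4) (Nat.mul_pos a1 a3)
        (by rw [sq]; exact Nat.mul_le_mul b2 b4) (by rw [sq]; exact Nat.mul_le_mul b1 b3) hne)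
  have e1 : ∀ τ : ℝ, ∑ q ∈ S ×ˢ S, c q.1 * c q.2 * exp (I * ((l q.1 + l q.2 : ℝ) : ℂ) * τ) =
      ((QQ N b R τ ^ 2 : ℝ) : ℂ) := by
    intro τ
    rw [ofReal_pow, QQ_eq, sq, sum_mul_sum, sum_product]
    refine sum_congr rfl fun p _ => sum_congr rfl fun q _ => ?_
    have : exp (I * ((l p + l q : ℝ) : ℂ) * τ) = exp (I * (l p : ℂ) * τ) * exp (I * (l q : ℂ) * τ) := by
      rw [← exp_add]; congr 1; push_cast; ring
    simp only [this, c, l]
    ring
  simp only [e1] at h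
  rw [intervalIntegral.integral_ofReal] at h
  have hc : ∀ p, ‖c p‖ = b p.1 * b p.2 * ‖kk R (l p)‖ := fun p => by
    simp only [c, l]
    rw [norm_mul, Complex.norm_real, Real.norm_of_nonneg (mul_nonneg (hb0 _) (hb0 _))]
  have hcR : ∀ p, ‖c p‖ ≤ R := fun p => by
    rw [hc]
    calc _ ≤ 1 * 1 * R := by
          gcongr
          · exact hb0 _
          · exact hb1 _
          · exact hb1 _
          · exact norm_kk_le _ _ hR.le
      _ = R := by ring
  have hs : ∑ q ∈ S ×ˢ S, ‖c q.1 * c q.2‖ ≤ N ^ 4 * R ^ 2 := by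
    have := sum_le_card_nsmul (S ×ˢ S) (fun q => ‖c q.1 * c q.2‖) (R ^ 2) (fun q _ => by
      rw [norm_mul, sq]; gcongr <;> exact hcR _)
    simp only [hS, card_product, Nat.card_Icc, add_tsub_cancel_right, nsmul_eq_mul] at this
    push_cast at this
    linarith
  let G : (ℕ × ℕ) × (ℕ × ℕ) → ℝ := fun q => b q.1.1 * b q.1.2 * (b q.2.1 * b q.2.2) * WW R (l q.1)
  have hG0 : ∀ q, 0 ≤ G q := fun q =>
    mul_nonneg (mul_nonneg (mul_nonneg (hb0 _) (hb0 _)) (mul_nonneg (hb0 _) (hb0 _))) (WW_nonneg _ _)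
  have hdiag : ‖∑ q ∈ S ×ˢ S with l q.1 + l q.2 = 0, c q.1 * c q.2‖ ≤
      R ^ 2 * (∑ n ∈ Icc 1 N, b n ^ 2) ^ 2 + 256 * Cb ^ 2 * R * M ^ 2 * (1 + Real.log N) := by
    refine le_trans ?_ (pair_sum_le N M b Cb R hCb hM hR hb0 hb1 hb2)
    calc _ ≤ ∑ q ∈ S ×ˢ S with l q.1 + l q.2 = 0, G q := by
          refine norm_sum_le_of_le _ fun q hq => le_of_eq ?_
          have h2 : l q.2 = -l q.1 := by linarith [(mem_filter.1 hq).2]
          rw [norm_mul, hc, hc, h2]
          simp only [G, WW]; ring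
      _ ≤ ∑ x ∈ (S.filter fun p => Nat.Coprime p.1 p.2) ×ˢ S,
          G ((x.2.1 * x.1.2, x.2.1 * x.1.1), (x.2.2 * x.1.1, x.2.2 * x.1.2)) := by
          refine sum_le_of_surj _ _ (fun x : (ℕ × ℕ) × (ℕ × ℕ) =>
            ((x.2.1 * x.1.2, x.2.1 * x.1.1), (x.2.2 * x.1.1, x.2.2 * x.1.2))) G hG0 ?_
          rintro ⟨⟨m1, n1⟩, ⟨m2, n2⟩⟩ hq
          obtain ⟨hq1, hq2⟩ := mem_filter.1 hq
          rw [hl _ hq1] at hq2
          simp only [hS, mem_product, mem_Icc] at hq1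
          obtain ⟨⟨⟨a1, b1⟩, ⟨a2, b2⟩⟩, ⟨⟨a3, b3⟩, ⟨a4, b4⟩⟩⟩ := hq1
          rw [log_eq_iff _ _ (Nat.mul_pos a2 a4) (Nat.mul_pos a1 a3)] at hq2
          obtain ⟨β, γ, hco, hn1, hm1⟩ := Nat.exists_coprime n1 m1
          set g := Nat.gcd n1 m1 with hg
          have hg0 : 0 < g := Nat.gcd_pos_of_pos_left _ a2
          have h3 : β * n2 = γ * m2 := by
            apply Nat.eq_of_mul_eq_mul_left hg0
            rw [hn1, hm1] at hq2
            linarith
          obtain ⟨δ, hδ⟩ : γ ∣ n2 := hco.symm.dvd_of_dvd_mul_left ⟨m2, h3⟩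
          have hγ0 : 0 < γ := Nat.pos_of_ne_zero fun h => by simp [h] at hm1; omega
          have hβ0 : 0 < β := Nat.pos_of_ne_zero fun h => by simp [h] at hn1; omega
          have hδ0 : 0 < δ := Nat.pos_of_ne_zero fun h => by simp [h] at hδ; omega
          have h4 : m2 = δ * β := by
            apply Nat.eq_of_mul_eq_mul_left hγ0
            rw [← h3, hδ]; ring
          refine ⟨((β, γ), (g, δ)), ?_, ?_⟩
          · simp only [hS, mem_product, mem_Icc, mem_filter]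
            refine ⟨⟨⟨⟨hβ0, ?_⟩, ⟨hγ0, ?_⟩⟩, hco⟩, ⟨hg0, ?_⟩, ⟨hδ0, ?_⟩⟩
            · exact le_trans (Nat.le_mul_of_pos_right _ hg0) (hn1 ▸ b2)
            · exact le_trans (Nat.le_mul_of_pos_right _ hg0) (hm1 ▸ b1)
            · exact le_trans (Nat.le_mul_of_pos_left _ hβ0) (hn1 ▸ b2)
            · exact le_trans (Nat.le_mul_of_pos_left _ hγ0) (hδ ▸ b4)
          · simp only [Prod.mk.injEq]
            exact ⟨⟨by rw [mul_comm]; exact hm1.symm, by rw [mul_comm]; exact hn1.symm⟩,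
              h4.symm, by rw [mul_comm]; exact hδ.symm⟩
      _ = _ := by
          rw [sum_product]
          refine sum_congr rfl ?_
          rintro ⟨β, γ⟩ hp
          simp only [hS, mem_product, mem_Icc, mem_filter] at hp
          obtain ⟨⟨⟨a1, _⟩, ⟨a2, _⟩⟩, _⟩ := hp
          rw [sq, sum_mul_sum, hS, sum_product, mul_sum]
          refine sum_congr rfl fun g hg => ?_
          rw [mul_sum]
          refine sum_congr rfl fun δ _ => ?_
          have e : ∀ x : ℕ, 1 ≤ x → (x : ℝ) ≠ 0 := fun x hx => by positivity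
          simp only [G, l]
          push_cast
          rw [Real.log_mul (e _ (mem_Icc.1 hg).1) (e _ a1), Real.log_mul (e _ (mem_Icc.1 hg).1) (e _ a2),
            show Real.log g + Real.log β - (Real.log g + Real.log γ) = Real.log β - Real.log γ by ring]
          ring
  have h5 := norm_le_norm_sub_add (((∫ τ in T..(T + H), QQ N b R τ ^ 2 : ℝ)) : ℂ)
    (H * ∑ q ∈ S ×ˢ S with l q.1 + l q.2 = 0, c q.1 * c q.2)
  rw [norm_mul, Complex.norm_real, Complex.norm_real, Real.norm_of_nonneg hH, Real.norm_eq_abs] at h5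
  have h6 := le_abs_self (∫ τ in T..(T + H), QQ N b R τ ^ 2)
  have h7 := mul_le_mul_of_nonneg_left hdiag hH
  have h8 : 2 * ((N ^ 2 : ℕ) : ℝ) * ∑ q ∈ S ×ˢ S, ‖c q.1 * c q.2‖ ≤ 2 * N ^ 2 * (N ^ 4 * R ^ 2) := by
    push_cast; gcongr
  nlinarith

open Classical in
/-- Paley-Zygmund: a positive proportion of windows contain a large value. -/
theorem paley_zygmund (Cb c0 ε : ℝ) (hCb : 1 ≤ Cb) (hc0 : 0 < c0) (hε : 0 < ε) :
    ∃ c1 : ℝ, 0 < c1 ∧ ∀ (M N K : ℕ) (b : ℕ → ℝ) (R T : ℝ), 1 ≤ M → (∀ n, 0 ≤ b n) →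
      (∀ n, b n ≤ 1) → (∀ n, 1 ≤ n → b n ≤ Cb * ((M : ℝ) / n) ^ 2) →
      c0 * M ≤ ∑ n ∈ Icc 1 N, b n ^ 2 → 1 ≤ c0 * M → 0 < R → ε * (1 + Real.log N) ≤ R →
      1 ≤ N → 8 * (N : ℝ) ^ 6 ≤ K * R →
      c1 * K ≤ ((range K).filter fun k : ℕ => ∃ τ ∈ Set.Icc (T + k * R) (T + (k + 2) * R),
        c0 * M / 4 ≤ ‖dp N b τ‖ ^ 2).card := by
  set C2 := 2 + 256 * Cb ^ 2 / (ε * c0 ^ 2) with hC2
  have hC20 : 0 < C2 := by positivity
  refine ⟨1 / (4 * C2), by positivity, ?_⟩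
  intro M N K b R T hM hb0 hb1 hb2 hm2 hm1 hR hεR hN hK
  set m2 := ∑ n ∈ Icc 1 N, b n ^ 2 with hm2def
  set Good := (range K).filter fun k : ℕ => ∃ τ ∈ Set.Icc (T + k * R) (T + (k + 2) * R),
        c0 * M / 4 ≤ ‖dp N b τ‖ ^ 2 with hGood
  set H := K * R with hH
  have hN' : (1 : ℝ) ≤ N := by exact_mod_cast hN
  have hH0 : 0 ≤ H := by positivity
  have hm21 : 1 ≤ m2 := hm1.trans hm2
  have hN3 : (N : ℝ) ^ 3 ≤ N ^ 6 := pow_le_pow_right₀ hN' (by norm_num)
  have h2 := second_moment N b R T H hR.le hb0 hb1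
  have h4 := fourth_moment N M b Cb R T H hCb hM hR hH0 hb0 hb1 hb2
  rw [← hm2def] at h2 h4
  have h2' : 3 / 4 * (H * R * m2) ≤ ∫ τ in T..(T + H), QQ N b R τ := by
    have : 8 * (N : ℝ) ^ 3 * R ≤ H * R * m2 := by
      calc 8 * (N : ℝ) ^ 3 * R ≤ H * R := by gcongr; linarith
        _ ≤ _ := le_mul_of_one_le_right (by positivity) hm21
    linarith
  have h4' : ∫ τ in T..(T + H), QQ N b R τ ^ 2 ≤ C2 * (H * R ^ 2 * m2 ^ 2) := by
    have a1 : 2 * (N : ℝ) ^ 6 * R ^ 2 ≤ H * R ^ 2 * m2 ^ 2 := by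
      calc 2 * (N : ℝ) ^ 6 * R ^ 2 ≤ H * R ^ 2 := by gcongr; nlinarith [pow_pos (show (0:ℝ) < N by linarith) 6]
        _ ≤ _ := le_mul_of_one_le_right (by positivity) (one_le_pow₀ hm21)
    have a2 : 256 * Cb ^ 2 * R * M ^ 2 * (1 + Real.log N) ≤
        256 * Cb ^ 2 / (ε * c0 ^ 2) * (R ^ 2 * m2 ^ 2) := by
      have hl : 0 ≤ 1 + Real.log N := by linarith [Real.log_nonneg hN']
      calc _ = 256 * Cb ^ 2 / (ε * c0 ^ 2) * (R * (ε * (1 + Real.log N)) * (c0 * M) ^ 2) := by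
            field_simp
        _ ≤ 256 * Cb ^ 2 / (ε * c0 ^ 2) * (R * R * m2 ^ 2) := by gcongr
        _ = _ := by ring
    have a3 := mul_le_mul_of_nonneg_left a2 hH0
    rw [hC2]
    nlinarith
  set μ := 2 * C2 * R * m2 with hμ
  have hμ0 : 0 < μ := by positivity
  have hQc := continuous_QQ N b R
  have hpiece : ∀ k ∈ range K, ∫ τ in (T + k * R)..(T + (k + 1 : ℕ) * R), QQ N b R τ ≤
      R * (R * (m2 / 4)) + (∫ τ in (T + k * R)..(T + (k + 1 : ℕ) * R), QQ N b R τ ^ 2) / (2 * μ) +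
        (if k ∈ Good then R * (μ / 2) else 0) := by
    intro k hk
    have hle : T + k * R ≤ T + (k + 1 : ℕ) * R := by push_cast; nlinarith
    have hlen : T + (k + 1 : ℕ) * R - (T + k * R) = R := by push_cast; ring
    have e : R * (R * (m2 / 4)) +
        (∫ τ in (T + k * R)..(T + (k + 1 : ℕ) * R), QQ N b R τ ^ 2) / (2 * μ) +
        (if k ∈ Good then R * (μ / 2) else 0) = ∫ τ in (T + k * R)..(T + (k + 1 : ℕ) * R),
          (QQ N b R τ ^ 2 / (2 * μ) + (R * (m2 / 4) + if k ∈ Good then μ / 2 else 0)) := by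
      rw [intervalIntegral.integral_add (Continuous.intervalIntegrable (by fun_prop) _ _)
        (Continuous.intervalIntegrable (by fun_prop) _ _), intervalIntegral.integral_div,
        intervalIntegral.integral_const, hlen, smul_eq_mul]
      split_ifs <;> ring
    rw [e]
    refine intervalIntegral.integral_mono_on hle (hQc.intervalIntegrable _ _)
      (Continuous.intervalIntegrable (by fun_prop) _ _) fun τ hτ => ?_
    have hq2 : 0 ≤ QQ N b R τ ^ 2 / (2 * μ) := by positivity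
    split_ifs with hg
    · have : QQ N b R τ ≤ QQ N b R τ ^ 2 / (2 * μ) + μ / 2 := by
        rw [div_add' _ _ _ (by positivity), le_div_iff₀ (by positivity)]
        nlinarith [sq_nonneg (QQ N b R τ - μ)]
      have : 0 ≤ R * (m2 / 4) := by positivity
      linarith
    · have hbad : ∀ v ∈ Set.Icc (0 : ℝ) R, ‖dp N b (τ + v)‖ ^ 2 ≤ m2 / 4 := by
        intro v hv
        by_contra hcon
        apply hg
        refine mem_filter.2 ⟨hk, τ + v, ⟨by linarith [hτ.1, hv.1], ?_⟩, by linarith⟩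
        have := hτ.2
        push_cast at this
        linarith [hv.2]
      have := intervalIntegral.integral_mono_on (μ := volume) hR.le
        (Continuous.intervalIntegrable (u := fun v => ‖dp N b (τ + v)‖ ^ 2)
          (by have := continuous_dp N b; fun_prop) _ _)
        (Continuous.intervalIntegrable (u := fun _ => m2 / 4) (by fun_prop) _ _) hbad
      rw [intervalIntegral.integral_const, sub_zero, smul_eq_mul] at this
      have e2 : QQ N b R τ ≤ R * (m2 / 4) := this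
      linarith
  have hsum := sum_le_sum hpiece
  have s1 := intervalIntegral.sum_integral_adjacent_intervals (μ := volume) (f := QQ N b R)
    (a := fun k : ℕ => T + k * R) (n := K) (fun k _ => hQc.intervalIntegrable _ _)
  have s2 := intervalIntegral.sum_integral_adjacent_intervals (μ := volume)
    (f := fun τ => QQ N b R τ ^ 2)
    (a := fun k : ℕ => T + k * R) (n := K) (fun k _ => Continuous.intervalIntegrable (by fun_prop) _ _)
  simp only [Nat.cast_zero, zero_mul, add_zero] at s1 s2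
  rw [sum_add_distrib, sum_add_distrib, ← sum_div, s1, s2, sum_const, card_range, ← sum_filter,
    sum_const, nsmul_eq_mul, nsmul_eq_mul] at hsum
  have hGG : (range K).filter (· ∈ Good) = Good := by
    ext k; simp only [mem_filter, hGood]; tauto
  rw [hGG, ← hH] at hsum
  have b1 : (∫ τ in T..(T + H), QQ N b R τ ^ 2) / (2 * μ) ≤ H * R * m2 / 4 := by
    rw [div_le_iff₀ (by positivity), hμ]
    refine h4'.trans (le_of_eq ?_); ring
  have b2 : (K : ℝ) * (R * (R * (m2 / 4))) = H * R * m2 / 4 := by rw [hH]; ring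
  have b3 : H * R * m2 / 4 ≤ Good.card * (R * (μ / 2)) := by linarith
  rw [hH, hμ] at b3
  rw [one_div, inv_mul_le_iff₀ (by positivity)]
  have b4 : (K : ℝ) * (R * R * m2) ≤ (4 * C2 * Good.card) * (R * R * m2) := by linarith
  exact le_of_mul_le_mul_right b4 (by positivity)

end Pool.Agent.H21.Xi
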