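import Mathlib
import Pool.Agent.H21.XiDef

set_option autoImplicit false

open scoped ENNReal
open Complex Metric Set Filter Topology

namespace Pool.Agent.H21.Xi

lemma factor_one (G : ℂ → ℂ) (hG : Differentiable ℂ G) (ρ : ℂ) (m : ℕ)
    (hm : analyticOrderAt G ρ = m) :
    ∃ g : ℂ → ℂ, Differentiable ℂ g ∧ g ρ ≠ 0 ∧ ∀ s, G s = (s - ρ) ^ m * g s := by
  classical
  obtain ⟨h, hh, hh0, hev⟩ := (hG.analyticAt ρ).analyticOrderAt_eq_natCast.1 hm
  refine ⟨fun s => if s = ρ then h ρ else G s / (s - ρ) ^ m, ?_, by simpa using hh0, ?_⟩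
  · intro s
    by_cases hs : s = ρ
    · subst hs
      refine hh.differentiableAt.congr_of_eventuallyEq ?_
      filter_upwards [hev] with z hz
      by_cases hz' : z = s
      · simp [hz']
      · have : (z - s) ^ m ≠ 0 := pow_ne_zero _ (sub_ne_zero.2 hz')
        simp only [hz', if_false, hz, smul_eq_mul]
        field_simp
    · have h1 : DifferentiableAt ℂ (fun z => G z / (z - ρ) ^ m) s :=
        (hG s).div (by fun_prop) (pow_ne_zero _ (sub_ne_zero.2 hs))
      refine h1.congr_of_eventuallyEq ?_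
      filter_upwards [isOpen_ne.mem_nhds hs] with z hz
      simp [hz]
  · intro s
    by_cases hs : s = ρ
    · subst hs
      simpa using hev.self_of_nhds
    · have : (s - ρ) ^ m ≠ 0 := pow_ne_zero _ (sub_ne_zero.2 hs)
      simp only [hs, if_false]
      field_simp

lemma order_ne_top (G : ℂ → ℂ) (hG : Differentiable ℂ G) (h0 : ∃ z, G z ≠ 0) (ρ : ℂ) :
    analyticOrderAt G ρ ≠ ⊤ := by
  obtain ⟨z, hz⟩ := h0
  intro h
  rw [AnalyticOnNhd.analyticOrderAt_eq_top_iff_eq_zero ρ (fun z => hG.analyticAt z)] at h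
  exact hz (by simp [h])

lemma order_mul_nonvan (P g : ℂ → ℂ) (hP : Differentiable ℂ P) (hg : Differentiable ℂ g) (ρ : ℂ)
    (h : P ρ ≠ 0) : analyticOrderAt (fun s => P s * g s) ρ = analyticOrderAt g ρ := by
  have := analyticOrderAt_mul (hP.analyticAt ρ) (hg.analyticAt ρ)
  rw [(hP.analyticAt ρ).analyticOrderAt_eq_zero.2 h, zero_add] at this
  exact this

lemma factor_finset (G : ℂ → ℂ) (hG : Differentiable ℂ G) (h0 : ∃ z, G z ≠ 0) (Z : Finset ℂ) :
    ∃ g : ℂ → ℂ, Differentiable ℂ g ∧ (∀ ρ ∈ Z, g ρ ≠ 0) ∧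
      ∀ s, G s = (∏ ρ ∈ Z, (s - ρ) ^ (analyticOrderNatAt G ρ)) * g s := by
  classical
  induction Z using Finset.induction_on with
  | empty => exact ⟨G, hG, by simp, by simp⟩
  | insert ρ0 Z hρ0 ih =>
    obtain ⟨g, hg, hgZ, hfac⟩ := ih
    have hP : Differentiable ℂ (fun s => ∏ ρ ∈ Z, (s - ρ) ^ (analyticOrderNatAt G ρ)) := by
      fun_prop
    have hP0 : (∏ ρ ∈ Z, (ρ0 - ρ) ^ (analyticOrderNatAt G ρ)) ≠ 0 := by
      refine Finset.prod_ne_zero_iff.2 fun ρ hρ => pow_ne_zero _ (sub_ne_zero.2 ?_)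
      rintro rfl; exact hρ0 hρ
    have hord : analyticOrderAt g ρ0 = (analyticOrderNatAt G ρ0 : ℕ) := by
      rw [Nat.cast_analyticOrderNatAt (order_ne_top G hG h0 ρ0),
        ← order_mul_nonvan _ g hP hg ρ0 hP0]
      congr 1
      exact (funext hfac).symm
    obtain ⟨g', hg', hg'0, hfac'⟩ := factor_one g hg ρ0 _ hord
    refine ⟨g', hg', ?_, ?_⟩
    · intro ρ hρ
      rcases Finset.mem_insert.1 hρ with rfl | hρ
      · exact hg'0
      · intro h
        exact hgZ ρ hρ (by rw [hfac' ρ, h, mul_zero])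
    · intro s
      rw [Finset.prod_insert hρ0, hfac s, hfac' s]
      ring

lemma finite_zeros (G : ℂ → ℂ) (hG : Differentiable ℂ G) (h0 : ∃ z, G z ≠ 0) (K : Set ℂ)
    (hK : IsCompact K) : {z ∈ K | G z = 0}.Finite := by
  obtain ⟨z, hz⟩ := h0
  have h1 : G ⁻¹' {0}ᶜ ∈ codiscrete ℂ :=
    AnalyticOnNhd.preimage_zero_mem_codiscrete (fun w _ => hG.analyticAt w) hz
  have h2 : G ⁻¹' {0}ᶜ ∈ codiscreteWithin K := codiscreteWithin_mono (subset_univ K) h1
  have := hK.finite_sdiff_of_mem_codiscreteWithin h2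
  refine this.subset ?_
  intro w hw
  exact ⟨hw.1, by simpa using hw.2⟩

lemma cnt_mono (f : ℂ → ℂ) {S T : Set ℂ} (h : S ⊆ T) : cnt f S ≤ cnt f T :=
  ENNReal.tsum_mono_subtype (fun z => ((analyticOrderAt f z : ℕ∞) : ℝ≥0∞)) h

lemma cnt_eq_sum (G : ℂ → ℂ) (hG : Differentiable ℂ G) (h0 : ∃ z, G z ≠ 0) (S : Set ℂ)
    (Z : Finset ℂ) (hZ : ∀ z, z ∈ Z ↔ z ∈ S ∧ G z = 0) :
    cnt G S = ((∑ ρ ∈ Z, analyticOrderNatAt G ρ : ℕ) : ℝ≥0∞) := by
  classical
  unfold cnt
  rw [tsum_subtype S (fun z => ((analyticOrderAt G z : ℕ∞) : ℝ≥0∞)), tsum_eq_sum (s := Z)]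
  · push_cast
    refine Finset.sum_congr rfl fun ρ hρ => ?_
    rw [indicator_of_mem ((hZ ρ).1 hρ).1, ← Nat.cast_analyticOrderNatAt (order_ne_top G hG h0 ρ)]
    simp
  · intro z hz
    by_cases hzS : z ∈ S
    · rw [indicator_of_mem hzS]
      have : G z ≠ 0 := fun h => hz ((hZ z).2 ⟨hzS, h⟩)
      rw [(hG.analyticAt z).analyticOrderAt_eq_zero.2 this]
      simp
    · exact indicator_of_notMem hzS _

/-- Factorization of the zeros in a closed ball, normalised by the radius. -/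
lemma factor_ball (G : ℂ → ℂ) (hG : Differentiable ℂ G) (h0 : ∃ z, G z ≠ 0) (c : ℂ) (r : ℝ)
    (hr : 0 < r) :
    ∃ (n : ℕ) (P g : ℂ → ℂ), cnt G (closedBall c r) = n ∧ Differentiable ℂ g ∧
      (∀ z ∈ closedBall c r, g z ≠ 0) ∧ (∀ s, G s = P s * g s) ∧
      (∀ s (u : ℝ), (∀ ρ ∈ closedBall c r, G ρ = 0 → ‖s - ρ‖ ≤ u * r) → ‖P s‖ ≤ u ^ n) ∧
      (∀ s (u : ℝ), 0 ≤ u → (∀ ρ ∈ closedBall c r, G ρ = 0 → u * r ≤ ‖s - ρ‖) → u ^ n ≤ ‖P s‖) := by
  classical
  have hfin := finite_zeros G hG h0 _ (isCompact_closedBall c r)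
  set Z := hfin.toFinset with hZdef
  have hZ : ∀ z, z ∈ Z ↔ z ∈ closedBall c r ∧ G z = 0 := by
    intro z; simp [hZdef]
  obtain ⟨g, hg, hgZ, hfac⟩ := factor_finset G hG h0 Z
  set n := ∑ ρ ∈ Z, analyticOrderNatAt G ρ with hn
  have hrC : (r : ℂ) ≠ 0 := by exact_mod_cast hr.ne'
  have hnorm : ∀ s, ‖(∏ ρ ∈ Z, (s - ρ) ^ (analyticOrderNatAt G ρ)) / (r : ℂ) ^ n‖
      = ∏ ρ ∈ Z, (‖s - ρ‖ / r) ^ (analyticOrderNatAt G ρ) := by
    intro s
    rw [norm_div, norm_prod, norm_pow, Complex.norm_real, Real.norm_of_nonneg hr.le, hn,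
      ← Finset.prod_pow_eq_pow_sum, ← Finset.prod_div_distrib]
    refine Finset.prod_congr rfl fun ρ _ => ?_
    rw [norm_pow, div_pow]
  refine ⟨n, fun s => (∏ ρ ∈ Z, (s - ρ) ^ (analyticOrderNatAt G ρ)) / (r : ℂ) ^ n,
    fun s => (r : ℂ) ^ n * g s, cnt_eq_sum G hG h0 _ Z hZ, by fun_prop, ?_, ?_, ?_, ?_⟩
  · intro z hz
    refine mul_ne_zero (pow_ne_zero _ hrC) ?_
    by_cases hzZ : z ∈ Z
    · exact hgZ z hzZ
    · intro h
      exact hzZ ((hZ z).2 ⟨hz, by rw [hfac z, h, mul_zero]⟩)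
  · intro s
    rw [hfac s]
    field_simp
  · intro s u hu
    rw [hnorm, hn, ← Finset.prod_pow_eq_pow_sum]
    refine Finset.prod_le_prod (fun ρ _ => by positivity) fun ρ hρ => ?_
    have := hu ρ ((hZ ρ).1 hρ).1 ((hZ ρ).1 hρ).2
    exact pow_le_pow_left₀ (by positivity) ((div_le_iff₀ hr).2 this) _
  · intro s u hu0 hu
    rw [hnorm, hn, ← Finset.prod_pow_eq_pow_sum]
    refine Finset.prod_le_prod (fun ρ _ => by positivity) fun ρ hρ => ?_
    have := hu ρ ((hZ ρ).1 hρ).1 ((hZ ρ).1 hρ).2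
    exact pow_le_pow_left₀ hu0 ((le_div_iff₀ hr).2 this) _

/-- Jensen-type upper bound. -/
lemma zeros_upper (G : ℂ → ℂ) (hG : Differentiable ℂ G) (c : ℂ) (r B : ℝ) (hr : 0 < r)
    (hc : 1 / 2 ≤ ‖G c‖) (hB : ∀ z ∈ closedBall c (3 * r), ‖G z‖ ≤ Real.exp B) :
    cnt G (closedBall c r) ≤ ENNReal.ofReal (2 * B + 1) := by
  have h0 : ∃ z, G z ≠ 0 := ⟨c, fun h => by rw [h, norm_zero] at hc; linarith⟩
  obtain ⟨n, P, g, hcnt, hg, hg0, hfac, hup, hlow⟩ := factor_ball G hG h0 c r hr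
  have hsph : ∀ z ∈ frontier (ball c (3 * r)), ‖g z‖ ≤ Real.exp B / 2 ^ n := by
    intro z hz
    rw [frontier_ball c (by positivity)] at hz
    have hz' : ‖z - c‖ = 3 * r := by simpa [dist_eq_norm] using hz
    have h1 : (2 : ℝ) ^ n ≤ ‖P z‖ := by
      refine hlow z 2 (by norm_num) fun ρ hρ _ => ?_
      have hρ' : ‖ρ - c‖ ≤ r := by simpa [dist_eq_norm] using hρ
      have : ‖z - c‖ ≤ ‖z - ρ‖ + ‖ρ - c‖ := by
        simpa using norm_add_le (z - ρ) (ρ - c)
      linarith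
    have h2 := hB z (sphere_subset_closedBall hz)
    rw [hfac z, norm_mul] at h2
    rw [le_div_iff₀ (by positivity)]
    nlinarith [norm_nonneg (g z)]
  have hgc : ‖g c‖ ≤ Real.exp B / 2 ^ n :=
    norm_le_of_forall_mem_frontier_norm_le isBounded_ball hg.diffContOnCl hsph
      (subset_closure (mem_ball_self (by positivity)))
  have hPc : ‖P c‖ ≤ 1 ^ n := by
    refine hup c 1 fun ρ hρ _ => ?_
    have hρ' : ‖ρ - c‖ ≤ r := by simpa [dist_eq_norm] using hρ
    rw [norm_sub_rev]; linarith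
  rw [hfac c, norm_mul] at hc
  rw [one_pow] at hPc
  have h3 : 1 / 2 ≤ Real.exp B / 2 ^ n := by
    calc 1 / 2 ≤ ‖P c‖ * ‖g c‖ := hc
      _ ≤ 1 * (Real.exp B / 2 ^ n) := by gcongr
      _ = _ := one_mul _
  rw [le_div_iff₀ (by positivity)] at h3
  have h4 : (n : ℝ) * Real.log 2 ≤ Real.log 2 + B := by
    have : Real.log ((2 : ℝ) ^ n) ≤ Real.log (2 * Real.exp B) :=
      Real.log_le_log (by positivity) (by linarith)
    rwa [Real.log_pow, Real.log_mul (by norm_num) (by positivity), Real.log_exp] at this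
  have hl : (1 / 2 : ℝ) < Real.log 2 := by have := Real.log_two_gt_d9; linarith
  have hB0 : - Real.log 2 ≤ B := by nlinarith [Nat.cast_nonneg (α := ℝ) n]
  have h5 : (n : ℝ) ≤ 2 * B + 1 ∨ n = 0 := by
    rcases Nat.eq_zero_or_pos n with h | h
    · exact Or.inr h
    · left
      have : (1 : ℝ) ≤ n := by exact_mod_cast h
      nlinarith
  rw [hcnt]
  rcases h5 with h | h
  · rw [← ENNReal.ofReal_natCast]
    exact ENNReal.ofReal_le_ofReal h
  · simp [h]

lemma three_circles (k : ℂ → ℂ) (r x y : ℝ) (hr : 0 < r) (q : ℂ) (hq : ‖q‖ = 4 / 5 * r)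
    (hk : DifferentiableOn ℂ k (ball 0 r)) (hx : ∀ u, ‖u‖ = r / 16 → ‖k u‖ ≤ x)
    (hy : ∀ u, ‖u‖ ≤ 9 / 10 * r → ‖k u‖ ≤ y) :
    ‖k q‖ ≤ x ^ (1 - (0 - Real.log (5 / 64)) / (Real.log (9 / 8) - Real.log (5 / 64))) *
      y ^ ((0 - Real.log (5 / 64)) / (Real.log (9 / 8) - Real.log (5 / 64))) := by
  have hl : Real.log (5 / 64) < 0 := Real.log_neg (by norm_num) (by norm_num)
  have hu : 0 < Real.log (9 / 8) := Real.log_pos (by norm_num)
  have hnorm : ∀ w : ℂ, ‖q * exp w‖ = 4 / 5 * r * Real.exp w.re := by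
    intro w; rw [norm_mul, hq, Complex.norm_exp]
  have hle : ∀ w ∈ HadamardThreeLines.verticalClosedStrip (Real.log (5 / 64)) (Real.log (9 / 8)),
      ‖q * exp w‖ ≤ 9 / 10 * r := by
    intro w hw
    have h1 : w.re ≤ Real.log (9 / 8) := hw.2
    have h2 : Real.exp w.re ≤ 9 / 8 := by
      calc Real.exp w.re ≤ Real.exp (Real.log (9 / 8)) := Real.exp_le_exp.2 h1
        _ = 9 / 8 := Real.exp_log (by norm_num)
    rw [hnorm]; nlinarith
  have hdiff : DifferentiableOn ℂ (fun w => k (q * exp w))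
      (HadamardThreeLines.verticalClosedStrip (Real.log (5 / 64)) (Real.log (9 / 8))) := by
    refine hk.comp (by fun_prop) fun w hw => ?_
    have := hle w hw
    rw [mem_ball_zero_iff]; linarith
  have key := HadamardThreeLines.norm_le_interp_of_mem_verticalClosedStrip'
    (f := fun w => k (q * exp w)) (z := 0) (a := x) (b := y) (l := Real.log (5 / 64))
    (u := Real.log (9 / 8)) (by linarith) ⟨by simpa using hl.le, by simpa using hu.le⟩ ?_ ?_ ?_ ?_
  · simpa using key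
  · refine DifferentiableOn.diffContOnCl ?_
    refine hdiff.mono ?_
    rw [HadamardThreeLines.verticalStrip, closure_preimage_re, closure_Ioo (by linarith)]
    exact subset_rfl
  · refine ⟨y, ?_⟩
    rintro _ ⟨w, hw, rfl⟩
    exact hy _ (hle w hw)
  · intro w hw
    have : w.re = Real.log (5 / 64) := hw
    refine hx _ ?_
    rw [hnorm, this, Real.exp_log (by norm_num)]; ring
  · intro w hw
    have : w.re = Real.log (9 / 8) := hw
    refine hy _ ?_
    rw [hnorm, this, Real.exp_log (by norm_num)]; linarith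

lemma exists_delta (θ D : ℝ) (hθ : θ < 1) (hD : 0 < D) :
    ∃ δ : ℝ, 0 < δ ∧ δ ≤ 1 / 4 ∧ (4 * δ) ^ (1 - θ) * D ≤ 1 / 4 := by
  set x := min 1 ((1 / (4 * D)) ^ (1 / (1 - θ))) with hx
  have h1 : 0 < 1 - θ := by linarith
  have hx0 : 0 < x := lt_min one_pos (by positivity)
  refine ⟨x / 4, by positivity, by have := min_le_left 1 ((1 / (4 * D)) ^ (1 / (1 - θ))); linarith,
    ?_⟩
  have h2 : (4 * (x / 4)) ^ (1 - θ) ≤ 1 / (4 * D) := by
    calc (4 * (x / 4)) ^ (1 - θ) = x ^ (1 - θ) := by congr 1; ring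
      _ ≤ ((1 / (4 * D)) ^ (1 / (1 - θ))) ^ (1 - θ) :=
        Real.rpow_le_rpow hx0.le (min_le_right _ _) h1.le
      _ = 1 / (4 * D) := by
        rw [← Real.rpow_mul (by positivity), one_div_mul_cancel h1.ne', Real.rpow_one]
  calc _ ≤ 1 / (4 * D) * D := by gcongr
    _ = 1 / 4 := by field_simp

/-- A function close to `1` on a small disc and large somewhere has many zeros. -/
lemma zeros_lower (κ : ℝ) (hκ : 0 < κ) : ∃ c0 : ℝ, 0 < c0 ∧
    ∀ (G : ℂ → ℂ) (c p : ℂ) (r B β : ℝ), Differentiable ℂ G → 0 < r →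
      (∀ z ∈ closedBall c (2 * r), ‖G z‖ ≤ Real.exp B) →
      (∀ z ∈ closedBall c (r / 4), 1 / 2 ≤ ‖G z‖ ∧ ‖G z‖ ≤ 2) →
      ‖p - c‖ = 4 / 5 * r → Real.exp β ≤ ‖G p‖ → 0 < β → B ≤ κ * β →
      ENNReal.ofReal (c0 * β - 1) ≤ cnt G (closedBall c r) := by
  set θ := (0 - Real.log (5 / 64)) / (Real.log (9 / 8) - Real.log (5 / 64)) with hθdef
  have hl : Real.log (5 / 64) < 0 := Real.log_neg (by norm_num) (by norm_num)
  have hu : 0 < Real.log (9 / 8) := Real.log_pos (by norm_num)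
  have hθ1 : θ < 1 := by rw [hθdef, div_lt_one (by linarith)]; linarith
  have hθ0 : 0 ≤ θ := div_nonneg (by linarith) (by linarith)
  obtain ⟨δ, hδ0, hδ1, hδ⟩ := exists_delta θ ((18 * (κ + 1)) ^ θ) hθ1 (by positivity)
  refine ⟨δ / 3, by positivity, ?_⟩
  intro G c p r B β hG hr hB hsm hp hβ hβ0 hBβ
  have hcc : c ∈ closedBall c (r / 4) := mem_closedBall_self (by positivity)
  have h0 : ∃ z, G z ≠ 0 := ⟨c, fun h => by have := (hsm c hcc).1; rw [h, norm_zero] at this; linarith⟩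
  obtain ⟨n, P, g, hcnt, hg, hg0, hfac, hup, hlow⟩ := factor_ball G hG h0 c r hr
  have hpB : p ∈ closedBall c (2 * r) := by rw [mem_closedBall, dist_eq_norm]; linarith
  have hβB : β ≤ B := Real.exp_le_exp.1 (hβ.trans (hB p hpB))
  -- upper bound for g
  have hsph : ∀ z ∈ frontier (ball c (2 * r)), ‖g z‖ ≤ Real.exp B := by
    intro z hz
    rw [frontier_ball c (by positivity)] at hz
    have hz' : ‖z - c‖ = 2 * r := by simpa [dist_eq_norm] using hz
    have h1 : (1 : ℝ) ^ n ≤ ‖P z‖ := by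
      refine hlow z 1 (by norm_num) fun ρ hρ _ => ?_
      have hρ' : ‖ρ - c‖ ≤ r := by simpa [dist_eq_norm] using hρ
      have : ‖z - c‖ ≤ ‖z - ρ‖ + ‖ρ - c‖ := by
        simpa using norm_add_le (z - ρ) (ρ - c)
      linarith
    have h2 := hB z (sphere_subset_closedBall hz)
    rw [hfac z, norm_mul] at h2
    rw [one_pow] at h1
    nlinarith [norm_nonneg (g z)]
  have hgB : ∀ z ∈ ball c r, ‖g z‖ ≤ Real.exp B := fun z hz =>
    norm_le_of_forall_mem_frontier_norm_le isBounded_ball hg.diffContOnCl hsph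
      (subset_closure (ball_subset_ball (by linarith) hz))
  have hPup : ∀ z ∈ ball c r, ‖P z‖ ≤ 2 ^ n := by
    intro z hz
    refine hup z 2 fun ρ hρ _ => ?_
    have hρ' : ‖ρ - c‖ ≤ r := by simpa [dist_eq_norm] using hρ
    have hz' : ‖z - c‖ < r := by simpa [dist_eq_norm] using hz
    have : ‖z - ρ‖ ≤ ‖z - c‖ + ‖ρ - c‖ := by
      simpa using norm_sub_le (z - c) (ρ - c)
    linarith
  obtain ⟨F, hF, hFre⟩ := InnerProductSpace.HarmonicOnNhd.exists_analyticOnNhd_ball_re_eq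
    (f := fun z => Real.log ‖g z‖) (z := c) (R := r)
    (fun z hz => (hg.analyticAt z).harmonicAt_log_norm (hg0 z (ball_subset_closedBall hz)))
  have hl2 : Real.log 2 ≤ 1 := by have := Real.log_two_lt_d9; linarith
  have hl2' : 0 ≤ Real.log 2 := Real.log_nonneg (by norm_num)
  have hn0 : (0 : ℝ) ≤ n := Nat.cast_nonneg n
  set m : ℝ := 1 + 3 * n with hm
  have hm0 : 0 < m := by positivity
  have hsmall : ∀ z ∈ ball c (r / 8), |(F z).re| ≤ m := by
    intro z hz
    have hz' : ‖z - c‖ < r / 8 := by simpa [dist_eq_norm] using hz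
    have hzr : z ∈ ball c r := ball_subset_ball (by linarith) hz
    have hz4 : z ∈ closedBall c (r / 4) := by rw [mem_closedBall, dist_eq_norm]; linarith
    obtain ⟨h1, h2⟩ := hsm z hz4
    have h3 : (1 / 8 : ℝ) ^ n ≤ ‖P z‖ := by
      refine hlow z (1 / 8) (by norm_num) fun ρ hρ hρ0 => ?_
      have hρ' : r / 4 < ‖ρ - c‖ := by
        by_contra hcon
        have : ρ ∈ closedBall c (r / 4) := by rw [mem_closedBall, dist_eq_norm]; linarith
        have := (hsm ρ this).1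
        rw [hρ0, norm_zero] at this; linarith
      have : ‖ρ - c‖ ≤ ‖z - ρ‖ + ‖z - c‖ := by
        have := norm_sub_le (z - c) (z - ρ)
        rw [show z - c - (z - ρ) = ρ - c by ring] at this
        linarith
      linarith
    have h4 := hPup z hzr
    have hgz : 0 < ‖g z‖ := norm_pos_iff.2 (hg0 z (ball_subset_closedBall hzr))
    rw [hfac z, norm_mul] at h1 h2
    have e : (F z).re = Real.log ‖g z‖ := hFre hzr
    rw [e, abs_le]
    constructor
    · have h5 : 1 / 2 ≤ 2 ^ n * ‖g z‖ := h1.trans (by gcongr)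
      have h6 := Real.log_le_log (by norm_num) h5
      rw [Real.log_mul (by positivity) hgz.ne', Real.log_pow, one_div, Real.log_inv] at h6
      nlinarith
    · have h5 : (1 / 8 : ℝ) ^ n * ‖g z‖ ≤ 2 := le_trans (by gcongr) h2
      have h6 := Real.log_le_log (by positivity) h5
      rw [Real.log_mul (by positivity) hgz.ne', Real.log_pow, one_div, Real.log_inv,
        show (8 : ℝ) = 2 ^ 3 by norm_num, Real.log_pow] at h6
      push_cast at h6
      nlinarith
  have hFc : |(F c).re| ≤ m := hsmall c (mem_ball_self (by positivity))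
  set k : ℂ → ℂ := fun u => F (c + u) - F c with hk
  have hmem : ∀ (R : ℝ) (u : ℂ), u ∈ ball (0 : ℂ) R → c + u ∈ ball c R := by
    intro R u hu
    simpa [dist_eq_norm] using hu
  have hkd : DifferentiableOn ℂ k (ball 0 r) := by
    refine DifferentiableOn.sub ?_ (differentiableOn_const _)
    exact hF.differentiableOn.comp (by fun_prop) (hmem r)
  have hk0 : k 0 = 0 := by simp [hk]
  have hbig : ∀ u : ℂ, ‖u‖ ≤ 9 / 10 * r → ‖k u‖ ≤ 18 * (B + m) := by
    intro u hu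
    have hum : u ∈ ball (0 : ℂ) r := by rw [mem_ball_zero_iff]; linarith
    have := borelCaratheodory_zero (M := B + m) (by linarith) hkd ?_ hr hum hk0
    · refine this.trans ?_
      rw [div_le_iff₀ (by linarith)]
      have : 0 ≤ B + m := by linarith
      nlinarith
    · intro w hw
      have hw' := hmem r w hw
      have e : (F (c + w)).re = Real.log ‖g (c + w)‖ := hFre hw'
      have h1 : Real.log ‖g (c + w)‖ ≤ B := by
        have := Real.log_le_log (norm_pos_iff.2 (hg0 _ (ball_subset_closedBall hw'))) (hgB _ hw')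
        rwa [Real.log_exp] at this
      show (k w).re ≤ B + m
      simp only [hk, sub_re]
      linarith [(abs_le.1 hFc).1]
  have hsm' : ∀ u : ℂ, ‖u‖ = r / 16 → ‖k u‖ ≤ 4 * m := by
    intro u hu
    have hum : u ∈ ball (0 : ℂ) (r / 8) := by rw [mem_ball_zero_iff]; linarith
    have := borelCaratheodory_zero (M := 2 * m) (by linarith)
      (hkd.mono (ball_subset_ball (by linarith))) ?_ (by positivity) hum hk0
    · refine this.trans ?_
      rw [div_le_iff₀ (by linarith), hu]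
      nlinarith
    · intro w hw
      have hw' := hmem _ w hw
      show (k w).re ≤ 2 * m
      simp only [hk, sub_re]
      linarith [(abs_le.1 hFc).1, (abs_le.1 (hsmall _ hw')).2]
  have h3c := three_circles k r (4 * m) (18 * (B + m)) hr (p - c) hp hkd hsm' hbig
  rw [← hθdef] at h3c
  have hpr : p ∈ ball c r := by rw [mem_ball, dist_eq_norm]; linarith
  have hFp : β - n ≤ (F p).re := by
    have e : (F p).re = Real.log ‖g p‖ := hFre hpr
    have hgp : 0 < ‖g p‖ := norm_pos_iff.2 (hg0 p (ball_subset_closedBall hpr))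
    have h1 : Real.exp β ≤ 2 ^ n * ‖g p‖ := by
      refine hβ.trans ?_
      rw [hfac p, norm_mul]
      gcongr
      exact hPup p hpr
    have h2 := Real.log_le_log (Real.exp_pos _) h1
    rw [Real.log_exp, Real.log_mul (by positivity) hgp.ne', Real.log_pow] at h2
    nlinarith
  have hkp : (F p).re - (F c).re ≤ ‖k (p - c)‖ := by
    have := re_le_norm (k (p - c))
    simpa [hk] using this
  have hfin : δ / 3 * β - 1 ≤ n := by
    by_cases hcase : δ * β ≤ m
    · nlinarith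
    · push Not at hcase
      have e1 : (4 * m) ^ (1 - θ) ≤ (4 * δ) ^ (1 - θ) * β ^ (1 - θ) := by
        rw [← Real.mul_rpow (by positivity) hβ0.le]
        exact Real.rpow_le_rpow (by positivity) (by nlinarith) (by linarith)
      have e2 : (18 * (B + m)) ^ θ ≤ (18 * (κ + 1)) ^ θ * β ^ θ := by
        rw [← Real.mul_rpow (by positivity) hβ0.le]
        exact Real.rpow_le_rpow (by linarith) (by nlinarith) hθ0
      have e3 : β ^ (1 - θ) * β ^ θ = β := by
        rw [← Real.rpow_add hβ0]; simp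
      have e4 : ‖k (p - c)‖ ≤ β / 4 := by
        calc ‖k (p - c)‖ ≤ (4 * m) ^ (1 - θ) * (18 * (B + m)) ^ θ := h3c
          _ ≤ ((4 * δ) ^ (1 - θ) * β ^ (1 - θ)) * ((18 * (κ + 1)) ^ θ * β ^ θ) := by
            have : 0 ≤ (18 * (B + m)) ^ θ := Real.rpow_nonneg (by linarith) _
            gcongr
          _ = ((4 * δ) ^ (1 - θ) * (18 * (κ + 1)) ^ θ) * (β ^ (1 - θ) * β ^ θ) := by ring
          _ ≤ 1 / 4 * β := by rw [e3]; gcongr
          _ = β / 4 := by ring
      have := (abs_le.1 hFc).2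
      nlinarith
  rw [hcnt, ← ENNReal.ofReal_natCast]
  exact ENNReal.ofReal_le_ofReal hfin

end Pool.Agent.H21.Xi
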