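import Mathlib
import Pool.Agent.H21.XiZeros
import Pool.Agent.H21.XiApprox
import Pool.Agent.H21.XiPZ

set_option autoImplicit false

open scoped ENNReal
open Complex Filter Topology Metric

namespace Pool.Agent.H21.Xi

/-- Normalised function. -/
noncomputable def GG (a τ : ℝ) (z : ℂ) : ℂ := (EE a τ (1 / 2 + I * z))⁻¹ * XiL (-a) z

noncomputable def sp (a τ : ℝ) (z : ℂ) : ℂ := 1 / 2 + I * z - 2 * a * ell τ

noncomputable def zp (a τ : ℝ) (s : ℂ) : ℂ := -I * (s + 2 * a * ell τ - 1 / 2)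

lemma sp_zp (a τ : ℝ) (s : ℂ) : sp a τ (zp a τ s) = s := by
  simp only [sp, zp]; linear_combination (-(s + 2 * a * ell τ - 1 / 2)) * I_mul_I

lemma norm_sp_sub (a τ : ℝ) (z : ℂ) (s : ℂ) : ‖sp a τ z - s‖ = ‖z - zp a τ s‖ := by
  have : sp a τ z - s = I * (z - zp a τ s) := by
    simp only [sp, zp]; linear_combination (-(s + 2 * a * ell τ - 1 / 2)) * I_mul_I
  rw [this, norm_mul, norm_I, one_mul]

lemma diff_EEinv (a τ : ℝ) (h : 64 ≤ |τ|) :
    Differentiable ℂ fun z => (EE a τ (1 / 2 + I * z))⁻¹ := by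
  refine Differentiable.inv ?_ fun z => EE_ne_zero a τ _ h
  unfold EE; fun_prop

lemma diff_GG (a τ : ℝ) (ha : 0 < a) (h : 64 ≤ |τ|) : Differentiable ℂ (GG a τ) :=
  (diff_EEinv a τ h).mul (differentiable_XiL a ha)

lemma cnt_GG (a τ : ℝ) (ha : 0 < a) (h : 64 ≤ |τ|) (S : Set ℂ) :
    cnt (GG a τ) S = cnt (XiL (-a)) S := by
  unfold cnt
  congr 1; funext z
  congr 1
  exact order_mul_nonvan _ _ (diff_EEinv a τ h) (differentiable_XiL a ha) z
    (inv_ne_zero (EE_ne_zero a τ _ h))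

lemma GG_approx (a : ℝ) (ha : 0 < a) (τ y ρ : ℝ) (z : ℂ) (hy : 8 ≤ y)
    (hτ : |τ| = y ^ 2) (hs : ‖sp a τ z - (3 + τ * I)‖ ≤ ρ) (hρ : 50 * ρ ^ 2 + 12 ≤ y)
    (hay : 400 * a ≤ y) :
    ‖GG a τ z - FF a (sp a τ z)‖ ≤
      8 / y * Real.exp ((max (3 - (sp a τ z).re) 0) ^ 2 / (4 * a)) := by
  have := main_approx a ha τ y ρ (sp a τ z) hy hτ hs hρ hay
  have e : sp a τ z + 2 * a * ell τ = 1 / 2 + I * z := by simp [sp]
  rw [e, ← XiL_eq, div_eq_inv_mul] at this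
  exact this

lemma GG_upper (a : ℝ) (ha : 0 < a) (τ y ρ : ℝ) (z : ℂ) (hy : 8 ≤ y)
    (hτ : |τ| = y ^ 2) (hs : ‖sp a τ z - (3 + τ * I)‖ ≤ ρ) (hρ : 50 * ρ ^ 2 + 12 ≤ y)
    (hay : 400 * a ≤ y) : ‖GG a τ z‖ ≤ Real.exp (ρ ^ 2 / (4 * a) + 2) := by
  have h1 := GG_approx a ha τ y ρ z hy hτ hs hρ hay
  have h2 := norm_FF_le a ha (sp a τ z)
  have hre : |(sp a τ z).re - 3| ≤ ρ := by
    have := (abs_re_le_norm _).trans hs; simpa using this
  have hρ0 : 0 ≤ ρ := (abs_nonneg _).trans hre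
  have h3 : max (3 - (sp a τ z).re) 0 ≤ ρ := max_le (by linarith [(abs_le.1 hre).1]) hρ0
  have h4 : Real.exp ((max (3 - (sp a τ z).re) 0) ^ 2 / (4 * a)) ≤ Real.exp (ρ ^ 2 / (4 * a)) := by
    have := le_max_right (3 - (sp a τ z).re) 0
    gcongr
  have h5 : 8 / y ≤ 1 := by rw [div_le_one (by linarith)]; exact hy
  have h6 := norm_le_norm_sub_add (GG a τ z) (FF a (sp a τ z))
  have h7 : (3 : ℝ) ≤ Real.exp 2 := by linarith [Real.add_one_le_exp (2 : ℝ)]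
  rw [Real.exp_add]
  set E := Real.exp ((max (3 - (sp a τ z).re) 0) ^ 2 / (4 * a))
  have hE : 0 < E := Real.exp_pos _
  nlinarith

lemma GG_right (a : ℝ) (ha : 0 < a) (τ y ρ : ℝ) (z : ℂ) (hy : 48 ≤ y)
    (hτ : |τ| = y ^ 2) (hs : ‖sp a τ z - (3 + τ * I)‖ ≤ ρ) (hρ : 50 * ρ ^ 2 + 12 ≤ y)
    (hay : 400 * a ≤ y) (h3 : 3 ≤ (sp a τ z).re) : 1 / 2 ≤ ‖GG a τ z‖ ∧ ‖GG a τ z‖ ≤ 2 := by
  have h1 := GG_approx a ha τ y ρ z (by linarith) hτ hs hρ hay
  have h2 := norm_FF_sub_one_le a ha (sp a τ z) h3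
  rw [max_eq_right (by linarith)] at h1
  have h5 : 8 / y ≤ 1 / 6 := by rw [div_le_div_iff₀ (by linarith) (by norm_num)]; linarith
  simp only [ne_eq, OfNat.ofNat_ne_zero, not_false_eq_true, zero_pow, zero_div, Real.exp_zero,
    mul_one] at h1
  have h6 : ‖GG a τ z - 1‖ ≤ 1 / 2 := by
    have := norm_sub_le_norm_sub_add_norm_sub (GG a τ z) (FF a (sp a τ z)) 1
    linarith
  have h7 := abs_norm_sub_norm_le (GG a τ z) 1
  rw [norm_one] at h7
  obtain ⟨h8, h9⟩ := abs_le.1 (h7.trans h6)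
  constructor <;> linarith

lemma ev_log_sq (C : ℝ) : ∀ᶠ x : ℝ in atTop, C * Real.log x ^ 2 + C ≤ Real.sqrt x := by
  have h1 := (isLittleO_log_rpow_rpow_atTop (2 : ℝ) (show (0 : ℝ) < 1 / 2 by norm_num)).bound
    (show 0 < 1 / (2 * (|C| + 1)) by positivity)
  filter_upwards [h1, eventually_ge_atTop (Real.exp 1)] with x hx hx1
  have hx0 : 0 < x := lt_of_lt_of_le (Real.exp_pos 1) hx1
  have hl : 1 ≤ Real.log x := by rwa [Real.le_log_iff_exp_le hx0]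
  rw [Real.rpow_two, ← Real.sqrt_eq_rpow, Real.norm_of_nonneg (by positivity),
    Real.norm_of_nonneg (Real.sqrt_nonneg _), one_div, ← div_eq_inv_mul,
    le_div_iff₀ (by positivity)] at hx
  have h2 : 1 ≤ Real.log x ^ 2 := one_le_pow₀ hl
  nlinarith [le_abs_self C, abs_nonneg C]

lemma real_window (a : ℝ) (ha : 0 < a) : ∃ C : ℝ, 0 < C ∧ ∀ᶠ x : ℝ in atTop, ∀ τ : ℝ, |τ| = x →
    cnt (XiL (-a)) {z | z.im = 0 ∧ |z.re - τ| ≤ Real.log x} ≤
      ENNReal.ofReal (C * Real.log x ^ 2) := by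
  refine ⟨9 * (4 + 3 * a) ^ 2 / (2 * a) + 5, by positivity, ?_⟩
  filter_upwards [ev_log_sq (450 * (4 + 3 * a) ^ 2 + 400 * a + 48), eventually_ge_atTop 64]
    with x hx hx64 τ hτ
  set Λ := Real.log x with hΛ
  set y := Real.sqrt x with hy
  have hΛ1 : 1 ≤ Λ := by
    rw [hΛ, Real.le_log_iff_exp_le (by linarith)]; linarith [Real.exp_one_lt_d9]
  have hτy : |τ| = y ^ 2 := by rw [hy, Real.sq_sqrt (by linarith), hτ]
  have h64 : 64 ≤ |τ| := by rwa [hτ]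
  set r := (4 + 3 * a) * Λ with hr
  have hr0 : 0 < r := by positivity
  have hΛ2 : 0 ≤ Λ ^ 2 := by positivity
  have k0 : 0 ≤ 450 * (4 + 3 * a) ^ 2 := by positivity
  have k1 : 50 * (3 * r) ^ 2 + 12 ≤ y := by rw [hr]; nlinarith
  have k2 : 400 * a ≤ y := by nlinarith
  have k3 : 48 ≤ y := by nlinarith
  set c := zp a τ (3 + τ * I) with hc
  have hup := zeros_upper (GG a τ) (diff_GG a τ ha h64) c r ((3 * r) ^ 2 / (4 * a) + 2) hr0 ?_ ?_
  · rw [cnt_GG a τ ha h64] at hup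
    refine le_trans (cnt_mono _ ?_) (hup.trans (ENNReal.ofReal_le_ofReal ?_))
    · rintro z ⟨hz1, hz2⟩
      obtain ⟨l1, l2, l3⟩ := ell_bounds τ h64
      rw [hτ, ← hΛ] at l1 l2
      rw [mem_closedBall, dist_eq_norm, hc, ← norm_sp_sub]
      refine (norm_le_abs_re_add_abs_im _).trans ?_
      have e1 : (sp a τ z - (3 + τ * I)).re = -(5 / 2 + 2 * a * (ell τ).re) := by
        simp [sp, hz1]; ring
      have e2 : (sp a τ z - (3 + τ * I)).im = (z.re - τ) - 2 * a * (ell τ).im := by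
        simp [sp]; ring
      rw [e1, e2, abs_neg, abs_of_nonneg (by nlinarith)]
      have b1 := abs_sub (z.re - τ) (2 * a * (ell τ).im)
      rw [abs_mul, abs_of_pos (by positivity : 0 < 2 * a)] at b1
      have b2 : 2 * a * |(ell τ).im| ≤ 2 * a := by nlinarith
      rw [hr]
      nlinarith
    · have : (3 * r) ^ 2 / (4 * a) * 2 = 9 * (4 + 3 * a) ^ 2 / (2 * a) * Λ ^ 2 := by
        rw [hr]; field_simp; ring
      nlinarith [one_le_pow₀ (n := 2) hΛ1]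
  · refine (GG_right a ha τ y (3 * r) c k3 hτy ?_ k1 k2 ?_).1
    · rw [hc, sp_zp, sub_self, norm_zero]; positivity
    · rw [hc, sp_zp]; simp
  · intro z hz
    refine GG_upper a ha τ y (3 * r) z (by linarith) hτy ?_ k1 k2
    rw [norm_sp_sub, ← hc, ← dist_eq_norm]; exact hz

lemma cnt_union_le (f : ℂ → ℂ) (S T : Set ℂ) : cnt f (S ∪ T) ≤ cnt f S + cnt f T :=
  ENNReal.tsum_union_le (fun z => ((analyticOrderAt f z : ℕ∞) : ℝ≥0∞)) S T

lemma cnt_cover (f : ℂ → ℂ) (X Y h B : ℝ) (hh : 0 < h) (hXY : X ≤ Y) (hB : 0 ≤ B)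
    (H : ∀ x ∈ Set.Icc X Y, cnt f {z | z.im = 0 ∧ x ≤ |z.re| ∧ |z.re| ≤ x + h} ≤ ENNReal.ofReal B) :
    cnt f {z | z.im = 0 ∧ X ≤ |z.re| ∧ |z.re| ≤ Y} ≤ ENNReal.ofReal (((Y - X) / h + 1) * B) := by
  set J := ⌊(Y - X) / h⌋₊ with hJ
  have hq : 0 ≤ (Y - X) / h := div_nonneg (by linarith) hh.le
  have hJ1 : (J : ℝ) ≤ (Y - X) / h := Nat.floor_le hq
  have hsub : {z : ℂ | z.im = 0 ∧ X ≤ |z.re| ∧ |z.re| ≤ Y} ⊆ ⋃ j ∈ Finset.range (J + 1),
      {z : ℂ | z.im = 0 ∧ X + j * h ≤ |z.re| ∧ |z.re| ≤ X + j * h + h} := by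
    rintro z ⟨h1, h2, h3⟩
    have hq' : 0 ≤ (|z.re| - X) / h := div_nonneg (by linarith) hh.le
    simp only [Set.mem_iUnion, Finset.mem_range, Set.mem_setOf_eq]
    refine ⟨⌊(|z.re| - X) / h⌋₊, Nat.lt_succ_of_le (Nat.floor_le_floor (by gcongr)), h1, ?_, ?_⟩
    · have := Nat.floor_le hq'
      rw [le_div_iff₀ hh] at this; linarith
    · have := Nat.lt_floor_add_one ((|z.re| - X) / h)
      rw [div_lt_iff₀ hh] at this; linarith
  refine (cnt_mono f hsub).trans ?_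
  refine (ENNReal.tsum_biUnion_le (fun z => ((analyticOrderAt f z : ℕ∞) : ℝ≥0∞)) _ _).trans ?_
  calc _ ≤ ∑ j ∈ Finset.range (J + 1), ENNReal.ofReal B := by
        refine Finset.sum_le_sum fun j hj => H (X + j * h) ⟨by
          have : (0 : ℝ) ≤ j * h := by positivity
          linarith, ?_⟩
        have : (j : ℝ) ≤ J := by exact_mod_cast Nat.lt_succ_iff.1 (Finset.mem_range.1 hj)
        have h2 := this.trans hJ1
        rw [le_div_iff₀ hh] at h2; linarith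
    _ = ENNReal.ofReal ((J + 1 : ℕ) * B) := by
        rw [Finset.sum_const, Finset.card_range, nsmul_eq_mul, ENNReal.ofReal_mul (by positivity),
          ENNReal.ofReal_natCast]
    _ ≤ _ := by
        apply ENNReal.ofReal_le_ofReal
        push_cast
        gcongr

lemma XiL_ne_zero (a : ℝ) (ha : 0 < a) : ∃ z, XiL (-a) z ≠ 0 := by
  set y := 400 * a + 48 with hy
  have hτ : |y ^ 2| = y ^ 2 := abs_of_nonneg (by positivity)
  have := (GG_right a ha (y ^ 2) y 0 (zp a (y ^ 2) (3 + (y ^ 2 : ℝ) * I)) (by linarith) hτ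
    (by rw [sp_zp, sub_self, norm_zero]) (by linarith) (by linarith)
    (by rw [sp_zp]; simp [← ofReal_pow])).1
  refine ⟨zp a (y ^ 2) (3 + (y ^ 2 : ℝ) * I), fun h => ?_⟩
  rw [GG, h, mul_zero, norm_zero] at this
  linarith

theorem real_upper (a : ℝ) (ha : 0 < a) : ∃ C : ℝ, 0 < C ∧ ∀ᶠ T : ℝ in atTop,
    cnt (XiL (-a)) {z | z.im = 0 ∧ ‖z‖ ≤ T} ≤ ENNReal.ofReal (C * T * Real.log T) := by
  obtain ⟨C, hC, hev⟩ := real_window a ha
  obtain ⟨X0, hX0⟩ := eventually_atTop.1 (hev.and (eventually_ge_atTop (Real.exp 1)))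
  have hX0' : 0 < X0 := lt_of_lt_of_le (Real.exp_pos 1) (hX0 X0 le_rfl).2
  obtain ⟨n0, _, _, hn0, _⟩ := factor_ball _ (differentiable_XiL a ha) (XiL_ne_zero a ha) 0 X0 hX0'
  have hwin : ∀ x h L : ℝ, X0 ≤ x → h ≤ Real.log x → Real.log x ≤ L →
      cnt (XiL (-a)) {z | z.im = 0 ∧ x ≤ |z.re| ∧ |z.re| ≤ x + h} ≤
        ENNReal.ofReal (2 * C * L ^ 2) := by
    intro x h L hx hh hL
    obtain ⟨h1, h2⟩ := hX0 x hx
    have hx0 : 0 < x := by linarith
    have hl : 1 ≤ Real.log x := by rwa [Real.le_log_iff_exp_le hx0]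
    have hsub : {z : ℂ | z.im = 0 ∧ x ≤ |z.re| ∧ |z.re| ≤ x + h} ⊆
        {z | z.im = 0 ∧ |z.re - x| ≤ Real.log x} ∪ {z | z.im = 0 ∧ |z.re - -x| ≤ Real.log x} := by
      rintro z ⟨a1, a2, a3⟩
      rcases abs_cases z.re with ⟨e, _⟩ | ⟨e, _⟩
      · left; refine ⟨a1, abs_le.2 ⟨by linarith, by linarith⟩⟩
      · right; refine ⟨a1, abs_le.2 ⟨by linarith, by linarith⟩⟩
    refine ((cnt_mono _ hsub).trans (cnt_union_le _ _ _)).trans ?_
    refine (add_le_add (h1 x (abs_of_pos hx0)) (h1 (-x) (by rw [abs_neg, abs_of_pos hx0]))).trans ?_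
    rw [← ENNReal.ofReal_add (by positivity) (by positivity)]
    apply ENNReal.ofReal_le_ofReal
    have : Real.log x ^ 2 ≤ L ^ 2 := by gcongr
    nlinarith
  refine ⟨10 * C + 1, by positivity, ?_⟩
  filter_upwards [ev_log_sq 1, eventually_ge_atTop (X0 ^ 2), eventually_ge_atTop (n0 : ℝ),
    eventually_ge_atTop (Real.exp 2)] with T hT1 hT2 hT3 hT4
  have hT0 : 0 < T := lt_of_lt_of_le (Real.exp_pos 2) hT4
  set L := Real.log T with hL
  have hL2 : 2 ≤ L := by rwa [hL, Real.le_log_iff_exp_le hT0]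
  set q := Real.sqrt T with hq
  have hqq : q * q = T := Real.mul_self_sqrt hT0.le
  have hq1 : X0 ≤ q := Real.le_sqrt_of_sq_le hT2
  have hq5 : 5 ≤ q := by nlinarith
  have hqT : q ≤ T := by nlinarith
  have hlq : Real.log q = L / 2 := by rw [hq, Real.log_sqrt hT0.le]
  have hsub : {z : ℂ | z.im = 0 ∧ ‖z‖ ≤ T} ⊆ closedBall 0 X0 ∪
      ({z | z.im = 0 ∧ X0 ≤ |z.re| ∧ |z.re| ≤ q} ∪ {z | z.im = 0 ∧ q ≤ |z.re| ∧ |z.re| ≤ T}) := by
    rintro z ⟨a1, a2⟩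
    have e : ‖z‖ = |z.re| := by
      rw [← re_add_im z, a1]; simp
    rcases le_total ‖z‖ X0 with h | h
    · left; simpa using h
    · right
      rcases le_total |z.re| q with h' | h'
      · left; exact ⟨a1, by linarith, h'⟩
      · right; exact ⟨a1, h', by linarith⟩
  have c1 := cnt_cover (XiL (-a)) X0 q 1 (2 * C * L ^ 2) one_pos hq1 (by positivity) fun x hx =>
    hwin x 1 L hx.1 (by
      rw [Real.le_log_iff_exp_le (by linarith [hx.1])]; exact (hX0 x hx.1).2)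
      (Real.log_le_log (by linarith [hx.1]) (by linarith [hx.2]))
  have c2 := cnt_cover (XiL (-a)) q T (L / 2) (2 * C * L ^ 2) (by linarith) hqT (by positivity)
    fun x hx => hwin x (L / 2) L (by linarith [hx.1])
      (by rw [← hlq]; exact Real.log_le_log (by linarith) hx.1)
      (Real.log_le_log (by linarith [hx.1]) hx.2)
  refine ((cnt_mono _ hsub).trans (cnt_union_le _ _ _)).trans ?_
  refine (add_le_add hn0.le ((cnt_union_le _ _ _).trans (add_le_add c1 c2))).trans ?_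
  have p1 : 0 ≤ ((q - X0) / 1 + 1) * (2 * C * L ^ 2) := by
    have : 0 ≤ q - X0 := by linarith
    positivity
  have p2 : 0 ≤ ((T - q) / (L / 2) + 1) * (2 * C * L ^ 2) := by
    have : 0 ≤ T - q := by linarith
    positivity
  rw [← ENNReal.ofReal_natCast, ← ENNReal.ofReal_add p1 p2,
    ← ENNReal.ofReal_add (Nat.cast_nonneg _) (add_nonneg p1 p2)]
  apply ENNReal.ofReal_le_ofReal
  have d1 : ((q - X0) / 1 + 1) * (2 * C * L ^ 2) ≤ 4 * C * T * L := by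
    calc _ ≤ (2 * q) * (2 * C * q) := by
          gcongr
          · linarith
          · linarith
      _ = 4 * C * T * 1 := by rw [← hqq]; ring
      _ ≤ _ := by gcongr; linarith
  have d2 : ((T - q) / (L / 2) + 1) * (2 * C * L ^ 2) ≤ 6 * C * T * L := by
    have : ((T - q) / (L / 2) + 1) * (2 * C * L ^ 2) = 2 * C * L * (2 * (T - q) + L) := by
      field_simp
    rw [this]
    have : L ≤ T := by nlinarith
    have : 2 * C * L * (2 * (T - q) + L) ≤ 2 * C * L * (3 * T) := by gcongr; linarith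
    linarith
  have d3 : (n0 : ℝ) ≤ T * L := by nlinarith
  nlinarith

end Pool.Agent.H21.Xi
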