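import Mathlib
import Pool.Agent.H21.XiLocal

set_option autoImplicit false

open scoped ENNReal
open Complex Filter Topology Metric

namespace Pool.Agent.H21.Xi

noncomputable def bb (a : ℝ) (M n : ℕ) : ℝ := Real.exp (-a * (Real.log n - Real.log M) ^ 2)

lemma bb_nonneg (a : ℝ) (M n : ℕ) : 0 ≤ bb a M n := (Real.exp_pos _).le

lemma bb_le_one (a : ℝ) (ha : 0 < a) (M n : ℕ) : bb a M n ≤ 1 := by
  rw [bb, Real.exp_le_one_iff]; nlinarith [sq_nonneg (Real.log n - Real.log M)]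

lemma bb_le (a : ℝ) (ha : 0 < a) (M n : ℕ) (hM : 1 ≤ M) (hn : 1 ≤ n) :
    bb a M n ≤ Real.exp (1 / a) * ((M : ℝ) / n) ^ 2 := by
  have hM' : (0 : ℝ) < M := by exact_mod_cast hM
  have hn' : (0 : ℝ) < n := by exact_mod_cast hn
  have e : ((M : ℝ) / n) ^ 2 = Real.exp (2 * (Real.log M - Real.log n)) := by
    rw [← Real.log_div hM'.ne' hn'.ne', show (2 : ℝ) = ((2 : ℕ) : ℝ) by norm_num, Real.exp_nat_mul,
      Real.exp_log (by positivity)]
  rw [e, ← Real.exp_add, bb]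
  apply Real.exp_le_exp.2
  set x := Real.log n - Real.log M
  have : 0 ≤ (a * x - 1) ^ 2 / a := by positivity
  have e2 : (a * x - 1) ^ 2 / a = a * x ^ 2 - 2 * x + 1 / a := by field_simp; ring
  have e3 : Real.log M - Real.log n = -x := by simp [x]
  rw [e3]; linarith

lemma sum_bb_ge (a : ℝ) (ha : 0 < a) (M : ℕ) (hM : 2 ≤ M) :
    Real.exp (-(2 * a)) * M ≤ ∑ n ∈ Finset.Icc 1 (M ^ 2), bb a M n ^ 2 := by
  have hM' : (0 : ℝ) < M := by exact_mod_cast (by omega : 0 < M)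
  calc Real.exp (-(2 * a)) * M = ∑ n ∈ Finset.Ioc M (2 * M), Real.exp (-(2 * a)) := by
        rw [Finset.sum_const, Nat.card_Ioc, nsmul_eq_mul, show 2 * M - M = M by omega, mul_comm]
    _ ≤ ∑ n ∈ Finset.Ioc M (2 * M), bb a M n ^ 2 := by
        refine Finset.sum_le_sum fun n hn => ?_
        obtain ⟨h1, h2⟩ := Finset.mem_Ioc.1 hn
        have h1' : (M : ℝ) ≤ n := by exact_mod_cast h1.le
        have h2' : (n : ℝ) ≤ 2 * M := by exact_mod_cast h2
        have a1 : Real.log M ≤ Real.log n := Real.log_le_log hM' h1'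
        have a2 : Real.log n ≤ Real.log (2 * M) := Real.log_le_log (by linarith) h2'
        rw [Real.log_mul (by norm_num) hM'.ne'] at a2
        have a3 := Real.log_two_lt_d9
        rw [bb, ← Real.exp_nat_mul]
        apply Real.exp_le_exp.2
        have : (Real.log n - Real.log M) ^ 2 ≤ 1 := by nlinarith
        push_cast
        nlinarith
    _ ≤ _ := by
        refine Finset.sum_le_sum_of_subset_of_nonneg (fun n hn => ?_) fun n _ _ => by positivity
        obtain ⟨h1, h2⟩ := Finset.mem_Ioc.1 hn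
        exact Finset.mem_Icc.2 ⟨by omega, by nlinarith⟩

lemma Fn_left (a : ℝ) (M n : ℕ) (τ : ℝ) :
    Fn a n (-(2 * a * Real.log M : ℝ) + τ * I) = (Real.exp (a * Real.log M ^ 2) : ℂ) *
      ((bb a M (n + 1) : ℂ) * exp (-(I * Real.log (n + 1 : ℕ) * τ))) := by
  rw [Fn, bb, ofReal_exp, ofReal_exp, ← exp_add, ← exp_add, Lg]
  congr 1; push_cast; ring

lemma FF_split (a : ℝ) (ha : 0 < a) (M : ℕ) (hM : 1 ≤ M) (τ : ℝ) :
    ‖FF a (-(2 * a * Real.log M : ℝ) + τ * I) -
      (Real.exp (a * Real.log M ^ 2) : ℂ) * dp (M ^ 2) (bb a M) τ‖ ≤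
      Real.exp (a * Real.log M ^ 2) * Real.exp (1 / a) := by
  set N := M ^ 2 with hN
  have hN1 : 1 ≤ N := Nat.one_le_pow _ _ hM
  have hN' : (0 : ℝ) < N := by exact_mod_cast hN1
  set s : ℂ := -(2 * a * Real.log M : ℝ) + τ * I with hs
  have e1 : (Real.exp (a * Real.log M ^ 2) : ℂ) * dp N (bb a M) τ =
      ∑ n ∈ Finset.range N, Fn a n s := by
    rw [dp, Finset.mul_sum, Finset.range_eq_Ico, ← Finset.Ico_add_one_right_eq_Icc,
      ← Finset.sum_Ico_add' _ 0 N 1]
    exact Finset.sum_congr rfl fun n _ => (Fn_left a M n τ).symm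
  rw [e1, FF, ← (summable_Fn a ha s).sum_add_tsum_nat_add N, add_sub_cancel_left]
  set K := Real.exp (a * Real.log M ^ 2) * Real.exp (1 / a) with hK
  have hK0 : 0 < K := by positivity
  have hb : ∀ n, ‖Fn a (n + N) s‖ ≤ K * (N * (1 / (((n + N : ℕ) : ℝ) + 1) ^ 2)) := by
    intro n
    rw [hs, Fn_left, norm_mul, norm_mul, norm_exp, Complex.norm_real, Complex.norm_real,
      Real.norm_of_nonneg (Real.exp_pos _).le, Real.norm_of_nonneg (bb_nonneg _ _ _)]
    have : (-(I * Real.log (n + N + 1 : ℕ) * τ)).re = 0 := by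
      generalize Real.log (n + N + 1 : ℕ) = u
      simp
    rw [this, Real.exp_zero, mul_one, hK, mul_assoc]
    gcongr
    refine (bb_le a ha M _ hM (by omega)).trans (le_of_eq ?_)
    rw [hN, div_pow]; push_cast; ring
  have hsum : Summable fun n : ℕ => 1 / (((n + N : ℕ) : ℝ) + 1) ^ 2 :=
    (summable_nat_add_iff (f := fun n : ℕ => 1 / ((n : ℝ) + 1) ^ 2) N).2 hasSum_inv_sq.summable
  have h1 := tsum_of_norm_bounded ((hsum.hasSum.mul_left (N : ℝ)).mul_left K) hb
  refine h1.trans ?_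
  have h2 : ∑' n : ℕ, 1 / (((n + N : ℕ) : ℝ) + 1) ^ 2 ≤ 1 / (N : ℝ) := by
    refine Real.tsum_le_of_sum_range_le (fun n => by positivity) fun n => ?_
    have : ∑ i ∈ Finset.range n, 1 / (((i + N : ℕ) : ℝ) + 1) ^ 2 ≤ 1 / (N : ℝ) - 1 / ((N : ℝ) + n) := by
      induction n with
      | zero => simp
      | succ n ih =>
        rw [Finset.sum_range_succ]
        have hn : (0 : ℝ) ≤ n := Nat.cast_nonneg n
        have : 1 / (((n + N : ℕ) : ℝ) + 1) ^ 2 ≤ 1 / (N + n) - 1 / (N + (n + 1 : ℕ)) := by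
          push_cast
          rw [div_sub_div _ _ (by positivity) (by positivity),
            div_le_div_iff₀ (by positivity) (by positivity)]
          nlinarith
        linarith
    have h3 : 0 ≤ 1 / ((N : ℝ) + n) := by positivity
    linarith
  calc _ ≤ K * (N * (1 / N)) := by gcongr
    _ = K := by field_simp

/-- Many non-real zeros near a height where the Dirichlet polynomial is large. -/
lemma good_disc (a : ℝ) (ha : 0 < a) : ∃ c0 : ℝ, 0 < c0 ∧ ∀ᶠ M : ℕ in atTop, ∀ τ : ℝ,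
    (M : ℝ) ^ 16 / 2 ≤ τ → Real.exp (-(2 * a)) * M / 4 ≤ ‖dp (M ^ 2) (bb a M) τ‖ ^ 2 →
    ENNReal.ofReal (c0 * Real.log M ^ 2) ≤ cnt (XiL (-a))
      {z | z.im ≠ 0 ∧ |z.re - τ| < 4 * a * Real.log M + 2 * a + 6} := by
  obtain ⟨c0, hc0, hlow⟩ := zeros_lower 101 (by norm_num)
  refine ⟨c0 * a / 2, by positivity, ?_⟩
  have t1 : Tendsto (fun M : ℕ => (M : ℝ)) atTop atTop := tendsto_natCast_atTop_atTop
  have t2 : Tendsto (fun M : ℕ => Real.log M) atTop atTop := Real.tendsto_log_atTop.comp t1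
  filter_upwards [t1.eventually (ev_log_sq (20000 * a ^ 2 + 400 * a + 48)),
    t1.eventually_ge_atTop 2, t1.eventually_ge_atTop (16 * Real.exp (9 / (4 * a))),
    t1.eventually_ge_atTop (4 * (Real.exp (1 / a) + 2) ^ 2 / Real.exp (-(2 * a))),
    t2.eventually_ge_atTop ((a + 3) / (2 * a)), t2.eventually_ge_atTop (2 / a),
    t2.eventually_ge_atTop (2 / (c0 * a)), t2.eventually_ge_atTop 1]
    with M m1 m2 m3 m4 m5 m6 m7 m8 τ hτ hdp
  set Λ := Real.log M with hΛ
  set A := 2 * a * Λ with hA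
  set β := a * Λ ^ 2 with hβ
  have hM1 : 1 ≤ M := by exact_mod_cast (show (1 : ℝ) ≤ M by linarith)
  have hA3 : a + 3 ≤ A := by rw [div_le_iff₀ (by positivity)] at m5; linarith
  have hβ2 : 2 ≤ β := by rw [div_le_iff₀ ha] at m6; nlinarith
  have hcβ : 2 ≤ c0 * β := by
    rw [div_le_iff₀ (by positivity)] at m7
    have : Λ * (c0 * a) * 1 ≤ Λ * (c0 * a) * Λ := by gcongr
    rw [hβ]; nlinarith
  have hM8 : (M : ℝ) ≤ M ^ 8 / 2 := by
    have : (2 : ℝ) ^ 7 ≤ M ^ 7 := by gcongr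
    have e : (M : ℝ) ^ 8 = M ^ 7 * M := by ring
    nlinarith
  have hτ0 : 0 < τ := lt_of_lt_of_le (by positivity) hτ
  set y := Real.sqrt τ with hy
  have hτy : |τ| = y ^ 2 := by rw [hy, Real.sq_sqrt hτ0.le, abs_of_pos hτ0]
  have hyM : (M : ℝ) ^ 8 / 2 ≤ y := by
    apply Real.le_sqrt_of_sq_le
    have : (0 : ℝ) ≤ M ^ 16 := by positivity
    nlinarith
  have hsM : Real.sqrt M ≤ M := Real.sqrt_le_iff.2 ⟨by positivity, by nlinarith⟩
  have hbig : (20000 * a ^ 2 + 400 * a + 48) * Λ ^ 2 + (20000 * a ^ 2 + 400 * a + 48) ≤ y := by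
    linarith
  have hΛ2 : 0 ≤ Λ ^ 2 := by positivity
  have k2 : 400 * a ≤ y := by nlinarith
  have k3 : 48 ≤ y := by nlinarith
  have k1 : 50 * (10 * A) ^ 2 + 12 ≤ y := by rw [hA]; nlinarith
  have h64 : 64 ≤ |τ| := by rw [hτy]; nlinarith
  set r := (A + 3) * 20 / 11 with hr
  have hr0 : 0 < r := by positivity
  set c := zp a τ ((3 + r / 4 : ℝ) + τ * I) with hc
  set p := zp a τ (-(A : ℝ) + τ * I) with hp
  have hdist : ∀ (z : ℂ) (u : ℝ), z ∈ closedBall c u →
      ‖sp a τ z - ((3 + r / 4 : ℝ) + τ * I)‖ ≤ u := by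
    intro z u hz
    rw [norm_sp_sub, ← hc, ← dist_eq_norm]; exact hz
  have hdist2 : ∀ z : ℂ, z ∈ closedBall c (2 * r) → ‖sp a τ z - (3 + τ * I)‖ ≤ 10 * A := by
    intro z hz
    have h1 := hdist z _ hz
    have h2 := norm_sub_le_norm_sub_add_norm_sub (sp a τ z) ((3 + r / 4 : ℝ) + τ * I) (3 + τ * I)
    have h3 : ‖(((3 + r / 4 : ℝ) : ℂ) + τ * I) - (3 + τ * I)‖ = r / 4 := by
      rw [show (((3 + r / 4 : ℝ) : ℂ) + τ * I) - (3 + τ * I) = ((r / 4 : ℝ) : ℂ) by push_cast; ring,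
        Complex.norm_real, Real.norm_of_nonneg (by positivity)]
    linarith
  have hpc : ‖p - c‖ = 4 / 5 * r := by
    rw [hc, ← norm_sp_sub, hp, sp_zp, show (-(A : ℝ) + τ * I : ℂ) - ((3 + r / 4 : ℝ) + τ * I) =
      ((-(A + 3 + r / 4) : ℝ) : ℂ) by push_cast; ring, Complex.norm_real, Real.norm_eq_abs, abs_neg,
      abs_of_pos (by positivity), hr]
    ring
  have hGp : Real.exp β ≤ ‖GG a τ p‖ := by
    have hpm : p ∈ closedBall c (2 * r) := by rw [mem_closedBall, dist_eq_norm]; linarith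
    have h1 := GG_approx a ha τ y (10 * A) p (by linarith) hτy (hdist2 p hpm) k1 k2
    rw [hp, sp_zp, ← hp] at h1
    have h2 := FF_split a ha M hM1 τ
    rw [← hΛ, ← hA, ← hβ] at h2
    have e1 : max (3 - (-(A : ℝ) + τ * I : ℂ).re) 0 = 3 + A := by
      rw [max_eq_left] <;> simp
      linarith
    rw [e1] at h1
    have e2 : Real.exp ((3 + A) ^ 2 / (4 * a)) =
        Real.exp β * (Real.exp (9 / (4 * a)) * (M : ℝ) ^ 3) := by
      have : (M : ℝ) ^ 3 = Real.exp (3 * Λ) := by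
        rw [show (3 : ℝ) = ((3 : ℕ) : ℝ) by norm_num, Real.exp_nat_mul, hΛ, Real.exp_log (by linarith)]
      rw [this, ← Real.exp_add, ← Real.exp_add]
      congr 1; rw [hA, hβ]; field_simp; ring
    have h3 : 8 / y * Real.exp ((3 + A) ^ 2 / (4 * a)) ≤ Real.exp β := by
      rw [e2, div_mul_eq_mul_div, div_le_iff₀ (by linarith)]
      have b1 : 16 * Real.exp (9 / (4 * a)) * (M : ℝ) ^ 3 ≤ M ^ 8 := by
        calc _ ≤ (M : ℝ) * M ^ 3 := by gcongr
          _ = M ^ 4 := by ring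
          _ ≤ M ^ 8 := pow_le_pow_right₀ (by linarith) (by norm_num)
      have : 8 * (Real.exp (9 / (4 * a)) * (M : ℝ) ^ 3) ≤ y := by linarith
      nlinarith [Real.exp_pos β]
    have h4 : Real.exp (1 / a) + 2 ≤ ‖dp (M ^ 2) (bb a M) τ‖ := by
      refine le_of_sq_le_sq (le_trans ?_ hdp) (norm_nonneg _)
      rw [div_le_iff₀ (Real.exp_pos _)] at m4
      linarith
    have h5 : ‖(Real.exp β : ℂ) * dp (M ^ 2) (bb a M) τ‖ =
        Real.exp β * ‖dp (M ^ 2) (bb a M) τ‖ := by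
      rw [norm_mul, Complex.norm_real, Real.norm_of_nonneg (Real.exp_pos _).le]
    have h6 := norm_sub_le_norm_sub_add_norm_sub (GG a τ p) (FF a (-(A : ℝ) + τ * I))
      ((Real.exp β : ℂ) * dp (M ^ 2) (bb a M) τ)
    have h7 := norm_le_norm_sub_add ((Real.exp β : ℂ) * dp (M ^ 2) (bb a M) τ) (GG a τ p)
    rw [norm_sub_rev] at h7
    have h8 : Real.exp β * (Real.exp (1 / a) + 2) ≤ Real.exp β * ‖dp (M ^ 2) (bb a M) τ‖ := by
      gcongr
    nlinarith
  have key := hlow (GG a τ) c p r ((10 * A) ^ 2 / (4 * a) + 2) β (diff_GG a τ ha h64) hr0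
    (fun z hz => GG_upper a ha τ y (10 * A) z (by linarith) hτy (hdist2 z hz) k1 k2)
    (fun z hz => GG_right a ha τ y (10 * A) z k3 hτy
      (hdist2 z (closedBall_subset_closedBall (by linarith) hz)) k1 k2 (by
        have := (abs_re_le_norm _).trans (hdist z _ hz)
        simp only [sub_re, add_re, ofReal_re, mul_re, I_re, mul_zero, ofReal_im, I_im, mul_one,
          sub_self, add_zero] at this
        linarith [(abs_le.1 this).1]))
    hpc hGp (by linarith) (by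
      have : (10 * A) ^ 2 / (4 * a) = 100 * β := by rw [hA, hβ]; field_simp; ring
      linarith)
  rw [cnt_GG a τ ha h64] at key
  refine le_trans (ENNReal.ofReal_le_ofReal (by rw [hβ] at hcβ; rw [hβ]; nlinarith))
    (key.trans (cnt_mono _ ?_))
  intro z hz
  obtain ⟨l1, l2, l3⟩ := ell_bounds τ h64
  have h1 := hdist z _ hz
  have h2 := (abs_re_le_norm _).trans h1
  have h3 := (abs_im_le_norm _).trans h1
  have e1 : (sp a τ z - ((3 + r / 4 : ℝ) + τ * I)).re =
      1 / 2 - z.im - 2 * a * (ell τ).re - (3 + r / 4) := by simp [sp]; ring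
  have e2 : (sp a τ z - ((3 + r / 4 : ℝ) + τ * I)).im = z.re - τ - 2 * a * (ell τ).im := by
    simp [sp]; ring
  rw [e1] at h2
  rw [e2] at h3
  constructor
  · intro h0
    have hl : 16 * Λ - 1 ≤ Real.log |τ| := by
      rw [abs_of_pos hτ0]
      have := Real.log_le_log (by positivity) hτ
      rw [Real.log_div (by positivity) (by norm_num), Real.log_pow] at this
      push_cast at this
      linarith [Real.log_two_lt_d9]
    have : 4 * A - a / 2 ≤ 2 * a * (ell τ).re := by rw [hA]; nlinarith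
    have := (abs_le.1 h2).1
    rw [h0] at this
    linarith
  · have b2 : |2 * a * (ell τ).im| ≤ 2 * a := by
      rw [abs_mul, abs_of_pos (by positivity : 0 < 2 * a)]; nlinarith
    have := abs_add_le (z.re - τ - 2 * a * (ell τ).im) (2 * a * (ell τ).im)
    rw [sub_add_cancel] at this
    linarith

theorem nonreal_lower (a : ℝ) (ha : 0 < a) : ∃ c : ℝ, 0 < c ∧ ∀ᶠ T : ℝ in atTop,
    ENNReal.ofReal (c * T * Real.log T) ≤ cnt (XiL (-a)) {z | z.im ≠ 0 ∧ |z.re| ≤ T} := by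
  classical
  obtain ⟨c0, hc0, hgood⟩ := good_disc a ha
  obtain ⟨c1, hc1, hPZ⟩ := paley_zygmund (Real.exp (1 / a)) (Real.exp (-(2 * a))) a
    (Real.one_le_exp (by positivity)) (Real.exp_pos _) ha
  refine ⟨c1 * c0 / (768 * (12 * a + 12)), by positivity, ?_⟩
  have t0 : Tendsto (fun T : ℝ => ⌊T ^ (1 / 16 : ℝ)⌋₊) atTop atTop :=
    tendsto_nat_floor_atTop.comp (tendsto_rpow_atTop (by norm_num))
  have t1 : Tendsto (fun M : ℕ => (M : ℝ)) atTop atTop := tendsto_natCast_atTop_atTop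
  have t2 : Tendsto (fun M : ℕ => Real.log M) atTop atTop := Real.tendsto_log_atTop.comp t1
  have hev := hgood.and ((t1.eventually (ev_log_sq (96 * a + 96))).and
    ((t1.eventually_ge_atTop 4).and ((t1.eventually_ge_atTop (1 / Real.exp (-(2 * a)))).and
    (t2.eventually_ge_atTop 1))))
  filter_upwards [t0.eventually hev, eventually_ge_atTop 1] with T hT hT1
  set M := ⌊T ^ (1 / 16 : ℝ)⌋₊ with hMdef
  obtain ⟨g1, m1, m2, m3, m4⟩ := hT
  have hT0 : 0 < T := by linarith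
  have hTT : (T ^ (1 / 16 : ℝ)) ^ 16 = T := by
    rw [← Real.rpow_natCast, ← Real.rpow_mul hT0.le]; norm_num
  have hMT : (M : ℝ) ^ 16 ≤ T := by
    rw [← hTT]; gcongr; exact Nat.floor_le (by positivity)
  have hTM : T ≤ ((M : ℝ) ^ 2) ^ 16 := by
    rw [← hTT]; gcongr
    have := Nat.lt_floor_add_one (T ^ (1 / 16 : ℝ))
    rw [← hMdef] at this
    nlinarith
  set Λ := Real.log M with hΛ
  have hL : Real.log T ≤ 32 * Λ := by
    have := Real.log_le_log hT0 hTM
    rw [Real.log_pow, Real.log_pow] at this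
    push_cast at this
    linarith
  set R := 8 * a * Λ + 4 * a + 12 with hR
  have hR0 : 0 < R := by positivity
  have hRΛ : R ≤ (12 * a + 12) * Λ := by rw [hR]; nlinarith
  have hsM : Real.sqrt M ≤ M := Real.sqrt_le_iff.2 ⟨by positivity, by nlinarith⟩
  have hM16 : (M : ℝ) ≤ M ^ 16 := le_self_pow₀ (by linarith) (by norm_num)
  have hRT : 8 * R ≤ T := by nlinarith
  set K := ⌊T / (4 * R)⌋₊ with hK
  have hK1 : K * R ≤ T / 4 := by
    have := Nat.floor_le (show 0 ≤ T / (4 * R) by positivity)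
    rw [← hK, le_div_iff₀ (by positivity)] at this; linarith
  have hK2 : T / 8 ≤ K * R := by
    have := Nat.lt_floor_add_one (T / (4 * R))
    rw [← hK, div_lt_iff₀ (by positivity)] at this; linarith
  have hM2 : 2 ≤ M := by exact_mod_cast (show (2 : ℝ) ≤ M by linarith)
  have hcard := hPZ M (M ^ 2) K (bb a M) R (T / 2) (by omega) (bb_nonneg a M) (bb_le_one a ha M)
    (fun n hn => bb_le a ha M n (by omega) hn) (sum_bb_ge a ha M hM2)
    (by rw [div_le_iff₀ (Real.exp_pos _)] at m3; linarith) hR0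
    (by push_cast; rw [Real.log_pow, ← hΛ, hR]; push_cast; nlinarith)
    (Nat.one_le_pow _ _ (by omega)) (by
      push_cast
      have : (4 : ℝ) ^ 4 ≤ M ^ 4 := by gcongr
      have e : (M : ℝ) ^ 16 = M ^ 4 * (M ^ 2) ^ 6 := by ring
      have : (0 : ℝ) ≤ (M ^ 2) ^ 6 := by positivity
      nlinarith)
  set Good := (Finset.range K).filter fun k : ℕ =>
    ∃ τ ∈ Set.Icc (T / 2 + k * R) (T / 2 + (k + 2) * R),
      Real.exp (-(2 * a)) * M / 4 ≤ ‖dp (M ^ 2) (bb a M) τ‖ ^ 2 with hGood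
  obtain ⟨j, hj⟩ : ∃ j : ℕ, Good.card ≤ 3 * (Good.filter fun k => k % 3 = j).card := by
    by_contra hcon
    push Not at hcon
    have := Finset.card_eq_sum_card_fiberwise (f := fun k => k % 3) (s := Good) (t := Finset.range 3)
      (fun k _ => by simpa using Nat.mod_lt k (by norm_num))
    simp only [Finset.sum_range_succ, Finset.range_zero, Finset.sum_empty] at this
    have h0 := hcon 0; have h1 := hcon 1; have h2 := hcon 2
    omega
  set Gj := Good.filter fun k => k % 3 = j with hGj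
  have hch : ∀ k : ℕ, ∃ τ : ℝ, k ∈ Good → τ ∈ Set.Icc (T / 2 + k * R) (T / 2 + (k + 2) * R) ∧
      Real.exp (-(2 * a)) * M / 4 ≤ ‖dp (M ^ 2) (bb a M) τ‖ ^ 2 := by
    intro k
    by_cases hk : k ∈ Good
    · obtain ⟨τ, h1, h2⟩ := (Finset.mem_filter.1 hk).2
      exact ⟨τ, fun _ => ⟨h1, h2⟩⟩
    · exact ⟨0, fun h => absurd h hk⟩
  choose τ hτ using hch
  let S : ℕ → Set ℂ := fun k => {z | z.im ≠ 0 ∧ |z.re - τ k| < 4 * a * Λ + 2 * a + 6}
  have hR2 : 4 * a * Λ + 2 * a + 6 = R / 2 := by rw [hR]; ring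
  have hdisj : (Gj : Set ℕ).PairwiseDisjoint S := by
    have key : ∀ k ∈ Gj, ∀ k' ∈ Gj, k < k' → Disjoint (S k) (S k') := by
      intro k hk k' hk' hlt
      obtain ⟨a1, a2⟩ := Finset.mem_filter.1 hk
      obtain ⟨b1, b2⟩ := Finset.mem_filter.1 hk'
      have h3 : (k : ℝ) + 3 ≤ k' := by exact_mod_cast (by omega : k + 3 ≤ k')
      have c1 := (hτ k a1).1.2
      have c2 := (hτ k' b1).1.1
      refine Set.disjoint_left.2 fun z hz hz' => ?_
      have d1 := abs_lt.1 hz.2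
      have d2 := abs_lt.1 hz'.2
      rw [hR2] at d1 d2
      nlinarith [d1.2, d2.1]
    intro k hk k' hk' hne
    rcases lt_or_gt_of_ne hne with h | h
    · exact key k hk k' hk' h
    · exact (key k' hk' k hk h).symm
  have hsub : (⋃ k ∈ (Gj : Set ℕ), S k) ⊆ {z | z.im ≠ 0 ∧ |z.re| ≤ T} := by
    intro z hz
    simp only [Set.mem_iUnion] at hz
    obtain ⟨k, hk, h1, h2⟩ := hz
    have a1 := (Finset.mem_filter.1 hk).1
    have a2 : (k : ℝ) + 1 ≤ K := by
      exact_mod_cast Finset.mem_range.1 (Finset.mem_filter.1 a1).1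
    obtain ⟨c1, c2⟩ := (hτ k a1).1
    have d1 := abs_lt.1 h2
    rw [hR2] at d1
    have hk0 : (0 : ℝ) ≤ k * R := by positivity
    exact ⟨h1, abs_le.2 ⟨by linarith [d1.1], by nlinarith [d1.2]⟩⟩
  refine le_trans ?_ (cnt_mono _ hsub)
  have hun : cnt (XiL (-a)) (⋃ k ∈ (Gj : Set ℕ), S k) = ∑ k ∈ Gj, cnt (XiL (-a)) (S k) := by
    unfold cnt
    rw [ENNReal.tsum_biUnion' (f := fun z => ((analyticOrderAt (XiL (-a)) z : ℕ∞) : ℝ≥0∞)) hdisj]
    exact Finset.tsum_subtype' Gj fun k => ∑' z : S k, ((analyticOrderAt (XiL (-a)) z : ℕ∞) : ℝ≥0∞)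
  rw [hun]
  calc _ ≤ ENNReal.ofReal (Gj.card * (c0 * Λ ^ 2)) := by
        apply ENNReal.ofReal_le_ofReal
        have hj' : (Good.card : ℝ) ≤ 3 * Gj.card := by exact_mod_cast hj
        have e1 : c1 * K / 3 ≤ Gj.card := by linarith
        have e2 : T ≤ 8 * K * ((12 * a + 12) * Λ) := by
          have : (K : ℝ) * R ≤ K * ((12 * a + 12) * Λ) := by gcongr
          linarith
        have hlT : 0 ≤ Real.log T := Real.log_nonneg hT1
        calc c1 * c0 / (768 * (12 * a + 12)) * T * Real.log T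
            ≤ c1 * c0 / (768 * (12 * a + 12)) * (8 * K * ((12 * a + 12) * Λ)) * (32 * Λ) := by
              gcongr
          _ = c1 * K / 3 * (c0 * Λ ^ 2) := by field_simp; ring
          _ ≤ _ := by gcongr
    _ = ∑ k ∈ Gj, ENNReal.ofReal (c0 * Λ ^ 2) := by
        rw [Finset.sum_const, nsmul_eq_mul, ENNReal.ofReal_mul (by positivity),
          ENNReal.ofReal_natCast]
    _ ≤ _ := by
        refine Finset.sum_le_sum fun k hk => ?_
        have a1 := (Finset.mem_filter.1 hk).1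
        have hk0 : (0 : ℝ) ≤ k * R := by positivity
        exact g1 (τ k) (by linarith [(hτ k a1).1.1]) (hτ k a1).2

end Pool.Agent.H21.Xi
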