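import Pool.Agent.H21.ZarDef

set_option autoImplicit false

namespace Pool.Agent.H21.Zar

open Finset

variable {m n : ℕ}

lemma bddz : BddAbove {s | ∃ E : Finset (Fin m × Fin n), C4Free E ∧ E.card = s} :=
  ⟨_, by rintro _ ⟨E, -, rfl⟩; exact card_le_univ E⟩

lemma exz (m n : ℕ) : ∃ E : Finset (Fin m × Fin n), C4Free E ∧ E.card = z m n :=
  Nat.sSup_mem (s := {s | ∃ E : Finset (Fin m × Fin n), C4Free E ∧ E.card = s})
    ⟨0, ∅, by simp [C4Free], rfl⟩ bddz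

lemma size_le (G : Aug m n) : G.size ≤ Fintype.card (Fin m × Fin n) +
    Fintype.card (Finset (Fin m × Fin n)) + Fintype.card (Finset (Fin m × Fin n)) :=
  add_le_add (add_le_add (card_le_univ _) (card_le_univ _)) (card_le_univ _)

lemma lowcols {E : Finset (Fin m × Fin n)} (hE : C4Free E) {b : ℕ} (hb : m * m + b ≤ n) :
    ∃ c : Fin b → Fin n, c.Injective ∧ ∀ y i k, (i, c y) ∈ E → (k, c y) ∈ E → i = k := by
  classical
  set B := univ.filter fun j : Fin n => ∃ p : Fin m × Fin m, p.1 ≠ p.2 ∧ (p.1, j) ∈ E ∧ (p.2, j) ∈ E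
  have hB : B.card ≤ m * m := by
    have h : ∀ j : B, ∃ p : Fin m × Fin m, p.1 ≠ p.2 ∧ (p.1, j.1) ∈ E ∧ (p.2, j.1) ∈ E :=
      fun j => (mem_filter.1 j.2).2
    choose f hf using h
    have : f.Injective := fun j l hjl => by
      by_contra hne
      exact hE ⟨(f j).1, (f j).2, j, l, (hf j).1, fun h => hne (Subtype.ext h), (hf j).2.1,
        hjl ▸ (hf l).2.1, (hf j).2.2, hjl ▸ (hf l).2.2⟩
    simpa using Fintype.card_le_of_injective f this
  have h2 : b ≤ Bᶜ.card := by rw [card_compl, Fintype.card_fin]; omega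
  obtain ⟨c⟩ : Nonempty (Fin b ↪ (Bᶜ : Finset (Fin n))) :=
    Function.Embedding.nonempty_of_card_le (by rwa [Fintype.card_fin, Fintype.card_coe])
  refine ⟨fun y => (c y).1, Subtype.val_injective.comp c.injective, fun y i k hi hk => ?_⟩
  by_contra hne
  exact mem_compl.1 (c y).2 (mem_filter.2 ⟨mem_univ _, (i, k), hne, hi, hk⟩)

theorem main (a b n : ℕ) (hb0 : 0 < b) (hb : 3 * (a + 1) * (3 * (a + 1)) + 3 * b ≤ n) :
    ∃ G : Aug (3 * (a + 1)) n, G.Good ∧ G.E1.card = z (3 * (a + 1)) n ∧ a * b ≤ G.size := by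
  classical
  obtain ⟨E, hE, hz⟩ := exz (3 * (a + 1)) n
  obtain ⟨c0, hc0, hc1⟩ := lowcols hE hb
  have : Nonempty (Fin 3 × Fin b) := ⟨(0, ⟨0, hb0⟩)⟩
  set c : Fin 3 × Fin b → Fin n := fun p => c0 (finProdFinEquiv p)
  have hc : c.Injective := hc0.comp finProdFinEquiv.injective
  set r : Fin 3 × Fin (a + 1) ≃ Fin (3 * (a + 1)) := finProdFinEquiv
  set β : Fin (3 * (a + 1)) → Fin 3 := fun i => (r.symm i).1
  set γ : Fin n → Fin 3 := fun j => (Function.invFun c j).1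
  have hγ : ∀ p, γ (c p) = p.1 := fun p => by simp only [γ, Function.leftInverse_invFun hc p]
  have hβ : ∀ p, β (r p) = p.1 := fun p => by simp [β]
  set cell : Fin a × Fin b → Fin 3 → Fin (3 * (a + 1)) × Fin n :=
    fun p s => (r (s, p.1.succ), c (s, p.2))
  have hcell : ∀ p s p' s', cell p s = cell p' s' → p = p' ∧ s = s' := by
    intro p s p' s' h
    have h1 := r.injective (congrArg Prod.fst h)
    have h2 := hc (congrArg Prod.snd h)
    simp only [Prod.mk.injEq, Fin.succ_inj] at h1 h2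
    exact ⟨Prod.ext h1.2 h2.2, h1.1⟩
  set e : Fin a × Fin b → Finset (Fin (3 * (a + 1)) × Fin n) := fun p => univ.image (cell p)
  have hme : ∀ p x, x ∈ e p ↔ ∃ s, cell p s = x := fun p x => by simp [e]
  have he3 : ∀ p, (e p).card = 3 := fun p => by
    rw [card_image_of_injective _ fun s s' h => (hcell _ _ _ _ h).2]; simp
  set A := E.filter fun x => ¬ ∃ p, c p = x.2
  set B := univ.image fun p : Fin 3 × Fin b => (r (p.1, 0), c p)
  have hAB : Disjoint A B := by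
    rw [disjoint_left]
    intro x hx hx'
    obtain ⟨p, -, rfl⟩ := mem_image.1 hx'
    exact (mem_filter.1 hx).2 ⟨p, rfl⟩
  have h1 : ∀ i p, (i, c p) ∈ A ∪ B → i = r (p.1, 0) := by
    intro i p h
    rcases mem_union.1 h with h | h
    · exact absurd ⟨p, rfl⟩ (mem_filter.1 h).2
    · obtain ⟨p', -, h⟩ := mem_image.1 h
      obtain ⟨rfl, h'⟩ := Prod.mk.inj h
      rw [hc h']
  have h4 : C4Free (A ∪ B) := by
    rintro ⟨i, k, j, l, hik, hjl, a1, a2, a3, a4⟩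
    have hA : ∀ j, (i, j) ∈ A ∪ B → (k, j) ∈ A ∪ B → (i, j) ∈ E ∧ (k, j) ∈ E := by
      intro j b1 b2
      have : ¬ ∃ p, c p = j := by
        rintro ⟨p, rfl⟩
        exact hik ((h1 _ _ b1).trans (h1 _ _ b2).symm)
      have hh : ∀ i, (i, j) ∈ A ∪ B → (i, j) ∈ E := fun i h => by
        rcases mem_union.1 h with h | h
        · exact (mem_filter.1 h).1
        · obtain ⟨p', -, h⟩ := mem_image.1 h
          exact absurd ⟨p', (Prod.mk.inj h).2⟩ this
      exact ⟨hh _ b1, hh _ b2⟩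
    exact hE ⟨i, k, j, l, hik, hjl, (hA j a1 a3).1, (hA l a2 a4).1, (hA j a1 a3).2, (hA l a2 a4).2⟩
  have hcard : (A ∪ B).card = z (3 * (a + 1)) n := by
    refine le_antisymm (le_csSup bddz ⟨_, h4, rfl⟩) ?_
    rw [← hz, card_union_of_disjoint hAB, ← card_filter_add_card_filter_not (s := E)
      (fun x => ∃ p, c p = x.2), add_comm]
    refine Nat.add_le_add_left ?_ _
    refine card_le_card_of_injOn (fun x => (r (γ x.2, 0), x.2)) ?_ ?_
    · intro x hx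
      obtain ⟨p, hp⟩ := (mem_filter.1 hx).2
      exact mem_image.2 ⟨p, mem_univ _, by simp only [← hp, hγ]⟩
    · rintro ⟨i, j⟩ hx ⟨k, l⟩ hy h
      obtain rfl : j = l := (Prod.mk.inj h).2
      obtain ⟨p, rfl⟩ := (mem_filter.1 hx).2
      rw [hc1 _ i k (mem_filter.1 hx).1 (mem_filter.1 hy).1]
  have einj : e.Injective := fun p p' h => by
    obtain ⟨s, hs⟩ := (hme p' _).1 (h ▸ (hme p _).2 ⟨0, rfl⟩)
    exact (hcell _ _ _ _ hs).1.symm
  let G : Aug (3 * (a + 1)) n := ⟨A ∪ B, ∅, univ.image e, by simp, by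
    intro x hx; obtain ⟨p, -, rfl⟩ := mem_image.1 hx; exact he3 p⟩
  have hE3 : ∀ x, x ∈ G.E2 ∪ G.E3 → ∃ p, e p = x := fun x hx => by simpa [G] using hx
  have bg : ∀ p, ∀ x ∈ e p, β x.1 = γ x.2 := fun p x hx => by
    obtain ⟨s, rfl⟩ := (hme _ _).1 hx
    simp only [cell, hβ, hγ]
  have uq : ∀ p, ∀ x ∈ e p, ∀ y ∈ e p, β x.1 = β y.1 → x = y := fun p x hx y hy h => by
    obtain ⟨s, rfl⟩ := (hme _ _).1 hx
    obtain ⟨s', rfl⟩ := (hme _ _).1 hy
    simp only [cell, hβ] at h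
    rw [h]
  have oc : ∀ p, ∀ x ∈ e p, ∀ k, G.Occ (k, x.2) → β k = γ x.2 := fun p x hx k hk => by
    rcases hk with (hk | ⟨_, h, -⟩) | ⟨f, hf, hk⟩
    · obtain ⟨s, rfl⟩ := (hme _ _).1 hx
      rw [h1 _ _ hk]; simp only [cell, hβ, hγ]
    · simp [G] at h
    · obtain ⟨p', rfl⟩ := hE3 f (mem_union_right _ hf)
      exact bg _ _ hk
  refine ⟨G, ⟨⟨?_, ?_⟩, h4, ?_, ?_, ?_⟩, hcard, ?_⟩
  · intro f hf x hx hx'
    obtain ⟨p, rfl⟩ := hE3 f hf
    obtain ⟨s, rfl⟩ := (hme _ _).1 hx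
    have := r.injective (h1 _ _ hx')
    simp at this
  · intro f hf f' hf' x hx hx'
    obtain ⟨p, rfl⟩ := hE3 f hf
    obtain ⟨p', rfl⟩ := hE3 f' hf'
    obtain ⟨s, rfl⟩ := (hme _ _).1 hx
    obtain ⟨s', h⟩ := (hme _ _).1 hx'
    rw [(hcell _ _ _ _ h).1]
  · rintro ⟨i, k, j, l, -, -, f, hf, f', hf', -, hs, hc2, -⟩
    obtain ⟨p, rfl⟩ := hE3 f hf
    obtain ⟨p', rfl⟩ := hE3 f' hf'
    have hh : ∀ x ∈ ({(i, j), (i, l), (k, j), (k, l)} : Finset _), β x.1 = γ x.2 := fun x hx =>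
      (mem_union.1 (hs hx)).elim (bg _ _) (bg _ _)
    have e1 := hh (i, j) (by simp)
    have e2 := hh (k, j) (by simp)
    have hh' : ∀ x ∈ ({(i, j), (i, l), (k, j), (k, l)} : Finset _), β x.1 = γ j := by
      simp only [mem_insert, mem_singleton]
      rintro x (rfl | rfl | rfl | rfl) <;> assumption
    obtain ⟨x, hx, y, hy, hxy⟩ := one_lt_card.1 (by rw [hc2]; norm_num)
    exact hxy (uq p x (mem_inter.1 hx).1 y (mem_inter.1 hy).1
      ((hh' x (mem_inter.1 hx).2).trans (hh' y (mem_inter.1 hy).2).symm))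
  · rintro ⟨i, j, p, q, k, l, h, -⟩
    simp [G] at h
  · rintro ⟨i, j, p, q, u, v, k, l, h, -, -, -, -, -, -, ho, -⟩
    obtain ⟨t, ht⟩ := hE3 _ (mem_union_right _ h)
    have m1 : (i, j) ∈ e t := by simp [ht]
    have m2 : (p, q) ∈ e t := by simp [ht]
    have o1 := oc t _ m1 k (ho _ (by simp))
    have o2 := oc t _ m2 k (ho _ (by simp))
    have := uq t _ m1 _ m2 (by rw [bg t _ m1, bg t _ m2, ← o1, ← o2])
    have h3 := he3 t
    rw [ht, this, insert_eq_of_mem (mem_insert_self _ _)] at h3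
    exact absurd (h3 ▸ card_le_two) (by norm_num)
  · have : G.E3.card = a * b := by simp [G, card_image_of_injective _ einj]
    unfold Aug.size; omega

theorem unb (f : ℕ → ℕ → ℕ) (hf : ∀ m n (G : Aug m n), G.Good → G.E1.card = z m n → G.size ≤ f m n) :
    ¬ ∃ C : ℝ, ∀ m n : ℕ, 2 ≤ m → 2 ≤ n → (f m n : ℝ) ≤ C * (m * √n + n) := by
  rintro ⟨C, hC⟩
  obtain ⟨a, ha⟩ := exists_nat_gt (6 * C)
  set m := 3 * (a + 1) with hm
  have hm3 : 3 ≤ m := by omega
  obtain ⟨G, h1, h2, h3⟩ := main a (m * m) ((2 * m) ^ 2) (by positivity) (by rw [← hm]; nlinarith)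
  have h4 := hC m ((2 * m) ^ 2) (by omega) (by nlinarith)
  have h5 : ((a * (m * m) : ℕ) : ℝ) ≤ f m ((2 * m) ^ 2) := by exact_mod_cast h3.trans (hf _ _ G h1 h2)
  push_cast at h4 h5
  rw [Real.sqrt_sq (by positivity)] at h4
  have : (0 : ℝ) < m * m := by positivity
  nlinarith

end Pool.Agent.H21.Zar
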