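import Mathlib

set_option autoImplicit false

namespace Pool.Agent.H21.Zar

/-- An augmented graph on the cells `Fin m × Fin n`. -/
structure Aug (m n : ℕ) where
  E1 : Finset (Fin m × Fin n)
  E2 : Finset (Finset (Fin m × Fin n))
  E3 : Finset (Finset (Fin m × Fin n))
  card2 : ∀ e ∈ E2, e.card = 2
  card3 : ∀ e ∈ E3, e.card = 3

variable {m n : ℕ}

/-- condition 1 does not occur -/
def C4Free (E : Finset (Fin m × Fin n)) : Prop :=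
  ¬ ∃ i k j l, i ≠ k ∧ j ≠ l ∧ (i, j) ∈ E ∧ (i, l) ∈ E ∧ (k, j) ∈ E ∧ (k, l) ∈ E

/-- a cell lies in `E1` or in a 2-edge -/
def Aug.Occ2 (G : Aug m n) (c : Fin m × Fin n) : Prop := c ∈ G.E1 ∨ ∃ e ∈ G.E2, c ∈ e

/-- a cell is occupied -/
def Aug.Occ (G : Aug m n) (c : Fin m × Fin n) : Prop := G.Occ2 c ∨ ∃ e ∈ G.E3, c ∈ e

/-- no cell lies in more than one edge -/
def Aug.Simple (G : Aug m n) : Prop :=
  (∀ e ∈ G.E2 ∪ G.E3, ∀ c ∈ e, c ∉ G.E1) ∧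
    ∀ e ∈ G.E2 ∪ G.E3, ∀ e' ∈ G.E2 ∪ G.E3, ∀ c, c ∈ e → c ∈ e' → e = e'

/-- cells of an edge differ pairwise in both row and column -/
def NonDeg (e : Finset (Fin m × Fin n)) : Prop :=
  ∀ c ∈ e, ∀ c' ∈ e, c ≠ c' → c.1 ≠ c'.1 ∧ c.2 ≠ c'.2

/-- condition 2 -/
def Aug.Cond2 (G : Aug m n) : Prop :=
  ∃ i k j l, i ≠ k ∧ j ≠ l ∧ ∃ e ∈ G.E2 ∪ G.E3, ∃ e' ∈ G.E2 ∪ G.E3, e ≠ e' ∧
    ({(i, j), (i, l), (k, j), (k, l)} : Finset (Fin m × Fin n)) ⊆ e ∪ e' ∧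
    (e ∩ {(i, j), (i, l), (k, j), (k, l)}).card = 2 ∧
    (e' ∩ {(i, j), (i, l), (k, j), (k, l)}).card = 2

/-- condition 3 -/
def Aug.Cond3 (G : Aug m n) : Prop :=
  ∃ i j p q k l, {(i, j), (p, q)} ∈ G.E2 ∧ k ≠ i ∧ k ≠ p ∧ l ≠ j ∧ l ≠ q ∧
    (∀ c ∈ [(k, j), (k, l), (k, q), (i, l), (p, l)], G.Occ2 c) ∧
    (NonDeg {(i, j), (p, q)} → [(k, j), (k, l), (k, q), (i, l), (p, l)].Nodup)

/-- condition 4 -/
def Aug.Cond4 (G : Aug m n) : Prop :=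
  ∃ i j p q u v k l, {(i, j), (p, q), (u, v)} ∈ G.E3 ∧ k ≠ i ∧ k ≠ p ∧ k ≠ u ∧
    l ≠ j ∧ l ≠ q ∧ l ≠ v ∧
    (∀ c ∈ [(k, j), (k, l), (k, q), (k, v), (i, l), (p, l), (u, l)], G.Occ c) ∧
    (NonDeg {(i, j), (p, q), (u, v)} →
      [(k, j), (k, l), (k, q), (k, v), (i, l), (p, l), (u, l)].Nodup)

/-- simple and generalized cycle-free -/
def Aug.Good (G : Aug m n) : Prop :=
  G.Simple ∧ C4Free G.E1 ∧ ¬ G.Cond2 ∧ ¬ G.Cond3 ∧ ¬ G.Cond4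

def Aug.size (G : Aug m n) : ℕ := G.E1.card + G.E2.card + G.E3.card

/-- the Zarankiewicz number -/
noncomputable def z (m n : ℕ) : ℕ :=
  sSup {s | ∃ E : Finset (Fin m × Fin n), C4Free E ∧ E.card = s}

noncomputable def z3A (m n : ℕ) : ℕ := sSup {s | ∃ G : Aug m n, G.Good ∧ G.size = s}

noncomputable def z3L (m n : ℕ) : ℕ :=
  sSup {s | ∃ G : Aug m n, G.Good ∧ G.E1.card = z m n ∧ G.size = s}

end Pool.Agent.H21.Zar
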