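import Mathlib

set_option autoImplicit false

open Filter Topology Set MeasureTheory

namespace Pool.Agent.H21.Zw

theorem orbit_bound {H : Type} [NormedAddCommGroup H] [InnerProductSpace ℂ H]
    (T : ℝ → H →L[ℂ] H) (h0 : T 0 = ContinuousLinearMap.id ℂ H)
    (hs : ∀ s t : ℝ, 0 ≤ s → 0 ≤ t → T (s + t) = (T s).comp (T t))
    (hc : ∀ x : H, ContinuousOn (fun t : ℝ => T t x) (Set.Ici 0))
    (hn : ∀ t : ℝ, 0 ≤ t → ‖T t‖ ≤ 1) (x y : H)
    (hxy : Tendsto (fun h : ℝ => ((h : ℂ)⁻¹) • (T h x - x)) (𝓝[>] 0) (𝓝 y))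
    (μ : ℂ) (hμ : μ.re < 0) (t : ℝ) (ht : 0 ≤ t) :
    ‖T t x - Complex.exp (μ * t) • x‖ ≤ t * ‖μ • x - y‖ := by
  have hd : ∀ s : ℝ, 0 ≤ s → HasDerivWithinAt (fun u : ℝ => T u x) (T s y) (Ici s) s := by
    intro s hs0
    apply HasDerivWithinAt.Ici_of_Ioi
    rw [hasDerivWithinAt_iff_tendsto_slope' (by simp)]
    have h1 : Tendsto (fun u : ℝ => u - s) (𝓝[>] s) (𝓝[>] 0) := by
      apply tendsto_nhdsWithin_of_tendsto_nhds_of_eventually_within
      · have : Tendsto (fun u : ℝ => u - s) (𝓝 s) (𝓝 (s - s)) :=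
          (continuous_id.sub continuous_const).tendsto s
        rw [sub_self] at this
        exact this.mono_left nhdsWithin_le_nhds
      · filter_upwards [self_mem_nhdsWithin] with u hu
        exact sub_pos.2 (show s < u from hu)
    have h2 := ((T s).continuous.tendsto y).comp (hxy.comp h1)
    refine h2.congr' ?_
    filter_upwards [self_mem_nhdsWithin] with u hu
    have hu' : 0 ≤ u - s := (sub_pos.2 (show s < u from hu)).le
    have e : T u = (T s).comp (T (u - s)) := by
      rw [← hs s (u - s) hs0 hu']; congr 1; ring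
    simp only [Function.comp, slope, vsub_eq_sub, map_smul, map_sub]
    rw [e, ContinuousLinearMap.comp_apply, ← Complex.ofReal_inv, Complex.coe_smul]
  set φ : ℝ → H := fun s => Complex.exp (-(μ * s)) • T s x with hφ
  have he : ∀ s : ℝ, HasDerivAt (fun u : ℝ => Complex.exp (-(μ * u)))
      (Complex.exp (-(μ * s)) * (-μ)) s := by
    intro s
    have h1 : HasDerivAt (fun u : ℝ => -(μ * (u : ℂ))) (-μ) s := by
      have := (Complex.ofRealCLM.hasDerivAt (x := s)).const_mul μ
      have h2 := this.neg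
      simp only [Complex.ofRealCLM_apply, Complex.ofReal_one, mul_one] at h2
      exact h2
    exact h1.cexp
  have hφd : ∀ s ∈ Ico (0 : ℝ) t, HasDerivWithinAt φ
      (-(Complex.exp (-(μ * s)) • T s (μ • x - y))) (Ici s) s := by
    intro s hs'
    have := (he s).hasDerivWithinAt.smul (hd s hs'.1) (s := Ici s)
    have e : -(Complex.exp (-(μ * s)) • T s (μ • x - y)) =
        Complex.exp (-(μ * s)) • T s y + (Complex.exp (-(μ * s)) * (-μ)) • T s x := by
      simp only [map_sub, map_smul, smul_sub, smul_smul, mul_neg, neg_smul]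
      abel
    rw [e]
    exact this
  have hφc : ContinuousOn φ (Icc 0 t) := by
    apply ContinuousOn.smul
    · exact (Complex.continuous_exp.comp (by fun_prop)).continuousOn
    · exact (hc x).mono Icc_subset_Ici_self
  have hb : ∀ s ∈ Ico (0 : ℝ) t, ‖-(Complex.exp (-(μ * s)) • T s (μ • x - y))‖ ≤
      Real.exp (-(μ.re * t)) * ‖μ • x - y‖ := by
    intro s hs'
    rw [norm_neg, norm_smul, Complex.norm_exp]
    have h1 : ‖T s (μ • x - y)‖ ≤ ‖μ • x - y‖ := by
      have := (T s).le_opNorm (μ • x - y)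
      have h2 := hn s hs'.1
      nlinarith [norm_nonneg (μ • x - y)]
    have h2 : Real.exp (-(μ * s)).re ≤ Real.exp (-(μ.re * t)) := by
      apply Real.exp_le_exp.2
      simp only [Complex.neg_re, Complex.mul_re, Complex.ofReal_re, Complex.ofReal_im, mul_zero,
        sub_zero]
      nlinarith [hs'.2]
    exact mul_le_mul h2 h1 (norm_nonneg _) (Real.exp_pos _).le
  have key := norm_image_sub_le_of_norm_deriv_right_le_segment hφc hφd hb t ⟨ht, le_rfl⟩
  have e : T t x - Complex.exp (μ * t) • x = Complex.exp (μ * t) • (φ t - φ 0) := by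
    simp only [hφ, h0, smul_sub, smul_smul, ← Complex.exp_add]
    simp
  rw [e, norm_smul, Complex.norm_exp]
  have e2 : (μ * t).re = μ.re * t := by simp
  rw [e2]
  have e3 : Real.exp (μ.re * t) * Real.exp (-(μ.re * t)) = 1 := by
    rw [← Real.exp_add]; simp
  calc Real.exp (μ.re * t) * ‖φ t - φ 0‖
      ≤ Real.exp (μ.re * t) * (Real.exp (-(μ.re * t)) * ‖μ • x - y‖ * (t - 0)) :=
        mul_le_mul_of_nonneg_left key (Real.exp_pos _).le
    _ = (Real.exp (μ.re * t) * Real.exp (-(μ.re * t))) * (t * ‖μ • x - y‖) := by ring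
    _ = t * ‖μ • x - y‖ := by rw [e3, one_mul]

noncomputable abbrev L := Lp ℂ 2 (volume : Measure ℝ)

theorem M_mem (k : ℝ → ℝ) (hk : Measurable k) (hb : ∀ x, |k x| ≤ 1) (g : L) :
    MemLp (fun x => (k x : ℂ) * g x) 2 volume :=
  (Lp.memLp g).of_le
    ((Complex.measurable_ofReal.comp hk).aestronglyMeasurable.mul (Lp.aestronglyMeasurable g))
    (Eventually.of_forall fun x => by
      rw [norm_mul, Complex.norm_real, Real.norm_eq_abs]
      exact mul_le_of_le_one_left (norm_nonneg _) (hb x))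

theorem M_le (k : ℝ → ℝ) (hk : Measurable k) (hb : ∀ x, |k x| ≤ 1) (g : L) :
    ‖(M_mem k hk hb g).toLp‖ ≤ 1 * ‖g‖ := by
  rw [one_mul]
  apply Lp.norm_le_norm_of_ae_le
  filter_upwards [(M_mem k hk hb g).coeFn_toLp] with x hx
  rw [hx, norm_mul, Complex.norm_real, Real.norm_eq_abs]
  exact mul_le_of_le_one_left (norm_nonneg _) (hb x)

/-- multiplication by a measurable real function bounded by one -/
noncomputable def M (k : ℝ → ℝ) (hk : Measurable k) (hb : ∀ x, |k x| ≤ 1) : L →L[ℂ] L :=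
  LinearMap.mkContinuous
    { toFun := fun g => (M_mem k hk hb g).toLp
      map_add' := fun f g => by
        rw [← MemLp.toLp_add]
        apply MemLp.toLp_congr
        filter_upwards [Lp.coeFn_add f g] with x hx
        rw [hx]; simp [mul_add]
      map_smul' := fun c f => by
        rw [RingHom.id_apply, ← MemLp.toLp_const_smul]
        apply MemLp.toLp_congr
        filter_upwards [Lp.coeFn_smul c f] with x hx
        rw [hx]; simp; ring }
    1 (M_le k hk hb)

theorem M_coe (k : ℝ → ℝ) (hk : Measurable k) (hb : ∀ x, |k x| ≤ 1) (g : L) :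
    ∀ᵐ x : ℝ, M k hk hb g x = (k x : ℂ) * g x :=
  (M_mem k hk hb g).coeFn_toLp

theorem M_norm (k : ℝ → ℝ) (hk : Measurable k) (hb : ∀ x, |k x| ≤ 1) (g : L) :
    ‖M k hk hb g‖ ≤ ‖g‖ := by
  have := M_le k hk hb g
  rw [one_mul] at this
  exact this

/-- translation -/
noncomputable def U (t : ℝ) : L →L[ℂ] L :=
  (Lp.compMeasurePreservingₗᵢ ℂ (fun x : ℝ => x - t)
    (measurePreserving_sub_right volume t)).toContinuousLinearMap

theorem U_coe (t : ℝ) (g : L) : ∀ᵐ x : ℝ, U t g x = g (x - t) :=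
  Lp.coeFn_compMeasurePreserving g (measurePreserving_sub_right volume t)

theorem U_norm (t : ℝ) (g : L) : ‖U t g‖ = ‖g‖ :=
  Lp.norm_compMeasurePreserving g (measurePreserving_sub_right volume t)

theorem U_cont (g : L) : Continuous fun t => U t g := by
  let f : ℝ → C(ℝ, ℝ) := fun t => ⟨fun x => x - t, by fun_prop⟩
  have hf : Continuous f := by
    apply ContinuousMap.continuous_of_continuous_uncurry
    show Continuous fun p : ℝ × ℝ => p.2 - p.1
    fun_prop
  exact Continuous.compMeasurePreservingLp (f := fun _ => g) continuous_const hf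
    (fun t => measurePreserving_sub_right volume t) (by simp)

theorem ae_shift {p : ℝ → Prop} (h : ∀ᵐ x : ℝ, p x) (t : ℝ) : ∀ᵐ x : ℝ, p (x - t) :=
  (measurePreserving_sub_right volume t).quasiMeasurePreserving.ae h

end Pool.Agent.H21.Zw
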