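import Pool.Agent.H21.Zw1

set_option autoImplicit false

open Filter Topology Set MeasureTheory

namespace Pool.Agent.H21.Zw

noncomputable def rho (x : ℝ) : ℝ := 1 + max x 0

theorem rho_ge (x : ℝ) : 1 ≤ rho x := by
  unfold rho; have := le_max_right x 0; linarith

theorem rho_pos (x : ℝ) : 0 < rho x := lt_of_lt_of_le one_pos (rho_ge x)

theorem rho_mono {x y : ℝ} (h : x ≤ y) : rho x ≤ rho y := by
  unfold rho; have := max_le_max_right (0 : ℝ) h; linarith

noncomputable def kap (t x : ℝ) : ℝ := rho (x - max t 0) / rho x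

theorem kap_meas (t : ℝ) : Measurable (kap t) := by
  unfold kap rho; fun_prop

theorem kap_nonneg (t x : ℝ) : 0 ≤ kap t x := (div_pos (rho_pos _) (rho_pos _)).le

theorem kap_le (t x : ℝ) : |kap t x| ≤ 1 := by
  rw [abs_of_nonneg (kap_nonneg t x), kap, div_le_one (rho_pos _)]
  exact rho_mono (by have := le_max_right t 0; linarith)

noncomputable def S (t : ℝ) : L →L[ℂ] L := (M (kap t) (kap_meas t) (kap_le t)).comp (U (max t 0))

theorem S_coe' (t : ℝ) (g : L) : ∀ᵐ x : ℝ, S t g x = (kap t x : ℂ) * g (x - max t 0) := by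
  filter_upwards [M_coe (kap t) (kap_meas t) (kap_le t) (U (max t 0) g), U_coe (max t 0) g]
    with x h1 h2
  rw [S, ContinuousLinearMap.comp_apply, h1, h2]

theorem S_coe {t : ℝ} (ht : 0 ≤ t) (g : L) :
    ∀ᵐ x : ℝ, S t g x = ((rho (x - t) / rho x : ℝ) : ℂ) * g (x - t) := by
  have := S_coe' t g
  simpa only [kap, max_eq_left ht] using this

theorem S_norm (t : ℝ) (g : L) : ‖S t g‖ ≤ ‖g‖ := by
  rw [S, ContinuousLinearMap.comp_apply]
  exact (M_norm _ _ _ _).trans (U_norm _ _).le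

theorem S_zero (g : L) : S 0 g = g := by
  apply Lp.ext
  filter_upwards [S_coe le_rfl g] with x hx
  rw [hx, sub_zero, div_self (rho_pos x).ne']; simp

theorem S_add {s t : ℝ} (hs : 0 ≤ s) (ht : 0 ≤ t) (g : L) : S (s + t) g = S s (S t g) := by
  apply Lp.ext
  filter_upwards [S_coe (add_nonneg hs ht) g, S_coe hs (S t g), ae_shift (S_coe ht g) s]
    with x h1 h2 h3
  rw [h1, h2, h3, ← mul_assoc, ← Complex.ofReal_mul, sub_sub]
  congr 2
  have := (rho_pos x).ne'
  have := (rho_pos (x - s)).ne'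
  field_simp

theorem S_cont (g : L) : Continuous fun t => S t g := by
  rw [continuous_iff_continuousAt]
  intro s
  have hb : ∀ t, ‖S t g - S s g‖ ≤ ‖U (max t 0) g - U (max s 0) g‖ + |t - s| * ‖g‖ := by
    intro t
    have e : S t g - S s g = M (kap t) (kap_meas t) (kap_le t) (U (max t 0) g - U (max s 0) g) +
        (M (kap t) (kap_meas t) (kap_le t) (U (max s 0) g) -
          M (kap s) (kap_meas s) (kap_le s) (U (max s 0) g)) := by
      simp only [S, ContinuousLinearMap.comp_apply, map_sub]; abel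
    rw [e]
    refine (norm_add_le _ _).trans (add_le_add (M_norm _ _ _ _) ?_)
    rw [← U_norm (max s 0) g]
    apply Lp.norm_le_mul_norm_of_ae_le_mul
    filter_upwards [Lp.coeFn_sub (M (kap t) (kap_meas t) (kap_le t) (U (max s 0) g))
      (M (kap s) (kap_meas s) (kap_le s) (U (max s 0) g)),
      M_coe (kap t) (kap_meas t) (kap_le t) (U (max s 0) g),
      M_coe (kap s) (kap_meas s) (kap_le s) (U (max s 0) g)] with x h1 h2 h3
    rw [h1, Pi.sub_apply, h2, h3, ← sub_mul, norm_mul, ← Complex.ofReal_sub, Complex.norm_real,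
      Real.norm_eq_abs]
    apply mul_le_mul_of_nonneg_right _ (norm_nonneg _)
    rw [kap, kap, ← sub_div, abs_div, abs_of_pos (rho_pos x), div_le_iff₀ (rho_pos x)]
    have h4 : |rho (x - max t 0) - rho (x - max s 0)| ≤ |t - s| := by
      unfold rho
      have h5 := abs_max_sub_max_le_abs (x - max t 0) (x - max s 0) 0
      have h6 := abs_max_sub_max_le_abs t s 0
      have e1 : x - max t 0 - (x - max s 0) = -(max t 0 - max s 0) := by ring
      rw [e1, abs_neg] at h5
      have e2 : 1 + max (x - max t 0) 0 - (1 + max (x - max s 0) 0) =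
          max (x - max t 0) 0 - max (x - max s 0) 0 := by ring
      rw [e2]; exact h5.trans h6
    have := rho_ge x
    nlinarith [abs_nonneg (t - s)]
  rw [ContinuousAt, tendsto_iff_norm_sub_tendsto_zero]
  refine squeeze_zero (fun _ => norm_nonneg _) hb ?_
  have hc : Continuous fun t => ‖U (max t 0) g - U (max s 0) g‖ + |t - s| * ‖g‖ := by
    have h1 : Continuous fun t : ℝ => U (max t 0) g := (U_cont g).comp (by fun_prop)
    exact (h1.sub continuous_const).norm.add (by fun_prop)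
  have := hc.tendsto s
  simpa using this

/-- restriction to a measurable set -/
noncomputable def P (A : Set ℝ) (hA : MeasurableSet A) : L →L[ℂ] L :=
  M (A.indicator fun _ => 1) (measurable_const.indicator hA)
    (fun x => by by_cases h : x ∈ A <;> simp [h])

theorem P_coe (A : Set ℝ) (hA : MeasurableSet A) (g : L) :
    ∀ᵐ x : ℝ, (x ∈ A → P A hA g x = g x) ∧ (x ∉ A → P A hA g x = 0) := by
  filter_upwards [M_coe (A.indicator fun _ => 1) (measurable_const.indicator hA)
    (fun x => by by_cases h : x ∈ A <;> simp [h]) g] with x hx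
  rw [P, hx]
  constructor <;> intro h <;> simp [h]

theorem P_norm (A : Set ℝ) (hA : MeasurableSet A) (g : L) : ‖P A hA g‖ ≤ ‖g‖ := M_norm _ _ _ _

noncomputable def W : Submodule ℂ L := LinearMap.ker (P (Iio 0) measurableSet_Iio).toLinearMap

theorem mem_W (g : L) : g ∈ W ↔ ∀ᵐ x : ℝ, x < 0 → g x = 0 := by
  rw [W, LinearMap.mem_ker, ContinuousLinearMap.coe_coe]
  constructor
  · intro h
    have h1 := P_coe (Iio 0) measurableSet_Iio g
    rw [h] at h1
    filter_upwards [h1, Lp.coeFn_zero ℂ 2 (volume : Measure ℝ)] with x h2 h3 hx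
    rw [← h2.1 hx, h3]; rfl
  · intro h
    apply Lp.ext
    filter_upwards [h, P_coe (Iio 0) measurableSet_Iio g, Lp.coeFn_zero ℂ 2 (volume : Measure ℝ)]
      with x h1 h2 h3
    rw [h3]
    by_cases hx : x < 0
    · rw [h2.1 hx, h1 hx]; rfl
    · rw [h2.2 hx]; rfl

instance : CompleteSpace W :=
  (ContinuousLinearMap.isClosed_ker (P (Iio 0) measurableSet_Iio)).completeSpace_coe

theorem S_mem (t : ℝ) {g : L} (hg : g ∈ W) : S t g ∈ W := by
  rw [mem_W] at hg ⊢
  filter_upwards [S_coe' t g, ae_shift hg (max t 0)] with x h1 h2 hx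
  rw [h1, h2 (by have := le_max_right t 0; linarith), mul_zero]

noncomputable def T (t : ℝ) : W →L[ℂ] W :=
  ((S t).comp W.subtypeL).codRestrict W (fun g => S_mem t g.2)

theorem T_coe (t : ℝ) (g : W) : (T t g : L) = S t g := rfl

theorem lower {t : ℝ} (ht : 0 ≤ t) {g : L} (hg : g ∈ W) (z : ℂ) (hz0 : z ≠ 0)
    (hz : ‖z‖ ≤ 1 / 4) : ‖g‖ ≤ (‖z‖⁻¹ + 4) * ‖S t g - z • g‖ := by
  set y := S t g - z • g with hy
  have hyc : ∀ᵐ x : ℝ, y x = S t g x - z * g x := by
    filter_upwards [Lp.coeFn_sub (S t g) (z • g), Lp.coeFn_smul z g] with x h1 h2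
    rw [hy, h1, Pi.sub_apply, h2]; rfl
  rw [mem_W] at hg
  set g1 := P (Iio t) measurableSet_Iio g with hg1
  set g2 := P (Ici t) measurableSet_Ici g with hg2
  have hsum : g = g1 + g2 := by
    apply Lp.ext
    filter_upwards [Lp.coeFn_add g1 g2, P_coe (Iio t) measurableSet_Iio g,
      P_coe (Ici t) measurableSet_Ici g] with x h1 h2 h3
    rw [h1, Pi.add_apply]
    by_cases hx : x < t
    · rw [h2.1 hx, h3.2 (not_le.2 hx), add_zero]
    · rw [h2.2 hx, h3.1 (not_lt.1 hx), zero_add]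
  have hzp : 0 < ‖z‖ := norm_pos_iff.2 hz0
  have h1 : ‖g1‖ ≤ ‖z‖⁻¹ * ‖y‖ := by
    apply Lp.norm_le_mul_norm_of_ae_le_mul
    filter_upwards [hyc, S_coe ht g, ae_shift hg t, P_coe (Iio t) measurableSet_Iio g]
      with x a1 a2 a3 a4
    by_cases hx : x < t
    · rw [a4.1 hx, a1, a2, a3 (by linarith), mul_zero, zero_sub, norm_neg, norm_mul,
        ← mul_assoc, inv_mul_cancel₀ hzp.ne', one_mul]
    · rw [a4.2 hx, norm_zero]; positivity
  have h2 : ‖g2‖ ≤ 2 * ‖P (Ici (2 * t)) measurableSet_Ici (S t g)‖ := by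
    rw [← U_norm t g2]
    apply Lp.norm_le_mul_norm_of_ae_le_mul
    filter_upwards [U_coe t g2, ae_shift (P_coe (Ici t) measurableSet_Ici g) t,
      P_coe (Ici (2 * t)) measurableSet_Ici (S t g), S_coe ht g] with x a1 a2 a3 a4
    rw [a1]
    by_cases hx : 2 * t ≤ x
    · rw [a2.1 (show t ≤ x - t by linarith), a3.1 hx, a4, norm_mul, Complex.norm_real,
        Real.norm_eq_abs, abs_of_pos (div_pos (rho_pos _) (rho_pos _)), ← mul_assoc]
      apply le_mul_of_one_le_left (norm_nonneg _)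
      rw [← mul_div_assoc, le_div_iff₀ (rho_pos _), rho, rho, max_eq_left (by linarith),
        max_eq_left (by linarith)]
      linarith
    · rw [a2.2 (show ¬ t ≤ x - t by intro h; apply hx; linarith), norm_zero]; positivity
  have h3 : ‖P (Ici (2 * t)) measurableSet_Ici g‖ ≤ ‖g2‖ := by
    apply Lp.norm_le_norm_of_ae_le
    filter_upwards [P_coe (Ici t) measurableSet_Ici g, P_coe (Ici (2 * t)) measurableSet_Ici g]
      with x a1 a2
    by_cases hx : 2 * t ≤ x
    · rw [a2.1 hx, a1.1 (show t ≤ x by linarith)]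
    · rw [a2.2 hx, norm_zero]; positivity
  have h4 : ‖P (Ici (2 * t)) measurableSet_Ici (S t g)‖ ≤ ‖y‖ + 1 / 4 * ‖g2‖ := by
    have e : S t g = y + z • g := by rw [hy]; abel
    rw [e, map_add, map_smul]
    refine (norm_add_le _ _).trans (add_le_add (P_norm _ _ _) ?_)
    rw [norm_smul]
    exact mul_le_mul hz h3 (norm_nonneg _) (by norm_num)
  have h5 : ‖g‖ ≤ ‖g1‖ + ‖g2‖ := by
    conv_lhs => rw [hsum]
    exact norm_add_le _ _
  nlinarith [norm_nonneg y]

noncomputable def g0 : L := indicatorConstLp 2 (measurableSet_Icc (a := (0 : ℝ)) (b := 1))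
  (by simp) (1 : ℂ)

theorem g0_coe : ∀ᵐ x : ℝ, g0 x = (Icc (0 : ℝ) 1).indicator (fun _ => (1 : ℂ)) x :=
  indicatorConstLp_coeFn

theorem g0_mem : g0 ∈ W := by
  rw [mem_W]
  filter_upwards [g0_coe] with x h hx
  rw [h, indicator_of_notMem]
  intro h2; linarith [h2.1]

theorem g0_norm : ‖g0‖ = 1 := by
  rw [g0, norm_indicatorConstLp (by simp) (by simp)]
  simp

theorem g0_decay {t : ℝ} (ht : 0 ≤ t) : ‖S t g0‖ ≤ 2 / (1 + t) := by
  have : ‖S t g0‖ ≤ 2 / (1 + t) * ‖U t g0‖ := by
    apply Lp.norm_le_mul_norm_of_ae_le_mul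
    filter_upwards [S_coe ht g0, U_coe t g0, ae_shift g0_coe t] with x a1 a2 a3
    rw [a1, a2, norm_mul, Complex.norm_real, Real.norm_eq_abs,
      abs_of_pos (div_pos (rho_pos _) (rho_pos _))]
    by_cases hx : x - t ∈ Icc (0 : ℝ) 1
    · apply mul_le_mul_of_nonneg_right _ (norm_nonneg _)
      rw [div_le_div_iff₀ (rho_pos _) (by linarith), rho, rho, max_eq_left hx.1,
        max_eq_left (by linarith [hx.1])]
      nlinarith [hx.1, hx.2]
    · rw [a3, indicator_of_notMem hx]; simp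
  rwa [U_norm, g0_norm, mul_one] at this

end Pool.Agent.H21.Zw
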